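import Pool.Agent.Lib.MP_b2f128_an.Base

/-!
# MP_b2f128_an, part A00 (smooth Beltrami equation and area distortion)
-/

open Complex MeasureTheory Set Filter Topology
open scoped ContDiff

namespace Pool.B2F

noncomputable section

theorem n2_sq (s : Set ℂ) (f : ℂ → ℂ) : n2 s f ^ 2 = ∫ z in s, ‖f z‖ ^ 2 := by
  rw [n2, Real.sq_sqrt]
  exact integral_nonneg fun z => by positivity

theorem A00_int_sq {s : Set ℂ} {f : ℂ → ℂ} (hf : MemLp f 2 (volume.restrict s)) :
    Integrable (fun z => ‖f z‖ ^ 2) (volume.restrict s) :=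
  (memLp_two_iff_integrable_sq_norm hf.1).1 hf

theorem A00_eq {s : Set ℂ} {f : ℂ → ℂ} (hf : MemLp f 2 (volume.restrict s)) :
    n2 s f = (eLpNorm f 2 (volume.restrict s)).toReal := by
  rw [hf.eLpNorm_eq_integral_rpow_norm (by norm_num) (by norm_num), ENNReal.toReal_ofReal (by positivity)]
  rw [n2, Real.sqrt_eq_rpow]
  simp

/-- PROOF. `n2 s f = (eLpNorm f 2 (volume.restrict s)).toReal` for `MemLp` functions, Minkowski. -/
theorem n2_add_le {s : Set ℂ} {f g : ℂ → ℂ} (hf : MemLp f 2 (volume.restrict s))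
    (hg : MemLp g 2 (volume.restrict s)) : n2 s (fun z => f z + g z) ≤ n2 s f + n2 s g := by
  have h : MemLp (fun z => f z + g z) 2 (volume.restrict s) := hf.add hg
  rw [A00_eq hf, A00_eq hg, A00_eq h, ← ENNReal.toReal_add hf.eLpNorm_ne_top hg.eLpNorm_ne_top]
  refine ENNReal.toReal_mono (ENNReal.add_ne_top.2 ⟨hf.eLpNorm_ne_top, hg.eLpNorm_ne_top⟩) ?_
  exact eLpNorm_add_le hf.1 hg.1 (by norm_num)

theorem n2_const_mul (s : Set ℂ) (c : ℂ) (f : ℂ → ℂ) : n2 s (fun z => c * f z) = ‖c‖ * n2 s f := by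
  have h : ∀ z, ‖c * f z‖ ^ 2 = ‖c‖ ^ 2 * ‖f z‖ ^ 2 := fun z => by rw [norm_mul, mul_pow]
  simp only [n2, h]
  rw [integral_const_mul, Real.sqrt_mul (by positivity), Real.sqrt_sq (norm_nonneg _)]

theorem n2_le_of_norm_le {s : Set ℂ} {f g : ℂ → ℂ} {k : ℝ} (hk : 0 ≤ k) (hs : MeasurableSet s)
    (hg : MemLp g 2 (volume.restrict s)) (h : ∀ z ∈ s, ‖f z‖ ≤ k * ‖g z‖) :
    n2 s f ≤ k * n2 s g := by
  have h1 : ∫ z in s, ‖f z‖ ^ 2 ≤ ∫ z in s, k ^ 2 * ‖g z‖ ^ 2 := by
    refine integral_mono_of_nonneg (Eventually.of_forall fun z => by positivity)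
      ((A00_int_sq hg).const_mul _) ?_
    refine (ae_restrict_iff' hs).2 (Eventually.of_forall fun z hz => ?_)
    have := h z hz
    simp only
    rw [← mul_pow]
    exact pow_le_pow_left₀ (norm_nonneg _) this 2
  rw [integral_const_mul] at h1
  calc n2 s f ≤ Real.sqrt (k ^ 2 * ∫ z in s, ‖g z‖ ^ 2) := Real.sqrt_le_sqrt h1
    _ = k * n2 s g := by rw [Real.sqrt_mul (by positivity), Real.sqrt_sq hk]; rfl

theorem n2_mono {s t : Set ℂ} (hst : s ⊆ t) {f : ℂ → ℂ} (hf : MemLp f 2 (volume.restrict t)) :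
    n2 s f ≤ n2 t f := by
  refine Real.sqrt_le_sqrt ?_
  exact setIntegral_mono_set (A00_int_sq hf) (Eventually.of_forall fun z => by positivity)
    (Eventually.of_forall hst)

/-- Cauchy-Schwarz -/
theorem integral_norm_le_n2 {s : Set ℂ} (hs : MeasurableSet s) (hs' : volume s ≠ ⊤) {f : ℂ → ℂ}
    (hf : MemLp f 2 (volume.restrict s)) :
    ∫ z in s, ‖f z‖ ≤ Real.sqrt (volume s).toReal * n2 s f := by
  have : IsFiniteMeasure (volume.restrict s) := ⟨by rw [Measure.restrict_apply_univ]; exact hs'.lt_top⟩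
  have hi : Integrable (fun z => ‖f z‖) (volume.restrict s) :=
    (hf.integrable (by norm_num)).norm
  have hi2 := A00_int_sq hf
  set A := (volume s).toReal with hA
  set J := ∫ z in s, ‖f z‖ ^ 2 with hJ
  set T := ∫ z in s, ‖f z‖ with hT
  have hA0 : 0 ≤ A := ENNReal.toReal_nonneg
  have hT0 : 0 ≤ T := integral_nonneg fun z => norm_nonneg _
  have hJ0 : 0 ≤ J := integral_nonneg fun z => by positivity
  have key : ∀ t : ℝ, 0 ≤ A * t ^ 2 - 2 * t * T + J := by
    intro t
    have h1 : 0 ≤ ∫ z in s, (t - ‖f z‖) ^ 2 := integral_nonneg fun z => by positivity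
    have h2 : ∀ z, (t - ‖f z‖) ^ 2 = t ^ 2 - 2 * t * ‖f z‖ + ‖f z‖ ^ 2 := fun z => by ring
    simp only [h2] at h1
    have i1 : Integrable (fun _ : ℂ => t ^ 2) (volume.restrict s) := integrable_const _
    have i2 : Integrable (fun z => 2 * t * ‖f z‖) (volume.restrict s) := hi.const_mul _
    have i3 : Integrable (fun z => t ^ 2 - 2 * t * ‖f z‖) (volume.restrict s) := i1.sub i2
    rw [integral_add i3 hi2, integral_sub i1 i2, integral_const, integral_const_mul] at h1
    have h3 : (volume.restrict s).real univ = A := by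
      rw [Measure.real, Measure.restrict_apply_univ]
    rw [h3, smul_eq_mul] at h1
    linarith
  have hsq : T ^ 2 ≤ A * J := by
    rcases hA0.eq_or_lt with h0 | h0
    · rw [← h0] at key ⊢
      by_contra hc
      push Not at hc
      have hT1 : 0 < T := by
        rcases hT0.eq_or_lt with h | h
        · rw [← h] at hc; simp at hc
        · exact h
      have h4 := key ((J + 1) / (2 * T))
      have h5 : 2 * ((J + 1) / (2 * T)) * T = J + 1 := by field_simp
      rw [h5] at h4
      linarith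
    · have h4 := key (T / A)
      have h5 : A * (T / A) ^ 2 - 2 * (T / A) * T + J = J - T ^ 2 / A := by field_simp; ring
      rw [h5, sub_nonneg, div_le_iff₀ h0] at h4
      linarith
  rw [n2, ← Real.sqrt_mul hA0]
  exact Real.le_sqrt_of_sq_le hsq

theorem Cc.memLp {U : Set ℂ} {f : ℂ → ℂ} (hf : Cc U f) (s : Set ℂ) :
    MemLp f 2 (volume.restrict s) :=
  (hf.smooth.continuous.memLp_of_hasCompactSupport hf.cpt).restrict s

theorem Cc.integrable {U : Set ℂ} {f : ℂ → ℂ} (hf : Cc U f) : Integrable f :=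
  hf.smooth.continuous.integrable_of_hasCompactSupport hf.cpt

theorem A00_memLp_of_bdd {s : Set ℂ} (hs' : volume s ≠ ⊤) {f : ℂ → ℂ} (hf : Continuous f) {C : ℝ}
    (h : ∀ z, ‖f z‖ ≤ C) : MemLp f 2 (volume.restrict s) := by
  have : IsFiniteMeasure (volume.restrict s) := ⟨by rw [Measure.restrict_apply_univ]; exact hs'.lt_top⟩
  exact MemLp.of_bound hf.aestronglyMeasurable C (Eventually.of_forall h)

/-- PROOF. Partial sums: `n2_add_le` and the uniform convergence of `∑ f n` on the set `s` of finite measure (Weierstrass `M`-test; the bounds `B * q ^ n` are uniform). -/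
theorem n2_tsum_le {s : Set ℂ} (hs : MeasurableSet s) (hs' : volume s ≠ ⊤) {f : ℕ → ℂ → ℂ}
    (hc : ∀ n, Continuous (f n)) {B q : ℝ} (hq : q < 1) (hq0 : 0 < q)
    (hB : ∀ n z, ‖f n z‖ ≤ B * q ^ n) {a : ℕ → ℝ} (ha : ∀ n, n2 s (f n) ≤ a n) (hsum : Summable a) :
    n2 s (fun z => ∑' n, f n z) ≤ ∑' n, a n := by
  have : IsFiniteMeasure (volume.restrict s) := ⟨by rw [Measure.restrict_apply_univ]; exact hs'.lt_top⟩
  have hgeo : Summable fun n => B * q ^ n := (summable_geometric_of_lt_one hq0.le hq).mul_left B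
  have hB0 : 0 ≤ B := by
    have := (norm_nonneg _).trans (hB 0 0)
    simpa using this
  have hpart : ∀ N z, ‖∑ n ∈ Finset.range N, f n z‖ ≤ ∑' n, B * q ^ n := by
    intro N z
    calc ‖∑ n ∈ Finset.range N, f n z‖ ≤ ∑ n ∈ Finset.range N, B * q ^ n :=
          norm_sum_le_of_le _ fun n _ => hB n z
      _ ≤ ∑' n, B * q ^ n := hgeo.sum_le_tsum _ fun n _ => by positivity
  have hcN : ∀ N, Continuous fun z => ∑ n ∈ Finset.range N, f n z := fun N =>
    continuous_finsetSum _ fun n _ => hc n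
  have hle : ∀ N, n2 s (fun z => ∑ n ∈ Finset.range N, f n z) ≤ ∑ n ∈ Finset.range N, a n := by
    intro N
    induction N with
    | zero => simp [n2]
    | succ N ih =>
      simp only [Finset.sum_range_succ]
      have h1 := n2_add_le (A00_memLp_of_bdd hs' (hcN N) (hpart N))
        (A00_memLp_of_bdd hs' (hc N) (hB N))
      exact h1.trans (add_le_add ih (ha N))
  have ha0 : ∀ n, 0 ≤ a n := fun n => (Real.sqrt_nonneg _).trans (ha n)
  have hle2 : ∀ N, n2 s (fun z => ∑ n ∈ Finset.range N, f n z) ≤ ∑' n, a n := fun N =>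
    (hle N).trans (hsum.sum_le_tsum _ fun n _ => ha0 n)
  have hlim : Tendsto (fun N => n2 s (fun z => ∑ n ∈ Finset.range N, f n z)) atTop
      (𝓝 (n2 s (fun z => ∑' n, f n z))) := by
    refine (Real.continuous_sqrt.tendsto _).comp ?_
    refine tendsto_integral_of_dominated_convergence (fun _ => (∑' n, B * q ^ n) ^ 2) ?_
      (integrable_const _) ?_ ?_
    · intro N
      exact ((hcN N).norm.pow 2).aestronglyMeasurable
    · intro N
      refine Eventually.of_forall fun z => ?_
      rw [Real.norm_of_nonneg (by positivity)]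
      exact pow_le_pow_left₀ (norm_nonneg _) (hpart N z) 2
    · refine Eventually.of_forall fun z => ?_
      have h1 : Summable fun n => f n z := Summable.of_norm_bounded hgeo fun n => hB n z
      exact (h1.hasSum.tendsto_sum_nat.norm).pow 2
  exact le_of_tendsto hlim (Eventually.of_forall hle2)

end

end Pool.B2F
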