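import Pool.Agent.Lib.MP_b2f128_an.Base

/-!
# MP_b2f128_an, part A01a (smooth Beltrami equation and area distortion)
-/

open Complex MeasureTheory Set Filter Topology
open scoped ContDiff

namespace Pool.B2F

noncomputable section

theorem A01a_clm (T : ℂ →L[ℝ] ℂ) (h : ℂ) :
    T h = (T 1 - I * T I) / 2 * h + (T 1 + I * T I) / 2 * (starRingEnd ℂ) h := by
  have h1 : h = h.re • (1 : ℂ) + h.im • I := by
    apply Complex.ext <;> simp
  have h2 : T h = (h.re : ℂ) * T 1 + (h.im : ℂ) * T I := by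
    conv_lhs => rw [h1]
    rw [map_add, map_smul, map_smul, Complex.real_smul, Complex.real_smul]
  have h3 : h = (h.re : ℂ) + (h.im : ℂ) * I := (Complex.re_add_im h).symm
  have h4 : (starRingEnd ℂ) h = (h.re : ℂ) - (h.im : ℂ) * I := by
    apply Complex.ext <;> simp
  rw [h2, h4]
  conv_rhs => rw [h3]
  simp only [Complex.add_re, Complex.ofReal_re, Complex.mul_re, Complex.I_re, mul_zero,
    Complex.ofReal_im, Complex.I_im, mul_one, sub_self, add_zero, Complex.add_im,
    Complex.mul_im, zero_add]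
  linear_combination ((h.im : ℂ) * T I) * I_sq

theorem fderiv_eq (f : ℂ → ℂ) (z h : ℂ) :
    fderiv ℝ f z h = dz f z * h + dzb f z * (starRingEnd ℂ) h :=
  A01a_clm _ h

theorem A01a_norm (T : ℂ →L[ℝ] ℂ) (a b : ℂ) (hT : ∀ h, T h = a * h + b * (starRingEnd ℂ) h) :
    ‖T‖ = ‖a‖ + ‖b‖ := by
  apply le_antisymm
  · refine ContinuousLinearMap.opNorm_le_bound _ (by positivity) fun h => ?_
    rw [hT]
    refine (norm_add_le _ _).trans ?_
    rw [norm_mul, norm_mul, Complex.norm_conj]
    exact le_of_eq (by ring)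
  · set th : ℝ := (arg b - arg a) / 2 with hth
    set z : ℂ := Complex.exp (th * I) with hz
    have hz1 : ‖z‖ = 1 := by rw [hz, Complex.norm_exp_ofReal_mul_I]
    have hconj : (starRingEnd ℂ) z = Complex.exp (-(th * I)) := by
      rw [hz, ← Complex.exp_conj]
      congr 1
      simp
    have key : a * z + b * (starRingEnd ℂ) z =
        ((‖a‖ + ‖b‖ : ℝ) : ℂ) * Complex.exp (((arg b + arg a) / 2 : ℝ) * I) := by
      rw [hconj, hz]
      conv_lhs => rw [← Complex.norm_mul_exp_arg_mul_I a, ← Complex.norm_mul_exp_arg_mul_I b]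
      rw [mul_assoc, mul_assoc, ← Complex.exp_add, ← Complex.exp_add]
      have e1 : (arg a : ℂ) * I + (th : ℂ) * I
          = (((arg b + arg a) / 2 : ℝ) : ℂ) * I := by
        rw [hth]; push_cast; ring
      have e2 : (arg b : ℂ) * I + -((th : ℂ) * I)
          = (((arg b + arg a) / 2 : ℝ) : ℂ) * I := by
        rw [hth]; push_cast; ring
      rw [e1, e2]
      push_cast
      ring
    have hval : ‖T z‖ = ‖a‖ + ‖b‖ := by
      rw [hT, key, norm_mul, Complex.norm_exp_ofReal_mul_I, mul_one,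
        Complex.norm_real, Real.norm_eq_abs, abs_of_nonneg (by positivity)]
    have := T.le_opNorm z
    rw [hz1, mul_one, hval] at this
    exact this

/-- PROOF: `|a h + b conj h| ≤ |a| + |b|` for `|h| = 1`, with equality for a suitable `h`. -/
theorem norm_fderiv (f : ℂ → ℂ) (z : ℂ) : ‖fderiv ℝ f z‖ = ‖dz f z‖ + ‖dzb f z‖ :=
  A01a_norm _ _ _ (fderiv_eq f z)

/-- PROOF: matrix of the map in the basis `1, I` (`Complex.basisOneI`). -/
theorem det_fderiv (f : ℂ → ℂ) (z : ℂ) : (fderiv ℝ f z).det = jac f z := by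
  rw [ContinuousLinearMap.det, ← LinearMap.det_toMatrix Complex.basisOneI, Matrix.det_fin_two]
  simp only [LinearMap.toMatrix_apply, Complex.coe_basisOneI_repr, Complex.coe_basisOneI,
    Matrix.cons_val_zero, Matrix.cons_val_one, ContinuousLinearMap.coe_coe]
  rw [jac, dz, dzb, Complex.sq_norm, Complex.sq_norm, Complex.normSq_apply, Complex.normSq_apply]
  simp
  ring

theorem dz_id (z : ℂ) : dz (fun z => z) z = 1 := by
  simp [dz]

theorem dzb_id (z : ℂ) : dzb (fun z => z) z = 0 := by
  simp [dzb]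

theorem dz_const (c z : ℂ) : dz (fun _ => c) z = 0 := by
  simp [dz]

theorem dzb_const (c z : ℂ) : dzb (fun _ => c) z = 0 := by
  simp [dzb]

end

end Pool.B2F
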