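import Pool.Agent.Lib.MP_b2f128_an.Base

/-!
# MP_b2f128_an, part A01b (smooth Beltrami equation and area distortion)
-/

open Complex MeasureTheory Set Filter Topology
open scoped ContDiff

namespace Pool.B2F

noncomputable section

theorem dz_add {f g : ℂ → ℂ} {z : ℂ} (hf : DifferentiableAt ℝ f z) (hg : DifferentiableAt ℝ g z) :
    dz (fun z => f z + g z) z = dz f z + dz g z := by
  unfold dz
  rw [(hf.hasFDerivAt.fun_add hg.hasFDerivAt).fderiv]
  simp only [add_apply]
  ring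

theorem dzb_add {f g : ℂ → ℂ} {z : ℂ} (hf : DifferentiableAt ℝ f z) (hg : DifferentiableAt ℝ g z) :
    dzb (fun z => f z + g z) z = dzb f z + dzb g z := by
  unfold dzb
  rw [(hf.hasFDerivAt.fun_add hg.hasFDerivAt).fderiv]
  simp only [add_apply]
  ring

theorem dz_sub {f g : ℂ → ℂ} {z : ℂ} (hf : DifferentiableAt ℝ f z) (hg : DifferentiableAt ℝ g z) :
    dz (fun z => f z - g z) z = dz f z - dz g z := by
  unfold dz
  rw [(hf.hasFDerivAt.fun_sub hg.hasFDerivAt).fderiv]
  simp only [sub_apply]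
  ring

theorem dzb_sub {f g : ℂ → ℂ} {z : ℂ} (hf : DifferentiableAt ℝ f z) (hg : DifferentiableAt ℝ g z) :
    dzb (fun z => f z - g z) z = dzb f z - dzb g z := by
  unfold dzb
  rw [(hf.hasFDerivAt.fun_sub hg.hasFDerivAt).fderiv]
  simp only [sub_apply]
  ring

theorem dz_mul {f g : ℂ → ℂ} {z : ℂ} (hf : DifferentiableAt ℝ f z) (hg : DifferentiableAt ℝ g z) :
    dz (fun z => f z * g z) z = dz f z * g z + f z * dz g z := by
  unfold dz
  rw [(hf.hasFDerivAt.fun_mul hg.hasFDerivAt).fderiv]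
  simp only [add_apply, smul_apply, smul_eq_mul]
  ring

theorem dzb_mul {f g : ℂ → ℂ} {z : ℂ} (hf : DifferentiableAt ℝ f z) (hg : DifferentiableAt ℝ g z) :
    dzb (fun z => f z * g z) z = dzb f z * g z + f z * dzb g z := by
  unfold dzb
  rw [(hf.hasFDerivAt.fun_mul hg.hasFDerivAt).fderiv]
  simp only [add_apply, smul_apply, smul_eq_mul]
  ring

theorem dz_const_mul {f : ℂ → ℂ} {z : ℂ} (c : ℂ) (hf : DifferentiableAt ℝ f z) :
    dz (fun z => c * f z) z = c * dz f z := by
  unfold dz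
  rw [(hf.hasFDerivAt.const_mul c).fderiv]
  simp only [smul_apply, smul_eq_mul]
  ring

theorem dzb_const_mul {f : ℂ → ℂ} {z : ℂ} (c : ℂ) (hf : DifferentiableAt ℝ f z) :
    dzb (fun z => c * f z) z = c * dzb f z := by
  unfold dzb
  rw [(hf.hasFDerivAt.const_mul c).fderiv]
  simp only [smul_apply, smul_eq_mul]
  ring

theorem dz_exp {u : ℂ → ℂ} {z : ℂ} (hu : DifferentiableAt ℝ u z) :
    dz (fun z => Complex.exp (u z)) z = Complex.exp (u z) * dz u z := by
  unfold dz
  rw [hu.hasFDerivAt.cexp.fderiv]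
  simp only [smul_apply, smul_eq_mul]
  ring

theorem dzb_exp {u : ℂ → ℂ} {z : ℂ} (hu : DifferentiableAt ℝ u z) :
    dzb (fun z => Complex.exp (u z)) z = Complex.exp (u z) * dzb u z := by
  unfold dzb
  rw [hu.hasFDerivAt.cexp.fderiv]
  simp only [smul_apply, smul_eq_mul]
  ring

end

end Pool.B2F
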