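import Pool.Agent.Lib.MP_b2f128_an.Base
import Pool.Agent.Lib.MP_b2f128_an.A01a

/-!
# MP_b2f128_an, part A01c (smooth Beltrami equation and area distortion)
-/

open Complex MeasureTheory Set Filter Topology
open scoped ContDiff

namespace Pool.B2F

noncomputable section

theorem A01c_fd {g h : ℂ → ℂ} {z : ℂ} (hg : DifferentiableAt ℝ g (h z))
    (hh : DifferentiableAt ℝ h z) (v : ℂ) : fderiv ℝ (fun z => g (h z)) z v =
      dz g (h z) * (dz h z * v + dzb h z * (starRingEnd ℂ) v) +
        dzb g (h z) * (starRingEnd ℂ) (dz h z * v + dzb h z * (starRingEnd ℂ) v) := by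
  have h1 : fderiv ℝ (fun z => g (h z)) z = (fderiv ℝ g (h z)).comp (fderiv ℝ h z) :=
    fderiv_comp z hg hh
  rw [h1, ContinuousLinearMap.comp_apply, fderiv_eq g, fderiv_eq h]

theorem dz_comp {g h : ℂ → ℂ} {z : ℂ} (hg : DifferentiableAt ℝ g (h z))
    (hh : DifferentiableAt ℝ h z) : dz (fun z => g (h z)) z =
      dz g (h z) * dz h z + dzb g (h z) * (starRingEnd ℂ) (dzb h z) := by
  have h0 : dz (fun z => g (h z)) z = (fderiv ℝ (fun z => g (h z)) z 1
      - I * fderiv ℝ (fun z => g (h z)) z I) / 2 := rfl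
  rw [h0, A01c_fd hg hh, A01c_fd hg hh]
  simp only [map_add, map_mul, map_one, Complex.conj_I, map_neg, Complex.conj_conj, mul_one]
  linear_combination (-(1 : ℂ) / 2) * (dz g (h z) * (dz h z - dzb h z)
    + dzb g (h z) * ((starRingEnd ℂ) (dzb h z) - (starRingEnd ℂ) (dz h z))) * Complex.I_sq

theorem dzb_comp {g h : ℂ → ℂ} {z : ℂ} (hg : DifferentiableAt ℝ g (h z))
    (hh : DifferentiableAt ℝ h z) : dzb (fun z => g (h z)) z =
      dz g (h z) * dzb h z + dzb g (h z) * (starRingEnd ℂ) (dz h z) := by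
  have h0 : dzb (fun z => g (h z)) z = (fderiv ℝ (fun z => g (h z)) z 1
      + I * fderiv ℝ (fun z => g (h z)) z I) / 2 := rfl
  rw [h0, A01c_fd hg hh, A01c_fd hg hh]
  simp only [map_add, map_mul, map_one, Complex.conj_I, map_neg, Complex.conj_conj, mul_one]
  linear_combination ((1 : ℂ) / 2) * (dz g (h z) * (dz h z - dzb h z)
    + dzb g (h z) * ((starRingEnd ℂ) (dzb h z) - (starRingEnd ℂ) (dz h z))) * Complex.I_sq

theorem jac_comp {g h : ℂ → ℂ} {z : ℂ} (hg : DifferentiableAt ℝ g (h z))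
    (hh : DifferentiableAt ℝ h z) : jac (fun z => g (h z)) z = jac g (h z) * jac h z := by
  unfold jac
  rw [dz_comp hg hh, dzb_comp hg hh]
  simp only [← Complex.normSq_eq_norm_sq, Complex.normSq_apply, Complex.add_re, Complex.add_im,
    Complex.mul_re, Complex.mul_im, Complex.conj_re, Complex.conj_im]
  ring

end

end Pool.B2F
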