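import Pool.Agent.Lib.MP_b2f128_an.Base

/-!
# MP_b2f128_an, part A02a (smooth Beltrami equation and area distortion)
-/

open Complex MeasureTheory Set Filter Topology
open scoped ContDiff

namespace Pool.B2F

noncomputable section

theorem A02a_fderiv_smooth {f : ℂ → ℂ} (hf : ContDiff ℝ ∞ f) (w : ℂ) :
    ContDiff ℝ ∞ fun z => fderiv ℝ f z w :=
  (hf.fderiv_right (m := ∞) (by simp)).clm_apply contDiff_const

theorem A02a_fderiv_apply {f : ℂ → ℂ} (hf : ContDiff ℝ ∞ f) (z v w : ℂ) :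
    fderiv ℝ (fun z => fderiv ℝ f z w) z v = fderiv ℝ (fderiv ℝ f) z v w := by
  have h1 : DifferentiableAt ℝ (fderiv ℝ f) z :=
    ((hf.fderiv_right (m := ∞) (by simp)).differentiable (by simp)) z
  rw [fderiv_clm_apply h1 (differentiableAt_const w)]
  simp

theorem dz_smooth {f : ℂ → ℂ} (hf : ContDiff ℝ ∞ f) : ContDiff ℝ ∞ (dz f) := by
  unfold dz
  exact (((A02a_fderiv_smooth hf 1).sub
    (contDiff_const.mul (A02a_fderiv_smooth hf I))).div_const 2)

theorem dzb_smooth {f : ℂ → ℂ} (hf : ContDiff ℝ ∞ f) : ContDiff ℝ ∞ (dzb f) := by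
  unfold dzb
  exact (((A02a_fderiv_smooth hf 1).add
    (contDiff_const.mul (A02a_fderiv_smooth hf I))).div_const 2)

theorem tsupport_dz (f : ℂ → ℂ) : tsupport (dz f) ⊆ tsupport f := by
  refine closure_minimal ?_ (isClosed_tsupport f)
  intro z hz
  by_contra hn
  apply hz
  have h0 : fderiv ℝ f z = 0 := by
    by_contra hc
    exact hn (support_fderiv_subset (𝕜 := ℝ) (f := f) hc)
  simp [dz, h0]

theorem tsupport_dzb (f : ℂ → ℂ) : tsupport (dzb f) ⊆ tsupport f := by
  refine closure_minimal ?_ (isClosed_tsupport f)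
  intro z hz
  by_contra hn
  apply hz
  have h0 : fderiv ℝ f z = 0 := by
    by_contra hc
    exact hn (support_fderiv_subset (𝕜 := ℝ) (f := f) hc)
  simp [dzb, h0]

/-- symmetry of the second derivative -/
theorem dz_dzb_comm {f : ℂ → ℂ} (hf : ContDiff ℝ ∞ f) : dz (dzb f) = dzb (dz f) := by
  funext z
  have hd : ∀ w : ℂ, DifferentiableAt ℝ (fun z => fderiv ℝ f z w) z := fun w =>
    ((A02a_fderiv_smooth hf w).differentiable (by simp)) z
  have hsymm : fderiv ℝ (fderiv ℝ f) z 1 I = fderiv ℝ (fderiv ℝ f) z I 1 := by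
    have h := (hf.contDiffAt (x := z)).isSymmSndFDerivAt (by
      simp only [minSmoothness_of_isRCLikeNormedField]
      exact WithTop.coe_le_coe.mpr le_top)
    exact h 1 I
  have h1 : ∀ v : ℂ, fderiv ℝ (dzb f) z v =
      (fderiv ℝ (fderiv ℝ f) z v 1 + I * fderiv ℝ (fderiv ℝ f) z v I) / 2 := by
    intro v
    have hh : HasFDerivAt (dzb f)
        ((2 : ℂ)⁻¹ • (fderiv ℝ (fun z => fderiv ℝ f z 1) z +
          I • fderiv ℝ (fun z => fderiv ℝ f z I) z)) z := by
      have := (((hd 1).hasFDerivAt).add (((hd I).hasFDerivAt).const_mul I)).const_mul (2 : ℂ)⁻¹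
      refine this.congr_of_eventuallyEq (Eventually.of_forall fun y => ?_)
      simp [dzb]
      ring
    rw [hh.fderiv]
    simp only [ContinuousLinearMap.smul_apply, ContinuousLinearMap.add_apply, smul_eq_mul,
      A02a_fderiv_apply hf]
    ring
  have h2 : ∀ v : ℂ, fderiv ℝ (dz f) z v =
      (fderiv ℝ (fderiv ℝ f) z v 1 - I * fderiv ℝ (fderiv ℝ f) z v I) / 2 := by
    intro v
    have hh : HasFDerivAt (dz f)
        ((2 : ℂ)⁻¹ • (fderiv ℝ (fun z => fderiv ℝ f z 1) z -
          I • fderiv ℝ (fun z => fderiv ℝ f z I) z)) z := by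
      have := (((hd 1).hasFDerivAt).sub (((hd I).hasFDerivAt).const_mul I)).const_mul (2 : ℂ)⁻¹
      refine this.congr_of_eventuallyEq (Eventually.of_forall fun y => ?_)
      simp [dz]
      ring
    rw [hh.fderiv]
    simp only [ContinuousLinearMap.smul_apply, ContinuousLinearMap.sub_apply, smul_eq_mul,
      A02a_fderiv_apply hf]
    ring
  show (fderiv ℝ (dzb f) z 1 - I * fderiv ℝ (dzb f) z I) / 2 =
    (fderiv ℝ (dz f) z 1 + I * fderiv ℝ (dz f) z I) / 2
  rw [h1, h1, h2, h2, hsymm]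
  ring

end

end Pool.B2F
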