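import Pool.Agent.Lib.MP_b2f128_an.Base
import Pool.Agent.Lib.MP_b2f128_an.A02a

/-!
# MP_b2f128_an, part A02b (smooth Beltrami equation and area distortion)
-/

open Complex MeasureTheory Set Filter Topology
open scoped ContDiff

namespace Pool.B2F

noncomputable section

theorem A02b_sub {U : Set ℂ} {f g : ℂ → ℂ} (hf : Cc U f) (hg : ContDiff ℝ ∞ g)
    (h : tsupport g ⊆ tsupport f) : Cc U g :=
  ⟨hg, IsCompact.of_isClosed_subset hf.cpt (isClosed_tsupport _) h, h.trans hf.sub⟩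

theorem A02b_union {U : Set ℂ} {f g h : ℂ → ℂ} (hf : Cc U f) (hg : Cc U g) (hh : ContDiff ℝ ∞ h)
    (hs : ∀ z, f z = 0 → g z = 0 → h z = 0) : Cc U h := by
  have h1 : tsupport h ⊆ tsupport f ∪ tsupport g := by
    rw [tsupport, tsupport, tsupport, ← closure_union]
    refine closure_mono fun z hz => ?_
    by_contra hcon
    rw [mem_union, not_or, Function.notMem_support, Function.notMem_support] at hcon
    exact hz (hs z hcon.1 hcon.2)
  refine ⟨hh, ?_, h1.trans (union_subset hf.sub hg.sub)⟩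
  exact IsCompact.of_isClosed_subset (hf.cpt.union hg.cpt) (isClosed_tsupport _) h1

theorem Cc.dz {U : Set ℂ} {f : ℂ → ℂ} (hf : Cc U f) : Cc U (dz f) := by
  exact A02b_sub hf (dz_smooth hf.smooth) (tsupport_dz f)

theorem Cc.dzb {U : Set ℂ} {f : ℂ → ℂ} (hf : Cc U f) : Cc U (dzb f) := by
  exact A02b_sub hf (dzb_smooth hf.smooth) (tsupport_dzb f)

theorem Cc.mul_left {U : Set ℂ} {f g : ℂ → ℂ} (hf : Cc U f) (hg : ContDiff ℝ ∞ g) :
    Cc U (fun z => g z * f z) := by
  refine A02b_sub hf (hg.mul hf.smooth) (closure_mono fun z hz => ?_)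
  rw [Function.mem_support] at hz ⊢
  exact right_ne_zero_of_mul hz

theorem Cc.mul_right {U : Set ℂ} {f g : ℂ → ℂ} (hf : Cc U f) (hg : ContDiff ℝ ∞ g) :
    Cc U (fun z => f z * g z) := by
  refine A02b_sub hf (hf.smooth.mul hg) (closure_mono fun z hz => ?_)
  rw [Function.mem_support] at hz ⊢
  exact left_ne_zero_of_mul hz

theorem Cc.add {U : Set ℂ} {f g : ℂ → ℂ} (hf : Cc U f) (hg : Cc U g) :
    Cc U (fun z => f z + g z) := by
  exact A02b_union hf hg (hf.smooth.add hg.smooth) fun z h1 h2 => by simp [h1, h2]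

theorem Cc.sub' {U : Set ℂ} {f g : ℂ → ℂ} (hf : Cc U f) (hg : Cc U g) :
    Cc U (fun z => f z - g z) := by
  exact A02b_union hf hg (hf.smooth.sub hg.smooth) fun z h1 h2 => by simp [h1, h2]

end

end Pool.B2F
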