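import Pool.Agent.Lib.MP_b2f128_an.Base
import Pool.Agent.Lib.MP_b2f128_an.A01a
import Pool.Agent.Lib.MP_b2f128_an.A02a

/-!
# MP_b2f128_an, part A03 (smooth Beltrami equation and area distortion)
-/

open Complex MeasureTheory Set Filter Topology
open scoped ContDiff

namespace Pool.B2F

noncomputable section

theorem A03_comm {f : ℂ → ℂ} (hf : ContDiff ℝ ∞ f) (k : ℕ) :
    ContDiff ℝ ∞ (dzb^[k] f) ∧ dzb^[k] (dz f) = dz (dzb^[k] f) := by
  induction k generalizing f with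
  | zero => exact ⟨hf, rfl⟩
  | succ k ih =>
    have h1 := ih (dzb_smooth hf)
    rw [Function.iterate_succ_apply, Function.iterate_succ_apply, ← dz_dzb_comm hf]
    exact h1

/-- multiplication `w ↦ (h ↦ w * conj h)` -/
def A03_C : ℂ →L[ℝ] (ℂ →L[ℝ] ℂ) :=
  ((ContinuousLinearMap.compL ℝ ℂ ℂ ℂ).flip (Complex.conjCLE : ℂ →L[ℝ] ℂ)).comp
    (ContinuousLinearMap.mul ℝ ℂ)

theorem A03_C_apply (w h : ℂ) : A03_C w h = w * (starRingEnd ℂ) h := rfl

theorem A03_C_norm : ‖A03_C‖ ≤ 1 := by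
  refine ContinuousLinearMap.opNorm_le_bound _ zero_le_one fun w => ?_
  rw [one_mul]
  refine ContinuousLinearMap.opNorm_le_bound _ (norm_nonneg _) fun h => ?_
  rw [A03_C_apply, norm_mul]
  simp

/-- PROOF. Induction on `j` for all `f`: `‖iteratedFDeriv (j+1) f z‖ = ‖iteratedFDeriv j (fderiv f) z‖`, and `fderiv ℝ f z = dz f z • id + dzb f z • conj` (`fderiv_eq`), a fixed continuous linear image
(of norm at most one in each slot) of `dz f` and `dzb f`; apply the induction hypothesis to `dz f` and `dzb f` (`dz_dzb_comm` to move `dzb` inside). -/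
theorem iteratedFDeriv_le {f : ℂ → ℂ} (hf : ContDiff ℝ ∞ f) (j : ℕ) {B : ℝ}
    (hB : ∀ i ≤ j, ∀ z, ‖(dz^[i] (dzb^[j - i] f)) z‖ ≤ B) (z : ℂ) :
    ‖iteratedFDeriv ℝ j f z‖ ≤ 2 ^ j * B := by
  induction j generalizing f z with
  | zero =>
    rw [norm_iteratedFDeriv_zero, pow_zero, one_mul]
    exact hB 0 le_rfl z
  | succ j ih =>
    rw [← norm_iteratedFDeriv_fderiv]
    have hz := dz_smooth hf
    have hzb := dzb_smooth hf
    have e1 : fderiv ℝ f = (fun z => (ContinuousLinearMap.mul ℝ ℂ ∘ dz f) z + (A03_C ∘ dzb f) z) := by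
      funext z
      refine ContinuousLinearMap.ext fun h => ?_
      rw [fderiv_eq]; rfl
    have c1 : ContDiff ℝ ∞ (ContinuousLinearMap.mul ℝ ℂ ∘ dz f) :=
      (ContinuousLinearMap.mul ℝ ℂ).contDiff.comp hz
    have c2 : ContDiff ℝ ∞ (A03_C ∘ dzb f) := A03_C.contDiff.comp hzb
    have hj : ((j : ℕ) : WithTop ℕ∞) ≤ ∞ := by
      exact_mod_cast le_top
    rw [e1, fun_iteratedFDeriv_add_apply ((c1.of_le hj).contDiffAt) ((c2.of_le hj).contDiffAt)]
    refine (norm_add_le _ _).trans ?_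
    have b1 : ‖iteratedFDeriv ℝ j (dz f) z‖ ≤ 2 ^ j * B := by
      refine ih hz (fun i hi w => ?_) z
      rw [(A03_comm hf (j - i)).2]
      have h1 := hB (i + 1) (by omega) w
      rw [Function.iterate_succ_apply, show j + 1 - (i + 1) = j - i by omega] at h1
      exact h1
    have b2 : ‖iteratedFDeriv ℝ j (dzb f) z‖ ≤ 2 ^ j * B := by
      refine ih hzb (fun i hi w => ?_) z
      have h1 := hB i (by omega) w
      rw [show j + 1 - i = (j - i) + 1 by omega, Function.iterate_succ_apply] at h1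
      exact h1
    have d1 : ‖iteratedFDeriv ℝ j (ContinuousLinearMap.mul ℝ ℂ ∘ dz f) z‖ ≤
        ‖ContinuousLinearMap.mul ℝ ℂ‖ * ‖iteratedFDeriv ℝ j (dz f) z‖ :=
      (ContinuousLinearMap.mul ℝ ℂ).norm_iteratedFDeriv_comp_left (hz.contDiffAt) hj
    have d2 : ‖iteratedFDeriv ℝ j (A03_C ∘ dzb f) z‖ ≤
        ‖A03_C‖ * ‖iteratedFDeriv ℝ j (dzb f) z‖ :=
      A03_C.norm_iteratedFDeriv_comp_left (hzb.contDiffAt) hj
    have n1 : ‖ContinuousLinearMap.mul ℝ ℂ‖ ≤ 1 := ContinuousLinearMap.opNorm_mul_le ℝ ℂ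
    have n2' := A03_C_norm
    have p1 := norm_nonneg (iteratedFDeriv ℝ j (dz f) z)
    have p2 := norm_nonneg (iteratedFDeriv ℝ j (dzb f) z)
    have q1 : ‖ContinuousLinearMap.mul ℝ ℂ‖ * ‖iteratedFDeriv ℝ j (dz f) z‖ ≤
        1 * ‖iteratedFDeriv ℝ j (dz f) z‖ := mul_le_mul_of_nonneg_right n1 p1
    have q2 : ‖A03_C‖ * ‖iteratedFDeriv ℝ j (dzb f) z‖ ≤
        1 * ‖iteratedFDeriv ℝ j (dzb f) z‖ := mul_le_mul_of_nonneg_right n2' p2
    rw [pow_succ]
    linarith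

end

end Pool.B2F
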