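import Pool.Agent.Lib.MP_b2f128_an.Base
import Pool.Agent.Lib.MP_b2f128_an.A02a
import Pool.Agent.Lib.MP_b2f128_an.A02b

/-!
# MP_b2f128_an, part A04 (smooth Beltrami equation and area distortion)
-/

open Complex MeasureTheory Set Filter Topology
open scoped ContDiff

namespace Pool.B2F

noncomputable section

theorem A04_fd_cont {f : ℂ → ℂ} (hf : ContDiff ℝ ∞ f) (v : ℂ) :
    Continuous (fun x => fderiv ℝ f x v) :=
  (hf.continuous_fderiv (by simp)).clm_apply continuous_const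

theorem A04_ibp {f g : ℂ → ℂ} (hf : ContDiff ℝ ∞ f) (hg : Cc univ g) (v : ℂ) :
    (∫ z, f z * fderiv ℝ g z v = -∫ z, fderiv ℝ f z v * g z) ∧
    Integrable (fun z => f z * fderiv ℝ g z v) ∧ Integrable (fun z => fderiv ℝ f z v * g z) := by
  have h1 : Integrable (fun z => fderiv ℝ f z v * g z) :=
    ((A04_fd_cont hf v).mul hg.smooth.continuous).integrable_of_hasCompactSupport
      hg.cpt.mul_left
  have hc : HasCompactSupport (fun z => fderiv ℝ g z v) := hg.cpt.fderiv_apply ℝ v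
  have h2 : Integrable (fun z => f z * fderiv ℝ g z v) :=
    (hf.continuous.mul (A04_fd_cont hg.smooth v)).integrable_of_hasCompactSupport
      hc.mul_left
  have h3 : Integrable (fun z => f z * g z) :=
    (hf.continuous.mul hg.smooth.continuous).integrable_of_hasCompactSupport
      hg.cpt.mul_left
  refine ⟨?_, h2, h1⟩
  exact integral_mul_fderiv_eq_neg_fderiv_mul_of_integrable h1 h2 h3
    (fun x _ => (hf.differentiable (by simp)) x) (fun x _ => (hg.smooth.differentiable (by simp)) x)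

/-- PROOF: `integral_mul_fderiv_eq_neg_fderiv_mul_of_integrable` in the directions `1` and `I`. -/
theorem ibp_z {f g : ℂ → ℂ} (hf : ContDiff ℝ ∞ f) (hg : Cc univ g) :
    ∫ z, f z * dz g z = -∫ z, dz f z * g z := by
  obtain ⟨a1, a2, a3⟩ := A04_ibp hf hg 1
  obtain ⟨b1, b2, b3⟩ := A04_ibp hf hg I
  have e1 : (fun z => f z * dz g z) = fun z => (1 / 2) * (f z * fderiv ℝ g z 1)
      - (I / 2) * (f z * fderiv ℝ g z I) := by
    funext z; simp only [dz]; ring
  have e2 : (fun z => dz f z * g z) = fun z => (1 / 2) * (fderiv ℝ f z 1 * g z)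
      - (I / 2) * (fderiv ℝ f z I * g z) := by
    funext z; simp only [dz]; ring
  rw [e1, e2, integral_sub (a2.const_mul _) (b2.const_mul _),
    integral_sub (a3.const_mul _) (b3.const_mul _), integral_const_mul, integral_const_mul,
    integral_const_mul, integral_const_mul, a1, b1]
  ring

theorem ibp_zb {f g : ℂ → ℂ} (hf : ContDiff ℝ ∞ f) (hg : Cc univ g) :
    ∫ z, f z * dzb g z = -∫ z, dzb f z * g z := by
  obtain ⟨a1, a2, a3⟩ := A04_ibp hf hg 1
  obtain ⟨b1, b2, b3⟩ := A04_ibp hf hg I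
  have e1 : (fun z => f z * dzb g z) = fun z => (1 / 2) * (f z * fderiv ℝ g z 1)
      + (I / 2) * (f z * fderiv ℝ g z I) := by
    funext z; simp only [dzb]; ring
  have e2 : (fun z => dzb f z * g z) = fun z => (1 / 2) * (fderiv ℝ f z 1 * g z)
      + (I / 2) * (fderiv ℝ f z I * g z) := by
    funext z; simp only [dzb]; ring
  rw [e1, e2, integral_add (a2.const_mul _) (b2.const_mul _),
    integral_add (a3.const_mul _) (b3.const_mul _), integral_const_mul, integral_const_mul,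
    integral_const_mul, integral_const_mul, a1, b1]
  ring

theorem A04_conj_fderiv {g : ℂ → ℂ} (hg : ContDiff ℝ ∞ g) (z v : ℂ) :
    fderiv ℝ (fun z => (starRingEnd ℂ) (g z)) z v = (starRingEnd ℂ) (fderiv ℝ g z v) := by
  have h1 : DifferentiableAt ℝ g z := (hg.differentiable (by simp)) z
  have h2 : HasFDerivAt (fun z => (starRingEnd ℂ) (g z))
      ((Complex.conjCLE : ℂ →L[ℝ] ℂ).comp (fderiv ℝ g z)) z :=
    (Complex.conjCLE : ℂ →L[ℝ] ℂ).hasFDerivAt.comp z h1.hasFDerivAt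
  rw [h2.fderiv]
  rfl

theorem A04_conj_Cc {g : ℂ → ℂ} (hg : Cc univ g) : Cc univ (fun z => (starRingEnd ℂ) (g z)) := by
  refine ⟨?_, ?_, subset_univ _⟩
  · exact (Complex.conjCLE : ℂ →L[ℝ] ℂ).contDiff.comp hg.smooth
  · exact hg.cpt.comp_left (g := fun w => (starRingEnd ℂ) w) (map_zero _)

/-- PROOF. `∫ |dz g|² = ∫ dz g * conj (dz g) = ∫ dz g * dzb (conj g) = -∫ dzb (dz g) conj g = -∫ dz (dzb g) conj g = ∫ |dzb g|²`. -/
theorem energy_Cc {g : ℂ → ℂ} (hg : Cc univ g) : ∫ z, ‖dz g z‖ ^ 2 = ∫ z, ‖dzb g z‖ ^ 2 := by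
  set gc : ℂ → ℂ := fun z => (starRingEnd ℂ) (g z) with hgc
  have hcc : Cc univ gc := A04_conj_Cc hg
  have e1 : ∀ z, dzb gc z = (starRingEnd ℂ) (dz g z) := by
    intro z
    simp only [dz, dzb, hgc]
    rw [A04_conj_fderiv hg.smooth, A04_conj_fderiv hg.smooth, map_div₀, map_sub, map_mul, conj_I,
      show (starRingEnd ℂ) 2 = 2 from Complex.conj_ofNat 2]
    ring
  have e2 : ∀ z, dz gc z = (starRingEnd ℂ) (dzb g z) := by
    intro z
    simp only [dz, dzb, hgc]
    rw [A04_conj_fderiv hg.smooth, A04_conj_fderiv hg.smooth, map_div₀, map_add, map_mul, conj_I,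
      show (starRingEnd ℂ) 2 = 2 from Complex.conj_ofNat 2]
    ring
  have k1 := ibp_zb (dz_smooth hg.smooth) hcc
  have k2 := ibp_z (dzb_smooth hg.smooth) hcc
  rw [dz_dzb_comm hg.smooth] at k2
  have k3 : ∫ z, dz g z * dzb gc z = ∫ z, dzb g z * dz gc z := by rw [k1, k2]
  have f1 : ∀ z, dz g z * dzb gc z = ((‖dz g z‖ ^ 2 : ℝ) : ℂ) := by
    intro z
    rw [e1, Complex.mul_conj, Complex.normSq_eq_norm_sq]
  have f2 : ∀ z, dzb g z * dz gc z = ((‖dzb g z‖ ^ 2 : ℝ) : ℂ) := by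
    intro z
    rw [e2, Complex.mul_conj, Complex.normSq_eq_norm_sq]
  simp only [f1, f2] at k3
  have k4 : ((∫ z, ‖dz g z‖ ^ 2 : ℝ) : ℂ) = ((∫ z, ‖dzb g z‖ ^ 2 : ℝ) : ℂ) := by
    rw [← integral_complex_ofReal, ← integral_complex_ofReal]
    exact k3
  exact Complex.ofReal_injective k4

end

end Pool.B2F
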