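import Pool.Agent.Lib.MP_b2f128_an.Base

/-!
# MP_b2f128_an, part A05 (smooth Beltrami equation and area distortion)
-/

open Complex MeasureTheory Set Filter Topology
open scoped ContDiff

namespace Pool.B2F

noncomputable section

theorem A05_int0 (R : ℝ) : IntegrableOn (fun ζ : ℂ => ‖ζ‖⁻¹) (Metric.ball (0 : ℂ) R) := by
  have h := (integrableOn_fun_norm_addHaar (E := ℂ) (F := ℝ) (volume : Measure ℂ) (f := fun y => y⁻¹) (r := R))
  refine h.2 ?_
  rw [Complex.finrank_real_complex]
  have h1 : IntegrableOn (fun _ : ℝ => (1 : ℝ)) (Ioo 0 R) := integrableOn_const (by simp)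
  refine h1.congr_fun (fun y hy => ?_) measurableSet_Ioo
  have : y ≠ 0 := hy.1.ne'
  simp [this]

theorem A05_intw (w : ℂ) (R : ℝ) : IntegrableOn (fun z : ℂ => ‖z - w‖⁻¹) (Metric.ball w R) := by
  have h0 := A05_int0 R
  have hmp : MeasurePreserving (fun z : ℂ => z - w) volume volume :=
    measurePreserving_sub_right volume w
  have he : MeasurableEmbedding (fun z : ℂ => z - w) :=
    (MeasurableEquiv.subRight w).measurableEmbedding
  have h1 := (hmp.integrableOn_comp_preimage he (f := fun ζ : ℂ => ‖ζ‖⁻¹)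
    (s := Metric.ball (0 : ℂ) R)).2 h0
  have h2 : (fun z : ℂ => z - w) ⁻¹' (Metric.ball (0 : ℂ) R) = Metric.ball w R := by
    ext z
    simp [dist_eq_norm]
  rw [h2] at h1
  exact h1

theorem inv_locInt : LocallyIntegrable (fun ζ : ℂ => ζ⁻¹) volume := by
  intro x
  refine ⟨Metric.ball 0 (‖x‖ + 1), Metric.isOpen_ball.mem_nhds (by simp), ?_⟩
  have h := A05_int0 (‖x‖ + 1)
  refine h.mono' (by fun_prop) ?_
  exact Eventually.of_forall fun z => by simp

/-- polar coordinates -/
theorem int_inv_ball {R : ℝ} (hR : 0 ≤ R) :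
    ∫ ζ in Metric.ball (0 : ℂ) R, ‖ζ‖⁻¹ = 2 * Real.pi * R := by
  have h := integral_fun_norm_addHaar (E := ℂ) (F := ℝ) (volume : Measure ℂ)
    ((Iio R).indicator fun y => y⁻¹)
  have h1 : ∀ ζ : ℂ, (Iio R).indicator (fun y => y⁻¹) ‖ζ‖ =
      (Metric.ball (0 : ℂ) R).indicator (fun ζ => ‖ζ‖⁻¹) ζ := by
    intro ζ
    by_cases hz : ‖ζ‖ < R
    · rw [indicator_of_mem (by exact hz), indicator_of_mem (by simpa using hz)]
    · rw [indicator_of_notMem (by exact hz), indicator_of_notMem (by simpa using hz)]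
  simp only [h1] at h
  rw [integral_indicator measurableSet_ball] at h
  rw [h, Complex.finrank_real_complex]
  have h2 : (volume : Measure ℂ).real (Metric.ball 0 1) = Real.pi := by
    rw [Measure.real, Complex.volume_ball]
    simp
  rw [h2]
  have h3 : ∫ y in Ioi (0 : ℝ), y ^ (2 - 1) • (Iio R).indicator (fun y => y⁻¹) y = R := by
    have e : ∀ y ∈ Ioi (0 : ℝ), y ^ (2 - 1) • (Iio R).indicator (fun y => y⁻¹) y =
        (Iio R).indicator (fun _ => (1 : ℝ)) y := by
      intro y hy
      have hy0 : y ≠ 0 := (mem_Ioi.1 hy).ne'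
      by_cases hr : y < R
      · rw [indicator_of_mem (by exact hr), indicator_of_mem (by exact hr)]
        simp [hy0]
      · rw [indicator_of_notMem (by exact hr), indicator_of_notMem (by exact hr)]
        simp
    rw [setIntegral_congr_fun measurableSet_Ioi e, integral_indicator measurableSet_Iio,
      Measure.restrict_restrict measurableSet_Iio, integral_const]
    have : Iio R ∩ Ioi 0 = Ioo 0 R := by ext y; simp [and_comm]
    simp [this, Measure.real, hR]
  rw [h3]
  simp
  ring

/-- PROOF: if `|w - a| ≥ 2 R` the integrand is at most `1 / R`; otherwise the ball is contained in `ball w (3 R)`. -/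
theorem int_inv_le (a w : ℂ) {R : ℝ} (hR : 0 ≤ R) :
    IntegrableOn (fun z => ‖z - w‖⁻¹) (Metric.ball a R) ∧
    ∫ z in Metric.ball a R, ‖z - w‖⁻¹ ≤ 6 * Real.pi * R := by
  rcases hR.eq_or_lt with h0 | h0
  · subst h0
    simp
  have hsub : Metric.ball a R ⊆ Metric.ball w (‖w - a‖ + R) := by
    intro z hz
    rw [Metric.mem_ball, dist_eq_norm] at hz ⊢
    calc ‖z - w‖ = ‖(z - a) - (w - a)‖ := by congr 1; ring
      _ ≤ ‖z - a‖ + ‖w - a‖ := norm_sub_le _ _
      _ < ‖w - a‖ + R := by linarith
  have hint : IntegrableOn (fun z => ‖z - w‖⁻¹) (Metric.ball a R) :=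
    (A05_intw w _).mono_set hsub
  refine ⟨hint, ?_⟩
  by_cases hw : 2 * R ≤ ‖w - a‖
  · have h1 : ∫ z in Metric.ball a R, ‖z - w‖⁻¹ ≤ ∫ z in Metric.ball a R, R⁻¹ := by
      refine setIntegral_mono_on hint (integrableOn_const (by
        rw [Complex.volume_ball]; exact ENNReal.mul_ne_top (by simp) (by simp)))
        measurableSet_ball fun z hz => ?_
      rw [Metric.mem_ball, dist_eq_norm] at hz
      refine inv_anti₀ h0 ?_
      have h2 : ‖w - a‖ ≤ ‖z - a‖ + ‖z - w‖ := by
        calc ‖w - a‖ = ‖(z - a) - (z - w)‖ := by congr 1; ring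
          _ ≤ ‖z - a‖ + ‖z - w‖ := norm_sub_le _ _
      linarith
    refine h1.trans ?_
    rw [integral_const]
    have h3 : ((volume : Measure ℂ).restrict (Metric.ball a R)).real univ = R ^ 2 * Real.pi := by
      rw [Measure.real, Measure.restrict_apply_univ, Complex.volume_ball, ENNReal.toReal_mul,
        ENNReal.toReal_pow, ENNReal.toReal_ofReal hR]
      simp
    rw [h3, smul_eq_mul]
    have h4 : R ^ 2 * Real.pi * R⁻¹ = Real.pi * R := by field_simp
    rw [h4]
    nlinarith [Real.pi_pos, mul_pos Real.pi_pos h0]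
  · push Not at hw
    have hsub2 : Metric.ball a R ⊆ Metric.ball w (3 * R) :=
      hsub.trans (Metric.ball_subset_ball (by linarith))
    have h1 : ∫ z in Metric.ball a R, ‖z - w‖⁻¹ ≤ ∫ z in Metric.ball w (3 * R), ‖z - w‖⁻¹ :=
      setIntegral_mono_set (A05_intw w _) (Eventually.of_forall fun z => by positivity)
        (Eventually.of_forall hsub2)
    refine h1.trans ?_
    have hmp : MeasurePreserving (fun z : ℂ => z - w) volume volume :=
      measurePreserving_sub_right volume w
    have he : MeasurableEmbedding (fun z : ℂ => z - w) :=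
      (MeasurableEquiv.subRight w).measurableEmbedding
    have h2 : (fun z : ℂ => z - w) ⁻¹' (Metric.ball (0 : ℂ) (3 * R)) = Metric.ball w (3 * R) := by
      ext z
      simp [dist_eq_norm]
    have h3 := hmp.setIntegral_preimage_emb he (fun ζ : ℂ => ‖ζ‖⁻¹) (Metric.ball (0 : ℂ) (3 * R))
    rw [h2] at h3
    rw [h3, int_inv_ball (by linarith)]
    exact le_of_eq (by ring)

end

end Pool.B2F
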