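import Pool.Agent.Lib.MP_b2f128_an.Base
import Pool.Agent.Lib.MP_b2f128_an.A02b
import Pool.Agent.Lib.MP_b2f128_an.A05

/-!
# MP_b2f128_an, part A06 (smooth Beltrami equation and area distortion)
-/

open Complex MeasureTheory Set Filter Topology
open scoped ContDiff
open scoped ContDiff Convolution

namespace Pool.B2F

noncomputable section

/-- the kernel convolution -/
def A06_conv (ψ : ℂ → ℂ) : ℂ → ℂ :=
  (fun ζ : ℂ => ζ⁻¹) ⋆[ContinuousLinearMap.mul ℝ ℂ, volume] ψ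

theorem A06_eq (ψ : ℂ → ℂ) : cau ψ = fun z => (1 / Real.pi : ℂ) * A06_conv ψ z := by
  funext z
  rw [cau, A06_conv, convolution_def]
  congr 1
  refine integral_congr_ae (Eventually.of_forall fun ζ => ?_)
  simp only [ContinuousLinearMap.mul_apply']
  rw [div_eq_mul_inv, mul_comm]

theorem A06_integrable {ψ : ℂ → ℂ} (hψ : HasCompactSupport ψ) (hc : Continuous ψ) (z : ℂ) :
    Integrable (fun ζ => ψ (z - ζ) / ζ) := by
  have h1 := (hψ.convolutionExists_right (ContinuousLinearMap.mul ℝ ℂ) inv_locInt hc) z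
  have h2 : Integrable (fun ζ : ℂ => ContinuousLinearMap.mul ℝ ℂ (ζ⁻¹) (ψ (z - ζ))) := h1
  refine h2.congr (Eventually.of_forall fun ζ => ?_)
  simp only [ContinuousLinearMap.mul_apply']
  rw [div_eq_mul_inv, mul_comm]

/-- PROOF: `cau ψ` is a convolution of the locally integrable function `1/(π ζ)` with `ψ`; `HasCompactSupport.contDiff_convolution_left/right`. -/
theorem cau_smooth {ψ : ℂ → ℂ} (h : Cc univ ψ) : ContDiff ℝ ∞ (cau ψ) := by
  rw [A06_eq]
  exact contDiff_const.mul (h.cpt.contDiff_convolution_right _ inv_locInt h.smooth)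

theorem A06_fderiv {ψ : ℂ → ℂ} (h : Cc univ ψ) (z v : ℂ) :
    fderiv ℝ (cau ψ) z v = cau (fun w => fderiv ℝ ψ w v) z := by
  rw [A06_eq, A06_eq]
  have h1 : HasFDerivAt (A06_conv ψ) (((fun ζ : ℂ => ζ⁻¹)
      ⋆[(ContinuousLinearMap.mul ℝ ℂ).precompR ℂ, volume] fderiv ℝ ψ) z) z :=
    h.cpt.hasFDerivAt_convolution_right _ inv_locInt (h.smooth.of_le (by norm_cast)) z
  have h2 := h1.const_mul (1 / Real.pi : ℂ)
  rw [h2.fderiv]
  have h3 : (((fun ζ : ℂ => ζ⁻¹)
      ⋆[(ContinuousLinearMap.mul ℝ ℂ).precompR ℂ, volume] fderiv ℝ ψ) z) v =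
      A06_conv (fun w => fderiv ℝ ψ w v) z :=
    convolution_precompR_apply _ inv_locInt (h.cpt.fderiv ℝ)
      (h.smooth.continuous_fderiv (by simp)) z v
  change _ = (1 / Real.pi : ℂ) * A06_conv (fun w => fderiv ℝ ψ w v) z
  rw [← h3]
  rfl

theorem cau_add {f g : ℂ → ℂ} (hf : Cc univ f) (hg : Cc univ g) :
    cau (fun z => f z + g z) = fun z => cau f z + cau g z := by
  funext z
  simp only [cau, add_div]
  rw [integral_add (A06_integrable hf.cpt hf.smooth.continuous z)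
    (A06_integrable hg.cpt hg.smooth.continuous z), mul_add]

theorem cau_const_mul (c : ℂ) (f : ℂ → ℂ) : cau (fun z => c * f z) = fun z => c * cau f z := by
  funext z
  simp only [cau, mul_div_assoc]
  rw [integral_const_mul]
  ring

theorem A06_Cc {ψ : ℂ → ℂ} (h : Cc univ ψ) (v : ℂ) : Cc univ (fun w => fderiv ℝ ψ w v) :=
  ⟨(h.smooth.fderiv_right (m := ∞) (by norm_cast)).clm_apply contDiff_const,
    h.cpt.fderiv_apply ℝ v, subset_univ _⟩

theorem A06_Cc_mul {ψ : ℂ → ℂ} (h : Cc univ ψ) (c : ℂ) : Cc univ (fun w => c * ψ w) :=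
  ⟨contDiff_const.mul h.smooth, h.cpt.mul_left, subset_univ _⟩

theorem dz_cau {ψ : ℂ → ℂ} (h : Cc univ ψ) : dz (cau ψ) = cau (dz ψ) := by
  have e : dz ψ = fun z => (1 / 2) * fderiv ℝ ψ z 1 + (- I / 2) * fderiv ℝ ψ z I := by
    funext z; simp only [dz]; ring
  rw [e, cau_add (A06_Cc_mul (A06_Cc h 1) _) (A06_Cc_mul (A06_Cc h I) _), cau_const_mul,
    cau_const_mul]
  funext z
  rw [dz, A06_fderiv h, A06_fderiv h]
  ring

theorem dzb_cau' {ψ : ℂ → ℂ} (h : Cc univ ψ) : dzb (cau ψ) = cau (dzb ψ) := by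
  have e : dzb ψ = fun z => (1 / 2) * fderiv ℝ ψ z 1 + (I / 2) * fderiv ℝ ψ z I := by
    funext z; simp only [dzb]; ring
  rw [e, cau_add (A06_Cc_mul (A06_Cc h 1) _) (A06_Cc_mul (A06_Cc h I) _), cau_const_mul,
    cau_const_mul]
  funext z
  rw [dzb, A06_fderiv h, A06_fderiv h]
  ring

end

end Pool.B2F
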