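import Pool.Agent.Lib.MP_b2f128_an.Base
import Pool.Agent.Lib.MP_b2f128_an.A00
import Pool.Agent.Lib.MP_b2f128_an.A01a
import Pool.Agent.Lib.MP_b2f128_an.A01b
import Pool.Agent.Lib.MP_b2f128_an.A01c
import Pool.Agent.Lib.MP_b2f128_an.A02b
import Pool.Agent.Lib.MP_b2f128_an.A04
import Pool.Agent.Lib.MP_b2f128_an.A05

/-!
# MP_b2f128_an, part A07 (smooth Beltrami equation and area distortion)
-/

open Complex MeasureTheory Set Filter Topology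
open scoped ContDiff

namespace Pool.B2F

noncomputable section

theorem A07_one : ∫ y in Ioi (0 : ℝ), y * ((y ^ 2 + 1) ^ 2)⁻¹ = 1 / 2 := by
  have h := integral_Ioi_of_hasDerivAt_of_nonneg' (g := fun y : ℝ => -(1 / 2) * (y ^ 2 + 1)⁻¹)
    (g' := fun y => y * ((y ^ 2 + 1) ^ 2)⁻¹) (a := 0) (l := 0) ?_ ?_ ?_
  · rw [h]; norm_num
  · intro x _
    have h1 : HasDerivAt (fun y : ℝ => y ^ 2 + 1) (2 * x) x := by
      have := (hasDerivAt_pow 2 x).add_const (1 : ℝ)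
      simpa using this
    have h2 := (h1.fun_inv (by positivity)).const_mul (-(1 / 2) : ℝ)
    have e : x * ((x ^ 2 + 1) ^ 2)⁻¹ = -(1 / 2) * (-(2 * x) / (x ^ 2 + 1) ^ 2) := by ring
    change HasDerivAt (fun y : ℝ => -(1 / 2) * (y ^ 2 + 1)⁻¹) (x * ((x ^ 2 + 1) ^ 2)⁻¹) x
    rw [e]
    exact h2
  · intro x hx
    have : (0 : ℝ) < x := hx
    positivity
  · have h1 : Tendsto (fun y : ℝ => y ^ 2 + 1) atTop atTop :=
      tendsto_atTop_add_const_right _ _ (tendsto_pow_atTop (by norm_num))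
    have h2 := (tendsto_inv_atTop_zero.comp h1).const_mul (-(1 / 2) : ℝ)
    simpa using h2

theorem A07_int : ∫ x : ℂ, (1 / Real.pi) * ((‖x‖ ^ 2 + 1) ^ 2)⁻¹ = 1 := by
  have h := integral_fun_norm_addHaar (volume : Measure ℂ)
    (fun y : ℝ => (1 / Real.pi) * ((y ^ 2 + 1) ^ 2)⁻¹)
  rw [h]
  have h3 : (∫ y in Ioi (0 : ℝ), y ^ (Module.finrank ℝ ℂ - 1) • ((1 / Real.pi) * ((y ^ 2 + 1) ^ 2)⁻¹)) =
      (1 / Real.pi) * (1 / 2) := by
    rw [← A07_one, ← integral_const_mul]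
    congr 1
    funext y
    rw [Complex.finrank_real_complex]
    simp only [smul_eq_mul]
    ring
  rw [h3, Complex.finrank_real_complex]
  have h4 : (volume : Measure ℂ).real (Metric.ball 0 1) = Real.pi := by
    simp [Measure.real]
  rw [h4]
  simp only [smul_eq_mul, nsmul_eq_mul]
  have := Real.pi_pos
  push_cast
  field_simp

theorem A07_conj (z : ℂ) : dzb (fun z => (starRingEnd ℂ) z) z = 1 := by
  have h : HasFDerivAt (fun z : ℂ => (starRingEnd ℂ) z) (Complex.conjCLE : ℂ →L[ℝ] ℂ) z :=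
    Complex.conjCLE.hasFDerivAt
  unfold dzb
  rw [h.fderiv]
  simp

/-- the regularised kernel -/
def A07k (c : ℝ) (ζ : ℂ) : ℂ := (c : ℂ) ^ 2 * (starRingEnd ℂ) ζ * ((c : ℂ) ^ 2 * (ζ * (starRingEnd ℂ) ζ) + 1)⁻¹

theorem A07_D (c : ℝ) (ζ : ℂ) : (c : ℂ) ^ 2 * (ζ * (starRingEnd ℂ) ζ) + 1 = ((c ^ 2 * ‖ζ‖ ^ 2 + 1 : ℝ) : ℂ) := by
  rw [Complex.mul_conj, Complex.normSq_eq_norm_sq]
  push_cast; ring

theorem A07_Dne (c : ℝ) (ζ : ℂ) : (c : ℂ) ^ 2 * (ζ * (starRingEnd ℂ) ζ) + 1 ≠ 0 := by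
  rw [A07_D]
  have : (0 : ℝ) < c ^ 2 * ‖ζ‖ ^ 2 + 1 := by positivity
  exact_mod_cast this.ne'

theorem A07_conj_smooth : ContDiff ℝ ∞ (fun z : ℂ => (starRingEnd ℂ) z) :=
  Complex.conjCLE.contDiff

theorem A07_D_smooth (c : ℝ) : ContDiff ℝ ∞ (fun ζ : ℂ => (c : ℂ) ^ 2 * (ζ * (starRingEnd ℂ) ζ) + 1) :=
  (contDiff_const.mul (contDiff_id.mul A07_conj_smooth)).add contDiff_const

theorem A07k_smooth (c : ℝ) : ContDiff ℝ ∞ (A07k c) :=
  (contDiff_const.mul A07_conj_smooth).mul ((A07_D_smooth c).inv (A07_Dne c))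

theorem A07k_dzb (c : ℝ) (ζ : ℂ) : dzb (A07k c) ζ = ((c ^ 2 * ((c ^ 2 * ‖ζ‖ ^ 2 + 1) ^ 2)⁻¹ : ℝ) : ℂ) := by
  have hd1 : DifferentiableAt ℝ (A07k c) ζ := (A07k_smooth c).differentiable (by simp) ζ
  have hd2 : DifferentiableAt ℝ (fun ζ : ℂ => (c : ℂ) ^ 2 * (ζ * (starRingEnd ℂ) ζ) + 1) ζ :=
    (A07_D_smooth c).differentiable (by simp) ζ
  have hconj : DifferentiableAt ℝ (fun z : ℂ => (starRingEnd ℂ) z) ζ :=
    A07_conj_smooth.differentiable (by simp) ζ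
  have hid : DifferentiableAt ℝ (fun z : ℂ => z) ζ := differentiableAt_id
  have h1 : (fun ζ => A07k c ζ * ((c : ℂ) ^ 2 * (ζ * (starRingEnd ℂ) ζ) + 1)) =
      fun ζ => (c : ℂ) ^ 2 * (starRingEnd ℂ) ζ := by
    funext ζ
    unfold A07k
    rw [mul_assoc, inv_mul_cancel₀ (A07_Dne c ζ), mul_one]
  have h2 := dzb_mul hd1 hd2
  have hm : DifferentiableAt ℝ (fun z : ℂ => z * (starRingEnd ℂ) z) ζ := hid.mul hconj
  rw [h1, dzb_const_mul _ hconj, A07_conj,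
    dzb_add (f := fun ζ : ℂ => (c : ℂ) ^ 2 * (ζ * (starRingEnd ℂ) ζ)) (g := fun _ => (1 : ℂ))
      (hm.const_mul _) (differentiableAt_const _),
    dzb_const, dzb_const_mul _ hm] at h2
  have h3 := dzb_mul hid hconj
  rw [dzb_id, A07_conj] at h3
  have h5 : dzb (fun z : ℂ => z * (starRingEnd ℂ) z) ζ = ζ := by
    rw [h3]; ring
  have hD := A07_Dne c ζ
  have hk : A07k c ζ = (c : ℂ) ^ 2 * (starRingEnd ℂ) ζ * ((c : ℂ) ^ 2 * (ζ * (starRingEnd ℂ) ζ) + 1)⁻¹ := rfl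
  have h6 : dzb (A07k c) ζ * ((c : ℂ) ^ 2 * (ζ * (starRingEnd ℂ) ζ) + 1) =
      (c : ℂ) ^ 2 - A07k c ζ * ((c : ℂ) ^ 2 * ζ) := by
    rw [mul_one, h5] at h2
    linear_combination -h2
  have h7 : dzb (A07k c) ζ = (c : ℂ) ^ 2 * (((c : ℂ) ^ 2 * (ζ * (starRingEnd ℂ) ζ) + 1) ^ 2)⁻¹ := by
    rw [← mul_left_inj' hD, h6, hk]
    obtain ⟨D, hDd⟩ : ∃ D : ℂ, D = (c : ℂ) ^ 2 * (ζ * (starRingEnd ℂ) ζ) + 1 := ⟨_, rfl⟩
    rw [← hDd] at hD ⊢
    have e : (c : ℂ) ^ 2 - (c : ℂ) ^ 2 * (starRingEnd ℂ) ζ * D⁻¹ * ((c : ℂ) ^ 2 * ζ) =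
        (c : ℂ) ^ 2 * (D - (c : ℂ) ^ 2 * (ζ * (starRingEnd ℂ) ζ)) * D⁻¹ := by
      field_simp
    have e2 : D - (c : ℂ) ^ 2 * (ζ * (starRingEnd ℂ) ζ) = 1 := by rw [hDd]; ring
    rw [e, e2]
    field_simp
  rw [h7, A07_D]
  push_cast
  rfl

theorem A07k_norm (c : ℝ) (ζ : ℂ) : ‖A07k c ζ‖ ≤ ‖ζ‖⁻¹ := by
  unfold A07k
  rw [A07_D]
  have h0 : (0 : ℝ) < c ^ 2 * ‖ζ‖ ^ 2 + 1 := by positivity
  rw [norm_mul, norm_mul, norm_inv, Complex.norm_real, norm_pow, Complex.norm_real, RCLike.norm_conj,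
    Real.norm_of_nonneg h0.le, Real.norm_eq_abs, sq_abs]
  rcases eq_or_ne ζ 0 with h | h
  · simp [h]
  · have hz : 0 < ‖ζ‖ := norm_pos_iff.mpr h
    rw [← div_eq_mul_inv, div_le_iff₀ h0, inv_mul_eq_div, le_div_iff₀ hz]
    nlinarith

theorem A07k_lim (ζ : ℂ) : Tendsto (fun c : ℝ => A07k c ζ) atTop (𝓝 ζ⁻¹) := by
  rcases eq_or_ne ζ 0 with h | h
  · simp [A07k, h]
  · have hz : 0 < ‖ζ‖ := norm_pos_iff.mpr h
    have h1 : Tendsto (fun c : ℝ => (c ^ 2 : ℝ)⁻¹) atTop (𝓝 0) :=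
      tendsto_inv_atTop_zero.comp (tendsto_pow_atTop (by norm_num))
    have h2 : Tendsto (fun c : ℝ => (((c ^ 2 : ℝ)⁻¹ : ℝ) : ℂ)) atTop (𝓝 0) := by
      have := (Complex.continuous_ofReal.tendsto 0).comp h1
      simpa [Function.comp_def] using this
    have hne : ζ * (starRingEnd ℂ) ζ ≠ 0 := mul_ne_zero h (by simpa using h)
    have h3 : Tendsto (fun c : ℝ => (starRingEnd ℂ) ζ * (ζ * (starRingEnd ℂ) ζ + (((c ^ 2 : ℝ)⁻¹ : ℝ) : ℂ))⁻¹) atTop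
        (𝓝 ((starRingEnd ℂ) ζ * (ζ * (starRingEnd ℂ) ζ + 0)⁻¹)) :=
      ((tendsto_const_nhds.add h2).inv₀ (by simpa using hne)).const_mul _
    have h4 : (starRingEnd ℂ) ζ * (ζ * (starRingEnd ℂ) ζ + 0)⁻¹ = ζ⁻¹ := by
      have hc : (starRingEnd ℂ) ζ ≠ 0 := by simpa using h
      rw [add_zero]; field_simp
    rw [h4] at h3
    refine h3.congr' ?_
    filter_upwards [eventually_gt_atTop 0] with c hc
    unfold A07k
    have hcc : (c : ℂ) ≠ 0 := by exact_mod_cast hc.ne'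
    have h5 : (c : ℂ) ^ 2 * (ζ * (starRingEnd ℂ) ζ) + 1 =
        (c : ℂ) ^ 2 * (ζ * (starRingEnd ℂ) ζ + (((c ^ 2 : ℝ)⁻¹ : ℝ) : ℂ)) := by
      push_cast
      field_simp
    rw [h5, mul_inv]
    field_simp

/-- PROOF. For `e > 0` let `k ζ = conj ζ / (|ζ|² + e²)`, a smooth function with `dzb k = e² / (|ζ|² + e²)²`. Integration by parts: `∫ (dzb ψ)(z - ζ) k ζ = ∫ ψ (z - ζ) e² / (|ζ|² + e²)²` (the function `ζ ↦ ψ (z - ζ)` has
`dzb`-derivative `-(dzb ψ)(z - ζ)`). As `e → 0` the left-hand side tends to `π cau (dzb ψ) z` (dominated by `|dzb ψ| / |ζ|`), the right-hand side to `π ψ z`: substitute `ζ = e ξ`, dominated convergence, `∫ (|ξ|² + 1)⁻² = π`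
(polar coordinates). -/
theorem cau_dzb {ψ : ℂ → ℂ} (h : Cc univ ψ) : cau (dzb ψ) = ψ := by
  funext z
  have hpi : (0 : ℝ) < Real.pi := Real.pi_pos
  -- the translated function
  obtain ⟨g, hg⟩ : ∃ g : ℂ → ℂ, g = fun ζ => ψ (z - ζ) := ⟨_, rfl⟩
  have hsub : ContDiff ℝ ∞ (fun ζ : ℂ => z - ζ) := contDiff_const.sub contDiff_id
  have hgc : Cc univ g := by
    refine ⟨?_, ?_, subset_univ _⟩
    · rw [hg]; exact h.smooth.comp hsub
    · rw [hg]; exact h.cpt.comp_homeomorph (Homeomorph.subLeft z)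
  have hdg : ∀ ζ, dzb g ζ = -(dzb ψ (z - ζ)) := by
    intro ζ
    rw [hg]
    have hd : DifferentiableAt ℝ (fun ζ : ℂ => z - ζ) ζ := hsub.differentiable (by simp) ζ
    rw [dzb_comp (h.smooth.differentiable (by simp) _) hd]
    have e1 : dzb (fun ζ : ℂ => z - ζ) ζ = 0 := by
      rw [dzb_sub (f := fun _ => z) (g := fun ζ => ζ) (differentiableAt_const _) differentiableAt_id,
        dzb_const, dzb_id]; ring
    have e2 : dz (fun ζ : ℂ => z - ζ) ζ = -1 := by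
      rw [dz_sub (f := fun _ => z) (g := fun ζ => ζ) (differentiableAt_const _) differentiableAt_id,
        dz_const, dz_id]; ring
    rw [e1, e2]
    simp
  have hdψ : Cc univ (dzb ψ) := Cc.dzb h
  have hdψc : Continuous (fun ζ => dzb ψ (z - ζ)) := hdψ.smooth.continuous.comp hsub.continuous
  have hdψs : HasCompactSupport (fun ζ => dzb ψ (z - ζ)) := hdψ.cpt.comp_homeomorph (Homeomorph.subLeft z)
  -- integration by parts
  have hibp : ∀ c : ℝ, ∫ ζ, A07k c ζ * dzb ψ (z - ζ) =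
      Real.pi * ∫ ζ, (c ^ (Module.finrank ℝ ℂ) * ((1 / Real.pi) * ((‖c • ζ‖ ^ 2 + 1) ^ 2)⁻¹)) • g ζ := by
    intro c
    have h1 := ibp_zb (A07k_smooth c) hgc
    have h2 : ∫ ζ, A07k c ζ * dzb g ζ = -∫ ζ, A07k c ζ * dzb ψ (z - ζ) := by
      rw [← integral_neg]
      congr 1
      funext ζ
      rw [hdg]; ring
    rw [h2] at h1
    have h3 := neg_injective h1
    rw [h3, ← integral_const_mul]
    congr 1
    funext ζ
    rw [A07k_dzb, Complex.finrank_real_complex, norm_smul, mul_pow, Real.norm_eq_abs, sq_abs, Complex.real_smul]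
    push_cast
    have hpc : (Real.pi : ℂ) ≠ 0 := by exact_mod_cast hpi.ne'
    field_simp
  -- the two limits
  have hL : Tendsto (fun c : ℝ => ∫ ζ, A07k c ζ * dzb ψ (z - ζ)) atTop
      (𝓝 (∫ ζ, ζ⁻¹ * dzb ψ (z - ζ))) := by
    apply tendsto_integral_filter_of_dominated_convergence (fun ζ => ‖ζ⁻¹ * dzb ψ (z - ζ)‖)
    · filter_upwards with c
      exact ((A07k_smooth c).continuous.mul hdψc).aestronglyMeasurable
    · filter_upwards with c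
      filter_upwards with ζ
      rw [norm_mul, norm_mul, norm_inv]
      exact mul_le_mul_of_nonneg_right (A07k_norm c ζ) (norm_nonneg _)
    · have := inv_locInt.integrable_smul_right_of_hasCompactSupport hdψc hdψs
      exact this.norm
    · filter_upwards with ζ
      exact (A07k_lim ζ).mul_const _
  have hR : Tendsto (fun c : ℝ => Real.pi * ∫ ζ, (c ^ (Module.finrank ℝ ℂ) *
      ((1 / Real.pi) * ((‖c • ζ‖ ^ 2 + 1) ^ 2)⁻¹)) • g ζ) atTop (𝓝 ((Real.pi : ℂ) * g 0)) := by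
    refine Tendsto.const_mul _ ?_
    refine tendsto_integral_comp_smul_smul_of_integrable (μ := (volume : Measure ℂ))
      (φ := fun x : ℂ => (1 / Real.pi) * ((‖x‖ ^ 2 + 1) ^ 2)⁻¹) (fun x => by positivity) A07_int ?_
      (Cc.integrable hgc) hgc.smooth.continuous.continuousAt
    rw [Complex.finrank_real_complex]
    have h1 : Tendsto (fun x : ℂ => ‖x‖ ^ 2 + 1) (Bornology.cobounded ℂ) atTop :=
      tendsto_atTop_add_const_right _ _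
        ((tendsto_pow_atTop (by norm_num)).comp tendsto_norm_cobounded_atTop)
    have h2 : Tendsto (fun x : ℂ => (1 / Real.pi) * (‖x‖ ^ 2 + 1)⁻¹) (Bornology.cobounded ℂ) (𝓝 0) := by
      have := (tendsto_inv_atTop_zero.comp h1).const_mul (1 / Real.pi)
      simpa using this
    refine squeeze_zero (fun x => by positivity) (fun x => ?_) h2
    have h3 : (0 : ℝ) < ‖x‖ ^ 2 + 1 := by positivity
    have h4 : ‖x‖ ^ 2 * ((1 / Real.pi) * ((‖x‖ ^ 2 + 1) ^ 2)⁻¹) =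
        (1 / Real.pi) * (‖x‖ ^ 2 * (‖x‖ ^ 2 + 1)⁻¹ * (‖x‖ ^ 2 + 1)⁻¹) := by
      field_simp
    rw [h4]
    have h5 : ‖x‖ ^ 2 * (‖x‖ ^ 2 + 1)⁻¹ ≤ 1 := by
      rw [← div_eq_mul_inv, div_le_one h3]; linarith
    have h6 : ‖x‖ ^ 2 * (‖x‖ ^ 2 + 1)⁻¹ * (‖x‖ ^ 2 + 1)⁻¹ ≤ 1 * (‖x‖ ^ 2 + 1)⁻¹ :=
      mul_le_mul_of_nonneg_right h5 (by positivity)
    rw [one_mul] at h6
    exact mul_le_mul_of_nonneg_left h6 (by positivity)
  have hlim : (∫ ζ, ζ⁻¹ * dzb ψ (z - ζ)) = (Real.pi : ℂ) * g 0 := by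
    refine tendsto_nhds_unique hL ?_
    simp only [hibp]
    exact hR
  unfold cau
  have h8 : (∫ ζ, dzb ψ (z - ζ) / ζ) = ∫ ζ, ζ⁻¹ * dzb ψ (z - ζ) := by
    congr 1
    funext ζ
    rw [div_eq_mul_inv, mul_comm]
  rw [h8, hlim, hg]
  simp only [sub_zero]
  have hpc : (Real.pi : ℂ) ≠ 0 := by exact_mod_cast hpi.ne'
  field_simp

end

end Pool.B2F
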