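import Pool.Agent.Lib.MP_b2f128_an.Base
import Pool.Agent.Lib.MP_b2f128_an.A06
import Pool.Agent.Lib.MP_b2f128_an.A07

/-!
# MP_b2f128_an, part A07z (smooth Beltrami equation and area distortion)
-/

open Complex MeasureTheory Set Filter Topology
open scoped ContDiff

namespace Pool.B2F

noncomputable section

theorem dzb_cau {ψ : ℂ → ℂ} (h : Cc univ ψ) : dzb (cau ψ) = ψ := by
  rw [dzb_cau' h, cau_dzb h]

end

end Pool.B2F
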