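import Pool.Agent.Lib.MP_b2f128_an.Base
import Pool.Agent.Lib.MP_b2f128_an.A00
import Pool.Agent.Lib.MP_b2f128_an.A02b
import Pool.Agent.Lib.MP_b2f128_an.A05

/-!
# MP_b2f128_an, part A08a (smooth Beltrami equation and area distortion)
-/

open Complex MeasureTheory Set Filter Topology
open scoped ContDiff

namespace Pool.B2F

noncomputable section

theorem A08a_eq (ψ : ℂ → ℂ) (z : ℂ) : cau ψ z = (1 / Real.pi : ℂ) * ∫ w, ψ w / (z - w) := by
  rw [cau, ← integral_sub_left_eq_self (fun w => ψ w / (z - w)) volume z]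
  simp

theorem A08a_norm (ψ : ℂ → ℂ) (z : ℂ) : ‖cau ψ z‖ ≤ (1 / Real.pi) * ∫ w, ‖ψ w‖ / ‖z - w‖ := by
  rw [A08a_eq, norm_mul]
  have h1 : ‖(1 / Real.pi : ℂ)‖ = 1 / Real.pi := by
    rw [norm_div, norm_one, Complex.norm_real, Real.norm_of_nonneg Real.pi_pos.le]
  rw [h1]
  refine mul_le_mul_of_nonneg_left ?_ (by positivity)
  refine (norm_integral_le_integral_norm _).trans (le_of_eq ?_)
  simp

/-- off the support, with distance -/
theorem norm_cau_dist {ψ : ℂ → ℂ} (h : Cc univ ψ) {z : ℂ} {δ : ℝ} (hδ : 0 < δ)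
    (hz : ∀ ζ ∈ tsupport ψ, δ ≤ ‖z - ζ‖) : ‖cau ψ z‖ ≤ (∫ ζ, ‖ψ ζ‖) / (Real.pi * δ) := by
  refine (A08a_norm ψ z).trans ?_
  have hi : Integrable ψ := Cc.integrable h
  have h1 : ∫ w, ‖ψ w‖ / ‖z - w‖ ≤ ∫ w, ‖ψ w‖ * δ⁻¹ := by
    refine integral_mono_of_nonneg (Eventually.of_forall fun w => by positivity)
      (hi.norm.mul_const _) (Eventually.of_forall fun w => ?_)
    simp only
    by_cases hw : w ∈ tsupport ψ
    · rw [div_eq_mul_inv]
      exact mul_le_mul_of_nonneg_left (inv_anti₀ hδ (hz w hw)) (norm_nonneg _)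
    · rw [image_eq_zero_of_notMem_tsupport hw]
      simp
  rw [integral_mul_const] at h1
  have h2 := mul_le_mul_of_nonneg_left h1 (by positivity : 0 ≤ 1 / Real.pi)
  refine h2.trans (le_of_eq ?_)
  have := Real.pi_pos.ne'
  field_simp

/-- PROOF. Split the integral at `|ζ| = 1`; `∫_{|ζ|<1} 1/|ζ| = 2 π`, and the support of `ζ ↦ ψ (z - ζ)` has area at most `π`. -/
theorem norm_cau_le {ψ : ℂ → ℂ} (h : Cc (Metric.ball 0 1) ψ) {B : ℝ} (hB : ∀ z, ‖ψ z‖ ≤ B) (z : ℂ) :
    ‖cau ψ z‖ ≤ 4 * B := by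
  refine (A08a_norm ψ z).trans ?_
  have hB0 : 0 ≤ B := (norm_nonneg _).trans (hB 0)
  obtain ⟨i1, -⟩ := int_inv_le z z (zero_le_one)
  obtain ⟨i2, -⟩ := int_inv_le 0 z (zero_le_one)
  have hfin : volume (Metric.ball (0 : ℂ) 1) ≠ ⊤ := by
    rw [Complex.volume_ball]; exact ENNReal.mul_ne_top (by simp) (by simp)
  -- the dominating function
  have hg1 : Integrable ((Metric.ball z 1).indicator fun w => B * ‖w - z‖⁻¹) :=
    IntegrableOn.integrable_indicator (Integrable.const_mul i1 B) measurableSet_ball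
  have hg2 : Integrable ((Metric.ball (0 : ℂ) 1).indicator fun _ => B) :=
    (integrableOn_const hfin).integrable_indicator measurableSet_ball
  have h1 : ∫ w, ‖ψ w‖ / ‖z - w‖ ≤ ∫ w, ((Metric.ball z 1).indicator (fun w => B * ‖w - z‖⁻¹) w +
      (Metric.ball (0 : ℂ) 1).indicator (fun _ => B) w) := by
    refine integral_mono_of_nonneg (Eventually.of_forall fun w => by positivity)
      (hg1.add hg2) (Eventually.of_forall fun w => ?_)
    simp only
    have n1 : 0 ≤ (Metric.ball z 1).indicator (fun w => B * ‖w - z‖⁻¹) w :=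
      indicator_nonneg (fun _ _ => by positivity) _
    have n2 : 0 ≤ (Metric.ball (0 : ℂ) 1).indicator (fun _ => B) w :=
      indicator_nonneg (fun _ _ => hB0) _
    by_cases hw : w ∈ tsupport ψ
    · have hw1 : w ∈ Metric.ball (0 : ℂ) 1 := h.sub hw
      by_cases hwz : w ∈ Metric.ball z 1
      · rw [indicator_of_mem hwz]
        have : ‖ψ w‖ / ‖z - w‖ ≤ B * ‖w - z‖⁻¹ := by
          rw [norm_sub_rev, div_eq_mul_inv]
          exact mul_le_mul_of_nonneg_right (hB w) (by positivity)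
        linarith
      · rw [indicator_of_mem hw1]
        have h2 : 1 ≤ ‖z - w‖ := by
          rw [Metric.mem_ball, dist_eq_norm, not_lt, norm_sub_rev] at hwz
          exact hwz
        have : ‖ψ w‖ / ‖z - w‖ ≤ B := by
          refine (div_le_self (norm_nonneg _) h2).trans (hB w)
        linarith
    · rw [image_eq_zero_of_notMem_tsupport hw]
      simp only [norm_zero, zero_div]
      linarith
  rw [integral_add hg1 hg2, integral_indicator measurableSet_ball,
    integral_indicator measurableSet_ball, integral_const_mul, setIntegral_const] at h1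
  have h3 : ∫ w in Metric.ball z 1, ‖w - z‖⁻¹ = 2 * Real.pi := by
    have hmp : MeasurePreserving (fun w : ℂ => w - z) volume volume :=
      measurePreserving_sub_right volume z
    have he : MeasurableEmbedding (fun w : ℂ => w - z) :=
      (MeasurableEquiv.subRight z).measurableEmbedding
    have h2 : (fun w : ℂ => w - z) ⁻¹' (Metric.ball (0 : ℂ) 1) = Metric.ball z 1 := by
      ext w
      simp [dist_eq_norm]
    have h3 := hmp.setIntegral_preimage_emb he (fun ζ : ℂ => ‖ζ‖⁻¹) (Metric.ball (0 : ℂ) 1)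
    rw [h2] at h3
    rw [h3, int_inv_ball zero_le_one, mul_one]
  have h4 : (volume : Measure ℂ).real (Metric.ball 0 1) = Real.pi := by
    rw [Measure.real, Complex.volume_ball]
    simp
  rw [h3, h4, smul_eq_mul] at h1
  have h5 := mul_le_mul_of_nonneg_left h1 (by positivity : 0 ≤ 1 / Real.pi)
  refine h5.trans ?_
  have h6 : 1 / Real.pi * (B * (2 * Real.pi) + Real.pi * B) = 3 * B := by
    have := Real.pi_pos.ne'
    field_simp
    ring
  rw [h6]
  linarith

theorem norm_cau_far {ψ : ℂ → ℂ} (h : Cc (Metric.ball 0 1) ψ) {z : ℂ} (hz : 2 ≤ ‖z‖) :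
    ‖cau ψ z‖ ≤ (∫ ζ, ‖ψ ζ‖) / ‖z‖ := by
  have h1 : ‖cau ψ z‖ ≤ (∫ ζ, ‖ψ ζ‖) / (Real.pi * (‖z‖ / 2)) := by
    refine norm_cau_dist (h.mono (subset_univ _)) (by linarith) fun ζ hζ => ?_
    have h2 := h.sub hζ
    rw [Metric.mem_ball, dist_zero_right] at h2
    have h3 := norm_sub_norm_le z ζ
    linarith
  refine h1.trans ?_
  refine div_le_div_of_nonneg_left (integral_nonneg fun _ => norm_nonneg _) (by linarith) ?_
  nlinarith [Real.pi_gt_three]

theorem tendsto_cau {ψ : ℂ → ℂ} (h : Cc (Metric.ball 0 1) ψ) :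
    Tendsto (cau ψ) (cocompact ℂ) (𝓝 0) := by
  have hn : Tendsto (fun z : ℂ => ‖z‖) (cocompact ℂ) atTop := tendsto_norm_cocompact_atTop
  have h1 : Tendsto (fun z : ℂ => (∫ ζ, ‖ψ ζ‖) / ‖z‖) (cocompact ℂ) (𝓝 0) :=
    tendsto_const_nhds.div_atTop hn
  refine squeeze_zero_norm' ?_ h1
  filter_upwards [hn.eventually_ge_atTop 2] with z hz
  exact norm_cau_far h hz

end

end Pool.B2F
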