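import Pool.Agent.Lib.MP_b2f128_an.Base
import Pool.Agent.Lib.MP_b2f128_an.A00
import Pool.Agent.Lib.MP_b2f128_an.A01a
import Pool.Agent.Lib.MP_b2f128_an.A01b
import Pool.Agent.Lib.MP_b2f128_an.A02b
import Pool.Agent.Lib.MP_b2f128_an.A04

/-!
# MP_b2f128_an, part A08b (smooth Beltrami equation and area distortion)
-/

open Complex MeasureTheory Set Filter Topology
open scoped ContDiff

namespace Pool.B2F

noncomputable section

theorem A08b_glue {U : Set ℂ} (hU : IsOpen U) {φ Ψ : ℂ → ℂ} (hφ : Cc U φ) (hΨ : ContDiffOn ℝ ∞ Ψ U) :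
    Cc U (fun z => φ z * Ψ z) := by
  refine ⟨?_, hφ.cpt.mul_right, (tsupport_mul_subset_left).trans hφ.sub⟩
  rw [contDiff_iff_contDiffAt]
  intro z
  by_cases hz : z ∈ U
  · exact hφ.smooth.contDiffAt.mul (hΨ.contDiffAt (hU.mem_nhds hz))
  · have h0 : z ∉ tsupport φ := fun h => hz (hφ.sub h)
    have h1 : φ =ᶠ[𝓝 z] 0 := notMem_tsupport_iff_eventuallyEq.mp h0
    refine (contDiffAt_const (c := (0:ℂ))).congr_of_eventuallyEq ?_
    filter_upwards [h1] with w hw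
    simp [hw]

theorem A08b_int_dz {Θ : ℂ → ℂ} (h : Cc univ Θ) : ∫ z, dz Θ z = 0 := by
  have h1 := ibp_z (f := fun _ => (1 : ℂ)) contDiff_const h
  simpa [dz_const] using h1

theorem A08b_bd {U : Set ℂ} {φ : ℂ → ℂ} (h : Cc U φ) : ∃ B : ℝ, ∀ z, ‖φ z‖ ≤ B :=
  h.smooth.continuous.bounded_above_of_compact_support h.cpt

theorem A08b_zero {U : Set ℂ} {φ : ℂ → ℂ} (h : Cc U φ) {z : ℂ} (hz : z ∉ U) : φ z = 0 :=
  image_eq_zero_of_notMem_tsupport fun h' => hz (h.sub h')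

theorem A08b_ibp_z {U : Set ℂ} (hU : IsOpen U) {φ Ψ : ℂ → ℂ} (hφ : Cc U φ)
    (hΨ : ContDiffOn ℝ ∞ Ψ U) (hi : IntegrableOn Ψ U) :
    IntegrableOn (fun z => φ z * dz Ψ z) U ∧
      ∫ z in U, φ z * dz Ψ z = -∫ z in U, Ψ z * dz φ z := by
  have hΘ := A08b_glue hU hφ hΨ
  have hd : Cc U (dz φ) := hφ.dz
  obtain ⟨B, hB⟩ := A08b_bd hd
  have i1 : IntegrableOn (fun z => Ψ z * dz φ z) U :=
    Integrable.mul_bdd hi hd.smooth.continuous.aestronglyMeasurable (ae_of_all _ hB)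
  have i2 : IntegrableOn (dz (fun z => φ z * Ψ z)) U := hΘ.dz.integrable.integrableOn
  have e1 : ∀ z ∈ U, φ z * dz Ψ z = dz (fun z => φ z * Ψ z) z - Ψ z * dz φ z := by
    intro z hz
    rw [dz_mul (hφ.smooth.contDiffAt.differentiableAt (by simp))
      ((hΨ.contDiffAt (hU.mem_nhds hz)).differentiableAt (by simp))]
    ring
  have i3 : IntegrableOn (fun z => dz (fun z => φ z * Ψ z) z - Ψ z * dz φ z) U := i2.sub i1
  refine ⟨i3.congr_fun (fun z hz => (e1 z hz).symm) hU.measurableSet, ?_⟩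
  rw [setIntegral_congr_fun hU.measurableSet e1, integral_sub i2 i1]
  have h0 : ∫ z in U, dz (fun z => φ z * Ψ z) z = 0 := by
    rw [setIntegral_eq_integral_of_forall_compl_eq_zero]
    · exact A08b_int_dz (hΘ.mono (subset_univ _))
    · intro z hz
      exact A08b_zero hΘ.dz hz
  rw [h0, zero_sub]

theorem A08b_dz_holo {k : ℂ → ℂ} {w d : ℂ} (h : HasDerivAt k d w) : dz k w = d := by
  have h1 := h.complexToReal_fderiv.fderiv
  unfold Pool.B2F.dz
  rw [h1]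
  simp only [FunLike.coe_smul, Pi.smul_apply, one_apply_eq_self, smul_eq_mul, mul_one]
  have : I * (d * I) = -d := by
    calc I * (d * I) = d * (I * I) := by ring
      _ = -d := by rw [Complex.I_mul_I]; ring
  rw [this]
  ring

/-- PROOF. `beu ψ z = -(1/π) ∫ ψ ζ / (z - ζ)²` for `|z| ≥ 2`: integration by parts against a smooth function which equals `1 / (z - ζ)` for `|ζ| < 3/2` (or differentiate the formula of `cau ψ` under the integral sign). -/
theorem norm_beu_far {ψ : ℂ → ℂ} (h : Cc (Metric.ball 0 1) ψ) {z : ℂ} (hz : 2 ≤ ‖z‖) :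
    ‖beu ψ z‖ ≤ 2 * (∫ ζ, ‖ψ ζ‖) / ‖z‖ ^ 2 := by
  set U : Set ℂ := Metric.ball (0 : ℂ) 1 with hU
  have hUo : IsOpen U := Metric.isOpen_ball
  have hdist : ∀ w ∈ Metric.closedBall (0 : ℂ) 1, ‖z‖ / 2 ≤ ‖z - w‖ := by
    intro w hw
    rw [mem_closedBall_zero_iff] at hw
    have := norm_sub_norm_le z w
    linarith
  have hne : ∀ w ∈ Metric.closedBall (0 : ℂ) 1, z - w ≠ 0 := by
    intro w hw h0
    have := hdist w hw
    rw [h0, norm_zero] at this
    linarith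
  have hUc : U ⊆ Metric.closedBall (0 : ℂ) 1 := Metric.ball_subset_closedBall
  set k : ℂ → ℂ := fun w => (z - w)⁻¹ with hk
  have hkd : ∀ w ∈ U, HasDerivAt k (((z - w) ^ 2)⁻¹) w := by
    intro w hw
    have h1 : HasDerivAt (fun w : ℂ => z - w) (-1) w := by
      simpa using (hasDerivAt_id w).const_sub z
    have h2 : HasDerivAt (fun w : ℂ => (z - w)⁻¹) (-(-1) / (z - w) ^ 2) w := h1.inv (hne w (hUc hw))
    have h3 : -(-1) / (z - w) ^ 2 = ((z - w) ^ 2)⁻¹ := by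
      rw [neg_neg, one_div]
    rw [h3] at h2
    exact h2
  have hkdz : ∀ w ∈ U, dz k w = ((z - w) ^ 2)⁻¹ := fun w hw => A08b_dz_holo (hkd w hw)
  have hks : ContDiffOn ℝ ∞ k U := by
    intro w hw
    exact ((contDiffAt_const.sub contDiffAt_id).inv (hne w (hUc hw))).contDiffWithinAt
  have hkc : ContinuousOn k (Metric.closedBall (0 : ℂ) 1) := by
    intro w hw
    exact ((continuousAt_const.sub continuousAt_id).inv₀ (hne w hw)).continuousWithinAt
  have hki : IntegrableOn k U :=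
    (hkc.integrableOn_compact (isCompact_closedBall (0 : ℂ) 1)).mono_set hUc
  obtain ⟨-, e1⟩ := A08b_ibp_z hUo h hks hki
  have hsub : ∫ ζ, dz ψ (z - ζ) / ζ = ∫ w, dz ψ w / (z - w) := by
    have := integral_sub_left_eq_self (fun w => dz ψ w / (z - w)) volume z
    rw [← this]
    refine integral_congr_ae (ae_of_all _ fun ζ => ?_)
    simp
  have e2 : ∫ w, dz ψ w / (z - w) = ∫ w in U, k w * dz ψ w := by
    rw [← setIntegral_eq_integral_of_forall_compl_eq_zero (s := U)]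
    · refine integral_congr_ae (ae_of_all _ fun ζ => ?_)
      simp only [hk]
      rw [div_eq_mul_inv, mul_comm]
    · intro w hw
      rw [A08b_zero h.dz hw, zero_div]
  have e3 : beu ψ z = -((1 / Real.pi : ℂ) * ∫ w in U, ψ w * dz k w) := by
    unfold beu cau
    rw [hsub, e2, e1]
    ring
  have hb : ‖∫ w in U, ψ w * dz k w‖ ≤ 4 / ‖z‖ ^ 2 * ∫ ζ, ‖ψ ζ‖ := by
    have hψi : Integrable (fun ζ => ‖ψ ζ‖) := h.integrable.norm
    calc ‖∫ w in U, ψ w * dz k w‖ ≤ ∫ w in U, 4 / ‖z‖ ^ 2 * ‖ψ w‖ := by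
          refine norm_integral_le_of_norm_le (hψi.integrableOn.const_mul _) ?_
          refine (ae_restrict_iff' hUo.measurableSet).mpr (ae_of_all _ fun w hw => ?_)
          rw [hkdz w hw, norm_mul, norm_inv, norm_pow, mul_comm]
          refine mul_le_mul_of_nonneg_right ?_ (norm_nonneg _)
          have h1 := hdist w (hUc hw)
          have h2 : 0 < ‖z‖ / 2 := by linarith
          have h3 : (‖z‖ / 2) ^ 2 ≤ ‖z - w‖ ^ 2 := pow_le_pow_left₀ h2.le h1 2
          calc (‖z - w‖ ^ 2)⁻¹ ≤ ((‖z‖ / 2) ^ 2)⁻¹ := inv_anti₀ (by positivity) h3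
            _ = 4 / ‖z‖ ^ 2 := by
              have : ‖z‖ ≠ 0 := by linarith
              field_simp
              norm_num
      _ = 4 / ‖z‖ ^ 2 * ∫ w in U, ‖ψ w‖ := integral_const_mul _ _
      _ ≤ 4 / ‖z‖ ^ 2 * ∫ ζ, ‖ψ ζ‖ := by
          refine mul_le_mul_of_nonneg_left ?_ (by positivity)
          exact setIntegral_le_integral hψi (ae_of_all _ fun _ => norm_nonneg _)
  rw [e3, norm_neg, norm_mul]
  have hpi : ‖(1 / Real.pi : ℂ)‖ = 1 / Real.pi := by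
    rw [norm_div, norm_one, Complex.norm_real, Real.norm_of_nonneg Real.pi_pos.le]
  rw [hpi]
  have hI : 0 ≤ ∫ ζ, ‖ψ ζ‖ := integral_nonneg fun _ => norm_nonneg _
  have hpi3 : 1 / Real.pi ≤ 1 / 2 := one_div_le_one_div_of_le (by norm_num) (by linarith [Real.pi_gt_three])
  calc 1 / Real.pi * ‖∫ w in U, ψ w * dz k w‖ ≤ 1 / 2 * (4 / ‖z‖ ^ 2 * ∫ ζ, ‖ψ ζ‖) :=
        mul_le_mul hpi3 hb (norm_nonneg _) (by norm_num)
    _ = 2 * (∫ ζ, ‖ψ ζ‖) / ‖z‖ ^ 2 := by ring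

theorem tendsto_beu {ψ : ℂ → ℂ} (h : Cc (Metric.ball 0 1) ψ) :
    Tendsto (beu ψ) (cocompact ℂ) (𝓝 0) := by
  have h1 : Tendsto (fun z : ℂ => ‖z‖) (cocompact ℂ) atTop := tendsto_norm_cocompact_atTop
  have h2 : Tendsto (fun z : ℂ => 2 * (∫ ζ, ‖ψ ζ‖) / ‖z‖ ^ 2) (cocompact ℂ) (𝓝 0) :=
    ((tendsto_pow_atTop (two_ne_zero)).comp h1).const_div_atTop _
  refine squeeze_zero_norm' ?_ h2
  filter_upwards [h1.eventually_ge_atTop 2] with z hz
  exact norm_beu_far h hz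

end

end Pool.B2F
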