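import Pool.Agent.Lib.MP_b2f128_an.Base
import Pool.Agent.Lib.MP_b2f128_an.A01a
import Pool.Agent.Lib.MP_b2f128_an.A01b
import Pool.Agent.Lib.MP_b2f128_an.A02a
import Pool.Agent.Lib.MP_b2f128_an.A02b
import Pool.Agent.Lib.MP_b2f128_an.A04
import Pool.Agent.Lib.MP_b2f128_an.A06
import Pool.Agent.Lib.MP_b2f128_an.A07z
import Pool.Agent.Lib.MP_b2f128_an.A08a
import Pool.Agent.Lib.MP_b2f128_an.A08b

/-!
# MP_b2f128_an, part A09 (smooth Beltrami equation and area distortion)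
-/

open Complex MeasureTheory Set Filter Topology
open scoped ContDiff

namespace Pool.B2F

noncomputable section

/-- an integrable majorant -/
theorem A09_int (K : ℝ) : Integrable (fun z : ℂ => K / (1 + ‖z‖) ^ 4) := by
  have h := integrable_one_add_norm (E := ℂ) (μ := volume) (r := 4) (by
    rw [Complex.finrank_real_complex]; norm_num)
  have h2 := h.const_mul K
  refine h2.congr (Filter.Eventually.of_forall fun z => ?_)
  show K * (1 + ‖z‖) ^ (-(4 : ℝ)) = K / (1 + ‖z‖) ^ 4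
  have hpos : 0 < 1 + ‖z‖ := by positivity
  rw [Real.rpow_neg hpos.le, div_eq_mul_inv]
  congr 2
  exact_mod_cast Real.rpow_natCast (1 + ‖z‖) 4

theorem A09_decay {f : ℂ → ℂ} (hf : Continuous f) {C : ℝ} (hC : 0 ≤ C)
    (h : ∀ z, 2 ≤ ‖z‖ → ‖f z‖ ≤ C / ‖z‖ ^ 2) :
    ∃ K, 0 ≤ K ∧ ∀ z, ‖f z‖ ≤ K / (1 + ‖z‖) ^ 2 := by
  obtain ⟨B, hB⟩ := (isCompact_closedBall (0 : ℂ) 2).exists_bound_of_continuousOn hf.continuousOn
  have hB0 : 0 ≤ max B 0 := le_max_right _ _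
  refine ⟨9 * max B 0 + 9 / 4 * C, by positivity, fun z => ?_⟩
  have hpos : 0 < (1 + ‖z‖) ^ 2 := by positivity
  rw [le_div_iff₀ hpos]
  have h3 : 0 ≤ ‖f z‖ := norm_nonneg _
  by_cases hz : 2 ≤ ‖z‖
  · have h1 := h z hz
    have hz0 : 0 < ‖z‖ ^ 2 := by
      have : 0 < ‖z‖ := by linarith
      positivity
    rw [le_div_iff₀ hz0] at h1
    have h2 : (1 + ‖z‖) ^ 2 ≤ 9 / 4 * ‖z‖ ^ 2 := by nlinarith
    have h4 := mul_le_mul_of_nonneg_left h2 h3
    linarith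
  · push Not at hz
    have h1 : ‖f z‖ ≤ max B 0 := by
      refine le_trans (hB z ?_) (le_max_left _ _)
      rw [Metric.mem_closedBall, dist_zero_right]
      exact hz.le
    have h2 : (1 + ‖z‖) ^ 2 ≤ 9 := by nlinarith [norm_nonneg z]
    have h4 := mul_le_mul h1 h2 hpos.le hB0
    linarith

theorem A09_cutoff : ∃ (F : ℕ → ℂ → ℂ) (D : ℝ), 0 ≤ D ∧ (∀ n, Cc univ (F n)) ∧
    (∀ n z, ‖F n z‖ ≤ 1) ∧
    (∀ (n : ℕ) (z : ℂ), ‖z‖ < n + 2 → F n =ᶠ[𝓝 z] fun _ => 1) ∧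
    (∀ n z, ‖z‖ * ‖fderiv ℝ (F n) z‖ ≤ D) := by
  let f : ContDiffBump (0 : ℂ) := ⟨1, 2, by norm_num, by norm_num⟩
  let G : ℂ → ℂ := fun w => ((f w : ℝ) : ℂ)
  have hG : ContDiff ℝ ∞ G := Complex.ofRealCLM.contDiff.comp f.contDiff
  have hGc : HasCompactSupport G := by
    have : HasCompactSupport (fun w => (f w : ℝ)) := f.hasCompactSupport
    exact this.comp_left (g := fun x : ℝ => (x : ℂ)) (by simp)
  have hG1 : ∀ w, ‖G w‖ ≤ 1 := by
    intro w
    show ‖((f w : ℝ) : ℂ)‖ ≤ 1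
    rw [Complex.norm_real, Real.norm_of_nonneg f.nonneg]
    exact f.le_one
  have hGone : ∀ w, ‖w‖ < 1 → G =ᶠ[𝓝 w] fun _ => 1 := by
    intro w hw
    have h1 : w ∈ Metric.ball (0 : ℂ) f.rIn := by
      rw [Metric.mem_ball, dist_zero_right]; exact hw
    filter_upwards [f.eventuallyEq_one_of_mem_ball h1] with v hv
    show ((f v : ℝ) : ℂ) = 1
    rw [hv]; simp
  have hdc : Continuous (fderiv ℝ G) := hG.continuous_fderiv (by simp)
  have hdk : HasCompactSupport (fderiv ℝ G) := hGc.fderiv ℝ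
  have hbd : ∃ D, ∀ w : ℂ, ‖(‖w‖ * ‖fderiv ℝ G w‖ : ℝ)‖ ≤ D :=
    Continuous.bounded_above_of_compact_support (continuous_norm.mul hdc.norm) hdk.norm.mul_left
  obtain ⟨D, hD'⟩ := hbd
  have hD : ∀ w : ℂ, ‖w‖ * ‖fderiv ℝ G w‖ ≤ D := fun w => le_trans (le_abs_self _) (hD' w)
  have hD0 : 0 ≤ D := le_trans (norm_nonneg _) (hD' 0)
  have hc : ∀ n : ℕ, (0 : ℝ) < ((n : ℝ) + 2)⁻¹ := fun n => by positivity
  refine ⟨fun n z => G (((n : ℝ) + 2)⁻¹ • z), D, hD0, ?_, ?_, ?_, ?_⟩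
  · intro n
    refine ⟨hG.comp (contDiff_const_smul _), ?_, subset_univ _⟩
    exact hGc.comp_smul (hc n).ne'
  · intro n z
    exact hG1 _
  · intro n z hz
    have h1 : ‖((n : ℝ) + 2)⁻¹ • z‖ < 1 := by
      rw [norm_smul, Real.norm_of_nonneg (hc n).le, inv_mul_lt_iff₀ (by positivity)]
      linarith
    have h2 : Tendsto (fun z : ℂ => ((n : ℝ) + 2)⁻¹ • z) (𝓝 z) (𝓝 (((n : ℝ) + 2)⁻¹ • z)) :=
      (continuous_const_smul _).tendsto z
    exact h2.eventually (hGone _ h1)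
  · intro n z
    have h1 : fderiv ℝ (fun z => G (((n : ℝ) + 2)⁻¹ • z)) z
        = ((n : ℝ) + 2)⁻¹ • fderiv ℝ G (((n : ℝ) + 2)⁻¹ • z) := fderiv_comp_smul _
    rw [h1, norm_smul]
    have h2 := hD (((n : ℝ) + 2)⁻¹ • z)
    rw [norm_smul] at h2
    calc ‖z‖ * (‖((n : ℝ) + 2)⁻¹‖ * ‖fderiv ℝ G (((n : ℝ) + 2)⁻¹ • z)‖)
        = ‖((n : ℝ) + 2)⁻¹‖ * ‖z‖ * ‖fderiv ℝ G (((n : ℝ) + 2)⁻¹ • z)‖ := by ring
      _ ≤ D := h2

theorem A09_beu_decay {ψ : ℂ → ℂ} (h : Cc (Metric.ball 0 1) ψ) :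
    ∃ K, 0 ≤ K ∧ ∀ z, ‖beu ψ z‖ ≤ K / (1 + ‖z‖) ^ 2 := by
  have h0 : Cc univ (Pool.B2F.dz ψ) := (Cc.dz h).mono (subset_univ _)
  have hA : 0 ≤ ∫ ζ, ‖ψ ζ‖ := integral_nonneg fun _ => norm_nonneg _
  exact A09_decay (cau_smooth h0).continuous (C := 2 * ∫ ζ, ‖ψ ζ‖) (by positivity)
    (fun z hz => norm_beu_far h hz)

theorem A09_sq_le {a K t : ℝ} (ha : 0 ≤ a) (h : a ≤ K / t ^ 2) : a ^ 2 ≤ K ^ 2 / t ^ 4 := by
  have h1 := pow_le_pow_left₀ ha h 2
  calc a ^ 2 ≤ (K / t ^ 2) ^ 2 := h1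
    _ = K ^ 2 / t ^ 4 := by rw [div_pow]; congr 1; ring

theorem beu_memLp {ψ : ℂ → ℂ} (h : Cc (Metric.ball 0 1) ψ) (s : Set ℂ) :
    MemLp (beu ψ) 2 (volume.restrict s) := by
  have h0 : Cc univ (Pool.B2F.dz ψ) := (Cc.dz h).mono (subset_univ _)
  have hcont : Continuous (beu ψ) := (cau_smooth h0).continuous
  obtain ⟨K, hK, hb⟩ := A09_beu_decay h
  have h1 : MemLp (beu ψ) 2 volume := by
    rw [memLp_two_iff_integrable_sq_norm hcont.aestronglyMeasurable]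
    refine (A09_int (K ^ 2)).mono' (hcont.norm.pow 2).aestronglyMeasurable
      (Filter.Eventually.of_forall fun z => ?_)
    rw [Real.norm_of_nonneg (by positivity)]
    exact A09_sq_le (norm_nonneg _) (hb z)
  exact h1.restrict s

theorem A09_norm_dz_le (f : ℂ → ℂ) (z : ℂ) : ‖dz f z‖ ≤ ‖fderiv ℝ f z‖ ∧
    ‖dzb f z‖ ≤ ‖fderiv ℝ f z‖ := by
  have := norm_fderiv f z
  constructor <;> linarith [norm_nonneg (dz f z), norm_nonneg (dzb f z)]

/-- PROOF. `u = cau ψ`, `dz u = beu ψ`, `dzb u = ψ`. Apply `energy_Cc` to `χ_R u`, `χ_R` a smooth cutoff (1 on `ball 0 R`, 0 off `ball 0 (2R)`, `|D χ_R| ≤ C/R`). `|u| ≤ C/|z|`, so the terms with `D χ_R` have `L²` norm at most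
`C / R`. Let `R → ∞`. -/
theorem n2_beu {ψ : ℂ → ℂ} (h : Cc (Metric.ball 0 1) ψ) : n2 univ (beu ψ) = n2 univ ψ := by
  have hψ : Cc univ ψ := h.mono (subset_univ _)
  have hu : ContDiff ℝ ∞ (cau ψ) := cau_smooth hψ
  have hdz : dz (cau ψ) = beu ψ := dz_cau hψ
  have hdzb : dzb (cau ψ) = ψ := dzb_cau hψ
  have h0 : Cc univ (Pool.B2F.dz ψ) := hψ.dz
  have hcont : Continuous (beu ψ) := (cau_smooth h0).continuous
  obtain ⟨F, D, hD, hFc, hF1, hFone, hFD⟩ := A09_cutoff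
  obtain ⟨K1, hK1, hb1⟩ := A09_beu_decay h
  have hA : 0 ≤ ∫ ζ, ‖ψ ζ‖ := integral_nonneg fun _ => norm_nonneg _
  obtain ⟨K2, hK2, hb2⟩ := A09_decay hψ.smooth.continuous (le_refl (0 : ℝ)) (fun z hz => by
    have : ψ z = 0 := by
      apply image_eq_zero_of_notMem_tsupport
      intro hz2
      have := h.sub hz2
      rw [Metric.mem_ball, dist_zero_right] at this
      linarith
    rw [this]; simp)
  -- the product with the derivative of the cutoff
  have hprod : ∀ (n : ℕ) (z : ℂ), ‖cau ψ z‖ * ‖fderiv ℝ (F n) z‖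
      ≤ (9 / 4 * ((∫ ζ, ‖ψ ζ‖) * D)) / (1 + ‖z‖) ^ 2 := by
    intro n z
    have hpos : 0 < (1 + ‖z‖) ^ 2 := by positivity
    by_cases hz : ‖z‖ < 2
    · have h1 : fderiv ℝ (F n) z = 0 := by
        have h2 := hFone n z (by
          have : (0 : ℝ) ≤ n := Nat.cast_nonneg n
          linarith)
        rw [h2.fderiv_eq]
        exact fderiv_const_apply _
      rw [h1, norm_zero, mul_zero]
      positivity
    · push Not at hz
      have hz0 : 0 < ‖z‖ := by linarith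
      have h1 := norm_cau_far h hz
      rw [le_div_iff₀ hz0] at h1
      have h2 := hFD n z
      rw [le_div_iff₀ hpos]
      have h3 : (1 + ‖z‖) ^ 2 ≤ 9 / 4 * ‖z‖ ^ 2 := by nlinarith
      have h4 : 0 ≤ ‖cau ψ z‖ * ‖fderiv ℝ (F n) z‖ := by positivity
      calc ‖cau ψ z‖ * ‖fderiv ℝ (F n) z‖ * (1 + ‖z‖) ^ 2
          ≤ ‖cau ψ z‖ * ‖fderiv ℝ (F n) z‖ * (9 / 4 * ‖z‖ ^ 2) :=
            mul_le_mul_of_nonneg_left h3 h4
        _ = 9 / 4 * ((‖cau ψ z‖ * ‖z‖) * (‖z‖ * ‖fderiv ℝ (F n) z‖)) := by ring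
        _ ≤ 9 / 4 * ((∫ ζ, ‖ψ ζ‖) * D) := by
            apply mul_le_mul_of_nonneg_left _ (by norm_num)
            exact mul_le_mul h1 h2 (by positivity) hA
  set K3 : ℝ := 9 / 4 * ((∫ ζ, ‖ψ ζ‖) * D) with hK3
  have hK3' : 0 ≤ K3 := by positivity
  -- energy identity for the truncations
  have hen : ∀ n, ∫ z, ‖dz (fun z => cau ψ z * F n z) z‖ ^ 2
      = ∫ z, ‖dzb (fun z => cau ψ z * F n z) z‖ ^ 2 := fun n =>
    energy_Cc ((hFc n).mul_left hu)
  have hform : ∀ n z, dz (fun z => cau ψ z * F n z) z = beu ψ z * F n z + cau ψ z * dz (F n) z := by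
    intro n z
    rw [dz_mul (hu.differentiable (by simp) z) ((hFc n).smooth.differentiable (by simp) z), hdz]
  have hformb : ∀ n z, dzb (fun z => cau ψ z * F n z) z = ψ z * F n z + cau ψ z * dzb (F n) z := by
    intro n z
    rw [dzb_mul (hu.differentiable (by simp) z) ((hFc n).smooth.differentiable (by simp) z), hdzb]
  have hbound : ∀ n z, ‖dz (fun z => cau ψ z * F n z) z‖ ≤ (K1 + K3) / (1 + ‖z‖) ^ 2 := by
    intro n z
    rw [hform n z, add_div]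
    refine le_trans (norm_add_le _ _) (add_le_add ?_ ?_)
    · rw [norm_mul]
      calc ‖beu ψ z‖ * ‖F n z‖ ≤ ‖beu ψ z‖ * 1 :=
            mul_le_mul_of_nonneg_left (hF1 n z) (norm_nonneg _)
        _ ≤ _ := by rw [mul_one]; exact hb1 z
    · rw [norm_mul]
      exact le_trans (mul_le_mul_of_nonneg_left (A09_norm_dz_le _ _).1 (norm_nonneg _)) (hprod n z)
  have hboundb : ∀ n z, ‖dzb (fun z => cau ψ z * F n z) z‖ ≤ (K2 + K3) / (1 + ‖z‖) ^ 2 := by
    intro n z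
    rw [hformb n z, add_div]
    refine le_trans (norm_add_le _ _) (add_le_add ?_ ?_)
    · rw [norm_mul]
      calc ‖ψ z‖ * ‖F n z‖ ≤ ‖ψ z‖ * 1 :=
            mul_le_mul_of_nonneg_left (hF1 n z) (norm_nonneg _)
        _ ≤ _ := by rw [mul_one]; exact hb2 z
    · rw [norm_mul]
      exact le_trans (mul_le_mul_of_nonneg_left (A09_norm_dz_le _ _).2 (norm_nonneg _)) (hprod n z)
  have hev : ∀ z : ℂ, ∀ᶠ n : ℕ in atTop, F n =ᶠ[𝓝 z] fun _ => 1 := by
    intro z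
    filter_upwards [eventually_ge_atTop ⌈‖z‖⌉₊] with n hn
    apply hFone
    have h1 : ‖z‖ ≤ n := le_trans (Nat.le_ceil _) (by exact_mod_cast hn)
    linarith
  have hlim : Tendsto (fun n => ∫ z, ‖dz (fun z => cau ψ z * F n z) z‖ ^ 2) atTop
      (𝓝 (∫ z, ‖beu ψ z‖ ^ 2)) := by
    apply tendsto_integral_of_dominated_convergence (fun z => (K1 + K3) ^ 2 / (1 + ‖z‖) ^ 4)
    · intro n
      have : Continuous (dz (fun z => cau ψ z * F n z)) :=
        (dz_smooth ((hFc n).mul_left hu).smooth).continuous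
      exact (this.norm.pow 2).aestronglyMeasurable
    · exact A09_int _
    · intro n
      refine Filter.Eventually.of_forall fun z => ?_
      rw [Real.norm_of_nonneg (by positivity)]
      exact A09_sq_le (norm_nonneg _) (hbound n z)
    · refine Filter.Eventually.of_forall fun z => ?_
      apply tendsto_const_nhds.congr'
      filter_upwards [hev z] with n hn
      rw [hform n z, hn.eq_of_nhds]
      have : dz (F n) z = 0 := by
        unfold dz
        rw [hn.fderiv_eq]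
        simp
      rw [this, mul_zero, add_zero, mul_one]
  have hlimb : Tendsto (fun n => ∫ z, ‖dzb (fun z => cau ψ z * F n z) z‖ ^ 2) atTop
      (𝓝 (∫ z, ‖ψ z‖ ^ 2)) := by
    apply tendsto_integral_of_dominated_convergence (fun z => (K2 + K3) ^ 2 / (1 + ‖z‖) ^ 4)
    · intro n
      have : Continuous (dzb (fun z => cau ψ z * F n z)) :=
        (dzb_smooth ((hFc n).mul_left hu).smooth).continuous
      exact (this.norm.pow 2).aestronglyMeasurable
    · exact A09_int _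
    · intro n
      refine Filter.Eventually.of_forall fun z => ?_
      rw [Real.norm_of_nonneg (by positivity)]
      exact A09_sq_le (norm_nonneg _) (hboundb n z)
    · refine Filter.Eventually.of_forall fun z => ?_
      apply tendsto_const_nhds.congr'
      filter_upwards [hev z] with n hn
      rw [hformb n z, hn.eq_of_nhds]
      have : dzb (F n) z = 0 := by
        unfold dzb
        rw [hn.fderiv_eq]
        simp
      rw [this, mul_zero, add_zero, mul_one]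
  have heq : ∫ z, ‖beu ψ z‖ ^ 2 = ∫ z, ‖ψ z‖ ^ 2 := by
    apply tendsto_nhds_unique hlim
    simp_rw [hen]
    exact hlimb
  unfold n2
  rw [Measure.restrict_univ, heq]

end

end Pool.B2F
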