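import Pool.Agent.Lib.MP_b2f128_an.Base
import Pool.Agent.Lib.MP_b2f128_an.A00
import Pool.Agent.Lib.MP_b2f128_an.A01b
import Pool.Agent.Lib.MP_b2f128_an.A02a
import Pool.Agent.Lib.MP_b2f128_an.A02b
import Pool.Agent.Lib.MP_b2f128_an.A04
import Pool.Agent.Lib.MP_b2f128_an.A07

/-!
# MP_b2f128_an, part A10 (smooth Beltrami equation and area distortion)
-/

open Complex MeasureTheory Set Filter Topology
open scoped ContDiff

namespace Pool.B2F

noncomputable section

theorem a10_half {g : ℝ → ℂ} (hg : ContDiff ℝ 1 g) (hc : HasCompactSupport g) (b : ℝ) :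
    2 * ‖g b‖ ≤ ∫ t, ‖deriv g t‖ := by
  have hI : Integrable (deriv g) := by
    apply Continuous.integrable_of_hasCompactSupport
    · exact hg.continuous_deriv le_rfl
    · exact hc.deriv
  have h1 : ‖g b‖ ≤ ∫ t in Iic b, ‖deriv g t‖ := by
    rw [← HasCompactSupport.integral_Iic_deriv_eq hg hc b]
    exact norm_integral_le_integral_norm _
  have h2 : ‖g b‖ ≤ ∫ t in Ioi b, ‖deriv g t‖ := by
    rw [← norm_neg, ← HasCompactSupport.integral_Ioi_deriv_eq hg hc b]
    exact norm_integral_le_integral_norm _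
  have h3 := intervalIntegral.integral_Iic_add_Ioi (f := fun t => ‖deriv g t‖) (b := b)
    hI.norm.integrableOn hI.norm.integrableOn
  linarith

theorem a10_slice {f : ℂ → ℂ} (hf : ContDiff ℝ ∞ f) (hc : HasCompactSupport f) (a v : ℂ)
    (hv : ‖v‖ = 1) (b : ℝ) :
    2 * ‖f (a + b * v)‖ ≤ ∫ t : ℝ, ‖fderiv ℝ f (a + t * v) v‖ := by
  have hg : ContDiff ℝ ∞ (fun t : ℝ => f (a + t * v)) := by
    apply hf.comp
    exact contDiff_const.add (Complex.ofRealCLM.contDiff.mul contDiff_const)
  have hcl : Topology.IsClosedEmbedding (fun t : ℝ => a + (t : ℂ) * v) := by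
    have : Isometry (fun t : ℝ => a + (t : ℂ) * v) := by
      apply Isometry.of_dist_eq
      intro x y
      rw [dist_eq_norm, dist_eq_norm]
      have : a + (x : ℂ) * v - (a + (y : ℂ) * v) = ((x - y : ℝ) : ℂ) * v := by push_cast; ring
      rw [this, norm_mul, hv, mul_one, Complex.norm_real]
    exact this.isClosedEmbedding
  have hgc : HasCompactSupport (fun t : ℝ => f (a + t * v)) := hc.comp_isClosedEmbedding hcl
  have hd : ∀ t : ℝ, deriv (fun t : ℝ => f (a + t * v)) t = fderiv ℝ f (a + t * v) v := by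
    intro t
    have h1 : HasFDerivAt f (fderiv ℝ f (a + t * v)) (a + t * v) :=
      (hf.differentiable (by simp)).differentiableAt.hasFDerivAt
    have h2 : HasDerivAt (fun t : ℝ => a + (t : ℂ) * v) v t := by
      have := ((Complex.ofRealCLM.hasDerivAt (x := t)).mul_const v).const_add a
      simpa using this
    exact (h1.comp_hasDerivAt t h2).deriv
  have := a10_half (hg.of_le (by exact_mod_cast le_top)) hgc b
  simpa only [hd] using this

theorem a10_four {ψ : ℂ → ℂ} (h : Cc univ ψ) (z : ℂ) :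
    4 * ‖ψ z‖ ≤ ∫ w, ‖fderiv ℝ (fun w => fderiv ℝ ψ w 1) w I‖ := by
  set P : ℂ → ℂ := fun w => fderiv ℝ ψ w 1 with hP
  have hPs : ContDiff ℝ ∞ P := by
    have : ContDiff ℝ ∞ (fderiv ℝ ψ) := h.smooth.fderiv_right (by simp)
    exact this.clm_apply contDiff_const
  have hPc : HasCompactSupport P := h.cpt.fderiv_apply ℝ 1
  set Q : ℂ → ℂ := fun w => fderiv ℝ P w I with hQ
  have hQs : ContDiff ℝ ∞ Q := by
    have : ContDiff ℝ ∞ (fderiv ℝ P) := hPs.fderiv_right (by simp)
    exact this.clm_apply contDiff_const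
  have hQc : HasCompactSupport Q := hPc.fderiv_apply ℝ I
  have hQi : Integrable (fun w => ‖Q w‖) :=
    (hQs.continuous.integrable_of_hasCompactSupport hQc).norm
  have hPi : Continuous P := hPs.continuous
  -- Fubini
  have e1 : ∫ w, ‖Q w‖ = ∫ p : ℝ × ℝ, ‖Q (p.1 + p.2 * I)‖ := by
    have := (Complex.volume_preserving_equiv_real_prod.symm).integral_comp'
      (g := fun w => ‖Q w‖)
    rw [← this]
    congr 1
    ext p
    congr 2
    rw [Complex.measurableEquivRealProd_symm_apply]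
    apply Complex.ext <;> simp
  have hi2 : Integrable (fun p : ℝ × ℝ => ‖Q (p.1 + p.2 * I)‖) (volume.prod volume) := by
    have := (Complex.volume_preserving_equiv_real_prod.symm).integrable_comp_of_integrable hQi
    refine this.congr (ae_of_all _ ?_)
    intro p
    simp only [Function.comp]
    congr 2
    rw [Complex.measurableEquivRealProd_symm_apply]
    apply Complex.ext <;> simp
  have e2 : ∫ p : ℝ × ℝ, ‖Q (p.1 + p.2 * I)‖ = ∫ s : ℝ, ∫ t : ℝ, ‖Q (s + t * I)‖ :=
    MeasureTheory.integral_prod _ hi2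
  rw [e1, e2]
  -- inner
  have hin : ∀ s : ℝ, 2 * ‖P (s + z.im * I)‖ ≤ ∫ t : ℝ, ‖Q (s + t * I)‖ := by
    intro s
    exact a10_slice hPs hPc s I (by simp) z.im
  have hout : 2 * ‖ψ z‖ ≤ ∫ s : ℝ, ‖P (s + z.im * I)‖ := by
    have := a10_slice h.smooth h.cpt (z.im * I) 1 (by simp) z.re
    have e : (z.im : ℂ) * I + z.re * 1 = z := by apply Complex.ext <;> simp
    rw [e] at this
    refine this.trans (le_of_eq ?_)
    congr 1
    ext s
    rw [mul_one, add_comm]
  have hPint : Integrable (fun s : ℝ => 2 * ‖P (s + z.im * I)‖) := by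
    apply Integrable.const_mul
    apply Integrable.norm
    apply Continuous.integrable_of_hasCompactSupport
    · fun_prop
    · have hcl : Topology.IsClosedEmbedding (fun t : ℝ => (t : ℂ) + z.im * I) := by
        have : Isometry (fun t : ℝ => (t : ℂ) + z.im * I) := by
          apply Isometry.of_dist_eq
          intro x y
          rw [dist_eq_norm, dist_eq_norm]
          have : (x : ℂ) + z.im * I - ((y : ℂ) + z.im * I) = ((x - y : ℝ) : ℂ) := by
            push_cast; ring
          rw [this, Complex.norm_real]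
        exact this.isClosedEmbedding
      exact hPc.comp_isClosedEmbedding hcl
  have hmono : ∫ s : ℝ, 2 * ‖P (s + z.im * I)‖ ≤ ∫ s : ℝ, ∫ t : ℝ, ‖Q (s + t * I)‖ :=
    integral_mono hPint hi2.integral_prod_left hin
  rw [integral_const_mul] at hmono
  linarith

/-- PROOF. With `k ζ = conj ζ ^ 2 / (|ζ|² + e²)` (smooth, bounded by 1) two integrations by parts as in `cau_dzb`: `ψ z = (1/π) ∫ (dzb (dzb ψ))(z - ζ) conj ζ / ζ` up to sign, so `|ψ z| ≤ (1/π) ∫ |dzb dzb ψ|`, and Cauchy-Schwarz on the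
disc of area `π`. (Or: `|ψ| ≤ ∫ |∂x ∂y ψ|` and `energy_Cc`.) -/
theorem sup_le_n2 {ψ : ℂ → ℂ} (h : Cc (Metric.ball 0 1) ψ) (z : ℂ) :
    ‖ψ z‖ ≤ n2 univ (dzb (dzb ψ)) := by
  have hu : Cc univ ψ := h.mono (subset_univ _)
  have h4 := a10_four hu z
  set Q : ℂ → ℂ := fun w => fderiv ℝ (fun w => fderiv ℝ ψ w 1) w I with hQ
  -- `Q = I * (dz dz ψ - dzb dzb ψ)`
  have hx : ∀ (f : ℂ → ℂ) (w : ℂ), fderiv ℝ f w 1 = dz f w + dzb f w := by
    intro f w
    simp only [dz, dzb]
    ring
  have hy : ∀ (f : ℂ → ℂ) (w : ℂ), fderiv ℝ f w I = I * (dz f w - dzb f w) := by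
    intro f w
    simp only [dz, dzb]
    have : I * ((fderiv ℝ f w 1 - I * fderiv ℝ f w I) / 2 -
        (fderiv ℝ f w 1 + I * fderiv ℝ f w I) / 2) = -(I * I) * fderiv ℝ f w I := by ring
    rw [this, I_mul_I]
    ring
  have hdz := h.dz
  have hdzb := h.dzb
  have hQe : ∀ w, Q w = I * dz (dz ψ) w + (-I) * dzb (dzb ψ) w := by
    intro w
    have e1 : (fun w => fderiv ℝ ψ w 1) = fun w => dz ψ w + dzb ψ w := by
      ext w; exact hx ψ w
    have d1 : DifferentiableAt ℝ (dz ψ) w := (hdz.smooth.differentiable (by simp)) w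
    have d2 : DifferentiableAt ℝ (dzb ψ) w := (hdzb.smooth.differentiable (by simp)) w
    simp only [hQ]
    rw [e1, hy, dz_add d1 d2, dzb_add d1 d2, dz_dzb_comm h.smooth]
    ring
  have hzz : Cc (Metric.ball 0 1) (dz (dz ψ)) := hdz.dz
  have hbb : Cc (Metric.ball 0 1) (dzb (dzb ψ)) := hdzb.dzb
  have hQcc : Cc (Metric.ball 0 1) Q := by
    have h1 : Cc (Metric.ball 0 1) (fun w => I * dz (dz ψ) w) :=
      hzz.mul_left (g := fun _ => I) contDiff_const
    have h2 : Cc (Metric.ball 0 1) (fun w => -I * dzb (dzb ψ) w) :=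
      hbb.mul_left (g := fun _ => -I) contDiff_const
    have h3 := h1.add h2
    have e : Q = fun w => I * dz (dz ψ) w + -I * dzb (dzb ψ) w := by
      ext w; exact hQe w
    rw [e]; exact h3
  -- restrict to the ball
  have hball : ∫ w, ‖Q w‖ = ∫ w in Metric.ball (0 : ℂ) 1, ‖Q w‖ := by
    symm
    apply setIntegral_eq_integral_of_forall_compl_eq_zero
    intro w hw
    have : w ∉ tsupport Q := fun h' => hw (hQcc.sub h')
    rw [image_eq_zero_of_notMem_tsupport this, norm_zero]
  have hfin : volume (Metric.ball (0 : ℂ) 1) ≠ ⊤ := measure_ball_lt_top.ne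
  have hCS := integral_norm_le_n2 (f := Q) measurableSet_ball hfin (hQcc.memLp _)
  have hvol : (volume (Metric.ball (0 : ℂ) 1)).toReal = Real.pi := by
    rw [Complex.volume_ball]
    simp
  rw [hvol] at hCS
  have hsq : Real.sqrt Real.pi ≤ 2 := by
    rw [Real.sqrt_le_left (by norm_num)]
    have := Real.pi_le_four
    linarith
  have hn : n2 (Metric.ball 0 1) Q ≤ 2 * n2 univ (dzb (dzb ψ)) := by
    calc n2 (Metric.ball 0 1) Q ≤ n2 univ Q := n2_mono (subset_univ _) (hQcc.memLp _)
      _ = n2 univ (fun w => I * dz (dz ψ) w + (-I) * dzb (dzb ψ) w) := by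
          congr 1; ext w; exact hQe w
      _ ≤ n2 univ (fun w => I * dz (dz ψ) w) + n2 univ (fun w => (-I) * dzb (dzb ψ) w) := by
          apply n2_add_le
          · exact (hzz.memLp univ).const_mul I
          · exact (hbb.memLp univ).const_mul (-I)
      _ = n2 univ (dz (dz ψ)) + n2 univ (dzb (dzb ψ)) := by
          rw [n2_const_mul, n2_const_mul]
          simp
      _ = 2 * n2 univ (dzb (dzb ψ)) := by
          have e1 : n2 univ (dz (dz ψ)) = n2 univ (dzb (dz ψ)) := by
            unfold n2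
            rw [setIntegral_univ, setIntegral_univ, energy_Cc (hdz.mono (subset_univ _))]
          have e2 : n2 univ (dz (dzb ψ)) = n2 univ (dzb (dzb ψ)) := by
            unfold n2
            rw [setIntegral_univ, setIntegral_univ, energy_Cc (hdzb.mono (subset_univ _))]
          rw [e1, ← dz_dzb_comm h.smooth, e2]
          ring
  have hnn : 0 ≤ n2 (Metric.ball 0 1) Q := n2_nonneg _ _
  have : 4 * ‖ψ z‖ ≤ 4 * n2 univ (dzb (dzb ψ)) := by
    calc 4 * ‖ψ z‖ ≤ ∫ w, ‖Q w‖ := h4
      _ ≤ Real.sqrt Real.pi * n2 (Metric.ball 0 1) Q := by rw [hball]; exact hCS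
      _ ≤ 2 * n2 (Metric.ball 0 1) Q := by gcongr
      _ ≤ 2 * (2 * n2 univ (dzb (dzb ψ))) := by gcongr
      _ = 4 * n2 univ (dzb (dzb ψ)) := by ring
  linarith

end

end Pool.B2F
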