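import Pool.Agent.Lib.MP_b2f128_an.Base

/-!
# MP_b2f128_an, part A11 (smooth Beltrami equation and area distortion)
-/

open Complex MeasureTheory Set Filter Topology
open scoped ContDiff

namespace Pool.B2F

noncomputable section

/-- PROOF: `u` is complex differentiable (its real derivative is complex linear), bounded, Liouville. -/
theorem entire_zero {u : ℂ → ℂ} (hu : ContDiff ℝ ∞ u) (h0 : ∀ z, dzb u z = 0)
    (hlim : Tendsto u (cocompact ℂ) (𝓝 0)) (z : ℂ) : u z = 0 := by
  have hd : Differentiable ℂ u := by
    intro w
    rw [differentiableAt_complex_iff_differentiableAt_real]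
    refine ⟨(hu.differentiable (by simp)) w, ?_⟩
    have h := h0 w
    unfold dzb at h
    have h1 : fderiv ℝ u w 1 + I * fderiv ℝ u w I = 0 := by
      rcases div_eq_zero_iff.mp h with h | h
      · exact h
      · norm_num at h
    have h2 : I * (fderiv ℝ u w 1 + I * fderiv ℝ u w I) = 0 := by rw [h1, mul_zero]
    rw [mul_add, ← mul_assoc, I_mul_I] at h2
    rw [smul_eq_mul]
    linear_combination -h2
  exact hd.apply_eq_of_tendsto_cocompact z hlim

end

end Pool.B2F
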