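import Pool.Agent.Lib.MP_b2f128_an.Base
import Pool.Agent.Lib.MP_b2f128_an.A00
import Pool.Agent.Lib.MP_b2f128_an.A02b
import Pool.Agent.Lib.MP_b2f128_an.A06
import Pool.Agent.Lib.MP_b2f128_an.A09

/-!
# MP_b2f128_an, part A12 (smooth Beltrami equation and area distortion)
-/

open Complex MeasureTheory Set Filter Topology
open scoped ContDiff

namespace Pool.B2F

noncomputable section

theorem exists_k {μ : ℂ → ℂ} (hμ : Cc (Metric.ball 0 1) μ) (h1 : ∀ z, ‖μ z‖ < 1) :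
    ∃ k : ℝ, 0 ≤ k ∧ k < 1 ∧ ∀ z, ‖μ z‖ ≤ k := by
  have hc : IsCompact (Metric.closedBall (0 : ℂ) 1) := isCompact_closedBall _ _
  obtain ⟨z0, -, hz0⟩ := hc.exists_isMaxOn ⟨0, by simp⟩ (hμ.smooth.continuous.norm.continuousOn)
  refine ⟨‖μ z0‖, norm_nonneg _, h1 z0, fun z => ?_⟩
  by_cases hz : z ∈ Metric.closedBall (0 : ℂ) 1
  · exact hz0 hz
  · have h2 : z ∉ tsupport μ := fun h => hz (Metric.ball_subset_closedBall (hμ.sub h))
    rw [image_eq_zero_of_notMem_tsupport h2, norm_zero]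
    exact norm_nonneg _

theorem A12_beu_smooth {ψ : ℂ → ℂ} (h : Cc (Metric.ball 0 1) ψ) : ContDiff ℝ ∞ (beu ψ) :=
  cau_smooth (h.dz.mono (subset_univ _))

theorem itr_cc {μ b : ℂ → ℂ} (hμ : Cc (Metric.ball 0 1) μ) (hb : Cc (Metric.ball 0 1) b)
    (n : ℕ) : Cc (Metric.ball 0 1) (itr μ b n) := by
  induction n with
  | zero => exact hb
  | succ n ih => exact hμ.mul_right (A12_beu_smooth ih)

theorem itr_supp {μ b : ℂ → ℂ} (hb : tsupport b ⊆ tsupport μ) (n : ℕ) :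
    tsupport (itr μ b n) ⊆ tsupport μ := by
  cases n with
  | zero => exact hb
  | succ n =>
    apply closure_mono
    intro z hz h0
    apply hz
    change μ z * beu (itr μ b n) z = 0
    rw [h0, zero_mul]

theorem itr_n2 {μ b : ℂ → ℂ} (hμ : Cc (Metric.ball 0 1) μ) (hb : Cc (Metric.ball 0 1) b) {k : ℝ}
    (hk : ∀ z, ‖μ z‖ ≤ k) (n : ℕ) : n2 univ (itr μ b n) ≤ k ^ n * n2 univ b := by
  have hk0 : 0 ≤ k := (norm_nonneg _).trans (hk 0)
  induction n with
  | zero => simp [itr]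
  | succ n ih =>
    have h1 := itr_cc hμ hb n
    have h2 : n2 univ (itr μ b (n + 1)) ≤ k * n2 univ (beu (itr μ b n)) := by
      apply n2_le_of_norm_le hk0 MeasurableSet.univ (beu_memLp h1 univ)
      intro z _
      change ‖μ z * beu (itr μ b n) z‖ ≤ _
      rw [norm_mul]
      exact mul_le_mul_of_nonneg_right (hk z) (norm_nonneg _)
    rw [n2_beu h1] at h2
    calc n2 univ (itr μ b (n + 1)) ≤ k * n2 univ (itr μ b n) := h2
      _ ≤ k * (k ^ n * n2 univ b) := mul_le_mul_of_nonneg_left ih hk0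
      _ = k ^ (n + 1) * n2 univ b := by ring

end

end Pool.B2F
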