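import Pool.Agent.Lib.MP_b2f128_an.Base
import Pool.Agent.Lib.MP_b2f128_an.A00
import Pool.Agent.Lib.MP_b2f128_an.A01a
import Pool.Agent.Lib.MP_b2f128_an.A01b
import Pool.Agent.Lib.MP_b2f128_an.A02a
import Pool.Agent.Lib.MP_b2f128_an.A02b
import Pool.Agent.Lib.MP_b2f128_an.A06
import Pool.Agent.Lib.MP_b2f128_an.A09
import Pool.Agent.Lib.MP_b2f128_an.A12

/-!
# MP_b2f128_an, part A13 (smooth Beltrami equation and area distortion)
-/

open Complex MeasureTheory Set Filter Topology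
open scoped ContDiff

namespace Pool.B2F

noncomputable section

theorem A13_sum (s : Finset ℕ) (f : ℕ → ℂ → ℂ) (z : ℂ) (hf : ∀ i ∈ s, DifferentiableAt ℝ (f i) z) :
    dzb (fun z => ∑ i ∈ s, f i z) z = ∑ i ∈ s, dzb (f i) z := by
  classical
  induction s using Finset.induction_on with
  | empty => simp only [Finset.sum_empty]; exact dzb_const 0 z
  | insert a s ha ih =>
    have h1 : DifferentiableAt ℝ (f a) z := hf a (Finset.mem_insert_self _ _)
    have h2 : ∀ i ∈ s, DifferentiableAt ℝ (f i) z := fun i hi => hf i (Finset.mem_insert_of_mem hi)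
    have h3 : DifferentiableAt ℝ (fun z => ∑ i ∈ s, f i z) z := by
      exact DifferentiableAt.fun_sum h2
    have h4 : (fun z => ∑ i ∈ insert a s, f i z) = fun z => f a z + ∑ i ∈ s, f i z := by
      funext z
      rw [Finset.sum_insert ha]
    rw [h4, dzb_add h1 h3, ih h2, Finset.sum_insert ha]

theorem A13_diff {f : ℂ → ℂ} (hf : ContDiff ℝ ∞ f) (z : ℂ) : DifferentiableAt ℝ f z :=
  (hf.differentiable (by norm_num)) z

theorem A13_cc {U : Set ℂ} {f : ℂ → ℂ} (hf : Cc U f) (i : ℕ) : Cc U (dzb^[i] f) := by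
  induction i with
  | zero => exact hf
  | succ i ih =>
    rw [Function.iterate_succ_apply']
    exact ih.dzb

theorem A13_beu_smooth {ψ : ℂ → ℂ} (h : Cc univ ψ) : ContDiff ℝ ∞ (beu ψ) := cau_smooth h.dz

theorem A13_comm {ψ : ℂ → ℂ} (h : Cc univ ψ) : dzb (beu ψ) = beu (dzb ψ) := by
  unfold beu
  rw [dzb_cau' h.dz, dz_dzb_comm h.smooth]

/-- the Leibniz rule, without the exact coefficients -/
theorem A13_leib {μ : ℂ → ℂ} (hμ : Cc (Metric.ball 0 1) μ) (j : ℕ) :
    ∃ a : ℕ → ℂ → ℂ, (∀ i, Cc (Metric.ball 0 1) (a i)) ∧ a j = μ ∧ (∀ i, j < i → a i = fun _ => 0) ∧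
      ∀ g, Cc (Metric.ball 0 1) g → ∀ z, (dzb^[j] (fun z => μ z * beu g z)) z =
        ∑ i ∈ Finset.range (j + 1), a i z * beu (dzb^[i] g) z := by
  induction j with
  | zero =>
    refine ⟨fun i => if i = 0 then μ else fun _ => 0, ?_, by simp, ?_, ?_⟩
    · intro i
      by_cases hi : i = 0
      · simp only [hi, if_true]; exact hμ
      · simp only [hi, if_false]
        refine ⟨contDiff_const, HasCompactSupport.zero, ?_⟩
        have : tsupport (fun _ : ℂ => (0 : ℂ)) = ∅ := by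
          simp [tsupport, Function.support]
        rw [this]
        exact empty_subset _
    · intro i hi
      simp [Nat.pos_iff_ne_zero.mp hi]
    · intro g hg z
      simp
  | succ j ih =>
    obtain ⟨a, ha, haj, ha0, hag⟩ := ih
    refine ⟨fun i => Nat.casesOn i (dzb (a 0)) (fun i => fun z => dzb (a (i + 1)) z + a i z), ?_, ?_, ?_, ?_⟩
    · intro i
      cases i with
      | zero => exact (ha 0).dzb
      | succ i => exact (ha (i + 1)).dzb.add (ha i)
    · funext z
      have h1 := ha0 (j + 1) (Nat.lt_succ_self j)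
      have h2 : dzb (a (j + 1)) z = 0 := by
        rw [h1]; exact dzb_const 0 z
      simp only [h2, haj, zero_add]
    · intro i hi
      cases i with
      | zero => omega
      | succ i =>
        funext z
        have h1 := ha0 (i + 1) (by omega)
        have h2 : dzb (a (i + 1)) z = 0 := by
          rw [h1]; exact dzb_const 0 z
        have h3 := ha0 i (by omega)
        simp only [h2, h3, zero_add]
    · intro g hg z
      have hfun : (dzb^[j] (fun z => μ z * beu g z)) = fun z => ∑ i ∈ Finset.range (j + 1), a i z * beu (dzb^[i] g) z :=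
        funext (hag g hg)
      have hgi : ∀ i, Cc univ (dzb^[i] g) := fun i => (A13_cc hg i).mono (subset_univ _)
      have hbd : ∀ i, DifferentiableAt ℝ (beu (dzb^[i] g)) z := fun i => A13_diff (A13_beu_smooth (hgi i)) z
      have had : ∀ i, DifferentiableAt ℝ (a i) z := fun i => A13_diff (ha i).smooth z
      rw [Function.iterate_succ_apply', hfun, A13_sum (Finset.range (j + 1)) (fun i z => a i z * beu (dzb^[i] g) z) z
        (fun i _ => (had i).mul (hbd i))]
      have hterm : ∀ i, dzb (fun z => a i z * beu (dzb^[i] g) z) z =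
          dzb (a i) z * beu (dzb^[i] g) z + a i z * beu (dzb^[i + 1] g) z := by
        intro i
        rw [dzb_mul (had i) (hbd i), A13_comm (hgi i), ← Function.iterate_succ_apply' dzb i g]
      rw [Finset.sum_congr rfl (fun i _ => hterm i), Finset.sum_add_distrib]
      rw [Finset.sum_range_succ' _ (j + 1)]
      simp only [add_mul]
      rw [Finset.sum_add_distrib]
      have h1 : ∑ i ∈ Finset.range (j + 1), dzb (a (i + 1)) z * beu (dzb^[i + 1] g) z +
          dzb (a 0) z * beu (dzb^[0] g) z = ∑ i ∈ Finset.range (j + 2), dzb (a i) z * beu (dzb^[i] g) z := by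
        rw [← Finset.sum_range_succ' (fun i => dzb (a i) z * beu (dzb^[i] g) z) (j + 1)]
      have h2 : ∑ i ∈ Finset.range (j + 2), dzb (a i) z * beu (dzb^[i] g) z =
          ∑ i ∈ Finset.range (j + 1), dzb (a i) z * beu (dzb^[i] g) z := by
        rw [Finset.sum_range_succ _ (j + 1)]
        have h3 := ha0 (j + 1) (Nat.lt_succ_self j)
        have h4 : dzb (a (j + 1)) z = 0 := by
          rw [h3]; exact dzb_const 0 z
        rw [h4, zero_mul, add_zero]
      rw [← h2, ← h1, add_right_comm]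
      rfl

theorem A13_bdd {U : Set ℂ} {f : ℂ → ℂ} (hf : Cc U f) : ∃ D : ℝ, 0 ≤ D ∧ ∀ z, ‖f z‖ ≤ D := by
  obtain ⟨D, hD⟩ := hf.cpt.exists_bound_of_continuous hf.smooth.continuous
  exact ⟨max D 0, le_max_right _ _, fun z => (hD z).trans (le_max_left _ _)⟩

theorem A13_term {f g : ℂ → ℂ} {D : ℝ} (hD : 0 ≤ D) (hf : ∀ z, ‖f z‖ ≤ D) (hg : Cc (Metric.ball 0 1) g) :
    n2 univ (fun z => f z * beu g z) ≤ D * n2 univ g := by
  rw [← n2_beu hg]
  refine n2_le_of_norm_le hD MeasurableSet.univ (beu_memLp hg univ) ?_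
  intro z _
  rw [norm_mul]
  exact mul_le_mul_of_nonneg_right (hf z) (norm_nonneg _)

theorem A13_sum_le (s : Finset ℕ) (f : ℕ → ℂ → ℂ) (B : ℕ → ℝ) (hf : ∀ i ∈ s, MemLp (f i) 2 (volume.restrict univ))
    (hB : ∀ i ∈ s, n2 univ (f i) ≤ B i) : n2 univ (fun z => ∑ i ∈ s, f i z) ≤ ∑ i ∈ s, B i := by
  classical
  induction s using Finset.induction_on with
  | empty =>
    simp [n2]
  | insert a s ha ih =>
    have h1 : (fun z => ∑ i ∈ insert a s, f i z) = fun z => f a z + ∑ i ∈ s, f i z := by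
      funext z
      rw [Finset.sum_insert ha]
    rw [h1, Finset.sum_insert ha]
    have h2 : MemLp (fun z => ∑ i ∈ s, f i z) 2 (volume.restrict univ) :=
      memLp_finsetSum s (fun i hi => hf i (Finset.mem_insert_of_mem hi))
    refine (n2_add_le (hf a (Finset.mem_insert_self _ _)) h2).trans ?_
    exact add_le_add (hB a (Finset.mem_insert_self _ _)) (ih (fun i hi => hf i (Finset.mem_insert_of_mem hi))
      (fun i hi => hB i (Finset.mem_insert_of_mem hi)))

/-- the recursive estimate -/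
theorem A13_rec {μ b : ℂ → ℂ} (hμ : Cc (Metric.ball 0 1) μ) (hb : Cc (Metric.ball 0 1) b) {k : ℝ} (hk0 : 0 ≤ k)
    (hk : ∀ z, ‖μ z‖ ≤ k) (j : ℕ) : ∃ D : ℝ, 0 ≤ D ∧ ∀ n, n2 univ (dzb^[j] (itr μ b (n + 1))) ≤
      k * n2 univ (dzb^[j] (itr μ b n)) + D * ∑ i ∈ Finset.range j, n2 univ (dzb^[i] (itr μ b n)) := by
  obtain ⟨a, ha, haj, ha0, hag⟩ := A13_leib hμ j
  choose D hD0 hD using fun i => A13_bdd (ha i)
  refine ⟨∑ i ∈ Finset.range j, D i, Finset.sum_nonneg (fun i _ => hD0 i), fun n => ?_⟩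
  have hg : Cc (Metric.ball 0 1) (itr μ b n) := itr_cc hμ hb n
  have hfun : dzb^[j] (itr μ b (n + 1)) = fun z => ∑ i ∈ Finset.range (j + 1), a i z * beu (dzb^[i] (itr μ b n)) z := by
    funext z
    exact hag _ hg z
  rw [hfun]
  have h1 := A13_sum_le (Finset.range (j + 1)) (fun i z => a i z * beu (dzb^[i] (itr μ b n)) z)
    (fun i => (if i = j then k else D i) * n2 univ (dzb^[i] (itr μ b n)))
    (by
      intro i _
      exact ((ha i).mul_right (A13_beu_smooth ((A13_cc hg i).mono (subset_univ _)))).memLp univ)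
    (by
      intro i _
      by_cases hi : i = j
      · simp only [hi, if_true]
        rw [haj]
        exact A13_term hk0 hk (A13_cc hg j)
      · simp only [hi, if_false]
        exact A13_term (hD0 i) (hD i) (A13_cc hg i))
  refine h1.trans ?_
  rw [Finset.sum_range_succ]
  simp only [if_true]
  rw [add_comm]
  refine add_le_add le_rfl ?_
  rw [Finset.mul_sum]
  refine Finset.sum_le_sum (fun i hi => ?_)
  have hij : i ≠ j := by
    have := Finset.mem_range.mp hi
    omega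
  simp only [hij, if_false]
  refine mul_le_mul_of_nonneg_right ?_ (n2_nonneg _ _)
  exact Finset.single_le_sum (f := D) (fun i _ => hD0 i) hi

theorem A13_geom (w : ℕ → ℝ) (k D Q : ℝ) (hk0 : 0 ≤ k) (hk : k < 1) (hD : 0 ≤ D) (hQ0 : 0 < Q) (hQ : Q < 1)
    (hw0 : 0 ≤ w 0) (hw : ∀ n, w (n + 1) ≤ k * w n + D * Q ^ n) :
    ∃ C q : ℝ, 0 ≤ C ∧ 0 < q ∧ q < 1 ∧ Q ≤ q ∧ ∀ n, w n ≤ C * q ^ n := by
  obtain ⟨q, hq⟩ : ∃ q : ℝ, q = (1 + max k Q) / 2 := ⟨_, rfl⟩
  have hm1 : max k Q < 1 := max_lt hk hQ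
  have hkm : k ≤ max k Q := le_max_left _ _
  have hQm : Q ≤ max k Q := le_max_right _ _
  have hkq : k < q := by rw [hq]; linarith
  have hQq : Q ≤ q := by rw [hq]; linarith
  have hq1 : q < 1 := by rw [hq]; linarith
  have hq0 : 0 < q := by linarith
  have hqk : 0 < q - k := by linarith
  refine ⟨w 0 + D / (q - k), q, by positivity, hq0, hq1, hQq, ?_⟩
  intro n
  induction n with
  | zero =>
    have : 0 ≤ D / (q - k) := by positivity
    simp only [pow_zero, mul_one]
    linarith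
  | succ n ih =>
    have h1 : Q ^ n ≤ q ^ n := pow_le_pow_left₀ hQ0.le hQq n
    have h2 : D ≤ (q - k) * (w 0 + D / (q - k)) := by
      rw [mul_add, mul_div_cancel₀ _ hqk.ne']
      have : 0 ≤ (q - k) * w 0 := mul_nonneg hqk.le hw0
      linarith
    have hqn : 0 ≤ q ^ n := pow_nonneg hq0.le n
    calc w (n + 1) ≤ k * w n + D * Q ^ n := hw n
      _ ≤ k * ((w 0 + D / (q - k)) * q ^ n) + D * q ^ n :=
          add_le_add (mul_le_mul_of_nonneg_left ih hk0) (mul_le_mul_of_nonneg_left h1 hD)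
      _ ≤ k * ((w 0 + D / (q - k)) * q ^ n) + ((q - k) * (w 0 + D / (q - k))) * q ^ n :=
          add_le_add le_rfl (mul_le_mul_of_nonneg_right h2 hqn)
      _ = (w 0 + D / (q - k)) * q ^ (n + 1) := by ring

theorem A13_all {μ b : ℂ → ℂ} (hμ : Cc (Metric.ball 0 1) μ) (h1 : ∀ z, ‖μ z‖ < 1)
    (hb : Cc (Metric.ball 0 1) b) (j : ℕ) : ∃ C q : ℝ, 0 ≤ C ∧ 0 < q ∧ q < 1 ∧
      ∀ i < j, ∀ n, n2 univ (dzb^[i] (itr μ b n)) ≤ C * q ^ n := by
  obtain ⟨k, hk0, hk1, hk⟩ := exists_k hμ h1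
  induction j with
  | zero => exact ⟨0, 1 / 2, le_rfl, by norm_num, by norm_num, fun i hi => absurd hi (Nat.not_lt_zero i)⟩
  | succ j ih =>
    obtain ⟨C, Q, hC, hQ0, hQ1, hih⟩ := ih
    obtain ⟨D, hD, hrec⟩ := A13_rec hμ hb hk0 hk j
    obtain ⟨C', q, hC', hq0, hq1, hQq, hw⟩ := A13_geom (fun n => n2 univ (dzb^[j] (itr μ b n))) k (D * (j * C)) Q hk0 hk1
      (by positivity) hQ0 hQ1 (n2_nonneg _ _) (by
        intro n
        refine (hrec n).trans (add_le_add le_rfl ?_)
        have h2 : ∑ i ∈ Finset.range j, n2 univ (dzb^[i] (itr μ b n)) ≤ ∑ i ∈ Finset.range j, C * Q ^ n :=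
          Finset.sum_le_sum (fun i hi => hih i (Finset.mem_range.mp hi) n)
        rw [Finset.sum_const, Finset.card_range, nsmul_eq_mul] at h2
        calc D * ∑ i ∈ Finset.range j, n2 univ (dzb^[i] (itr μ b n)) ≤ D * (j * (C * Q ^ n)) :=
              mul_le_mul_of_nonneg_left h2 hD
          _ = D * (j * C) * Q ^ n := by ring)
    refine ⟨max C C', q, le_max_of_le_left hC, hq0, hq1, ?_⟩
    intro i hi n
    have hqn : 0 ≤ q ^ n := pow_nonneg hq0.le n
    rcases Nat.lt_succ_iff_lt_or_eq.mp hi with h | h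
    · calc n2 univ (dzb^[i] (itr μ b n)) ≤ C * Q ^ n := hih i h n
        _ ≤ C * q ^ n := mul_le_mul_of_nonneg_left (pow_le_pow_left₀ hQ0.le hQq n) hC
        _ ≤ max C C' * q ^ n := mul_le_mul_of_nonneg_right (le_max_left _ _) hqn
    · rw [h]
      exact (hw n).trans (mul_le_mul_of_nonneg_right (le_max_right _ _) hqn)

/-- PROOF. Induction on `j`. `dzb^[j] (μ S g) = ∑ i ≤ j, C(j,i) dzb^[j-i] μ * S (dzb^[i] g)` (`S = beu` commutes with `dzb`), so with `w j n = n2 univ (dzb^[j] (itr μ b n))`: `w j (n+1) ≤ k w j n + D ∑_{i<j} w i n`, `k < 1`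
(isometry `n2_beu`). If `w i n ≤ C q^n` for `i < j` and `max k q < q' < 1`, then `w j n ≤ C' q'^n`. -/
theorem itr_dzb {μ b : ℂ → ℂ} (hμ : Cc (Metric.ball 0 1) μ) (h1 : ∀ z, ‖μ z‖ < 1)
    (hb : Cc (Metric.ball 0 1) b) (j : ℕ) : ∃ C q : ℝ, 0 ≤ C ∧ 0 < q ∧ q < 1 ∧
      ∀ n, n2 univ (dzb^[j] (itr μ b n)) ≤ C * q ^ n := by
  obtain ⟨C, q, hC, hq0, hq1, h⟩ := A13_all hμ h1 hb (j + 1)
  exact ⟨C, q, hC, hq0, hq1, h j (Nat.lt_succ_self j)⟩

end

end Pool.B2F
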