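import Pool.Agent.Lib.MP_b2f128_an.Base
import Pool.Agent.Lib.MP_b2f128_an.A02a
import Pool.Agent.Lib.MP_b2f128_an.A02b
import Pool.Agent.Lib.MP_b2f128_an.A03
import Pool.Agent.Lib.MP_b2f128_an.A04
import Pool.Agent.Lib.MP_b2f128_an.A10
import Pool.Agent.Lib.MP_b2f128_an.A12
import Pool.Agent.Lib.MP_b2f128_an.A13

/-!
# MP_b2f128_an, part A14 (smooth Beltrami equation and area distortion)
-/

open Complex MeasureTheory Set Filter Topology
open scoped ContDiff

namespace Pool.B2F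

noncomputable section

theorem A14_Cc {U : Set ℂ} {g : ℂ → ℂ} (hg : Cc U g) (k : ℕ) : Cc U (dzb^[k] g) := by
  induction k with
  | zero => exact hg
  | succ k ih => rw [Function.iterate_succ_apply']; exact Cc.dzb ih

theorem A14_Cc' {U : Set ℂ} {g : ℂ → ℂ} (hg : Cc U g) (k : ℕ) : Cc U (dz^[k] g) := by
  induction k with
  | zero => exact hg
  | succ k ih => rw [Function.iterate_succ_apply']; exact Cc.dz ih

theorem A14_comm1 {U : Set ℂ} {g : ℂ → ℂ} (hg : Cc U g) (k : ℕ) :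
    dzb^[k] (dz g) = dz (dzb^[k] g) := by
  induction k with
  | zero => rfl
  | succ k ih =>
    rw [Function.iterate_succ_apply', Function.iterate_succ_apply', ih,
      dz_dzb_comm (A14_Cc hg k).smooth]

theorem A14_comm {U : Set ℂ} {g : ℂ → ℂ} (hg : Cc U g) (k i : ℕ) :
    dzb^[k] (dz^[i] g) = dz^[i] (dzb^[k] g) := by
  induction i with
  | zero => rfl
  | succ i ih =>
    rw [Function.iterate_succ_apply', Function.iterate_succ_apply', ← ih, A14_comm1 (A14_Cc' hg i)]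

theorem A14_energy {g : ℂ → ℂ} (hg : Cc univ g) : n2 univ (dz g) = n2 univ (dzb g) := by
  simp only [n2, setIntegral_univ]
  rw [energy_Cc hg]

theorem A14_energy_iter {g : ℂ → ℂ} (hg : Cc univ g) (i : ℕ) :
    n2 univ (dz^[i] g) = n2 univ (dzb^[i] g) := by
  induction i generalizing g with
  | zero => rfl
  | succ i ih =>
    rw [Function.iterate_succ_apply, ih (Cc.dz hg), A14_comm1 hg, A14_energy (A14_Cc hg i),
      Function.iterate_succ_apply']

/-- PROOF. For `f = itr μ b n`: `n2 univ (dz g) = n2 univ (dzb g)` for `g ∈ Cc` (`energy_Cc`), so `n2 univ (dzb dzb dz^[i] dzb^[l] f) = n2 univ (dzb^[i + l + 2] f)` (commute), `sup_le_n2`, `itr_dzb`, `iteratedFDeriv_le`. -/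
theorem itr_sup {μ b : ℂ → ℂ} (hμ : Cc (Metric.ball 0 1) μ) (h1 : ∀ z, ‖μ z‖ < 1)
    (hb : Cc (Metric.ball 0 1) b) (j : ℕ) : ∃ C q : ℝ, 0 ≤ C ∧ 0 < q ∧ q < 1 ∧
      ∀ n z, ‖iteratedFDeriv ℝ j (itr μ b n) z‖ ≤ C * q ^ n := by
  obtain ⟨C, q, hC, hq0, hq1, hle⟩ := itr_dzb hμ h1 hb (j + 2)
  refine ⟨2 ^ j * C, q, by positivity, hq0, hq1, fun n z => ?_⟩
  have hf : Cc (Metric.ball 0 1) (itr μ b n) := itr_cc hμ hb n
  have h2 := iteratedFDeriv_le hf.smooth j (B := C * q ^ n) (fun i hi w => ?_) z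
  · rw [mul_assoc]; exact h2
  · have h3 : Cc (Metric.ball 0 1) (dz^[i] (dzb^[j - i] (itr μ b n))) := A14_Cc' (A14_Cc hf _) _
    refine (sup_le_n2 h3 w).trans ?_
    have e1 : dzb (dzb (dz^[i] (dzb^[j - i] (itr μ b n)))) =
        dz^[i] (dzb^[j - i + 2] (itr μ b n)) := by
      have := A14_comm (A14_Cc hf (j - i)) 2 i
      rw [← Function.iterate_add_apply, add_comm 2 (j - i)] at this
      exact this
    rw [e1, A14_energy_iter ((A14_Cc hf _).mono (subset_univ _)), ← Function.iterate_add_apply,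
      show i + (j - i + 2) = j + 2 by omega]
    exact hle n

end

end Pool.B2F
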