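import Pool.Agent.Lib.MP_b2f128_an.Base
import Pool.Agent.Lib.MP_b2f128_an.A01b
import Pool.Agent.Lib.MP_b2f128_an.A02a
import Pool.Agent.Lib.MP_b2f128_an.A02b
import Pool.Agent.Lib.MP_b2f128_an.A05
import Pool.Agent.Lib.MP_b2f128_an.A12
import Pool.Agent.Lib.MP_b2f128_an.A14

/-!
# MP_b2f128_an, part A15 (smooth Beltrami equation and area distortion)
-/

open Complex MeasureTheory Set Filter Topology
open scoped ContDiff

namespace Pool.B2F

noncomputable section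

theorem A15_cc {μ : ℂ → ℂ} (hμ : Cc (Metric.ball 0 1) μ) : Cc (Metric.ball 0 1) (Pool.B2F.dz μ) :=
  hμ.dz

theorem A15_itr {μ : ℂ → ℂ} (hμ : Cc (Metric.ball 0 1) μ) (n : ℕ) :
    Cc (Metric.ball 0 1) (itr μ (Pool.B2F.dz μ) n) := itr_cc hμ hμ.dz n

theorem A15_pow {l : ℂ} (hl : ‖l‖ ≤ 1) (n : ℕ) : ‖l ^ (n + 1)‖ ≤ 1 := by
  rw [norm_pow]
  exact pow_le_one₀ (norm_nonneg _) hl

/-- bounds of the derivatives of the terms -/
theorem A15_iter {μ : ℂ → ℂ} (hμ : Cc (Metric.ball 0 1) μ) (h1 : ∀ z, ‖μ z‖ < 1) {l : ℂ}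
    (hl : ‖l‖ ≤ 1) (j : ℕ) : ∃ C q : ℝ, 0 ≤ C ∧ 0 < q ∧ q < 1 ∧
      ∀ n z, ‖iteratedFDeriv ℝ j (fun z => l ^ (n + 1) * itr μ (Pool.B2F.dz μ) n z) z‖ ≤ C * q ^ n := by
  obtain ⟨C, q, hC, hq0, hq1, h⟩ := itr_sup hμ h1 hμ.dz j
  refine ⟨C, q, hC, hq0, hq1, fun n z => ?_⟩
  have hs : ContDiff ℝ j (itr μ (Pool.B2F.dz μ) n) :=
    (A15_itr hμ n).smooth.of_le (by exact_mod_cast le_top)
  have h2 : iteratedFDeriv ℝ j (fun z => l ^ (n + 1) * itr μ (Pool.B2F.dz μ) n z) z =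
      l ^ (n + 1) • iteratedFDeriv ℝ j (itr μ (Pool.B2F.dz μ) n) z := by
    have := iteratedFDeriv_const_smul_apply' (𝕜 := ℝ) (i := j) (a := l ^ (n + 1))
      (f := itr μ (Pool.B2F.dz μ) n) (x := z) hs.contDiffAt
    simpa only [smul_eq_mul] using this
  rw [h2, norm_smul]
  calc ‖l ^ (n + 1)‖ * ‖iteratedFDeriv ℝ j (itr μ (Pool.B2F.dz μ) n) z‖
      ≤ 1 * (C * q ^ n) := mul_le_mul (A15_pow hl n) (h n z) (norm_nonneg _) zero_le_one
    _ = C * q ^ n := one_mul _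

theorem A15_geom {C q : ℝ} (hq0 : 0 < q) (hq1 : q < 1) : Summable fun n : ℕ => C * q ^ n :=
  (summable_geometric_of_lt_one hq0.le hq1).mul_left C

theorem A15_smooth {μ : ℂ → ℂ} (hμ : Cc (Metric.ball 0 1) μ) (h1 : ∀ z, ‖μ z‖ < 1) {l : ℂ}
    (hl : ‖l‖ ≤ 1) : ContDiff ℝ ∞ (tauF μ l) := by
  choose C q hC hq0 hq1 h using fun j => A15_iter hμ h1 hl j
  unfold tauF
  refine contDiff_tsum (v := fun j n => C j * q j ^ n) ?_ ?_ ?_
  · intro n
    exact contDiff_const.mul (A15_itr hμ n).smooth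
  · intro k _
    exact A15_geom (hq0 k) (hq1 k)
  · intro k n x _
    exact h k n x

theorem A15_supp {μ : ℂ → ℂ} (n : ℕ) {z : ℂ} (hz : z ∉ tsupport μ) :
    itr μ (Pool.B2F.dz μ) n z = 0 := by
  have h := itr_supp (μ := μ) (tsupport_dz μ) n
  by_contra hne
  exact hz (h (subset_tsupport _ hne))

/-- PROOF. `contDiff_tsum` with the bounds of `itr_sup`. -/
theorem tau_cc {μ : ℂ → ℂ} (hμ : Cc (Metric.ball 0 1) μ) (h1 : ∀ z, ‖μ z‖ < 1) {l : ℂ}
    (hl : ‖l‖ ≤ 1) : Cc (Metric.ball 0 1) (tauF μ l) := by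
  have hz : ∀ z, z ∉ tsupport μ → tauF μ l z = 0 := by
    intro z hz
    unfold tauF
    simp only [A15_supp _ hz, mul_zero, tsum_zero]
  refine ⟨A15_smooth hμ h1 hl, ?_, ?_⟩
  · exact HasCompactSupport.intro hμ.cpt hz
  · refine subset_trans ?_ hμ.sub
    refine closure_minimal ?_ (isClosed_tsupport μ)
    intro z hne
    by_contra h
    exact hne (hz z h)

theorem A15_summ {μ : ℂ → ℂ} (hμ : Cc (Metric.ball 0 1) μ) (h1 : ∀ z, ‖μ z‖ < 1) {l : ℂ}
    (hl : ‖l‖ ≤ 1) (z : ℂ) : Summable fun n => l ^ (n + 1) * itr μ (Pool.B2F.dz μ) n z := by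
  obtain ⟨C, q, hC, hq0, hq1, h⟩ := A15_iter hμ h1 hl 0
  refine Summable.of_norm_bounded (A15_geom (C := C) hq0 hq1) fun n => ?_
  have := h n z
  rwa [norm_iteratedFDeriv_zero] at this

theorem A15_dz_bound {f : ℂ → ℂ} {z : ℂ} {B : ℝ} (h : ‖fderiv ℝ f z‖ ≤ B) :
    ‖Pool.B2F.dz f z‖ ≤ B := by
  unfold Pool.B2F.dz
  have h1 : ‖fderiv ℝ f z 1‖ ≤ B := by
    calc ‖fderiv ℝ f z 1‖ ≤ ‖fderiv ℝ f z‖ * ‖(1 : ℂ)‖ := (fderiv ℝ f z).le_opNorm _
      _ ≤ B := by simpa using h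
  have h2 : ‖fderiv ℝ f z I‖ ≤ B := by
    calc ‖fderiv ℝ f z I‖ ≤ ‖fderiv ℝ f z‖ * ‖I‖ := (fderiv ℝ f z).le_opNorm _
      _ ≤ B := by simpa using h
  rw [norm_div]
  have h3 : ‖fderiv ℝ f z 1 - I * fderiv ℝ f z I‖ ≤ B + B := by
    refine (norm_sub_le _ _).trans (add_le_add h1 ?_)
    rw [norm_mul, norm_I, one_mul]
    exact h2
  have h4 : ‖(2 : ℂ)‖ = 2 := by simp
  rw [h4]
  linarith

/-- the terms of the series of the derivative -/
theorem A15_hasSum_dz {μ : ℂ → ℂ} (hμ : Cc (Metric.ball 0 1) μ) (h1 : ∀ z, ‖μ z‖ < 1) {l : ℂ}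
    (hl : ‖l‖ ≤ 1) (z : ℂ) :
    HasSum (fun n => l ^ (n + 1) * Pool.B2F.dz (itr μ (Pool.B2F.dz μ) n) z)
      (Pool.B2F.dz (tauF μ l) z) := by
  obtain ⟨C, q, hC, hq0, hq1, h⟩ := A15_iter hμ h1 hl 1
  have hb : ∀ n z, ‖fderiv ℝ (fun z => l ^ (n + 1) * itr μ (Pool.B2F.dz μ) n z) z‖ ≤ C * q ^ n := by
    intro n z
    have := h n z
    rwa [norm_iteratedFDeriv_one] at this
  have hd : ∀ n, Differentiable ℝ (fun z => l ^ (n + 1) * itr μ (Pool.B2F.dz μ) n z) := fun n =>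
    (contDiff_const.mul (A15_itr hμ n).smooth).differentiable (by simp)
  have hfd := hasFDerivAt_tsum (A15_geom (C := C) hq0 hq1) (fun n x => (hd n x).hasFDerivAt) hb
    (A15_summ hμ h1 hl z) z
  have hs : Summable fun n => fderiv ℝ (fun z => l ^ (n + 1) * itr μ (Pool.B2F.dz μ) n z) z :=
    Summable.of_norm_bounded (A15_geom (C := C) hq0 hq1) fun n => hb n z
  have h2 := hs.hasSum
  rw [← hfd.fderiv] at h2
  have h3 : ∀ v : ℂ, HasSum (fun n => fderiv ℝ (fun z => l ^ (n + 1) * itr μ (Pool.B2F.dz μ) n z) z v)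
      (fderiv ℝ (tauF μ l) z v) := fun v =>
    h2.mapL (ContinuousLinearMap.apply ℝ ℂ v)
  have h4 := ((h3 1).sub ((h3 I).mul_left I)).div_const 2
  have h5 : ∀ n, l ^ (n + 1) * Pool.B2F.dz (itr μ (Pool.B2F.dz μ) n) z =
      Pool.B2F.dz (fun z => l ^ (n + 1) * itr μ (Pool.B2F.dz μ) n z) z := fun n =>
    (dz_const_mul _ ((A15_itr hμ n).smooth.differentiable (by simp) z)).symm
  simp only [h5]
  exact h4

theorem A15_int (z : ℂ) (K : ℝ) : Integrable ((Metric.ball z 1).indicator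
    (fun ζ : ℂ => K * ‖ζ‖⁻¹)) := by
  rw [integrable_indicator_iff Metric.isOpen_ball.measurableSet]
  have h := (int_inv_le z 0 zero_le_one).1
  simp only [sub_zero] at h
  exact h.const_mul K

/-- PROOF. `beu` of the series is the series of the `beu`: `dz` termwise (`itr_sup` with `j = 1`), then the integral defining `cau` (dominated convergence; all supports in the unit disc). -/
theorem beu_tau {μ : ℂ → ℂ} (hμ : Cc (Metric.ball 0 1) μ) (h1 : ∀ z, ‖μ z‖ < 1) {l : ℂ}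
    (hl : ‖l‖ ≤ 1) (z : ℂ) : HasSum (fun n => l ^ (n + 1) * beu (itr μ (dz μ) n) z) (beu (tauF μ l) z) := by
  obtain ⟨C, q, hC, hq0, hq1, h⟩ := A15_iter hμ h1 hl 1
  set g : ℕ → ℂ → ℂ := fun n w => l ^ (n + 1) * Pool.B2F.dz (itr μ (Pool.B2F.dz μ) n) w with hg
  have hgb : ∀ n w, ‖g n w‖ ≤ C * q ^ n := by
    intro n w
    have h2 : g n w = Pool.B2F.dz (fun z => l ^ (n + 1) * itr μ (Pool.B2F.dz μ) n z) w :=
      (dz_const_mul _ ((A15_itr hμ n).smooth.differentiable (by simp) w)).symm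
    rw [h2]
    refine A15_dz_bound ?_
    have := h n w
    rwa [norm_iteratedFDeriv_one] at this
  have hg0 : ∀ n w, w ∉ Metric.ball (0 : ℂ) 1 → g n w = 0 := by
    intro n w hw
    have h2 : Pool.B2F.dz (itr μ (Pool.B2F.dz μ) n) w = 0 := by
      by_contra hne
      exact hw ((A15_itr hμ n).dz.sub (subset_tsupport _ hne))
    simp only [hg, h2, mul_zero]
  have hgc : ∀ n, Continuous (g n) := fun n => continuous_const.mul (A15_itr hμ n).dz.smooth.continuous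
  have key : HasSum (fun n => ∫ ζ : ℂ, g n (z - ζ) / ζ) (∫ ζ : ℂ, Pool.B2F.dz (tauF μ l) (z - ζ) / ζ) := by
    refine hasSum_integral_of_dominated_convergence
      (fun n => (Metric.ball z 1).indicator (fun ζ : ℂ => C * q ^ n * ‖ζ‖⁻¹)) ?_ ?_ ?_ ?_ ?_
    · intro n
      exact (((hgc n).comp (continuous_const.sub continuous_id)).measurable.div
        measurable_id).aestronglyMeasurable
    · intro n
      refine Eventually.of_forall fun ζ => ?_
      by_cases hζ : ζ ∈ Metric.ball z 1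
      · rw [indicator_of_mem hζ, norm_div, div_eq_mul_inv]
        exact mul_le_mul_of_nonneg_right (hgb n _) (inv_nonneg.2 (norm_nonneg _))
      · rw [indicator_of_notMem hζ]
        have : g n (z - ζ) = 0 := by
          apply hg0
          intro h3
          apply hζ
          rw [mem_ball_zero_iff] at h3
          rw [mem_ball_iff_norm, norm_sub_rev]
          exact h3
        rw [this, zero_div, norm_zero]
    · refine Eventually.of_forall fun ζ => ?_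
      by_cases hζ : ζ ∈ Metric.ball z 1
      · simp only [indicator_of_mem hζ]
        exact (A15_geom (C := C) hq0 hq1).mul_right _
      · simp only [indicator_of_notMem hζ]
        exact summable_zero
    · have h3 : (fun ζ : ℂ => ∑' n, (Metric.ball z 1).indicator (fun ζ : ℂ => C * q ^ n * ‖ζ‖⁻¹) ζ) =
          (Metric.ball z 1).indicator (fun ζ : ℂ => (∑' n, C * q ^ n) * ‖ζ‖⁻¹) := by
        funext ζ
        by_cases hζ : ζ ∈ Metric.ball z 1
        · simp only [indicator_of_mem hζ]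
          exact tsum_mul_right
        · simp only [indicator_of_notMem hζ, tsum_zero]
      rw [h3]
      exact A15_int z _
    · refine Eventually.of_forall fun ζ => ?_
      exact (A15_hasSum_dz hμ h1 hl (z - ζ)).div_const ζ
  have h4 := key.mul_left (1 / Real.pi : ℂ)
  have h5 : ∀ n, l ^ (n + 1) * beu (itr μ (Pool.B2F.dz μ) n) z =
      (1 / Real.pi : ℂ) * ∫ ζ : ℂ, g n (z - ζ) / ζ := by
    intro n
    unfold beu cau
    have h6 : ∀ ζ : ℂ, g n (z - ζ) / ζ =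
        l ^ (n + 1) * (Pool.B2F.dz (itr μ (Pool.B2F.dz μ) n) (z - ζ) / ζ) := fun ζ =>
      mul_div_assoc _ _ _
    simp only [h6]
    rw [integral_const_mul]
    ring
  simp only [h5]
  exact h4

theorem tau_eq {μ : ℂ → ℂ} (hμ : Cc (Metric.ball 0 1) μ) (h1 : ∀ z, ‖μ z‖ < 1) {l : ℂ}
    (hl : ‖l‖ ≤ 1) (z : ℂ) : tauF μ l z = l * dz μ z + l * μ z * beu (tauF μ l) z := by
  have h2 := (beu_tau hμ h1 hl z).mul_left (l * μ z)
  have h3 : ∀ n : ℕ, l * μ z * (l ^ (n + 1) * beu (itr μ (Pool.B2F.dz μ) n) z) =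
      l ^ (n + 1 + 1) * itr μ (Pool.B2F.dz μ) (n + 1) z := by
    intro n
    show _ = l ^ (n + 1 + 1) * (μ z * beu (itr μ (Pool.B2F.dz μ) n) z)
    ring
  simp only [h3] at h2
  have h4 := (A15_summ hμ h1 hl z).tsum_eq_zero_add
  unfold tauF at h2 ⊢
  rw [h4, h2.tsum_eq]
  show l ^ (0 + 1) * Pool.B2F.dz μ z + _ = _
  rw [zero_add, pow_one]

end

end Pool.B2F
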