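import Pool.Agent.Lib.MP_b2f128_an.Base
import Pool.Agent.Lib.MP_b2f128_an.A01a
import Pool.Agent.Lib.MP_b2f128_an.A01b
import Pool.Agent.Lib.MP_b2f128_an.A02b
import Pool.Agent.Lib.MP_b2f128_an.A06
import Pool.Agent.Lib.MP_b2f128_an.A07z
import Pool.Agent.Lib.MP_b2f128_an.A08a
import Pool.Agent.Lib.MP_b2f128_an.A08b
import Pool.Agent.Lib.MP_b2f128_an.A11
import Pool.Agent.Lib.MP_b2f128_an.A15

/-!
# MP_b2f128_an, part A16 (smooth Beltrami equation and area distortion)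
-/

open Complex MeasureTheory Set Filter Topology
open scoped ContDiff

namespace Pool.B2F

noncomputable section

theorem A16_sgm_smooth {μ : ℂ → ℂ} (hμ : Cc (Metric.ball 0 1) μ) (h1 : ∀ z, ‖μ z‖ < 1) {l : ℂ}
    (hl : ‖l‖ ≤ 1) : ContDiff ℝ ∞ (sgm μ l) :=
  cau_smooth ((tau_cc hμ h1 hl).mono (subset_univ _))

theorem A16_aa_smooth {μ : ℂ → ℂ} (hμ : Cc (Metric.ball 0 1) μ) (h1 : ∀ z, ‖μ z‖ < 1) {l : ℂ}
    (hl : ‖l‖ ≤ 1) : ContDiff ℝ ∞ (aa μ l) :=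
  (A16_sgm_smooth hμ h1 hl).cexp

theorem A16_psi_cc {μ : ℂ → ℂ} (hμ : Cc (Metric.ball 0 1) μ) (h1 : ∀ z, ‖μ z‖ < 1) {l : ℂ}
    (hl : ‖l‖ ≤ 1) : Cc (Metric.ball 0 1) (psi μ l) := by
  have h := hμ.mul_right (g := fun z => l * aa μ l z)
    (contDiff_const.mul (A16_aa_smooth hμ h1 hl))
  have h2 : psi μ l = fun z => μ z * (l * aa μ l z) := by
    funext z
    unfold psi
    ring
  rw [h2]
  exact h

theorem A16_aa_eq {μ : ℂ → ℂ} (hμ : Cc (Metric.ball 0 1) μ) (h1 : ∀ z, ‖μ z‖ < 1) {l : ℂ}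
    (hl : ‖l‖ ≤ 1) (z : ℂ) : aa μ l z = 1 + beu (psi μ l) z := by
  have hτ := tau_cc hμ h1 hl
  have hτu : Cc univ (tauF μ l) := hτ.mono (subset_univ _)
  have hψ := A16_psi_cc hμ h1 hl
  have hψu : Cc univ (psi μ l) := hψ.mono (subset_univ _)
  have hσs := A16_sgm_smooth hμ h1 hl
  have has := A16_aa_smooth hμ h1 hl
  have hbs : ContDiff ℝ ∞ (beu (psi μ l)) := cau_smooth hψu.dz
  have hne : (∞ : WithTop ℕ∞) ≠ 0 := by simp
  have hdz : ∀ w, Pool.B2F.dz (psi μ l) w = aa μ l w * tauF μ l w := by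
    intro w
    have e1 : psi μ l = fun z => l * (μ z * aa μ l z) := by
      funext z
      unfold psi
      ring
    have hμd : DifferentiableAt ℝ μ w := (hμ.smooth.differentiable hne) w
    have had : DifferentiableAt ℝ (aa μ l) w := (has.differentiable hne) w
    have hσd : DifferentiableAt ℝ (sgm μ l) w := (hσs.differentiable hne) w
    have e2 : Pool.B2F.dz (aa μ l) w = aa μ l w * Pool.B2F.dz (sgm μ l) w := dz_exp hσd
    have e3 : Pool.B2F.dz (sgm μ l) w = beu (tauF μ l) w := by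
      unfold sgm beu
      rw [dz_cau hτu]
    have e4 : Pool.B2F.dz (fun z => l * (μ z * aa μ l z)) w =
        l * Pool.B2F.dz (fun z => μ z * aa μ l z) w := dz_const_mul l (hμd.mul had)
    rw [e1, e4, dz_mul hμd had, e2, e3]
    rw [tau_eq hμ h1 hl w]
    ring
  have hzero := entire_zero (u := fun w => (1 + beu (psi μ l) w) - aa μ l w)
    ((contDiff_const.add hbs).sub has) ?_ ?_ z
  · have := sub_eq_zero.mp hzero
    exact this.symm
  · intro w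
    have hbd : DifferentiableAt ℝ (beu (psi μ l)) w := (hbs.differentiable hne) w
    have had : DifferentiableAt ℝ (aa μ l) w := (has.differentiable hne) w
    have hσd : DifferentiableAt ℝ (sgm μ l) w := (hσs.differentiable hne) w
    have e1 : dzb (beu (psi μ l)) w = Pool.B2F.dz (psi μ l) w := by
      unfold beu
      rw [dzb_cau hψu.dz]
    have e2 : dzb (aa μ l) w = aa μ l w * dzb (sgm μ l) w := dzb_exp hσd
    have e3 : dzb (sgm μ l) w = tauF μ l w := by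
      unfold sgm
      rw [dzb_cau hτu]
    have e4 : dzb (fun w => (1 + beu (psi μ l) w) - aa μ l w) w =
        dzb (fun w => 1 + beu (psi μ l) w) w - dzb (aa μ l) w :=
      dzb_sub ((differentiableAt_const _).add hbd) had
    have e5 : dzb (fun w => 1 + beu (psi μ l) w) w =
        dzb (fun _ => (1 : ℂ)) w + dzb (beu (psi μ l)) w := dzb_add (differentiableAt_const _) hbd
    rw [e4, e5, dzb_const, e1, e2, e3, hdz w]
    ring
  · have t1 : Tendsto (aa μ l) (cocompact ℂ) (𝓝 (Complex.exp 0)) :=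
      (Complex.continuous_exp.tendsto 0).comp (tendsto_cau hτ)
    have t2 := tendsto_beu hψ
    have t3 := ((tendsto_const_nhds (x := (1 : ℂ))).add t2).sub t1
    simpa using t3

theorem psi_cc {μ : ℂ → ℂ} (hμ : Cc (Metric.ball 0 1) μ) (h1 : ∀ z, ‖μ z‖ < 1) {l : ℂ}
    (hl : ‖l‖ ≤ 1) : Cc (Metric.ball 0 1) (psi μ l) ∧ tsupport (psi μ l) ⊆ tsupport μ := by
  refine ⟨A16_psi_cc hμ h1 hl, closure_mono fun z hz => ?_⟩
  rw [Function.mem_support] at hz ⊢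
  intro h
  apply hz
  unfold psi
  rw [h]
  ring

theorem Fm_smooth {μ : ℂ → ℂ} (hμ : Cc (Metric.ball 0 1) μ) (h1 : ∀ z, ‖μ z‖ < 1) {l : ℂ}
    (hl : ‖l‖ ≤ 1) : ContDiff ℝ ∞ (Fm μ l) :=
  contDiff_id.add (cau_smooth ((A16_psi_cc hμ h1 hl).mono (subset_univ _)))

theorem dzb_Fm {μ : ℂ → ℂ} (hμ : Cc (Metric.ball 0 1) μ) (h1 : ∀ z, ‖μ z‖ < 1) {l : ℂ}
    (hl : ‖l‖ ≤ 1) (z : ℂ) : dzb (Fm μ l) z = psi μ l z := by
  have hψu : Cc univ (psi μ l) := (A16_psi_cc hμ h1 hl).mono (subset_univ _)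
  have hne : (∞ : WithTop ℕ∞) ≠ 0 := by simp
  have hcd : DifferentiableAt ℝ (cau (psi μ l)) z := ((cau_smooth hψu).differentiable hne) z
  have e : dzb (Fm μ l) z = dzb (fun z => z) z + dzb (cau (psi μ l)) z :=
    dzb_add differentiableAt_id hcd
  rw [e, dzb_id, dzb_cau hψu, zero_add]

/-- PROOF. `d = 1 + beu (psi μ l) - aa μ l` is smooth, tends to 0 at infinity (`aa → exp 0 = 1`), and `dzb d = dz (psi) - aa * tauF = aa (l dz μ + l μ dz σ) - aa tauF = 0` by `tau_eq` (`dz σ = beu τ`, `dzb σ = τ`). `entire_zero`. -/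
theorem dz_Fm {μ : ℂ → ℂ} (hμ : Cc (Metric.ball 0 1) μ) (h1 : ∀ z, ‖μ z‖ < 1) {l : ℂ}
    (hl : ‖l‖ ≤ 1) (z : ℂ) : dz (Fm μ l) z = aa μ l z := by
  have hψu : Cc univ (psi μ l) := (A16_psi_cc hμ h1 hl).mono (subset_univ _)
  have hne : (∞ : WithTop ℕ∞) ≠ 0 := by simp
  have hcd : DifferentiableAt ℝ (cau (psi μ l)) z := ((cau_smooth hψu).differentiable hne) z
  have e : dz (Fm μ l) z = dz (fun z => z) z + dz (cau (psi μ l)) z :=
    dz_add differentiableAt_id hcd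
  rw [e, dz_id, dz_cau hψu, A16_aa_eq hμ h1 hl z]
  rfl

theorem aa_eq_beu {μ : ℂ → ℂ} (hμ : Cc (Metric.ball 0 1) μ) (h1 : ∀ z, ‖μ z‖ < 1) {l : ℂ}
    (hl : ‖l‖ ≤ 1) (z : ℂ) : aa μ l z = 1 + beu (psi μ l) z :=
  A16_aa_eq hμ h1 hl z

theorem aa_continuous {μ : ℂ → ℂ} (hμ : Cc (Metric.ball 0 1) μ) (h1 : ∀ z, ‖μ z‖ < 1) {l : ℂ}
    (hl : ‖l‖ ≤ 1) : Continuous (aa μ l) :=
  (A16_aa_smooth hμ h1 hl).continuous

end

end Pool.B2F
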