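import Pool.Agent.Lib.MP_b2f128_an.Base
import Pool.Agent.Lib.MP_b2f128_an.A02b
import Pool.Agent.Lib.MP_b2f128_an.A05
import Pool.Agent.Lib.MP_b2f128_an.A06
import Pool.Agent.Lib.MP_b2f128_an.A08a
import Pool.Agent.Lib.MP_b2f128_an.A12
import Pool.Agent.Lib.MP_b2f128_an.A14

/-!
# MP_b2f128_an, part A17 (smooth Beltrami equation and area distortion)
-/

open Complex MeasureTheory Set Filter Topology
open scoped ContDiff

namespace Pool.B2F

noncomputable section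

/-- integrability of the terms -/
theorem A17_int {f : ℂ → ℂ} (hf : Cc (Metric.ball 0 1) f) {B : ℝ} (hB : ∀ z, ‖f z‖ ≤ B) (z : ℂ) :
    Integrable (fun ζ => f (z - ζ) / ζ) ∧ ∫ ζ, ‖f (z - ζ) / ζ‖ ≤ B * (6 * Real.pi * 1) := by
  have hB0 : 0 ≤ B := (norm_nonneg _).trans (hB 0)
  obtain ⟨h1, h2⟩ := int_inv_le z 0 (R := 1) zero_le_one
  have hmb : MeasurableSet (Metric.ball z 1) := measurableSet_ball
  have h1c : IntegrableOn (fun ζ => B * ‖ζ - 0‖⁻¹) (Metric.ball z 1) := h1.const_mul B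
  have h1' : Integrable ((Metric.ball z 1).indicator (fun ζ => B * ‖ζ - 0‖⁻¹)) :=
    h1c.integrable_indicator hmb
  have hle : ∀ ζ, ‖f (z - ζ) / ζ‖ ≤ (Metric.ball z 1).indicator (fun ζ => B * ‖ζ - 0‖⁻¹) ζ := by
    intro ζ
    by_cases hζ : ζ ∈ Metric.ball z 1
    · rw [indicator_of_mem hζ, norm_div, div_eq_mul_inv, sub_zero]
      exact mul_le_mul_of_nonneg_right (hB _) (by positivity)
    · rw [indicator_of_notMem hζ]
      have h0 : f (z - ζ) = 0 := by
        apply image_eq_zero_of_notMem_tsupport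
        intro hmem
        apply hζ
        have := hf.sub hmem
        rw [Metric.mem_ball, dist_zero_right] at this
        rw [Metric.mem_ball, dist_eq_norm, norm_sub_rev]
        exact this
      rw [h0, zero_div, norm_zero]
  have hmeas : AEStronglyMeasurable (fun ζ => f (z - ζ) / ζ) volume := by
    have hc : Continuous (fun ζ => f (z - ζ)) := hf.smooth.continuous.comp (continuous_const.sub continuous_id)
    exact (hc.measurable.div measurable_id).aestronglyMeasurable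
  have hint : Integrable (fun ζ => f (z - ζ) / ζ) := h1'.mono' hmeas (Eventually.of_forall hle)
  refine ⟨hint, ?_⟩
  calc ∫ ζ, ‖f (z - ζ) / ζ‖ ≤ ∫ ζ, (Metric.ball z 1).indicator (fun ζ => B * ‖ζ - 0‖⁻¹) ζ :=
        integral_mono hint.norm h1' hle
    _ = ∫ ζ in Metric.ball z 1, B * ‖ζ - 0‖⁻¹ := integral_indicator hmb
    _ = B * ∫ ζ in Metric.ball z 1, ‖ζ - 0‖⁻¹ := integral_const_mul _ _
    _ ≤ B * (6 * Real.pi * 1) := mul_le_mul_of_nonneg_left h2 hB0

/-- PROOF. `c n = cau (itr μ (dz μ) n)`; `norm_cau_le` and `itr_sup` with `j = 0`; exchange of sum and integral. -/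
theorem sgm_series {μ : ℂ → ℂ} (hμ : Cc (Metric.ball 0 1) μ) (h1 : ∀ z, ‖μ z‖ < 1) :
    ∃ (c : ℕ → ℂ → ℂ) (C q : ℝ), 0 ≤ C ∧ 0 < q ∧ q < 1 ∧ (∀ n, Continuous (c n)) ∧
      (∀ n z, ‖c n z‖ ≤ C * q ^ n) ∧
      ∀ l : ℂ, ‖l‖ ≤ 1 → ∀ z, sgm μ l z = ∑' n : ℕ, l ^ (n + 1) * c n z := by
  obtain ⟨C, q, hC, hq0, hq1, hsup⟩ := itr_sup hμ h1 hμ.dz 0
  have hf : ∀ n, Cc (Metric.ball 0 1) (itr μ (Pool.B2F.dz μ) n) := fun n => itr_cc hμ hμ.dz n
  have hb : ∀ n z, ‖itr μ (Pool.B2F.dz μ) n z‖ ≤ C * q ^ n := by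
    intro n z
    have := hsup n z
    rwa [norm_iteratedFDeriv_zero] at this
  refine ⟨fun n => cau (itr μ (Pool.B2F.dz μ) n), 4 * C, q, by positivity, hq0, hq1, ?_, ?_, ?_⟩
  · intro n
    exact (cau_smooth ((hf n).mono (subset_univ _))).continuous
  · intro n z
    have := norm_cau_le (hf n) (hb n) z
    calc ‖cau (itr μ (Pool.B2F.dz μ) n) z‖ ≤ 4 * (C * q ^ n) := this
      _ = 4 * C * q ^ n := by ring
  · intro l hl z
    have hF : ∀ n : ℕ, Integrable (fun ζ => l ^ (n + 1) * (itr μ (Pool.B2F.dz μ) n (z - ζ) / ζ)) :=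
      fun n => (A17_int (hf n) (hb n) z).1.const_mul _
    have hsum : Summable (fun n : ℕ => ∫ ζ, ‖l ^ (n + 1) * (itr μ (Pool.B2F.dz μ) n (z - ζ) / ζ)‖) := by
      have hg : Summable (fun n : ℕ => C * (6 * Real.pi * 1) * q ^ n) :=
        (summable_geometric_of_lt_one hq0.le hq1).mul_left _
      refine Summable.of_nonneg_of_le (fun n => integral_nonneg (fun _ => norm_nonneg _)) (fun n => ?_) hg
      have e1 : (fun ζ => ‖l ^ (n + 1) * (itr μ (Pool.B2F.dz μ) n (z - ζ) / ζ)‖) =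
          fun ζ => ‖l‖ ^ (n + 1) * ‖itr μ (Pool.B2F.dz μ) n (z - ζ) / ζ‖ := by
        funext ζ
        rw [norm_mul, norm_pow]
      rw [e1, integral_const_mul]
      have e2 := (A17_int (hf n) (hb n) z).2
      have e3 : ‖l‖ ^ (n + 1) ≤ 1 := pow_le_one₀ (norm_nonneg _) hl
      have e4 : 0 ≤ ∫ ζ, ‖itr μ (Pool.B2F.dz μ) n (z - ζ) / ζ‖ := integral_nonneg (fun _ => norm_nonneg _)
      calc ‖l‖ ^ (n + 1) * ∫ ζ, ‖itr μ (Pool.B2F.dz μ) n (z - ζ) / ζ‖
          ≤ 1 * ∫ ζ, ‖itr μ (Pool.B2F.dz μ) n (z - ζ) / ζ‖ := mul_le_mul_of_nonneg_right e3 e4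
        _ ≤ C * q ^ n * (6 * Real.pi * 1) := by rw [one_mul]; exact e2
        _ = _ := by ring
    have hkey := integral_tsum_of_summable_integral_norm hF hsum
    unfold sgm cau
    have e5 : ∫ ζ, tauF μ l (z - ζ) / ζ =
        ∫ ζ, ∑' n : ℕ, l ^ (n + 1) * (itr μ (Pool.B2F.dz μ) n (z - ζ) / ζ) := by
      congr 1
      funext ζ
      unfold tauF
      rw [← tsum_div_const]
      congr 1
      funext n
      ring
    rw [e5, ← hkey, ← tsum_mul_left]
    congr 1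
    funext n
    rw [integral_const_mul]
    ring

end

end Pool.B2F
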