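import Pool.Agent.Lib.MP_b2f128_an.Base
import Pool.Agent.Lib.MP_b2f128_an.A01a
import Pool.Agent.Lib.MP_b2f128_an.A02b
import Pool.Agent.Lib.MP_b2f128_an.A06
import Pool.Agent.Lib.MP_b2f128_an.A07z
import Pool.Agent.Lib.MP_b2f128_an.A08a
import Pool.Agent.Lib.MP_b2f128_an.A08b

/-!
# MP_b2f128_an, part A18 (smooth Beltrami equation and area distortion)
-/

open Complex MeasureTheory Set Filter Topology
open scoped ContDiff

namespace Pool.B2F

noncomputable section

/-- a bounded function with a vanishing limit -/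
theorem A18_bdd {u : ℂ → ℂ} (hc : Continuous u) (hlim : Tendsto u (cocompact ℂ) (𝓝 0)) :
    ∃ B : ℝ, 0 < B ∧ ∀ z, ‖u z‖ ≤ B := by
  have h1 : ∀ᶠ z in cocompact ℂ, ‖u z‖ < 1 := by
    have := hlim.norm
    rw [norm_zero] at this
    exact this.eventually (gt_mem_nhds one_pos)
  obtain ⟨K, hK, hKc⟩ := Filter.mem_cocompact.1 h1
  obtain ⟨C, hC⟩ := hK.exists_bound_of_continuousOn hc.continuousOn
  refine ⟨max C 1, lt_max_of_lt_right one_pos, fun z => ?_⟩
  by_cases hz : z ∈ K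
  · exact (hC z hz).trans (le_max_left _ _)
  · exact (le_of_lt (hKc hz)).trans (le_max_right _ _)

/-- abstract form: a local diffeomorphism which is a small perturbation of the identity near infinity -/
theorem A18_main {u : ℂ → ℂ} (hu : ContDiff ℝ ∞ u) (hlim : Tendsto u (cocompact ℂ) (𝓝 0))
    (hd : Tendsto (fun z => ‖fderiv ℝ u z‖) (cocompact ℂ) (𝓝 0))
    (hJ : ∀ z, (fderiv ℝ (fun z => z + u z) z).det ≠ 0) :
    ∃ G : ℂ → ℂ, ContDiff ℝ ∞ G ∧ (∀ z, G (z + u z) = z) ∧ ∀ w, G w + u (G w) = w := by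
  obtain ⟨F, hF⟩ : ∃ F : ℂ → ℂ, F = fun z => z + u z := ⟨_, rfl⟩
  have hFz : ∀ z, F z = z + u z := fun z => by rw [hF]
  rw [← hF] at hJ
  have hFc : ContDiff ℝ ∞ F := by rw [hF]; exact contDiff_id.add hu
  have hFcont : Continuous F := hFc.continuous
  obtain ⟨B, hB0, hB⟩ := A18_bdd hu.continuous hlim
  -- local inverse
  have hstr : ∀ z, HasStrictFDerivAt F
      (((fderiv ℝ F z).toContinuousLinearEquivOfDetNeZero (hJ z) : ℂ ≃L[ℝ] ℂ) : ℂ →L[ℝ] ℂ) z := by
    intro z
    rw [ContinuousLinearMap.coe_toContinuousLinearEquivOfDetNeZero]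
    exact hFc.contDiffAt.hasStrictFDerivAt (by simp)
  have hmap : ∀ z, map F (𝓝 z) = 𝓝 (F z) := fun z => (hstr z).map_nhds_eq_of_equiv
  have hopen : IsOpenMap F := isOpenMap_iff_nhds_le.2 fun z => (hmap z).ge
  have hprop : IsProperMap F := by
    rw [isProperMap_iff_tendsto_cocompact]
    refine ⟨hFcont, ?_⟩
    refine Filter.tendsto_cocompact_cocompact_of_norm fun ε => ⟨ε + B, fun x hx => ?_⟩
    have h1 : ‖x‖ ≤ ‖F x‖ + ‖u x‖ := by
      have : x = F x - u x := by rw [hFz]; ring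
      calc ‖x‖ = ‖F x - u x‖ := by rw [← this]
        _ ≤ ‖F x‖ + ‖u x‖ := norm_sub_le _ _
    have h2 := hB x
    linarith
  have hclosed : IsClosedMap F := hprop.isClosedMap
  -- surjectivity
  have hsurj : Function.Surjective F := by
    have h1 : IsClopen (range F) := by
      refine ⟨hclosed.isClosed_range, hopen.isOpen_range⟩
    have h2 := h1.eq_univ (range_nonempty F)
    exact range_eq_univ.1 h2
  -- the set of points with at most one preimage
  obtain ⟨W, hW⟩ : ∃ W : Set ℂ, W = {w | ∀ z₁ z₂, F z₁ = w → F z₂ = w → z₁ = z₂} := ⟨_, rfl⟩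
  have hWm : ∀ w, w ∈ W ↔ ∀ z₁ z₂, F z₁ = w → F z₂ = w → z₁ = z₂ := fun w => by rw [hW]; rfl
  have hWclosed : IsClosed W := by
    rw [← isOpen_compl_iff, isOpen_iff_mem_nhds]
    intro w hw
    rw [mem_compl_iff, hWm] at hw
    push Not at hw
    obtain ⟨z₁, z₂, h1, h2, hne⟩ := hw
    obtain ⟨U₁, U₂, hU₁, hU₂, hz₁, hz₂, hdis⟩ := t2_separation hne
    have hn1 : F '' U₁ ∈ 𝓝 w := by
      rw [← h1]
      exact (hopen U₁ hU₁).mem_nhds (mem_image_of_mem F hz₁)
    have hn2 : F '' U₂ ∈ 𝓝 w := by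
      rw [← h2]
      exact (hopen U₂ hU₂).mem_nhds (mem_image_of_mem F hz₂)
    filter_upwards [hn1, hn2] with v hv1 hv2
    obtain ⟨a, ha, hav⟩ := hv1
    obtain ⟨b, hb, hbv⟩ := hv2
    rw [mem_compl_iff, hWm]
    intro hcon
    have hab := hcon a b hav hbv
    rw [hab] at ha
    exact (Set.disjoint_left.1 hdis ha) hb
  have hWopen : IsOpen W := by
    rw [isOpen_iff_mem_nhds]
    intro w hw
    rw [hWm] at hw
    obtain ⟨z₀, hz₀⟩ := hsurj w
    obtain ⟨e, he⟩ : ∃ e : OpenPartialHomeomorph ℂ ℂ, e = (hstr z₀).toOpenPartialHomeomorph F := ⟨_, rfl⟩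
    have hee : (e : ℂ → ℂ) = F := by rw [he]; rfl
    have hz₀e : z₀ ∈ e.source := by rw [he]; exact (hstr z₀).mem_toOpenPartialHomeomorph_source
    have hVc : IsClosed (F '' e.sourceᶜ) := hclosed _ e.open_source.isClosed_compl
    have hwV : w ∈ (F '' e.sourceᶜ)ᶜ := by
      rintro ⟨z, hz, hzw⟩
      have := hw z z₀ hzw hz₀
      rw [this] at hz
      exact hz hz₀e
    filter_upwards [hVc.isOpen_compl.mem_nhds hwV] with v hv
    rw [hWm]
    intro a b ha hb
    have ha' : a ∈ e.source := by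
      by_contra hc
      exact hv ⟨a, hc, ha⟩
    have hb' : b ∈ e.source := by
      by_contra hc
      exact hv ⟨b, hc, hb⟩
    apply e.injOn ha' hb'
    rw [hee, ha, hb]
  have hWne : W.Nonempty := by
    have h1 : ∀ᶠ z in cocompact ℂ, ‖fderiv ℝ u z‖ < 1 / 2 :=
      hd.eventually (gt_mem_nhds (by norm_num))
    rw [← Metric.cobounded_eq_cocompact, Filter.HasBasis.eventually_iff (Metric.hasBasis_cobounded_compl_closedBall (0 : ℂ))] at h1
    obtain ⟨R, -, hR⟩ := h1
    refine ⟨((|R| + B + 1 : ℝ) : ℂ), ?_⟩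
    rw [hWm]
    intro z₁ z₂ h1 h2
    have hin : ∀ z, F z = ((|R| + B + 1 : ℝ) : ℂ) → z ∈ Metric.closedBall ((|R| + B + 1 : ℝ) : ℂ) B := by
      intro z hz
      rw [Metric.mem_closedBall, dist_eq_norm, ← hz, hFz]
      have : z - (z + u z) = -u z := by ring
      rw [this, norm_neg]
      exact hB z
    have hder : ∀ z ∈ Metric.closedBall ((|R| + B + 1 : ℝ) : ℂ) B, ‖fderiv ℝ u z‖ ≤ 1 / 2 := by
      intro z hz
      refine (hR ?_).le
      rw [mem_compl_iff, Metric.mem_closedBall, dist_zero_right, not_le]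
      rw [Metric.mem_closedBall, dist_eq_norm] at hz
      have h3 : ‖((|R| + B + 1 : ℝ) : ℂ)‖ ≤ ‖z‖ + ‖z - ((|R| + B + 1 : ℝ) : ℂ)‖ := by
        have : ((|R| + B + 1 : ℝ) : ℂ) = z - (z - ((|R| + B + 1 : ℝ) : ℂ)) := by ring
        calc ‖((|R| + B + 1 : ℝ) : ℂ)‖ = ‖z - (z - ((|R| + B + 1 : ℝ) : ℂ))‖ := by rw [← this]
          _ ≤ _ := norm_sub_le _ _
      have h4 : ‖((|R| + B + 1 : ℝ) : ℂ)‖ = |R| + B + 1 := by
        rw [Complex.norm_real, Real.norm_eq_abs, abs_of_nonneg (by positivity)]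
      have h5 := le_abs_self R
      rw [h4] at h3
      linarith
    have hlip := (convex_closedBall ((|R| + B + 1 : ℝ) : ℂ) B).norm_image_sub_le_of_norm_fderiv_le (𝕜 := ℝ)
      (fun z _ => (hu.differentiable (by simp)) z) hder (hin z₂ h2) (hin z₁ h1)
    have h3 : z₁ - z₂ = -(u z₁ - u z₂) := by
      have := h1.trans h2.symm
      rw [hFz, hFz] at this
      linear_combination this
    have h4 : ‖z₁ - z₂‖ = ‖u z₁ - u z₂‖ := by
      rw [← norm_neg (u z₁ - u z₂), ← h3]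
    rw [← h4] at hlip
    have h5 : ‖z₁ - z₂‖ = 0 := le_antisymm (by linarith [norm_nonneg (z₁ - z₂)]) (norm_nonneg _)
    exact sub_eq_zero.1 (norm_eq_zero.1 h5)
  have hinj : Function.Injective F := by
    intro a b hab
    have hcl : IsClopen W := ⟨hWclosed, hWopen⟩
    have h1 : W = univ := hcl.eq_univ hWne
    have h2 : F b ∈ W := by rw [h1]; exact mem_univ _
    rw [hWm] at h2
    exact h2 a b hab rfl
  -- the inverse
  obtain ⟨e, he⟩ : ∃ e : ℂ ≃ₜ ℂ, (e : ℂ → ℂ) = F :=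
    ⟨(Equiv.ofBijective F ⟨hinj, hsurj⟩).toHomeomorphOfContinuousOpen hFcont hopen, rfl⟩
  have hsm : ContDiff ℝ ∞ (e.symm : ℂ → ℂ) := by
    refine e.contDiff_symm (f₀' := fun z => (fderiv ℝ F z).toContinuousLinearEquivOfDetNeZero (hJ z)) ?_ ?_
    · intro z
      rw [he]
      exact (hstr z).hasFDerivAt
    · rw [he]
      exact hFc
  refine ⟨e.symm, hsm, ?_, ?_⟩
  · intro z
    rw [← hFz, ← he]
    exact e.symm_apply_apply z
  · intro w
    rw [← hFz, ← he]
    exact e.apply_symm_apply w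

/-- PROOF. `F` is a local diffeomorphism (inverse function theorem, `det_fderiv`), `F z - z` is bounded and tends to 0, so `F` is proper and open; the range is open and closed, so `F` is onto. The set `W` of `w` with at most one
preimage is open (local injectivity and properness) and closed (if `w_n → w` and `z₁ ≠ z₂` are preimages of `w`, disjoint neighbourhoods of `z₁`, `z₂` have open images containing `w`). It contains all `w` with `|w|` large: preimages
`z` satisfy `|z - w| ≤ B` (`B` = bound of `cau ψ`), and on the convex set `ball w (2B)` one has `‖D (cau ψ)‖ ≤ 1/2` (`norm_beu_far` and `dzb (cau ψ) = ψ = 0`), so `F` is injective there. `ℂ` is connected. The inverse is smooth. -/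
theorem bij {ψ : ℂ → ℂ} (hψ : Cc (Metric.ball 0 1) ψ)
    (hJ : ∀ z, 0 < jac (fun z => z + cau ψ z) z) :
    ∃ G : ℂ → ℂ, ContDiff ℝ ∞ G ∧ (∀ z, G (z + cau ψ z) = z) ∧ ∀ w, G w + cau ψ (G w) = w := by
  have hψ' : Cc univ ψ := hψ.mono (subset_univ _)
  refine A18_main (cau_smooth hψ') (tendsto_cau hψ) ?_ ?_
  · have h1 : (fun z => ‖fderiv ℝ (cau ψ) z‖) = fun z => ‖beu ψ z‖ + ‖ψ z‖ := by
      funext z
      rw [norm_fderiv, dz_cau hψ', dzb_cau hψ']
      rfl
    rw [h1]
    have h2 : Tendsto ψ (cocompact ℂ) (𝓝 0) := hψ.cpt.is_zero_at_infty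
    have h3 := (tendsto_beu hψ).norm.add h2.norm
    simpa using h3
  · intro z
    rw [det_fderiv]
    exact (hJ z).ne'

end

end Pool.B2F
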