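import Pool.Agent.Lib.MP_b2f128_an.Base
import Pool.Agent.Lib.MP_b2f128_an.A00
import Pool.Agent.Lib.MP_b2f128_an.A02a
import Pool.Agent.Lib.MP_b2f128_an.A02b
import Pool.Agent.Lib.MP_b2f128_an.A04
import Pool.Agent.Lib.MP_b2f128_an.A06
import Pool.Agent.Lib.MP_b2f128_an.A08a
import Pool.Agent.Lib.MP_b2f128_an.A09
import Pool.Agent.Lib.MP_b2f128_an.A16

/-!
# MP_b2f128_an, part A19 (smooth Beltrami equation and area distortion)
-/

open Complex MeasureTheory Set Filter Topology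
open scoped ContDiff

namespace Pool.B2F

noncomputable section

theorem A19_alg {A t C K : ℝ} (hA : 0 ≤ A) (ht : 0 < t) (ht1 : t ≤ 1) (hC : 0 ≤ C)
    (h : t * A ≤ C + K * Real.sqrt A) : A ≤ (2 * C + K ^ 2) / t ^ 2 := by
  have hs : Real.sqrt A ^ 2 = A := Real.sq_sqrt hA
  have h1 : K * Real.sqrt A ≤ t * A / 2 + K ^ 2 / (2 * t) := by
    have h2 : 0 ≤ (t * Real.sqrt A - K) ^ 2 / (2 * t) := by positivity
    have h3 : (t * Real.sqrt A - K) ^ 2 / (2 * t) =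
        t * (Real.sqrt A ^ 2) / 2 + K ^ 2 / (2 * t) - K * Real.sqrt A := by
      field_simp
      ring
    rw [h3, hs] at h2
    linarith
  have h4 : t * A ≤ 2 * C + K ^ 2 / t := by
    have : K ^ 2 / (2 * t) = K ^ 2 / t / 2 := by
      field_simp
    rw [this] at h1
    linarith
  rw [le_div_iff₀ (by positivity)]
  have h5 : t * (t * A) ≤ t * (2 * C + K ^ 2 / t) := mul_le_mul_of_nonneg_left h4 ht.le
  have h6 : t * (2 * C + K ^ 2 / t) = t * (2 * C) + K ^ 2 := by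
    field_simp
  rw [h6] at h5
  nlinarith

/-- PROOF. Fix a smooth real cutoff `χ`, `0 ≤ χ ≤ 1`, `χ = 1` on `ball 0 2`, support in `ball 0 3`. `X := ∫_D J_F`, `J_F = |1 + S ψ|² - |ψ|²` (`ψ = psi μ l`). `X ≤ ∫ χ J_F = ∫ χ + 2 Re ∫ χ S ψ + ∫ χ |S ψ|² - ∫ χ |ψ|²
≤ ∫ χ + 2 Re ∫ χ S ψ` by `n2_beu`. `∫ χ S ψ = ∫ χ dz u = -∫ (dz χ) u`, `u = cau ψ`, and on the support of `dz χ` (`|z| ≥ 2`) `|u| ≤ ∫ |ψ|` (`norm_cau_far`). `∫ |ψ| ≤ √π n2 ψ` and `n2 ψ ^ 2 ≤ ∫_D |aa|² ≤ X / (1 - |l|²)`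
(as `J_F = |aa|² (1 - |l μ|²)`). So `X ≤ C + C (X / (1 - |l|²))^(1/2)`, hence `X ≤ C' / (1 - |l|)` and `∫_D |aa|² ≤ C'' / (1 - |l|)²`. -/
theorem energy : ∃ C0 : ℝ, 1 ≤ C0 ∧ ∀ μ : ℂ → ℂ, Cc (Metric.ball 0 1) μ → (∀ z, ‖μ z‖ < 1) →
    ∀ l : ℂ, ‖l‖ < 1 → ∫ z in Metric.ball (0 : ℂ) 1, ‖aa μ l z‖ ^ 2 ≤ C0 / (1 - ‖l‖) ^ 2 := by
  let χ : ContDiffBump (0 : ℂ) := ⟨2, 3, by norm_num, by norm_num⟩
  let χc : ℂ → ℂ := fun z => (χ z : ℂ)
  have hχs : ContDiff ℝ ∞ (fun z => χ z) := χ.contDiff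
  have hχc : Continuous (fun z => χ z) := hχs.continuous
  have hχsupp : HasCompactSupport (fun z => χ z) := χ.hasCompactSupport
  have hχ : Cc univ χc := ⟨Complex.ofRealCLM.contDiff.comp hχs,
    hχsupp.comp_left (g := fun x : ℝ => (x : ℂ)) Complex.ofReal_zero, subset_univ _⟩
  have hχ1 : ∀ z : ℂ, ‖z‖ ≤ 2 → χ z = 1 := fun z hz =>
    χ.one_of_mem_closedBall (by simpa [χ] using hz)
  have hχ0 : ∀ z : ℂ, 0 ≤ χ z := fun z => χ.nonneg
  have hχle : ∀ z : ℂ, χ z ≤ 1 := fun z => χ.le_one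
  set Cχ := ∫ z, χ z with hCχ
  have hCχ0 : 0 ≤ Cχ := integral_nonneg hχ0
  set K := ∫ z, ‖Pool.B2F.dz χc z‖ with hK
  have hK0 : 0 ≤ K := integral_nonneg fun z => norm_nonneg _
  refine ⟨max 1 (2 * Cχ + (2 * K * Real.sqrt Real.pi) ^ 2), le_max_left _ _, ?_⟩
  intro μ hμ h1 l hl
  have hψ : Cc (Metric.ball 0 1) (psi μ l) := (psi_cc hμ h1 hl.le).1
  have hψu : Cc univ (psi μ l) := hψ.mono (subset_univ _)
  have haa := fun z => aa_eq_beu hμ h1 hl.le z
  have haac := aa_continuous hμ h1 hl.le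
  set ψ := psi μ l with hψdef
  set S := beu ψ with hS
  have hψc : Continuous ψ := hψ.smooth.continuous
  have hu : ContDiff ℝ ∞ (cau ψ) := cau_smooth hψu
  have hdz : Pool.B2F.dz (cau ψ) = S := dz_cau hψu
  have hSc : Continuous S := by
    rw [← hdz]
    exact (dz_smooth hu).continuous
  set A := ∫ z in Metric.ball (0 : ℂ) 1, ‖aa μ l z‖ ^ 2 with hA
  have hA0 : 0 ≤ A := integral_nonneg fun z => sq_nonneg _
  -- pointwise facts
  have hψn : ∀ z, ‖ψ z‖ ≤ ‖l‖ * ‖aa μ l z‖ := by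
    intro z
    rw [hψdef, psi, norm_mul, norm_mul]
    refine mul_le_mul_of_nonneg_right ?_ (norm_nonneg _)
    calc ‖l‖ * ‖μ z‖ ≤ ‖l‖ * 1 := mul_le_mul_of_nonneg_left (h1 z).le (norm_nonneg _)
      _ = ‖l‖ := mul_one _
  have hψn' : ∀ z, ‖ψ z‖ ≤ ‖aa μ l z‖ := fun z =>
    (hψn z).trans (mul_le_of_le_one_left (norm_nonneg _) hl.le)
  have hJ0 : ∀ z, 0 ≤ ‖aa μ l z‖ ^ 2 - ‖ψ z‖ ^ 2 := fun z =>
    sub_nonneg.2 (pow_le_pow_left₀ (norm_nonneg _) (hψn' z) 2)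
  have hJ1 : ∀ z, (1 - ‖l‖) * ‖aa μ l z‖ ^ 2 ≤ ‖aa μ l z‖ ^ 2 - ‖ψ z‖ ^ 2 := by
    intro z
    have k1 : ‖ψ z‖ ^ 2 ≤ (‖l‖ * ‖aa μ l z‖) ^ 2 := pow_le_pow_left₀ (norm_nonneg _) (hψn z) 2
    have k2 : (‖l‖ * ‖aa μ l z‖) ^ 2 ≤ ‖l‖ * ‖aa μ l z‖ ^ 2 := by
      rw [mul_pow]
      refine mul_le_mul_of_nonneg_right ?_ (sq_nonneg _)
      nlinarith [norm_nonneg l]
    linarith
  have hJc : Continuous fun z => ‖aa μ l z‖ ^ 2 - ‖ψ z‖ ^ 2 :=
    (haac.norm.pow 2).sub (hψc.norm.pow 2)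
  have intB : ∀ g : ℂ → ℝ, Continuous g → IntegrableOn g (Metric.ball 0 1) := fun g hg =>
    (hg.continuousOn.integrableOn_compact (isCompact_closedBall (0 : ℂ) 1)).mono_set
      Metric.ball_subset_closedBall
  have intχ : ∀ g : ℂ → ℝ, Continuous g → Integrable fun z => χ z * g z := fun g hg =>
    (hχc.mul hg).integrable_of_hasCompactSupport hχsupp.mul_right
  have hlow : (1 - ‖l‖) * A ≤ ∫ z, χ z * (‖aa μ l z‖ ^ 2 - ‖ψ z‖ ^ 2) := by
    calc (1 - ‖l‖) * A = ∫ z in Metric.ball (0 : ℂ) 1, (1 - ‖l‖) * ‖aa μ l z‖ ^ 2 := by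
          rw [integral_const_mul]
      _ ≤ ∫ z in Metric.ball (0 : ℂ) 1, χ z * (‖aa μ l z‖ ^ 2 - ‖ψ z‖ ^ 2) := by
          refine setIntegral_mono_on (intB _ (continuous_const.mul (haac.norm.pow 2)))
            (intB _ (hχc.mul hJc)) Metric.isOpen_ball.measurableSet fun z hz => ?_
          rw [hχ1 z (by have := mem_ball_zero_iff.1 hz; linarith), one_mul]
          exact hJ1 z
      _ ≤ ∫ z, χ z * (‖aa μ l z‖ ^ 2 - ‖ψ z‖ ^ 2) :=
          setIntegral_le_integral (intχ _ hJc)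
            (Eventually.of_forall fun z => mul_nonneg (hχ0 z) (hJ0 z))
  have hexp : ∀ z, χ z * (‖aa μ l z‖ ^ 2 - ‖ψ z‖ ^ 2) =
      χ z * 1 + 2 * (χ z * (S z).re) + χ z * ‖S z‖ ^ 2 - χ z * ‖ψ z‖ ^ 2 := by
    intro z
    have k1 : ‖aa μ l z‖ ^ 2 = 1 + 2 * (S z).re + ‖S z‖ ^ 2 := by
      rw [haa z, ← Complex.normSq_eq_norm_sq, ← Complex.normSq_eq_norm_sq, Complex.normSq_apply,
        Complex.normSq_apply]
      simp only [Complex.add_re, Complex.one_re, Complex.add_im, Complex.one_im]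
      ring
    rw [k1]
    ring
  have hsplit : ∫ z, χ z * (‖aa μ l z‖ ^ 2 - ‖ψ z‖ ^ 2) =
      Cχ + 2 * (∫ z, χ z * (S z).re) + (∫ z, χ z * ‖S z‖ ^ 2) - ∫ z, χ z * ‖ψ z‖ ^ 2 := by
    simp only [hexp]
    have j1 : Integrable fun z => χ z * 1 := intχ _ continuous_const
    have j2 : Integrable fun z => 2 * (χ z * (S z).re) :=
      (intχ _ (Complex.continuous_re.comp hSc)).const_mul 2
    have j3 : Integrable fun z => χ z * ‖S z‖ ^ 2 := intχ _ (hSc.norm.pow 2)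
    have j4 : Integrable fun z => χ z * ‖ψ z‖ ^ 2 := intχ _ (hψc.norm.pow 2)
    have j12 : Integrable fun z => χ z * 1 + 2 * (χ z * (S z).re) := j1.add j2
    have j123 : Integrable fun z => χ z * 1 + 2 * (χ z * (S z).re) + χ z * ‖S z‖ ^ 2 := j12.add j3
    rw [integral_sub j123 j4, integral_add j12 j3, integral_add j1 j2, integral_const_mul]
    simp only [mul_one]
    rfl
  have hψsupp : ∀ z, z ∉ Metric.ball (0 : ℂ) 1 → ψ z = 0 := fun z hz =>
    image_eq_zero_of_notMem_tsupport fun h => hz (hψ.sub h)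
  have hSψ : ∫ z, χ z * ‖S z‖ ^ 2 ≤ ∫ z, χ z * ‖ψ z‖ ^ 2 := by
    have k1 : ∫ z, ‖S z‖ ^ 2 = ∫ z, ‖ψ z‖ ^ 2 := by
      have := n2_beu hψ
      have k2 := n2_sq univ (beu ψ)
      have k3 := n2_sq univ ψ
      rw [this, k3] at k2
      simpa using k2.symm
    have k4 : ∫ z, χ z * ‖ψ z‖ ^ 2 = ∫ z, ‖ψ z‖ ^ 2 := by
      refine integral_congr_ae (Eventually.of_forall fun z => ?_)
      show χ z * ‖ψ z‖ ^ 2 = ‖ψ z‖ ^ 2
      by_cases hz : z ∈ Metric.ball (0 : ℂ) 1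
      · rw [hχ1 z (by have := mem_ball_zero_iff.1 hz; linarith), one_mul]
      · rw [hψsupp z hz]
        simp
    rw [k4, ← k1]
    have k5 : Integrable fun z => ‖S z‖ ^ 2 := by
      have := (beu_memLp hψ univ).integrable_norm_pow (by norm_num)
      rw [Measure.restrict_univ] at this
      exact this
    refine integral_mono (intχ _ (hSc.norm.pow 2)) k5 fun z => ?_
    exact mul_le_of_le_one_left (sq_nonneg _) (hχle z)
  -- the linear term
  set B := ∫ z, ‖ψ z‖ with hB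
  have hB0 : 0 ≤ B := integral_nonneg fun z => norm_nonneg _
  have hlin : ∫ z, χ z * (S z).re ≤ K * B := by
    have k1 : Integrable fun z => S z * χc z :=
      (hSc.mul hχ.smooth.continuous).integrable_of_hasCompactSupport hχ.cpt.mul_left
    have k2 : ∫ z, χ z * (S z).re = (∫ z, S z * χc z).re := by
      refine Eq.trans ?_ (integral_re (𝕜 := ℂ) k1)
      refine integral_congr_ae (Eventually.of_forall fun z => ?_)
      show χ z * (S z).re = (S z * (χ z : ℂ)).re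
      rw [Complex.re_mul_ofReal, mul_comm]
    have k3 : ∫ z, cau ψ z * Pool.B2F.dz χc z = -∫ z, S z * χc z := by
      have := ibp_z hu hχ
      rw [hdz] at this
      exact this
    have k4 : ∫ z, S z * χc z = -∫ z, cau ψ z * Pool.B2F.dz χc z := by
      rw [k3, neg_neg]
    rw [k2, k4]
    refine (Complex.re_le_norm _).trans ?_
    rw [norm_neg]
    refine (norm_integral_le_integral_norm _).trans ?_
    rw [hK, ← integral_mul_const]
    have hdzχ : Continuous (Pool.B2F.dz χc) := (dz_smooth hχ.smooth).continuous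
    have hdzs : HasCompactSupport (Pool.B2F.dz χc) := (Cc.dz hχ).cpt
    refine integral_mono ?_ ?_ fun z => ?_
    · exact ((hu.continuous.mul hdzχ).integrable_of_hasCompactSupport hdzs.mul_left).norm
    · exact (hdzχ.integrable_of_hasCompactSupport hdzs).norm.mul_const _
    · show ‖cau ψ z * Pool.B2F.dz χc z‖ ≤ ‖Pool.B2F.dz χc z‖ * B
      rw [norm_mul, mul_comm]
      by_cases hz : 2 ≤ ‖z‖
      · refine mul_le_mul_of_nonneg_left ?_ (norm_nonneg _)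
        refine (norm_cau_far hψ hz).trans ?_
        exact div_le_self hB0 (by linarith)
      · have : Pool.B2F.dz χc z = 0 := by
          have hev : χc =ᶠ[𝓝 z] fun _ => 1 := by
            filter_upwards [Metric.isOpen_ball.mem_nhds
              (show z ∈ Metric.ball (0 : ℂ) 2 from mem_ball_zero_iff.2 (not_le.1 hz))] with w hw
            show ((χ w : ℝ) : ℂ) = 1
            rw [hχ1 w (mem_ball_zero_iff.1 hw).le, Complex.ofReal_one]
          rw [Pool.B2F.dz, hev.fderiv_eq]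
          simp
        rw [this]
        simp
  have hBA : B ≤ Real.sqrt Real.pi * Real.sqrt A := by
    have k1 : B = ∫ z in Metric.ball (0 : ℂ) 1, ‖ψ z‖ := by
      rw [hB]
      symm
      refine setIntegral_eq_integral_of_forall_compl_eq_zero fun z hz => ?_
      rw [hψsupp z hz, norm_zero]
    rw [k1]
    refine (integral_norm_le_n2 Metric.isOpen_ball.measurableSet measure_ball_lt_top.ne
      (hψ.memLp _)).trans ?_
    have k2 : (volume (Metric.ball (0 : ℂ) 1)).toReal = Real.pi := by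
      rw [Complex.volume_ball]
      simp
    rw [k2]
    refine mul_le_mul_of_nonneg_left ?_ (Real.sqrt_nonneg _)
    rw [n2]
    refine Real.sqrt_le_sqrt ?_
    refine integral_mono (intB _ (hψc.norm.pow 2)) (intB _ (haac.norm.pow 2)) fun z => ?_
    exact pow_le_pow_left₀ (norm_nonneg _) (hψn' z) 2
  have hfin : (1 - ‖l‖) * A ≤ Cχ + (2 * K * Real.sqrt Real.pi) * Real.sqrt A := by
    have k1 : K * B ≤ K * (Real.sqrt Real.pi * Real.sqrt A) := mul_le_mul_of_nonneg_left hBA hK0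
    rw [hsplit] at hlow
    linarith
  refine (A19_alg hA0 (by linarith) (by linarith [norm_nonneg l]) hCχ0 hfin).trans ?_
  exact div_le_div_of_nonneg_right (le_max_right _ _) (by positivity)

end

end Pool.B2F
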