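import Pool.Agent.Lib.MP_b2f128_an.Base
import Pool.Agent.Lib.MP_b2f128_an.A01a
import Pool.Agent.Lib.MP_b2f128_an.A01b
import Pool.Agent.Lib.MP_b2f128_an.A02b
import Pool.Agent.Lib.MP_b2f128_an.A06
import Pool.Agent.Lib.MP_b2f128_an.A08a
import Pool.Agent.Lib.MP_b2f128_an.A12
import Pool.Agent.Lib.MP_b2f128_an.A14
import Pool.Agent.Lib.MP_b2f128_an.A15
import Pool.Agent.Lib.MP_b2f128_an.A16

/-!
# MP_b2f128_an, part A20 (smooth Beltrami equation and area distortion)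
-/

open Complex MeasureTheory Set Filter Topology
open scoped ContDiff

namespace Pool.B2F

noncomputable section

theorem A20_bd {μ b : ℂ → ℂ} (hμ : Cc (Metric.ball 0 1) μ) (h1 : ∀ z, ‖μ z‖ < 1)
    (hb : Cc (Metric.ball 0 1) b) : ∃ C q : ℝ, 0 ≤ C ∧ 0 < q ∧ q < 1 ∧
      ∀ n z, ‖beu (itr μ b n) z‖ ≤ C * q ^ n := by
  obtain ⟨C, q, hC, hq0, hq1, h⟩ := itr_sup hμ h1 hb 1
  refine ⟨4 * C, q, by positivity, hq0, hq1, fun n z => ?_⟩
  have hn := itr_cc hμ hb n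
  have h2 : ∀ w, ‖Pool.B2F.dz (itr μ b n) w‖ ≤ C * q ^ n := by
    intro w
    refine le_trans ?_ (h n w)
    rw [norm_iteratedFDeriv_one,
      norm_fderiv]
    exact le_add_of_nonneg_right (norm_nonneg _)
  have h3 := norm_cau_le (Cc.dz hn) h2 z
  rw [beu]
  linarith

theorem A20_beu_lin (l : ℂ) {f g : ℂ → ℂ} (hf : Cc univ f) (hg : Cc univ g) (z : ℂ) :
    beu (fun z => l * f z + l * g z) z = l * beu f z + l * beu g z := by
  have hdf : ∀ w, DifferentiableAt ℝ f w := fun w =>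
    (hf.smooth.differentiable (by simp)).differentiableAt
  have hdg : ∀ w, DifferentiableAt ℝ g w := fun w =>
    (hg.smooth.differentiable (by simp)).differentiableAt
  have hdz : Pool.B2F.dz (fun z => l * f z + l * g z) =
      fun w => (l * Pool.B2F.dz f w) + (l * Pool.B2F.dz g w) := by
    funext w
    rw [dz_add ((hdf w).const_mul l) ((hdg w).const_mul l), dz_const_mul l (hdf w),
      dz_const_mul l (hdg w)]
  have c1 : Cc univ (fun w => l * Pool.B2F.dz f w) := (Cc.dz hf).mul_left contDiff_const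
  have c2 : Cc univ (fun w => l * Pool.B2F.dz g w) := (Cc.dz hg).mul_left contDiff_const
  rw [beu, hdz, cau_add c1 c2, cau_const_mul, cau_const_mul]
  rfl

theorem A20_rec {μ : ℂ → ℂ} (hμ : Cc (Metric.ball 0 1) μ) (h1 : ∀ z, ‖μ z‖ < 1) {l : ℂ}
    (hl : ‖l‖ ≤ 1) (n : ℕ) : itr μ (psi μ l) n =
      fun z => l * itr μ μ n z + l * itr μ (psi μ l) (n + 1) z := by
  have hψ := (psi_cc hμ h1 hl).1
  induction n with
  | zero =>
    funext z
    show psi μ l z = l * μ z + l * (μ z * beu (psi μ l) z)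
    rw [psi, aa_eq_beu hμ h1 hl z]
    ring
  | succ n ih =>
    funext z
    have c1 : Cc univ (itr μ μ n) := (itr_cc hμ hμ n).mono (subset_univ _)
    have c2 : Cc univ (itr μ (psi μ l) (n + 1)) := (itr_cc hμ hψ (n + 1)).mono (subset_univ _)
    show μ z * beu (itr μ (psi μ l) n) z =
      l * (μ z * beu (itr μ μ n) z) + l * (μ z * beu (itr μ (psi μ l) (n + 1)) z)
    rw [ih, A20_beu_lin l c1 c2]
    ring

theorem A20_fin {μ : ℂ → ℂ} (hμ : Cc (Metric.ball 0 1) μ) (h1 : ∀ z, ‖μ z‖ < 1) {l : ℂ}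
    (hl : ‖l‖ ≤ 1) (z : ℂ) (N : ℕ) : beu (psi μ l) z =
      (∑ n ∈ Finset.range N, l ^ (n + 1) * beu (itr μ μ n) z) +
        l ^ N * beu (itr μ (psi μ l) N) z := by
  have hψ := (psi_cc hμ h1 hl).1
  induction N with
  | zero =>
    rw [Finset.sum_range_zero, pow_zero, one_mul, zero_add]
    rfl
  | succ N ih =>
    have c1 : Cc univ (itr μ μ N) := (itr_cc hμ hμ N).mono (subset_univ _)
    have c2 : Cc univ (itr μ (psi μ l) (N + 1)) := (itr_cc hμ hψ (N + 1)).mono (subset_univ _)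
    have h2 : beu (itr μ (psi μ l) N) z =
        l * beu (itr μ μ N) z + l * beu (itr μ (psi μ l) (N + 1)) z := by
      rw [← A20_beu_lin l c1 c2, ← A20_rec hμ h1 hl N]
    rw [ih, h2, Finset.sum_range_succ]
    ring

/-- PROOF. bounds: `itr_sup` with `j = 1` and `norm_cau_le`. Both `psi μ l` and `P := ∑ l^(n+1) itr μ μ n` solve `P = l μ (1 + beu P)` in `Cc (ball 0 1)` (for `psi`: `aa_eq_beu`; for the series as in `beu_tau`), so the difference `d`
satisfies `d = l μ beu d`, `n2 d ≤ k n2 d`, `d = 0`. Then `aa = 1 + beu psi = 1 + ∑ ..`. -/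
theorem aa_series {μ : ℂ → ℂ} (hμ : Cc (Metric.ball 0 1) μ) (h1 : ∀ z, ‖μ z‖ < 1) :
    ∃ C q : ℝ, 0 ≤ C ∧ 0 < q ∧ q < 1 ∧ (∀ n z, ‖beu (itr μ μ n) z‖ ≤ C * q ^ n) ∧
      ∀ l : ℂ, ‖l‖ ≤ 1 → ∀ z, aa μ l z = 1 + ∑' n : ℕ, l ^ (n + 1) * beu (itr μ μ n) z := by
  obtain ⟨C, q, hC, hq0, hq1, h⟩ := A20_bd hμ h1 hμ
  refine ⟨C, q, hC, hq0, hq1, h, fun l hl z => ?_⟩
  have hψ := (psi_cc hμ h1 hl).1
  obtain ⟨C', q', hC', hq0', hq1', h'⟩ := A20_bd hμ h1 hψ
  rw [aa_eq_beu hμ h1 hl z]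
  congr 1
  have hsum : Summable fun n : ℕ => l ^ (n + 1) * beu (itr μ μ n) z := by
    refine Summable.of_norm_bounded ((summable_geometric_of_lt_one hq0.le hq1).mul_left C)
      fun n => ?_
    rw [norm_mul, norm_pow]
    calc ‖l‖ ^ (n + 1) * ‖beu (itr μ μ n) z‖ ≤ 1 * (C * q ^ n) :=
          mul_le_mul (pow_le_one₀ (norm_nonneg _) hl) (h n z) (norm_nonneg _) zero_le_one
      _ = C * q ^ n := one_mul _
  have hlim := hsum.hasSum.tendsto_sum_nat
  have hz : Tendsto (fun N : ℕ => l ^ N * beu (itr μ (psi μ l) N) z) atTop (𝓝 0) := by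
    refine squeeze_zero_norm (a := fun N => C' * q' ^ N) (fun N => ?_) ?_
    · rw [norm_mul, norm_pow]
      calc ‖l‖ ^ N * ‖beu (itr μ (psi μ l) N) z‖ ≤ 1 * (C' * q' ^ N) :=
            mul_le_mul (pow_le_one₀ (norm_nonneg _) hl) (h' N z) (norm_nonneg _) zero_le_one
        _ = C' * q' ^ N := one_mul _
    · simpa using (tendsto_pow_atTop_nhds_zero_of_lt_one hq0'.le hq1').const_mul C'
  have hadd := hlim.add hz
  rw [add_zero] at hadd
  have hconst : Tendsto (fun _ : ℕ => beu (psi μ l) z) atTop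
      (𝓝 (∑' n : ℕ, l ^ (n + 1) * beu (itr μ μ n) z)) := by
    refine hadd.congr fun N => ?_
    exact (A20_fin hμ h1 hl z N).symm
  exact tendsto_nhds_unique tendsto_const_nhds hconst

end

end Pool.B2F
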