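import Pool.Agent.Lib.MP_b2f128_an.Base
import Pool.Agent.Lib.MP_b2f128_an.A02b

/-!
# MP_b2f128_an, part A21 (smooth Beltrami equation and area distortion)
-/

open Complex MeasureTheory Set Filter Topology
open scoped ContDiff

namespace Pool.B2F

noncomputable section

theorem A21_diff {h : ℕ → ℂ} {C q : ℝ} (hq0 : 0 < q) (hq : q < 1) (hh : ∀ n, ‖h n‖ ≤ C * q ^ n)
    {r : ℝ} (hr : r ≤ 1) :
    DifferentiableOn ℂ (fun l : ℂ => ∑' n : ℕ, l ^ (n + 1) * h n) (Metric.ball 0 r) := by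
  refine differentiableOn_tsum_of_summable_norm (u := fun n => C * q ^ n) ?_ ?_ Metric.isOpen_ball ?_
  · exact (summable_geometric_of_lt_one hq0.le hq).mul_left C
  · intro n
    fun_prop
  · intro n z hz
    rw [mem_ball_zero_iff] at hz
    rw [norm_mul, norm_pow]
    calc ‖z‖ ^ (n + 1) * ‖h n‖ ≤ 1 * (C * q ^ n) := by
          apply mul_le_mul _ (hh n) (norm_nonneg _) zero_le_one
          exact pow_le_one₀ (norm_nonneg _) (hz.le.trans hr)
      _ = C * q ^ n := one_mul _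

theorem harnack {h : ℕ → ℂ} {C q : ℝ} (hq0 : 0 < q) (hq : q < 1) (hh : ∀ n, ‖h n‖ ≤ C * q ^ n)
    {u0 U r : ℝ} (hr0 : 0 < r) (hr : r ≤ 1)
    (hU : ∀ l : ℂ, ‖l‖ < r → u0 + (∑' n : ℕ, l ^ (n + 1) * h n).re ≤ U) {l : ℂ} (hl : ‖l‖ < r) :
    u0 + (∑' n : ℕ, l ^ (n + 1) * h n).re ≤
      (1 - (r - ‖l‖) / (r + ‖l‖)) * U + (r - ‖l‖) / (r + ‖l‖) * u0 := by
  have hH0 : (∑' n : ℕ, (0 : ℂ) ^ (n + 1) * h n) = 0 := by simp
  have hw0 : u0 ≤ U := by
    have := hU 0 (by simpa using hr0)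
    rw [hH0] at this
    simpa using this
  rcases hw0.eq_or_lt with heq | hlt
  · have := hU l hl
    subst heq
    linarith
  set H : ℂ → ℂ := fun l => ∑' n : ℕ, l ^ (n + 1) * h n with hHdef
  have hHd : DifferentiableOn ℂ H (Metric.ball 0 r) := A21_diff hq0 hq hh hr
  set d : ℝ := U - u0 with hd
  have hdpos : 0 < d := by simp only [hd]; linarith
  set w : ℂ → ℂ := fun z => (d : ℂ) - H z with hwdef
  have hwre : ∀ z ∈ Metric.ball (0 : ℂ) r, 0 ≤ (w z).re := by
    intro z hz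
    have := hU z (by simpa using hz)
    simp only [hwdef, Complex.sub_re, Complex.ofReal_re, hd]
    change u0 + (H z).re ≤ U at this
    linarith
  have hne : ∀ z ∈ Metric.ball (0 : ℂ) r, w z + (d : ℂ) ≠ 0 := by
    intro z hz h0
    have h1 := congrArg Complex.re h0
    have h2 := hwre z hz
    simp only [Complex.add_re, Complex.ofReal_re, Complex.zero_re] at h1
    linarith
  set f : ℂ → ℂ := fun z => (w z - (d : ℂ)) / (w z + (d : ℂ)) with hfdef
  have hfd : DifferentiableOn ℂ f (Metric.ball 0 r) := by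
    apply DifferentiableOn.div _ _ hne
    · exact ((differentiableOn_const _).sub hHd).sub (differentiableOn_const _)
    · exact ((differentiableOn_const _).sub hHd).add (differentiableOn_const _)
  have hf0 : f 0 = 0 := by
    simp only [hfdef, hwdef, hHdef]
    rw [hH0]; simp
  have key : ∀ z : ℂ, ‖z - (d : ℂ)‖ ^ 2 = ‖z + (d : ℂ)‖ ^ 2 - 4 * d * z.re := by
    intro z
    rw [← Complex.normSq_eq_norm_sq, ← Complex.normSq_eq_norm_sq, Complex.normSq_apply,
      Complex.normSq_apply]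
    simp only [Complex.sub_re, Complex.add_re, Complex.sub_im, Complex.add_im, Complex.ofReal_re,
      Complex.ofReal_im]
    ring
  have hmaps : MapsTo f (Metric.ball 0 r) (Metric.closedBall (f 0) 1) := by
    intro z hz
    rw [hf0, mem_closedBall_zero_iff]
    simp only [hfdef]
    rw [norm_div]
    have hpos : 0 < ‖w z + (d : ℂ)‖ := norm_pos_iff.mpr (hne z hz)
    rw [div_le_one hpos]
    apply le_of_sq_le_sq _ hpos.le
    rw [key]
    have := hwre z hz
    have h3 : 0 ≤ 4 * d * (w z).re := by positivity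
    linarith
  have hlb : l ∈ Metric.ball (0 : ℂ) r := by simpa using hl
  have hS := Complex.dist_le_div_mul_dist_of_mapsTo_ball hfd hmaps hlb
  rw [hf0, dist_zero_right, dist_zero_right] at hS
  have hpos : 0 < ‖w l + (d : ℂ)‖ := norm_pos_iff.mpr (hne l hlb)
  set s : ℝ := ‖l‖ / r with hs
  have hs0 : 0 ≤ s := by positivity
  have hs1 : s < 1 := (div_lt_one hr0).mpr hl
  have hS2 : ‖w l - (d : ℂ)‖ ≤ s * ‖w l + (d : ℂ)‖ := by
    have h1 : ‖f l‖ = ‖w l - (d : ℂ)‖ / ‖w l + (d : ℂ)‖ := by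
      simp only [hfdef]; rw [norm_div]
    rw [h1, div_le_iff₀ hpos] at hS
    calc ‖w l - (d : ℂ)‖ ≤ 1 / r * ‖l‖ * ‖w l + (d : ℂ)‖ := hS
      _ = s * ‖w l + (d : ℂ)‖ := by rw [hs]; ring
  set x : ℝ := (w l).re with hx
  have hx0 : 0 ≤ x := hwre l hlb
  have h4 : (x - d) ^ 2 ≤ s ^ 2 * (x + d) ^ 2 := by
    have h5 : ‖w l - (d : ℂ)‖ ^ 2 ≤ s ^ 2 * ‖w l + (d : ℂ)‖ ^ 2 := by
      rw [← mul_pow]
      exact pow_le_pow_left₀ (norm_nonneg _) hS2 2
    rw [← Complex.normSq_eq_norm_sq, ← Complex.normSq_eq_norm_sq, Complex.normSq_apply,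
      Complex.normSq_apply] at h5
    simp only [Complex.sub_re, Complex.add_re, Complex.sub_im, Complex.add_im, Complex.ofReal_re,
      Complex.ofReal_im] at h5
    rw [← hx] at h5
    have h6 : s ^ 2 ≤ 1 := pow_le_one₀ hs0 hs1.le
    have h7 : 0 ≤ (1 - s ^ 2) * ((w l).im * (w l).im) :=
      mul_nonneg (by linarith) (mul_self_nonneg _)
    nlinarith [h5, h7]
  have h8 : d - x ≤ s * (x + d) := by
    have h9 : |x - d| ≤ |s * (x + d)| := by
      apply sq_le_sq.mp
      rw [mul_pow]; exact h4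
    rw [abs_of_nonneg (by positivity : 0 ≤ s * (x + d))] at h9
    have := neg_abs_le (x - d)
    linarith
  have h10 : d * (1 - s) ≤ x * (1 + s) := by nlinarith
  have hxe : x = d - (H l).re := by
    simp only [hx, hwdef, Complex.sub_re, Complex.ofReal_re]
  have ht : (r - ‖l‖) / (r + ‖l‖) = (1 - s) / (1 + s) := by
    rw [hs]
    have : 0 ≤ ‖l‖ := norm_nonneg _
    field_simp
  rw [ht]
  have h11 : d * ((1 - s) / (1 + s)) ≤ x := by
    rw [← mul_div_assoc, div_le_iff₀ (by linarith)]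
    exact h10
  change u0 + (H l).re ≤ _
  have h12 : (H l).re = d - x := by linarith
  rw [h12]
  have : u0 + (d - x) ≤ u0 + (d - d * ((1 - s) / (1 + s))) := by linarith
  calc u0 + (d - x) ≤ u0 + (d - d * ((1 - s) / (1 + s))) := this
    _ = (1 - (1 - s) / (1 + s)) * U + (1 - s) / (1 + s) * u0 := by
        rw [hd]; ring

end

end Pool.B2F
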