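import Pool.Agent.Lib.MP_b2f128_an.Base
import Pool.Agent.Lib.MP_b2f128_an.A02b
import Pool.Agent.Lib.MP_b2f128_an.A06
import Pool.Agent.Lib.MP_b2f128_an.A15
import Pool.Agent.Lib.MP_b2f128_an.A17
import Pool.Agent.Lib.MP_b2f128_an.A19
import Pool.Agent.Lib.MP_b2f128_an.A21

/-!
# MP_b2f128_an, part A22 (smooth Beltrami equation and area distortion)
-/

open Complex MeasureTheory Set Filter Topology
open scoped ContDiff

namespace Pool.B2F

noncomputable section

theorem A22_int {F : Type*} [NormedAddCommGroup F] {g : ℂ → F} (hg : Continuous g) {E : Set ℂ}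
    (hE : E ⊆ Metric.ball 0 1) : IntegrableOn g E :=
  (hg.continuousOn.integrableOn_compact (isCompact_closedBall (0 : ℂ) 1)).mono_set
    (hE.trans Metric.ball_subset_closedBall)

/-- the two Jensen inequalities in the form `∫ P (log f - log P) ≤ log ∫ f` -/
theorem A22_jensen {E : Set ℂ} (hE : E ⊆ Metric.ball 0 1) {p q : ℂ → ℝ} (hp : Continuous p)
    (hq : Continuous q) (hP : ∫ z in E, Real.exp (p z) = 1) {Y : ℝ} (hY : 0 < Y)
    (hfY : ∫ z in E, Real.exp (q z) = Y) :
    ∫ z in E, Real.exp (p z) * (q z - p z) ≤ Real.log Y := by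
  have h1 : ∀ z, Real.exp (p z) * (q z - p z) ≤
      Real.exp (q z) / Y - Real.exp (p z) + Real.exp (p z) * Real.log Y := by
    intro z
    have ht : 0 < Real.exp (q z) / (Real.exp (p z) * Y) := by positivity
    have h2 := Real.log_le_sub_one_of_pos ht
    rw [Real.log_div (Real.exp_pos _).ne' (by positivity),
      Real.log_mul (Real.exp_pos _).ne' hY.ne', Real.log_exp, Real.log_exp] at h2
    have h3 : Real.exp (p z) * (q z - (p z + Real.log Y)) ≤
        Real.exp (p z) * (Real.exp (q z) / (Real.exp (p z) * Y) - 1) :=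
      mul_le_mul_of_nonneg_left h2 (Real.exp_pos _).le
    have h4 : Real.exp (p z) * (Real.exp (q z) / (Real.exp (p z) * Y) - 1) =
        Real.exp (q z) / Y - Real.exp (p z) := by
      have := (Real.exp_pos (p z)).ne'
      field_simp
    rw [h4] at h3
    linarith
  have i1 : IntegrableOn (fun z => Real.exp (p z) * (q z - p z)) E :=
    A22_int ((Real.continuous_exp.comp hp).mul (hq.sub hp)) hE
  have i2 : IntegrableOn (fun z => Real.exp (q z) / Y) E :=
    A22_int ((Real.continuous_exp.comp hq).div_const _) hE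
  have i3 : IntegrableOn (fun z => Real.exp (p z)) E := A22_int (Real.continuous_exp.comp hp) hE
  have i4 : IntegrableOn (fun z => Real.exp (p z) * Real.log Y) E :=
    A22_int ((Real.continuous_exp.comp hp).mul continuous_const) hE
  have h5 : ∫ z in E, Real.exp (p z) * (q z - p z) ≤
      ∫ z in E, (Real.exp (q z) / Y - Real.exp (p z) + Real.exp (p z) * Real.log Y) :=
    integral_mono i1 ((i2.sub i3).add i4) h1
  refine h5.trans (le_of_eq ?_)
  have i23 : IntegrableOn (fun z => Real.exp (q z) / Y - Real.exp (p z)) E := i2.sub i3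
  rw [integral_add i23 i4, integral_sub i2 i3, integral_div, integral_mul_const, hP, hfY,
    div_self hY.ne']
  ring

theorem A22_norm_sq (μ : ℂ → ℂ) (l z : ℂ) :
    ‖aa μ l z‖ ^ 2 = Real.exp (2 * (sgm μ l z).re) := by
  rw [aa, Complex.norm_exp, ← Real.exp_nat_mul]
  norm_num

/-- PROOF. `C1` = constant of `energy`. Fix `l₀`, `|l₀| ≤ ρ`, and `E` with `0 < |E|` (otherwise trivial). `P = |aa μ l₀|² / ∫_E |aa μ l₀|²`, a probability density on `E`, `H l = ∫_E P (2 sgm μ l - log P)`. By `sgm_series`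
`H l = u0 + ∑ l^(n+1) h n` with `u0 = -∫_E P log P ≤ log |E|` (Jensen), `h n = 2 ∫_E P c n`. For `|l| < r`: `Re H l = ∫_E P log (|aa μ l|² / P) ≤ log ∫_E |aa μ l|² ≤ U := log (C1 / (1 - r)²)` (Jensen, `energy`). `harnack` at `l₀`:
`log ∫_E |aa μ l₀|² = Re H l₀ ≤ (1 - θ) U + θ log |E|`, `θ = (r - |l₀|) / (r + |l₀|) ≥ (r - ρ)/(r + ρ)`; `|E| ≤ π` (so `|E|^θ ≤ π |E|^((r-ρ)/(r+ρ))`), `C0 = π C1`. -/
theorem area_dist : ∃ C0 : ℝ, 1 ≤ C0 ∧ ∀ μ : ℂ → ℂ, Cc (Metric.ball 0 1) μ → (∀ z, ‖μ z‖ < 1) →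
    ∀ ρ r : ℝ, 0 ≤ ρ → ρ < r → r < 1 → ∀ l : ℂ, ‖l‖ ≤ ρ → ∀ E : Set ℂ, MeasurableSet E →
    E ⊆ Metric.ball 0 1 → ∫ z in E, ‖aa μ l z‖ ^ 2 ≤
      C0 / (1 - r) ^ 2 * (volume E).toReal ^ ((r - ρ) / (r + ρ)) := by
  obtain ⟨C1, hC1, hen⟩ := energy
  refine ⟨Real.pi * C1, by nlinarith [Real.pi_gt_three], ?_⟩
  intro μ hμ h1 ρ r hρ hρr hr l₀ hl₀ E hE hEs
  have hr0 : 0 < r := hρ.trans_lt hρr
  have hl₀r : ‖l₀‖ < r := hl₀.trans_lt hρr
  have hl₀1 : ‖l₀‖ ≤ 1 := (hl₀r.trans hr).le
  have hvfin : volume E ≠ ⊤ := ((measure_mono hEs).trans_lt measure_ball_lt_top).ne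
  have h1r : 0 < 1 - r := by linarith
  by_cases hv0 : volume E = 0
  · rw [Measure.restrict_eq_zero.2 hv0, integral_zero_measure]
    positivity
  have hv : 0 < (volume E).toReal := ENNReal.toReal_pos hv0 hvfin
  have hvpi : (volume E).toReal ≤ Real.pi := by
    have h2 : (volume E).toReal ≤ (volume (Metric.ball (0 : ℂ) 1)).toReal :=
      ENNReal.toReal_mono measure_ball_lt_top.ne (measure_mono hEs)
    rw [Complex.volume_ball] at h2
    simpa using h2
  set v := (volume E).toReal with hvdef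
  -- continuity
  have hs : ∀ l : ℂ, ‖l‖ ≤ 1 → Continuous (sgm μ l) := fun l hl =>
    (cau_smooth ((tau_cc hμ h1 hl).mono (subset_univ _))).continuous
  have hq : ∀ l : ℂ, ‖l‖ ≤ 1 → Continuous (fun z => 2 * (sgm μ l z).re) := fun l hl =>
    continuous_const.mul (Complex.continuous_re.comp (hs l hl))
  have hpos : ∀ l : ℂ, ‖l‖ ≤ 1 → 0 < ∫ z in E, Real.exp (2 * (sgm μ l z).re) := by
    intro l hl
    have i1 : IntegrableOn (fun z => Real.exp (2 * (sgm μ l z).re)) E :=
      A22_int (Real.continuous_exp.comp (hq l hl)) hEs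
    rw [integral_pos_iff_support_of_nonneg (fun z => (Real.exp_pos _).le) i1]
    have : Function.support (fun z => Real.exp (2 * (sgm μ l z).re)) = univ := by
      ext z
      simp [(Real.exp_pos _).ne']
    rw [this, Measure.restrict_apply MeasurableSet.univ, univ_inter]
    exact pos_iff_ne_zero.2 hv0
  set X := ∫ z in E, Real.exp (2 * (sgm μ l₀ z).re) with hX
  have hX0 : 0 < X := hpos l₀ hl₀1
  -- the density
  let p : ℂ → ℝ := fun z => 2 * (sgm μ l₀ z).re - Real.log X
  have hp : Continuous p := (hq l₀ hl₀1).sub continuous_const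
  have hpe : ∀ z, Real.exp (p z) = Real.exp (2 * (sgm μ l₀ z).re) / X := by
    intro z
    simp only [p]
    rw [Real.exp_sub, Real.exp_log hX0]
  have hP : ∫ z in E, Real.exp (p z) = 1 := by
    simp only [hpe]
    rw [integral_div, ← hX, div_self hX0.ne']
  have hpint : IntegrableOn (fun z => Real.exp (p z)) E := A22_int (Real.continuous_exp.comp hp) hEs
  -- the constant term
  set u0 := ∫ z in E, Real.exp (p z) * (0 - p z) with hu0
  have hu0v : u0 ≤ Real.log v := by
    refine A22_jensen hEs hp continuous_const hP hv ?_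
    simp only [Real.exp_zero]
    rw [setIntegral_const, smul_eq_mul, mul_one]
    rfl
  -- the series
  obtain ⟨c, C, q, hC, hq0, hq1, hcc, hcb, hser⟩ := sgm_series hμ h1
  let h : ℕ → ℂ := fun n => ∫ z in E, (Real.exp (p z) : ℂ) * (2 * c n z)
  have hcont : ∀ n, Continuous (fun z => (Real.exp (p z) : ℂ) * (2 * c n z)) := fun n =>
    (Complex.continuous_ofReal.comp (Real.continuous_exp.comp hp)).mul
      (continuous_const.mul (hcc n))
  have hnb : ∀ n z, ‖(Real.exp (p z) : ℂ) * (2 * c n z)‖ ≤ Real.exp (p z) * (2 * C * q ^ n) := by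
    intro n z
    rw [norm_mul, norm_mul, Complex.norm_real, Real.norm_of_nonneg (Real.exp_pos _).le,
      Complex.norm_ofNat, mul_assoc 2 C]
    exact mul_le_mul_of_nonneg_left (mul_le_mul_of_nonneg_left (hcb n z) (by norm_num))
      (Real.exp_pos _).le
  have hnint : ∀ n, ∫ z in E, ‖(Real.exp (p z) : ℂ) * (2 * c n z)‖ ≤ 2 * C * q ^ n := by
    intro n
    calc ∫ z in E, ‖(Real.exp (p z) : ℂ) * (2 * c n z)‖
        ≤ ∫ z in E, Real.exp (p z) * (2 * C * q ^ n) :=
          integral_mono (A22_int (hcont n).norm hEs)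
            (A22_int ((Real.continuous_exp.comp hp).mul continuous_const) hEs) (hnb n)
      _ = 2 * C * q ^ n := by rw [integral_mul_const, hP, one_mul]
  have hhb : ∀ n, ‖h n‖ ≤ 2 * C * q ^ n := fun n =>
    (norm_integral_le_integral_norm _).trans (hnint n)
  have hsum : ∀ l : ℂ, ‖l‖ ≤ 1 → ∑' n : ℕ, l ^ (n + 1) * h n =
      ∫ z in E, (Real.exp (p z) : ℂ) * (2 * sgm μ l z) := by
    intro l hl
    have k1 : ∀ n, Integrable (fun z => l ^ (n + 1) * ((Real.exp (p z) : ℂ) * (2 * c n z)))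
        (volume.restrict E) := fun n => A22_int (continuous_const.mul (hcont n)) hEs
    have k2 : Summable fun n => ∫ z in E, ‖l ^ (n + 1) * ((Real.exp (p z) : ℂ) * (2 * c n z))‖ := by
      refine Summable.of_nonneg_of_le (fun n => integral_nonneg fun z => norm_nonneg _) (fun n => ?_)
        ((summable_geometric_of_lt_one hq0.le hq1).mul_left (2 * C))
      simp only [norm_mul (l ^ (_ + 1))]
      rw [integral_const_mul]
      calc ‖l ^ (n + 1)‖ * ∫ z in E, ‖(Real.exp (p z) : ℂ) * (2 * c n z)‖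
          ≤ 1 * (2 * C * q ^ n) := by
            refine mul_le_mul ?_ (hnint n) (integral_nonneg fun z => norm_nonneg _) zero_le_one
            rw [norm_pow]
            exact pow_le_one₀ (norm_nonneg _) hl
        _ = 2 * C * q ^ n := one_mul _
    have k3 := integral_tsum_of_summable_integral_norm k1 k2
    have k4 : ∀ n, ∫ z in E, l ^ (n + 1) * ((Real.exp (p z) : ℂ) * (2 * c n z)) =
        l ^ (n + 1) * h n := fun n => integral_const_mul _ _
    simp only [k4] at k3
    rw [k3]
    refine integral_congr_ae (Eventually.of_forall fun z => ?_)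
    show ∑' n, l ^ (n + 1) * ((Real.exp (p z) : ℂ) * (2 * c n z)) =
      (Real.exp (p z) : ℂ) * (2 * sgm μ l z)
    rw [hser l hl z, ← tsum_mul_left, ← tsum_mul_left]
    exact tsum_congr fun n => by ring
  have hre : ∀ l : ℂ, ‖l‖ ≤ 1 → u0 + (∑' n : ℕ, l ^ (n + 1) * h n).re =
      ∫ z in E, Real.exp (p z) * (2 * (sgm μ l z).re - p z) := by
    intro l hl
    rw [hsum l hl]
    have k1 : IntegrableOn (fun z => (Real.exp (p z) : ℂ) * (2 * sgm μ l z)) E :=
      A22_int ((Complex.continuous_ofReal.comp (Real.continuous_exp.comp hp)).mul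
        (continuous_const.mul (hs l hl))) hEs
    have k2 : (∫ z in E, (Real.exp (p z) : ℂ) * (2 * sgm μ l z)).re =
        ∫ z in E, Real.exp (p z) * (2 * (sgm μ l z).re) := by
      refine (integral_re (𝕜 := ℂ) k1).symm.trans ?_
      refine integral_congr_ae (Eventually.of_forall fun z => ?_)
      show ((Real.exp (p z) : ℂ) * (2 * sgm μ l z)).re = Real.exp (p z) * (2 * (sgm μ l z).re)
      rw [Complex.re_ofReal_mul]
      simp
    rw [k2, hu0, ← integral_add]
    · refine integral_congr_ae (Eventually.of_forall fun z => ?_)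
      show Real.exp (p z) * (0 - p z) + Real.exp (p z) * (2 * (sgm μ l z).re) = _
      ring
    · exact A22_int ((Real.continuous_exp.comp hp).mul (continuous_const.sub hp)) hEs
    · exact A22_int ((Real.continuous_exp.comp hp).mul (hq l hl)) hEs
  set U := Real.log (C1 / (1 - r) ^ 2) with hU
  have hC1r : 1 ≤ C1 / (1 - r) ^ 2 := by
    rw [le_div_iff₀ (by positivity), one_mul]
    nlinarith
  have hU0 : 0 ≤ U := Real.log_nonneg hC1r
  have hUb : ∀ l : ℂ, ‖l‖ < r → u0 + (∑' n : ℕ, l ^ (n + 1) * h n).re ≤ U := by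
    intro l hl
    have hl1 : ‖l‖ < 1 := hl.trans hr
    rw [hre l hl1.le]
    refine (A22_jensen hEs hp (hq l hl1.le) hP (hpos l hl1.le) rfl).trans ?_
    refine Real.log_le_log (hpos l hl1.le) ?_
    have k1 : ∫ z in E, Real.exp (2 * (sgm μ l z).re) ≤
        ∫ z in Metric.ball (0 : ℂ) 1, ‖aa μ l z‖ ^ 2 := by
      simp only [A22_norm_sq]
      refine setIntegral_mono_set (A22_int (Real.continuous_exp.comp (hq l hl1.le)) subset_rfl)
        (Eventually.of_forall fun z => (Real.exp_pos _).le) hEs.eventuallyLE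
    refine k1.trans ((hen μ hμ h1 l hl1).trans ?_)
    have : (1 - r) ^ 2 ≤ (1 - ‖l‖) ^ 2 := pow_le_pow_left₀ h1r.le (by linarith) 2
    exact div_le_div_of_nonneg_left (by linarith) (by positivity) this
  have hmain := harnack (u0 := u0) (U := U) hq0 hq1 hhb hr0 hr.le hUb hl₀r
  rw [hre l₀ hl₀1] at hmain
  have hval : ∫ z in E, Real.exp (p z) * (2 * (sgm μ l₀ z).re - p z) = Real.log X := by
    have : ∀ z, Real.exp (p z) * (2 * (sgm μ l₀ z).re - p z) = Real.exp (p z) * Real.log X := by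
      intro z
      simp only [p]
      ring
    simp only [this]
    rw [integral_mul_const, hP, one_mul]
  rw [hval] at hmain
  set θ := (r - ‖l₀‖) / (r + ‖l₀‖) with hθ
  set θ1 := (r - ρ) / (r + ρ) with hθ1
  have hl0n : 0 ≤ ‖l₀‖ := norm_nonneg _
  have hθ0 : 0 ≤ θ := div_nonneg (by linarith) (by linarith)
  have hθle : θ ≤ 1 := by
    rw [hθ, div_le_one (by linarith)]
    linarith
  have hθθ : θ1 ≤ θ := by
    rw [hθ, hθ1, div_le_div_iff₀ (by linarith) (by linarith)]
    nlinarith
  have hθ10 : 0 ≤ θ1 := div_nonneg (by linarith) (by linarith)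
  have hlog : Real.log X ≤ U + θ * Real.log v := by
    have k1 : θ * u0 ≤ θ * Real.log v := mul_le_mul_of_nonneg_left hu0v hθ0
    have k2 : (1 - θ) * U ≤ U := by nlinarith
    linarith
  have hlogv : θ * Real.log v ≤ Real.log Real.pi + θ1 * Real.log v := by
    have hpi1 : 0 ≤ Real.log Real.pi := Real.log_nonneg (by linarith [Real.pi_gt_three])
    rcases le_total 0 (Real.log v) with hlv | hlv
    · have k1 : Real.log v ≤ Real.log Real.pi := Real.log_le_log hv hvpi
      nlinarith
    · nlinarith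
  have hfin : X ≤ Real.exp (U + (Real.log Real.pi + θ1 * Real.log v)) := by
    rw [← Real.log_le_iff_le_exp hX0]
    linarith
  have hgoal : Real.exp (U + (Real.log Real.pi + θ1 * Real.log v)) =
      Real.pi * C1 / (1 - r) ^ 2 * v ^ θ1 := by
    rw [Real.exp_add, Real.exp_add, hU, Real.exp_log (by positivity), Real.exp_log Real.pi_pos,
      Real.rpow_def_of_pos hv, mul_comm θ1]
    ring
  simp only [A22_norm_sq]
  rw [← hX, ← hgoal]
  exact hfin

end

end Pool.B2F
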