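import Pool.Agent.Lib.MP_b2f128_an.Base
import Pool.Agent.Lib.MP_b2f128_an.A00
import Pool.Agent.Lib.MP_b2f128_an.A02b
import Pool.Agent.Lib.MP_b2f128_an.A06
import Pool.Agent.Lib.MP_b2f128_an.A12
import Pool.Agent.Lib.MP_b2f128_an.A20
import Pool.Agent.Lib.MP_b2f128_an.A22

/-!
# MP_b2f128_an, part A23 (smooth Beltrami equation and area distortion)
-/

open Complex MeasureTheory Set Filter Topology
open scoped ContDiff

namespace Pool.B2F

noncomputable section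

theorem A23_exp (k : ℤ) (hk : k ≠ 0) : ∫ t in (0 : ℝ)..(2 * Real.pi), Complex.exp (((k : ℂ) * I) * t) = 0 := by
  have hk' : (k : ℂ) * I ≠ 0 := mul_ne_zero (by exact_mod_cast hk) I_ne_zero
  rw [integral_exp_mul_complex hk']
  have h1 : (k : ℂ) * I * ((2 * Real.pi : ℝ) : ℂ) = k * (2 * Real.pi * I) := by push_cast; ring
  rw [h1, Complex.exp_int_mul_two_pi_mul_I]
  simp

/-- the value of the generating function -/
theorem A23_coef {S : ℕ → ℂ} {C q ρ : ℝ} (hq0 : 0 < q) (hq : q < 1) (hS : ∀ n, ‖S n‖ ≤ C * q ^ n) (hρ : 0 < ρ)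
    (hρ1 : ρ ≤ 1) (n : ℕ) {f : ℝ → ℂ}
    (hf2 : ∀ t : ℝ, f t = 1 + ∑' m : ℕ, ((ρ : ℂ) * Complex.exp (t * I)) ^ (m + 1) * S m) :
    ∫ t in (0 : ℝ)..(2 * Real.pi), f t * Complex.exp (((-(n + 1 : ℤ) : ℤ) : ℂ) * I * t) =
      2 * Real.pi * (ρ ^ (n + 1) * S n) := by
  set F : ℕ → ℝ → ℂ := fun m t => (ρ : ℂ) ^ (m + 1) * S m * Complex.exp ((((m : ℤ) - n : ℤ) : ℂ) * I * t) with hF
  have hF0 : ∀ (m : ℕ) (t : ℝ), ((ρ : ℂ) * Complex.exp (t * I)) ^ (m + 1) * S m *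
      Complex.exp (((-(n + 1 : ℤ) : ℤ) : ℂ) * I * t) = F m t := by
    intro m t
    simp only [hF]
    rw [mul_pow, ← Complex.exp_nat_mul]
    have e1 : Complex.exp ((((m : ℤ) - n : ℤ) : ℂ) * I * t) =
        Complex.exp (((m + 1 : ℕ) : ℂ) * (t * I)) * Complex.exp (((-(n + 1 : ℤ) : ℤ) : ℂ) * I * t) := by
      rw [← Complex.exp_add]
      congr 1
      push_cast
      ring
    rw [e1]
    ring
  have hnorm : ∀ (k : ℤ) (t : ℝ), ‖Complex.exp ((k : ℂ) * I * t)‖ = 1 := by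
    intro k t
    have : (k : ℂ) * I * t = ((k * t : ℝ) : ℂ) * I := by push_cast; ring
    rw [this]
    exact Complex.norm_exp_ofReal_mul_I _
  have hFb : ∀ m t, ‖F m t‖ ≤ C * q ^ m := by
    intro m t
    simp only [hF]
    rw [norm_mul, hnorm, mul_one, norm_mul, norm_pow, Complex.norm_real, Real.norm_of_nonneg hρ.le]
    calc ρ ^ (m + 1) * ‖S m‖ ≤ 1 * ‖S m‖ :=
          mul_le_mul_of_nonneg_right (pow_le_one₀ hρ.le hρ1) (norm_nonneg _)
      _ ≤ C * q ^ m := by rw [one_mul]; exact hS m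
  have hsum : Summable (fun m : ℕ => C * q ^ m) := (summable_geometric_of_lt_one hq0.le hq).mul_left C
  have hFs : ∀ t, Summable (fun m => F m t) := fun t => Summable.of_norm_bounded hsum (fun m => hFb m t)
  have hFc : ∀ m, Continuous (F m) := by
    intro m
    simp only [hF]
    fun_prop
  have h1 : ∀ t : ℝ, f t * Complex.exp (((-(n + 1 : ℤ) : ℤ) : ℂ) * I * t) =
      Complex.exp (((-(n + 1 : ℤ) : ℤ) : ℂ) * I * t) + ∑' m, F m t := by
    intro t
    rw [hf2, add_mul, one_mul, ← tsum_mul_right]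
    congr 1
    exact tsum_congr fun m => hF0 m t
  have hGc : Continuous (fun t => ∑' m, F m t) := continuous_tsum hFc hsum hFb
  have hEc : Continuous (fun t : ℝ => Complex.exp (((-(n + 1 : ℤ) : ℤ) : ℂ) * I * t)) := by fun_prop
  rw [intervalIntegral.integral_congr (g := fun t => Complex.exp (((-(n + 1 : ℤ) : ℤ) : ℂ) * I * t) + ∑' m, F m t)
    (fun t _ => h1 t), intervalIntegral.integral_add (hEc.intervalIntegrable _ _) (hGc.intervalIntegrable _ _),
    A23_exp _ (by omega), zero_add]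
  have h2 : HasSum (fun m => ∫ t in (0 : ℝ)..(2 * Real.pi), F m t) (∫ t in (0 : ℝ)..(2 * Real.pi), ∑' m, F m t) := by
    refine intervalIntegral.hasSum_integral_of_dominated_convergence (fun m _ => C * q ^ m)
      (fun m => (hFc m).aestronglyMeasurable) (fun m => ?_) ?_ ?_ ?_
    · exact Eventually.of_forall fun t _ => hFb m t
    · exact Eventually.of_forall fun t _ => hsum
    · exact continuous_const.intervalIntegrable _ _
    · exact Eventually.of_forall fun t _ => (hFs t).hasSum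
  have h3 : HasSum (fun m => ∫ t in (0 : ℝ)..(2 * Real.pi), F m t) (∫ t in (0 : ℝ)..(2 * Real.pi), F n t) := by
    refine hasSum_single n (fun m hm => ?_)
    simp only [hF]
    rw [intervalIntegral.integral_const_mul, A23_exp _ (by omega), mul_zero]
  rw [h2.unique h3]
  simp only [hF]
  rw [intervalIntegral.integral_const_mul]
  have h4 : ∀ t : ℝ, Complex.exp ((((n : ℤ) - n : ℤ) : ℂ) * I * t) = 1 := by
    intro t
    simp
  rw [intervalIntegral.integral_congr (g := fun _ => (1 : ℂ)) (fun t _ => h4 t)]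
  simp
  ring

theorem A23_cs {f g : ℝ → ℂ} (hf : Continuous f) (hg1 : ∀ t, ‖g t‖ = 1) :
    ‖∫ t in (0 : ℝ)..(2 * Real.pi), f t * g t‖ ^ 2 ≤ 2 * Real.pi * ∫ t in (0 : ℝ)..(2 * Real.pi), ‖f t‖ ^ 2 := by
  have hpi : 0 < 2 * Real.pi := by positivity
  have h1 : ‖∫ t in (0 : ℝ)..(2 * Real.pi), f t * g t‖ ≤ ∫ t in (0 : ℝ)..(2 * Real.pi), ‖f t‖ := by
    refine (intervalIntegral.norm_integral_le_integral_norm hpi.le).trans (le_of_eq ?_)
    refine intervalIntegral.integral_congr fun t _ => ?_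
    simp only [norm_mul, hg1, mul_one]
  set A := ∫ t in (0 : ℝ)..(2 * Real.pi), ‖f t‖ with hA
  set B := ∫ t in (0 : ℝ)..(2 * Real.pi), ‖f t‖ ^ 2 with hB
  have h2 : 0 ≤ ∫ t in (0 : ℝ)..(2 * Real.pi), (‖f t‖ - A / (2 * Real.pi)) ^ 2 :=
    intervalIntegral.integral_nonneg hpi.le fun t _ => sq_nonneg _
  have h3 : ∫ t in (0 : ℝ)..(2 * Real.pi), (‖f t‖ - A / (2 * Real.pi)) ^ 2 = B - A ^ 2 / (2 * Real.pi) := by
    have e1 : ∀ t : ℝ, (‖f t‖ - A / (2 * Real.pi)) ^ 2 =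
        ‖f t‖ ^ 2 - (2 * (A / (2 * Real.pi))) * ‖f t‖ + (A / (2 * Real.pi)) ^ 2 := fun t => by ring
    rw [intervalIntegral.integral_congr (g := fun t => ‖f t‖ ^ 2 - (2 * (A / (2 * Real.pi))) * ‖f t‖ +
      (A / (2 * Real.pi)) ^ 2) (fun t _ => e1 t), intervalIntegral.integral_add, intervalIntegral.integral_sub,
      intervalIntegral.integral_const_mul, intervalIntegral.integral_const, ← hA, ← hB]
    · simp only [sub_zero, smul_eq_mul]
      field_simp
      ring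
    · exact (hf.norm.pow 2).intervalIntegrable _ _
    · exact (continuous_const.mul hf.norm).intervalIntegrable _ _
    · exact ((hf.norm.pow 2).sub (continuous_const.mul hf.norm)).intervalIntegrable _ _
    · exact continuous_const.intervalIntegrable _ _
  rw [h3] at h2
  have h4 : A ^ 2 ≤ 2 * Real.pi * B := by
    have h5 : A ^ 2 / (2 * Real.pi) ≤ B := by linarith
    rw [div_le_iff₀ hpi] at h5
    linarith
  calc ‖∫ t in (0 : ℝ)..(2 * Real.pi), f t * g t‖ ^ 2 ≤ A ^ 2 := pow_le_pow_left₀ (norm_nonneg _) h1 2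
    _ ≤ 2 * Real.pi * B := h4

/-- PROOF. For `g ∈ L²(E)` with `n2 E g ≤ 1` (e.g. `g = conj (beu (itr μ μ n)) / norm`) the function `l ↦ ∫_E (aa μ l z) g z` is a power series in `l` (`aa_series`) with coefficient `∫_E beu (itr μ μ n) g` at `l^(n+1)`, bounded on
`|l| = ρ` by `n2 E (aa μ l) ≤ (bound of area_dist)^(1/2)`. Cauchy's estimate of the coefficient. -/
theorem coef_le : ∃ C0 : ℝ, 1 ≤ C0 ∧ ∀ μ : ℂ → ℂ, Cc (Metric.ball 0 1) μ → (∀ z, ‖μ z‖ < 1) →
    ∀ ρ r : ℝ, 0 < ρ → ρ < r → r < 1 → ∀ E : Set ℂ, MeasurableSet E → E ⊆ Metric.ball 0 1 →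
    ∀ n : ℕ, n2 E (beu (itr μ μ n)) ^ 2 ≤
      (1 / ρ) ^ (2 * (n + 1)) * (C0 / (1 - r) ^ 2) * (volume E).toReal ^ ((r - ρ) / (r + ρ)) := by
  obtain ⟨C0, hC0, had⟩ := area_dist
  refine ⟨C0, hC0, ?_⟩
  intro μ hμ h1 ρ r hρ hρr hr E hE hE1 n
  obtain ⟨C, q, hC, hq0, hq, hSb, hser⟩ := aa_series hμ h1
  have hpi : 0 < 2 * Real.pi := by positivity
  set S : ℕ → ℂ → ℂ := fun m => beu (itr μ μ m) with hS
  have hSc : ∀ m, Continuous (S m) := fun m =>
    (cau_smooth ((itr_cc hμ hμ m).dz.mono (subset_univ _))).continuous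
  set f : ℂ → ℝ → ℂ := fun z t => 1 + ∑' m : ℕ, ((ρ : ℂ) * Complex.exp (t * I)) ^ (m + 1) * S m z with hf
  have hfd : ∀ (z : ℂ) (t : ℝ), f z t = 1 + ∑' m : ℕ, ((ρ : ℂ) * Complex.exp (t * I)) ^ (m + 1) * S m z := fun z t => rfl
  clear_value f
  have hle : ∀ t : ℝ, ‖(ρ : ℂ) * Complex.exp (t * I)‖ = ρ := by
    intro t
    rw [norm_mul, Complex.norm_exp_ofReal_mul_I, mul_one, Complex.norm_real, Real.norm_of_nonneg hρ.le]
  have hfaa : ∀ z (t : ℝ), f z t = aa μ ((ρ : ℂ) * Complex.exp (t * I)) z := by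
    intro z t
    rw [hser _ (by rw [hle]; linarith), hfd]
  have hfc : Continuous (fun p : ℂ × ℝ => f p.1 p.2) := by
    simp only [hfd]
    refine continuous_const.add (continuous_tsum (u := fun m : ℕ => C * q ^ m) (fun m => ?_)
      ((summable_geometric_of_lt_one hq0.le hq).mul_left C) (fun m p => ?_))
    · have := (hSc m).comp (continuous_fst (X := ℂ) (Y := ℝ))
      refine Continuous.mul ?_ this
      fun_prop
    · rw [norm_mul, norm_pow, hle]
      calc ρ ^ (m + 1) * ‖S m p.1‖ ≤ 1 * ‖S m p.1‖ :=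
            mul_le_mul_of_nonneg_right (pow_le_one₀ hρ.le (by linarith)) (norm_nonneg _)
        _ ≤ C * q ^ m := by rw [one_mul]; exact hSb m p.1
  have hpt : ∀ z, 2 * Real.pi * (ρ ^ (n + 1)) ^ 2 * ‖S n z‖ ^ 2 ≤ ∫ t in Ioc (0 : ℝ) (2 * Real.pi), ‖f z t‖ ^ 2 := by
    intro z
    have hfz : Continuous (f z) := hfc.comp (continuous_const.prodMk continuous_id)
    have e1 := A23_coef (S := fun m => S m z) hq0 hq (fun m => hSb m z) hρ (by linarith) n (hfd z)
    have hg1 : ∀ t : ℝ, ‖Complex.exp (((-(n + 1 : ℤ) : ℤ) : ℂ) * I * t)‖ = 1 := by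
      intro t
      have : ((-(n + 1 : ℤ) : ℤ) : ℂ) * I * t = (((-(n + 1 : ℤ) : ℤ) * t : ℝ) : ℂ) * I := by push_cast; ring
      rw [this]
      exact Complex.norm_exp_ofReal_mul_I _
    have e2 := A23_cs hfz hg1
    rw [e1] at e2
    rw [intervalIntegral.integral_of_le hpi.le] at e2
    have e3 : ‖(2 * Real.pi * (ρ ^ (n + 1) * S n z) : ℂ)‖ = 2 * Real.pi * (ρ ^ (n + 1) * ‖S n z‖) := by
      rw [norm_mul, norm_mul, norm_mul, norm_pow, Complex.norm_real, Complex.norm_real, Real.norm_of_nonneg hρ.le,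
        Real.norm_of_nonneg Real.pi_pos.le]
      simp
    rw [e3] at e2
    have e4 : 2 * Real.pi * (2 * Real.pi * (ρ ^ (n + 1)) ^ 2 * ‖S n z‖ ^ 2) ≤
        2 * Real.pi * ∫ t in Ioc (0 : ℝ) (2 * Real.pi), ‖f z t‖ ^ 2 := by
      calc 2 * Real.pi * (2 * Real.pi * (ρ ^ (n + 1)) ^ 2 * ‖S n z‖ ^ 2) = (2 * Real.pi * (ρ ^ (n + 1) * ‖S n z‖)) ^ 2 := by ring
        _ ≤ _ := e2
    exact le_of_mul_le_mul_left e4 hpi
  set B := C0 / (1 - r) ^ 2 * (volume E).toReal ^ ((r - ρ) / (r + ρ)) with hB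
  have hprod : Integrable (fun p : ℂ × ℝ => ‖f p.1 p.2‖ ^ 2)
      ((volume.restrict E).prod (volume.restrict (Ioc (0 : ℝ) (2 * Real.pi)))) := by
    rw [Measure.prod_restrict]
    have hK : IsCompact (Metric.closedBall (0 : ℂ) 1 ×ˢ Icc (0 : ℝ) (2 * Real.pi)) :=
      (isCompact_closedBall 0 1).prod isCompact_Icc
    exact ((hfc.norm.pow 2).continuousOn.integrableOn_compact hK).mono_set
      (prod_mono (hE1.trans Metric.ball_subset_closedBall) Ioc_subset_Icc_self)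
  have hSi : IntegrableOn (fun z => ‖S n z‖ ^ 2) E :=
    (((hSc n).norm.pow 2).continuousOn.integrableOn_compact (isCompact_closedBall (0 : ℂ) 1)).mono_set
      (hE1.trans Metric.ball_subset_closedBall)
  have key : 2 * Real.pi * (ρ ^ (n + 1)) ^ 2 * ∫ z in E, ‖S n z‖ ^ 2 ≤ 2 * Real.pi * B := by
    calc 2 * Real.pi * (ρ ^ (n + 1)) ^ 2 * ∫ z in E, ‖S n z‖ ^ 2
        = ∫ z in E, 2 * Real.pi * (ρ ^ (n + 1)) ^ 2 * ‖S n z‖ ^ 2 := (integral_const_mul _ _).symm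
      _ ≤ ∫ z in E, ∫ t in Ioc (0 : ℝ) (2 * Real.pi), ‖f z t‖ ^ 2 :=
          setIntegral_mono_on (hSi.const_mul _) hprod.integral_prod_left hE (fun z _ => hpt z)
      _ = ∫ t in Ioc (0 : ℝ) (2 * Real.pi), ∫ z in E, ‖f z t‖ ^ 2 := integral_integral_swap hprod
      _ ≤ ∫ _t in Ioc (0 : ℝ) (2 * Real.pi), B := by
          refine setIntegral_mono_on hprod.integral_prod_right (integrable_const _) measurableSet_Ioc ?_
          intro t _
          have h5 := had μ hμ h1 ρ r hρ.le hρr hr ((ρ : ℂ) * Complex.exp (t * I)) (hle t).le E hE hE1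
          simp only [hfaa]
          exact h5
      _ = 2 * Real.pi * B := by
          rw [setIntegral_const, smul_eq_mul, Real.volume_real_Ioc_of_le hpi.le]
          ring
  have key2 : (ρ ^ (n + 1)) ^ 2 * ∫ z in E, ‖S n z‖ ^ 2 ≤ B := by
    have : 2 * Real.pi * ((ρ ^ (n + 1)) ^ 2 * ∫ z in E, ‖S n z‖ ^ 2) ≤ 2 * Real.pi * B := by linarith
    exact le_of_mul_le_mul_left this hpi
  rw [n2_sq, mul_assoc, ← hB]
  have hρn : 0 < ρ ^ (n + 1) := by positivity
  have e6 : (1 / ρ) ^ (2 * (n + 1)) = 1 / (ρ ^ (n + 1)) ^ 2 := by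
    rw [one_div, inv_pow, one_div, ← pow_mul]
    ring_nf
  rw [e6, one_div, ← div_eq_inv_mul, le_div_iff₀ (by positivity)]
  linarith

end

end Pool.B2F
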