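import Pool.Agent.Lib.MP_b2f128_an.Base

/-!
# MP_b2f128_an, part A24a (smooth Beltrami equation and area distortion)
-/

open Complex MeasureTheory Set Filter Topology
open scoped ContDiff

namespace Pool.B2F

noncomputable section

theorem A24a_large {pc M C0 δ d u N x : ℝ} (hδ : 0 < δ) (hpc : pc = 4 + δ) (hpc8 : pc ≤ 8) (hd : 0 < d)
    (hd1 : d ≤ 1 / 4) (hd2 : d ≤ δ / 32) (hu : 0 < u) (hu1 : u ≤ 1 / 2) (hu2 : u * (1 + δ / 8) ≤ δ / 8) (hM : 0 ≤ M)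
    (hC0 : 1 ≤ C0) (n : ℕ) (hN : N = (n : ℝ) + 1) (hx0 : 0 ≤ x) (hx : x ≤ M * Real.exp (-(pc * N))) :
    (1 / (1 - u)) ^ (2 * (n + 1)) * (C0 / (1 - (1 - d * u)) ^ 2) *
      x ^ (((1 - d * u) - (1 - u)) / ((1 - d * u) + (1 - u))) ≤
      (M + 1) * (C0 / (d * u) ^ 2) * Real.exp (-(δ / 8 * (N * u))) := by
  have hN0 : 0 < N := by rw [hN]; positivity
  have h1u : 0 < 1 - u := by linarith
  have hdu : d * u ≤ u := by
    calc d * u ≤ 1 * u := mul_le_mul_of_nonneg_right (by linarith) hu.le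
      _ = u := one_mul u
  have hdu0 : 0 < d * u := mul_pos hd hu
  -- first factor
  have h1 : (1 / (1 - u)) ^ (2 * (n + 1)) ≤ Real.exp (2 * N * (u * (1 + δ / 8))) := by
    have h2 : 1 / (1 - u) ≤ Real.exp (u * (1 + δ / 8)) := by
      have h3 : 1 / (1 - u) = 1 + u / (1 - u) := by
        field_simp
        ring
      have h4 : u / (1 - u) ≤ u * (1 + δ / 8) := by
        rw [div_le_iff₀ h1u]
        have h5 : 1 ≤ (1 + δ / 8) * (1 - u) := by nlinarith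
        calc u = u * 1 := (mul_one u).symm
          _ ≤ u * ((1 + δ / 8) * (1 - u)) := mul_le_mul_of_nonneg_left h5 hu.le
          _ = _ := by ring
      rw [h3]
      have := Real.add_one_le_exp (u * (1 + δ / 8))
      linarith
    calc (1 / (1 - u)) ^ (2 * (n + 1)) ≤ (Real.exp (u * (1 + δ / 8))) ^ (2 * (n + 1)) :=
          pow_le_pow_left₀ (by positivity) h2 _
      _ = Real.exp (2 * N * (u * (1 + δ / 8))) := by
          rw [← Real.exp_nat_mul]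
          congr 1
          rw [hN]
          push_cast
          ring
  -- the exponent
  set θ : ℝ := ((1 - d * u) - (1 - u)) / ((1 - d * u) + (1 - u)) with hθ
  have hden : 0 < (1 - d * u) + (1 - u) := by linarith
  have hθ0 : (1 - d) * u / 2 ≤ θ := by
    rw [hθ, div_le_div_iff₀ (by norm_num) hden]
    have h3 : (1 - d * u) - (1 - u) = (1 - d) * u := by ring
    rw [h3]
    have h4 : 0 ≤ (1 - d) * u := mul_nonneg (by linarith) hu.le
    refine mul_le_mul_of_nonneg_left ?_ h4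
    linarith
  have hθpos : 0 ≤ θ := le_trans (by
    have h4 : 0 ≤ (1 - d) * u := mul_nonneg (by linarith) hu.le
    linarith) hθ0
  have hθ1 : θ ≤ 1 := by
    rw [hθ, div_le_one hden]
    linarith
  have h6 : x ^ θ ≤ (M + 1) * Real.exp (-(pc * N * ((1 - d) * u / 2))) := by
    have h7 : x ≤ (M + 1) * Real.exp (-(pc * N)) := by
      refine hx.trans ?_
      exact mul_le_mul_of_nonneg_right (by linarith) (Real.exp_pos _).le
    calc x ^ θ ≤ ((M + 1) * Real.exp (-(pc * N))) ^ θ := Real.rpow_le_rpow hx0 h7 hθpos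
      _ = (M + 1) ^ θ * Real.exp (-(pc * N)) ^ θ := Real.mul_rpow (by linarith) (Real.exp_pos _).le
      _ ≤ (M + 1) * Real.exp (-(pc * N * ((1 - d) * u / 2))) := by
        refine mul_le_mul ?_ ?_ (by positivity) (by linarith)
        · calc (M + 1) ^ θ ≤ (M + 1) ^ (1 : ℝ) := Real.rpow_le_rpow_of_exponent_le (by linarith) hθ1
            _ = M + 1 := Real.rpow_one _
        · rw [← Real.exp_mul]
          refine Real.exp_le_exp.mpr ?_
          have h8 : 0 ≤ pc * N := by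
            have : 0 ≤ pc := by linarith
            positivity
          have h9 : pc * N * ((1 - d) * u / 2) ≤ pc * N * θ := mul_le_mul_of_nonneg_left hθ0 h8
          linarith
  have h10 : 2 * N * (u * (1 + δ / 8)) + -(pc * N * ((1 - d) * u / 2)) ≤ -(δ / 8 * (N * u)) := by
    have h11 : 2 * (1 + δ / 8) - pc * (1 - d) / 2 ≤ -(δ / 8) := by
      have h12 : pc * d ≤ 8 * (δ / 32) := by
        have h13 : 0 ≤ pc := by linarith
        exact mul_le_mul hpc8 hd2 hd.le (by norm_num)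
      rw [hpc] at h12 ⊢
      linarith
    have h14 : 0 ≤ N * u := by positivity
    have h15 := mul_le_mul_of_nonneg_right h11 h14
    linarith
  have h16 : (1 - (1 - d * u)) = d * u := by ring
  rw [h16]
  have hC : 0 ≤ C0 / (d * u) ^ 2 := by positivity
  calc (1 / (1 - u)) ^ (2 * (n + 1)) * (C0 / (d * u) ^ 2) * x ^ θ
      ≤ Real.exp (2 * N * (u * (1 + δ / 8))) * (C0 / (d * u) ^ 2) *
          ((M + 1) * Real.exp (-(pc * N * ((1 - d) * u / 2)))) := by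
        refine mul_le_mul ?_ h6 (Real.rpow_nonneg hx0 _) (by positivity)
        exact mul_le_mul_of_nonneg_right h1 hC
    _ = (M + 1) * (C0 / (d * u) ^ 2) * Real.exp (2 * N * (u * (1 + δ / 8)) + -(pc * N * ((1 - d) * u / 2))) := by
        rw [Real.exp_add]; ring
    _ ≤ (M + 1) * (C0 / (d * u) ^ 2) * Real.exp (-(δ / 8 * (N * u))) := by
        refine mul_le_mul_of_nonneg_left (Real.exp_le_exp.mpr h10) ?_
        have : 0 ≤ M + 1 := by linarith
        positivity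

theorem A24a_log (ε : ℝ) (hε : 0 < ε) : ∃ N₀ : ℕ, ∀ n : ℕ, N₀ ≤ n → Real.log ((n : ℝ) + 2) ≤ ε * ((n : ℝ) + 2) := by
  have h := Real.isLittleO_log_id_atTop.bound hε
  obtain ⟨a, ha⟩ := Filter.eventually_atTop.mp h
  obtain ⟨N₀, hN₀⟩ := exists_nat_ge a
  refine ⟨N₀, fun n hn => ?_⟩
  have h1 : a ≤ (n : ℝ) + 2 := by
    have : (N₀ : ℝ) ≤ n := by exact_mod_cast hn
    linarith
  have h2 := ha _ h1
  rw [Real.norm_eq_abs, id, Real.norm_eq_abs, abs_of_pos (by positivity : (0 : ℝ) < (n : ℝ) + 2)] at h2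
  exact (le_abs_self _).trans h2

/-- A24a. PROOF. `c0 = 8 / (b + p)`, so `b < 4/c0` and `p c0 > 4`. Choose `d ∈ (0, 1/2)` and `d' > 0` with `p c0 (1 - d) / 2 > 2 (1 + d') + κ`, `κ > 0`. For large `n` let `m = (n + 1) / (A log (n + 2))`, `ρ = 1 - 1/m`, `r = 1 - d/m`:
`(r - ρ)/(r + ρ) ≥ (1 - d)/(2m)`, `(1/ρ)^(2(n+1)) ≤ exp (2 (1 + d')(n+1)/m)`, `x^θ ≤ (M + 1) exp (-p c0 (n+1) (1-d)/(2m))` (or `x = 0`, `x^θ = 0`), product `≤ exp (-κ (n+1)/m) = (n+2)^(-κ A)` times `C0 (m/d)² (M+1)`. Take `A` large.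
For small `n` take `ρ = 1/2`, `r = 3/4` and `C` large. -/
theorem par_decay {p b M C0 : ℝ} (hb : 0 < b) (hbp : b < p) (hM : 0 ≤ M) (hC0 : 1 ≤ C0) :
    ∃ c0 C : ℝ, 0 < c0 ∧ b < 4 / c0 ∧ 0 ≤ C ∧ ∀ (n : ℕ) (x : ℝ), 0 ≤ x → x ≤ 4 →
      x ≤ M * Real.exp (-(p * c0 * (n + 1))) → ∃ ρ r : ℝ, 0 < ρ ∧ ρ < r ∧ r < 1 ∧
        (1 / ρ) ^ (2 * (n + 1)) * (C0 / (1 - r) ^ 2) * x ^ ((r - ρ) / (r + ρ)) ≤
          C * ((n : ℝ) + 1) ^ (-(b + 2)) := by
  have hbp0 : 0 < b + p := by linarith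
  have hp0 : 0 < p := by linarith
  obtain ⟨δ, hδdef⟩ : ∃ δ : ℝ, δ = p * (8 / (b + p)) - 4 := ⟨_, rfl⟩
  have hδ : 0 < δ := by
    rw [hδdef]
    have : 4 < p * (8 / (b + p)) := by
      rw [mul_div_assoc', lt_div_iff₀ hbp0]
      linarith
    linarith
  have hpc8 : p * (8 / (b + p)) ≤ 8 := by
    rw [mul_div_assoc', div_le_iff₀ hbp0]
    linarith
  obtain ⟨d, hd, hd1, hd2⟩ : ∃ d : ℝ, 0 < d ∧ d ≤ 1 / 4 ∧ d ≤ δ / 32 :=
    ⟨min (1 / 4) (δ / 32), lt_min (by norm_num) (by positivity), min_le_left _ _, min_le_right _ _⟩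
  obtain ⟨A, hA⟩ : ∃ A : ℝ, A = (b + 4) / (δ / 8) + 2 := ⟨_, rfl⟩
  have hA2 : 2 ≤ A := by
    rw [hA]
    have : 0 ≤ (b + 4) / (δ / 8) := by positivity
    linarith
  have hAδ : b + 4 ≤ δ / 8 * A := by
    rw [hA, mul_add, mul_div_cancel₀ _ (by positivity)]
    have : 0 ≤ δ / 8 * 2 := by positivity
    linarith
  obtain ⟨u₀, hu₀, hu₀1, hu₀2⟩ : ∃ u₀ : ℝ, 0 < u₀ ∧ u₀ ≤ 1 / 2 ∧ u₀ * (1 + δ / 8) ≤ δ / 8 := by
    refine ⟨min (1 / 2) ((δ / 8) / (1 + δ / 8)), lt_min (by norm_num) (by positivity), min_le_left _ _, ?_⟩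
    have h1 : min (1 / 2) ((δ / 8) / (1 + δ / 8)) ≤ (δ / 8) / (1 + δ / 8) := min_le_right _ _
    rwa [le_div_iff₀ (by positivity)] at h1
  obtain ⟨N₀, hN₀⟩ := A24a_log (u₀ / (2 * A)) (by positivity)
  -- the constant
  refine ⟨8 / (b + p), (M + 1) * C0 / d ^ 2 + 64 * C0 * 4 ^ (N₀ + 1) * ((N₀ : ℝ) + 1) ^ (b + 2), by positivity, ?_, ?_, ?_⟩
  · rw [div_div_eq_mul_div]
    linarith
  · have : 0 ≤ M + 1 := by linarith
    positivity
  intro n x hx0 hx4 hx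
  have hNpos : (0 : ℝ) < (n : ℝ) + 1 := by positivity
  have hM1 : 0 ≤ M + 1 := by linarith
  have hC00 : 0 ≤ C0 := by linarith
  rcases le_or_gt N₀ n with hn | hn
  · -- large n
    obtain ⟨u, hudef⟩ : ∃ u : ℝ, u = A * Real.log ((n : ℝ) + 2) / ((n : ℝ) + 1) := ⟨_, rfl⟩
    have hlog2 : Real.log 2 ≤ Real.log ((n : ℝ) + 2) := Real.log_le_log (by norm_num) (by linarith [(Nat.cast_nonneg n : (0 : ℝ) ≤ n)])
    have hl2 : 1 / 2 ≤ Real.log 2 := by
      have := Real.log_two_gt_d9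
      linarith
    have hAlog : 1 ≤ A * Real.log ((n : ℝ) + 2) := by
      calc (1 : ℝ) = 2 * (1 / 2) := by norm_num
        _ ≤ A * Real.log ((n : ℝ) + 2) := mul_le_mul hA2 (by linarith) (by norm_num) (by linarith)
    have hNu : ((n : ℝ) + 1) * u = A * Real.log ((n : ℝ) + 2) := by
      rw [hudef]; field_simp
    have hu : 0 < u := by
      rw [hudef]; positivity
    have huu : u ≤ u₀ := by
      rw [hudef, div_le_iff₀ hNpos]
      have h1 := hN₀ n hn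
      have h2 : A * Real.log ((n : ℝ) + 2) ≤ A * (u₀ / (2 * A) * ((n : ℝ) + 2)) :=
        mul_le_mul_of_nonneg_left h1 (by linarith)
      have h3 : A * (u₀ / (2 * A) * ((n : ℝ) + 2)) = u₀ * (((n : ℝ) + 2) / 2) := by
        field_simp
      rw [h3] at h2
      refine h2.trans (mul_le_mul_of_nonneg_left ?_ hu₀.le)
      have : (0 : ℝ) ≤ n := Nat.cast_nonneg n
      linarith
    have hu1 : u ≤ 1 / 2 := huu.trans hu₀1
    have hu2 : u * (1 + δ / 8) ≤ δ / 8 := (mul_le_mul_of_nonneg_right huu (by positivity)).trans hu₀2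
    have hdu : d * u < u := by
      calc d * u ≤ (1 / 4) * u := mul_le_mul_of_nonneg_right hd1 hu.le
        _ < u := by linarith
    refine ⟨1 - u, 1 - d * u, by linarith, by linarith, by linarith [mul_pos hd hu], ?_⟩
    have hmain := A24a_large (pc := p * (8 / (b + p))) (M := M) (C0 := C0) (N := (n : ℝ) + 1) (x := x) hδ (by rw [hδdef]; ring)
      hpc8 hd hd1 hd2 hu hu1 hu2 hM hC0 n rfl hx0 hx
    refine hmain.trans ?_
    rw [hNu]
    -- bound of `1/(d u)^2`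
    have h1 : C0 / (d * u) ^ 2 ≤ C0 / d ^ 2 * ((n : ℝ) + 1) ^ 2 := by
      have h2 : 1 ≤ ((n : ℝ) + 1) * u := by rw [hNu]; exact hAlog
      have h3 : 1 ≤ (((n : ℝ) + 1) * u) ^ 2 := one_le_pow₀ h2
      rw [div_le_iff₀ (by positivity)]
      calc C0 = C0 * 1 := (mul_one _).symm
        _ ≤ C0 * (((n : ℝ) + 1) * u) ^ 2 := mul_le_mul_of_nonneg_left h3 hC00
        _ = C0 / d ^ 2 * ((n : ℝ) + 1) ^ 2 * (d * u) ^ 2 := by
            field_simp
    have h4 : Real.exp (-(δ / 8 * (A * Real.log ((n : ℝ) + 2)))) ≤ ((n : ℝ) + 1) ^ (-(b + 4)) := by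
      have h5 : Real.exp (-(δ / 8 * (A * Real.log ((n : ℝ) + 2)))) = ((n : ℝ) + 2) ^ (-(δ / 8 * A)) := by
        rw [Real.rpow_def_of_pos (by positivity)]
        congr 1
        ring
      rw [h5]
      calc ((n : ℝ) + 2) ^ (-(δ / 8 * A)) ≤ ((n : ℝ) + 2) ^ (-(b + 4)) :=
            Real.rpow_le_rpow_of_exponent_le (by linarith [(Nat.cast_nonneg n : (0 : ℝ) ≤ n)]) (by linarith)
        _ ≤ ((n : ℝ) + 1) ^ (-(b + 4)) :=
            Real.rpow_le_rpow_of_nonpos hNpos (by linarith) (by linarith)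
    calc (M + 1) * (C0 / (d * u) ^ 2) * Real.exp (-(δ / 8 * (A * Real.log ((n : ℝ) + 2))))
        ≤ (M + 1) * (C0 / d ^ 2 * ((n : ℝ) + 1) ^ 2) * ((n : ℝ) + 1) ^ (-(b + 4)) := by
          refine mul_le_mul (mul_le_mul_of_nonneg_left h1 hM1) h4 (Real.exp_pos _).le (by positivity)
      _ = (M + 1) * C0 / d ^ 2 * ((n : ℝ) + 1) ^ (-(b + 2)) := by
          have h6 : ((n : ℝ) + 1) ^ (-(b + 2)) = ((n : ℝ) + 1) ^ 2 * ((n : ℝ) + 1) ^ (-(b + 4)) := by
            rw [← Real.rpow_natCast ((n : ℝ) + 1) 2, ← Real.rpow_add hNpos]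
            congr 1
            push_cast
            ring
          rw [h6]
          ring
      _ ≤ ((M + 1) * C0 / d ^ 2 + 64 * C0 * 4 ^ (N₀ + 1) * ((N₀ : ℝ) + 1) ^ (b + 2)) * ((n : ℝ) + 1) ^ (-(b + 2)) := by
          refine mul_le_mul_of_nonneg_right ?_ (by positivity)
          have : 0 ≤ 64 * C0 * 4 ^ (N₀ + 1) * ((N₀ : ℝ) + 1) ^ (b + 2) := by positivity
          linarith
  · -- small n
    refine ⟨1 / 2, 3 / 4, by norm_num, by norm_num, by norm_num, ?_⟩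
    have h1 : ((1 : ℝ) / (1 / 2)) ^ (2 * (n + 1)) ≤ 4 ^ (N₀ + 1) := by
      rw [pow_mul]
      norm_num
      exact pow_le_pow_right₀ (by norm_num) (by omega)
    have h2 : C0 / (1 - 3 / 4) ^ 2 = 16 * C0 := by ring
    have h3 : x ^ ((3 / 4 - 1 / 2 : ℝ) / (3 / 4 + 1 / 2)) ≤ 4 := by
      have h4 : ((3 / 4 - 1 / 2 : ℝ) / (3 / 4 + 1 / 2)) = 1 / 5 := by norm_num
      rw [h4]
      calc x ^ (1 / 5 : ℝ) ≤ 4 ^ (1 / 5 : ℝ) := Real.rpow_le_rpow hx0 hx4 (by norm_num)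
        _ ≤ 4 ^ (1 : ℝ) := Real.rpow_le_rpow_of_exponent_le (by norm_num) (by norm_num)
        _ = 4 := Real.rpow_one _
    have h5 : 1 ≤ ((N₀ : ℝ) + 1) ^ (b + 2) * ((n : ℝ) + 1) ^ (-(b + 2)) := by
      have h6 : ((n : ℝ) + 1) ^ (b + 2) ≤ ((N₀ : ℝ) + 1) ^ (b + 2) := by
        refine Real.rpow_le_rpow hNpos.le ?_ (by linarith)
        have : (n : ℝ) ≤ N₀ := by exact_mod_cast hn.le
        linarith
      rw [Real.rpow_neg hNpos.le, ← div_eq_mul_inv, le_div_iff₀ (by positivity)]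
      linarith
    rw [h2]
    calc ((1 : ℝ) / (1 / 2)) ^ (2 * (n + 1)) * (16 * C0) * x ^ ((3 / 4 - 1 / 2 : ℝ) / (3 / 4 + 1 / 2))
        ≤ 4 ^ (N₀ + 1) * (16 * C0) * 4 := by
          refine mul_le_mul (mul_le_mul_of_nonneg_right h1 (by positivity)) h3 (Real.rpow_nonneg hx0 _) (by positivity)
      _ = 64 * C0 * 4 ^ (N₀ + 1) * 1 := by ring
      _ ≤ 64 * C0 * 4 ^ (N₀ + 1) * (((N₀ : ℝ) + 1) ^ (b + 2) * ((n : ℝ) + 1) ^ (-(b + 2))) :=
          mul_le_mul_of_nonneg_left h5 (by positivity)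
      _ = 64 * C0 * 4 ^ (N₀ + 1) * ((N₀ : ℝ) + 1) ^ (b + 2) * ((n : ℝ) + 1) ^ (-(b + 2)) := by ring
      _ ≤ ((M + 1) * C0 / d ^ 2 + 64 * C0 * 4 ^ (N₀ + 1) * ((N₀ : ℝ) + 1) ^ (b + 2)) * ((n : ℝ) + 1) ^ (-(b + 2)) := by
          refine mul_le_mul_of_nonneg_right ?_ (by positivity)
          have : 0 ≤ (M + 1) * C0 / d ^ 2 := by positivity
          linarith

end

end Pool.B2F
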