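import Pool.Agent.Lib.MP_b2f128_an.Base

/-!
# MP_b2f128_an, part A24b (smooth Beltrami equation and area distortion)
-/

open Complex MeasureTheory Set Filter Topology
open scoped ContDiff

namespace Pool.B2F

noncomputable section

theorem A24b_bern {b x : ℝ} (hb : 0 < b) (hx : 1 ≤ x) :
    x ^ (-b) * (1 - b / x) ≤ (x + 1) ^ (-b) := by
  have hx0 : 0 < x := by linarith
  have h1 : x + 1 = x * (1 + 1 / x) := by
    field_simp
  have h2 : (1 + 1 / x) ^ b ≤ Real.exp (b / x) := by
    have h3 : 1 + 1 / x ≤ Real.exp (1 / x) := by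
      have := Real.add_one_le_exp (1 / x)
      linarith
    have h4 : (1 + 1 / x) ^ b ≤ (Real.exp (1 / x)) ^ b :=
      Real.rpow_le_rpow (by positivity) h3 hb.le
    have h5 : (Real.exp (1 / x)) ^ b = Real.exp (b / x) := by
      rw [← Real.exp_mul]
      congr 1
      ring
    rw [h5] at h4
    exact h4
  have h6 : 1 - b / x ≤ (1 + 1 / x) ^ (-b) := by
    rw [Real.rpow_neg (by positivity)]
    have h7 : Real.exp (-(b / x)) ≤ ((1 + 1 / x) ^ b)⁻¹ := by
      rw [Real.exp_neg]
      exact inv_anti₀ (by positivity) h2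
    have h8 := Real.add_one_le_exp (-(b / x))
    linarith
  rw [h1, Real.mul_rpow hx0.le (by positivity)]
  exact mul_le_mul_of_nonneg_left h6 (by positivity)

theorem A24b_fac {c0 s x : ℝ} (hc : 0 < c0) (hs : 0 < s) (hsc : s * c0 < 4)
    (hx : 1 + (2 * s * c0 + s) / (c0 * (4 - s * c0)) ≤ x) :
    (1 - 2 / (c0 * x + 1)) ^ 2 ≤ 1 - s / x := by
  have hκ : 0 < c0 * (4 - s * c0) := mul_pos hc (by linarith)
  have hq : 0 ≤ (2 * s * c0 + s) / (c0 * (4 - s * c0)) := by positivity
  have hx1 : 1 ≤ x := by linarith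
  have hx0 : 0 < x := by linarith
  have h1 : (2 * s * c0 + s) ≤ (x - 1) * (c0 * (4 - s * c0)) := by
    rw [← div_le_iff₀ hκ]
    linarith
  have h2 : s * (c0 * x + 1) ^ 2 ≤ 4 * c0 * x ^ 2 := by
    have h3 : (2 * s * c0 + s) * x ≤ (x - 1) * (c0 * (4 - s * c0)) * x :=
      mul_le_mul_of_nonneg_right h1 hx0.le
    have h4 : 0 ≤ (c0 * (4 - s * c0)) * x := by positivity
    nlinarith
  have hp : 0 < c0 * x + 1 := by positivity
  have h5 : (1 - 2 / (c0 * x + 1)) ^ 2 = 1 - 4 * c0 * x / (c0 * x + 1) ^ 2 := by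
    field_simp
    ring
  rw [h5]
  have h6 : s / x ≤ 4 * c0 * x / (c0 * x + 1) ^ 2 := by
    rw [div_le_div_iff₀ hx0 (by positivity)]
    nlinarith
  linarith

/-- A24b. PROOF. `(1 - 2/(c0 (n+1) + 1))² ≤ 1 - s/(n+1)` for large `n`, some `s > b` (as `4/c0 > b`), and `(n+2)^(-b) ≥ (n+1)^(-b) (1 - b/(n+1))` (Bernoulli / convexity). Induction for `n ≥ n₀` with `D` so large that
`(s - b) D ≥ C` and that the bound holds for `n ≤ n₀` (crude bound there: the factor is at most 1). -/
theorem rec_decay {c0 C b A0 : ℝ} (hc : 0 < c0) (hb : 0 < b) (hbc : b < 4 / c0) (hC : 0 ≤ C) (hA : 0 ≤ A0) :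
    ∃ D : ℝ, 0 ≤ D ∧ ∀ a : ℕ → ℝ, (∀ n, 0 ≤ a n) → a 0 ≤ A0 →
      (∀ n, a (n + 1) ≤ (1 - 2 / (c0 * (n + 1) + 1)) ^ 2 * a n + C * ((n : ℝ) + 1) ^ (-(b + 2))) →
      ∀ n, a n ≤ D * ((n : ℝ) + 1) ^ (-b) := by
  set s : ℝ := (b + 4 / c0) / 2 with hs
  have hsb : b < s := by rw [hs]; linarith
  have hs4 : s < 4 / c0 := by rw [hs]; linarith
  have hs0 : 0 < s := hb.trans hsb
  have hsc : s * c0 < 4 := by rwa [lt_div_iff₀ hc] at hs4
  obtain ⟨n0, hn0⟩ := exists_nat_ge (1 + (2 * s * c0 + s) / (c0 * (4 - s * c0)))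
  set A1 : ℝ := A0 + C * n0 with hA1
  have hA1' : 0 ≤ A1 := by positivity
  have hsb' : 0 < s - b := by linarith
  set D : ℝ := A1 * ((n0 : ℝ) + 1) ^ b + C / (s - b) with hD
  have hD0 : 0 ≤ D := by positivity
  refine ⟨D, hD0, fun a ha ha0 hrec => ?_⟩
  -- crude bound
  have hcrude : ∀ n : ℕ, a n ≤ A0 + C * n := by
    intro n
    induction n with
    | zero => simpa using ha0
    | succ n ih =>
      have h1 := hrec n
      have hp : 1 ≤ c0 * ((n : ℝ) + 1) + 1 := by
        have : 0 ≤ c0 * ((n : ℝ) + 1) := by positivity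
        linarith
      have h2 : (1 - 2 / (c0 * ((n : ℝ) + 1) + 1)) ^ 2 ≤ 1 := by
        have h3 : 0 ≤ 2 / (c0 * ((n : ℝ) + 1) + 1) := by positivity
        have h4 : 2 / (c0 * ((n : ℝ) + 1) + 1) ≤ 2 := by
          rw [div_le_iff₀ (by linarith)]
          linarith
        nlinarith
      have h5 : ((n : ℝ) + 1) ^ (-(b + 2)) ≤ 1 := by
        apply Real.rpow_le_one_of_one_le_of_nonpos
        · have : (0 : ℝ) ≤ n := Nat.cast_nonneg n
          linarith
        · linarith
      have h6 : (1 - 2 / (c0 * ((n : ℝ) + 1) + 1)) ^ 2 * a n ≤ 1 * a n :=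
        mul_le_mul_of_nonneg_right h2 (ha n)
      have h7 : C * ((n : ℝ) + 1) ^ (-(b + 2)) ≤ C * 1 := mul_le_mul_of_nonneg_left h5 hC
      push_cast
      linarith
  intro n
  rcases le_total n n0 with hn | hn
  · have h1 := hcrude n
    have h2 : (n : ℝ) ≤ n0 := by exact_mod_cast hn
    have h3 : A0 + C * n ≤ A1 := by
      rw [hA1]
      have := mul_le_mul_of_nonneg_left h2 hC
      linarith
    have h4 : A1 ≤ D * ((n : ℝ) + 1) ^ (-b) := by
      have h5 : A1 * ((n0 : ℝ) + 1) ^ b ≤ D := by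
        rw [hD]
        have : 0 ≤ C / (s - b) := by positivity
        linarith
      have h6 : ((n : ℝ) + 1) ^ b ≤ ((n0 : ℝ) + 1) ^ b :=
        Real.rpow_le_rpow (by positivity) (by linarith) hb.le
      have h7 : 0 < ((n : ℝ) + 1) ^ b := by positivity
      rw [Real.rpow_neg (by positivity), ← div_eq_mul_inv, le_div_iff₀ h7]
      exact (mul_le_mul_of_nonneg_left h6 hA1').trans h5
    linarith
  · induction n, hn using Nat.le_induction with
    | base =>
      have h1 := hcrude n0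
      have h4 : A1 ≤ D * ((n0 : ℝ) + 1) ^ (-b) := by
        have h5 : A1 * ((n0 : ℝ) + 1) ^ b ≤ D := by
          rw [hD]
          have : 0 ≤ C / (s - b) := by positivity
          linarith
        have h7 : 0 < ((n0 : ℝ) + 1) ^ b := by positivity
        rw [Real.rpow_neg (by positivity), ← div_eq_mul_inv, le_div_iff₀ h7]
        exact h5
      linarith
    | succ n hn ih =>
      set x : ℝ := (n : ℝ) + 1 with hx
      have hnx : (n0 : ℝ) ≤ n := by exact_mod_cast hn
      have hx1 : 1 ≤ x := by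
        rw [hx]
        have : (0 : ℝ) ≤ n := Nat.cast_nonneg n
        linarith
      have hx0 : 0 < x := by linarith
      have hfac := A24b_fac (x := x) hc hs0 hsc (by rw [hx]; linarith)
      have h1 := hrec n
      rw [← hx] at h1
      have hP : 0 < x ^ (-b) := by positivity
      have h2 : x ^ (-(b + 2)) = x ^ (-b) / x ^ 2 := by
        have : -(b + 2) = -b - (2 : ℕ) := by push_cast; ring
        rw [this, Real.rpow_sub_natCast hx0.ne']
      rw [h2] at h1
      have h3 : 0 ≤ 1 - s / x := (sq_nonneg _).trans hfac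
      have h4 : (1 - 2 / (c0 * x + 1)) ^ 2 * a n ≤ (1 - s / x) * (D * x ^ (-b)) :=
        mul_le_mul hfac ih (ha n) h3
      have h5 := A24b_bern hb hx1
      have h6 : D * (x ^ (-b) * (1 - b / x)) ≤ D * (x + 1) ^ (-b) :=
        mul_le_mul_of_nonneg_left h5 hD0
      have h7 : C ≤ D * (s - b) * x := by
        have h8 : C ≤ D * (s - b) := by
          rw [← div_le_iff₀ hsb', hD]
          have : 0 ≤ A1 * ((n0 : ℝ) + 1) ^ b := by positivity
          linarith
        have h9 : D * (s - b) * 1 ≤ D * (s - b) * x :=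
          mul_le_mul_of_nonneg_left hx1 (by positivity)
        linarith
      have h10 : (1 - s / x) * (D * x ^ (-b)) + C * (x ^ (-b) / x ^ 2) ≤
          D * (x ^ (-b) * (1 - b / x)) := by
        have h11 : D * (x ^ (-b) * (1 - b / x)) -
            ((1 - s / x) * (D * x ^ (-b)) + C * (x ^ (-b) / x ^ 2)) =
            x ^ (-b) / x ^ 2 * (D * (s - b) * x - C) := by
          field_simp
          ring
        have h12 : 0 ≤ x ^ (-b) / x ^ 2 * (D * (s - b) * x - C) :=
          mul_nonneg (by positivity) (by linarith)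
        linarith
      have h13 : (((n + 1 : ℕ) : ℝ) + 1) = x + 1 := by
        push_cast
        rw [hx]
      rw [h13]
      linarith

end

end Pool.B2F
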