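import Pool.Agent.Lib.MP_b2f128_an.Base
import Pool.Agent.Lib.MP_b2f128_an.A00
import Pool.Agent.Lib.MP_b2f128_an.A02b
import Pool.Agent.Lib.MP_b2f128_an.A09
import Pool.Agent.Lib.MP_b2f128_an.A12
import Pool.Agent.Lib.MP_b2f128_an.A23
import Pool.Agent.Lib.MP_b2f128_an.A24a
import Pool.Agent.Lib.MP_b2f128_an.A24b

/-!
# MP_b2f128_an, part A24c (smooth Beltrami equation and area distortion)
-/

open Complex MeasureTheory Set Filter Topology
open scoped ContDiff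

namespace Pool.B2F

noncomputable section

theorem A24c_vol : (volume (Metric.ball (0 : ℂ) 1)).toReal = Real.pi := by
  simp [Complex.volume_ball]

theorem A24c_zero {μ : ℂ → ℂ} (hμ : Cc (Metric.ball 0 1) μ) {z : ℂ} (hz : z ∉ Metric.ball (0 : ℂ) 1) :
    μ z = 0 := by
  by_contra h
  exact hz (hμ.sub (subset_tsupport _ h))

theorem A24c_kap_cont {μ : ℂ → ℂ} (hμ : Cc (Metric.ball 0 1) μ) (h1 : ∀ z, ‖μ z‖ < 1) :
    Continuous (fun z => kap ‖μ z‖) := by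
  unfold kap
  have hc : Continuous μ := hμ.smooth.continuous
  refine Continuous.div (by fun_prop) (by fun_prop) ?_
  intro z
  have := h1 z
  intro h
  linarith

theorem A24c_int {μ : ℂ → ℂ} (hμ : Cc (Metric.ball 0 1) μ) (h1 : ∀ z, ‖μ z‖ < 1) (p : ℝ) :
    IntegrableOn (fun z => Real.exp (p * kap ‖μ z‖)) (Metric.ball (0 : ℂ) 1) := by
  have hc : Continuous (fun z => Real.exp (p * kap ‖μ z‖)) :=
    Real.continuous_exp.comp (continuous_const.mul (A24c_kap_cont hμ h1))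
  exact (hc.continuousOn.integrableOn_compact (isCompact_closedBall (0 : ℂ) 1)).mono_set
    Metric.ball_subset_closedBall

/-- the exceptional set -/
def A24c_E (μ : ℂ → ℂ) (t : ℝ) : Set ℂ := Metric.ball (0 : ℂ) 1 ∩ {z | t < kap ‖μ z‖}

theorem A24c_meas {μ : ℂ → ℂ} (hμ : Cc (Metric.ball 0 1) μ) (h1 : ∀ z, ‖μ z‖ < 1) (t : ℝ) :
    MeasurableSet (A24c_E μ t) := by
  have : IsOpen {z | t < kap ‖μ z‖} := isOpen_lt continuous_const (A24c_kap_cont hμ h1)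
  exact (Metric.isOpen_ball.inter this).measurableSet

theorem A24c_sub (μ : ℂ → ℂ) (t : ℝ) : A24c_E μ t ⊆ Metric.ball (0 : ℂ) 1 := inter_subset_left

theorem A24c_le4 (μ : ℂ → ℂ) (t : ℝ) : (volume (A24c_E μ t)).toReal ≤ 4 := by
  have h : (volume (A24c_E μ t)).toReal ≤ (volume (Metric.ball (0 : ℂ) 1)).toReal :=
    ENNReal.toReal_mono measure_ball_lt_top.ne (measure_mono (A24c_sub μ t))
  rw [A24c_vol] at h
  exact h.trans Real.pi_le_four

theorem A24c_markov {μ : ℂ → ℂ} (hμ : Cc (Metric.ball 0 1) μ) (h1 : ∀ z, ‖μ z‖ < 1) {p M : ℝ}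
    (hp : 0 < p) (hI : ∫ z in Metric.ball (0 : ℂ) 1, Real.exp (p * kap ‖μ z‖) ≤ M) (t : ℝ) :
    (volume (A24c_E μ t)).toReal ≤ M * Real.exp (-(p * t)) := by
  have hint := A24c_int hμ h1 p
  have hE := A24c_meas hμ h1 t
  have hfin : volume (A24c_E μ t) ≠ ⊤ :=
    ((measure_mono (A24c_sub μ t)).trans_lt measure_ball_lt_top).ne
  have h2 : ∫ _ in A24c_E μ t, Real.exp (p * t) ≤ ∫ z in A24c_E μ t, Real.exp (p * kap ‖μ z‖) := by
    refine setIntegral_mono_on (integrableOn_const hfin) (hint.mono_set (A24c_sub μ t)) hE ?_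
    intro z hz
    have : t < kap ‖μ z‖ := hz.2
    exact Real.exp_le_exp.2 (mul_le_mul_of_nonneg_left this.le hp.le)
  have h3 : ∫ z in A24c_E μ t, Real.exp (p * kap ‖μ z‖) ≤
      ∫ z in Metric.ball (0 : ℂ) 1, Real.exp (p * kap ‖μ z‖) := by
    refine setIntegral_mono_set hint ?_ (Eventually.of_forall (A24c_sub μ t))
    exact Eventually.of_forall fun z => (Real.exp_pos _).le
  rw [setIntegral_const, smul_eq_mul] at h2
  have h4 : volume.real (A24c_E μ t) * Real.exp (p * t) ≤ M := h2.trans (h3.trans hI)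
  have h5 : (volume (A24c_E μ t)).toReal = volume.real (A24c_E μ t) := rfl
  rw [h5, Real.exp_neg]
  rw [← div_eq_mul_inv, le_div_iff₀ (Real.exp_pos _)]
  exact h4

theorem A24c_off {m t : ℝ} (h0 : 0 ≤ m) (h1 : m < 1) (ht : 0 < t) (h : kap m ≤ t) :
    m ^ 2 ≤ (1 - 2 / (t + 1)) ^ 2 := by
  unfold kap at h
  rw [div_le_iff₀ (by linarith)] at h
  have h2 : m ≤ 1 - 2 / (t + 1) := by
    rw [le_sub_iff_add_le, ← le_sub_iff_add_le', div_le_iff₀ (by linarith)]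
    nlinarith
  exact pow_le_pow_left₀ h0 h2 2

theorem A24c_step {μ : ℂ → ℂ} (hμ : Cc (Metric.ball 0 1) μ) (h1 : ∀ z, ‖μ z‖ < 1) {t : ℝ}
    (ht : 0 < t) (n : ℕ) :
    n2 univ (itr μ μ (n + 1)) ^ 2 ≤ (1 - 2 / (t + 1)) ^ 2 * n2 univ (itr μ μ n) ^ 2 +
      n2 (A24c_E μ t) (beu (itr μ μ n)) ^ 2 := by
  have hcc := itr_cc hμ hμ n
  have hcc' := itr_cc hμ hμ (n + 1)
  have hE := A24c_meas hμ h1 t
  have hB : Integrable (fun z => ‖beu (itr μ μ n) z‖ ^ 2) := by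
    have := beu_memLp hcc univ
    rw [Measure.restrict_univ] at this
    exact this.integrable_norm_pow (by norm_num)
  have hA : Integrable (fun z => ‖itr μ μ (n + 1) z‖ ^ 2) := by
    have := hcc'.memLp univ
    rw [Measure.restrict_univ] at this
    exact this.integrable_norm_pow (by norm_num)
  rw [← n2_beu hcc, n2_sq, n2_sq, n2_sq, Measure.restrict_univ, ← integral_const_mul,
    ← integral_indicator hE, ← integral_add (hB.const_mul _) (hB.indicator hE)]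
  refine integral_mono hA ((hB.const_mul _).add (hB.indicator hE)) ?_
  intro z
  show ‖μ z * beu (itr μ μ n) z‖ ^ 2 ≤ (1 - 2 / (t + 1)) ^ 2 * ‖beu (itr μ μ n) z‖ ^ 2 +
    (A24c_E μ t).indicator (fun z => ‖beu (itr μ μ n) z‖ ^ 2) z
  rw [norm_mul, mul_pow]
  have hb : 0 ≤ ‖beu (itr μ μ n) z‖ ^ 2 := sq_nonneg _
  have hi : 0 ≤ (A24c_E μ t).indicator (fun z => ‖beu (itr μ μ n) z‖ ^ 2) z :=
    indicator_nonneg (fun z _ => sq_nonneg _) z
  by_cases hz : z ∈ Metric.ball (0 : ℂ) 1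
  · by_cases hk : t < kap ‖μ z‖
    · have hzE : z ∈ A24c_E μ t := ⟨hz, hk⟩
      rw [indicator_of_mem hzE]
      have h2 : ‖μ z‖ ^ 2 ≤ 1 := pow_le_one₀ (norm_nonneg _) (h1 z).le
      have h3 : ‖μ z‖ ^ 2 * ‖beu (itr μ μ n) z‖ ^ 2 ≤ 1 * ‖beu (itr μ μ n) z‖ ^ 2 :=
        mul_le_mul_of_nonneg_right h2 hb
      have h4 : 0 ≤ (1 - 2 / (t + 1)) ^ 2 * ‖beu (itr μ μ n) z‖ ^ 2 := by positivity
      linarith
    · have h2 := A24c_off (norm_nonneg (μ z)) (h1 z) ht (not_lt.1 hk)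
      have h3 := mul_le_mul_of_nonneg_right h2 hb
      linarith
  · rw [A24c_zero hμ hz]
    have h4 : 0 ≤ (1 - 2 / (t + 1)) ^ 2 * ‖beu (itr μ μ n) z‖ ^ 2 := by positivity
    simp only [norm_zero]
    have : (0 : ℝ) ^ 2 * ‖beu (itr μ μ n) z‖ ^ 2 = 0 := by ring
    rw [this]
    linarith

theorem A24c_a0 {μ : ℂ → ℂ} (hμ : Cc (Metric.ball 0 1) μ) (h1 : ∀ z, ‖μ z‖ < 1) :
    n2 univ (itr μ μ 0) ^ 2 ≤ 4 := by
  have hA : Integrable (fun z => ‖μ z‖ ^ 2) := by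
    have := hμ.memLp univ
    rw [Measure.restrict_univ] at this
    exact this.integrable_norm_pow (by norm_num)
  rw [n2_sq, Measure.restrict_univ]
  show ∫ z, ‖μ z‖ ^ 2 ≤ 4
  have h2 : ∫ z, ‖μ z‖ ^ 2 ≤ ∫ z, (Metric.ball (0 : ℂ) 1).indicator (fun _ => (1 : ℝ)) z := by
    refine integral_mono hA ?_ ?_
    · exact (integrable_indicator_iff Metric.isOpen_ball.measurableSet).2
        (integrableOn_const measure_ball_lt_top.ne)
    · intro z
      show ‖μ z‖ ^ 2 ≤ (Metric.ball (0 : ℂ) 1).indicator (fun _ => (1 : ℝ)) z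
      by_cases hz : z ∈ Metric.ball (0 : ℂ) 1
      · rw [indicator_of_mem hz]
        exact pow_le_one₀ (norm_nonneg _) (h1 z).le
      · rw [indicator_of_notMem hz, A24c_zero hμ hz]
        simp
  rw [integral_indicator Metric.isOpen_ball.measurableSet, setIntegral_const, smul_eq_mul,
    mul_one] at h2
  have h3 : volume.real (Metric.ball (0 : ℂ) 1) = Real.pi := A24c_vol
  rw [h3] at h2
  exact h2.trans Real.pi_le_four

/-- A24c. PROOF. `a n = n2 univ (itr μ μ n) ^ 2`, `t = c0 (n + 1)`, `E = {z ∈ ball 0 1 | t < kap ‖μ z‖}`, `|E| ≤ M exp (-p t)` (Markov), `|E| ≤ π ≤ 4`. Off `E`: `‖μ z‖ ≤ (t-1)/(t+1) = 1 - 2/(t+1)` (if `t < 1` there is no such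
point), so `a (n+1) = ∫ |μ|² |beu (itr μ μ n)|² ≤ (1 - 2/(t+1))² n2 univ (beu ..)² + n2 E (beu ..)²`; `n2_beu`, `coef_le` with the `ρ, r` of `par_decay`, `rec_decay`. `a 0 = ∫ |μ|² ≤ π`. -/
theorem decay {p b M : ℝ} (hb : 0 < b) (hbp : b < p) (hM : 0 ≤ M) :
    ∃ D : ℝ, 0 ≤ D ∧ ∀ μ : ℂ → ℂ, Cc (Metric.ball 0 1) μ → (∀ z, ‖μ z‖ < 1) →
      ∫ z in Metric.ball (0 : ℂ) 1, Real.exp (p * kap ‖μ z‖) ≤ M →
      ∀ n, n2 univ (itr μ μ n) ^ 2 ≤ D * ((n : ℝ) + 1) ^ (-b) := by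
  obtain ⟨C0, hC0, hcoef⟩ := coef_le
  obtain ⟨c0, C, hc0, hbc, hC, hpar⟩ := par_decay hb hbp hM hC0
  obtain ⟨D, hD, hrec⟩ := rec_decay hc0 hb hbc hC (A0 := 4) (by norm_num)
  refine ⟨D, hD, ?_⟩
  intro μ hμ h1 hI
  refine hrec (fun n => n2 univ (itr μ μ n) ^ 2) (fun n => sq_nonneg _) (A24c_a0 hμ h1) ?_
  intro n
  have ht : 0 < c0 * ((n : ℝ) + 1) := by positivity
  have hs := A24c_step hμ h1 ht n
  have hm := A24c_markov hμ h1 (hb.trans hbp) hI (c0 * ((n : ℝ) + 1))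
  rw [← mul_assoc] at hm
  obtain ⟨ρ, r, hρ, hρr, hr, hle⟩ := hpar n _ ENNReal.toReal_nonneg (A24c_le4 μ _) hm
  have hc := hcoef μ hμ h1 ρ r hρ hρr hr _ (A24c_meas hμ h1 (c0 * ((n : ℝ) + 1))) (A24c_sub μ _) n
  have := hc.trans hle
  show n2 univ (itr μ μ (n + 1)) ^ 2 ≤ (1 - 2 / (c0 * ((n : ℝ) + 1) + 1)) ^ 2 *
    n2 univ (itr μ μ n) ^ 2 + C * ((n : ℝ) + 1) ^ (-(b + 2))
  linarith

end

end Pool.B2F
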