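import Pool.Agent.Lib.MP_b2f128_an.Base

/-!
# MP_b2f128_an, part A25a (smooth Beltrami equation and area distortion)
-/

open Complex MeasureTheory Set Filter Topology
open scoped ContDiff

namespace Pool.B2F

noncomputable section

/-- A25a. `ρ = 1/2`, `r = 3/4` suffice: `4 ^ (n+1) ≤ exp (L log 4 / 8) ≤ exp (0.1733 L)` and
`x ^ (1/5) ≤ exp (- L / 5)`, so the product is at most `16 C0 exp (-L/40)`. -/
theorem par_large (s : ℝ) {C0 : ℝ} (hC0 : 1 ≤ C0) : ∃ C : ℝ, 0 ≤ C ∧ ∀ (L x : ℝ), 1 ≤ L → 0 ≤ x →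
    x ≤ Real.exp (-L) → ∀ n : ℕ, (n : ℝ) + 1 ≤ L / 8 → ∃ ρ r : ℝ, 0 < ρ ∧ ρ < r ∧ r < 1 ∧
      (1 / ρ) ^ (2 * (n + 1)) * (C0 / (1 - r) ^ 2) * x ^ ((r - ρ) / (r + ρ)) ≤ C * L ^ (-s) := by
  obtain ⟨k, hk⟩ := exists_nat_ge s
  refine ⟨16 * C0 * ((k.factorial : ℝ) * 40 ^ k), by positivity, ?_⟩
  intro L x hL hx hxL n hn
  refine ⟨1 / 2, 3 / 4, by norm_num, by norm_num, by norm_num, ?_⟩
  have hθ : ((3 / 4 : ℝ) - 1 / 2) / (3 / 4 + 1 / 2) = 1 / 5 := by norm_num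
  have hC : C0 / (1 - (3 / 4 : ℝ)) ^ 2 = 16 * C0 := by norm_num; ring
  rw [hθ, hC]
  have h1 : (1 / (1 / 2 : ℝ)) ^ (2 * (n + 1)) = Real.exp (((n : ℝ) + 1) * (2 * Real.log 2)) := by
    rw [one_div_one_div, pow_mul]
    have h2 : (2 : ℝ) ^ 2 = Real.exp (2 * Real.log 2) := by
      rw [mul_comm, Real.exp_mul, Real.exp_log (by norm_num)]
      exact_mod_cast rfl
    rw [h2, ← Real.exp_nat_mul]
    congr 1
    push_cast
    ring
  have h2 : x ^ (1 / 5 : ℝ) ≤ Real.exp (-L / 5) := by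
    calc x ^ (1 / 5 : ℝ) ≤ (Real.exp (-L)) ^ (1 / 5 : ℝ) :=
          Real.rpow_le_rpow hx hxL (by norm_num)
      _ = Real.exp (-L / 5) := by
          rw [← Real.exp_mul]
          congr 1
          ring
  have hlog : Real.log 2 < 0.6931471808 := Real.log_two_lt_d9
  have hlog0 : 0 < Real.log 2 := Real.log_pos (by norm_num)
  have h3 : Real.exp (((n : ℝ) + 1) * (2 * Real.log 2)) * Real.exp (-L / 5)
      ≤ Real.exp (-(L / 40)) := by
    rw [← Real.exp_add]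
    apply Real.exp_le_exp.mpr
    have h4 : ((n : ℝ) + 1) * (2 * Real.log 2) ≤ L / 8 * (2 * Real.log 2) :=
      mul_le_mul_of_nonneg_right hn (by positivity)
    nlinarith
  have h4 : Real.exp (-(L / 40)) ≤ (k.factorial : ℝ) * 40 ^ k * L ^ (-(k : ℝ)) := by
    have hL0 : 0 < L := by linarith
    have h5 := Real.pow_div_factorial_le_exp (L / 40) (by positivity) k
    rw [Real.exp_neg, Real.rpow_neg hL0.le, Real.rpow_natCast]
    rw [inv_le_iff_one_le_mul₀ (Real.exp_pos _)]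
    have hf : (0 : ℝ) < (k.factorial : ℝ) := by exact_mod_cast Nat.factorial_pos k
    calc (1 : ℝ) = (k.factorial : ℝ) * 40 ^ k * (L ^ k)⁻¹ * ((L / 40) ^ k / (k.factorial : ℝ)) := by
          rw [div_pow]
          field_simp
      _ ≤ (k.factorial : ℝ) * 40 ^ k * (L ^ k)⁻¹ * Real.exp (L / 40) :=
          mul_le_mul_of_nonneg_left h5 (by positivity)
  have h5 : L ^ (-(k : ℝ)) ≤ L ^ (-s) :=
    Real.rpow_le_rpow_of_exponent_le hL (by linarith)
  rw [h1]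
  calc Real.exp (((n : ℝ) + 1) * (2 * Real.log 2)) * (16 * C0) * x ^ (1 / 5 : ℝ)
      ≤ Real.exp (((n : ℝ) + 1) * (2 * Real.log 2)) * (16 * C0) * Real.exp (-L / 5) :=
        mul_le_mul_of_nonneg_left h2 (by positivity)
    _ = 16 * C0 * (Real.exp (((n : ℝ) + 1) * (2 * Real.log 2)) * Real.exp (-L / 5)) := by ring
    _ ≤ 16 * C0 * Real.exp (-(L / 40)) := mul_le_mul_of_nonneg_left h3 (by positivity)
    _ ≤ 16 * C0 * ((k.factorial : ℝ) * 40 ^ k * L ^ (-(k : ℝ))) :=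
        mul_le_mul_of_nonneg_left h4 (by positivity)
    _ ≤ 16 * C0 * ((k.factorial : ℝ) * 40 ^ k * L ^ (-s)) := by
        apply mul_le_mul_of_nonneg_left _ (by positivity)
        exact mul_le_mul_of_nonneg_left h5 (by positivity)
    _ = 16 * C0 * ((k.factorial : ℝ) * 40 ^ k) * L ^ (-s) := by ring

end

end Pool.B2F
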