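import Pool.Agent.Lib.MP_b2f128_an.Base
import Pool.Agent.Lib.MP_b2f128_an.A00
import Pool.Agent.Lib.MP_b2f128_an.A02b
import Pool.Agent.Lib.MP_b2f128_an.A06
import Pool.Agent.Lib.MP_b2f128_an.A09
import Pool.Agent.Lib.MP_b2f128_an.A12
import Pool.Agent.Lib.MP_b2f128_an.A16
import Pool.Agent.Lib.MP_b2f128_an.A20
import Pool.Agent.Lib.MP_b2f128_an.A23
import Pool.Agent.Lib.MP_b2f128_an.A24c
import Pool.Agent.Lib.MP_b2f128_an.A25a

/-!
# MP_b2f128_an, part A25b (smooth Beltrami equation and area distortion)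
-/

open Complex MeasureTheory Set Filter Topology
open scoped ContDiff

namespace Pool.B2F

noncomputable section

theorem A25b_tel {a : ℝ} (ha : 0 < a) {x : ℝ} (hx : 1 ≤ x) :
    x ^ (-(1 + a)) ≤ (2 ^ (1 + a) / a) * (x ^ (-a) - (x + 1) ^ (-a)) := by
  have hx0 : 0 < x := by linarith
  have hx1 : 0 < x + 1 := by linarith
  have h1 : a * ((x + 1)⁻¹ * (x + 1) ^ (-a)) ≤ x ^ (-a) - (x + 1) ^ (-a) := by
    have h2 : 1 + a * (x + 1)⁻¹ ≤ (x / (x + 1)) ^ (-a) := by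
      have hpos : 0 < x / (x + 1) := by positivity
      rw [Real.rpow_def_of_pos hpos]
      have h3 : Real.log (x / (x + 1)) ≤ -(x + 1)⁻¹ := by
        have h5 := Real.log_le_sub_one_of_pos hpos
        have h4 : x / (x + 1) - 1 = -(x + 1)⁻¹ := by field_simp; ring
        linarith
      have h5 : a * (x + 1)⁻¹ ≤ Real.log (x / (x + 1)) * (-a) := by nlinarith
      linarith [Real.add_one_le_exp (Real.log (x / (x + 1)) * (-a))]
    have h6 : (x / (x + 1)) ^ (-a) = x ^ (-a) / (x + 1) ^ (-a) := Real.div_rpow hx0.le hx1.le _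
    rw [h6, le_div_iff₀ (by positivity)] at h2
    linarith
  have h7 : (x + 1)⁻¹ * (x + 1) ^ (-a) = (x + 1) ^ (-(1 + a)) := by
    rw [show -(1 + a) = -1 + -a by ring, Real.rpow_add hx1, Real.rpow_neg_one]
  rw [h7] at h1
  have h8 : (2 * x) ^ (-(1 + a)) ≤ (x + 1) ^ (-(1 + a)) :=
    Real.rpow_le_rpow_of_nonpos hx1 (by linarith) (by linarith)
  have h9 : (2 * x) ^ (-(1 + a)) = 2 ^ (-(1 + a)) * x ^ (-(1 + a)) := Real.mul_rpow (by norm_num) hx0.le
  rw [h9, Real.rpow_neg (by norm_num) (1 + a)] at h8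
  have h2p : (0 : ℝ) < 2 ^ (1 + a) := by positivity
  calc x ^ (-(1 + a)) = 2 ^ (1 + a) * ((2 ^ (1 + a))⁻¹ * x ^ (-(1 + a))) := by field_simp
    _ ≤ 2 ^ (1 + a) * (x + 1) ^ (-(1 + a)) := by gcongr
    _ = (2 ^ (1 + a) / a) * (a * (x + 1) ^ (-(1 + a))) := by field_simp
    _ ≤ (2 ^ (1 + a) / a) * (x ^ (-a) - (x + 1) ^ (-a)) := by gcongr

theorem A25b_tail {a : ℝ} (ha : 0 < a) (N : ℕ) :
    Summable (fun n : ℕ => ((n : ℝ) + N + 1) ^ (-(1 + a))) ∧
    ∑' n : ℕ, ((n : ℝ) + N + 1) ^ (-(1 + a)) ≤ (2 ^ (1 + a) / a) * ((N : ℝ) + 1) ^ (-a) := by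
  have hs : ∀ K : ℕ, ∑ n ∈ Finset.range K, ((n : ℝ) + N + 1) ^ (-(1 + a)) ≤
      (2 ^ (1 + a) / a) * (((N : ℝ) + 1) ^ (-a) - ((K : ℝ) + N + 1) ^ (-a)) := by
    intro K
    induction K with
    | zero => simp
    | succ K ih =>
      rw [Finset.sum_range_succ]
      have h0 : (1 : ℝ) ≤ (K : ℝ) + N + 1 := by
        have h1 : (0 : ℝ) ≤ (K : ℝ) := Nat.cast_nonneg _
        have h2 : (0 : ℝ) ≤ (N : ℝ) := Nat.cast_nonneg _
        linarith
      have h3 := A25b_tel ha h0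
      have e : ((K + 1 : ℕ) : ℝ) + N + 1 = (K : ℝ) + N + 1 + 1 := by push_cast; ring
      rw [e]
      rw [mul_sub] at h3 ih ⊢
      linarith
  have hs' : ∀ K : ℕ, ∑ n ∈ Finset.range K, ((n : ℝ) + N + 1) ^ (-(1 + a)) ≤
      (2 ^ (1 + a) / a) * ((N : ℝ) + 1) ^ (-a) := by
    intro K
    refine (hs K).trans ?_
    have h1 : (0 : ℝ) ≤ ((K : ℝ) + N + 1) ^ (-a) := by positivity
    have h2 : (0 : ℝ) ≤ 2 ^ (1 + a) / a := by positivity
    rw [mul_sub]
    nlinarith [mul_nonneg h2 h1]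
  exact ⟨summable_of_sum_range_le (fun n => by positivity) hs',
    Real.tsum_le_of_sum_range_le (fun n => by positivity) hs'⟩

theorem A25b_main {μ : ℂ → ℂ} (hμ : Cc (Metric.ball 0 1) μ) (h1 : ∀ z, ‖μ z‖ < 1) {E : Set ℂ}
    (hE : MeasurableSet E) (hE1 : E ⊆ Metric.ball 0 1) {a : ℕ → ℝ}
    (ha : ∀ n, n2 E (beu (itr μ μ n)) ≤ a n) (hsum : Summable a) :
    n2 E (aa μ 1) ≤ Real.sqrt (volume E).toReal + ∑' n, a n := by
  have hfin : volume E ≠ ⊤ := measure_ne_top_of_subset hE1 measure_ball_lt_top.ne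
  obtain ⟨C, q, hC, hq0, hq, hb, haa⟩ := aa_series hμ h1
  have hcont : ∀ n, Continuous (beu (itr μ μ n)) := fun n =>
    (cau_smooth ((itr_cc hμ hμ n).dz.mono (subset_univ _))).continuous
  have heq : aa μ 1 = fun z => (1 : ℂ) + ∑' n, beu (itr μ μ n) z := by
    funext z
    simpa using haa 1 (by simp) z
  have hT := n2_tsum_le hE hfin hcont hq hq0 hb ha hsum
  have hcaa : Continuous (aa μ 1) := aa_continuous hμ h1 (by simp)
  have : IsFiniteMeasure (volume.restrict E) := ⟨by simpa using lt_top_iff_ne_top.mpr hfin⟩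
  have hmem2 : MemLp (fun z => ∑' n, beu (itr μ μ n) z) 2 (volume.restrict E) := by
    have h2 : (fun z => ∑' n, beu (itr μ μ n) z) = fun z => aa μ 1 z - 1 := by
      funext z; rw [heq]; simp
    refine MemLp.of_bound ?_ (C * (1 - q)⁻¹) ?_
    · rw [h2]; exact (hcaa.sub continuous_const).aestronglyMeasurable
    · filter_upwards with z
      have hg : HasSum (fun n : ℕ => C * q ^ n) (C * (1 - q)⁻¹) :=
        (hasSum_geometric_of_lt_one hq0.le hq).mul_left C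
      exact tsum_of_norm_bounded hg (fun n => hb n z)
  have h3 := n2_add_le (s := E) (f := fun _ => (1 : ℂ)) (g := fun z => ∑' n, beu (itr μ μ n) z)
    (memLp_const 1) hmem2
  have h4 : n2 E (fun _ => (1 : ℂ)) = Real.sqrt (volume E).toReal := by
    unfold n2; simp [Measure.real]
  rw [heq]
  rw [h4] at h3
  linarith

theorem A25b_exp {a : ℝ} {L : ℝ} (hL : 1 ≤ L) :
    Real.exp (-(L / 2)) ≤ ((⌈a⌉₊.factorial : ℝ) * 2 ^ ⌈a⌉₊) * L ^ (-a) := by
  have hL0 : 0 < L := by linarith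
  have h1 : L ^ a ≤ L ^ ⌈a⌉₊ := by
    rw [← Real.rpow_natCast]
    exact Real.rpow_le_rpow_of_exponent_le hL (Nat.le_ceil a)
  have h2 := Real.pow_div_factorial_le_exp (L / 2) (by positivity) ⌈a⌉₊
  have hf : (0 : ℝ) < (⌈a⌉₊.factorial : ℝ) := by exact_mod_cast Nat.factorial_pos _
  have h3 : L ^ ⌈a⌉₊ ≤ ((⌈a⌉₊.factorial : ℝ) * 2 ^ ⌈a⌉₊) * Real.exp (L / 2) := by
    rw [div_pow, div_div, div_le_iff₀ (by positivity)] at h2
    linarith
  have h4 : L ^ a ≤ ((⌈a⌉₊.factorial : ℝ) * 2 ^ ⌈a⌉₊) * Real.exp (L / 2) := h1.trans h3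
  rw [Real.exp_neg, Real.rpow_neg hL0.le, ← div_eq_mul_inv, le_div_iff₀ (by positivity), inv_mul_eq_div,
    div_le_iff₀ (Real.exp_pos _)]
  exact h4

/-- A25b. PROOF. `aa μ 1 = 1 + ∑ beu (itr μ μ n)` (`aa_series`), `n2_tsum_le`: `n2 E (aa μ 1) ≤ |E|^(1/2) + ∑_n n2 E (beu (itr μ μ n))`. Terms with `n + 1 ≤ L/8`: `coef_le`, `par_large` with `s = b + 4` (there are at most `L` of
them). Terms with `n + 1 > L/8`: `n2 E ≤ n2 univ (itr μ μ n) ≤ (D (n+1)^(-b))^(1/2)`, and `∑_{n+1 > L/8} (n+1)^(-b/2) ≤ C L^(1 - b/2)` as `b > 2`. First claim: the same with `E = ball 0 1` and only `decay`. -/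
theorem large_p {p b M : ℝ} (hb : 2 < b) (hbp : b < p) (hM : 0 ≤ M) :
    ∃ C : ℝ, 0 < C ∧ ∀ μ : ℂ → ℂ, Cc (Metric.ball 0 1) μ → (∀ z, ‖μ z‖ < 1) →
      ∫ z in Metric.ball (0 : ℂ) 1, Real.exp (p * kap ‖μ z‖) ≤ M →
      (∫ z in Metric.ball (0 : ℂ) 1, ‖aa μ 1 z‖ ^ 2 ≤ C) ∧
      ∀ (L : ℝ) (E : Set ℂ), 1 ≤ L → MeasurableSet E → E ⊆ Metric.ball 0 1 →
        (volume E).toReal ≤ Real.exp (-L) → ∫ z in E, ‖aa μ 1 z‖ ^ 2 ≤ C * L ^ (2 - b) := by
  obtain ⟨D, hD, hdec⟩ := decay (p := p) (b := b) (M := M) (by linarith) hbp hM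
  obtain ⟨C0, hC0, hcoef⟩ := coef_le
  obtain ⟨C1, hC1, hpar⟩ := par_large b hC0
  obtain ⟨a, ha⟩ : ∃ a : ℝ, a = b / 2 - 1 := ⟨_, rfl⟩
  have ha0 : 0 < a := by rw [ha]; linarith
  have hab : b = 2 * (1 + a) := by rw [ha]; ring
  obtain ⟨K, hK⟩ : ∃ K : ℝ, K = 2 ^ (1 + a) / a := ⟨_, rfl⟩
  have hK0 : 0 ≤ K := by rw [hK]; positivity
  obtain ⟨K1, hK1⟩ : ∃ K1 : ℝ, K1 = Real.sqrt (volume (Metric.ball (0 : ℂ) 1)).toReal + Real.sqrt D * K :=
    ⟨_, rfl⟩
  obtain ⟨K2, hK2⟩ : ∃ K2 : ℝ, K2 = ((⌈a⌉₊.factorial : ℝ) * 2 ^ ⌈a⌉₊) + (Real.sqrt C1 +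
    Real.sqrt D * (K * 8 ^ a)) := ⟨_, rfl⟩
  have hsq : ∀ y : ℝ, 0 < y → y ^ (-b) = (y ^ (-(1 + a))) ^ 2 := by
    intro y hy
    rw [← Real.rpow_natCast (y ^ (-(1 + a))) 2, ← Real.rpow_mul hy.le]
    congr 1
    rw [hab]; push_cast; ring
  refine ⟨K1 ^ 2 + K2 ^ 2 + 1, by positivity, fun μ hμ h1 hint => ?_⟩
  have hterm : ∀ (E : Set ℂ) (n : ℕ), n2 E (beu (itr μ μ n)) ≤ Real.sqrt D * ((n : ℝ) + 1) ^ (-(1 + a)) := by
    intro E n
    have h2 : n2 E (beu (itr μ μ n)) ≤ n2 univ (beu (itr μ μ n)) :=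
      n2_mono (subset_univ _) (beu_memLp (itr_cc hμ hμ n) univ)
    rw [n2_beu (itr_cc hμ hμ n)] at h2
    refine h2.trans ?_
    have h3 := hdec μ hμ h1 hint n
    have hn : (0 : ℝ) < (n : ℝ) + 1 := by positivity
    rw [hsq _ hn] at h3
    rw [← sq_le_sq₀ (n2_nonneg _ _) (by positivity), mul_pow, Real.sq_sqrt hD]
    exact h3
  constructor
  · have hs := A25b_tail ha0 0
    simp only [Nat.cast_zero, add_zero, zero_add, Real.one_rpow, mul_one] at hs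
    have h4 := A25b_main hμ h1 measurableSet_ball (subset_refl _) (hterm _) (hs.1.mul_left (Real.sqrt D))
    rw [tsum_mul_left] at h4
    have h5 : n2 (Metric.ball 0 1) (aa μ 1) ≤ K1 := by
      rw [hK1, hK]
      refine h4.trans ?_
      gcongr
      exact hs.2
    have h6 : n2 (Metric.ball 0 1) (aa μ 1) ^ 2 ≤ K1 ^ 2 := by
      have := n2_nonneg (Metric.ball 0 1) (aa μ 1)
      gcongr
    rw [n2_sq] at h6
    nlinarith [sq_nonneg K2]
  · intro L E hL hE hE1 hEL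
    have hL0 : 0 < L := by linarith
    obtain ⟨N, hN⟩ : ∃ N : ℕ, N = ⌊L / 8⌋₊ := ⟨_, rfl⟩
    have hNle : (N : ℝ) ≤ L / 8 := by rw [hN]; exact Nat.floor_le (by positivity)
    have hNlt : L / 8 < (N : ℝ) + 1 := by rw [hN]; exact Nat.lt_floor_add_one _
    let A : ℕ → ℝ := fun n => if n < N then Real.sqrt C1 * L ^ (-(1 + a)) else
      Real.sqrt D * ((n : ℝ) + 1) ^ (-(1 + a))
    have hA : ∀ n, n2 E (beu (itr μ μ n)) ≤ A n := by
      intro n
      by_cases hn : n < N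
      · simp only [A, if_pos hn]
        have hn8 : (n : ℝ) + 1 ≤ L / 8 := by
          have : (n : ℝ) + 1 ≤ N := by exact_mod_cast hn
          linarith
        obtain ⟨ρ, r, hρ, hρr, hr, hle⟩ := hpar L (volume E).toReal hL ENNReal.toReal_nonneg hEL n hn8
        have h2 := (hcoef μ hμ h1 ρ r hρ hρr hr E hE hE1 n).trans hle
        rw [hsq _ hL0] at h2
        rw [← sq_le_sq₀ (n2_nonneg _ _) (by positivity), mul_pow, Real.sq_sqrt hC1]
        exact h2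
      · simp only [A, if_neg hn]
        exact hterm E n
    have hAN : ∀ n, A (n + N) = Real.sqrt D * ((n : ℝ) + N + 1) ^ (-(1 + a)) := by
      intro n
      simp only [A, if_neg (by omega : ¬ n + N < N)]
      push_cast; rfl
    have hs := A25b_tail ha0 N
    have hsumN : Summable (fun n => A (n + N)) := by
      simp only [hAN]
      exact hs.1.mul_left _
    have hsum : Summable A := (summable_nat_add_iff N).mp hsumN
    have h4 := A25b_main hμ h1 hE hE1 hA hsum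
    have h5 : ∑ n ∈ Finset.range N, A n ≤ Real.sqrt C1 * L ^ (-a) := by
      have h6 : ∑ n ∈ Finset.range N, A n = (N : ℝ) * (Real.sqrt C1 * L ^ (-(1 + a))) := by
        rw [Finset.sum_congr rfl (g := fun _ => Real.sqrt C1 * L ^ (-(1 + a)))]
        · simp
        · intro n hn
          simp only [A, if_pos (Finset.mem_range.mp hn)]
      rw [h6]
      have h7 : L * L ^ (-(1 + a)) = L ^ (-a) := by
        nth_rewrite 1 [← Real.rpow_one L]
        rw [← Real.rpow_add hL0]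
        congr 1; ring
      calc (N : ℝ) * (Real.sqrt C1 * L ^ (-(1 + a))) ≤ L * (Real.sqrt C1 * L ^ (-(1 + a))) := by
            gcongr; linarith
        _ = Real.sqrt C1 * (L * L ^ (-(1 + a))) := by ring
        _ = Real.sqrt C1 * L ^ (-a) := by rw [h7]
    have h8 : ∑' n, A (n + N) ≤ Real.sqrt D * (K * 8 ^ a) * L ^ (-a) := by
      simp only [hAN]
      rw [tsum_mul_left]
      have h9 : ((N : ℝ) + 1) ^ (-a) ≤ 8 ^ a * L ^ (-a) := by
        have h10 : ((N : ℝ) + 1) ^ (-a) ≤ (L / 8) ^ (-a) :=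
          Real.rpow_le_rpow_of_nonpos (by positivity) hNlt.le (by linarith)
        have h11 : (L / 8) ^ (-a) = 8 ^ a * L ^ (-a) := by
          rw [Real.div_rpow hL0.le (by norm_num), Real.rpow_neg (by norm_num : (0 : ℝ) ≤ 8)]
          field_simp
        linarith
      calc Real.sqrt D * ∑' n : ℕ, ((n : ℝ) + N + 1) ^ (-(1 + a))
          ≤ Real.sqrt D * (K * ((N : ℝ) + 1) ^ (-a)) := by
            rw [hK]; gcongr; exact hs.2
        _ ≤ Real.sqrt D * (K * (8 ^ a * L ^ (-a))) := by gcongr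
        _ = Real.sqrt D * (K * 8 ^ a) * L ^ (-a) := by ring
    have h12 : Real.sqrt (volume E).toReal ≤ ((⌈a⌉₊.factorial : ℝ) * 2 ^ ⌈a⌉₊) * L ^ (-a) := by
      refine le_trans ?_ (A25b_exp hL)
      rw [Real.sqrt_le_left (Real.exp_pos _).le, ← Real.exp_nat_mul]
      refine hEL.trans (le_of_eq ?_)
      congr 1; push_cast; ring
    have h13 : n2 E (aa μ 1) ≤ K2 * L ^ (-a) := by
      rw [← hsum.sum_add_tsum_nat_add N] at h4
      rw [hK2]
      nlinarith [h4, h5, h8, h12]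
    have hK20 : 0 ≤ K2 := by rw [hK2]; positivity
    have h14 : n2 E (aa μ 1) ^ 2 ≤ (K2 * L ^ (-a)) ^ 2 := by
      have := n2_nonneg E (aa μ 1)
      gcongr
    have h15 : (L ^ (-a)) ^ 2 = L ^ (2 - b) := by
      rw [← Real.rpow_natCast (L ^ (-a)) 2, ← Real.rpow_mul hL0.le]
      congr 1
      rw [hab]; push_cast; ring
    rw [n2_sq, mul_pow, h15] at h14
    have h16 : 0 ≤ L ^ (2 - b) := by positivity
    nlinarith [sq_nonneg K1, mul_nonneg (sq_nonneg K1) h16]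

end

end Pool.B2F
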