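import Pool.Agent.Lib.MP_b2f128_an.Base

/-!
# MP_b2f128_an, part A26 (smooth Beltrami equation and area distortion)
-/

open Complex MeasureTheory Set Filter Topology
open scoped ContDiff

namespace Pool.B2F

noncomputable section

theorem A26_den {e a : ℝ} (he0 : 0 < e) (ha0 : 0 ≤ a) (ha : a < 1) :
    0 < 1 - (1 - e) * a ^ 2 := by
  have h2 : a ^ 2 < 1 := by nlinarith
  nlinarith [sq_nonneg a, mul_nonneg he0.le (sq_nonneg a)]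

theorem A26_norm {e : ℝ} (he0 : 0 < e) {μ : ℂ → ℂ} {z : ℂ} (h1 : ‖μ z‖ < 1) :
    ‖muh e μ z‖ = e * ‖μ z‖ / (1 - (1 - e) * ‖μ z‖ ^ 2) := by
  have hd := A26_den he0 (norm_nonneg (μ z)) h1
  unfold muh
  rw [norm_div, norm_mul, Complex.norm_real, Complex.norm_real, Real.norm_of_nonneg he0.le,
    Real.norm_of_nonneg hd.le]

theorem muh_cc {e : ℝ} (he0 : 0 < e) (he1 : e < 1) {U : Set ℂ} {μ : ℂ → ℂ} (hμ : Cc U μ)
    (h1 : ∀ z, ‖μ z‖ < 1) : Cc U (muh e μ) ∧ tsupport (muh e μ) ⊆ tsupport μ := by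
  have hs : tsupport (muh e μ) ⊆ tsupport μ := by
    apply closure_mono
    intro z hz hz0
    apply hz
    simp only [muh, hz0, mul_zero, zero_div]
  have hsm : ContDiff ℝ ∞ (muh e μ) := by
    have h2 : ContDiff ℝ ∞ (fun z => ((1 - (1 - e) * ‖μ z‖ ^ 2 : ℝ) : ℂ)) := by
      have h3 : ContDiff ℝ ∞ (fun z => (1 - (1 - e) * ‖μ z‖ ^ 2 : ℝ)) :=
        contDiff_const.sub (contDiff_const.mul (hμ.smooth.norm_sq ℝ))
      exact Complex.ofRealCLM.contDiff.comp h3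
    have h4 : ∀ z, ((1 - (1 - e) * ‖μ z‖ ^ 2 : ℝ) : ℂ) ≠ 0 := by
      intro z
      have hd := A26_den he0 (norm_nonneg (μ z)) (h1 z)
      exact_mod_cast hd.ne'
    have h5 : ContDiff ℝ ∞ (fun z => (e : ℂ) * μ z * ((1 - (1 - e) * ‖μ z‖ ^ 2 : ℝ) : ℂ)⁻¹) :=
      (contDiff_const.mul hμ.smooth).mul (h2.inv h4)
    have h6 : muh e μ = fun z => (e : ℂ) * μ z * ((1 - (1 - e) * ‖μ z‖ ^ 2 : ℝ) : ℂ)⁻¹ := by
      funext z
      unfold muh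
      rw [div_eq_mul_inv]
    rw [h6]
    exact h5
  refine ⟨⟨hsm, ?_, hs.trans hμ.sub⟩, hs⟩
  exact IsCompact.of_isClosed_subset hμ.cpt isClosed_closure hs

theorem muh_lt {e : ℝ} (he0 : 0 < e) (he1 : e < 1) {μ : ℂ → ℂ} {z : ℂ} (h1 : ‖μ z‖ < 1) :
    ‖muh e μ z‖ < 1 := by
  rw [A26_norm he0 h1]
  have hd := A26_den he0 (norm_nonneg (μ z)) h1
  rw [div_lt_one hd]
  have h2 : 0 < (1 - ‖μ z‖) * (1 + (1 - e) * ‖μ z‖) := by
    apply mul_pos (by linarith)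
    nlinarith [mul_nonneg (sub_nonneg.2 he1.le) (norm_nonneg (μ z))]
  nlinarith [h2]

/-- PROOF. `a = ‖μ z‖`, `b = e a / (1 - (1-e) a²)`: `kap b = kap a (1 - (1-e) a) / (1 + (1-e) a)`, and `kap b - kap a e/(2-e) = 2 (1-e)(1+a) / ((1 + (1-e) a)(2-e)) ≤ 1`. -/
theorem kap_muh {e : ℝ} (he0 : 0 < e) (he1 : e < 1) {μ : ℂ → ℂ} {z : ℂ} (h1 : ‖μ z‖ < 1) :
    kap ‖muh e μ z‖ ≤ e / (2 - e) * kap ‖μ z‖ + 1 := by
  have ha0 := norm_nonneg (μ z)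
  rw [A26_norm he0 h1]
  generalize ‖μ z‖ = a at *
  have hd := A26_den he0 ha0 h1
  have h1a : 0 < 1 - a := by linarith
  have he2 : 0 < 2 - e := by linarith
  have hq : 0 < 1 + (1 - e) * a := by nlinarith [mul_nonneg (sub_nonneg.2 he1.le) ha0]
  have hd0 : 1 - (1 - e) * a ^ 2 ≠ 0 := hd.ne'
  have h1a0 : 1 - a ≠ 0 := h1a.ne'
  have he20 : 2 - e ≠ 0 := he2.ne'
  have hq0 : 1 + (1 - e) * a ≠ 0 := hq.ne'
  have hk : kap (e * a / (1 - (1 - e) * a ^ 2)) =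
      (1 + a) * (1 - (1 - e) * a) / ((1 - a) * (1 + (1 - e) * a)) := by
    unfold kap
    have hn : 1 - e * a / (1 - (1 - e) * a ^ 2) =
        ((1 - a) * (1 + (1 - e) * a)) / (1 - (1 - e) * a ^ 2) := by
      rw [eq_div_iff hd0, sub_mul, div_mul_cancel₀ _ hd0]
      ring
    have hp : 1 + e * a / (1 - (1 - e) * a ^ 2) =
        ((1 + a) * (1 - (1 - e) * a)) / (1 - (1 - e) * a ^ 2) := by
      rw [eq_div_iff hd0, add_mul, div_mul_cancel₀ _ hd0]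
      ring
    rw [hn, hp, div_div_div_cancel_right₀ hd.ne']
  rw [hk]
  unfold kap
  have hdiff : (1 + a) * (1 - (1 - e) * a) / ((1 - a) * (1 + (1 - e) * a)) -
      e / (2 - e) * ((1 + a) / (1 - a)) =
      2 * (1 - e) * (1 + a) / ((1 + (1 - e) * a) * (2 - e)) := by
    rw [div_mul_div_comm, div_sub_div _ _ (mul_ne_zero h1a0 hq0) (mul_ne_zero he20 h1a0),
      div_eq_div_iff (mul_ne_zero (mul_ne_zero h1a0 hq0) (mul_ne_zero he20 h1a0))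
        (mul_ne_zero hq0 he20)]
    ring
  have hle : 2 * (1 - e) * (1 + a) / ((1 + (1 - e) * a) * (2 - e)) ≤ 1 := by
    rw [div_le_one (mul_pos hq he2)]
    have h5 : 0 ≤ e * (1 - (1 - e) * a) := by
      apply mul_nonneg he0.le
      nlinarith [mul_nonneg he0.le ha0]
    nlinarith [h5]
  linarith

/-- PROOF. `(a - b)/(1 - a b) = (1 - e) a`. -/
theorem norm_quot {e : ℝ} (he0 : 0 < e) (he1 : e < 1) {μ : ℂ → ℂ} {z : ℂ} (h1 : ‖μ z‖ < 1) :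
    ‖(μ z - muh e μ z) / (1 - μ z * (starRingEnd ℂ) (muh e μ z))‖ = (1 - e) * ‖μ z‖ := by
  have ha0 := norm_nonneg (μ z)
  have hd := A26_den he0 ha0 h1
  have hm : μ z * (starRingEnd ℂ) (μ z) = ((‖μ z‖ ^ 2 : ℝ) : ℂ) := by
    rw [Complex.mul_conj, Complex.normSq_eq_norm_sq]
  have hd' : ((1 - (1 - e) * ‖μ z‖ ^ 2 : ℝ) : ℂ) ≠ 0 := by exact_mod_cast hd.ne'
  have h2 : ‖μ z‖ ^ 2 < 1 := by nlinarith
  have hs' : ((1 - ‖μ z‖ ^ 2 : ℝ) : ℂ) ≠ 0 := by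
    have : (1 - ‖μ z‖ ^ 2 : ℝ) ≠ 0 := by linarith
    exact_mod_cast this
  have hnum : μ z - muh e μ z = μ z * (((1 - e) * (1 - ‖μ z‖ ^ 2) : ℝ) : ℂ) /
      ((1 - (1 - e) * ‖μ z‖ ^ 2 : ℝ) : ℂ) := by
    unfold muh
    field_simp
    push_cast
    ring
  have hden : 1 - μ z * (starRingEnd ℂ) (muh e μ z) = ((1 - ‖μ z‖ ^ 2 : ℝ) : ℂ) /
      ((1 - (1 - e) * ‖μ z‖ ^ 2 : ℝ) : ℂ) := by
    unfold muh
    rw [map_div₀, map_mul, Complex.conj_ofReal, Complex.conj_ofReal]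
    have h5 : μ z * (↑e * (starRingEnd ℂ) (μ z) / ((1 - (1 - e) * ‖μ z‖ ^ 2 : ℝ) : ℂ)) =
        ↑e * (μ z * (starRingEnd ℂ) (μ z)) / ((1 - (1 - e) * ‖μ z‖ ^ 2 : ℝ) : ℂ) := by ring
    rw [h5, hm, eq_div_iff hd', sub_mul, div_mul_cancel₀ _ hd']
    push_cast
    ring
  have hq : (μ z - muh e μ z) / (1 - μ z * (starRingEnd ℂ) (muh e μ z)) =
      ((1 - e : ℝ) : ℂ) * μ z := by
    rw [hnum, hden, div_div_div_cancel_right₀ hd', div_eq_iff hs']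
    push_cast
    ring
  rw [hq, norm_mul, Complex.norm_real, Real.norm_of_nonneg (by linarith)]

end

end Pool.B2F
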