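import Pool.Agent.Lib.MP_b2f128_an.Base
import Pool.Agent.Lib.MP_b2f128_an.A00
import Pool.Agent.Lib.MP_b2f128_an.A02b
import Pool.Agent.Lib.MP_b2f128_an.A06
import Pool.Agent.Lib.MP_b2f128_an.A08a
import Pool.Agent.Lib.MP_b2f128_an.A16
import Pool.Agent.Lib.MP_b2f128_an.A18

/-!
# MP_b2f128_an, part A27 (smooth Beltrami equation and area distortion)
-/

open Complex MeasureTheory Set Filter Topology
open scoped ContDiff

namespace Pool.B2F

noncomputable section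

theorem A27_far {ψ : ℂ → ℂ} {B : ℝ} (hψ : Cc univ ψ)
    (hs : tsupport ψ ⊆ Metric.closedBall 0 (7 / 8)) (hB : ∫ ζ, ‖ψ ζ‖ ≤ B) {z : ℂ}
    (hz : 1 ≤ ‖z‖) : ‖cau ψ z‖ ≤ 3 * B := by
  have hB0 : 0 ≤ ∫ ζ, ‖ψ ζ‖ := integral_nonneg fun ζ => norm_nonneg _
  have h := norm_cau_dist hψ (z := z) (δ := 1 / 8) (by norm_num) fun ζ hζ => by
    have h1 := hs hζ
    rw [mem_closedBall_zero_iff] at h1
    have h2 := norm_sub_norm_le z ζ
    linarith
  refine h.trans ?_
  have hpi := Real.pi_gt_three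
  rw [div_le_iff₀ (by positivity)]
  nlinarith

theorem disp {ψ F G : ℂ → ℂ} {B : ℝ} (hψ : Cc univ ψ) (hs : tsupport ψ ⊆ Metric.closedBall 0 (7 / 8))
    (hF : ∀ z, F z = z + cau ψ z) (hG : Continuous G) (hGF : ∀ z, G (F z) = z)
    (hFG : ∀ w, F (G w) = w) (hB : ∫ ζ, ‖ψ ζ‖ ≤ B) (z : ℂ) : ‖F z - z‖ ≤ 2 + 3 * B := by
  have hB0 : 0 ≤ B := (integral_nonneg fun ζ => norm_nonneg _).trans hB
  rcases le_or_gt 1 ‖z‖ with hz | hz
  · have := A27_far hψ hs hB hz
    rw [hF, add_sub_cancel_left]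
    linarith
  · have hFc : Continuous F := by
      have h1 := (cau_smooth hψ).continuous
      have h2 : F = fun z => z + cau ψ z := funext hF
      rw [h2]
      exact continuous_id.add h1
    have key : ‖F z‖ ≤ 1 + 3 * B := by
      obtain ⟨z0, hz0, hmax⟩ := (isCompact_closedBall (0 : ℂ) 1).exists_isMaxOn
        ⟨0, by simp⟩ hFc.norm.continuousOn
      have hle : ‖F z‖ ≤ ‖F z0‖ := hmax (by simpa using hz.le)
      refine hle.trans ?_
      rcases eq_or_ne (F z0) 0 with h0 | h0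
      · rw [h0, norm_zero]
        linarith
      · have hz1 : 1 ≤ ‖z0‖ := by
          by_contra hlt
          push Not at hlt
          have hop : IsOpen (G ⁻¹' Metric.ball (0 : ℂ) 1) := Metric.isOpen_ball.preimage hG
          have hsub : G ⁻¹' Metric.ball (0 : ℂ) 1 ⊆ Metric.closedBall (0 : ℂ) ‖F z0‖ := by
            intro w hw
            have h2 : ‖F (G w)‖ ≤ ‖F z0‖ := hmax (Metric.ball_subset_closedBall hw)
            rw [hFG] at h2
            simpa using h2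
          have h3 := interior_maximal hsub hop
          rw [interior_closedBall _ (norm_ne_zero_iff.2 h0)] at h3
          have h4 : F z0 ∈ G ⁻¹' Metric.ball (0 : ℂ) 1 := by
            simpa [hGF] using hlt
          have h5 := h3 h4
          simp at h5
        have h6 : ‖z0‖ = 1 := le_antisymm (by simpa using hz0) hz1
        have h7 := A27_far hψ hs hB hz1
        rw [hF]
        calc ‖z0 + cau ψ z0‖ ≤ ‖z0‖ + ‖cau ψ z0‖ := norm_add_le _ _
          _ ≤ _ := by linarith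
    calc ‖F z - z‖ ≤ ‖F z‖ + ‖z‖ := norm_sub_le _ _
      _ ≤ _ := by linarith

theorem Fm_good {μ : ℂ → ℂ} (hμ : Cc univ μ) (hs : tsupport μ ⊆ Metric.closedBall 0 (7 / 8))
    (h1 : ∀ z, ‖μ z‖ < 1) {l : ℂ} (hl : ‖l‖ ≤ 1) {B : ℝ}
    (hB : ∫ z in Metric.ball (0 : ℂ) 1, ‖aa μ l z‖ ^ 2 ≤ B) :
    ∃ G : ℂ → ℂ, ContDiff ℝ ∞ G ∧ (∀ z, G (Fm μ l z) = z) ∧ (∀ w, Fm μ l (G w) = w) ∧
      (∀ z, ‖Fm μ l z - z‖ ≤ 2 + 6 * Real.sqrt B) ∧ ∀ z, 0 < jac (Fm μ l) z := by
  have hμ1 : Cc (Metric.ball 0 1) μ :=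
    ⟨hμ.smooth, hμ.cpt, hs.trans (Metric.closedBall_subset_ball (by norm_num))⟩
  obtain ⟨hψ, hψs⟩ := psi_cc hμ1 h1 hl
  have hac := aa_continuous hμ1 h1 hl
  have hpn : ∀ z, ‖psi μ l z‖ ≤ ‖aa μ l z‖ := by
    intro z
    unfold psi
    rw [norm_mul, norm_mul]
    have h2 := (h1 z).le
    have h3 : ‖l‖ * ‖μ z‖ ≤ 1 := by
      calc ‖l‖ * ‖μ z‖ ≤ 1 * 1 := by gcongr
        _ = 1 := one_mul 1
    calc ‖l‖ * ‖μ z‖ * ‖aa μ l z‖ ≤ 1 * ‖aa μ l z‖ := by gcongr
      _ = _ := one_mul _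
  have hJ : ∀ z, 0 < jac (Fm μ l) z := by
    intro z
    unfold jac
    rw [dz_Fm hμ1 h1 hl, dzb_Fm hμ1 h1 hl]
    have ha : 0 < ‖aa μ l z‖ := by
      rw [norm_pos_iff]
      exact Complex.exp_ne_zero _
    have hlt : ‖psi μ l z‖ < ‖aa μ l z‖ := by
      unfold psi
      rw [norm_mul, norm_mul]
      have h3 : ‖l‖ * ‖μ z‖ < 1 := by
        calc ‖l‖ * ‖μ z‖ ≤ 1 * ‖μ z‖ := by gcongr
          _ < 1 := by rw [one_mul]; exact h1 z
      calc ‖l‖ * ‖μ z‖ * ‖aa μ l z‖ < 1 * ‖aa μ l z‖ := by gcongr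
        _ = _ := one_mul _
    have h0 := norm_nonneg (psi μ l z)
    nlinarith
  obtain ⟨G, hG, hGF, hFG⟩ := bij hψ hJ
  refine ⟨G, hG, hGF, hFG, ?_, hJ⟩
  intro z
  have hψu : Cc univ (psi μ l) := hψ.mono (subset_univ _)
  have hint : ∫ ζ, ‖psi μ l ζ‖ ≤ 2 * Real.sqrt B := by
    have e1 : ∫ ζ, ‖psi μ l ζ‖ = ∫ ζ in Metric.ball (0 : ℂ) 1, ‖psi μ l ζ‖ := by
      refine (setIntegral_eq_integral_of_forall_compl_eq_zero fun x hx => ?_).symm
      rw [norm_eq_zero]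
      by_contra h0
      exact hx (hψ.sub (subset_tsupport _ h0))
    rw [e1]
    have hm : MemLp (psi μ l) 2 (volume.restrict (Metric.ball (0 : ℂ) 1)) := hψ.memLp _
    have h2 := integral_norm_le_n2 measurableSet_ball measure_ball_lt_top.ne hm
    refine h2.trans ?_
    have hv : Real.sqrt (volume (Metric.ball (0 : ℂ) 1)).toReal ≤ 2 := by
      rw [Complex.volume_ball]
      have hpi := Real.pi_le_four
      rw [show (2 : ℝ) = Real.sqrt 4 by
        rw [show (4 : ℝ) = 2 ^ 2 by norm_num, Real.sqrt_sq (by norm_num)]]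
      refine Real.sqrt_le_sqrt ?_
      rw [ENNReal.toReal_mul, ENNReal.toReal_pow, ENNReal.toReal_ofReal (by norm_num)]
      simp only [ENNReal.coe_toReal, NNReal.coe_real_pi]
      linarith
    have hn : n2 (Metric.ball (0 : ℂ) 1) (psi μ l) ≤ Real.sqrt B := by
      unfold n2
      refine Real.sqrt_le_sqrt (le_trans ?_ hB)
      have i1 : IntegrableOn (fun z => ‖psi μ l z‖ ^ 2) (Metric.ball (0 : ℂ) 1) :=
        ((hψ.smooth.continuous.norm.pow 2).continuousOn.integrableOn_compact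
          (isCompact_closedBall (0 : ℂ) 1)).mono_set Metric.ball_subset_closedBall
      have i2 : IntegrableOn (fun z => ‖aa μ l z‖ ^ 2) (Metric.ball (0 : ℂ) 1) :=
        ((hac.norm.pow 2).continuousOn.integrableOn_compact
          (isCompact_closedBall (0 : ℂ) 1)).mono_set Metric.ball_subset_closedBall
      exact integral_mono i1 i2 fun z => pow_le_pow_left₀ (norm_nonneg _) (hpn z) 2
    have hn0 : 0 ≤ n2 (Metric.ball (0 : ℂ) 1) (psi μ l) := n2_nonneg _ _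
    calc Real.sqrt (volume (Metric.ball (0 : ℂ) 1)).toReal * n2 (Metric.ball (0 : ℂ) 1) (psi μ l)
        ≤ 2 * Real.sqrt B := mul_le_mul hv hn hn0 (by norm_num)
      _ = _ := rfl
  have := disp (F := Fm μ l) hψu (hψs.trans hs) (fun z => rfl) hG.continuous hGF hFG hint z
  linarith

end

end Pool.B2F
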