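import Pool.Agent.Lib.MP_b2f128_an.Base
import Pool.Agent.Lib.MP_b2f128_an.A01a
import Pool.Agent.Lib.MP_b2f128_an.A01b
import Pool.Agent.Lib.MP_b2f128_an.A01c
import Pool.Agent.Lib.MP_b2f128_an.A02a
import Pool.Agent.Lib.MP_b2f128_an.A16
import Pool.Agent.Lib.MP_b2f128_an.A19
import Pool.Agent.Lib.MP_b2f128_an.A22
import Pool.Agent.Lib.MP_b2f128_an.A26
import Pool.Agent.Lib.MP_b2f128_an.A27

/-!
# MP_b2f128_an, part A28a (smooth Beltrami equation and area distortion)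
-/

open Complex MeasureTheory Set Filter Topology
open scoped ContDiff

namespace Pool.B2F

noncomputable section

theorem A28a_cc {μ : ℂ → ℂ} (hμ : ContDiff ℝ ∞ μ) {a : ℝ}
    (hs : tsupport μ ⊆ Metric.closedBall 0 a) : Cc univ μ :=
  ⟨hμ, (isCompact_closedBall (0 : ℂ) a).of_isClosed_subset (isClosed_tsupport μ) hs,
    subset_univ _⟩

theorem A28a_cc1 {μ : ℂ → ℂ} (hμ : ContDiff ℝ ∞ μ)
    (hs : tsupport μ ⊆ Metric.closedBall 0 (7 / 8)) : Cc (Metric.ball 0 1) μ :=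
  ⟨hμ, (isCompact_closedBall (0 : ℂ) (7 / 8)).of_isClosed_subset (isClosed_tsupport μ) hs,
    hs.trans (Metric.closedBall_subset_ball (by norm_num))⟩

theorem A28a_dd {f : ℂ → ℂ} (hf : ContDiff ℝ ∞ f) (z : ℂ) : DifferentiableAt ℝ f z :=
  (hf.differentiable (by simp)) z

/-- scaling -/
theorem A28a_scale {f : ℂ → ℂ} (hf : ContDiff ℝ ∞ f) {R : ℝ} (hR : 0 < R) (w : ℂ) :
    dz (fun w => (R : ℂ) * f ((R⁻¹ : ℝ) * w)) w = dz f ((R⁻¹ : ℝ) * w) ∧
    dzb (fun w => (R : ℂ) * f ((R⁻¹ : ℝ) * w)) w = dzb f ((R⁻¹ : ℝ) * w) := by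
  have hRc : (R : ℂ) ≠ 0 := by exact_mod_cast hR.ne'
  have hi : DifferentiableAt ℝ (fun w : ℂ => ((R⁻¹ : ℝ) : ℂ) * w) w := by fun_prop
  have hid : DifferentiableAt ℝ (fun w : ℂ => w) w := by fun_prop
  have h1 : dz (fun w : ℂ => ((R⁻¹ : ℝ) : ℂ) * w) w = ((R⁻¹ : ℝ) : ℂ) := by
    rw [dz_const_mul _ hid, dz_id, mul_one]
  have h2 : dzb (fun w : ℂ => ((R⁻¹ : ℝ) : ℂ) * w) w = 0 := by
    rw [dzb_const_mul _ hid, dzb_id, mul_zero]
  have hfd := A28a_dd hf (((R⁻¹ : ℝ) : ℂ) * w)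
  have hcd : DifferentiableAt ℝ (fun w : ℂ => f (((R⁻¹ : ℝ) : ℂ) * w)) w :=
    hfd.comp w hi
  constructor
  · rw [dz_const_mul (R : ℂ) hcd, dz_comp (g := f) (h := fun w : ℂ => ((R⁻¹ : ℝ) : ℂ) * w) hfd hi,
      h1, h2]
    simp only [map_zero, mul_zero, add_zero, ofReal_inv]
    field_simp
  · rw [dzb_const_mul (R : ℂ) hcd, dzb_comp (g := f) (h := fun w : ℂ => ((R⁻¹ : ℝ) : ℂ) * w) hfd hi,
      h1, h2]
    simp only [mul_zero, zero_add, conj_ofReal]
    simp only [ofReal_inv]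
    field_simp

/-- the algebra of the composition formula -/
theorem A28a_alg {μ m a d : ℂ} (hμ : ‖μ‖ < 1) (hm : ‖m‖ < 1) (ha : a ≠ 0) (hd : d ≠ 0) :
    (d * (m * a) + ((μ - m) / (1 - μ * (starRingEnd ℂ) m) * (a / (starRingEnd ℂ) a)) * d *
        (starRingEnd ℂ) a =
      μ * (d * a + ((μ - m) / (1 - μ * (starRingEnd ℂ) m) * (a / (starRingEnd ℂ) a)) * d *
        (starRingEnd ℂ) (m * a))) ∧
    d * a + ((μ - m) / (1 - μ * (starRingEnd ℂ) m) * (a / (starRingEnd ℂ) a)) * d *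
        (starRingEnd ℂ) (m * a) ≠ 0 := by
  have hca : (starRingEnd ℂ) a ≠ 0 := by
    simpa using ha
  have hden : 1 - μ * (starRingEnd ℂ) m ≠ 0 := by
    intro h
    have h1 : μ * (starRingEnd ℂ) m = 1 := by linear_combination -h
    have h2 : ‖μ‖ * ‖m‖ = 1 := by
      have := congrArg norm h1
      simpa using this
    nlinarith [norm_nonneg μ, norm_nonneg m]
  have hnum : 1 - m * (starRingEnd ℂ) m ≠ 0 := by
    intro h
    have h1 : m * (starRingEnd ℂ) m = 1 := by linear_combination -h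
    have h2 : ‖m‖ * ‖m‖ = 1 := by
      have := congrArg norm h1
      simpa using this
    nlinarith [norm_nonneg m]
  have key : d * a + ((μ - m) / (1 - μ * (starRingEnd ℂ) m) * (a / (starRingEnd ℂ) a)) * d *
        (starRingEnd ℂ) (m * a) = d * a * (1 - m * (starRingEnd ℂ) m) / (1 - μ * (starRingEnd ℂ) m) := by
    rw [map_mul]
    field_simp
    ring
  constructor
  · rw [key]
    field_simp
    ring
  · rw [key]
    exact div_ne_zero (mul_ne_zero (mul_ne_zero hd ha) hnum) hden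

theorem A28a_det {h : ℂ → ℂ} (hh : ContDiff ℝ ∞ h) {H : ℂ → ℂ} (hH : ∀ z, H (h z) = z)
    (hj : ∀ z, 0 < jac h z) {E : Set ℂ} (hE : MeasurableSet E) (k : ℂ → ℝ) :
    ∫ w in h '' E, k w = ∫ z in E, jac h z * k (h z) := by
  have h1 := integral_image_eq_integral_abs_det_fderiv_smul (μ := (volume : Measure ℂ)) hE
    (f := h) (f' := fun z => fderiv ℝ h z)
    (fun z _ => (A28a_dd hh z).hasFDerivAt.hasFDerivWithinAt)
    (fun x _ y _ hxy => by rw [← hH x, ← hH y, hxy]) k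
  rw [h1]
  refine setIntegral_congr_fun hE (fun z _ => ?_)
  simp only [det_fderiv, smul_eq_mul, abs_of_pos (hj z)]

theorem A28a_jac_le (f : ℂ → ℂ) (z : ℂ) : jac f z ≤ ‖dz f z‖ ^ 2 := by
  unfold jac
  nlinarith [sq_nonneg ‖dzb f z‖]

theorem A28a_jac_cont {f : ℂ → ℂ} (hf : ContDiff ℝ ∞ f) : Continuous (jac f) := by
  unfold jac
  exact ((dz_smooth hf).continuous.norm.pow 2).sub ((dzb_smooth hf).continuous.norm.pow 2)

theorem A28a_intOn {k : ℂ → ℝ} (hk : Continuous k) {s : Set ℂ} {a : ℝ}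
    (hs : s ⊆ Metric.closedBall 0 a) : IntegrableOn k s :=
  (hk.continuousOn.integrableOn_compact (isCompact_closedBall (0 : ℂ) a)).mono_set hs

open scoped Pointwise in
/-- A28a. The second factor. PROOF. `C' = 2 + 6 √B`, `R = 1 + 8 C'/7`. `h = Fm (muh e μ) 1`, `H` its inverse (`Fm_good`). `ν w = μg (R w) / (1 - e)` with `μg w = ((μ - μh) / (1 - μ conj μh) * (aa / conj aa)) (H w)`, `μh = muh e μ`,
`aa = dz h`: smooth, `‖ν w‖ = ‖μ (H (R w))‖ < 1` (`norm_quot`), support: `h (tsupport μ) / R ⊆ closedBall 0 (7/8)`. `g w = R * Fm ν (1 - e) (w / R)` is smooth, `dzb g = μg dz g`, `dz g w = aa ν (1 - e) (w / R)`. `F = g ∘ h`: `dz_comp`,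
`dzb_comp` give `dzb F = μ dz F`, `dz F ≠ 0`; `|F z - z| ≤ |g - id| + |h - id|` (`Fm_good` for `ν` with `energy`: `∫ |aa ν (1-e)|² ≤ C0/e²`). For measurable `E ⊆ ball 0 1`: `∫_E jac F = ∫_{h(E)} jac g ≤ ∫_{h(E)} |dz g|² = R² ∫_{h(E)/R}
|aa ν (1-e)|² ≤ R² C0/(1-r)² (|h(E)|)^θ`, `θ = (r - 1 + e)/(r + 1 - e)` (`area_dist`; `h (ball 0 1) ⊆ ball 0 (1 + C') ⊆ ball 0 R`), `|h(E)| = ∫_E jac h ≤ ∫_E |aa (muh e μ) 1|²`. All constants depend only on `e`, `r`, `B`. -/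
theorem second_factor {e r B : ℝ} (he0 : 0 < e) (he1 : e < 1) (hr : 1 - e < r) (hr1 : r < 1) (hB : 0 ≤ B) :
    ∃ C : ℝ, 0 < C ∧ ∀ μ : ℂ → ℂ, ContDiff ℝ ∞ μ → tsupport μ ⊆ Metric.closedBall 0 (7 / 8) →
      (∀ z, ‖μ z‖ < 1) → ∫ z in Metric.ball (0 : ℂ) 1, ‖aa (muh e μ) 1 z‖ ^ 2 ≤ B →
      ∃ F G : ℂ → ℂ, ContDiff ℝ ∞ F ∧ ContDiff ℝ ∞ G ∧ (∀ z, G (F z) = z) ∧ (∀ w, F (G w) = w) ∧
        (∀ z, dzb F z = μ z * dz F z) ∧ (∀ z, dz F z ≠ 0) ∧ (∀ z, ‖F z - z‖ ≤ C) ∧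
        ∀ E : Set ℂ, MeasurableSet E → E ⊆ Metric.ball 0 1 → ∫ z in E, jac F z ≤
          C * (∫ z in E, ‖aa (muh e μ) 1 z‖ ^ 2) ^ ((r - (1 - e)) / (r + (1 - e))) := by
  obtain ⟨C1, hC1, hen⟩ := energy
  obtain ⟨C0, hC0, had⟩ := area_dist
  set C' : ℝ := 2 + 6 * Real.sqrt B with hC'
  have hC'0 : 0 ≤ C' := by positivity
  set R : ℝ := 1 + 8 * C' / 7 with hRdef
  have hR1 : 1 ≤ R := by
    rw [hRdef]
    have : 0 ≤ 8 * C' / 7 := by positivity
    linarith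
  have hR0 : 0 < R := by linarith
  have hRC : 1 + C' ≤ R := by rw [hRdef]; linarith
  set C2 : ℝ := 2 + 6 * Real.sqrt (C1 / e ^ 2) with hC2
  have hC20 : 0 ≤ C2 := by positivity
  have h1r : 0 < 1 - r := by linarith
  set C3 : ℝ := R ^ 2 * (C0 / (1 - r) ^ 2) with hC3
  have hC30 : 0 < C3 := by
    have : 0 < C0 := by linarith
    positivity
  refine ⟨C3 + (R * C2 + C'), by positivity, ?_⟩
  intro μ hμ hμs hμ1 hμB
  have hμc := A28a_cc1 hμ hμs
  have hμu := A28a_cc hμ hμs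
  obtain ⟨hmc, hms⟩ := muh_cc he0 he1 hμc hμ1
  obtain ⟨hmu, -⟩ := muh_cc he0 he1 hμu hμ1
  have hm1 : ∀ z, ‖muh e μ z‖ < 1 := fun z => muh_lt he0 he1 (hμ1 z)
  have hl1 : ‖(1 : ℂ)‖ ≤ 1 := by simp
  obtain ⟨H, hHs, hHh, hhH, hhd, hhj⟩ := Fm_good hmu (hms.trans hμs) hm1 hl1 hμB
  set h : ℂ → ℂ := Fm (muh e μ) 1 with hh
  set a : ℂ → ℂ := aa (muh e μ) 1 with hadef
  have hhs : ContDiff ℝ ∞ h := Fm_smooth hmc hm1 hl1
  have hdzh : ∀ z, dz h z = a z := fun z => dz_Fm hmc hm1 hl1 z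
  have hdzbh : ∀ z, dzb h z = muh e μ z * a z := by
    intro z
    rw [hh, dzb_Fm hmc hm1 hl1 z, psi, one_mul]
  have has : ContDiff ℝ ∞ a := by
    have : a = dz h := by
      funext z
      rw [hdzh]
    rw [this]
    exact dz_smooth hhs
  have ha0 : ∀ z, a z ≠ 0 := fun z => Complex.exp_ne_zero _
  -- the coefficient
  set m : ℂ → ℂ := fun z => (μ z - muh e μ z) / (1 - μ z * (starRingEnd ℂ) (muh e μ z)) *
    (a z / (starRingEnd ℂ) (a z)) with hmdef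
  have hden : ∀ z, 1 - μ z * (starRingEnd ℂ) (muh e μ z) ≠ 0 := by
    intro z hz
    have h1 : μ z * (starRingEnd ℂ) (muh e μ z) = 1 := by linear_combination -hz
    have h2 : ‖μ z‖ * ‖muh e μ z‖ = 1 := by
      have := congrArg norm h1
      simpa using this
    nlinarith [norm_nonneg (μ z), norm_nonneg (muh e μ z), hμ1 z, hm1 z]
  have hca0 : ∀ z, (starRingEnd ℂ) (a z) ≠ 0 := by
    intro z
    simpa using ha0 z
  have hconj : ContDiff ℝ ∞ (fun z : ℂ => (starRingEnd ℂ) z) := Complex.conjCLE.contDiff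
  have hmhs : ContDiff ℝ ∞ (fun z => (starRingEnd ℂ) (muh e μ z)) := hconj.comp hmc.smooth
  have hcas : ContDiff ℝ ∞ (fun z => (starRingEnd ℂ) (a z)) := hconj.comp has
  have hmsm : ContDiff ℝ ∞ m := by
    have hd1 : ContDiff ℝ ∞ (fun z => (1 - μ z * (starRingEnd ℂ) (muh e μ z))⁻¹) :=
      ContDiff.inv (contDiff_const.sub (hμ.mul hmhs)) hden
    have hd2 : ContDiff ℝ ∞ (fun z => ((starRingEnd ℂ) (a z))⁻¹) := ContDiff.inv hcas hca0
    have := ((hμ.sub hmc.smooth).mul hd1).mul (has.mul hd2)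
    rw [hmdef]
    simp only [div_eq_mul_inv]
    exact this
  have hmn : ∀ z, ‖m z‖ = (1 - e) * ‖μ z‖ := by
    intro z
    rw [hmdef]
    simp only
    rw [norm_mul, norm_quot he0 he1 (hμ1 z), norm_div, RCLike.norm_conj,
      div_self (norm_ne_zero_iff.2 (ha0 z)), mul_one]
  have h1e : 0 < 1 - e := by linarith
  set l : ℂ := ((1 - e : ℝ) : ℂ) with hl
  have hl0 : l ≠ 0 := by
    rw [hl]
    exact_mod_cast h1e.ne'
  have hln : ‖l‖ = 1 - e := by
    rw [hl, Complex.norm_real, Real.norm_eq_abs, abs_of_pos h1e]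
  set ν : ℂ → ℂ := fun w => m (H ((R : ℂ) * w)) / l with hν
  have hνs : ContDiff ℝ ∞ ν := by
    rw [hν]
    exact (hmsm.comp (hHs.comp (contDiff_const.mul contDiff_id))).div_const l
  have hνn : ∀ w, ‖ν w‖ = ‖μ (H ((R : ℂ) * w))‖ := by
    intro w
    rw [hν]
    simp only
    rw [norm_div, hmn, hln]
    field_simp
  have hν1 : ∀ w, ‖ν w‖ < 1 := fun w => by rw [hνn]; exact hμ1 _
  have hνsupp : tsupport ν ⊆ Metric.closedBall 0 (7 / 8) := by
    refine closure_minimal ?_ Metric.isClosed_closedBall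
    intro w hw
    have h0 : μ (H ((R : ℂ) * w)) ≠ 0 := by
      intro h0
      apply hw
      rw [← norm_eq_zero, hνn, h0, norm_zero]
    have h1 : H ((R : ℂ) * w) ∈ Metric.closedBall (0 : ℂ) (7 / 8) :=
      hμs (subset_tsupport _ h0)
    rw [mem_closedBall_zero_iff] at h1 ⊢
    have h2 := hhd (H ((R : ℂ) * w))
    rw [hhH] at h2
    have h3 : ‖(R : ℂ) * w‖ ≤ 7 / 8 + C' := by
      calc ‖(R : ℂ) * w‖ = ‖((R : ℂ) * w - H ((R : ℂ) * w)) + H ((R : ℂ) * w)‖ := by congr 1; ring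
        _ ≤ ‖(R : ℂ) * w - H ((R : ℂ) * w)‖ + ‖H ((R : ℂ) * w)‖ := norm_add_le _ _
        _ ≤ 7 / 8 + C' := by linarith
    rw [norm_mul, Complex.norm_real, Real.norm_eq_abs, abs_of_pos hR0] at h3
    have h4 : 7 / 8 + C' = R * (7 / 8) := by rw [hRdef]; ring
    rw [h4] at h3
    exact le_of_mul_le_mul_left h3 hR0
  have hνc := A28a_cc1 hνs hνsupp
  have hνu := A28a_cc hνs hνsupp
  have hlle : ‖l‖ ≤ 1 := by rw [hln]; linarith
  have hllt : ‖l‖ < 1 := by rw [hln]; linarith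
  have hen2 : ∫ z in Metric.ball (0 : ℂ) 1, ‖aa ν l z‖ ^ 2 ≤ C1 / e ^ 2 := by
    have := hen ν hνc hν1 l hllt
    rw [hln] at this
    simpa using this
  obtain ⟨G1, hG1s, hG1f, hfG1, hfd, hfj⟩ := Fm_good hνu hνsupp hν1 hlle hen2
  set f : ℂ → ℂ := Fm ν l with hf
  have hfs : ContDiff ℝ ∞ f := Fm_smooth hνc hν1 hlle
  have hdzf : ∀ z, dz f z = aa ν l z := fun z => dz_Fm hνc hν1 hlle z
  have hdzbf : ∀ z, dzb f z = l * ν z * aa ν l z := by
    intro z
    rw [hf, dzb_Fm hνc hν1 hlle z, psi]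
  set g : ℂ → ℂ := fun w => (R : ℂ) * f ((R⁻¹ : ℝ) * w) with hg
  have hRc : (R : ℂ) ≠ 0 := by exact_mod_cast hR0.ne'
  have hRR : ∀ w : ℂ, (R : ℂ) * (((R⁻¹ : ℝ) : ℂ) * w) = w := by
    intro w
    rw [ofReal_inv]
    field_simp
  have hRR' : ∀ w : ℂ, ((R⁻¹ : ℝ) : ℂ) * ((R : ℂ) * w) = w := by
    intro w
    rw [ofReal_inv]
    field_simp
  have hgs : ContDiff ℝ ∞ g := by
    rw [hg]
    exact contDiff_const.mul (hfs.comp (contDiff_const.mul contDiff_id))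
  have hdzg : ∀ w, dz g w = aa ν l ((R⁻¹ : ℝ) * w) := by
    intro w
    rw [hg, (A28a_scale hfs hR0 w).1, hdzf]
  have hdzbg : ∀ w, dzb g w = m (H w) * dz g w := by
    intro w
    rw [hdzg]
    rw [hg, (A28a_scale hfs hR0 w).2, hdzbf]
    have : ν ((R⁻¹ : ℝ) * w) = m (H w) / l := by
      rw [hν]
      simp only
      rw [hRR]
    rw [this]
    field_simp
  have hdzg0 : ∀ w, dz g w ≠ 0 := by
    intro w
    rw [hdzg]
    exact Complex.exp_ne_zero _
  have hdF : ∀ z, dz (fun z => g (h z)) z =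
      dz g (h z) * a z + (m z * dz g (h z)) * (starRingEnd ℂ) (muh e μ z * a z) := by
    intro z
    rw [dz_comp (A28a_dd hgs _) (A28a_dd hhs z), hdzh, hdzbg, hdzbh, hHh]
  have hdbF : ∀ z, dzb (fun z => g (h z)) z =
      dz g (h z) * (muh e μ z * a z) + (m z * dz g (h z)) * (starRingEnd ℂ) (a z) := by
    intro z
    rw [dzb_comp (A28a_dd hgs _) (A28a_dd hhs z), hdzh, hdzbg, hdzbh, hHh]
  have halg := fun z => A28a_alg (hμ1 z) (hm1 z) (ha0 z) (hdzg0 (h z))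
  have hgd : ∀ w, ‖g w - w‖ ≤ R * C2 := by
    intro w
    have h1 : g w - w = (R : ℂ) * (f ((R⁻¹ : ℝ) * w) - (R⁻¹ : ℝ) * w) := by
      rw [mul_sub, hRR]
    rw [h1, norm_mul, Complex.norm_real, Real.norm_eq_abs, abs_of_pos hR0]
    exact mul_le_mul_of_nonneg_left (hfd _) hR0.le
  refine ⟨fun z => g (h z), fun w => H ((R : ℂ) * G1 ((R⁻¹ : ℝ) * w)), hgs.comp hhs,
    hHs.comp (contDiff_const.mul (hG1s.comp (contDiff_const.mul contDiff_id))), ?_, ?_, ?_, ?_,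
    ?_, ?_⟩
  · intro z
    simp only [hg]
    rw [hRR', hG1f, hRR, hHh]
  · intro w
    simp only [hg]
    rw [hhH, hRR', hfG1, hRR]
  · intro z
    rw [hdbF, hdF]
    exact (halg z).1
  · intro z
    rw [hdF]
    exact (halg z).2
  · intro z
    have h1 : g (h z) - z = (g (h z) - h z) + (h z - z) := by ring
    simp only
    rw [h1]
    refine (norm_add_le _ _).trans ?_
    have h2 := hgd (h z)
    have h3 := hhd z
    linarith
  · intro E hE hE1
    -- measurability and bounds of the image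
    have himg : h '' E = H ⁻¹' E := by
      ext w
      constructor
      · rintro ⟨z, hz, rfl⟩
        rw [mem_preimage, hHh]
        exact hz
      · intro hw
        exact ⟨H w, hw, hhH w⟩
    have hEm : MeasurableSet (h '' E) := by
      rw [himg]
      exact hHs.continuous.measurable hE
    have hEb : h '' E ⊆ Metric.ball 0 R := by
      rintro w ⟨z, hz, rfl⟩
      have h1 := hE1 hz
      rw [mem_ball_zero_iff] at h1 ⊢
      have h2 := hhd z
      calc ‖h z‖ = ‖(h z - z) + z‖ := by congr 1; ring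
        _ ≤ ‖h z - z‖ + ‖z‖ := norm_add_le _ _
        _ < R := by linarith
    have hEcb : h '' E ⊆ Metric.closedBall 0 R := hEb.trans Metric.ball_subset_closedBall
    have hE1cb : E ⊆ Metric.closedBall 0 1 := hE1.trans Metric.ball_subset_closedBall
    -- change of variables
    have s1 : ∫ z in E, jac (fun z => g (h z)) z = ∫ w in h '' E, jac g w := by
      rw [A28a_det hhs hHh hhj hE]
      refine setIntegral_congr_fun hE (fun z _ => ?_)
      show jac (fun z => g (h z)) z = _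
      rw [jac_comp (A28a_dd hgs _) (A28a_dd hhs z), mul_comm]
    have s2 : ∫ w in h '' E, jac g w ≤ ∫ w in h '' E, ‖dz g w‖ ^ 2 :=
      setIntegral_mono_on (A28a_intOn (A28a_jac_cont hgs) hEcb)
        (A28a_intOn ((dz_smooth hgs).continuous.norm.pow 2) hEcb) hEm
        (fun w _ => A28a_jac_le g w)
    have s3 : ∫ w in h '' E, ‖dz g w‖ ^ 2 =
        R ^ 2 * ∫ w in R⁻¹ • (h '' E), ‖aa ν l w‖ ^ 2 := by
      have := Measure.setIntegral_comp_smul (volume : Measure ℂ) (fun w => ‖aa ν l w‖ ^ 2)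
        (R := R⁻¹) (h '' E) (inv_ne_zero hR0.ne')
      rw [Complex.finrank_real_complex] at this
      have h2 : |((R⁻¹) ^ 2)⁻¹| = R ^ 2 := by
        rw [inv_pow, inv_inv, abs_of_nonneg (sq_nonneg R)]
      rw [h2, smul_eq_mul] at this
      rw [← this]
      refine setIntegral_congr_fun hEm (fun w _ => ?_)
      show ‖dz g w‖ ^ 2 = ‖aa ν l (R⁻¹ • w)‖ ^ 2
      rw [hdzg, Complex.real_smul]
    have hSm : MeasurableSet (R⁻¹ • (h '' E)) := hEm.const_smul₀ R⁻¹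
    have hSb : R⁻¹ • (h '' E) ⊆ Metric.ball (0 : ℂ) 1 := by
      intro w hw
      rw [Set.mem_smul_set] at hw
      obtain ⟨y, hy, rfl⟩ := hw
      have h1 := hEb hy
      rw [mem_ball_zero_iff] at h1 ⊢
      rw [norm_smul, Real.norm_eq_abs, abs_of_pos (inv_pos.2 hR0)]
      rw [inv_mul_lt_iff₀ hR0, mul_one]
      exact h1
    have s4 := had ν hνc hν1 (1 - e) r h1e.le hr hr1 l hln.le _ hSm hSb
    have s5 : (volume (R⁻¹ • (h '' E))).toReal ≤ (volume (h '' E)).toReal := by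
      have hfin : volume (h '' E) ≠ ⊤ := by
        refine ne_top_of_le_ne_top ?_ (measure_mono hEb)
        exact measure_ball_lt_top.ne
      refine ENNReal.toReal_mono hfin ?_
      rw [Measure.addHaar_smul]
      have h1 : ENNReal.ofReal |(R⁻¹) ^ Module.finrank ℝ ℂ| ≤ 1 := by
        rw [ENNReal.ofReal_le_one, Complex.finrank_real_complex, abs_of_nonneg (by positivity)]
        exact pow_le_one₀ (by positivity) (inv_le_one_of_one_le₀ hR1)
      calc ENNReal.ofReal |(R⁻¹) ^ Module.finrank ℝ ℂ| * volume (h '' E)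
          ≤ 1 * volume (h '' E) := mul_le_mul_left h1 _
        _ = volume (h '' E) := one_mul _
    have s6 : (volume (h '' E)).toReal ≤ ∫ z in E, ‖a z‖ ^ 2 := by
      have h1 : (volume (h '' E)).toReal = ∫ w in h '' E, (1 : ℝ) := by
        rw [setIntegral_const, smul_eq_mul, mul_one]
        rfl
      rw [h1, A28a_det hhs hHh hhj hE (fun _ => 1)]
      refine setIntegral_mono_on ?_ (A28a_intOn (has.continuous.norm.pow 2) hE1cb) hE ?_
      · exact A28a_intOn ((A28a_jac_cont hhs).mul continuous_const) hE1cb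
      · intro z _
        rw [mul_one, ← hdzh]
        exact A28a_jac_le h z
    set θ : ℝ := (r - (1 - e)) / (r + (1 - e)) with hθ
    have hθ0 : 0 ≤ θ := by
      rw [hθ]
      apply div_nonneg <;> linarith
    have s7 : (volume (R⁻¹ • (h '' E))).toReal ^ θ ≤ (∫ z in E, ‖a z‖ ^ 2) ^ θ :=
      Real.rpow_le_rpow ENNReal.toReal_nonneg (s5.trans s6) hθ0
    have hI0 : 0 ≤ ∫ z in E, ‖a z‖ ^ 2 := integral_nonneg (fun z => by positivity)
    have hIθ : 0 ≤ (∫ z in E, ‖a z‖ ^ 2) ^ θ := Real.rpow_nonneg hI0 θ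
    have hK : 0 ≤ C0 / (1 - r) ^ 2 := by
      have : 0 < C0 := by linarith
      positivity
    calc ∫ z in E, jac (fun z => g (h z)) z
        ≤ R ^ 2 * ∫ w in R⁻¹ • (h '' E), ‖aa ν l w‖ ^ 2 := by
          rw [s1, ← s3]
          exact s2
      _ ≤ R ^ 2 * (C0 / (1 - r) ^ 2 * (volume (R⁻¹ • (h '' E))).toReal ^ θ) :=
          mul_le_mul_of_nonneg_left s4 (sq_nonneg R)
      _ ≤ R ^ 2 * (C0 / (1 - r) ^ 2 * (∫ z in E, ‖a z‖ ^ 2) ^ θ) :=
          mul_le_mul_of_nonneg_left (mul_le_mul_of_nonneg_left s7 hK) (sq_nonneg R)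
      _ = C3 * (∫ z in E, ‖a z‖ ^ 2) ^ θ := by rw [hC3]; ring
      _ ≤ (C3 + (R * C2 + C')) * (∫ z in E, ‖a z‖ ^ 2) ^ θ := by
          refine mul_le_mul_of_nonneg_right ?_ hIθ
          have : 0 ≤ R * C2 + C' := by positivity
          linarith

end

end Pool.B2F
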