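import Pool.Agent.Lib.MP_b2f128_an.Base
import Pool.Agent.Lib.MP_b2f128_an.A02b
import Pool.Agent.Lib.MP_b2f128_an.A25b
import Pool.Agent.Lib.MP_b2f128_an.A26
import Pool.Agent.Lib.MP_b2f128_an.A28a

/-!
# MP_b2f128_an, part A28b (smooth Beltrami equation and area distortion)
-/

open Complex MeasureTheory Set Filter Topology
open scoped ContDiff

namespace Pool.B2F

noncomputable section

theorem A28b_par {b b' : ℝ} (hb' : 0 < b') (hbb : b' < b) : ∃ e r b1 p : ℝ, 0 < e ∧ e < 1 ∧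
    1 - e < r ∧ r < 1 ∧ 2 < b1 ∧ b1 < p ∧ p * (e / (2 - e)) = b ∧
    b' ≤ (b1 - 2) * ((r - (1 - e)) / (r + (1 - e))) := by
  obtain ⟨e, he0, he1, heδ⟩ : ∃ e : ℝ, 0 < e ∧ e ≤ 1 / 2 ∧ 2 * e < b - b' := by
    refine ⟨min (1 / 2) ((b - b') / 4), lt_min (by norm_num) (by linarith), min_le_left _ _, ?_⟩
    have := min_le_right (1 / 2) ((b - b') / 4)
    linarith
  have h2e : 0 < 2 - e := by linarith
  set Q := b - 2 * e / (2 - e) with hQ
  have hQb : b' < Q := by
    have : 2 * e / (2 - e) ≤ 2 * e := by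
      rw [div_le_iff₀ h2e]
      nlinarith
    linarith
  have hQ0 : 0 < Q := hb'.trans hQb
  set s := Real.sqrt (b' / Q) with hs
  have hss : s ^ 2 = b' / Q := Real.sq_sqrt (by positivity)
  have hs0 : 0 < s := Real.sqrt_pos.2 (by positivity)
  have hs1 : s < 1 := by
    rw [hs, Real.sqrt_lt' one_pos, one_pow, div_lt_one hQ0]
    exact hQb
  set p := b * (2 - e) / e with hp
  have hpe : p * (e / (2 - e)) = b := by
    rw [hp]
    field_simp
  have hpQ : (p - 2) * (e / (2 - e)) = Q := by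
    rw [sub_mul, hpe, hQ]
    ring
  have hp2 : 2 < p := by
    by_contra hcon
    have : (p - 2) * (e / (2 - e)) ≤ 0 :=
      mul_nonpos_of_nonpos_of_nonneg (by linarith) (by positivity)
    linarith
  refine ⟨e, 1 - (1 - s) * e, 2 + (p - 2) * s, p, he0, by linarith, by nlinarith, by nlinarith,
    by nlinarith, by nlinarith, hpe, ?_⟩
  have h1 : (1 - (1 - s) * e - (1 - e)) = s * e := by ring
  have h2 : s * e / (2 - e) ≤ s * e / (1 - (1 - s) * e + (1 - e)) := by
    refine div_le_div_of_nonneg_left (by positivity) ?_ ?_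
    · nlinarith
    · nlinarith
  rw [h1]
  have h3 : b' = (2 + (p - 2) * s - 2) * (s * e / (2 - e)) := by
    have : (2 + (p - 2) * s - 2) * (s * e / (2 - e)) = s ^ 2 * ((p - 2) * (e / (2 - e))) := by ring
    rw [this, hpQ, hss]
    field_simp
  calc b' = (2 + (p - 2) * s - 2) * (s * e / (2 - e)) := h3
    _ ≤ _ := mul_le_mul_of_nonneg_left h2 (by nlinarith)

/-- A28b. **Theorem A** (sharp area distortion, uniform for smooth coefficients). PROOF. `Me = (2 - e)/e`, `p = β Me`; by `kap_muh` `∫ exp (p kap ‖muh e μ‖) ≤ exp p * M`. Choose `e` small, `2 < b < p` and `r < 1` with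
`(b - 2) (r - (1-e))/(r + (1-e)) ≥ b'` (possible: the sup is `(β Me - 2)/Me = β - 2/Me > b'` for small `e`). `large_p`, `second_factor`. -/
theorem theoremA {b b' M : ℝ} (hb' : 0 < b') (hbb : b' < b) (hM : 0 ≤ M) :
    ∃ C : ℝ, 0 < C ∧ ∀ μ : ℂ → ℂ, Adm b M μ → ∃ F G : ℂ → ℂ, Good C b' μ F G := by
  obtain ⟨e, r, b1, p, he0, he1, hr, hr1, hb1, hb1p, hpe, hexp⟩ := A28b_par hb' hbb
  have hMe : 0 ≤ Real.exp p * M := mul_nonneg (Real.exp_pos _).le hM
  obtain ⟨C1, hC1, hlp⟩ := large_p hb1 hb1p hMe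
  obtain ⟨C2, hC2, hsf⟩ := second_factor he0 he1 hr hr1 hC1.le
  set θ := (r - (1 - e)) / (r + (1 - e)) with hθ
  have hθ0 : 0 ≤ θ := div_nonneg (by linarith) (by linarith)
  have hC1θ : 0 < C1 ^ θ := Real.rpow_pos_of_pos hC1 _
  refine ⟨C2 + C2 * C1 ^ θ, by positivity, ?_⟩
  intro μ hμ
  have hcc : Cc (Metric.ball 0 1) μ := by
    refine ⟨hμ.smooth, ?_, ?_⟩
    · exact (isCompact_closedBall (0 : ℂ) (7 / 8)).of_isClosed_subset (isClosed_tsupport _) hμ.supp
    · exact hμ.supp.trans (Metric.closedBall_subset_ball (by norm_num))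
  have hmcc := (muh_cc he0 he1 hcc hμ.lt).1
  have hmlt : ∀ z, ‖muh e μ z‖ < 1 := fun z => muh_lt he0 he1 (hμ.lt z)
  have hint : ∫ z in Metric.ball (0 : ℂ) 1, Real.exp (p * kap ‖muh e μ z‖) ≤ Real.exp p * M := by
    have hk : Continuous fun z => Real.exp (b * kap ‖μ z‖) := by
      have hn : Continuous fun z => ‖μ z‖ := hμ.smooth.continuous.norm
      refine Real.continuous_exp.comp (continuous_const.mul ?_)
      exact (continuous_const.add hn).div (continuous_const.sub hn)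
        fun z => (sub_pos.2 (hμ.lt z)).ne'
    have hi : IntegrableOn (fun z => Real.exp (b * kap ‖μ z‖)) (Metric.ball (0 : ℂ) 1) :=
      (hk.continuousOn.integrableOn_compact (isCompact_closedBall (0 : ℂ) 1)).mono_set
        Metric.ball_subset_closedBall
    calc ∫ z in Metric.ball (0 : ℂ) 1, Real.exp (p * kap ‖muh e μ z‖)
        ≤ ∫ z in Metric.ball (0 : ℂ) 1, Real.exp p * Real.exp (b * kap ‖μ z‖) := by
          refine integral_mono_of_nonneg (Eventually.of_forall fun z => (Real.exp_pos _).le)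
            (hi.const_mul _) (Eventually.of_forall fun z => ?_)
          show Real.exp (p * kap ‖muh e μ z‖) ≤ Real.exp p * Real.exp (b * kap ‖μ z‖)
          rw [← Real.exp_add]
          refine Real.exp_le_exp.2 ?_
          have h1 := mul_le_mul_of_nonneg_left (kap_muh he0 he1 (hμ.lt z)) (by linarith : 0 ≤ p)
          calc p * kap ‖muh e μ z‖ ≤ p * (e / (2 - e) * kap ‖μ z‖ + 1) := h1
            _ = p * (e / (2 - e)) * kap ‖μ z‖ + p := by ring
            _ = p + b * kap ‖μ z‖ := by rw [hpe]; ring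
      _ = Real.exp p * ∫ z in Metric.ball (0 : ℂ) 1, Real.exp (b * kap ‖μ z‖) := by
          rw [integral_const_mul]
      _ ≤ Real.exp p * M := mul_le_mul_of_nonneg_left hμ.int (Real.exp_pos _).le
  obtain ⟨hB, hL⟩ := hlp (muh e μ) hmcc hmlt hint
  obtain ⟨F, G, hF, hG, hGF, hFG, hbel, hnz, hnear, harea⟩ := hsf μ hμ.smooth hμ.supp hμ.lt hB
  refine ⟨F, G, ⟨hF, hG, hGF, hFG, hbel, hnz, fun z => (hnear z).trans ?_, ?_, ?_⟩⟩
  · have : 0 < C2 * C1 ^ θ := by positivity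
    linarith
  · refine (harea _ Metric.isOpen_ball.measurableSet subset_rfl).trans ?_
    have h1 : (∫ z in Metric.ball (0 : ℂ) 1, ‖aa (muh e μ) 1 z‖ ^ 2) ^ θ ≤ C1 ^ θ :=
      Real.rpow_le_rpow (integral_nonneg fun z => sq_nonneg _) hB hθ0
    have h2 := mul_le_mul_of_nonneg_left h1 hC2.le
    linarith
  · intro L E hL1 hE hEs hvol
    have hL0 : 0 < L := by linarith
    refine (harea E hE hEs).trans ?_
    have h1 : (∫ z in E, ‖aa (muh e μ) 1 z‖ ^ 2) ^ θ ≤ (C1 * L ^ (2 - b1)) ^ θ :=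
      Real.rpow_le_rpow (integral_nonneg fun z => sq_nonneg _) (hL L E hL1 hE hEs hvol) hθ0
    have h2 : (C1 * L ^ (2 - b1)) ^ θ ≤ C1 ^ θ * L ^ (-b') := by
      rw [Real.mul_rpow hC1.le (Real.rpow_nonneg hL0.le _), ← Real.rpow_mul hL0.le]
      refine mul_le_mul_of_nonneg_left ?_ hC1θ.le
      refine Real.rpow_le_rpow_of_exponent_le hL1 ?_
      linarith
    have h3 := mul_le_mul_of_nonneg_left (h1.trans h2) hC2.le
    have h4 : 0 ≤ C2 * L ^ (-b') := mul_nonneg hC2.le (Real.rpow_nonneg hL0.le _)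
    calc C2 * (∫ z in E, ‖aa (muh e μ) 1 z‖ ^ 2) ^ θ ≤ C2 * (C1 ^ θ * L ^ (-b')) := h3
      _ ≤ (C2 + C2 * C1 ^ θ) * L ^ (-b') := by linarith

end

end Pool.B2F
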