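import Pool.Agent.Lib.MP_b2f128_an.Base

/-!
# MP_b2f128_an, part B1a (real analysis)
-/

open Complex MeasureTheory Set Filter Topology
open scoped ContDiff

namespace Pool.B2F

noncomputable section

theorem B1a_cont {g : ℂ → ℝ} (hg : Integrable g) (r : ℝ) :
    Continuous (fun x : ℂ => ∫ z in Metric.ball x r, g z) := by
  rw [continuous_iff_continuousAt]
  intro x0
  have h0 : (fun x : ℂ => ∫ z in Metric.ball x r, g z) = fun x : ℂ => ∫ z, (Metric.ball x r).indicator g z := by
    funext x
    rw [integral_indicator measurableSet_ball]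
  rw [h0]
  refine continuousAt_of_dominated (bound := fun z => ‖g z‖) ?_ ?_ hg.norm ?_
  · exact Eventually.of_forall fun x => (hg.indicator measurableSet_ball).aestronglyMeasurable
  · exact Eventually.of_forall fun x => Eventually.of_forall fun z => norm_indicator_le_norm_self _ _
  · have hs : volume (Metric.sphere x0 r) = 0 := Measure.addHaar_sphere volume x0 r
    have hae : ∀ᵐ z : ℂ, z ∉ Metric.sphere x0 r := measure_eq_zero_iff_ae_notMem.mp hs
    filter_upwards [hae] with z hz
    rw [Metric.mem_sphere] at hz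
    rcases lt_or_gt_of_ne hz with h | h
    · have h1 : ∀ᶠ x in 𝓝 x0, dist z x < r :=
        (continuous_const.dist continuous_id).continuousAt.eventually_lt continuousAt_const h
      refine (continuousAt_const (y := g z)).congr ?_
      filter_upwards [h1] with x hx
      rw [indicator_of_mem (Metric.mem_ball.mpr hx)]
    · have h1 : ∀ᶠ x in 𝓝 x0, r < dist z x :=
        continuousAt_const.eventually_lt (continuous_const.dist continuous_id).continuousAt h
      refine (continuousAt_const (y := (0 : ℝ))).congr ?_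
      filter_upwards [h1] with x hx
      rw [indicator_of_notMem]
      rw [Metric.mem_ball]
      exact not_lt.mpr hx.le

/-- PROOF. `Bad g Λ` is open: `x ↦ ∫_{ball x r} g` is continuous (dominated convergence, spheres are null sets). -/
theorem bad_measurable {g : ℂ → ℝ} (hg : Integrable g) (Λ : ℝ) : MeasurableSet (Bad g Λ) := by
  have h : Bad g Λ = ⋃ r ∈ Ioi (0 : ℝ), {x : ℂ | Λ * r ^ 2 < ∫ z in Metric.ball x r, g z} := by
    ext x
    simp only [Bad, mem_ofPred_eq, mem_iUnion, mem_Ioi, exists_prop]
  rw [h]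
  exact (isOpen_biUnion fun r _ => isOpen_lt continuous_const (B1a_cont hg r)).measurableSet

theorem bad_anti {g : ℂ → ℝ} {Λ Λ' : ℝ} (h : Λ ≤ Λ') : Bad g Λ' ⊆ Bad g Λ := by
  rintro x ⟨r, hr, hx⟩
  exact ⟨r, hr, (mul_le_mul_of_nonneg_right h (by positivity)).trans_lt hx⟩

theorem bad_mono {g g' : ℂ → ℝ} (hg : Integrable g) (hg' : Integrable g') (h : ∀ z, g z ≤ g' z)
    (Λ : ℝ) : Bad g Λ ⊆ Bad g' Λ := by
  rintro x ⟨r, hr, hx⟩
  exact ⟨r, hr, hx.trans_le (setIntegral_mono hg.integrableOn hg'.integrableOn h)⟩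

end

end Pool.B2F
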