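import Pool.Agent.Lib.MP_b2f128_an.Base
import Pool.Agent.Lib.MP_b2f128_an.A02b

/-!
# MP_b2f128_an, part B1b (real analysis)
-/

open Complex MeasureTheory Set Filter Topology
open scoped ContDiff

namespace Pool.B2F

noncomputable section

theorem B1b_closedBall (x : ℂ) {r : ℝ} (hr : 0 ≤ r) :
    volume (Metric.closedBall x r) = ENNReal.ofReal (Real.pi * r ^ 2) := by
  rw [Complex.volume_closedBall, mul_comm, ENNReal.ofReal_mul Real.pi_pos.le, ENNReal.ofReal_pow hr]
  congr 1
  rw [← NNReal.coe_real_pi, ENNReal.ofReal_coe_nnreal]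

theorem B1b_ball (x : ℂ) {r : ℝ} (hr : 0 ≤ r) :
    volume (Metric.ball x r) = ENNReal.ofReal (Real.pi * r ^ 2) := by
  rw [← B1b_closedBall x hr, Measure.addHaar_closedBall_eq_addHaar_ball]

theorem B1b_ball_ae (x : ℂ) (r : ℝ) : Metric.closedBall x r =ᵐ[volume] Metric.ball x r := by
  have h : volume (Metric.sphere x r) = 0 := Measure.addHaar_sphere volume x r
  rw [← Metric.ball_union_sphere]
  exact union_ae_eq_left_of_ae_eq_empty (ae_eq_empty.mpr h)

/-- PROOF. Vitali's covering lemma (`Vitali.exists_disjoint_subfamily_covering_enlargement_closedBall`, radii are bounded since `Λ r² < ∫ g`): disjoint balls `B_i` of radii `r_i` with `Bad g Λ ⊆ ⋃ 5 B_i`,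
`Λ r_i² < ∫_{B_i} g`, so `|Bad g Λ| ≤ 25 π ∑ r_i² ≤ (25 π / Λ) ∫ g`. -/
theorem bad_weak {g : ℂ → ℝ} (hg : Integrable g) (h0 : ∀ z, 0 ≤ g z) {Λ : ℝ} (hΛ : 0 < Λ) :
    volume (Bad g Λ) ≤ ENNReal.ofReal (80 / Λ * ∫ z, g z) := by
  classical
  have hex : ∀ x : ℂ, ∃ r : ℝ, 0 < r ∧ (x ∈ Bad g Λ → Λ * r ^ 2 < ∫ z in Metric.ball x r, g z) := by
    intro x
    by_cases hx : x ∈ Bad g Λ
    · obtain ⟨r, hr, h⟩ := hx
      exact ⟨r, hr, fun _ => h⟩
    · exact ⟨1, one_pos, fun h => absurd h hx⟩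
  choose r hr hrb using hex
  set I : ℝ := ∫ z, g z with hI
  have hball : ∀ x ∈ Bad g Λ, Λ * r x ^ 2 < I := by
    intro x hx
    refine (hrb x hx).trans_le ?_
    exact setIntegral_le_integral hg (Eventually.of_forall h0)
  have hR : ∀ x ∈ Bad g Λ, r x ≤ Real.sqrt (I / Λ) := by
    intro x hx
    apply Real.le_sqrt_of_sq_le
    rw [le_div_iff₀ hΛ, mul_comm]
    exact (hball x hx).le
  obtain ⟨u, hut, hdisj, hcov⟩ := Vitali.exists_disjoint_subfamily_covering_enlargement_closedBall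
    (Bad g Λ) (fun x : ℂ => x) r (Real.sqrt (I / Λ)) hR 5 (by norm_num)
  have hcount : u.Countable := by
    apply hdisj.countable_of_nonempty_interior
    intro x _
    refine ⟨x, ?_⟩
    exact interior_mono Metric.ball_subset_closedBall
      (by rw [Metric.isOpen_ball.interior_eq]; exact Metric.mem_ball_self (hr x))
  have hsub : Bad g Λ ⊆ ⋃ b ∈ u, Metric.closedBall b (5 * r b) := by
    intro x hx
    obtain ⟨b, hb, hxb⟩ := hcov x hx
    rw [mem_iUnion₂]
    exact ⟨b, hb, hxb (Metric.mem_closedBall_self (hr x).le)⟩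
  have : Countable u := hcount.to_subtype
  have hpi : 25 * Real.pi ≤ 80 := by
    have := Real.pi_lt_d2
    linarith
  have hdisj2 : Pairwise (Function.onFun Disjoint (fun b : u => Metric.ball (b : ℂ) (r b))) := by
    intro a b hab
    have h1 := hdisj a.2 b.2 (fun h => hab (Subtype.ext h))
    exact Disjoint.mono Metric.ball_subset_closedBall Metric.ball_subset_closedBall h1
  have hone : ∀ b : u, volume (Metric.closedBall (b : ℂ) (5 * r b)) ≤
      ENNReal.ofReal (80 / Λ) * ∫⁻ z in Metric.ball (b : ℂ) (r b), ENNReal.ofReal (g z) := by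
    intro b
    have hbB : (b : ℂ) ∈ Bad g Λ := hut b.2
    rw [B1b_closedBall _ (by have := hr (b : ℂ); positivity)]
    rw [← ofReal_integral_eq_lintegral_ofReal hg.integrableOn (Eventually.of_forall h0),
      ← ENNReal.ofReal_mul (by positivity)]
    apply ENNReal.ofReal_le_ofReal
    have h1 := hrb _ hbB
    have h2 : r (b : ℂ) ^ 2 ≤ (∫ z in Metric.ball (b : ℂ) (r b), g z) / Λ := by
      rw [le_div_iff₀ hΛ, mul_comm]
      exact h1.le
    have h3 : 0 ≤ r (b : ℂ) ^ 2 := by positivity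
    calc Real.pi * (5 * r (b : ℂ)) ^ 2 = (25 * Real.pi) * r (b : ℂ) ^ 2 := by ring
      _ ≤ 80 * r (b : ℂ) ^ 2 := mul_le_mul_of_nonneg_right hpi h3
      _ ≤ 80 * ((∫ z in Metric.ball (b : ℂ) (r b), g z) / Λ) :=
          mul_le_mul_of_nonneg_left h2 (by norm_num)
      _ = 80 / Λ * ∫ z in Metric.ball (b : ℂ) (r b), g z := by ring
  calc volume (Bad g Λ) ≤ volume (⋃ b ∈ u, Metric.closedBall b (5 * r b)) := measure_mono hsub
    _ = volume (⋃ b : u, Metric.closedBall (b : ℂ) (5 * r b)) := by rw [biUnion_eq_iUnion]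
    _ ≤ ∑' b : u, volume (Metric.closedBall (b : ℂ) (5 * r b)) := measure_iUnion_le _
    _ ≤ ∑' b : u, ENNReal.ofReal (80 / Λ) *
          ∫⁻ z in Metric.ball (b : ℂ) (r b), ENNReal.ofReal (g z) := ENNReal.tsum_le_tsum hone
    _ = ENNReal.ofReal (80 / Λ) *
          ∑' b : u, ∫⁻ z in Metric.ball (b : ℂ) (r b), ENNReal.ofReal (g z) := ENNReal.tsum_mul_left
    _ = ENNReal.ofReal (80 / Λ) *
          ∫⁻ z in ⋃ b : u, Metric.ball (b : ℂ) (r b), ENNReal.ofReal (g z) := by
        rw [lintegral_iUnion (fun b => Metric.isOpen_ball.measurableSet) hdisj2]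
    _ ≤ ENNReal.ofReal (80 / Λ) * ∫⁻ z, ENNReal.ofReal (g z) := by
        exact mul_le_mul_right (setLIntegral_le_lintegral _ _) _
    _ = ENNReal.ofReal (80 / Λ * ∫ z, g z) := by
        rw [← ofReal_integral_eq_lintegral_ofReal hg (Eventually.of_forall h0),
          ← ENNReal.ofReal_mul (by positivity)]

/-- PROOF. `g = g 1_{g ≤ Λ/8} + g 1_{g > Λ/8}`, the first part contributes at most `π Λ r² / 8 ≤ Λ r² / 2`; `bad_weak` for the second part with `Λ / 2`. -/
theorem bad_weak' {g : ℂ → ℝ} (hg : Integrable g) (h0 : ∀ z, 0 ≤ g z) {Λ : ℝ} (hΛ : 0 < Λ) :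
    volume (Bad g Λ) ≤ ENNReal.ofReal (160 / Λ * ∫ z in {z | Λ / 8 < g z}, g z) := by
  have hnull : NullMeasurableSet {z | Λ / 8 < g z} volume :=
    nullMeasurableSet_lt aemeasurable_const hg.aemeasurable
  set g2 : ℂ → ℝ := {z | Λ / 8 < g z}.indicator g with hg2
  have hg2i : Integrable g2 := hg.indicator₀ hnull
  have hg20 : ∀ z, 0 ≤ g2 z := fun z => indicator_nonneg (fun z _ => h0 z) z
  have hsub : Bad g Λ ⊆ Bad g2 (Λ / 2) := by
    rintro x ⟨r, hr, h⟩
    refine ⟨r, hr, ?_⟩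
    have hvol : (volume.real (Metric.ball x r)) = Real.pi * r ^ 2 := by
      rw [Measure.real, B1b_ball x hr.le, ENNReal.toReal_ofReal (by positivity)]
    have hfin : volume (Metric.ball x r) < ⊤ := measure_ball_lt_top
    have hcst : Integrable (fun _ : ℂ => Λ / 8) (volume.restrict (Metric.ball x r)) :=
      integrableOn_const (hs := hfin.ne)
    have h1 : ∫ z in Metric.ball x r, g z ≤ ∫ z in Metric.ball x r, (Λ / 8 + g2 z) := by
      apply integral_mono hg.integrableOn
      · exact hcst.add hg2i.integrableOn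
      · intro z
        simp only [hg2, Set.indicator, Set.mem_ofPred_eq]
        split_ifs with hz
        · linarith
        · linarith
    have h2 : ∫ z in Metric.ball x r, (Λ / 8 + g2 z) =
        Real.pi * r ^ 2 * (Λ / 8) + ∫ z in Metric.ball x r, g2 z := by
      rw [integral_add hcst hg2i.integrableOn, setIntegral_const, hvol, smul_eq_mul]
    have hpi : Real.pi ≤ 4 := Real.pi_le_four
    have h3 : Real.pi * r ^ 2 * (Λ / 8) ≤ Λ / 2 * r ^ 2 := by
      have : 0 ≤ r ^ 2 * (Λ / 8) := by positivity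
      nlinarith
    linarith
  have hmain := bad_weak hg2i hg20 (Λ := Λ / 2) (by positivity)
  refine (measure_mono hsub).trans (hmain.trans (le_of_eq ?_))
  congr 1
  rw [hg2, integral_indicator₀ hnull]
  ring

/-- Lebesgue differentiation -/
theorem le_of_notMem_bad {g : ℂ → ℝ} (hg : Integrable g) {Λ : ℝ} (hΛ : 0 ≤ Λ) :
    ∀ᵐ x, x ∉ Bad g Λ → g x ≤ Λ := by
  have hae := IsUnifLocDoublingMeasure.ae_tendsto_average (μ := (volume : Measure ℂ))
    hg.locallyIntegrable 1
  filter_upwards [hae] with x hx hbad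
  have hlim := hx (l := 𝓝[>] (0 : ℝ)) (fun _ => x) (fun d => d) tendsto_id (by
    filter_upwards [self_mem_nhdsWithin] with d hd
    exact Metric.mem_closedBall_self (by simpa using (le_of_lt hd : (0 : ℝ) ≤ d)))
  refine le_of_tendsto hlim ?_
  filter_upwards [self_mem_nhdsWithin] with d hd
  have hd0 : 0 < d := hd
  have h1 : ∫ z in Metric.ball x d, g z ≤ Λ * d ^ 2 := by
    by_contra hlt
    exact hbad ⟨d, hd0, not_le.mp hlt⟩
  rw [setAverage_eq, setIntegral_congr_set (B1b_ball_ae x d), Measure.real, B1b_closedBall x hd0.le,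
    ENNReal.toReal_ofReal (by positivity), smul_eq_mul, inv_mul_le_iff₀ (by positivity)]
  refine h1.trans ?_
  have hpi : 1 ≤ Real.pi := by
    have := Real.pi_gt_three
    linarith
  have : 0 ≤ Λ * d ^ 2 := by positivity
  nlinarith

end

end Pool.B2F
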