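import Pool.Agent.Lib.MP_b2f128_an.Base
import Pool.Agent.Lib.MP_b2f128_an.A02b
import Pool.Agent.Lib.MP_b2f128_an.B1b

/-!
# MP_b2f128_an, part B2a (real analysis)
-/

open Complex MeasureTheory Set Filter Topology
open scoped ContDiff

namespace Pool.B2F

noncomputable section

theorem B2a_summable (s : ℝ) : Summable (fun m : ℕ => ((m : ℝ) + 1) ^ s * (1 / 2 : ℝ) ^ m) := by
  obtain ⟨k, hk⟩ := exists_nat_ge s
  have h1 : Summable (fun m : ℕ => ((m : ℝ)) ^ k * (1 / 2 : ℝ) ^ m) :=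
    summable_pow_mul_geometric_of_norm_lt_one k (by norm_num)
  have h2 : Summable (fun m : ℕ => (((m + 1 : ℕ) : ℝ)) ^ k * (1 / 2 : ℝ) ^ (m + 1)) :=
    (summable_nat_add_iff 1).mpr h1
  have h3 := h2.mul_left 2
  refine Summable.of_nonneg_of_le (fun m => by positivity) (fun m => ?_) h3
  have h4 : ((m : ℝ) + 1) ^ s ≤ ((m : ℝ) + 1) ^ k := by
    rw [← Real.rpow_natCast]
    exact Real.rpow_le_rpow_of_exponent_le (by linarith [(Nat.cast_nonneg m : (0 : ℝ) ≤ m)]) hk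
  calc ((m : ℝ) + 1) ^ s * (1 / 2 : ℝ) ^ m ≤ ((m : ℝ) + 1) ^ k * (1 / 2 : ℝ) ^ m :=
        mul_le_mul_of_nonneg_right h4 (by positivity)
    _ = 2 * ((((m + 1 : ℕ) : ℝ)) ^ k * (1 / 2 : ℝ) ^ (m + 1)) := by
        push_cast
        rw [pow_succ]
        ring

/-- the finite sum -/
theorem B2a_fin (s : ℝ) (hs : 0 ≤ s) (n : ℕ) :
    ∑ j ∈ Finset.Icc 1 n, (2 : ℝ) ^ j * (j : ℝ) ^ (-s) ≤
      (∑' m : ℕ, ((m : ℝ) + 1) ^ s * (1 / 2 : ℝ) ^ m) * (2 ^ n * (n : ℝ) ^ (-s)) := by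
  have hsum := B2a_summable s
  have h1 : ∀ j ∈ Finset.Icc 1 n, (2 : ℝ) ^ j * (j : ℝ) ^ (-s) ≤
      ((((n - j : ℕ) : ℝ) + 1) ^ s * (1 / 2 : ℝ) ^ (n - j)) * (2 ^ n * (n : ℝ) ^ (-s)) := by
    intro j hj
    rw [Finset.mem_Icc] at hj
    have hj0 : (0 : ℝ) < j := by exact_mod_cast hj.1
    have hj1 : (1 : ℝ) ≤ j := by exact_mod_cast hj.1
    have hn0 : (0 : ℝ) < n := by
      have : 0 < n := by omega
      exact_mod_cast this
    have hjn : (j : ℝ) ≤ n := by exact_mod_cast hj.2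
    have e1 : (2 : ℝ) ^ n = 2 ^ j * 2 ^ (n - j) := by
      rw [← pow_add]
      congr 1
      omega
    have e2 : (1 / 2 : ℝ) ^ (n - j) * 2 ^ (n - j) = 1 := by
      rw [← mul_pow]
      norm_num
    have e3 : (n : ℝ) / j ≤ ((n - j : ℕ) : ℝ) + 1 := by
      rw [div_le_iff₀ hj0, Nat.cast_sub hj.2]
      nlinarith
    have e4 : (j : ℝ) ^ (-s) ≤ (((n - j : ℕ) : ℝ) + 1) ^ s * (n : ℝ) ^ (-s) := by
      have e5 : ((n : ℝ) / j) ^ s ≤ (((n - j : ℕ) : ℝ) + 1) ^ s :=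
        Real.rpow_le_rpow (by positivity) e3 hs
      have e6 : (j : ℝ) ^ (-s) = ((n : ℝ) / j) ^ s * (n : ℝ) ^ (-s) := by
        rw [Real.div_rpow hn0.le hj0.le, Real.rpow_neg hn0.le, Real.rpow_neg hj0.le]
        have : (n : ℝ) ^ s ≠ 0 := (Real.rpow_pos_of_pos hn0 s).ne'
        field_simp
      rw [e6]
      exact mul_le_mul_of_nonneg_right e5 (by positivity)
    calc (2 : ℝ) ^ j * (j : ℝ) ^ (-s) ≤ 2 ^ j * ((((n - j : ℕ) : ℝ) + 1) ^ s * (n : ℝ) ^ (-s)) :=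
          mul_le_mul_of_nonneg_left e4 (by positivity)
      _ = 2 ^ j * ((((n - j : ℕ) : ℝ) + 1) ^ s * (n : ℝ) ^ (-s)) *
            ((1 / 2 : ℝ) ^ (n - j) * 2 ^ (n - j)) := by rw [e2, mul_one]
      _ = _ := by rw [e1]; ring
  refine (Finset.sum_le_sum h1).trans ?_
  rw [← Finset.sum_mul]
  apply mul_le_mul_of_nonneg_right _ (by positivity)
  have h2 : ∑ j ∈ Finset.Icc 1 n, ((((n - j : ℕ) : ℝ) + 1) ^ s * (1 / 2 : ℝ) ^ (n - j)) =
      ∑ m ∈ (Finset.Icc 1 n).image (fun j => n - j), (((m : ℝ) + 1) ^ s * (1 / 2 : ℝ) ^ m) := by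
    rw [Finset.sum_image]
    intro a ha b hb hab
    simp only [Finset.coe_Icc, Set.mem_Icc] at ha hb hab
    omega
  rw [h2]
  exact hsum.sum_le_tsum _ (fun m _ => by positivity)

/-- the pointwise inequality -/
theorem B2a_point (s : ℝ) (hs : 0 ≤ s) (N : ℕ) (t : ℝ) (ht : 0 ≤ t) :
    ∑ i ∈ Finset.range N, 160 * 2 ^ (i + 1) * ((i : ℝ) + 1) ^ (-s) *
        (if (2 : ℝ) ^ (i + 1) / 8 < t then t else 0) ≤
      (160 * 8 * 2 ^ s * (∑' m : ℕ, ((m : ℝ) + 1) ^ s * (1 / 2 : ℝ) ^ m)) *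
        (t ^ 2 / Real.log (Real.exp 1 + t) ^ s) := by
  set A : ℝ := ∑' m : ℕ, ((m : ℝ) + 1) ^ s * (1 / 2 : ℝ) ^ m with hA
  have hA0 : 0 ≤ A := tsum_nonneg (fun m => by positivity)
  have hlog1 : 1 ≤ Real.log (Real.exp 1 + t) := by
    have h1 : Real.log (Real.exp 1) ≤ Real.log (Real.exp 1 + t) :=
      Real.log_le_log (Real.exp_pos 1) (by linarith)
    rwa [Real.log_exp] at h1
  have hlog0 : 0 < Real.log (Real.exp 1 + t) := by linarith
  rcases le_or_gt t (1 / 4) with h | h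
  · have h0 : ∑ i ∈ Finset.range N, 160 * 2 ^ (i + 1) * ((i : ℝ) + 1) ^ (-s) *
        (if (2 : ℝ) ^ (i + 1) / 8 < t then t else 0) = 0 := by
      apply Finset.sum_eq_zero
      intro i _
      rw [if_neg, mul_zero]
      have h2 : (2 : ℝ) ≤ 2 ^ (i + 1) := by
        calc (2 : ℝ) = 2 ^ 1 := by norm_num
          _ ≤ 2 ^ (i + 1) := pow_le_pow_right₀ (by norm_num) (by omega)
      intro h3
      linarith
    rw [h0]
    positivity
  · -- the largest exponent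
    have hex : ∃ n : ℕ, 1 ≤ n ∧ (2 : ℝ) ^ n < 8 * t ∧ 8 * t ≤ 2 ^ (n + 1) := by
      have hfin : ∃ k : ℕ, 8 * t ≤ (2 : ℝ) ^ k := by
        obtain ⟨k, hk⟩ := pow_unbounded_of_one_lt (8 * t) (by norm_num : (1 : ℝ) < 2)
        exact ⟨k, hk.le⟩
      classical
      set k := Nat.find hfin with hk
      have hk1 : 8 * t ≤ (2 : ℝ) ^ k := Nat.find_spec hfin
      have hk2 : 2 ≤ k := by
        by_contra hlt
        have : k ≤ 1 := by omega
        have h3 : (2 : ℝ) ^ k ≤ 2 ^ 1 := pow_le_pow_right₀ (by norm_num) this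
        linarith
      refine ⟨k - 1, by omega, ?_, ?_⟩
      · have := Nat.find_min hfin (m := k - 1) (by omega)
        exact not_le.mp this
      · have : k - 1 + 1 = k := by omega
        rw [this]
        exact hk1
    obtain ⟨n, hn1, hn2, hn3⟩ := hex
    have hnR : (1 : ℝ) ≤ n := by exact_mod_cast hn1
    have hn0 : (0 : ℝ) < n := by linarith
    have hlogn : Real.log (Real.exp 1 + t) ≤ 2 * n := by
      have h1 : Real.exp 1 + t ≤ Real.exp 1 * 2 ^ n := by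
        have he : (2 : ℝ) < Real.exp 1 := by
          have := Real.exp_one_gt_d9
          linarith
        have h2 : t ≤ 2 ^ n / 4 := by
          rw [pow_succ] at hn3
          linarith
        have h3 : (2 : ℝ) ≤ 2 ^ n := by
          calc (2 : ℝ) = 2 ^ 1 := by norm_num
            _ ≤ 2 ^ n := pow_le_pow_right₀ (by norm_num) hn1
        nlinarith
      calc Real.log (Real.exp 1 + t) ≤ Real.log (Real.exp 1 * 2 ^ n) :=
            Real.log_le_log (by positivity) h1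
        _ = 1 + n * Real.log 2 := by
            rw [Real.log_mul (Real.exp_ne_zero 1) (by positivity), Real.log_exp, Real.log_pow]
        _ ≤ 1 + n * 1 := by
            have := Real.log_two_lt_d9
            have h2 : Real.log 2 ≤ 1 := by linarith
            nlinarith
        _ ≤ 2 * n := by linarith
    have hle : ∑ i ∈ Finset.range N, 160 * 2 ^ (i + 1) * ((i : ℝ) + 1) ^ (-s) *
        (if (2 : ℝ) ^ (i + 1) / 8 < t then t else 0) ≤
        160 * t * ∑ j ∈ Finset.Icc 1 n, (2 : ℝ) ^ j * (j : ℝ) ^ (-s) := by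
      have h1 : ∑ i ∈ Finset.range N, 160 * 2 ^ (i + 1) * ((i : ℝ) + 1) ^ (-s) *
          (if (2 : ℝ) ^ (i + 1) / 8 < t then t else 0) =
          ∑ i ∈ (Finset.range N).filter (fun i => (2 : ℝ) ^ (i + 1) / 8 < t),
            160 * t * ((2 : ℝ) ^ (i + 1) * (((i + 1 : ℕ) : ℝ)) ^ (-s)) := by
        rw [Finset.sum_filter]
        apply Finset.sum_congr rfl
        intro i _
        split_ifs
        · push_cast
          ring
        · ring
      rw [h1, Finset.mul_sum]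
      have h2 : ∑ i ∈ (Finset.range N).filter (fun i => (2 : ℝ) ^ (i + 1) / 8 < t),
            160 * t * ((2 : ℝ) ^ (i + 1) * (((i + 1 : ℕ) : ℝ)) ^ (-s)) =
          ∑ j ∈ ((Finset.range N).filter (fun i : ℕ => (2 : ℝ) ^ (i + 1) / 8 < t)).image (fun i : ℕ => (i + 1 : ℕ)),
            160 * t * ((2 : ℝ) ^ (j : ℕ) * (((j : ℕ) : ℝ)) ^ (-s)) := by
        rw [Finset.sum_image]
        intro a _ b _ hab
        simpa using hab
      rw [h2]
      apply Finset.sum_le_sum_of_subset_of_nonneg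
      · intro j hj
        rw [Finset.mem_image] at hj
        obtain ⟨i, hi, rfl⟩ := hj
        have hi2 := (Finset.mem_filter.mp hi).2
        rw [Finset.mem_Icc]
        refine ⟨by omega, ?_⟩
        by_contra hlt
        have h3 : n + 1 ≤ i + 1 := by omega
        have h4 : (2 : ℝ) ^ (n + 1) ≤ 2 ^ (i + 1) := pow_le_pow_right₀ (by norm_num) h3
        linarith
      · intro j _ _
        positivity
    refine hle.trans ?_
    have hfin := B2a_fin s hs n
    have hns : (n : ℝ) ^ (-s) ≤ 2 ^ s / Real.log (Real.exp 1 + t) ^ s := by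
      rw [Real.rpow_neg hn0.le, le_div_iff₀ (Real.rpow_pos_of_pos hlog0 s)]
      rw [inv_mul_le_iff₀ (Real.rpow_pos_of_pos hn0 s), mul_comm, ← Real.mul_rpow (by norm_num) hn0.le]
      exact Real.rpow_le_rpow hlog0.le hlogn hs
    calc 160 * t * ∑ j ∈ Finset.Icc 1 n, (2 : ℝ) ^ j * (j : ℝ) ^ (-s)
        ≤ 160 * t * (A * (2 ^ n * (n : ℝ) ^ (-s))) :=
          mul_le_mul_of_nonneg_left hfin (by positivity)
      _ ≤ 160 * t * (A * ((8 * t) * (2 ^ s / Real.log (Real.exp 1 + t) ^ s))) := by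
          gcongr
      _ = _ := by ring

/-- PROOF. `bad_weak'` with `Λ = 2^i` and `∑_{i ≥ 1, 2^i < 8 t} 2^i i^(-(1+γ)) ≤ C t / log^(1+γ) (e + t)` for `t > 1/4`; exchange sum and integral. -/
theorem sum_bad {g : ℂ → ℝ} (hg : Integrable g) (h0 : ∀ z, 0 ≤ g z) {γ : ℝ} (hγ : 0 ≤ γ)
    (hint : Integrable (fun z => g z ^ 2 / Real.log (Real.exp 1 + g z) ^ (1 + γ))) :
    Summable (fun i : ℕ => 4 ^ (i + 1) * ((i : ℝ) + 1) ^ (-(1 + γ)) *
      (volume (Bad g (2 ^ (i + 1)))).toReal) := by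
  set K : ℝ := 160 * 8 * 2 ^ (1 + γ) * (∑' m : ℕ, ((m : ℝ) + 1) ^ (1 + γ) * (1 / 2 : ℝ) ^ m) with hK
  have hnull : ∀ i : ℕ, NullMeasurableSet {z | (2 : ℝ) ^ (i + 1) / 8 < g z} volume := fun i =>
    nullMeasurableSet_lt aemeasurable_const hg.aemeasurable
  refine summable_of_sum_range_le (c := K * ∫ z, g z ^ 2 / Real.log (Real.exp 1 + g z) ^ (1 + γ))
    (fun i => by positivity) ?_
  intro N
  have hterm : ∀ i ∈ Finset.range N, (4 : ℝ) ^ (i + 1) * ((i : ℝ) + 1) ^ (-(1 + γ)) *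
      (volume (Bad g (2 ^ (i + 1)))).toReal ≤
      ∫ z, 160 * 2 ^ (i + 1) * ((i : ℝ) + 1) ^ (-(1 + γ)) *
        (if (2 : ℝ) ^ (i + 1) / 8 < g z then g z else 0) := by
    intro i _
    have hI0 : 0 ≤ ∫ z in {z | (2 : ℝ) ^ (i + 1) / 8 < g z}, g z :=
      integral_nonneg (fun z => h0 z)
    have h1 := bad_weak' hg h0 (Λ := 2 ^ (i + 1)) (by positivity)
    have h2 : (volume (Bad g (2 ^ (i + 1)))).toReal ≤
        160 / 2 ^ (i + 1) * ∫ z in {z | (2 : ℝ) ^ (i + 1) / 8 < g z}, g z :=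
      ENNReal.toReal_le_of_le_ofReal (by positivity) h1
    have h3 : ∫ z, 160 * 2 ^ (i + 1) * ((i : ℝ) + 1) ^ (-(1 + γ)) *
        (if (2 : ℝ) ^ (i + 1) / 8 < g z then g z else 0) =
        160 * 2 ^ (i + 1) * ((i : ℝ) + 1) ^ (-(1 + γ)) *
          ∫ z in {z | (2 : ℝ) ^ (i + 1) / 8 < g z}, g z := by
      rw [integral_const_mul]
      congr 1
      rw [← integral_indicator₀ (hnull i)]
      apply integral_congr_ae
      filter_upwards with z
      simp only [Set.indicator, Set.mem_ofPred_eq]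
    rw [h3]
    have h4 : (4 : ℝ) ^ (i + 1) = 2 ^ (i + 1) * 2 ^ (i + 1) := by
      rw [← mul_pow]
      norm_num
    calc (4 : ℝ) ^ (i + 1) * ((i : ℝ) + 1) ^ (-(1 + γ)) * (volume (Bad g (2 ^ (i + 1)))).toReal
        ≤ (4 : ℝ) ^ (i + 1) * ((i : ℝ) + 1) ^ (-(1 + γ)) *
          (160 / 2 ^ (i + 1) * ∫ z in {z | (2 : ℝ) ^ (i + 1) / 8 < g z}, g z) :=
          mul_le_mul_of_nonneg_left h2 (by positivity)
      _ = _ := by
          rw [h4]
          have : (2 : ℝ) ^ (i + 1) ≠ 0 := by positivity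
          field_simp
  have hintg : ∀ i : ℕ, Integrable (fun z => 160 * 2 ^ (i + 1) * ((i : ℝ) + 1) ^ (-(1 + γ)) *
      (if (2 : ℝ) ^ (i + 1) / 8 < g z then g z else 0)) := by
    intro i
    apply Integrable.const_mul
    have h1 : Integrable ({z | (2 : ℝ) ^ (i + 1) / 8 < g z}.indicator g) :=
      hg.indicator₀ (hnull i)
    refine h1.congr ?_
    filter_upwards with z
    simp only [Set.indicator, Set.mem_ofPred_eq]
  refine (Finset.sum_le_sum hterm).trans ?_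
  rw [← integral_finsetSum _ (fun i _ => hintg i), ← integral_const_mul]
  apply integral_mono (integrable_finsetSum _ (fun i _ => hintg i)) (hint.const_mul K)
  intro z
  exact B2a_point (1 + γ) (by linarith) N (g z) (h0 z)

end

end Pool.B2F
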