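import Pool.Agent.Lib.MP_b2f128_an.Base
import Pool.Agent.Lib.MP_b2f128_an.B1b

/-!
# MP_b2f128_an, part B2b (real analysis)
-/

open Complex MeasureTheory Set Filter Topology
open scoped ContDiff

namespace Pool.B2F

noncomputable section

theorem B2b_point (t : ℝ) (ht : 0 ≤ t) (n : ℕ) :
    ∑ i ∈ Finset.range n, (if (2 : ℝ) ^ i / 8 < t then (2 : ℝ) ^ i else 0) ≤ 16 * t ∧
      ∑ i ∈ Finset.range n, (if (2 : ℝ) ^ i / 8 < t then (2 : ℝ) ^ i else 0) ≤ 2 ^ n - 1 := by
  induction n with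
  | zero => simp [ht]
  | succ n ih =>
    obtain ⟨h1, h2⟩ := ih
    rw [Finset.sum_range_succ]
    have h3 : (0 : ℝ) < 2 ^ n := by positivity
    rw [pow_succ]
    split_ifs with h
    · constructor <;> linarith
    · constructor <;> linarith

/-- the same without logarithm, with an explicit bound (`γ` absent) -/
theorem sum_bad2 : ∃ C : ℝ, 0 < C ∧ ∀ g : ℂ → ℝ, Integrable g → (∀ z, 0 ≤ g z) →
    Integrable (fun z => g z ^ 2) → ∀ m n : ℕ,
      ∑ i ∈ Finset.Ico m n, 4 ^ i * (volume (Bad g (2 ^ i))).toReal ≤ C * ∫ z, g z ^ 2 := by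
  refine ⟨2560, by norm_num, ?_⟩
  intro g hg h0 hg2 m n
  have hnull : ∀ i : ℕ, NullMeasurableSet {z | (2 : ℝ) ^ i / 8 < g z} volume := fun i =>
    nullMeasurableSet_lt aemeasurable_const hg.aemeasurable
  have hle : ∑ i ∈ Finset.Ico m n, 4 ^ i * (volume (Bad g (2 ^ i))).toReal ≤
      ∑ i ∈ Finset.range n, 4 ^ i * (volume (Bad g (2 ^ i))).toReal := by
    apply Finset.sum_le_sum_of_subset_of_nonneg
    · intro i hi
      rw [Finset.mem_Ico] at hi
      exact Finset.mem_range.mpr hi.2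
    · intro i _ _
      positivity
  refine hle.trans ?_
  have hterm : ∀ i ∈ Finset.range n, (4 : ℝ) ^ i * (volume (Bad g (2 ^ i))).toReal ≤
      ∫ z, 160 * 2 ^ i * (if (2 : ℝ) ^ i / 8 < g z then g z else 0) := by
    intro i _
    have hI0 : 0 ≤ ∫ z in {z | (2 : ℝ) ^ i / 8 < g z}, g z :=
      integral_nonneg (fun z => h0 z)
    have h1 := bad_weak' hg h0 (Λ := 2 ^ i) (by positivity)
    have h2 : (volume (Bad g (2 ^ i))).toReal ≤
        160 / 2 ^ i * ∫ z in {z | (2 : ℝ) ^ i / 8 < g z}, g z :=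
      ENNReal.toReal_le_of_le_ofReal (by positivity) h1
    have h3 : ∫ z, 160 * 2 ^ i * (if (2 : ℝ) ^ i / 8 < g z then g z else 0) =
        160 * 2 ^ i * ∫ z in {z | (2 : ℝ) ^ i / 8 < g z}, g z := by
      rw [integral_const_mul]
      congr 1
      rw [← integral_indicator₀ (hnull i)]
      apply integral_congr_ae
      filter_upwards with z
      simp only [Set.indicator, Set.mem_ofPred_eq]
    rw [h3]
    have h4 : (4 : ℝ) ^ i = 2 ^ i * 2 ^ i := by
      rw [← mul_pow]
      norm_num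
    calc (4 : ℝ) ^ i * (volume (Bad g (2 ^ i))).toReal
        ≤ (4 : ℝ) ^ i * (160 / 2 ^ i * ∫ z in {z | (2 : ℝ) ^ i / 8 < g z}, g z) :=
          mul_le_mul_of_nonneg_left h2 (by positivity)
      _ = _ := by
          rw [h4]
          have : (2 : ℝ) ^ i ≠ 0 := by positivity
          field_simp
  have hintg : ∀ i : ℕ, Integrable (fun z => 160 * 2 ^ i *
      (if (2 : ℝ) ^ i / 8 < g z then g z else 0)) := by
    intro i
    apply Integrable.const_mul
    have h1 : Integrable ({z | (2 : ℝ) ^ i / 8 < g z}.indicator g) := hg.indicator₀ (hnull i)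
    refine h1.congr ?_
    filter_upwards with z
    simp only [Set.indicator, Set.mem_ofPred_eq]
  refine (Finset.sum_le_sum hterm).trans ?_
  rw [← integral_finsetSum _ (fun i _ => hintg i), ← integral_const_mul]
  apply integral_mono (integrable_finsetSum _ (fun i _ => hintg i)) (hg2.const_mul 2560)
  intro z
  have h5 := (B2b_point (g z) (h0 z) n).1
  have h6 : ∑ i ∈ Finset.range n, 160 * 2 ^ i * (if (2 : ℝ) ^ i / 8 < g z then g z else 0) =
      160 * g z * ∑ i ∈ Finset.range n, (if (2 : ℝ) ^ i / 8 < g z then (2 : ℝ) ^ i else 0) := by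
    rw [Finset.mul_sum]
    apply Finset.sum_congr rfl
    intro i _
    split_ifs
    · ring
    · ring
  have h7 : 0 ≤ 160 * g z := by
    have := h0 z
    positivity
  calc ∑ i ∈ Finset.range n, 160 * 2 ^ i * (if (2 : ℝ) ^ i / 8 < g z then g z else 0)
      = 160 * g z * ∑ i ∈ Finset.range n, (if (2 : ℝ) ^ i / 8 < g z then (2 : ℝ) ^ i else 0) := h6
    _ ≤ 160 * g z * (16 * g z) := mul_le_mul_of_nonneg_left h5 h7
    _ = 2560 * g z ^ 2 := by ring

end

end Pool.B2F
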