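import Pool.Agent.Lib.MP_b2f128_an.Base
import Pool.Agent.Lib.MP_b2f128_an.A02b

/-!
# MP_b2f128_an, part B3 (real analysis)
-/

open Complex MeasureTheory Set Filter Topology
open scoped ContDiff

namespace Pool.B2F

noncomputable section

theorem B3_two : ‖(2 : ℂ)‖ = 2 := by simp

theorem B3_path {v : ℂ → ℂ} (hv : ContDiff ℝ 1 v) (x y : ℂ) (D : ℝ) (hD : ‖y - x‖ ≤ D) :
    ‖v y - v x‖ ≤ D * ∫ t in Ioc (0 : ℝ) 1, ‖fderiv ℝ v (x + t • (y - x))‖ := by
  have hc : Continuous (fun t : ℝ => fderiv ℝ v (x + t • (y - x))) :=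
    (hv.continuous_fderiv one_ne_zero).comp (by fun_prop)
  have h1 : ∀ t ∈ uIcc (0 : ℝ) 1, HasDerivAt (fun t : ℝ => v (x + t • (y - x)))
      (fderiv ℝ v (x + t • (y - x)) (y - x)) t := by
    intro t _
    have h2 : HasDerivAt (fun t : ℝ => x + t • (y - x)) (y - x) t := by
      have h3 := ((hasDerivAt_id t).smul_const (y - x)).const_add x
      simpa using h3
    exact ((hv.differentiable one_ne_zero (x + t • (y - x))).hasFDerivAt).comp_hasDerivAt t h2
  have h2 := intervalIntegral.integral_eq_sub_of_hasDerivAt h1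
    ((hc.clm_apply continuous_const).intervalIntegrable 0 1)
  have h3 : v y - v x = ∫ t in (0 : ℝ)..1, fderiv ℝ v (x + t • (y - x)) (y - x) := by
    rw [h2]
    simp
  rw [h3]
  refine (intervalIntegral.norm_integral_le_integral_norm zero_le_one).trans ?_
  rw [intervalIntegral.integral_of_le zero_le_one, ← integral_const_mul]
  refine setIntegral_mono_on ?_ ?_ measurableSet_Ioc ?_
  · exact ((hc.clm_apply continuous_const).norm.integrableOn_Icc).mono_set Ioc_subset_Icc_self
  · exact ((continuous_const.mul hc.norm).integrableOn_Icc).mono_set Ioc_subset_Icc_self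
  · intro t _
    refine (ContinuousLinearMap.le_opNorm _ _).trans ?_
    rw [mul_comm]
    exact mul_le_mul_of_nonneg_right hD (norm_nonneg _)

theorem B3_scale {g : ℂ → ℝ} (hg : Integrable g) (h0 : ∀ z, 0 ≤ g z) {Λ : ℝ} {x : ℂ} (hx : x ∉ Bad g Λ)
    {U : Set ℂ} (hUm : MeasurableSet U) {D : ℝ} (hD : 0 < D) (hU : U ⊆ Metric.ball x D) {t : ℝ} (ht : 0 < t)
    (h : ℂ → ℝ) (h1 : ∀ y ∈ U, 0 ≤ h (x + t • (y - x))) (h2 : ∀ y ∈ U, h (x + t • (y - x)) ≤ g (x + t • (y - x))) :
    ∫ y in U, h (x + t • (y - x)) ≤ Λ * D ^ 2 := by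
  set k : ℂ → ℝ := fun w => (Metric.ball x (t * D)).indicator g (x + w) with hk
  have hgi : Integrable ((Metric.ball x (t * D)).indicator g) := hg.indicator measurableSet_ball
  have hki : Integrable k := hgi.comp_add_left x
  have hk0 : ∀ w, 0 ≤ k w := fun w => indicator_nonneg (fun z _ => h0 z) _
  have hk2 : Integrable (fun y => k (t • (y - x))) := (hki.comp_smul ht.ne').comp_sub_right x
  have h3 : ∫ y in U, h (x + t • (y - x)) ≤ ∫ y, k (t • (y - x)) := by
    rw [← integral_indicator hUm]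
    refine integral_mono_of_nonneg ?_ hk2 ?_
    · refine Eventually.of_forall fun y => ?_
      exact indicator_nonneg h1 y
    · refine Eventually.of_forall fun y => ?_
      change U.indicator (fun y => h (x + t • (y - x))) y ≤ k (t • (y - x))
      by_cases hy : y ∈ U
      · rw [indicator_of_mem hy, hk]
        have hm : x + t • (y - x) ∈ Metric.ball x (t * D) := by
          rw [Metric.mem_ball, dist_eq_norm]
          have : x + t • (y - x) - x = t • (y - x) := by ring
          rw [this, norm_smul, Real.norm_of_nonneg ht.le]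
          have h4 := hU hy
          rw [Metric.mem_ball, dist_eq_norm] at h4
          exact mul_lt_mul_of_pos_left h4 ht
        simp only [indicator_of_mem hm]
        exact h2 y hy
      · rw [indicator_of_notMem hy]
        exact hk0 _
  refine h3.trans ?_
  have h4 : ∫ y, k (t • (y - x)) = ∫ y, k (t • y) := integral_sub_right_eq_self (fun y => k (t • y)) x
  rw [h4, Measure.integral_comp_smul, Complex.finrank_real_complex]
  have h5 : ∫ w, k w = ∫ z in Metric.ball x (t * D), g z := by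
    rw [hk, integral_add_left_eq_self (fun w => (Metric.ball x (t * D)).indicator g w) x,
      integral_indicator measurableSet_ball]
  rw [h5]
  have h6 : ∫ z in Metric.ball x (t * D), g z ≤ Λ * (t * D) ^ 2 := by
    by_contra hcon
    exact hx ⟨t * D, by positivity, not_le.mp hcon⟩
  rw [abs_of_pos (by positivity), smul_eq_mul]
  calc (t ^ 2)⁻¹ * ∫ z in Metric.ball x (t * D), g z ≤ (t ^ 2)⁻¹ * (Λ * (t * D) ^ 2) :=
        mul_le_mul_of_nonneg_left h6 (by positivity)
    _ = Λ * D ^ 2 := by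
        field_simp

theorem B3_mean {v : ℂ → ℂ} (hv : ContDiff ℝ 1 v) {g : ℂ → ℝ} (hg : Integrable g) (h0 : ∀ z, 0 ≤ g z) {Λ : ℝ}
    {x : ℂ} (hx : x ∉ Bad g Λ) {U : Set ℂ} (hUm : MeasurableSet U) (hUc : Convex ℝ U) (hxU : x ∈ U) {D : ℝ} (hD : 0 < D)
    (hU : U ⊆ Metric.ball x D) (hvg : ∀ z ∈ U, ‖fderiv ℝ v z‖ ≤ g z) :
    ∫ y in U, ‖v y - v x‖ ≤ Λ * D ^ 3 := by
  have hcf : Continuous (fun p : ℂ × ℝ => ‖fderiv ℝ v (x + p.2 • (p.1 - x))‖) :=
    ((hv.continuous_fderiv one_ne_zero).comp (by fun_prop)).norm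
  have hprod : Integrable (fun p : ℂ × ℝ => ‖fderiv ℝ v (x + p.2 • (p.1 - x))‖)
      ((volume.restrict U).prod (volume.restrict (Ioc (0 : ℝ) 1))) := by
    rw [Measure.prod_restrict]
    have hK : IsCompact (Metric.closedBall x D ×ˢ Icc (0 : ℝ) 1) := (isCompact_closedBall x D).prod isCompact_Icc
    exact (hcf.continuousOn.integrableOn_compact hK).mono_set
      (prod_mono (hU.trans Metric.ball_subset_closedBall) Ioc_subset_Icc_self)
  have hvi : IntegrableOn (fun y => ‖v y - v x‖) U :=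
    (((hv.continuous.sub continuous_const).norm.continuousOn).integrableOn_compact (isCompact_closedBall x D)).mono_set
      (hU.trans Metric.ball_subset_closedBall)
  calc ∫ y in U, ‖v y - v x‖
      ≤ ∫ y in U, D * ∫ t in Ioc (0 : ℝ) 1, ‖fderiv ℝ v (x + t • (y - x))‖ := by
        refine setIntegral_mono_on hvi ?_ hUm ?_
        · exact hprod.integral_prod_left.const_mul D
        · intro y hy
          refine B3_path hv x y D ?_
          have h4 := hU hy
          rw [Metric.mem_ball, dist_eq_norm] at h4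
          exact h4.le
    _ = D * ∫ y in U, ∫ t in Ioc (0 : ℝ) 1, ‖fderiv ℝ v (x + t • (y - x))‖ := integral_const_mul _ _
    _ = D * ∫ t in Ioc (0 : ℝ) 1, ∫ y in U, ‖fderiv ℝ v (x + t • (y - x))‖ := by
        rw [integral_integral_swap hprod]
    _ ≤ D * ∫ _t in Ioc (0 : ℝ) 1, Λ * D ^ 2 := by
        refine mul_le_mul_of_nonneg_left ?_ hD.le
        refine setIntegral_mono_on hprod.integral_prod_right (integrable_const _) measurableSet_Ioc ?_
        intro t ht
        refine B3_scale hg h0 hx hUm hD hU ht.1 (fun z => ‖fderiv ℝ v z‖) (fun y _ => norm_nonneg _) (fun y hy => ?_)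
        refine hvg _ ?_
        exact hUc.add_smul_sub_mem hxU hy ⟨ht.1.le, ht.2⟩
    _ = Λ * D ^ 3 := by
        simp
        ring

theorem B3_pair {v : ℂ → ℂ} (hv : ContDiff ℝ 1 v) {g : ℂ → ℝ} (hg : Integrable g) (h0 : ∀ z, 0 ≤ g z) {Λ : ℝ}
    {x y : ℂ} (hx : x ∉ Bad g Λ) (hy : y ∉ Bad g Λ) {c : ℂ} {R : ℝ} (hR : 0 < R) (hxU : x ∈ Metric.ball c R)
    (hyU : y ∈ Metric.ball c R) (hvg : ∀ z ∈ Metric.ball c R, ‖fderiv ℝ v z‖ ≤ g z) :
    ‖v x - v y‖ ≤ 16 * Λ * R := by
  have hUx : Metric.ball c R ⊆ Metric.ball x (2 * R) := by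
    intro z hz
    rw [Metric.mem_ball] at *
    calc dist z x ≤ dist z c + dist x c := dist_triangle_right _ _ _
      _ < 2 * R := by linarith
  have hUy : Metric.ball c R ⊆ Metric.ball y (2 * R) := by
    intro z hz
    rw [Metric.mem_ball] at *
    calc dist z y ≤ dist z c + dist y c := dist_triangle_right _ _ _
      _ < 2 * R := by linarith
  have h2R : 0 < 2 * R := by positivity
  have e1 := B3_mean hv hg h0 hx measurableSet_ball (convex_ball c R) hxU h2R hUx hvg
  have e2 := B3_mean hv hg h0 hy measurableSet_ball (convex_ball c R) hyU h2R hUy hvg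
  have hvi : ∀ x : ℂ, IntegrableOn (fun y => ‖v y - v x‖) (Metric.ball c R) := fun x =>
    (((hv.continuous.sub continuous_const).norm.continuousOn).integrableOn_compact (isCompact_closedBall c R)).mono_set
      Metric.ball_subset_closedBall
  have e3 : ∫ _z in Metric.ball c R, ‖v x - v y‖ ≤
      ∫ z in Metric.ball c R, (‖v z - v x‖ + ‖v z - v y‖) := by
    refine setIntegral_mono_on (integrableOn_const measure_ball_lt_top.ne) ((hvi x).add (hvi y)) measurableSet_ball ?_
    intro z _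
    have : v x - v y = (v z - v y) - (v z - v x) := by ring
    rw [this]
    refine (norm_sub_le _ _).trans ?_
    rw [add_comm]
  rw [integral_add (hvi x) (hvi y), setIntegral_const] at e3
  have e4 : volume.real (Metric.ball c R) = R ^ 2 * Real.pi := by
    rw [Measure.real, Complex.volume_ball, ENNReal.toReal_mul, ENNReal.toReal_pow, ENNReal.toReal_ofReal hR.le]
    rfl
  rw [e4, smul_eq_mul] at e3
  have e5 : R ^ 2 * Real.pi * ‖v x - v y‖ ≤ 16 * Λ * R ^ 3 := by nlinarith
  have e6 : R ^ 2 * ‖v x - v y‖ ≤ R ^ 2 * (16 * Λ * R) := by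
    calc R ^ 2 * ‖v x - v y‖ ≤ R ^ 2 * Real.pi * ‖v x - v y‖ := by
          refine mul_le_mul_of_nonneg_right ?_ (norm_nonneg _)
          have := Real.pi_gt_three
          nlinarith [sq_nonneg R]
      _ ≤ 16 * Λ * R ^ 3 := e5
      _ = R ^ 2 * (16 * Λ * R) := by ring
  exact le_of_mul_le_mul_left e6 (by positivity)

/-- PROOF. Let `U` be a disc of radius `R` (convex) and `x ∈ U`. For `y ∈ U`: `|v x - v y| ≤ |x - y| ∫_0^1 |Dv (x + t (y - x))| dt`; integrate over `y ∈ U`, substitute: `|v x - mean_U v| ≤ (2R)² / (2 |U|) ∫_U |Dv z| / |x - z| dz ≤ C R Λ`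
if `∫_{ball x s} |Dv| ≤ Λ s²` for all `s` (layers `2^(-k-1) 2R ≤ |x - z| < 2^(-k) 2R`). For the first claim use `U = ball ((x+y)/2) |x-y|`. -/
theorem lip_off_bad : ∃ C : ℝ, 0 < C ∧ ∀ (v : ℂ → ℂ) (g : ℂ → ℝ), ContDiff ℝ 1 v → Integrable g →
    (∀ z, ‖fderiv ℝ v z‖ ≤ g z) → ∀ (Λ : ℝ) (x y : ℂ), 0 < Λ → x ∉ Bad g Λ → y ∉ Bad g Λ →
      ‖v x - v y‖ ≤ C * Λ * ‖x - y‖ := by
  refine ⟨16, by norm_num, ?_⟩
  intro v g hv hg hvg Λ x y hΛ hx hy
  rcases eq_or_ne x y with rfl | hxy
  · simp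
  · have hR : 0 < ‖x - y‖ := norm_pos_iff.mpr (sub_ne_zero.mpr hxy)
    refine B3_pair hv hg (fun z => (norm_nonneg _).trans (hvg z)) hx hy (c := (x + y) / 2) hR ?_ ?_ (fun z _ => hvg z)
    · rw [Metric.mem_ball, dist_eq_norm]
      have : x - (x + y) / 2 = (x - y) / 2 := by ring
      rw [this, norm_div, B3_two]
      linarith
    · rw [Metric.mem_ball, dist_eq_norm]
      have : y - (x + y) / 2 = -((x - y) / 2) := by ring
      rw [this, norm_neg, norm_div, B3_two]
      linarith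

/-- PROOF. As before, but only discs contained in `ball 0 1`: if `|x - y| < 1/4` take `U = ball ((x+y)/2) |x-y| ⊆ ball 0 1`, otherwise `U = ball 0 1` and `1 ≤ 4 |x - y|`. -/
theorem lip_off_bad_ball : ∃ C : ℝ, 0 < C ∧ ∀ (v : ℂ → ℂ) (g : ℂ → ℝ), ContDiff ℝ 1 v →
    Integrable g → (∀ z, 0 ≤ g z) → (∀ z ∈ Metric.ball (0 : ℂ) 1, ‖fderiv ℝ v z‖ ≤ g z) →
    ∀ (Λ : ℝ) (x y : ℂ), 0 < Λ → x ∈ Metric.ball 0 (3 / 4) → y ∈ Metric.ball 0 (3 / 4) →
      x ∉ Bad g Λ → y ∉ Bad g Λ → ‖v x - v y‖ ≤ C * Λ * ‖x - y‖ := by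
  refine ⟨64, by norm_num, ?_⟩
  intro v g hv hg h0 hvg Λ x y hΛ hxb hyb hx hy
  rcases eq_or_ne x y with rfl | hxy
  · simp
  · have hR : 0 < ‖x - y‖ := norm_pos_iff.mpr (sub_ne_zero.mpr hxy)
    rw [Metric.mem_ball, dist_zero_right] at hxb hyb
    rcases lt_or_ge ‖x - y‖ (1 / 4) with h4 | h4
    · have h5 : ‖v x - v y‖ ≤ 16 * Λ * ‖x - y‖ := by
        refine B3_pair hv hg h0 hx hy (c := (x + y) / 2) hR ?_ ?_ (fun z hz => hvg z ?_)
        · rw [Metric.mem_ball, dist_eq_norm]
          have : x - (x + y) / 2 = (x - y) / 2 := by ring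
          rw [this, norm_div, B3_two]
          linarith
        · rw [Metric.mem_ball, dist_eq_norm]
          have : y - (x + y) / 2 = -((x - y) / 2) := by ring
          rw [this, norm_neg, norm_div, B3_two]
          linarith
        · rw [Metric.mem_ball, dist_eq_norm] at hz
          rw [Metric.mem_ball, dist_zero_right]
          have h6 : ‖(x + y) / 2‖ ≤ 3 / 4 := by
            rw [norm_div, B3_two]
            have := norm_add_le x y
            linarith
          have h7 : z = (z - (x + y) / 2) + (x + y) / 2 := by ring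
          rw [h7]
          have := norm_add_le (z - (x + y) / 2) ((x + y) / 2)
          linarith
      have : 0 ≤ Λ * ‖x - y‖ := by positivity
      nlinarith
    · have h5 : ‖v x - v y‖ ≤ 16 * Λ * 1 := by
        refine B3_pair hv hg h0 hx hy (c := 0) one_pos ?_ ?_ (fun z hz => hvg z hz)
        · rw [Metric.mem_ball, dist_zero_right]
          linarith
        · rw [Metric.mem_ball, dist_zero_right]
          linarith
      have : Λ * (1 / 4) ≤ Λ * ‖x - y‖ := mul_le_mul_of_nonneg_left h4 hΛ.le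
      nlinarith

end

end Pool.B2F
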