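import Pool.Agent.Lib.MP_b2f128_an.Base

/-!
# MP_b2f128_an, part B4a (real analysis)
-/

open Complex MeasureTheory Set Filter Topology
open scoped ContDiff

namespace Pool.B2F

noncomputable section

/-- real case -/
theorem B4a_real {f : ℂ → ℝ} {s : Set ℂ} {L : ℝ} (hL : 0 ≤ L)
    (h : ∀ x ∈ s, ∀ y ∈ s, |f x - f y| ≤ L * ‖x - y‖) :
    ∃ g : ℂ → ℝ, (∀ x y, |g x - g y| ≤ L * ‖x - y‖) ∧ ∀ x ∈ s, g x = f x := by
  have h1 : LipschitzOnWith L.toNNReal f s := by
    refine LipschitzOnWith.of_dist_le_mul fun x hx y hy => ?_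
    rw [Real.dist_eq, dist_eq_norm, Real.coe_toNNReal L hL]
    exact h x hx y hy
  obtain ⟨g, hg, hgs⟩ := h1.extend_real
  refine ⟨g, fun x y => ?_, fun x hx => (hgs hx).symm⟩
  have := hg.dist_le_mul x y
  rwa [Real.dist_eq, dist_eq_norm, Real.coe_toNNReal L hL] at this

theorem B4a_clip (B a b : ℝ) : |max (-B) (min B a) - max (-B) (min B b)| ≤ |a - b| := by
  rw [max_comm (-B), max_comm (-B)]
  refine (abs_max_sub_max_le_abs _ _ _).trans ?_
  rw [min_comm B, min_comm B]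
  exact abs_inf_sub_inf_le_abs _ _ _

theorem B4a_re {x y : ℂ} : |x.re - y.re| ≤ ‖x - y‖ := by
  rw [← Complex.sub_re]
  exact Complex.abs_re_le_norm _

theorem B4a_im {x y : ℂ} : |x.im - y.im| ≤ ‖x - y‖ := by
  rw [← Complex.sub_im]
  exact Complex.abs_im_le_norm _

/-- PROOF. McShane for real and imaginary part (`LipschitzOnWith.extend_real`), clip if a bound is given: compose the real and imaginary parts with the projection to `[-B, B]`. -/
theorem exists_lip_ext {v : ℂ → ℂ} {s : Set ℂ} {L B : ℝ} (hL : 0 ≤ L) (hB : 0 ≤ B)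
    (h : ∀ x ∈ s, ∀ y ∈ s, ‖v x - v y‖ ≤ L * ‖x - y‖) (hb : ∀ x ∈ s, ‖v x‖ ≤ B) :
    ∃ u : ℂ → ℂ, (∀ x y, ‖u x - u y‖ ≤ 2 * L * ‖x - y‖) ∧ (∀ x ∈ s, u x = v x) ∧
      ∀ x, ‖u x‖ ≤ 2 * B := by
  obtain ⟨g, hg, hgs⟩ := B4a_real (f := fun x => (v x).re) hL
    (fun x hx y hy => B4a_re.trans (h x hx y hy))
  obtain ⟨k, hk, hks⟩ := B4a_real (f := fun x => (v x).im) hL
    (fun x hx y hy => B4a_im.trans (h x hx y hy))
  have hclip : ∀ t : ℝ, |t| ≤ B → max (-B) (min B t) = t := by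
    intro t ht
    rw [min_eq_right (abs_le.1 ht).2, max_eq_right (abs_le.1 ht).1]
  have hclip2 : ∀ t : ℝ, |max (-B) (min B t)| ≤ B := by
    intro t
    rw [abs_le]
    exact ⟨le_max_left _ _, max_le (by linarith) (min_le_left _ _)⟩
  refine ⟨fun x => ⟨max (-B) (min B (g x)), max (-B) (min B (k x))⟩, fun x y => ?_, fun x hx => ?_,
    fun x => ?_⟩
  · refine (Complex.norm_le_abs_re_add_abs_im _).trans ?_
    rw [Complex.sub_re, Complex.sub_im]
    have h1 := (B4a_clip B (g x) (g y)).trans (hg x y)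
    have h2 := (B4a_clip B (k x) (k y)).trans (hk x y)
    calc |max (-B) (min B (g x)) - max (-B) (min B (g y))|
          + |max (-B) (min B (k x)) - max (-B) (min B (k y))| ≤ L * ‖x - y‖ + L * ‖x - y‖ := add_le_add h1 h2
      _ = 2 * L * ‖x - y‖ := by ring
  · apply Complex.ext
    · show max (-B) (min B (g x)) = (v x).re
      rw [hgs x hx]
      exact hclip _ ((Complex.abs_re_le_norm _).trans (hb x hx))
    · show max (-B) (min B (k x)) = (v x).im
      rw [hks x hx]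
      exact hclip _ ((Complex.abs_im_le_norm _).trans (hb x hx))
  · refine (Complex.norm_le_abs_re_add_abs_im _).trans ?_
    have h1 := hclip2 (g x)
    have h2 := hclip2 (k x)
    calc |max (-B) (min B (g x))| + |max (-B) (min B (k x))| ≤ B + B := add_le_add h1 h2
      _ = 2 * B := by ring

theorem exists_lip_ext' {v : ℂ → ℂ} {s : Set ℂ} {L : ℝ} (hL : 0 ≤ L)
    (h : ∀ x ∈ s, ∀ y ∈ s, ‖v x - v y‖ ≤ L * ‖x - y‖) :
    ∃ u : ℂ → ℂ, (∀ x y, ‖u x - u y‖ ≤ 2 * L * ‖x - y‖) ∧ ∀ x ∈ s, u x = v x := by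
  obtain ⟨g, hg, hgs⟩ := B4a_real (f := fun x => (v x).re) hL
    (fun x hx y hy => B4a_re.trans (h x hx y hy))
  obtain ⟨k, hk, hks⟩ := B4a_real (f := fun x => (v x).im) hL
    (fun x hx y hy => B4a_im.trans (h x hx y hy))
  refine ⟨fun x => ⟨g x, k x⟩, fun x y => ?_, fun x hx => ?_⟩
  · refine (Complex.norm_le_abs_re_add_abs_im _).trans ?_
    rw [Complex.sub_re, Complex.sub_im]
    calc |g x - g y| + |k x - k y| ≤ L * ‖x - y‖ + L * ‖x - y‖ := add_le_add (hg x y) (hk x y)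
      _ = 2 * L * ‖x - y‖ := by ring
  · apply Complex.ext
    · exact hgs x hx
    · exact hks x hx

end

end Pool.B2F
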