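import Pool.Agent.Lib.MP_b2f128_an.Base

/-!
# MP_b2f128_an, part B4b (real analysis)
-/

open Complex MeasureTheory Set Filter Topology
open scoped ContDiff

namespace Pool.B2F

noncomputable section

/-- PROOF. Rademacher (`LipschitzWith.ae_differentiableAt`); at a density point `x` of `s` where both are differentiable `u - v = 0` on `s`, and the tangent directions of `s` at `x` are dense, so `D(u - v) x = 0`
(`UniqueDiffWithinAt` at density points, or directly). -/
theorem ae_fderiv_eq {u v : ℂ → ℂ} {L : ℝ} (hu : ∀ x y, ‖u x - u y‖ ≤ L * ‖x - y‖)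
    (hv : Differentiable ℝ v) {s : Set ℂ} (hs : MeasurableSet s) (h : ∀ x ∈ s, u x = v x) :
    ∀ᵐ x, x ∈ s → DifferentiableAt ℝ u x ∧ fderiv ℝ u x = fderiv ℝ v x := by
  have hLip : LipschitzWith (Real.toNNReal L) u := by
    refine LipschitzWith.of_dist_le_mul fun x y => ?_
    rw [dist_eq_norm, dist_eq_norm]
    exact (hu x y).trans (mul_le_mul_of_nonneg_right (Real.le_coe_toNNReal L) (norm_nonneg _))
  have hd : ∀ᵐ x : ℂ, DifferentiableAt ℝ u x := hLip.ae_differentiableAt
  set t : Set ℂ := s ∩ {x | DifferentiableAt ℝ u x} with ht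
  have htm : MeasurableSet t := hs.inter (measurableSet_of_differentiableAt ℝ u)
  have h0 : ApproximatesLinearOn (fun x => u x - v x) (0 : ℂ →L[ℝ] ℂ) t 0 := by
    intro x hx y hy
    have e1 := h x hx.1
    have e2 := h y hy.1
    simp [e1, e2]
  have h1 := h0.norm_fderiv_sub_le volume htm (fun x => fderiv ℝ u x - fderiv ℝ v x) (by
    intro x hx
    have hx2 : DifferentiableAt ℝ u x := hx.2
    exact (hx2.hasFDerivAt.sub (hv x).hasFDerivAt).hasFDerivWithinAt)
  rw [ae_restrict_iff' htm] at h1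
  filter_upwards [hd, h1] with x hx1 hx2 hxs
  refine ⟨hx1, ?_⟩
  have h3 := hx2 ⟨hxs, hx1⟩
  rw [sub_zero] at h3
  have h4 : ‖fderiv ℝ u x - fderiv ℝ v x‖₊ = 0 := le_antisymm h3 (zero_le)
  exact sub_eq_zero.mp (nnnorm_eq_zero.mp h4)

end

end Pool.B2F
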