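import Pool.Agent.Lib.MP_b2f128_an.Base

/-!
# MP_b2f128_an, part B5 (real analysis)
-/

open Complex MeasureTheory Set Filter Topology
open scoped ContDiff

namespace Pool.B2F

noncomputable section

open scoped Convolution

/-- the bump functions -/
def B5_bump (n : ℕ) : ContDiffBump (0 : ℂ) where
  rIn := 1 / (2 * ((n : ℝ) + 1))
  rOut := 1 / ((n : ℝ) + 1)
  rIn_pos := by positivity
  rIn_lt_rOut := by
    have : (0 : ℝ) < (n : ℝ) + 1 := by positivity
    exact one_div_lt_one_div_of_lt this (by linarith)

theorem B5_lip {u : ℂ → ℂ} {L : ℝ} (hL : 0 ≤ L) (hu : ∀ x y, ‖u x - u y‖ ≤ L * ‖x - y‖) :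
    LipschitzWith ⟨L, hL⟩ u := by
  refine LipschitzWith.of_dist_le_mul fun x y => ?_
  rw [dist_eq_norm, dist_eq_norm]
  exact hu x y

/-- PROOF. `u_n = u * ρ_n` (`ContDiffBump`, convolution with `ρ_n` of support in `ball 0 (1/(n+1))`): smooth, `‖u_n x - u x‖ ≤ L/(n+1)`, `u_n` is `L`-Lipschitz; `fderiv u_n = (fderiv u) * ρ_n` (`LipschitzWith.integral_lineDeriv_mul_eq`,
or differentiate: `u_n (x + t h) - u_n x` and dominated convergence with Rademacher), so it tends to `fderiv u x` at every Lebesgue point. -/
theorem lip_mollify {u : ℂ → ℂ} {L : ℝ} (hL : 0 ≤ L) (hu : ∀ x y, ‖u x - u y‖ ≤ L * ‖x - y‖) :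
    ∃ w : ℕ → ℂ → ℂ, (∀ n, ContDiff ℝ ∞ (w n)) ∧ (∀ n x, ‖w n x - u x‖ ≤ L / (n + 1)) ∧
      (∀ n x, ‖fderiv ℝ (w n) x‖ ≤ L) ∧
      ∀ᵐ x, Tendsto (fun n => fderiv ℝ (w n) x) atTop (𝓝 (fderiv ℝ u x)) := by
  have hlip := B5_lip hL hu
  have huc : Continuous u := hlip.continuous
  have hfd : ∀ x, ‖fderiv ℝ u x‖ ≤ L := fun x => norm_fderiv_le_of_lipschitz ℝ hlip
  have hfm : Measurable (fderiv ℝ u) := measurable_fderiv ℝ u
  have hfli : LocallyIntegrable (fderiv ℝ u) volume := by
    refine (locallyIntegrable_const L).mono hfm.aestronglyMeasurable (Eventually.of_forall fun x => ?_)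
    rw [Real.norm_of_nonneg hL]
    exact hfd x
  have hae : ∀ᵐ x, DifferentiableAt ℝ u x := hlip.ae_differentiableAt
  have hφ1 : ∀ n, ∫ t, (B5_bump n).normed volume t = 1 := fun n => (B5_bump n).integral_normed
  have hφ0 : ∀ n t, 0 ≤ (B5_bump n).normed volume t := fun n t => (B5_bump n).nonneg_normed t
  have hφi : ∀ n, Integrable ((B5_bump n).normed volume) := fun n => (B5_bump n).integrable_normed
  have hφc : ∀ n, Continuous ((B5_bump n).normed volume) := fun n => (B5_bump n).continuous_normed
  have hφs : ∀ n, HasCompactSupport ((B5_bump n).normed volume) := fun n => (B5_bump n).hasCompactSupport_normed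
  have hint : ∀ n x, Integrable (fun t => (B5_bump n).normed volume t • u (x - t)) := by
    intro n x
    refine ((hφc n).smul (huc.comp (continuous_const.sub continuous_id))).integrable_of_hasCompactSupport ?_
    exact (hφs n).smul_right
  set w : ℕ → ℂ → ℂ := fun n x => ∫ t, (B5_bump n).normed volume t • u (x - t) with hw
  have hwc : ∀ n, w n = ((B5_bump n).normed volume) ⋆[ContinuousLinearMap.lsmul ℝ ℝ, volume] u := by
    intro n
    funext x
    rw [convolution_lsmul]
  refine ⟨w, ?_, ?_, ?_, ?_⟩
  · intro n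
    rw [hwc]
    exact (hφs n).contDiff_convolution_left _ (B5_bump n).contDiff_normed huc.locallyIntegrable
  · intro n x
    rw [hwc, ← dist_eq_norm]
    refine ContDiffBump.dist_normed_convolution_le huc.aestronglyMeasurable fun y hy => ?_
    rw [Metric.mem_ball, dist_eq_norm] at hy
    rw [dist_eq_norm]
    refine (hu y x).trans ?_
    have h1 : (B5_bump n).rOut = 1 / ((n : ℝ) + 1) := rfl
    rw [h1] at hy
    calc L * ‖y - x‖ ≤ L * (1 / ((n : ℝ) + 1)) := mul_le_mul_of_nonneg_left hy.le hL
      _ = L / (n + 1) := by ring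
  · intro n x
    have hl : LipschitzWith ⟨L, hL⟩ (w n) := by
      refine LipschitzWith.of_dist_le_mul fun x y => ?_
      rw [dist_eq_norm, dist_eq_norm]
      simp only [hw]
      rw [← integral_sub (hint n x) (hint n y)]
      calc ‖∫ t, ((B5_bump n).normed volume t • u (x - t) - (B5_bump n).normed volume t • u (y - t))‖
          ≤ ∫ t, (B5_bump n).normed volume t * (L * ‖x - y‖) := by
            refine norm_integral_le_of_norm_le ((hφi n).mul_const _) (Eventually.of_forall fun t => ?_)
            rw [← smul_sub, norm_smul, Real.norm_of_nonneg (hφ0 n t)]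
            refine mul_le_mul_of_nonneg_left ?_ (hφ0 n t)
            have h2 := hu (x - t) (y - t)
            have h3 : x - t - (y - t) = x - y := by ring
            rwa [h3] at h2
        _ = L * ‖x - y‖ := by rw [integral_mul_const, hφ1, one_mul]
        _ = _ := rfl
    exact norm_fderiv_le_of_lipschitz ℝ hl
  · have hder : ∀ n x, fderiv ℝ (w n) x =
        (((B5_bump n).normed volume) ⋆[ContinuousLinearMap.lsmul ℝ ℝ, volume] (fderiv ℝ u)) x := by
      intro n x
      rw [convolution_lsmul]
      have hd := hasFDerivAt_integral_of_dominated_loc_of_lip (μ := volume) (𝕜 := ℝ)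
        (F := fun x t => (B5_bump n).normed volume t • u (x - t))
        (F' := fun t => (B5_bump n).normed volume t • fderiv ℝ u (x - t)) (x₀ := x)
        (bound := fun t => (B5_bump n).normed volume t * L) (s := univ) univ_mem
        (Eventually.of_forall fun y => (hint n y).aestronglyMeasurable) (hint n x)
        (((hφc n).measurable.smul (hfm.comp (measurable_const.sub measurable_id))).aestronglyMeasurable)
        (Eventually.of_forall fun t => ?_) ((hφi n).mul_const _) ?_
      · exact hd.2.fderiv
      · refine LipschitzOnWith.of_dist_le_mul fun y _ z _ => ?_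
        rw [dist_eq_norm, dist_eq_norm, ← smul_sub, norm_smul, Real.norm_of_nonneg (hφ0 n t), Real.coe_nnabs,
          abs_of_nonneg (mul_nonneg (hφ0 n t) hL), mul_assoc]
        refine mul_le_mul_of_nonneg_left ?_ (hφ0 n t)
        have h2 := hu (y - t) (z - t)
        have h3 : y - t - (z - t) = y - z := by ring
        rwa [h3] at h2
      · have h4 : ∀ᵐ t, DifferentiableAt ℝ u (x - t) := by
          have h5 := (Measure.measurePreserving_sub_left (volume : Measure ℂ) x).quasiMeasurePreserving.ae hae
          exact h5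
        filter_upwards [h4] with t ht
        have h6 : HasFDerivAt (fun y : ℂ => y - t) (ContinuousLinearMap.id ℝ ℂ) x := (hasFDerivAt_id x).sub_const t
        have h7 := (ht.hasFDerivAt.comp x h6).const_smul ((B5_bump n).normed volume t)
        rw [ContinuousLinearMap.comp_id] at h7
        exact h7
    have hconv := ContDiffBump.ae_convolution_tendsto_right_of_locallyIntegrable (φ := B5_bump) (l := atTop) (K := 2)
      (μ := volume) (g := fderiv ℝ u) ?_ ?_ hfli
    · filter_upwards [hconv] with x hx
      refine hx.congr fun n => ?_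
      rw [hder]
    · exact tendsto_one_div_add_atTop_nhds_zero_nat
    · refine Eventually.of_forall fun n => le_of_eq ?_
      have h1 : (B5_bump n).rOut = 1 / ((n : ℝ) + 1) := rfl
      have h2 : (B5_bump n).rIn = 1 / (2 * ((n : ℝ) + 1)) := rfl
      rw [h1, h2]
      field_simp

end

end Pool.B2F
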