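import Pool.Agent.Lib.MP_b2f128_an.Base
import Pool.Agent.Lib.MP_b2f128_an.A01a
import Pool.Agent.Lib.MP_b2f128_an.A02b

/-!
# MP_b2f128_an, part B6 (real analysis)
-/

open Complex MeasureTheory Set Filter Topology
open scoped ContDiff

namespace Pool.B2F

noncomputable section

/-- mollifying kernels -/
structure B6_Ker (δ : ℝ) (ρ : ℂ → ℝ) : Prop where
  pos : 0 < δ
  sm : ContDiff ℝ ∞ ρ
  nn : ∀ z, 0 ≤ ρ z
  supp : ∀ z, δ ≤ ‖z‖ → ρ z = 0
  cpt : HasCompactSupport ρ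
  int : ∫ z, ρ z = 1
  bd : ∀ z, ρ z ≤ 4 / δ ^ 2

theorem B6_exists_ker {δ : ℝ} (hδ : 0 < δ) : ∃ ρ, B6_Ker δ ρ := by
  let φ : ContDiffBump (0 : ℂ) := ⟨δ / 2, δ, by linarith, by linarith⟩
  refine ⟨φ.normed volume, hδ, φ.contDiff_normed, φ.nonneg_normed, ?_, φ.hasCompactSupport_normed,
    φ.integral_normed, ?_⟩
  · intro z hz
    have h := φ.support_normed_eq (μ := (volume : Measure ℂ))
    by_contra h0
    have h1 : z ∈ Function.support (φ.normed volume) := h0
    rw [h] at h1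
    have h2 : ‖z‖ < δ := by simpa using h1
    linarith
  · intro z
    refine (φ.normed_le_div_measure_closedBall_rIn volume z).trans ?_
    have h1 : volume.real (Metric.closedBall (0 : ℂ) φ.rIn) = Real.pi * (δ / 2) ^ 2 := by
      rw [measureReal_def, Complex.volume_closedBall]
      simp [φ, ENNReal.toReal_mul, ENNReal.toReal_pow, ENNReal.toReal_ofReal (by linarith : (0:ℝ) ≤ δ/2)]
      ring
    rw [h1]
    have h3 : (3 : ℝ) < Real.pi := Real.pi_gt_three
    rw [div_le_div_iff₀ (by positivity) (by positivity)]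
    nlinarith [sq_nonneg δ, Real.pi_pos]

/-- complex kernel -/
def B6_R (ρ : ℂ → ℝ) (z : ℂ) : ℂ := (ρ z : ℂ)

/-- complex mollification -/
def B6_cv (F : ℂ → ℂ) (R : ℂ → ℂ) (z : ℂ) : ℂ := ∫ t, F t * R (z - t)

/-- real mollification -/
def B6_rv (g : ℂ → ℝ) (R : ℂ → ℝ) (z : ℂ) : ℝ := ∫ t, g t * R (z - t)

theorem B6_cv_eq (F R : ℂ → ℂ) :
    B6_cv F R = MeasureTheory.convolution F R (ContinuousLinearMap.mul ℝ ℂ) volume := rfl

theorem B6_rv_eq (F R : ℂ → ℝ) :
    B6_rv F R = MeasureTheory.convolution F R (ContinuousLinearMap.mul ℝ ℝ) volume := rfl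

variable {δ : ℝ} {ρ : ℂ → ℝ}

theorem B6_R_smooth (h : B6_Ker δ ρ) : ContDiff ℝ ∞ (B6_R ρ) :=
  Complex.ofRealCLM.contDiff.comp h.sm

theorem B6_R_cpt (h : B6_Ker δ ρ) : HasCompactSupport (B6_R ρ) :=
  h.cpt.comp_left (g := fun x : ℝ => (x : ℂ)) (by simp)

theorem B6_rho_int (h : B6_Ker δ ρ) : Integrable ρ :=
  h.sm.continuous.integrable_of_hasCompactSupport h.cpt

theorem B6_R_int (h : B6_Ker δ ρ) : Integrable (B6_R ρ) :=
  (B6_R_smooth h).continuous.integrable_of_hasCompactSupport (B6_R_cpt h)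

theorem B6_R_integral (h : B6_Ker δ ρ) : ∫ z, B6_R ρ z = 1 := by
  unfold B6_R
  rw [integral_complex_ofReal, h.int]; simp

theorem B6_cv_smooth (h : B6_Ker δ ρ) {F : ℂ → ℂ} (hF : Integrable F) :
    ContDiff ℝ ∞ (B6_cv F (B6_R ρ)) := by
  rw [B6_cv_eq]
  exact (B6_R_cpt h).contDiff_convolution_right _ hF.locallyIntegrable (B6_R_smooth h)

theorem B6_cv_fderiv (h : B6_Ker δ ρ) {F : ℂ → ℂ} (hF : Integrable F) (z w : ℂ) :
    fderiv ℝ (B6_cv F (B6_R ρ)) z w = ∫ t, F t * fderiv ℝ (B6_R ρ) (z - t) w := by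
  rw [B6_cv_eq]
  have h1 := (B6_R_cpt h).hasFDerivAt_convolution_right (ContinuousLinearMap.mul ℝ ℂ)
    hF.locallyIntegrable ((B6_R_smooth h).of_le (by simp)) z
  rw [h1.fderiv, convolution_precompR_apply]
  · rfl
  · exact hF.locallyIntegrable
  · exact (B6_R_cpt h).fderiv (𝕜 := ℝ)
  · exact (B6_R_smooth h).continuous_fderiv (by simp)

theorem B6_int_fd (h : B6_Ker δ ρ) {F : ℂ → ℂ} (hF : Integrable F) (z w : ℂ) :
    Integrable (fun t => F t * fderiv ℝ (B6_R ρ) (z - t) w) := by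
  have hc : Continuous fun t => fderiv ℝ (B6_R ρ) t w :=
    ((B6_R_smooth h).continuous_fderiv (by simp)).clm_apply continuous_const
  have hs : HasCompactSupport fun t => fderiv ℝ (B6_R ρ) t w :=
    ((B6_R_cpt h).fderiv (𝕜 := ℝ)).comp_left (g := fun L : ℂ →L[ℝ] ℂ => L w) (by simp)
  exact hs.convolutionExists_right (ContinuousLinearMap.mul ℝ ℂ) hF.locallyIntegrable hc z

theorem B6_int_cv (h : B6_Ker δ ρ) {F : ℂ → ℂ} (hF : Integrable F) (z : ℂ) :
    Integrable (fun t => F t * B6_R ρ (z - t)) :=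
  (B6_R_cpt h).convolutionExists_right (ContinuousLinearMap.mul ℝ ℂ) hF.locallyIntegrable
    (B6_R_smooth h).continuous z

theorem B6_int_rv (h : B6_Ker δ ρ) {F : ℂ → ℝ} (hF : Integrable F) (z : ℂ) :
    Integrable (fun t => F t * ρ (z - t)) :=
  h.cpt.convolutionExists_right (ContinuousLinearMap.mul ℝ ℝ) hF.locallyIntegrable
    h.sm.continuous z

theorem B6_cv_dz (h : B6_Ker δ ρ) {F : ℂ → ℂ} (hF : Integrable F) (z : ℂ) :
    dz (B6_cv F (B6_R ρ)) z = ∫ t, F t * dz (B6_R ρ) (z - t) := by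
  unfold dz
  rw [B6_cv_fderiv h hF, B6_cv_fderiv h hF, ← integral_const_mul,
    ← integral_sub (B6_int_fd h hF z 1) ((B6_int_fd h hF z I).const_mul I), ← integral_div]
  refine integral_congr_ae (Eventually.of_forall fun t => ?_)
  simp only
  ring

theorem B6_cv_dzb (h : B6_Ker δ ρ) {F : ℂ → ℂ} (hF : Integrable F) (z : ℂ) :
    dzb (B6_cv F (B6_R ρ)) z = ∫ t, F t * dzb (B6_R ρ) (z - t) := by
  unfold dzb
  rw [B6_cv_fderiv h hF, B6_cv_fderiv h hF, ← integral_const_mul,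
    ← integral_add (B6_int_fd h hF z 1) ((B6_int_fd h hF z I).const_mul I), ← integral_div]
  refine integral_congr_ae (Eventually.of_forall fun t => ?_)
  simp only
  ring

theorem B6_fd_refl (h : B6_Ker δ ρ) (z t w : ℂ) :
    fderiv ℝ (fun s => B6_R ρ (z - s)) t w = - fderiv ℝ (B6_R ρ) (z - t) w := by
  have h1 : HasFDerivAt (fun s : ℂ => z - s) (-(ContinuousLinearMap.id ℝ ℂ)) t := by
    simpa using (hasFDerivAt_id (𝕜 := ℝ) t).const_sub z
  have h2 : HasFDerivAt (B6_R ρ) (fderiv ℝ (B6_R ρ) (z - t)) (z - t) :=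
    ((B6_R_smooth h).differentiable (by simp) _).hasFDerivAt
  have h3 := h2.comp t h1
  have h4 : fderiv ℝ (fun s => B6_R ρ (z - s)) t = _ := h3.fderiv
  rw [h4]
  simp

theorem B6_test (h : B6_Ker δ ρ) (hδ : δ < 1) {z : ℂ} (hz : z ∈ Metric.ball (0 : ℂ) 1) :
    Cc (Metric.ball 0 2) (fun s => B6_R ρ (z - s)) := by
  have hsub : tsupport (fun s => B6_R ρ (z - s)) ⊆ Metric.closedBall z δ := by
    refine closure_minimal ?_ Metric.isClosed_closedBall
    intro s hs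
    rw [Metric.mem_closedBall, dist_comm, dist_eq_norm]
    by_contra h0
    push Not at h0
    apply hs
    simp only [B6_R]
    rw [h.supp _ h0.le]; simp
  have hz' : ‖z‖ < 1 := by simpa using hz
  refine ⟨(B6_R_smooth h).comp (contDiff_const.sub contDiff_id), ?_, ?_⟩
  · exact (isCompact_closedBall z δ).of_isClosed_subset (isClosed_tsupport _) hsub
  · refine hsub.trans ?_
    intro s hs
    rw [Metric.mem_closedBall, dist_eq_norm] at hs
    rw [Metric.mem_ball, dist_zero_right]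
    calc ‖s‖ = ‖(s - z) + z‖ := by ring_nf
      _ ≤ ‖s - z‖ + ‖z‖ := norm_add_le _ _
      _ < 2 := by linarith

/-- restriction to the disc of radius 2 -/
def B6_cut (f : ℂ → ℂ) : ℂ → ℂ := (Metric.ball (0 : ℂ) 2).indicator f

theorem B6_cut_int {f : ℂ → ℂ} (hf : IntegrableOn f (Metric.ball 0 2)) : Integrable (B6_cut f) :=
  (integrable_indicator_iff Metric.isOpen_ball.measurableSet).2 hf

theorem B6_cut_mul {f φ : ℂ → ℂ} (hφ : ∀ t, t ∉ Metric.ball (0 : ℂ) 2 → φ t = 0) (t : ℂ) :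
    B6_cut f t * φ t = f t * φ t := by
  unfold B6_cut
  by_cases ht : t ∈ Metric.ball (0 : ℂ) 2
  · rw [indicator_of_mem ht]
  · rw [hφ t ht]; simp

theorem B6_fd_zero {U : Set ℂ} {φ : ℂ → ℂ} (hφ : Cc U φ) {t : ℂ} (ht : t ∉ U) :
    φ t = 0 ∧ fderiv ℝ φ t = 0 := by
  have h1 : t ∉ tsupport φ := fun h => ht (hφ.sub h)
  refine ⟨image_eq_zero_of_notMem_tsupport h1, ?_⟩
  have h2 : t ∉ tsupport (fderiv ℝ φ) := fun h => h1 (tsupport_fderiv_subset ℝ h)
  exact image_eq_zero_of_notMem_tsupport h2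

theorem B6_v_dz (h : B6_Ker δ ρ) (hδ : δ < 1) {f a b : ℂ → ℂ} (hw : Weak2 f a b) {z : ℂ}
    (hz : z ∈ Metric.ball (0 : ℂ) 1) :
    dz (B6_cv (B6_cut f) (B6_R ρ)) z = B6_cv (B6_cut a) (B6_R ρ) z := by
  have hT := B6_test h hδ hz
  have hE : ∀ t, dz (fun s => B6_R ρ (z - s)) t = - dz (B6_R ρ) (z - t) := by
    intro t; unfold dz; rw [B6_fd_refl h, B6_fd_refl h]; ring
  rw [B6_cv_dz h (B6_cut_int hw.intf)]
  have h1 := hw.wz _ hT
  have h2 : ∫ t, B6_cut f t * dz (B6_R ρ) (z - t) = - ∫ t, f t * dz (fun s => B6_R ρ (z - s)) t := by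
    rw [← integral_neg]
    refine integral_congr_ae (Eventually.of_forall fun t => ?_)
    simp only [hE]
    rw [B6_cut_mul (φ := fun t => dz (B6_R ρ) (z - t))]
    · ring
    · intro t ht
      have h3 := (B6_fd_zero hT ht).2
      have h4 := hE t
      rw [← neg_neg (dz (B6_R ρ) (z - t)), ← h4]
      unfold dz
      rw [h3]; simp
  rw [h2, h1, neg_neg]
  unfold B6_cv
  refine integral_congr_ae (Eventually.of_forall fun t => ?_)
  simp only
  rw [B6_cut_mul (φ := fun t => B6_R ρ (z - t))]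
  intro t ht
  exact (B6_fd_zero hT ht).1

theorem B6_v_dzb (h : B6_Ker δ ρ) (hδ : δ < 1) {f a b : ℂ → ℂ} (hw : Weak2 f a b) {z : ℂ}
    (hz : z ∈ Metric.ball (0 : ℂ) 1) :
    dzb (B6_cv (B6_cut f) (B6_R ρ)) z = B6_cv (B6_cut b) (B6_R ρ) z := by
  have hT := B6_test h hδ hz
  have hE : ∀ t, dzb (fun s => B6_R ρ (z - s)) t = - dzb (B6_R ρ) (z - t) := by
    intro t; unfold dzb; rw [B6_fd_refl h, B6_fd_refl h]; ring
  rw [B6_cv_dzb h (B6_cut_int hw.intf)]
  have h1 := hw.wzb _ hT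
  have h2 : ∫ t, B6_cut f t * dzb (B6_R ρ) (z - t) = - ∫ t, f t * dzb (fun s => B6_R ρ (z - s)) t := by
    rw [← integral_neg]
    refine integral_congr_ae (Eventually.of_forall fun t => ?_)
    simp only [hE]
    rw [B6_cut_mul (φ := fun t => dzb (B6_R ρ) (z - t))]
    · ring
    · intro t ht
      have h3 := (B6_fd_zero hT ht).2
      have h4 := hE t
      rw [← neg_neg (dzb (B6_R ρ) (z - t)), ← h4]
      unfold dzb
      rw [h3]; simp
  rw [h2, h1, neg_neg]
  unfold B6_cv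
  refine integral_congr_ae (Eventually.of_forall fun t => ?_)
  simp only
  rw [B6_cut_mul (φ := fun t => B6_R ρ (z - t))]
  intro t ht
  exact (B6_fd_zero hT ht).1

theorem B6_norm_cv_le (h : B6_Ker δ ρ) (F : ℂ → ℂ) (z : ℂ) :
    ‖B6_cv F (B6_R ρ) z‖ ≤ B6_rv (fun t => ‖F t‖) ρ z := by
  unfold B6_cv B6_rv
  refine (norm_integral_le_integral_norm _).trans (le_of_eq ?_)
  refine integral_congr_ae (Eventually.of_forall fun t => ?_)
  simp only [norm_mul, B6_R, norm_real, Real.norm_eq_abs, abs_of_nonneg (h.nn _)]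

theorem B6_rv_integrable (h : B6_Ker δ ρ) {g : ℂ → ℝ} (hg : Integrable g) :
    Integrable (B6_rv g ρ) := by
  rw [B6_rv_eq]
  exact hg.integrable_convolution _ (B6_rho_int h)

theorem B6_cv_integrable (h : B6_Ker δ ρ) {g : ℂ → ℂ} (hg : Integrable g) :
    Integrable (B6_cv g (B6_R ρ)) := by
  rw [B6_cv_eq]
  exact hg.integrable_convolution _ (B6_R_int h)

theorem B6_rv_integral (h : B6_Ker δ ρ) {g : ℂ → ℝ} (hg : Integrable g) :
    ∫ z, B6_rv g ρ z = ∫ z, g z := by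
  rw [B6_rv_eq, integral_convolution _ hg (B6_rho_int h), h.int]
  simp

theorem B6_rv_nonneg (h : B6_Ker δ ρ) {g : ℂ → ℝ} (hg : ∀ z, 0 ≤ g z) (z : ℂ) :
    0 ≤ B6_rv g ρ z := integral_nonneg fun t => mul_nonneg (hg t) (h.nn _)

theorem B6_int_norm_cv (h : B6_Ker δ ρ) {F : ℂ → ℂ} (hF : Integrable F) :
    ∫ z, ‖B6_cv F (B6_R ρ) z‖ ≤ ∫ z, ‖F z‖ := by
  rw [← B6_rv_integral h hF.norm]
  exact integral_mono (B6_cv_integrable h hF).norm (B6_rv_integrable h hF.norm)
    (B6_norm_cv_le h F)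

theorem B6_cv_sub (h : B6_Ker δ ρ) {F G : ℂ → ℂ} (hF : Integrable F) (hG : Integrable G) (z : ℂ) :
    B6_cv (fun t => F t - G t) (B6_R ρ) z = B6_cv F (B6_R ρ) z - B6_cv G (B6_R ρ) z := by
  unfold B6_cv
  rw [← integral_sub (B6_int_cv h hF z) (B6_int_cv h hG z)]
  refine integral_congr_ae (Eventually.of_forall fun t => ?_)
  simp only
  ring

theorem B6_int_shift (h : B6_Ker δ ρ) (z : ℂ) : ∫ t, B6_R ρ (z - t) = 1 := by
  rw [integral_sub_left_eq_self (fun t => B6_R ρ t) volume z, B6_R_integral h]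

theorem B6_rint_shift (h : B6_Ker δ ρ) (z : ℂ) : ∫ t, ρ (z - t) = 1 := by
  rw [integral_sub_left_eq_self (fun t => ρ t) volume z, h.int]

theorem B6_shift_integrable (h : B6_Ker δ ρ) (z : ℂ) : Integrable fun t => ρ (z - t) :=
  (B6_rho_int h).comp_sub_left z

/-! ### `L¹` approximation -/

theorem B6_approx {G : ℂ → ℂ} (hG : Integrable G) {ε : ℝ} (hε : 0 < ε) :
    ∃ δ₀ : ℝ, 0 < δ₀ ∧ ∀ (δ : ℝ) (ρ : ℂ → ℝ), δ < δ₀ → B6_Ker δ ρ →
      ∫ z, ‖B6_cv G (B6_R ρ) z - G z‖ ≤ ε := by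
  obtain ⟨G', hc, hle, hcont, hint⟩ := hG.exists_hasCompactSupport_integral_sub_le
    (by positivity : 0 < ε / 4)
  obtain ⟨R₀, hR₀⟩ := hc.isCompact.isBounded.subset_ball (0 : ℂ)
  set R : ℝ := max R₀ 0 + 1 with hR
  set V : ℝ := volume.real (Metric.ball (0 : ℂ) R) with hV
  have hV0 : 0 ≤ V := measureReal_nonneg
  set η : ℝ := ε / (4 * (V + 1)) with hη
  have hη0 : 0 < η := by positivity
  have huc : UniformContinuous G' := hc.uniformContinuous_of_continuous hcont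
  obtain ⟨δ₁, hδ₁, hunif⟩ := Metric.uniformContinuous_iff.1 huc η hη0
  refine ⟨min δ₁ 1, lt_min hδ₁ one_pos, fun δ ρ hδ hK => ?_⟩
  have hδ1 : δ < δ₁ := hδ.trans_le (min_le_left _ _)
  have hδ2 : δ < 1 := hδ.trans_le (min_le_right _ _)
  have hpt : ∀ z, ‖B6_cv G' (B6_R ρ) z - G' z‖ ≤ (Metric.ball (0 : ℂ) R).indicator (fun _ => η) z := by
    intro z
    have h1 : B6_cv G' (B6_R ρ) z - G' z = ∫ t, (G' t - G' z) * B6_R ρ (z - t) := by
      have h2 : G' z = ∫ t, G' z * B6_R ρ (z - t) := by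
        rw [integral_const_mul, B6_int_shift hK, mul_one]
      conv_lhs => rw [h2]
      unfold B6_cv
      rw [← integral_sub (B6_int_cv hK hint z)
        (((B6_R_int hK).comp_sub_left z).const_mul _)]
      refine integral_congr_ae (Eventually.of_forall fun t => ?_)
      simp only
      ring
    rw [h1]
    have hnR : ∀ t, ‖B6_R ρ t‖ = ρ t := fun t => by
      simp [B6_R, abs_of_nonneg (hK.nn t)]
    by_cases hz : z ∈ Metric.ball (0 : ℂ) R
    · rw [indicator_of_mem hz]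
      calc ‖∫ t, (G' t - G' z) * B6_R ρ (z - t)‖ ≤ ∫ t, η * ρ (z - t) := by
            refine norm_integral_le_of_norm_le ((B6_shift_integrable hK z).const_mul η)
              (Eventually.of_forall fun t => ?_)
            rw [norm_mul, hnR]
            by_cases ht : δ ≤ ‖z - t‖
            · rw [hK.supp _ ht]; simp
            · push Not at ht
              refine mul_le_mul_of_nonneg_right ?_ (hK.nn _)
              have := hunif (a := t) (b := z) (by
                rw [dist_comm, dist_eq_norm]; linarith)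
              rw [dist_eq_norm] at this
              exact this.le
        _ = η := by rw [integral_const_mul, B6_rint_shift hK, mul_one]
    · rw [indicator_of_notMem hz]
      have hz' : R ≤ ‖z‖ := by simpa using hz
      have hzero : ∀ t, ‖z - t‖ < 1 → G' t = 0 := by
        intro t ht
        by_contra h0
        have h1 : t ∈ tsupport G' := subset_tsupport _ h0
        have h2 := hR₀ h1
        rw [Metric.mem_ball, dist_zero_right] at h2
        have h3 : ‖z‖ ≤ ‖z - t‖ + ‖t‖ := by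
          calc ‖z‖ = ‖(z - t) + t‖ := by ring_nf
            _ ≤ _ := norm_add_le _ _
        have h4 : R₀ ≤ max R₀ 0 := le_max_left _ _
        linarith
      have hzz : G' z = 0 := hzero z (by simp)
      have : ∀ t, (G' t - G' z) * B6_R ρ (z - t) = 0 := by
        intro t
        by_cases ht : ‖z - t‖ < 1
        · rw [hzero t ht, hzz]; simp
        · push Not at ht
          unfold B6_R
          rw [hK.supp _ (by linarith)]; simp
      simp [this]
  have hD : ∫ z, ‖B6_cv G' (B6_R ρ) z - G' z‖ ≤ ε / 4 := by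
    calc ∫ z, ‖B6_cv G' (B6_R ρ) z - G' z‖
        ≤ ∫ z, (Metric.ball (0 : ℂ) R).indicator (fun _ => η) z := by
          refine integral_mono ((B6_cv_integrable hK hint).sub hint).norm ?_ hpt
          refine (integrable_indicator_iff Metric.isOpen_ball.measurableSet).2 ?_
          exact integrableOn_const (measure_ball_lt_top.ne)
      _ = V * η := by
          rw [integral_indicator Metric.isOpen_ball.measurableSet, setIntegral_const, smul_eq_mul]
      _ ≤ ε / 4 := by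
          rw [hη]
          rw [mul_div_assoc', div_le_div_iff₀ (by positivity) (by positivity)]
          nlinarith
  have hA : ∫ z, ‖B6_cv (fun t => G t - G' t) (B6_R ρ) z‖ ≤ ε / 4 :=
    (B6_int_norm_cv hK (hG.sub hint)).trans hle
  have hI1 : Integrable fun z => ‖B6_cv (fun t => G t - G' t) (B6_R ρ) z‖ :=
    (B6_cv_integrable hK (hG.sub hint)).norm
  have hI2 : Integrable fun z => ‖B6_cv G' (B6_R ρ) z - G' z‖ :=
    ((B6_cv_integrable hK hint).sub hint).norm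
  have hI3 : Integrable fun z => ‖G z - G' z‖ := (hG.sub hint).norm
  calc ∫ z, ‖B6_cv G (B6_R ρ) z - G z‖
      ≤ ∫ z, (‖B6_cv (fun t => G t - G' t) (B6_R ρ) z‖ + ‖B6_cv G' (B6_R ρ) z - G' z‖
          + ‖G z - G' z‖) := by
        refine integral_mono ((B6_cv_integrable hK hG).sub hG).norm ((hI1.add hI2).add hI3)
          fun z => ?_
        rw [B6_cv_sub hK hG hint]
        calc ‖B6_cv G (B6_R ρ) z - G z‖
            = ‖(B6_cv G (B6_R ρ) z - B6_cv G' (B6_R ρ) z) + (B6_cv G' (B6_R ρ) z - G' z)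
                - (G z - G' z)‖ := by ring_nf
          _ ≤ _ := (norm_sub_le _ _).trans (add_le_add_left (norm_add_le _ _) _)
    _ = (∫ z, ‖B6_cv (fun t => G t - G' t) (B6_R ρ) z‖) + (∫ z, ‖B6_cv G' (B6_R ρ) z - G' z‖)
          + ∫ z, ‖G z - G' z‖ := by
        have hI12 : Integrable fun z => ‖B6_cv (fun t => G t - G' t) (B6_R ρ) z‖ +
            ‖B6_cv G' (B6_R ρ) z - G' z‖ := hI1.add hI2
        rw [integral_add hI12 hI3, integral_add hI1 hI2]
    _ ≤ ε := by linarith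

/-! ### bad sets -/

theorem B6_ball_le (h : B6_Ker δ ρ) {g : ℂ → ℝ} (hg : Integrable g) (h0 : ∀ z, 0 ≤ g z)
    (x : ℂ) (r : ℝ) :
    ∫ z in Metric.ball x r, B6_rv g ρ z ≤ ∫ z in Metric.ball x (r + δ), g z := by
  set g1 : ℂ → ℝ := (Metric.ball x (r + δ)).indicator g with hg1
  have hi1 : Integrable g1 := hg.indicator Metric.isOpen_ball.measurableSet
  have h01 : ∀ z, 0 ≤ g1 z := fun z => indicator_nonneg (fun z _ => h0 z) z
  have heq : ∀ z ∈ Metric.ball x r, B6_rv g ρ z = B6_rv g1 ρ z := by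
    intro z hz
    unfold B6_rv
    refine integral_congr_ae (Eventually.of_forall fun t => ?_)
    simp only
    by_cases ht : δ ≤ ‖z - t‖
    · rw [h.supp _ ht]; simp
    · push Not at ht
      rw [hg1, indicator_of_mem]
      rw [Metric.mem_ball, dist_eq_norm] at hz ⊢
      calc ‖t - x‖ = ‖(z - x) - (z - t)‖ := by ring_nf
        _ ≤ ‖z - x‖ + ‖z - t‖ := norm_sub_le _ _
        _ < r + δ := by linarith
  rw [setIntegral_congr_fun Metric.isOpen_ball.measurableSet heq]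
  calc ∫ z in Metric.ball x r, B6_rv g1 ρ z ≤ ∫ z, B6_rv g1 ρ z :=
        setIntegral_le_integral (B6_rv_integrable h hi1)
          (Eventually.of_forall (B6_rv_nonneg h h01))
    _ = ∫ z, g1 z := B6_rv_integral h hi1
    _ = ∫ z in Metric.ball x (r + δ), g z := integral_indicator Metric.isOpen_ball.measurableSet

theorem B6_pt_le (h : B6_Ker δ ρ) {g : ℂ → ℝ} (hg : Integrable g) (h0 : ∀ z, 0 ≤ g z)
    {x y : ℂ} (hy : ‖y - x‖ < δ) :
    B6_rv g ρ y ≤ 4 / δ ^ 2 * ∫ z in Metric.ball x (2 * δ), g z := by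
  set g1 : ℂ → ℝ := (Metric.ball x (2 * δ)).indicator g with hg1
  have hi1 : Integrable g1 := hg.indicator Metric.isOpen_ball.measurableSet
  have h01 : ∀ z, 0 ≤ g1 z := fun z => indicator_nonneg (fun z _ => h0 z) z
  have hδ := h.pos
  calc B6_rv g ρ y = ∫ t, g1 t * ρ (y - t) := by
        unfold B6_rv
        refine integral_congr_ae (Eventually.of_forall fun t => ?_)
        simp only
        by_cases ht : δ ≤ ‖y - t‖
        · rw [h.supp _ ht]; simp
        · push Not at ht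
          rw [hg1, indicator_of_mem]
          rw [Metric.mem_ball, dist_eq_norm]
          calc ‖t - x‖ = ‖(y - x) - (y - t)‖ := by ring_nf
            _ ≤ ‖y - x‖ + ‖y - t‖ := norm_sub_le _ _
            _ < 2 * δ := by linarith
    _ ≤ ∫ t, g1 t * (4 / δ ^ 2) := by
        refine integral_mono (B6_int_rv h hi1 y) (hi1.mul_const _) fun t => ?_
        exact mul_le_mul_of_nonneg_left (h.bd _) (h01 t)
    _ = 4 / δ ^ 2 * ∫ z in Metric.ball x (2 * δ), g z := by
        rw [integral_mul_const, mul_comm, integral_indicator Metric.isOpen_ball.measurableSet]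

theorem B6_notBad {g : ℂ → ℝ} {Λ : ℝ} {x : ℂ} (hx : x ∉ Bad g Λ) {r : ℝ} (hr : 0 < r) :
    ∫ z in Metric.ball x r, g z ≤ Λ * r ^ 2 := by
  by_contra h0
  push Not at h0
  exact hx ⟨r, hr, h0⟩

theorem B6_pt_bad (h : B6_Ker δ ρ) {g : ℂ → ℝ} (hg : Integrable g) (h0 : ∀ z, 0 ≤ g z)
    {Λ : ℝ} {x y : ℂ} (hy : ‖y - x‖ < δ) (hx : x ∉ Bad g Λ) : B6_rv g ρ y ≤ 16 * Λ := by
  have hδ := h.pos
  have h1 := B6_pt_le h hg h0 hy
  have h2 := B6_notBad hx (by linarith : 0 < 2 * δ)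
  calc B6_rv g ρ y ≤ 4 / δ ^ 2 * ∫ z in Metric.ball x (2 * δ), g z := h1
    _ ≤ 4 / δ ^ 2 * (Λ * (2 * δ) ^ 2) := mul_le_mul_of_nonneg_left h2 (by positivity)
    _ = 16 * Λ := by field_simp; ring

theorem B6_bad (h : B6_Ker δ ρ) {g : ℂ → ℝ} (hg : Integrable g) (h0 : ∀ z, 0 ≤ g z)
    {Λ : ℝ} (hΛ : 0 < Λ) : Bad (B6_rv g ρ) (64 * Λ) ⊆ Bad g Λ := by
  intro x hx
  by_contra hn
  obtain ⟨r, hr, hlt⟩ := hx
  have hδ := h.pos
  rcases lt_or_ge r δ with hrd | hrd
  · have h1 : ∫ z in Metric.ball x r, B6_rv g ρ z ≤ ∫ z in Metric.ball x r, 16 * Λ := by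
      refine setIntegral_mono_on (B6_rv_integrable h hg).integrableOn
        (integrableOn_const measure_ball_lt_top.ne) Metric.isOpen_ball.measurableSet fun z hz => ?_
      rw [Metric.mem_ball, dist_eq_norm] at hz
      exact B6_pt_bad h hg h0 (hz.trans hrd) hn
    rw [setIntegral_const, measureReal_def, Complex.volume_ball] at h1
    have h2 : (ENNReal.ofReal r ^ 2 * (NNReal.pi : ENNReal)).toReal = r ^ 2 * Real.pi := by
      rw [ENNReal.toReal_mul, ENNReal.toReal_pow, ENNReal.toReal_ofReal hr.le]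
      rfl
    rw [h2, smul_eq_mul] at h1
    have h3 : Real.pi ≤ 4 := Real.pi_le_four
    have h4 : r ^ 2 * Real.pi * (16 * Λ) ≤ r ^ 2 * 4 * (16 * Λ) := by gcongr
    nlinarith
  · have h1 := B6_ball_le h hg h0 x r
    have h2 := B6_notBad hn (by linarith : 0 < r + δ)
    have h3 : Λ * (r + δ) ^ 2 ≤ Λ * (2 * r) ^ 2 := by gcongr; linarith
    nlinarith [mul_pos hΛ (sq_pos_of_pos hr)]

/-! ### Jensen -/

theorem B6_tangent {c s p : ℝ} (hc : 0 ≤ c) (hs : 0 ≤ s) (hp : 1 < p) :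
    c ^ p + p * c ^ (p - 1) * (s - c) ≤ s ^ p := by
  rcases hc.eq_or_lt with rfl | hc
  · rw [Real.zero_rpow (by linarith), Real.zero_rpow (by linarith)]
    simpa using Real.rpow_nonneg hs p
  · have h1 := one_add_mul_self_le_rpow_one_add (s := s / c - 1) (p := p)
      (by have : 0 ≤ s / c := by positivity
          linarith) hp.le
    have h2 : 1 + (s / c - 1) = s / c := by ring
    rw [h2, Real.div_rpow hs hc.le] at h1
    have h3 : 0 < c ^ p := Real.rpow_pos_of_pos hc p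
    have h4 : c ^ p = c ^ (p - 1) * c := by
      rw [← Real.rpow_add_one hc.ne']; ring_nf
    rw [le_div_iff₀ h3] at h1
    have h5 : (1 + p * (s / c - 1)) * c ^ p = c ^ p + p * c ^ (p - 1) * (s - c) := by
      rw [h4]; field_simp
    linarith

theorem B6_jensen (h : B6_Ker δ ρ) {g : ℂ → ℝ} (hg : Integrable g) (h0 : ∀ z, 0 ≤ g z)
    {p : ℝ} (hp : 1 < p) (hgp : Integrable (fun z => g z ^ p)) (z : ℂ) :
    B6_rv g ρ z ^ p ≤ B6_rv (fun t => g t ^ p) ρ z := by
  set c := B6_rv g ρ z with hc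
  have hc0 : 0 ≤ c := B6_rv_nonneg h h0 z
  have hI := B6_int_rv h hg z
  have hIp := B6_int_rv h hgp z
  have hI1 := B6_shift_integrable h z
  have h1 : ∫ t, (c ^ p * ρ (z - t) + p * c ^ (p - 1) * (g t * ρ (z - t) - c * ρ (z - t)))
      ≤ ∫ t, g t ^ p * ρ (z - t) := by
    refine integral_mono ((hI1.const_mul _).add ((hI.sub (hI1.const_mul _)).const_mul _)) hIp
      fun t => ?_
    have h2 := mul_le_mul_of_nonneg_right (B6_tangent hc0 (h0 t) hp) (h.nn (z - t))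
    simp only
    calc _ = (c ^ p + p * c ^ (p - 1) * (g t - c)) * ρ (z - t) := by ring
      _ ≤ _ := h2
  have h3 : ∫ t, (c ^ p * ρ (z - t) + p * c ^ (p - 1) * (g t * ρ (z - t) - c * ρ (z - t)))
      = c ^ p := by
    have e1 : ∀ t, c ^ p * ρ (z - t) + p * c ^ (p - 1) * (g t * ρ (z - t) - c * ρ (z - t))
        = (c ^ p - p * c ^ (p - 1) * c) * ρ (z - t) + p * c ^ (p - 1) * (g t * ρ (z - t)) := by
      intro t; ring
    simp only [e1]
    rw [integral_add (hI1.const_mul _) (hI.const_mul _),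
      integral_const_mul, integral_const_mul, B6_rint_shift h]
    have h4 : ∫ t, g t * ρ (z - t) = c := rfl
    rw [h4]; ring
  rw [h3] at h1
  exact h1

theorem mollify_weak {f a b : ℂ → ℂ} (hw : Weak2 f a b) {g : ℂ → ℝ}
    (hg : g = fun z => (Metric.ball (0 : ℂ) 2).indicator (fun z => ‖a z‖ + ‖b z‖) z)
    (h65 : Integrable (fun z => g z ^ (6 / 5 : ℝ))) {ε : ℝ} (hε : 0 < ε) :
    ∃ (v : ℂ → ℂ) (h : ℂ → ℝ), ContDiff ℝ ∞ v ∧ Integrable h ∧ (∀ z, 0 ≤ h z) ∧
      (∀ z ∈ Metric.ball (0 : ℂ) 1, ‖fderiv ℝ v z‖ ≤ h z) ∧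
      (∫ z in Metric.ball (0 : ℂ) 1, ‖v z - f z‖ ≤ ε) ∧
      (∫ z in Metric.ball (0 : ℂ) 1, ‖dz v z - a z‖ ≤ ε) ∧
      (∫ z in Metric.ball (0 : ℂ) 1, ‖dzb v z - b z‖ ≤ ε) ∧
      (∀ Λ : ℝ, 0 < Λ → Bad h (64 * Λ) ⊆ Bad g Λ) ∧
      (∀ (Λ : ℝ) (x : ℂ), 0 < Λ → x ∉ Bad g Λ → h x ≤ 64 * Λ) ∧
      Integrable (fun z => h z ^ (6 / 5 : ℝ)) ∧
      ∫ z, h z ^ (6 / 5 : ℝ) ≤ ∫ z, g z ^ (6 / 5 : ℝ) := by
  have hFi := B6_cut_int hw.intf
  have hAi := B6_cut_int hw.inta
  have hBi := B6_cut_int hw.intb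
  have hgn : g = fun z => ‖B6_cut a z‖ + ‖B6_cut b z‖ := by
    rw [hg]; funext z
    unfold B6_cut
    by_cases hz : z ∈ Metric.ball (0 : ℂ) 2
    · simp only [indicator_of_mem hz]
    · simp only [indicator_of_notMem hz]; simp
  have hgi : Integrable g := by rw [hgn]; exact hAi.norm.add hBi.norm
  have hg0 : ∀ z, 0 ≤ g z := fun z => by rw [hgn]; positivity
  obtain ⟨d1, hd1, H1⟩ := B6_approx hFi hε
  obtain ⟨d2, hd2, H2⟩ := B6_approx hAi hε
  obtain ⟨d3, hd3, H3⟩ := B6_approx hBi hε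
  obtain ⟨δ, hδ, hlt⟩ : ∃ δ : ℝ, 0 < δ ∧ δ < min (min d1 d2) (min d3 1) :=
    exists_between (by simp [hd1, hd2, hd3])
  obtain ⟨⟨hl1, hl2⟩, hl3, hl4⟩ : (δ < d1 ∧ δ < d2) ∧ δ < d3 ∧ δ < 1 := by
    simpa [lt_min_iff] using hlt
  obtain ⟨ρ, hK⟩ := B6_exists_ker hδ
  have key : ∀ (f' v' : ℂ → ℂ), (∀ z ∈ Metric.ball (0 : ℂ) 1, v' z = B6_cv (B6_cut f') (B6_R ρ) z) →
      Integrable (B6_cut f') →
      (∫ z, ‖B6_cv (B6_cut f') (B6_R ρ) z - B6_cut f' z‖ ≤ ε) →
      ∫ z in Metric.ball (0 : ℂ) 1, ‖v' z - f' z‖ ≤ ε := by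
    intro f' v' h1 h2 h3
    refine le_trans ?_ h3
    rw [setIntegral_congr_fun (g := fun z => ‖B6_cv (B6_cut f') (B6_R ρ) z - B6_cut f' z‖)
      Metric.isOpen_ball.measurableSet]
    · exact setIntegral_le_integral ((B6_cv_integrable hK h2).sub h2).norm
        (Eventually.of_forall fun z => norm_nonneg _)
    · intro z hz
      simp only
      rw [h1 z hz]
      have hz2 : z ∈ Metric.ball (0 : ℂ) 2 := Metric.ball_subset_ball (by norm_num) hz
      unfold B6_cut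
      rw [indicator_of_mem hz2]
  refine ⟨B6_cv (B6_cut f) (B6_R ρ), B6_rv g ρ, B6_cv_smooth hK hFi, B6_rv_integrable hK hgi,
    B6_rv_nonneg hK hg0, ?_, key f _ (fun _ _ => rfl) hFi (H1 δ ρ hl1 hK),
    key a _ (fun z hz => B6_v_dz hK hl4 hw hz) hAi (H2 δ ρ hl2 hK),
    key b _ (fun z hz => B6_v_dzb hK hl4 hw hz) hBi (H3 δ ρ hl3 hK),
    fun Λ hΛ => B6_bad hK hgi hg0 hΛ, ?_, ?_, ?_⟩
  · intro z hz
    rw [norm_fderiv, B6_v_dz hK hl4 hw hz, B6_v_dzb hK hl4 hw hz]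
    refine (add_le_add (B6_norm_cv_le hK _ z) (B6_norm_cv_le hK _ z)).trans (le_of_eq ?_)
    unfold B6_rv
    rw [← integral_add (B6_int_rv hK hAi.norm z) (B6_int_rv hK hBi.norm z)]
    refine integral_congr_ae (Eventually.of_forall fun t => ?_)
    simp only [hgn]
    ring
  · intro Λ x hΛ hx
    have := B6_pt_bad hK hgi hg0 (x := x) (y := x) (by simpa using hδ) hx
    linarith
  · have hI := B6_rv_integrable hK h65
    refine hI.mono' ?_ (Eventually.of_forall fun z => ?_)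
    · exact ((B6_rv_integrable hK hgi).aestronglyMeasurable.aemeasurable.pow_const _).aestronglyMeasurable
    · rw [Real.norm_eq_abs, abs_of_nonneg (Real.rpow_nonneg (B6_rv_nonneg hK hg0 z) _)]
      exact B6_jensen hK hgi hg0 (by norm_num) h65 z
  · rw [← B6_rv_integral hK h65]
    refine integral_mono_of_nonneg (Eventually.of_forall fun z =>
      Real.rpow_nonneg (B6_rv_nonneg hK hg0 z) _) (B6_rv_integrable hK h65)
      (Eventually.of_forall fun z => B6_jensen hK hgi hg0 (by norm_num) h65 z)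

end

end Pool.B2F
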