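import Pool.Agent.Lib.MP_b2f128_an.Base

/-!
# MP_b2f128_an, part B7 (real analysis)
-/

open Complex MeasureTheory Set Filter Topology
open scoped ContDiff

namespace Pool.B2F

noncomputable section

theorem B7_memLp {G : Type*} [NormedAddCommGroup G] {f : ℂ → G} (hf : Continuous f) (p : ENNReal)
    (r : ℝ) : MemLp f p (volume.restrict (Metric.ball (0 : ℂ) r)) := by
  have : IsFiniteMeasure (volume.restrict (Metric.ball (0 : ℂ) r)) :=
    ⟨by rw [Measure.restrict_apply_univ]; exact measure_ball_lt_top⟩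
  obtain ⟨C, hC⟩ := (isCompact_closedBall (0 : ℂ) r).exists_bound_of_continuousOn hf.continuousOn
  refine MemLp.of_bound hf.aestronglyMeasurable C ?_
  filter_upwards [ae_restrict_mem measurableSet_ball] with x hx
  exact hC x (Metric.ball_subset_closedBall hx)

/-- norms as integrals -/
theorem B7_norm {G : Type*} [NormedAddCommGroup G] {f : ℂ → G} (hf : Continuous f) (q : NNReal)
    (hq : q ≠ 0) (r : ℝ) : eLpNorm f q (volume.restrict (Metric.ball (0 : ℂ) r)) =
      ENNReal.ofReal ((∫ z in Metric.ball (0 : ℂ) r, ‖f z‖ ^ (q : ℝ)) ^ (q : ℝ)⁻¹) := by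
  have h := MemLp.eLpNorm_eq_integral_rpow_norm (p := (q : ENNReal)) (by exact_mod_cast hq)
    ENNReal.coe_ne_top (B7_memLp hf q r)
  simpa using h

/-- cut-off -/
theorem B7_cut (b : ContDiffBump (0 : ℂ)) : ∃ M : ℝ, 0 ≤ M ∧ ∀ u : ℂ → ℂ, ContDiff ℝ ∞ u →
    ContDiff ℝ 1 (fun z => b z • u z) ∧ HasCompactSupport (fun z => b z • u z) ∧
    ∀ p : ENNReal, 1 ≤ p → eLpNorm (fderiv ℝ (fun z => b z • u z)) p volume ≤
      eLpNorm (fderiv ℝ u) p (volume.restrict (Metric.closedBall (0 : ℂ) b.rOut)) +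
        ENNReal.ofReal M * eLpNorm u p (volume.restrict (Metric.closedBall (0 : ℂ) b.rOut)) := by
  have hb1 : ContDiff ℝ 1 (b : ℂ → ℝ) := b.contDiff
  have hcont : Continuous (fderiv ℝ (b : ℂ → ℝ)) := hb1.continuous_fderiv one_ne_zero
  obtain ⟨M, hM⟩ := hcont.bounded_above_of_compact_support (b.hasCompactSupport.fderiv ℝ)
  have hM0 : 0 ≤ M := (norm_nonneg _).trans (hM 0)
  refine ⟨M, hM0, fun u hu => ?_⟩
  have hu1 : ContDiff ℝ 1 u := hu.of_le (by exact_mod_cast le_top)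
  have hw : ContDiff ℝ 1 (fun z => b z • u z) := hb1.smul hu1
  have hc : HasCompactSupport (fun z => b z • u z) := b.hasCompactSupport.smul_right
  refine ⟨hw, hc, fun p hp => ?_⟩
  have hsub : Function.support (fderiv ℝ (fun z => b z • u z)) ⊆ Metric.closedBall (0 : ℂ) b.rOut := by
    refine (subset_tsupport _).trans ((tsupport_fderiv_subset ℝ).trans ?_)
    rw [← b.tsupport_eq]
    exact closure_mono fun x hx => by
      intro h0
      apply hx
      simp only [h0, zero_smul]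
  rw [← eLpNorm_restrict_eq_of_support_subset hsub]
  have hfd : fderiv ℝ (fun z => b z • u z) =
      (fun z => b z • fderiv ℝ u z) + fun z => (fderiv ℝ (b : ℂ → ℝ) z).smulRight (u z) := by
    funext z
    rw [Pi.add_apply]
    exact fderiv_fun_smul ((hb1.differentiable one_ne_zero) z) ((hu1.differentiable one_ne_zero) z)
  have hcu : Continuous (fderiv ℝ u) := hu1.continuous_fderiv one_ne_zero
  have hc1 : Continuous (fun z => b z • fderiv ℝ u z) := hb1.continuous.smul hcu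
  have hc2 : Continuous (fun z => (fderiv ℝ (b : ℂ → ℝ) z).smulRight (u z)) := by
    have : Continuous (fderiv ℝ (fun z => b z • u z) - fun z => b z • fderiv ℝ u z) :=
      (hw.continuous_fderiv one_ne_zero).sub hc1
    rw [hfd, add_sub_cancel_left] at this
    exact this
  rw [hfd]
  refine (eLpNorm_add_le hc1.aestronglyMeasurable hc2.aestronglyMeasurable hp).trans ?_
  refine add_le_add ?_ ?_
  · refine eLpNorm_mono fun z => ?_
    rw [norm_smul, Real.norm_of_nonneg b.nonneg]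
    exact mul_le_of_le_one_left (norm_nonneg _) b.le_one
  · refine eLpNorm_le_mul_eLpNorm_of_ae_le_mul (Eventually.of_forall fun z => ?_) p
    rw [ContinuousLinearMap.norm_smulRight_apply]
    exact mul_le_mul_of_nonneg_right (hM z) (norm_nonneg _)

/-- PROOF. Gagliardo-Nirenberg-Sobolev inequality of Mathlib (`MeasureTheory.eLpNorm_le_eLpNorm_fderiv_of_eq`, `p = 6/5`, `p' = 3`, `n = 2`) for `χ u`, and once more with `p = 1`, `p' = 2` for `χ' u` to bound `∫ |u|^(6/5)` by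
`∫ |Du| + ∫ |u|` (`χ = 1` on `ball 0 (3/8)`, `χ' = 1` on the support of `χ`, `χ'` supported in `ball 0 (1/2)`); Hölder. -/
theorem sobolev3 : ∃ C : ℝ, 0 < C ∧ ∀ u : ℂ → ℂ, ContDiff ℝ ∞ u → ∀ A : ℝ, 1 ≤ A →
    ∫ z in Metric.ball (0 : ℂ) (1 / 2), ‖fderiv ℝ u z‖ ^ (6 / 5 : ℝ) ≤ A →
    ∫ z in Metric.ball (0 : ℂ) (1 / 2), ‖u z‖ ≤ A →
      ∫ z in Metric.ball (0 : ℂ) (3 / 8), ‖u z‖ ^ 3 ≤ C * A ^ 3 := by
  let b₁ : ContDiffBump (0 : ℂ) := ⟨13 / 32, 7 / 16, by norm_num, by norm_num⟩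
  let b₂ : ContDiffBump (0 : ℂ) := ⟨3 / 8, 13 / 32, by norm_num, by norm_num⟩
  obtain ⟨M₁, hM₁, H₁⟩ := B7_cut b₁
  obtain ⟨M₂, hM₂, H₂⟩ := B7_cut b₂
  set s : Set ℂ := Metric.ball (0 : ℂ) (1 / 2) with hs
  set t₁ : Set ℂ := Metric.closedBall (0 : ℂ) (7 / 16) with ht₁
  set t₂ : Set ℂ := Metric.closedBall (0 : ℂ) (13 / 32) with ht₂
  set K₁ := SNormLESNormFDerivOfEqConst ℂ (volume : Measure ℂ) (1 : NNReal) with hK₁
  set K₂ := SNormLESNormFDerivOfEqConst ℂ (volume : Measure ℂ) (6 / 5 : NNReal) with hK₂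
  set q : NNReal := 6 / 5 with hq
  have hq1 : (1 : ENNReal) ≤ q := by
    rw [hq]
    have h : (1 : NNReal) ≤ 6 / 5 := by rw [← NNReal.coe_le_coe]; push_cast; norm_num
    exact_mod_cast h
  have hqr : (q : ℝ) = 6 / 5 := by rw [hq]; push_cast; rfl
  have hqt : (q : ENNReal).toReal = 6 / 5 := by rw [ENNReal.coe_toReal, hqr]
  set W₁ : ENNReal := (volume.restrict s) univ ^ (1 / (1 : ENNReal).toReal - 1 / (q : ENNReal).toReal) with hW₁
  set W₂ : ENNReal := (volume.restrict t₂) univ ^ (1 / (q : ENNReal).toReal - 1 / (2 : ENNReal).toReal) with hW₂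
  have hW₁t : W₁ ≠ ⊤ := by
    rw [hW₁]
    refine ENNReal.rpow_ne_top_of_nonneg ?_ ?_
    · rw [hqt]; norm_num
    · rw [Measure.restrict_apply_univ]; exact measure_ball_lt_top.ne
  have hW₂t : W₂ ≠ ⊤ := by
    rw [hW₂]
    refine ENNReal.rpow_ne_top_of_nonneg ?_ ?_
    · rw [hqt]; norm_num
    · rw [Measure.restrict_apply_univ]; exact measure_closedBall_lt_top.ne
  set T : ENNReal := K₂ * (1 + ENNReal.ofReal M₂ * (K₁ * (W₁ + ENNReal.ofReal M₁) * W₂)) with hT
  have hTt : T ≠ ⊤ := by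
    rw [hT]
    refine ENNReal.mul_ne_top ENNReal.coe_ne_top (ENNReal.add_ne_top.2 ⟨ENNReal.one_ne_top, ?_⟩)
    refine ENNReal.mul_ne_top ENNReal.ofReal_ne_top (ENNReal.mul_ne_top ?_ hW₂t)
    exact ENNReal.mul_ne_top ENNReal.coe_ne_top (ENNReal.add_ne_top.2 ⟨hW₁t, ENNReal.ofReal_ne_top⟩)
  refine ⟨T.toReal ^ 3 + 1, by positivity, fun u hu A hA h1 h2 => ?_⟩
  have hu1 : ContDiff ℝ 1 u := hu.of_le (by exact_mod_cast le_top)
  have hcu : Continuous (fderiv ℝ u) := hu1.continuous_fderiv one_ne_zero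
  obtain ⟨c1, c1', G₁⟩ := H₁ u hu
  obtain ⟨c2, c2', G₂⟩ := H₂ u hu
  have ht₁s : t₁ ⊆ s := Metric.closedBall_subset_ball (by norm_num)
  have ht₂s : t₂ ⊆ s := Metric.closedBall_subset_ball (by norm_num)
  have hA0 : 0 ≤ A := by linarith
  -- the derivative in `L^(6/5)`
  have e1 : eLpNorm (fderiv ℝ u) q (volume.restrict s) ≤ ENNReal.ofReal A := by
    rw [hs, B7_norm hcu q (by rw [hq]; norm_num)]
    refine ENNReal.ofReal_le_ofReal ?_
    rw [hqr]
    calc (∫ z in Metric.ball (0 : ℂ) (1 / 2), ‖fderiv ℝ u z‖ ^ (6 / 5 : ℝ)) ^ (6 / 5 : ℝ)⁻¹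
        ≤ A ^ (6 / 5 : ℝ)⁻¹ := Real.rpow_le_rpow (integral_nonneg fun z => by positivity) h1 (by norm_num)
      _ ≤ A ^ (1 : ℝ) := Real.rpow_le_rpow_of_exponent_le hA (by norm_num)
      _ = A := Real.rpow_one A
  have e2 : eLpNorm u 1 (volume.restrict s) ≤ ENNReal.ofReal A := by
    have := B7_norm hu1.continuous 1 one_ne_zero (1 / 2)
    rw [ENNReal.coe_one] at this
    rw [hs, this]
    refine ENNReal.ofReal_le_ofReal ?_
    refine le_trans (le_of_eq ?_) h2
    simp [hs]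
  have e3 : eLpNorm (fderiv ℝ u) 1 (volume.restrict s) ≤ W₁ * ENNReal.ofReal A := by
    refine (eLpNorm_le_eLpNorm_mul_rpow_measure_univ hq1 hcu.aestronglyMeasurable).trans ?_
    rw [← hW₁, mul_comm]
    exact mul_le_mul_right e1 _
  have e4 : eLpNorm (fun z => b₁ z • u z) (2 : ENNReal) volume ≤
      K₁ * (W₁ + ENNReal.ofReal M₁) * ENNReal.ofReal A := by
    have := eLpNorm_le_eLpNorm_fderiv_of_eq (F := ℂ) (volume : Measure ℂ) c1 c1' (p := 1) (p' := 2) le_rfl
      (by simp) (by simp; norm_num)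
    push_cast at this
    refine this.trans ?_
    rw [mul_assoc]
    refine mul_le_mul_right ((G₁ 1 le_rfl).trans ?_) _
    rw [add_mul]
    refine add_le_add ?_ (mul_le_mul_right ?_ _)
    · exact (eLpNorm_mono_measure _ (Measure.restrict_mono ht₁s le_rfl)).trans e3
    · exact (eLpNorm_mono_measure _ (Measure.restrict_mono ht₁s le_rfl)).trans e2
  have e5 : eLpNorm u 2 (volume.restrict t₂) ≤ K₁ * (W₁ + ENNReal.ofReal M₁) * ENNReal.ofReal A := by
    refine le_trans ?_ e4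
    refine le_trans (le_of_eq ?_) (eLpNorm_mono_measure _ (Measure.restrict_le_self (s := t₂)))
    · refine eLpNorm_congr_ae ?_
      filter_upwards [ae_restrict_mem measurableSet_closedBall] with z hz
      rw [b₁.one_of_mem_closedBall hz, one_smul]
  have e6 : eLpNorm u q (volume.restrict t₂) ≤ K₁ * (W₁ + ENNReal.ofReal M₁) * W₂ * ENNReal.ofReal A := by
    have hq2 : (q : ENNReal) ≤ 2 := by
      rw [hq]
      have h : (6 / 5 : NNReal) ≤ 2 := by rw [← NNReal.coe_le_coe]; push_cast; norm_num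
      exact_mod_cast h
    refine (eLpNorm_le_eLpNorm_mul_rpow_measure_univ hq2 hu1.continuous.aestronglyMeasurable).trans ?_
    rw [← hW₂]
    refine (mul_le_mul_left e5 _).trans (le_of_eq ?_)
    ring
  have e7 : eLpNorm (fun z => b₂ z • u z) (3 : ENNReal) volume ≤ T * ENNReal.ofReal A := by
    have := eLpNorm_le_eLpNorm_fderiv_of_eq (F := ℂ) (volume : Measure ℂ) c2 c2' (p := q) (p' := 3)
      (by exact_mod_cast hq1)
      (by simp) (by rw [NNReal.coe_inv, hqr]; simp; norm_num)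
    push_cast at this
    refine this.trans ?_
    rw [hT, mul_assoc]
    refine mul_le_mul_right ((G₂ q hq1).trans ?_) _
    rw [add_mul, one_mul]
    refine add_le_add ?_ ?_
    · exact (eLpNorm_mono_measure _ (Measure.restrict_mono ht₂s le_rfl)).trans e1
    · rw [mul_assoc]
      exact mul_le_mul_right e6 _
  have e8 : eLpNorm u (3 : ENNReal) (volume.restrict (Metric.ball (0 : ℂ) (3 / 8))) ≤ T * ENNReal.ofReal A := by
    refine le_trans ?_ e7
    refine le_trans (le_of_eq ?_) (eLpNorm_mono_measure _ (Measure.restrict_le_self (s := Metric.ball (0 : ℂ) (3 / 8))))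
    refine eLpNorm_congr_ae ?_
    filter_upwards [ae_restrict_mem measurableSet_ball] with z hz
    rw [b₂.one_of_mem_closedBall (Metric.ball_subset_closedBall hz), one_smul]
  have e9 := B7_norm hu1.continuous 3 (by norm_num) (3 / 8)
  push_cast at e9
  rw [e9] at e8
  have e10 : T * ENNReal.ofReal A = ENNReal.ofReal (T.toReal * A) := by
    rw [ENNReal.ofReal_mul ENNReal.toReal_nonneg, ENNReal.ofReal_toReal hTt]
  rw [e10, ENNReal.ofReal_le_ofReal_iff (by positivity)] at e8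
  set X := ∫ z in Metric.ball (0 : ℂ) (3 / 8), ‖u z‖ ^ (3 : ℝ) with hX
  have hX0 : 0 ≤ X := integral_nonneg fun z => by positivity
  have hXe : ∫ z in Metric.ball (0 : ℂ) (3 / 8), ‖u z‖ ^ 3 = X := by
    rw [hX]
    refine integral_congr_ae (Eventually.of_forall fun z => ?_)
    simp only
    exact_mod_cast (Real.rpow_natCast ‖u z‖ 3).symm
  rw [hXe]
  calc X = (X ^ (3 : ℝ)⁻¹) ^ 3 := by
        rw [← Real.rpow_natCast, ← Real.rpow_mul hX0]
        norm_num
    _ ≤ (T.toReal * A) ^ 3 := pow_le_pow_left₀ (by positivity) e8 3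
    _ = T.toReal ^ 3 * A ^ 3 := by ring
    _ ≤ (T.toReal ^ 3 + 1) * A ^ 3 := by
        apply mul_le_mul_of_nonneg_right _ (by positivity)
        linarith

end

end Pool.B2F
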