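import Pool.Agent.Lib.MP_b2f128_an.Base
import Pool.Agent.Lib.MP_b2f128_an.A00
import Pool.Agent.Lib.MP_b2f128_an.A01a
import Pool.Agent.Lib.MP_b2f128_an.A01b
import Pool.Agent.Lib.MP_b2f128_an.A02a
import Pool.Agent.Lib.MP_b2f128_an.A02b
import Pool.Agent.Lib.MP_b2f128_an.A04

/-!
# MP_b2f128_an, part B8a (real analysis)
-/

open Complex MeasureTheory Set Filter Topology
open scoped ContDiff

namespace Pool.B2F

noncomputable section

theorem B8a_conj_fd {f : ℂ → ℂ} (hf : ContDiff ℝ ∞ f) (z h : ℂ) :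
    fderiv ℝ (fun z => (starRingEnd ℂ) (f z)) z h = (starRingEnd ℂ) (fderiv ℝ f z h) := by
  have h1 : HasFDerivAt f (fderiv ℝ f z) z := (hf.differentiable (by simp) z).hasFDerivAt
  have h2 : HasFDerivAt (fun z => (starRingEnd ℂ) (f z))
      ((Complex.conjCLE : ℂ →L[ℝ] ℂ).comp (fderiv ℝ f z)) z :=
    (Complex.conjCLE : ℂ →L[ℝ] ℂ).hasFDerivAt.comp z h1
  rw [h2.fderiv]; rfl

theorem B8a_conj_smooth {f : ℂ → ℂ} (hf : ContDiff ℝ ∞ f) :
    ContDiff ℝ ∞ (fun z => (starRingEnd ℂ) (f z)) :=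
  (Complex.conjCLE : ℂ →L[ℝ] ℂ).contDiff.comp hf

theorem B8a_dz_conj {f : ℂ → ℂ} (hf : ContDiff ℝ ∞ f) (z : ℂ) :
    dz (fun z => (starRingEnd ℂ) (f z)) z = (starRingEnd ℂ) (dzb f z) := by
  unfold dz dzb
  have h2 : (starRingEnd ℂ) (2 : ℂ) = 2 := by
    rw [show (2 : ℂ) = ((2 : ℝ) : ℂ) by norm_num, Complex.conj_ofReal]
  rw [B8a_conj_fd hf, B8a_conj_fd hf]
  simp [h2]
  ring

theorem B8a_dzb_conj {f : ℂ → ℂ} (hf : ContDiff ℝ ∞ f) (z : ℂ) :
    dzb (fun z => (starRingEnd ℂ) (f z)) z = (starRingEnd ℂ) (dz f z) := by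
  unfold dz dzb
  have h2 : (starRingEnd ℂ) (2 : ℂ) = 2 := by
    rw [show (2 : ℂ) = ((2 : ℝ) : ℂ) by norm_num, Complex.conj_ofReal]
  rw [B8a_conj_fd hf, B8a_conj_fd hf]
  simp [h2]

theorem B8a_diffAt {f : ℂ → ℂ} (hf : ContDiff ℝ ∞ f) (z : ℂ) : DifferentiableAt ℝ f z :=
  hf.differentiable (by simp) z

theorem B8a_normsq_re (a b c d : ℂ) : ‖a‖ ^ 2 - ‖b‖ ^ 2 - (‖c‖ ^ 2 - ‖d‖ ^ 2) =
    ((starRingEnd ℂ) (a - c) * (a + c) - (starRingEnd ℂ) (b - d) * (b + d)).re := by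
  simp only [← Complex.normSq_eq_norm_sq, Complex.normSq_apply, map_sub, sub_re, mul_re, add_re,
    add_im, sub_im, conj_re, conj_im]
  ring

/-- B8a. PROOF. For smooth `u, v`: `jac u - jac v = (1/2) Im (conj w_x s_y - conj w_y s_x)` with `w = u - v`, `s = u + v` (`jac u = Im (conj u_x u_y)`, `u_x = fderiv u · 1`, `u_y = fderiv u · I`). Integrate by parts against `η`; the second
derivatives of `s` cancel: `∫ η (jac u - jac v) = -(1/2) ∫ Im (conj w (η_x s_y - η_y s_x))`. -/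
theorem jac_diff {u v : ℂ → ℂ} (hu : ContDiff ℝ ∞ u) (hv : ContDiff ℝ ∞ v) {η : ℂ → ℂ}
    (hη : Cc univ η) (hr : ∀ z, (η z).im = 0) {T : ℝ} (hT : ∀ z, ‖fderiv ℝ η z‖ ≤ T) :
    |∫ z, (η z).re * (jac u z - jac v z)| ≤
      T * ∫ z in tsupport η, ‖u z - v z‖ * (‖fderiv ℝ u z‖ + ‖fderiv ℝ v z‖) := by
  -- the functions
  have hwS : ContDiff ℝ ∞ (fun z => u z - v z) := hu.sub hv
  set W : ℂ → ℂ := fun z => (starRingEnd ℂ) (u z - v z) with hW
  set s : ℂ → ℂ := fun z => u z + v z with hs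
  have hWs : ContDiff ℝ ∞ W := B8a_conj_smooth hwS
  have hss : ContDiff ℝ ∞ s := hu.add hv
  have hdW : ∀ z, dz W z = (starRingEnd ℂ) (dzb u z - dzb v z) := fun z => by
    rw [hW, B8a_dz_conj hwS, dzb_sub (B8a_diffAt hu z) (B8a_diffAt hv z)]
  have hdbW : ∀ z, dzb W z = (starRingEnd ℂ) (dz u z - dz v z) := fun z => by
    rw [hW, B8a_dzb_conj hwS, dz_sub (B8a_diffAt hu z) (B8a_diffAt hv z)]
  have hds : ∀ z, dz s z = dz u z + dz v z := fun z =>
    dz_add (B8a_diffAt hu z) (B8a_diffAt hv z)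
  have hdbs : ∀ z, dzb s z = dzb u z + dzb v z := fun z =>
    dzb_add (B8a_diffAt hu z) (B8a_diffAt hv z)
  have hdss : ContDiff ℝ ∞ (dz s) := dz_smooth hss
  have hdbss : ContDiff ℝ ∞ (dzb s) := dzb_smooth hss
  -- P = W s_z, Q = W s_zb
  set P : ℂ → ℂ := fun z => W z * dz s z with hP
  set Q : ℂ → ℂ := fun z => W z * dzb s z with hQ
  have hPs : ContDiff ℝ ∞ P := hWs.mul hdss
  have hQs : ContDiff ℝ ∞ Q := hWs.mul hdbss
  have hPd : ∀ z, dzb P z - dz Q z = dzb W z * dz s z - dz W z * dzb s z := by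
    intro z
    rw [hP, hQ, dzb_mul (B8a_diffAt hWs z) (B8a_diffAt hdss z),
      dz_mul (B8a_diffAt hWs z) (B8a_diffAt hdbss z)]
    have h1 := congrFun (dz_dzb_comm hss) z
    have h2 : dz (dzb s) z = dzb (dz s) z := h1
    rw [h2]; ring
  have hjac : ∀ z, (η z).re * (jac u z - jac v z) = (η z * (dzb P z - dz Q z)).re := by
    intro z
    have hre : η z = ((η z).re : ℂ) := by
      apply Complex.ext <;> simp [hr z]
    rw [hre, Complex.re_ofReal_mul, Complex.ofReal_re]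
    congr 1
    rw [hPd, hdW, hdbW, hds, hdbs]
    unfold jac
    exact B8a_normsq_re _ _ _ _
  have hI1 : Integrable fun z => dzb P z * η z := (hη.mul_left (dzb_smooth hPs)).integrable
  have hI2 : Integrable fun z => dz Q z * η z := (hη.mul_left (dz_smooth hQs)).integrable
  have hI3 : Integrable fun z => P z * dzb η z := (hη.dzb.mul_left hPs).integrable
  have hI4 : Integrable fun z => Q z * dz η z := (hη.dz.mul_left hQs).integrable
  have hI : Integrable fun z => η z * (dzb P z - dz Q z) := by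
    refine (hI1.sub hI2).congr (Eventually.of_forall fun z => ?_)
    simp only [Pi.sub_apply]; ring
  have hval : ∫ z, η z * (dzb P z - dz Q z) = ∫ z, (Q z * dz η z - P z * dzb η z) := by
    have e1 : ∫ z, η z * (dzb P z - dz Q z) = (∫ z, dzb P z * η z) - ∫ z, dz Q z * η z := by
      rw [← integral_sub hI1 hI2]
      refine integral_congr_ae (Eventually.of_forall fun z => ?_)
      simp only; ring
    rw [e1, integral_sub hI4 hI3, ibp_z hQs hη, ibp_zb hPs hη]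
    ring
  have hnorm : |∫ z, (η z).re * (jac u z - jac v z)| ≤ ∫ z, ‖Q z * dz η z - P z * dzb η z‖ := by
    simp only [hjac]
    have e2 : ∫ z, (η z * (dzb P z - dz Q z)).re = (∫ z, η z * (dzb P z - dz Q z)).re :=
      integral_re (𝕜 := ℂ) hI
    rw [e2, hval]
    exact (Complex.abs_re_le_norm _).trans (norm_integral_le_integral_norm _)
  refine hnorm.trans ?_
  have hzero : ∀ z, z ∉ tsupport η → dz η z = 0 ∧ dzb η z = 0 := fun z hz =>
    ⟨image_eq_zero_of_notMem_tsupport fun h => hz (tsupport_dz η h),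
      image_eq_zero_of_notMem_tsupport fun h => hz (tsupport_dzb η h)⟩
  have hmeas : MeasurableSet (tsupport η) := (isClosed_tsupport η).measurableSet
  have hcomp : IsCompact (tsupport η) := hη.cpt.isCompact
  have hset : ∫ z, ‖Q z * dz η z - P z * dzb η z‖ =
      ∫ z in tsupport η, ‖Q z * dz η z - P z * dzb η z‖ := by
    rw [setIntegral_eq_integral_of_forall_compl_eq_zero]
    intro z hz
    rw [(hzero z hz).1, (hzero z hz).2]; simp
  rw [hset, ← integral_const_mul]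
  have hcu : Continuous fun z => ‖fderiv ℝ u z‖ := (hu.continuous_fderiv (by simp)).norm
  have hcv : Continuous fun z => ‖fderiv ℝ v z‖ := (hv.continuous_fderiv (by simp)).norm
  refine setIntegral_mono_on (hI4.sub hI3).norm.integrableOn ?_ hmeas fun z _ => ?_
  · have hc : Continuous fun z => T * (‖u z - v z‖ * (‖fderiv ℝ u z‖ + ‖fderiv ℝ v z‖)) :=
      continuous_const.mul (hwS.continuous.norm.mul (hcu.add hcv))
    exact hc.continuousOn.integrableOn_compact hcomp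
  · have hWn : ‖W z‖ = ‖u z - v z‖ := by rw [hW]; simp only [RCLike.norm_conj]
    have h1 : ‖dz s z‖ ≤ ‖fderiv ℝ u z‖ + ‖fderiv ℝ v z‖ := by
      rw [hds, norm_fderiv, norm_fderiv]
      have := norm_add_le (dz u z) (dz v z)
      have := norm_nonneg (dzb u z)
      have := norm_nonneg (dzb v z)
      linarith
    have h2 : ‖dzb s z‖ ≤ ‖fderiv ℝ u z‖ + ‖fderiv ℝ v z‖ := by
      rw [hdbs, norm_fderiv, norm_fderiv]
      have := norm_add_le (dzb u z) (dzb v z)
      have := norm_nonneg (dz u z)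
      have := norm_nonneg (dz v z)
      linarith
    have h3 : ‖dz η z‖ + ‖dzb η z‖ ≤ T := by rw [← norm_fderiv]; exact hT z
    set D := ‖fderiv ℝ u z‖ + ‖fderiv ℝ v z‖ with hD
    calc ‖Q z * dz η z - P z * dzb η z‖ ≤ ‖Q z * dz η z‖ + ‖P z * dzb η z‖ := norm_sub_le _ _
      _ = ‖u z - v z‖ * (‖dzb s z‖ * ‖dz η z‖ + ‖dz s z‖ * ‖dzb η z‖) := by
          rw [hP, hQ]; simp only [norm_mul, hWn]; ring
      _ ≤ ‖u z - v z‖ * (D * ‖dz η z‖ + D * ‖dzb η z‖) := by gcongr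
      _ = ‖u z - v z‖ * D * (‖dz η z‖ + ‖dzb η z‖) := by ring
      _ ≤ ‖u z - v z‖ * D * T := by
          refine mul_le_mul_of_nonneg_left h3 (by positivity)
      _ = T * (‖u z - v z‖ * D) := by ring

end

end Pool.B2F
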