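import Pool.Agent.Lib.MP_b2f128_an.Base
import Pool.Agent.Lib.MP_b2f128_an.A02b
import Pool.Agent.Lib.MP_b2f128_an.B5
import Pool.Agent.Lib.MP_b2f128_an.B8a

/-!
# MP_b2f128_an, part B8b (real analysis)
-/

open Complex MeasureTheory Set Filter Topology
open scoped ContDiff

namespace Pool.B2F

noncomputable section

/-- the Jacobian as a function of the derivative -/
def B8b_J (A : ℂ →L[ℝ] ℂ) : ℝ := ‖(A 1 - I * A I) / 2‖ ^ 2 - ‖(A 1 + I * A I) / 2‖ ^ 2

theorem B8b_jac (f : ℂ → ℂ) (z : ℂ) : jac f z = B8b_J (fderiv ℝ f z) := rfl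

theorem B8b_J_cont : Continuous B8b_J := by
  have h1 : Continuous fun A : ℂ →L[ℝ] ℂ => A 1 := (ContinuousLinearMap.apply ℝ ℂ (1 : ℂ)).continuous
  have h2 : Continuous fun A : ℂ →L[ℝ] ℂ => A I := (ContinuousLinearMap.apply ℝ ℂ I).continuous
  unfold B8b_J
  fun_prop

theorem B8b_J_bound (A : ℂ →L[ℝ] ℂ) : |B8b_J A| ≤ 2 * ‖A‖ ^ 2 := by
  have h1 : ‖A 1‖ ≤ ‖A‖ := by simpa using A.le_opNorm 1
  have h2 : ‖I * A I‖ ≤ ‖A‖ := by
    rw [norm_mul, norm_I, one_mul]
    simpa using A.le_opNorm I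
  have h3 : ‖(A 1 - I * A I) / 2‖ ≤ ‖A‖ := by
    rw [norm_div]
    have := norm_sub_le (A 1) (I * A I)
    simp only [Complex.norm_ofNat]
    linarith
  have h4 : ‖(A 1 + I * A I) / 2‖ ≤ ‖A‖ := by
    rw [norm_div]
    have := norm_add_le (A 1) (I * A I)
    simp only [Complex.norm_ofNat]
    linarith
  have h5 : ‖(A 1 - I * A I) / 2‖ ^ 2 ≤ ‖A‖ ^ 2 := pow_le_pow_left₀ (norm_nonneg _) h3 2
  have h6 : ‖(A 1 + I * A I) / 2‖ ^ 2 ≤ ‖A‖ ^ 2 := pow_le_pow_left₀ (norm_nonneg _) h4 2
  have h7 : 0 ≤ ‖(A 1 - I * A I) / 2‖ ^ 2 := by positivity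
  have h8 : 0 ≤ ‖(A 1 + I * A I) / 2‖ ^ 2 := by positivity
  unfold B8b_J
  rw [abs_le]
  constructor <;> nlinarith [sq_nonneg ‖A‖]

theorem B8b_jac_cont {u : ℂ → ℂ} (hu : ContDiff ℝ ∞ u) : Continuous (jac u) := by
  have h : Continuous (fderiv ℝ u) := hu.continuous_fderiv (by simp)
  exact B8b_J_cont.comp h

/-- B8b. the same for a Lipschitz function `v` (`lip_mollify`, dominated convergence) -/
theorem jac_diff_lip {u v : ℂ → ℂ} (hu : ContDiff ℝ ∞ u) {L : ℝ} (hL : 0 ≤ L)
    (hv : ∀ x y, ‖v x - v y‖ ≤ L * ‖x - y‖) {η : ℂ → ℂ}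
    (hη : Cc univ η) (hr : ∀ z, (η z).im = 0) {T : ℝ} (hT : ∀ z, ‖fderiv ℝ η z‖ ≤ T) :
    |∫ z, (η z).re * (jac u z - jac v z)| ≤
      T * ∫ z in tsupport η, ‖u z - v z‖ * (‖fderiv ℝ u z‖ + ‖fderiv ℝ v z‖) := by
  obtain ⟨w, hw1, hw2, hw3, hw4⟩ := lip_mollify hL hv
  have hvc : Continuous v := by
    have hlip : LipschitzWith (Real.toNNReal L) v := by
      refine LipschitzWith.of_dist_le_mul fun x y => ?_
      rw [dist_eq_norm, dist_eq_norm, Real.coe_toNNReal L hL]
      exact hv x y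
    exact hlip.continuous
  have hDu : Continuous (fderiv ℝ u) := hu.continuous_fderiv (by simp)
  have hηc : Continuous η := hη.smooth.continuous
  have hlim1 : Tendsto (fun n => ∫ z, (η z).re * (jac u z - jac (w n) z)) atTop
      (𝓝 (∫ z, (η z).re * (jac u z - jac v z))) := by
    refine tendsto_integral_of_dominated_convergence
      (fun z => ‖η z‖ * (|jac u z| + 2 * L ^ 2)) ?_ ?_ ?_ ?_
    · intro n
      have h1 := B8b_jac_cont hu
      have h2 := B8b_jac_cont (hw1 n)
      exact ((Complex.continuous_re.comp hηc).mul (h1.sub h2)).aestronglyMeasurable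
    · refine Continuous.integrable_of_hasCompactSupport ?_ ?_
      · exact hηc.norm.mul ((B8b_jac_cont hu).abs.add continuous_const)
      · exact hη.cpt.norm.mul_right
    · intro n
      refine ae_of_all _ fun z => ?_
      rw [norm_mul, Real.norm_eq_abs, Real.norm_eq_abs]
      have h1 : |(η z).re| ≤ ‖η z‖ := Complex.abs_re_le_norm _
      have h2 : |jac (w n) z| ≤ 2 * L ^ 2 := by
        rw [B8b_jac]
        refine (B8b_J_bound _).trans ?_
        have := pow_le_pow_left₀ (norm_nonneg _) (hw3 n z) 2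
        linarith
      have h3 : |jac u z - jac (w n) z| ≤ |jac u z| + 2 * L ^ 2 :=
        (abs_sub _ _).trans (by linarith)
      exact mul_le_mul h1 h3 (abs_nonneg _) (norm_nonneg _)
    · filter_upwards [hw4] with z hz
      refine Tendsto.const_mul _ (Tendsto.const_sub _ ?_)
      exact (B8b_J_cont.tendsto _).comp hz
  have hlim2 : Tendsto (fun n => T * ∫ z in tsupport η, ‖u z - w n z‖ *
      (‖fderiv ℝ u z‖ + ‖fderiv ℝ (w n) z‖)) atTop
      (𝓝 (T * ∫ z in tsupport η, ‖u z - v z‖ * (‖fderiv ℝ u z‖ + ‖fderiv ℝ v z‖))) := by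
    refine Tendsto.const_mul _ ?_
    refine tendsto_integral_of_dominated_convergence
      (fun z => (‖u z - v z‖ + L) * (‖fderiv ℝ u z‖ + L)) ?_ ?_ ?_ ?_
    · intro n
      have h2 : Continuous (fderiv ℝ (w n)) := (hw1 n).continuous_fderiv (by simp)
      exact ((hu.continuous.sub (hw1 n).continuous).norm.mul
        (hDu.norm.add h2.norm)).aestronglyMeasurable
    · have h2 : Continuous fun z => (‖u z - v z‖ + L) * (‖fderiv ℝ u z‖ + L) :=
        ((hu.continuous.sub hvc).norm.add continuous_const).mul (hDu.norm.add continuous_const)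
      exact h2.continuousOn.integrableOn_compact hη.cpt
    · intro n
      refine ae_of_all _ fun z => ?_
      rw [Real.norm_eq_abs, abs_of_nonneg (by positivity)]
      have h1 : ‖u z - w n z‖ ≤ ‖u z - v z‖ + L := by
        have h2 := hw2 n z
        have h3 : L / ((n : ℝ) + 1) ≤ L := div_le_self hL (by
          have : (0 : ℝ) ≤ n := Nat.cast_nonneg n
          linarith)
        have h4 : u z - w n z = (u z - v z) - (w n z - v z) := by ring
        rw [h4]
        exact (norm_sub_le _ _).trans (by linarith)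
      have h5 : ‖fderiv ℝ u z‖ + ‖fderiv ℝ (w n) z‖ ≤ ‖fderiv ℝ u z‖ + L :=
        add_le_add (le_refl _) (hw3 n z)
      exact mul_le_mul h1 h5 (by positivity) (by positivity)
    · refine ae_restrict_of_ae ?_
      filter_upwards [hw4] with z hz
      have h1 : Tendsto (fun n => w n z) atTop (𝓝 (v z)) := by
        rw [tendsto_iff_norm_sub_tendsto_zero]
        refine squeeze_zero (fun n => norm_nonneg _) (fun n => hw2 n z) ?_
        exact tendsto_const_nhds.div_atTop
          (tendsto_natCast_atTop_atTop.atTop_add tendsto_const_nhds)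
      exact ((tendsto_const_nhds.sub h1).norm).mul (tendsto_const_nhds.add hz.norm)
  exact le_of_tendsto_of_tendsto' hlim1.abs hlim2 fun n => jac_diff hu (hw1 n) hη hr hT

end

end Pool.B2F
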