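import Pool.Agent.Lib.MP_b2f128_an.Base
import Pool.Agent.Lib.MP_b2f128_an.A02b
import Pool.Agent.Lib.MP_b2f128_an.B1a
import Pool.Agent.Lib.MP_b2f128_an.B1b
import Pool.Agent.Lib.MP_b2f128_an.B2b
import Pool.Agent.Lib.MP_b2f128_an.B3
import Pool.Agent.Lib.MP_b2f128_an.B4a
import Pool.Agent.Lib.MP_b2f128_an.B4b
import Pool.Agent.Lib.MP_b2f128_an.B8b

/-!
# MP_b2f128_an, part B8c (real analysis)
-/

open Complex MeasureTheory Set Filter Topology
open scoped ContDiff

namespace Pool.B2F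

noncomputable section

theorem B8c_dz_le (f : ℂ → ℂ) (z : ℂ) : ‖dz f z‖ ≤ ‖fderiv ℝ f z‖ := by
  unfold dz
  rw [norm_div]
  have h2 : ‖fderiv ℝ f z 1 - I * fderiv ℝ f z I‖ ≤ ‖fderiv ℝ f z‖ + ‖fderiv ℝ f z‖ := by
    refine (norm_sub_le _ _).trans (add_le_add ?_ ?_)
    · simpa using (fderiv ℝ f z).le_opNorm 1
    · rw [norm_mul, norm_I, one_mul]
      simpa using (fderiv ℝ f z).le_opNorm I
  rw [Complex.norm_two]
  linarith

theorem B8c_dzb_le (f : ℂ → ℂ) (z : ℂ) : ‖dzb f z‖ ≤ ‖fderiv ℝ f z‖ := by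
  unfold dzb
  rw [norm_div]
  have h2 : ‖fderiv ℝ f z 1 + I * fderiv ℝ f z I‖ ≤ ‖fderiv ℝ f z‖ + ‖fderiv ℝ f z‖ := by
    refine (norm_add_le _ _).trans (add_le_add ?_ ?_)
    · simpa using (fderiv ℝ f z).le_opNorm 1
    · rw [norm_mul, norm_I, one_mul]
      simpa using (fderiv ℝ f z).le_opNorm I
  rw [Complex.norm_two]
  linarith

theorem B8c_jac_le (f : ℂ → ℂ) (z : ℂ) : jac f z ≤ ‖fderiv ℝ f z‖ ^ 2 := by
  have h1 := B8c_dz_le f z
  have h2 : ‖dz f z‖ ^ 2 ≤ ‖fderiv ℝ f z‖ ^ 2 := pow_le_pow_left₀ (norm_nonneg _) h1 2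
  unfold jac
  nlinarith [sq_nonneg ‖dzb f z‖]

theorem B8c_jac_abs (f : ℂ → ℂ) (z : ℂ) : |jac f z| ≤ ‖fderiv ℝ f z‖ ^ 2 := by
  have h1 : ‖dz f z‖ ^ 2 ≤ ‖fderiv ℝ f z‖ ^ 2 :=
    pow_le_pow_left₀ (norm_nonneg _) (B8c_dz_le f z) 2
  have h2 : ‖dzb f z‖ ^ 2 ≤ ‖fderiv ℝ f z‖ ^ 2 :=
    pow_le_pow_left₀ (norm_nonneg _) (B8c_dzb_le f z) 2
  unfold jac
  rw [abs_le]
  constructor <;> nlinarith [sq_nonneg ‖dzb f z‖, sq_nonneg ‖dz f z‖]

theorem B8c_jac_meas (w : ℂ → ℂ) : Measurable (jac w) := by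
  have h1 : Measurable (fun z => fderiv ℝ w z 1) := measurable_fderiv_apply_const ℝ w 1
  have h2 : Measurable (fun z => fderiv ℝ w z I) := measurable_fderiv_apply_const ℝ w I
  have h3 : Measurable (dz w) := by
    unfold dz
    exact (h1.sub (h2.const_mul I)).div_const 2
  have h4 : Measurable (dzb w) := by
    unfold dzb
    exact (h1.add (h2.const_mul I)).div_const 2
  unfold jac
  exact (h3.norm.pow_const 2).sub (h4.norm.pow_const 2)

theorem B8c_int {η : ℂ → ℂ} (hη : Cc univ η) (w : ℂ → ℂ) {M : ℝ}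
    (hM : ∀ z, ‖fderiv ℝ w z‖ ≤ M) : Integrable (fun z => (η z).re * jac w z) := by
  have hi : Integrable η := hη.smooth.continuous.integrable_of_hasCompactSupport hη.cpt
  have hi2 : Integrable (fun z => M ^ 2 * ‖η z‖) := hi.norm.const_mul _
  refine hi2.mono' ?_ ?_
  · exact ((Complex.measurable_re.comp hη.smooth.continuous.measurable).mul
      (B8c_jac_meas w)).aestronglyMeasurable
  · refine Filter.Eventually.of_forall (fun z => ?_)
    rw [norm_mul, Real.norm_eq_abs, Real.norm_eq_abs, mul_comm]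
    have h1 : |jac w z| ≤ M ^ 2 :=
      (B8c_jac_abs w z).trans (pow_le_pow_left₀ (norm_nonneg _) (hM z) 2)
    exact mul_le_mul h1 (Complex.abs_re_le_norm _) (abs_nonneg _) (sq_nonneg M)

/-- the cutoff function -/
theorem B8c_cutoff {R : ℝ} (hR : 0 < R) : ∃ η : ℂ → ℂ, Cc univ η ∧ (∀ z, (η z).im = 0) ∧
    (∀ z, 0 ≤ (η z).re) ∧ (∀ z, (η z).re ≤ 1) ∧ (∀ z ∈ Metric.ball (0 : ℂ) R, (η z).re = 1) ∧
    (∀ z, z ∉ Metric.ball (0 : ℂ) (2 * R) → (η z).re = 0) ∧
    ∃ T : ℝ, 0 ≤ T ∧ ∀ z, ‖fderiv ℝ η z‖ ≤ T := by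
  let b : ContDiffBump (0 : ℂ) := ⟨R, 3 / 2 * R, hR, by linarith⟩
  have hsm : ContDiff ℝ ∞ (fun z => ((b z : ℝ) : ℂ)) :=
    Complex.ofRealCLM.contDiff.comp b.contDiff
  have hcs : HasCompactSupport (fun z => ((b z : ℝ) : ℂ)) :=
    b.hasCompactSupport.comp_left (g := fun x : ℝ => (x : ℂ)) (by simp)
  refine ⟨fun z => ((b z : ℝ) : ℂ), ⟨hsm, hcs, subset_univ _⟩, fun z => by simp, fun z => ?_,
    fun z => ?_, fun z hz => ?_, fun z hz => ?_, ?_⟩
  · simpa using b.nonneg (x := z)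
  · simpa using b.le_one (x := z)
  · have h1 : z ∈ Metric.closedBall (0 : ℂ) b.rIn := Metric.ball_subset_closedBall hz
    have := b.one_of_mem_closedBall h1
    simp [this]
  · have h1 : b z = 0 := by
      apply b.zero_of_le_dist
      have h2 : 2 * R ≤ dist z 0 := by
        by_contra h
        push Not at h
        exact hz (Metric.mem_ball.mpr h)
      have h3 : b.rOut = 3 / 2 * R := rfl
      rw [h3]
      linarith
    simp [h1]
  · have hc : Continuous (fderiv ℝ (fun z => ((b z : ℝ) : ℂ))) :=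
      hsm.continuous_fderiv (by simp)
    have hcs' : HasCompactSupport (fderiv ℝ (fun z => ((b z : ℝ) : ℂ))) := hcs.fderiv ℝ
    obtain ⟨T, hT⟩ := hc.bounded_above_of_compact_support hcs'
    exact ⟨T, (norm_nonneg _).trans (hT 0), hT⟩

theorem jac_equi {R C1 : ℝ} (hR : 0 < R) (hC : 0 < C1) {ε : ℝ} (hε : 0 < ε) : ∃ δ : ℝ, 0 < δ ∧
    ∀ u : ℂ → ℂ, Cc univ u → (∀ z, ‖u z‖ ≤ C1) → ∫ z, ‖fderiv ℝ u z‖ ^ 2 ≤ C1 →
      (∀ z ∈ Metric.ball (0 : ℂ) (2 * R), 0 ≤ jac u z) →
      ∀ B : Set ℂ, MeasurableSet B → B ⊆ Metric.ball 0 R → (volume B).toReal ≤ δ →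
        ∫ z in B, jac u z ≤ ε := by
  obtain ⟨η, hη, hηim, hη0, hη1, hηR, hηout, T, hT0, hT⟩ := B8c_cutoff hR
  obtain ⟨C0, hC0, hsum⟩ := sum_bad2
  obtain ⟨CL, hCL, hlip⟩ := lip_off_bad
  set K : ℝ := T * (3 * C1) * (C1 / 2 + (1 / 2 + 2 * CL) * (C0 * C1)) + 4 * CL ^ 2 * (C0 * C1)
    with hK
  have hKnn : 0 ≤ K := by positivity
  obtain ⟨N₀, hN₀⟩ := exists_nat_gt (2 * K / ε)
  set N : ℕ := N₀ + 1 with hN
  have hNpos : (0 : ℝ) < N := by positivity
  have hNK : K / N ≤ ε / 2 := by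
    rw [div_le_iff₀ hNpos]
    have h1 : 2 * K / ε < N := by
      rw [hN]; push_cast; linarith
    rw [div_lt_iff₀ hε] at h1
    linarith
  refine ⟨ε / (2 * 4 ^ (2 * N)), by positivity, ?_⟩
  intro u hu hub hui hjac B hB hBR hBδ
  set g : ℂ → ℝ := fun z => ‖fderiv ℝ u z‖ with hg
  have hfc : Continuous (fderiv ℝ u) := hu.smooth.continuous_fderiv (by simp)
  have hfcs : HasCompactSupport (fderiv ℝ u) := hu.cpt.fderiv ℝ
  have hgi : Integrable g := (hfc.integrable_of_hasCompactSupport hfcs).norm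
  have hg0 : ∀ z, 0 ≤ g z := fun z => norm_nonneg _
  have hgcs : HasCompactSupport (fun z => g z ^ 2) :=
    hfcs.comp_left (g := fun L : ℂ →L[ℝ] ℂ => ‖L‖ ^ 2) (by simp)
  have hgi2 : Integrable (fun z => g z ^ 2) :=
    (hfc.norm.pow 2).integrable_of_hasCompactSupport hgcs
  obtain ⟨Mu, hMu⟩ := hfc.bounded_above_of_compact_support hfcs
  -- pigeonhole
  have hs := hsum g hgi hg0 hgi2 N (2 * N)
  have hs' : ∑ i ∈ Finset.Ico N (2 * N), 4 ^ i * (volume (Bad g (2 ^ i))).toReal ≤ C0 * C1 :=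
    hs.trans (mul_le_mul_of_nonneg_left hui hC0.le)
  obtain ⟨i, hi, hiS⟩ : ∃ i ∈ Finset.Ico N (2 * N),
      4 ^ i * (volume (Bad g (2 ^ i))).toReal ≤ C0 * C1 / N := by
    by_contra hcon
    push Not at hcon
    have h1 : ∑ i ∈ Finset.Ico N (2 * N), (C0 * C1 / N)
        < ∑ i ∈ Finset.Ico N (2 * N), 4 ^ i * (volume (Bad g (2 ^ i))).toReal := by
      apply Finset.sum_lt_sum_of_nonempty
      · refine ⟨N, Finset.mem_Ico.mpr ⟨le_rfl, by omega⟩⟩
      · exact hcon
    rw [Finset.sum_const, Nat.card_Ico, nsmul_eq_mul] at h1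
    have h2 : ((2 * N - N : ℕ) : ℝ) = N := by
      have : 2 * N - N = N := by omega
      rw [this]
    rw [h2] at h1
    have h3 : (N : ℝ) * (C0 * C1 / N) = C0 * C1 := by field_simp
    linarith
  rw [Finset.mem_Ico] at hi
  set Λ : ℝ := 2 ^ i with hΛ
  have hΛpos : 0 < Λ := by positivity
  have hΛN : (N : ℝ) ≤ Λ := by
    have h1 : N < 2 ^ N := Nat.lt_two_pow_self
    have h2 : (N : ℝ) < 2 ^ N := by exact_mod_cast h1
    have h3 : (2 : ℝ) ^ N ≤ 2 ^ i := pow_le_pow_right₀ (by norm_num) hi.1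
    linarith
  have hN1 : (1 : ℝ) ≤ N := by
    rw [hN]; push_cast; linarith [Nat.cast_nonneg (α := ℝ) N₀]
  have hΛ1 : 1 ≤ Λ := hN1.trans hΛN
  have h4 : (4 : ℝ) ^ i = Λ ^ 2 := by
    rw [hΛ, ← pow_mul, mul_comm, pow_mul]
    norm_num
  rw [h4] at hiS
  set S : Set ℂ := Bad g Λ with hS
  have hSm : MeasurableSet S := bad_measurable hgi Λ
  have hSfin : volume S ≠ ⊤ := ((bad_weak hgi hg0 hΛpos).trans_lt ENNReal.ofReal_lt_top).ne
  set s : ℝ := (volume S).toReal with hsdef
  have hs0 : 0 ≤ s := ENNReal.toReal_nonneg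
  have hΛs : Λ * s ≤ C0 * C1 / N := by
    refine le_trans ?_ hiS
    have : Λ * s ≤ Λ * (Λ * s) := le_mul_of_one_le_left (by positivity) hΛ1
    calc Λ * s ≤ Λ * (Λ * s) := this
      _ = Λ ^ 2 * s := by ring
  -- the Lipschitz extension
  obtain ⟨v, hvl, hvu, hvb⟩ := exists_lip_ext (v := u) (s := Sᶜ) (L := CL * Λ) (B := C1)
    (by positivity) hC.le
    (fun x hx y hy => hlip u g (hu.smooth.of_le (by simp)) hgi (fun z => le_rfl) Λ x y hΛpos hx hy)
    (fun x _ => hub x)
  set L : ℝ := 2 * (CL * Λ) with hL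
  have hL0 : 0 ≤ L := by positivity
  have hLip : LipschitzWith (Real.toNNReal L) v := by
    refine LipschitzWith.of_dist_le_mul (fun x y => ?_)
    rw [dist_eq_norm, dist_eq_norm, Real.coe_toNNReal L hL0]
    exact hvl x y
  have hDv : ∀ z, ‖fderiv ℝ v z‖ ≤ L := by
    intro z
    have := norm_fderiv_le_of_lipschitz ℝ hLip (x₀ := z)
    rwa [Real.coe_toNNReal L hL0] at this
  have hae : ∀ᵐ x, x ∈ Sᶜ → DifferentiableAt ℝ v x ∧ fderiv ℝ v x = fderiv ℝ u x :=
    ae_fderiv_eq hvl (hu.smooth.differentiable (by simp)) hSm.compl hvu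
  have hjd := jac_diff_lip hu.smooth hL0 hvl hη hηim hT
  -- right hand side
  have hgS : IntegrableOn g S := hgi.integrableOn
  have hRHS : ∫ z in tsupport η, ‖u z - v z‖ * (‖fderiv ℝ u z‖ + ‖fderiv ℝ v z‖)
      ≤ 3 * C1 * (C1 / (2 * Λ) + (1 / 2 * Λ + L) * s) := by
    have hb1 : ∀ z, ‖u z - v z‖ * (‖fderiv ℝ u z‖ + ‖fderiv ℝ v z‖)
        ≤ S.indicator (fun z => 3 * C1 * (g z ^ 2 / (2 * Λ) + (1 / 2 * Λ + L))) z := by
      intro z
      by_cases hz : z ∈ S
      · rw [Set.indicator_of_mem hz]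
        have h1 : ‖u z - v z‖ ≤ 3 * C1 := by
          refine (norm_sub_le _ _).trans ?_
          have := hub z
          have := hvb z
          linarith
        have h2 : g z ≤ g z ^ 2 / (2 * Λ) + 1 / 2 * Λ := by
          have h3 : g z ^ 2 / (2 * Λ) + 1 / 2 * Λ - g z = (g z - Λ) ^ 2 / (2 * Λ) := by
            field_simp
            ring
          have h5 : 0 ≤ (g z - Λ) ^ 2 / (2 * Λ) := by positivity
          linarith
        have h3 : ‖fderiv ℝ u z‖ + ‖fderiv ℝ v z‖ ≤ g z ^ 2 / (2 * Λ) + (1 / 2 * Λ + L) := by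
          have := hDv z
          change g z + _ ≤ _
          linarith
        exact mul_le_mul h1 h3 (by positivity) (by positivity)
      · rw [Set.indicator_of_notMem hz]
        have : v z = u z := hvu z hz
        rw [this, sub_self, norm_zero, zero_mul]
    have hint : Integrable (S.indicator
        (fun z => 3 * C1 * (g z ^ 2 / (2 * Λ) + (1 / 2 * Λ + L)))) := by
      rw [integrable_indicator_iff hSm]
      refine Integrable.const_mul (Integrable.add ?_ ?_) _
      · exact (hgi2.div_const _).integrableOn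
      · exact integrableOn_const (by simpa using hSfin)
    have h0 : ∀ z, 0 ≤ S.indicator (fun z => 3 * C1 * (g z ^ 2 / (2 * Λ) + (1 / 2 * Λ + L))) z := by
      intro z
      exact Set.indicator_nonneg (fun z _ => by positivity) z
    calc ∫ z in tsupport η, ‖u z - v z‖ * (‖fderiv ℝ u z‖ + ‖fderiv ℝ v z‖)
        ≤ ∫ z in tsupport η,
            S.indicator (fun z => 3 * C1 * (g z ^ 2 / (2 * Λ) + (1 / 2 * Λ + L))) z := by
          refine integral_mono_of_nonneg ?_ hint.integrableOn ?_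
          · exact Filter.Eventually.of_forall (fun z => by positivity)
          · exact Filter.Eventually.of_forall hb1
      _ ≤ ∫ z, S.indicator (fun z => 3 * C1 * (g z ^ 2 / (2 * Λ) + (1 / 2 * Λ + L))) z :=
          setIntegral_le_integral hint (Filter.Eventually.of_forall h0)
      _ = ∫ z in S, 3 * C1 * (g z ^ 2 / (2 * Λ) + (1 / 2 * Λ + L)) := integral_indicator hSm
      _ = 3 * C1 * ((∫ z in S, g z ^ 2) / (2 * Λ) + (1 / 2 * Λ + L) * s) := by
          rw [integral_const_mul, integral_add (hgi2.div_const _).integrableOn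
            (integrableOn_const (by simpa using hSfin)), integral_div, setIntegral_const,
            smul_eq_mul]
          congr 2
          rw [mul_comm]
          rfl
      _ ≤ 3 * C1 * (C1 / (2 * Λ) + (1 / 2 * Λ + L) * s) := by
          have h1 : ∫ z in S, g z ^ 2 ≤ C1 :=
            (setIntegral_le_integral hgi2 (Filter.Eventually.of_forall
              (fun z => by positivity))).trans hui
          gcongr
  -- the integral over S
  have hiu := B8c_int hη u hMu
  have hiv := B8c_int hη v hDv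
  have hsplit : ∫ z, (η z).re * (jac u z - jac v z)
      = (∫ z in S, (η z).re * jac u z) - ∫ z in S, (η z).re * jac v z := by
    have h1 : ∫ z, (η z).re * (jac u z - jac v z)
        = (∫ z in S, (η z).re * (jac u z - jac v z))
          + ∫ z in Sᶜ, (η z).re * (jac u z - jac v z) := by
      refine (integral_add_compl hSm ?_).symm
      have : (fun z => (η z).re * (jac u z - jac v z))
          = fun z => (η z).re * jac u z - (η z).re * jac v z := by
        funext z; ring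
      rw [this]
      exact hiu.sub hiv
    have h2 : ∫ z in Sᶜ, (η z).re * (jac u z - jac v z) = 0 := by
      have h3 : ∫ z in Sᶜ, (η z).re * (jac u z - jac v z) = ∫ z in Sᶜ, (0 : ℝ) := by
        refine setIntegral_congr_ae hSm.compl ?_
        filter_upwards [hae] with x hx hxS
        have h5 := (hx hxS).2
        have h6 : jac u x = jac v x := by
          unfold jac dz dzb
          rw [h5]
        rw [h6, sub_self, mul_zero]
      rw [h3, integral_zero]
    rw [h1, h2, add_zero]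
    have : (fun z => (η z).re * (jac u z - jac v z))
        = fun z => (η z).re * jac u z - (η z).re * jac v z := by
      funext z; ring
    rw [this, integral_sub hiu.integrableOn hiv.integrableOn]
  have hSv : ∫ z in S, (η z).re * jac v z ≤ L ^ 2 * s := by
    have h1 : ∫ z in S, (η z).re * jac v z ≤ ∫ z in S, L ^ 2 := by
      refine setIntegral_mono_on hiv.integrableOn (integrableOn_const (by simpa using hSfin)) hSm ?_
      intro z _
      have h2 : jac v z ≤ L ^ 2 :=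
        (B8c_jac_le v z).trans (pow_le_pow_left₀ (norm_nonneg _) (hDv z) 2)
      have h3 : |(η z).re * jac v z| ≤ 1 * L ^ 2 := by
        rw [abs_mul]
        refine mul_le_mul ?_ ?_ (abs_nonneg _) zero_le_one
        · rw [abs_of_nonneg (hη0 z)]; exact hη1 z
        · exact (B8c_jac_abs v z).trans (pow_le_pow_left₀ (norm_nonneg _) (hDv z) 2)
      have := le_abs_self ((η z).re * jac v z)
      linarith
    refine h1.trans (le_of_eq ?_)
    rw [setIntegral_const, smul_eq_mul, mul_comm]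
    rfl
  have hSu : ∫ z in S, (η z).re * jac u z ≤ K / N := by
    have h1 : ∫ z in S, (η z).re * jac u z
        = (∫ z, (η z).re * (jac u z - jac v z)) + ∫ z in S, (η z).re * jac v z := by
      rw [hsplit]; ring
    have h2 : ∫ z, (η z).re * (jac u z - jac v z)
        ≤ T * (3 * C1 * (C1 / (2 * Λ) + (1 / 2 * Λ + L) * s)) :=
      (le_abs_self _).trans (hjd.trans (mul_le_mul_of_nonneg_left hRHS hT0))
    have h3 : C1 / (2 * Λ) ≤ C1 / 2 / N := by
      rw [div_div]
      exact div_le_div_of_nonneg_left hC.le (by positivity) (by linarith)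
    have h5 : (1 / 2 * Λ + L) * s ≤ (1 / 2 + 2 * CL) * (C0 * C1) / N := by
      have : (1 / 2 * Λ + L) * s = (1 / 2 + 2 * CL) * (Λ * s) := by rw [hL]; ring
      rw [this, mul_div_assoc]
      exact mul_le_mul_of_nonneg_left hΛs (by positivity)
    have h6 : L ^ 2 * s ≤ 4 * CL ^ 2 * (C0 * C1) / N := by
      have : L ^ 2 * s = 4 * CL ^ 2 * (Λ ^ 2 * s) := by rw [hL]; ring
      rw [this, mul_div_assoc]
      exact mul_le_mul_of_nonneg_left hiS (by positivity)
    have h7 : T * (3 * C1 * (C1 / (2 * Λ) + (1 / 2 * Λ + L) * s))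
        ≤ T * (3 * C1 * (C1 / 2 / N + (1 / 2 + 2 * CL) * (C0 * C1) / N)) := by
      gcongr
    have h8 : K / N = T * (3 * C1 * (C1 / 2 / N + (1 / 2 + 2 * CL) * (C0 * C1) / N))
        + 4 * CL ^ 2 * (C0 * C1) / N := by
      rw [hK]
      field_simp
    rw [h1, h8]
    linarith
  -- nonnegativity
  have hnn : ∀ z, 0 ≤ (η z).re * jac u z := by
    intro z
    by_cases hz : z ∈ Metric.ball (0 : ℂ) (2 * R)
    · exact mul_nonneg (hη0 z) (hjac z hz)
    · rw [hηout z hz, zero_mul]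
  have hui' : IntegrableOn (jac u) B := by
    refine (hiu.integrableOn (s := B)).congr ?_
    filter_upwards [ae_restrict_mem hB] with z hz
    rw [hηR z (hBR hz), one_mul]
  have hBfin : volume B ≠ ⊤ :=
    ((measure_mono hBR).trans_lt Metric.isBounded_ball.measure_lt_top).ne
  have hBS : ∫ z in B, jac u z = (∫ z in B ∩ S, jac u z) + ∫ z in B \ S, jac u z :=
    (integral_inter_add_sdiff hSm hui').symm
  have hp1 : ∫ z in B ∩ S, jac u z ≤ K / N := by
    have h1 : ∫ z in B ∩ S, jac u z = ∫ z in B ∩ S, (η z).re * jac u z := by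
      refine setIntegral_congr_fun (hB.inter hSm) (fun z hz => ?_)
      rw [hηR z (hBR hz.1), one_mul]
    rw [h1]
    refine le_trans ?_ hSu
    exact setIntegral_mono_set hiu.integrableOn (Filter.Eventually.of_forall hnn)
      (LE.le.eventuallyLE inter_subset_right)
  have hp2 : ∫ z in B \ S, jac u z ≤ Λ ^ 2 * (volume B).toReal := by
    have hle := le_of_notMem_bad hgi hΛpos.le
    have h1 : ∫ z in B \ S, jac u z ≤ ∫ z in B \ S, Λ ^ 2 := by
      refine setIntegral_mono_on_ae (hui'.mono_set sdiff_subset)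
        (integrableOn_const (by
          exact ((measure_mono sdiff_subset).trans_lt hBfin.lt_top).ne)) (hB.diff hSm) ?_
      filter_upwards [hle] with z hz hzB
      exact (B8c_jac_le u z).trans (pow_le_pow_left₀ (norm_nonneg _) (hz hzB.2) 2)
    refine h1.trans ?_
    rw [setIntegral_const, smul_eq_mul, mul_comm]
    refine mul_le_mul_of_nonneg_left ?_ (by positivity)
    exact ENNReal.toReal_mono hBfin (measure_mono sdiff_subset)
  have hΛ2 : Λ ^ 2 ≤ 4 ^ (2 * N) := by
    rw [← h4]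
    exact pow_le_pow_right₀ (by norm_num) hi.2.le
  have hp3 : Λ ^ 2 * (volume B).toReal ≤ ε / 2 := by
    calc Λ ^ 2 * (volume B).toReal ≤ 4 ^ (2 * N) * (ε / (2 * 4 ^ (2 * N))) :=
          mul_le_mul hΛ2 hBδ ENNReal.toReal_nonneg (by positivity)
      _ = ε / 2 := by field_simp
  rw [hBS]
  linarith

end

end Pool.B2F
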