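import Pool.Agent.Lib.MP_b2f128_an.Defs

/-!
# MP_b2f128_an: further definitions
-/

open Complex MeasureTheory Set Filter Topology
open scoped ContDiff

namespace Pool.B2F

noncomputable section

/-- the coefficient of the first factor -/
def muh (e : ℝ) (μ : ℂ → ℂ) (z : ℂ) : ℂ := e * μ z / (1 - (1 - e) * ‖μ z‖ ^ 2 : ℝ)

/-- the local situation -/
structure Loc (b γ : ℝ) (f p q μ : ℂ → ℂ) : Prop where
  weak : Weak2 f p q
  meas : Measurable μ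
  lt : ∀ z, ‖μ z‖ < 1
  zero : ∀ z, z ∉ Metric.ball (0 : ℂ) (3 / 4) → μ z = 0
  eq : ∀ᵐ z, z ∈ Metric.ball (0 : ℂ) (3 / 4) → q z = μ z * p z
  intK : IntegrableOn (fun z => Real.exp (b * kap ‖μ z‖)) (Metric.ball 0 2)
  intg : IntegrableOn (fun z => (‖p z‖ + ‖q z‖) ^ 2 /
    Real.log (Real.exp 1 + (‖p z‖ + ‖q z‖)) ^ (1 + γ)) (Metric.ball 0 2)

/-- the gradient -/
def grad (p q : ℂ → ℂ) (z : ℂ) : ℝ := (Metric.ball (0 : ℂ) 2).indicator (fun z => ‖p z‖ + ‖q z‖) z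

/-- weak Wirtinger derivatives on an open set -/
structure WeakOn (Ω : Set ℂ) (f p q : ℂ → ℂ) : Prop where
  intf : LocallyIntegrableOn f Ω
  intp : LocallyIntegrableOn p Ω
  intq : LocallyIntegrableOn q Ω
  wz : ∀ φ, Cc Ω φ → ∫ z, f z * dz φ z = -∫ z, p z * φ z
  wzb : ∀ φ, Cc Ω φ → ∫ z, f z * dzb φ z = -∫ z, q z * φ z

theorem n2_nonneg (s : Set ℂ) (f : ℂ → ℂ) : 0 ≤ n2 s f := Real.sqrt_nonneg _

theorem Cc.mono {U V : Set ℂ} {f : ℂ → ℂ} (hf : Cc U f) (h : U ⊆ V) : Cc V f :=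
  ⟨hf.smooth, hf.cpt, hf.sub.trans h⟩

end

end Pool.B2F
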