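import Mathlib

/-!
# MP_b2f128_an: the statement `P_n(c)`
-/

open MeasureTheory
open scoped ContDiff

namespace Pool.B2F

/-- operator norm of a real matrix (Euclidean norms) -/
noncomputable def opn {n : ℕ} (A : Matrix (Fin n) (Fin n) ℝ) : ℝ :=
  ‖Matrix.toEuclideanCLM (n := Fin n) (𝕜 := ℝ) A‖

/-- `f ∈ W^{1,1}_loc(Ω, ℝⁿ)` with weak differential `D` (`D x i j` is the weak partial derivative of
the `i`-th component in the `j`-th direction) -/
structure IsWeakDiff {n : ℕ} (Ω : Set (EuclideanSpace ℝ (Fin n)))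
    (f : EuclideanSpace ℝ (Fin n) → Fin n → ℝ)
    (D : EuclideanSpace ℝ (Fin n) → Matrix (Fin n) (Fin n) ℝ) : Prop where
  intf : ∀ i, LocallyIntegrableOn (fun x => f x i) Ω
  intD : ∀ i j, LocallyIntegrableOn (fun x => D x i j) Ω
  weak : ∀ φ : EuclideanSpace ℝ (Fin n) → ℝ, ContDiff ℝ ∞ φ → HasCompactSupport φ →
    tsupport φ ⊆ Ω → ∀ i j, ∫ x, f x i * fderiv ℝ φ x (EuclideanSpace.single j 1) =
      -∫ x, D x i j * φ x

/-- the statement `P_n(c)` of the problem -/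
def PP (n : ℕ) (c : ℝ) : Prop :=
  ∀ (Ω : Set (EuclideanSpace ℝ (Fin n))), IsOpen Ω → ∀ β : ℝ, 0 < β →
  ∀ (f : EuclideanSpace ℝ (Fin n) → Fin n → ℝ)
    (D : EuclideanSpace ℝ (Fin n) → Matrix (Fin n) (Fin n) ℝ)
    (K : EuclideanSpace ℝ (Fin n) → ℝ), IsWeakDiff Ω f D → Measurable K → (∀ x ∈ Ω, 1 ≤ K x) →
    (∀ᵐ x, x ∈ Ω → opn (D x) ^ n ≤ K x * (D x).det) →
    LocallyIntegrableOn (fun x => Real.exp (β * K x)) Ω →
    LocallyIntegrableOn (fun x => opn (D x) ^ n /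
      Real.log (Real.exp 1 + opn (D x)) ^ (1 + c * β)) Ω →
    LocallyIntegrableOn (fun x => opn (D x) ^ n / Real.log (Real.exp 1 + opn (D x))) Ω ∧
    LocallyIntegrableOn (fun x => (D x).det) Ω

end Pool.B2F
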