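import Pool.Agent.Lib.MP_b2f128_an.Base
import Pool.Agent.Lib.MP_b2f128_an.Stmt

/-!
# MP_b2f128_an: definitions for the transfer to the plane
-/

open Complex MeasureTheory Set Filter Topology
open scoped ContDiff

namespace Pool.B2F

noncomputable section

/-- first Wirtinger coefficient of a real 2×2 matrix -/
def mz (A : Matrix (Fin 2) (Fin 2) ℝ) : ℂ := ⟨(A 0 0 + A 1 1) / 2, (A 1 0 - A 0 1) / 2⟩

/-- second Wirtinger coefficient -/
def mzb (A : Matrix (Fin 2) (Fin 2) ℝ) : ℂ := ⟨(A 0 0 - A 1 1) / 2, (A 1 0 + A 0 1) / 2⟩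

/-- the isometry -/
def eE : ℂ ≃ₗᵢ[ℝ] EuclideanSpace ℝ (Fin 2) := Complex.orthonormalBasisOneI.repr

/-- the matrix with Wirtinger coefficients `p, q` -/
def mat (p q : ℂ) : Matrix (Fin 2) (Fin 2) ℝ :=
  !![p.re + q.re, q.im - p.im; p.im + q.im, p.re - q.re]

end

end Pool.B2F
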