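import Pool.Agent.Lib.MP_b2f128_an.Stmt

/-!
# MP_b2f128_an: definitions for the radial counterexample
-/

open MeasureTheory Set Filter Topology
open scoped ContDiff

namespace Pool.B2F

noncomputable section

/-- the reflection in the first coordinate -/
def sg {n : ℕ} (i : Fin n) : ℝ := if i.val = 0 then -1 else 1

/-- the matrix `σ (g 1 + h x xᵀ)` -/
def rmat {n : ℕ} (g h : ℝ) (x : Fin n → ℝ) : Matrix (Fin n) (Fin n) ℝ :=
  Matrix.of fun i j => sg i * (g * (if i = j then 1 else 0) + h * x i * x j)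

/-- `g = ρ / r` -/
def gq (s A r : ℝ) : ℝ := (A - Real.log r) ^ s / r

/-- `ρ'` -/
def dq (s A r : ℝ) : ℝ := -(s * (A - Real.log r) ^ (s - 1)) / r

/-- the map -/
def ff {n : ℕ} (s A : ℝ) (x : EuclideanSpace ℝ (Fin n)) (i : Fin n) : ℝ :=
  sg i * (gq s A ‖x‖ * x i)

/-- its differential -/
def fD {n : ℕ} (s A : ℝ) (x : EuclideanSpace ℝ (Fin n)) : Matrix (Fin n) (Fin n) ℝ :=
  rmat (gq s A ‖x‖) ((dq s A ‖x‖ - gq s A ‖x‖) / ‖x‖ ^ 2) fun i => x i

/-- its distortion -/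
def fK {n : ℕ} (s A : ℝ) (x : EuclideanSpace ℝ (Fin n)) : ℝ := max 1 ((A - Real.log ‖x‖) / s)

end

end Pool.B2F
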