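import Pool.Agent.Lib.MP_b2f128_an.Base
import Pool.Agent.Lib.MP_b2f128_an.A01a
import Pool.Agent.Lib.MP_b2f128_an.A01c

/-!
# MP_b2f128_an, part C0a (very weak solutions)
-/

open Complex MeasureTheory Set Filter Topology
open scoped ContDiff

namespace Pool.B2F

noncomputable section

theorem C0a_jac_cast (F : ℂ → ℂ) (z : ℂ) : ((jac F z : ℝ) : ℂ) =
    dz F z * (starRingEnd ℂ) (dz F z) - dzb F z * (starRingEnd ℂ) (dzb F z) := by
  unfold jac
  rw [Complex.mul_conj, Complex.mul_conj, Complex.normSq_eq_norm_sq, Complex.normSq_eq_norm_sq]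
  push_cast
  ring

theorem C0a_jac_ne {C b' : ℝ} {μ F G : ℂ → ℂ} (h : Good C b' μ F G) (z : ℂ) : jac F z ≠ 0 := by
  intro h0
  have hG : DifferentiableAt ℝ G (F z) := (h.cG.differentiable (by simp)) _
  have hF : DifferentiableAt ℝ F z := (h.cF.differentiable (by simp)) _
  have h1 := jac_comp hG hF
  rw [h0, mul_zero] at h1
  have h2 : (fun z => G (F z)) = fun z => z := funext h.GF
  rw [h2] at h1
  unfold jac at h1
  rw [dz_id, dzb_id] at h1
  simp at h1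

/-- derivative of the inverse map. PROOF: differentiate `G (F z) = z` (`dz_comp`, `dzb_comp`): the inverse of `h ↦ a h + b conj h` is `k ↦ (conj a k - b conj k) / (|a|² - |b|²)`. -/
theorem Good.inv_deriv {C b' : ℝ} {μ F G : ℂ → ℂ} (h : Good C b' μ F G) (z : ℂ) :
    dz G (F z) = (starRingEnd ℂ) (dz F z) / jac F z ∧ dzb G (F z) = -dzb F z / jac F z := by
  have hG : DifferentiableAt ℝ G (F z) := (h.cG.differentiable (by simp)) _
  have hF : DifferentiableAt ℝ F z := (h.cF.differentiable (by simp)) _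
  have h1 := dz_comp hG hF
  have h2 := dzb_comp hG hF
  have h3 : (fun z => G (F z)) = fun z => z := funext h.GF
  rw [h3, dz_id] at h1
  rw [h3, dzb_id] at h2
  have hJ : ((jac F z : ℝ) : ℂ) ≠ 0 := by
    exact_mod_cast C0a_jac_ne h z
  have hc := C0a_jac_cast F z
  constructor
  · rw [eq_div_iff hJ, hc]
    linear_combination (-(starRingEnd ℂ) (dz F z)) * h1 + (starRingEnd ℂ) (dzb F z) * h2
  · rw [eq_div_iff hJ, hc]
    linear_combination (dzb F z) * h1 - (dz F z) * h2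

theorem Good.jac_pos {C b' : ℝ} {μ F G : ℂ → ℂ} (h : Good C b' μ F G) (hμ : ∀ z, ‖μ z‖ < 1)
    (z : ℂ) : 0 < jac F z := by
  unfold jac
  rw [h.bel, norm_mul]
  have h1 := hμ z
  have h2 : 0 < ‖dz F z‖ := norm_pos_iff.2 (h.nz z)
  have h3 := norm_nonneg (μ z)
  have h4 : ‖μ z‖ * ‖dz F z‖ < ‖dz F z‖ := by nlinarith
  have h5 : 0 ≤ ‖μ z‖ * ‖dz F z‖ := by positivity
  nlinarith

/-- `‖DF‖² = K jac F` -/
theorem Good.norm_sq {C b' : ℝ} {μ F G : ℂ → ℂ} (h : Good C b' μ F G) (hμ : ∀ z, ‖μ z‖ < 1)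
    (z : ℂ) : ‖fderiv ℝ F z‖ ^ 2 = kap ‖μ z‖ * jac F z := by
  rw [norm_fderiv]
  unfold jac kap
  rw [h.bel, norm_mul]
  have h1 : 1 - ‖μ z‖ ≠ 0 := by
    have := hμ z
    linarith
  field_simp
  ring

/-- PROOF: `‖DG (F z)‖ = (|F_z| + |F_zb|) / jac F z`. -/
theorem Good.norm_sq_inv {C b' : ℝ} {μ F G : ℂ → ℂ} (h : Good C b' μ F G) (hμ : ∀ z, ‖μ z‖ < 1)
    (z : ℂ) : ‖fderiv ℝ G (F z)‖ ^ 2 * jac F z = kap ‖μ z‖ := by
  have hJ : 0 < jac F z := Good.jac_pos h hμ z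
  obtain ⟨h1, h2⟩ := Good.inv_deriv h z
  have h3 := Good.norm_sq h hμ z
  rw [norm_fderiv] at h3
  rw [norm_fderiv, h1, h2, norm_div, norm_div, norm_neg, Complex.norm_conj, Complex.norm_real,
    Real.norm_eq_abs, abs_of_pos hJ, ← add_div, div_pow, h3]
  field_simp

end

end Pool.B2F
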