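import Pool.Agent.Lib.MP_b2f128_an.Base
import Pool.Agent.Lib.MP_b2f128_an.A01a
import Pool.Agent.Lib.MP_b2f128_an.A02a
import Pool.Agent.Lib.MP_b2f128_an.C0a

/-!
# MP_b2f128_an, part C0b (very weak solutions)
-/

open Complex MeasureTheory Set Filter Topology
open scoped ContDiff

namespace Pool.B2F

noncomputable section

theorem C0b_hasFDeriv {C b' : ℝ} {μ F G : ℂ → ℂ} (h : Good C b' μ F G) (z : ℂ) :
    HasFDerivAt F (fderiv ℝ F z) z := (h.cF.differentiable (by simp) z).hasFDerivAt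

theorem C0b_inj {C b' : ℝ} {μ F G : ℂ → ℂ} (h : Good C b' μ F G) : Function.Injective F :=
  Function.LeftInverse.injective h.GF

theorem C0b_surj {C b' : ℝ} {μ F G : ℂ → ℂ} (h : Good C b' μ F G) : Function.Surjective F :=
  Function.RightInverse.surjective h.FG

theorem C0b_det {C b' : ℝ} {μ F G : ℂ → ℂ} (h : Good C b' μ F G)
    (hμ : ∀ z, ‖μ z‖ < 1) (z : ℂ) : |(fderiv ℝ F z).det| = jac F z := by
  rw [det_fderiv, abs_of_pos (h.jac_pos hμ z)]

theorem C0b_jac_cont {C b' : ℝ} {μ F G : ℂ → ℂ} (h : Good C b' μ F G) :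
    Continuous (jac F) := by
  have h1 := (dz_smooth h.cF).continuous
  have h2 := (dzb_smooth h.cF).continuous
  exact (h1.norm.pow 2).sub (h2.norm.pow 2)

/-- change of variables, nonnegative functions. PROOF: `MeasureTheory.lintegral_image_eq_lintegral_abs_det_fderiv_mul`, `det_fderiv`. -/
theorem Good.lintegral_image {C b' : ℝ} {μ F G : ℂ → ℂ} (h : Good C b' μ F G)
    (hμ : ∀ z, ‖μ z‖ < 1) {A : Set ℂ} (hA : MeasurableSet A) (g : ℂ → ENNReal) :
    ∫⁻ w in F '' A, g w = ∫⁻ z in A, ENNReal.ofReal (jac F z) * g (F z) := by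
  rw [lintegral_image_eq_lintegral_abs_det_fderiv_mul volume hA
    (fun z _ => (C0b_hasFDeriv h z).hasFDerivWithinAt) (C0b_inj h).injOn g]
  simp only [C0b_det h hμ]

theorem Good.volume_image {C b' : ℝ} {μ F G : ℂ → ℂ} (h : Good C b' μ F G)
    (hμ : ∀ z, ‖μ z‖ < 1) {A : Set ℂ} (hA : MeasurableSet A) (hA1 : A ⊆ Metric.ball 0 1) :
    (volume (F '' A)).toReal = ∫ z in A, jac F z := by
  have h1 := Good.lintegral_image h hμ hA (fun _ => 1)
  rw [setLIntegral_one] at h1
  simp only [mul_one] at h1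
  rw [h1, integral_eq_lintegral_of_nonneg_ae
    (Eventually.of_forall fun z => (h.jac_pos hμ z).le)
    (C0b_jac_cont h).aestronglyMeasurable]

/-- change of variables, integrable functions -/
theorem Good.integral_comp {C b' : ℝ} {μ F G : ℂ → ℂ} (h : Good C b' μ F G)
    (hμ : ∀ z, ‖μ z‖ < 1) (g : ℂ → ℂ) : ∫ w, g w = ∫ z, (jac F z : ℂ) * g (F z) := by
  have h1 := integral_image_eq_integral_abs_det_fderiv_smul volume MeasurableSet.univ
    (fun z _ => (C0b_hasFDeriv h z).hasFDerivWithinAt) (C0b_inj h).injOn g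
  rw [image_univ, (C0b_surj h).range_eq, setIntegral_univ, setIntegral_univ] at h1
  rw [h1]
  refine integral_congr_ae (Eventually.of_forall fun z => ?_)
  simp only [C0b_det h hμ, Complex.real_smul]

end

end Pool.B2F
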