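import Pool.Agent.Lib.MP_b2f128_an.Base
import Pool.Agent.Lib.MP_b2f128_an.A02b
import Pool.Agent.Lib.MP_b2f128_an.A19
import Pool.Agent.Lib.MP_b2f128_an.C0a
import Pool.Agent.Lib.MP_b2f128_an.C0b

/-!
# MP_b2f128_an, part C0c (very weak solutions)
-/

open Complex MeasureTheory Set Filter Topology
open scoped ContDiff

namespace Pool.B2F

noncomputable section

theorem C0c_kap_cont {μ : ℂ → ℂ} (hc : Continuous μ) (h1 : ∀ z, ‖μ z‖ < 1) :
    Continuous fun z => kap ‖μ z‖ := by
  unfold kap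
  refine (continuous_const.add hc.norm).div (continuous_const.sub hc.norm) fun z => ?_
  have := h1 z
  exact (by linarith : 0 < 1 - ‖μ z‖).ne'

theorem C0c_kap_nonneg {t : ℝ} (h0 : 0 ≤ t) (h1 : t < 1) : 0 ≤ kap t := by
  unfold kap
  exact div_nonneg (by linarith) (by linarith)

theorem C0c_key {C b' : ℝ} {μ F G : ℂ → ℂ} (h : Good C b' μ F G) (hμ : ∀ z, ‖μ z‖ < 1)
    (w : ℂ) (R : ℝ) : ∫ z in Metric.ball w R, ‖fderiv ℝ G z‖ ^ 2 =
      ∫ z in F ⁻¹' Metric.ball w R, kap ‖μ z‖ := by
  have hm : MeasurableSet (F ⁻¹' Metric.ball w R) :=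
    (Metric.isOpen_ball.preimage h.cF.continuous).measurableSet
  have h1 := h.integral_comp hμ (fun u =>
    (((Metric.ball w R).indicator (fun u => ‖fderiv ℝ G u‖ ^ 2) u : ℝ) : ℂ))
  have h2 : ∀ z, (jac F z : ℂ) *
      (((Metric.ball w R).indicator (fun u => ‖fderiv ℝ G u‖ ^ 2) (F z) : ℝ) : ℂ) =
      (((F ⁻¹' Metric.ball w R).indicator (fun z => kap ‖μ z‖) z : ℝ) : ℂ) := by
    intro z
    by_cases hz : F z ∈ Metric.ball w R
    · rw [indicator_of_mem hz, indicator_of_mem (show z ∈ F ⁻¹' Metric.ball w R from hz),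
        ← Complex.ofReal_mul, mul_comm, h.norm_sq_inv hμ z]
    · rw [indicator_of_notMem hz, indicator_of_notMem (show z ∉ F ⁻¹' Metric.ball w R from hz)]
      simp
  simp only [h2] at h1
  rw [integral_complex_ofReal, integral_complex_ofReal, Complex.ofReal_inj,
    integral_indicator Metric.isOpen_ball.measurableSet, integral_indicator hm] at h1
  exact h1

/-- energy of the inverse map. PROOF: `∫_B ‖DG‖² = ∫_{G(B)} kap ‖μ‖` (`norm_sq_inv`); `kap ‖μ‖ = 1` off the unit disc, `G(B)` lies in a disc of radius `R + C` and `∫_{ball 0 1} kap ‖μ‖ ≤ M / b` (`t ≤ exp t`). -/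
theorem Good.energy_inv {C b b' M : ℝ} {μ F G : ℂ → ℂ} (hb : 0 < b) (h : Good C b' μ F G)
    (hμ : Adm b M μ) (w : ℂ) {R : ℝ} (hR : 0 ≤ R) :
    ∫ z in Metric.ball w R, ‖fderiv ℝ G z‖ ^ 2 ≤ M / b + Real.pi * (R + C) ^ 2 := by
  rw [C0c_key h hμ.lt w R]
  set S := F ⁻¹' Metric.ball w R with hS
  have hm : MeasurableSet S := (Metric.isOpen_ball.preimage h.cF.continuous).measurableSet
  have hkc : Continuous fun z => kap ‖μ z‖ := C0c_kap_cont hμ.smooth.continuous hμ.lt
  have hk0 : ∀ z, 0 ≤ kap ‖μ z‖ := fun z => C0c_kap_nonneg (norm_nonneg _) (hμ.lt z)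
  have hC : 0 ≤ C := (norm_nonneg _).trans (h.near 0)
  have hSb : S ⊆ Metric.ball w (R + C) := by
    intro z hz
    have h1 : Dist.dist (F z) w < R := hz
    rw [Metric.mem_ball]
    have h2 : Dist.dist z (F z) ≤ C := by
      rw [dist_comm, dist_eq_norm]
      exact h.near z
    have := dist_triangle z (F z) w
    linarith
  have hint : ∀ x : ℂ, ∀ r : ℝ, IntegrableOn (fun z => kap ‖μ z‖) (Metric.ball x r) := fun x r =>
    (hkc.continuousOn.integrableOn_compact (isCompact_closedBall x r)).mono_set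
      Metric.ball_subset_closedBall
  have hintS : IntegrableOn (fun z => kap ‖μ z‖) S := (hint w (R + C)).mono_set hSb
  have hB : MeasurableSet (Metric.ball (0 : ℂ) 1) := Metric.isOpen_ball.measurableSet
  have hsplit := integral_inter_add_sdiff (μ := volume) hB hintS
  rw [← hsplit]
  have h1 : ∫ z in S ∩ Metric.ball (0 : ℂ) 1, kap ‖μ z‖ ≤ M / b := by
    calc ∫ z in S ∩ Metric.ball (0 : ℂ) 1, kap ‖μ z‖
        ≤ ∫ z in Metric.ball (0 : ℂ) 1, kap ‖μ z‖ :=
          setIntegral_mono_set (hint 0 1) (ae_of_all _ fun z => hk0 z)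
            (HasSubset.Subset.eventuallyLE inter_subset_right)
      _ ≤ ∫ z in Metric.ball (0 : ℂ) 1, Real.exp (b * kap ‖μ z‖) / b := by
          refine setIntegral_mono (hint 0 1) ?_ fun z => ?_
          · have hc : Continuous fun z => Real.exp (b * kap ‖μ z‖) / b :=
              (Real.continuous_exp.comp (continuous_const.mul hkc)).div_const b
            exact (hc.continuousOn.integrableOn_compact (isCompact_closedBall 0 1)).mono_set
              Metric.ball_subset_closedBall
          · change kap ‖μ z‖ ≤ Real.exp (b * kap ‖μ z‖) / b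
            rw [le_div_iff₀ hb]
            have := Real.add_one_le_exp (b * kap ‖μ z‖)
            linarith
      _ = (∫ z in Metric.ball (0 : ℂ) 1, Real.exp (b * kap ‖μ z‖)) / b := integral_div _ _
      _ ≤ M / b := div_le_div_of_nonneg_right hμ.int hb.le
  have h2 : ∫ z in S \ Metric.ball (0 : ℂ) 1, kap ‖μ z‖ ≤ Real.pi * (R + C) ^ 2 := by
    have h3 : ∫ z in S \ Metric.ball (0 : ℂ) 1, kap ‖μ z‖ =
        ∫ z in S \ Metric.ball (0 : ℂ) 1, (1 : ℝ) := by
      refine setIntegral_congr_fun (hm.diff hB) fun z hz => ?_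
      have h4 : μ z = 0 := by
        by_contra hne
        have h5 := hμ.supp (subset_tsupport μ hne)
        rw [Metric.mem_closedBall] at h5
        apply hz.2
        rw [Metric.mem_ball]
        linarith
      simp [h4, kap]
    rw [h3, setIntegral_const, smul_eq_mul, mul_one]
    have h6 : volume.real (S \ Metric.ball (0 : ℂ) 1) ≤ volume.real (Metric.ball w (R + C)) :=
      measureReal_mono (sdiff_subset.trans hSb) Metric.isBounded_ball.measure_lt_top.ne
    refine h6.trans (le_of_eq ?_)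
    rw [Measure.real, Complex.volume_ball, ENNReal.toReal_mul, ENNReal.toReal_pow,
      ENNReal.toReal_ofReal (by linarith)]
    simp [mul_comm]
  exact add_le_add h1 h2

end

end Pool.B2F
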