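import Pool.Agent.Lib.MP_b2f128_an.Base
import Pool.Agent.Lib.MP_b2f128_an.A01c
import Pool.Agent.Lib.MP_b2f128_an.A07
import Pool.Agent.Lib.MP_b2f128_an.C0a
import Pool.Agent.Lib.MP_b2f128_an.C0b

/-!
# MP_b2f128_an, part C1 (very weak solutions)
-/

open Complex MeasureTheory Set Filter Topology
open scoped ContDiff

namespace Pool.B2F

noncomputable section

theorem C1_eq (ψ : ℂ → ℂ) (z : ℂ) : cau ψ z = (1 / Real.pi : ℂ) * ∫ w, ψ w / (z - w) := by
  rw [cau, ← integral_sub_left_eq_self (fun w => ψ w / (z - w)) volume z]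
  simp

/-- PROOF. `χ ∘ G ∈ Cc univ`; `cau_dzb` at the point `F z0`; `dzb (χ ∘ G) (F z) = (dzb χ z - μ z dz χ z) dz F z / jac F z` (`dzb_comp`, `inv_deriv`); substitute `w = F z` (`integral_comp`). -/
theorem Good.repr {C b' : ℝ} {μ F G : ℂ → ℂ} (h : Good C b' μ F G) (hμ : ∀ z, ‖μ z‖ < 1)
    {χ : ℂ → ℂ} (hχ : Cc univ χ) (z0 : ℂ) :
    χ z0 = (1 / Real.pi : ℂ) * ∫ z, (dzb χ z - μ z * dz χ z) * dz F z / (F z0 - F z) := by
  have hψ : Cc univ (fun w => χ (G w)) := by
    refine ⟨hχ.smooth.comp h.cG, ?_, subset_univ _⟩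
    refine HasCompactSupport.intro (hχ.cpt.image h.cF.continuous) fun w hw => ?_
    by_contra hne
    refine hw ⟨G w, subset_tsupport _ ?_, h.FG w⟩
    exact hne
  have h1 := congrFun (cau_dzb hψ) (F z0)
  rw [h.GF, C1_eq, Good.integral_comp h hμ] at h1
  rw [← h1]
  congr 1
  refine integral_congr_ae (Eventually.of_forall fun z => ?_)
  simp only
  have hG : DifferentiableAt ℝ G (F z) := (h.cG.differentiable (by simp)) _
  have hx : DifferentiableAt ℝ χ (G (F z)) := (hχ.smooth.differentiable (by simp)) _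
  rw [dzb_comp hx hG, h.GF, (Good.inv_deriv h z).1, (Good.inv_deriv h z).2, h.bel, map_div₀,
    Complex.conj_conj, Complex.conj_ofReal]
  have hJ : (jac F z : ℂ) ≠ 0 := by
    exact_mod_cast (Good.jac_pos h hμ z).ne'
  field_simp
  ring

end

end Pool.B2F
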