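import Pool.Agent.Lib.MP_b2f128_an.Base
import Pool.Agent.Lib.MP_b2f128_an.A02b

/-!
# MP_b2f128_an, part C4 (very weak solutions)
-/

open Complex MeasureTheory Set Filter Topology
open scoped ContDiff

namespace Pool.B2F

noncomputable section

theorem C4_csAux {X Y Z : ℝ} (hX : 0 ≤ X) (hY : 0 ≤ Y)
    (h : ∀ t : ℝ, 0 < t → Z ≤ (t * X + t⁻¹ * Y) / 2) : Z ≤ Real.sqrt (X * Y) := by
  rw [Real.sqrt_mul hX]
  have hx0 := Real.sqrt_nonneg X
  have hy0 := Real.sqrt_nonneg Y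
  have hx := Real.mul_self_sqrt hX
  have hy := Real.mul_self_sqrt hY
  set x := Real.sqrt X with hxd
  set y := Real.sqrt Y with hyd
  refine le_of_forall_pos_le_add (fun ε hε => ?_)
  set η : ℝ := ε / (x + y + 1) with hη
  have hη0 : 0 < η := by positivity
  have h1 := h ((y + η) / (x + η)) (by positivity)
  have h2 : (y + η) / (x + η) * X ≤ (y + η) * x := by
    rw [div_mul_eq_mul_div, div_le_iff₀ (by positivity), ← hx]
    have : 0 ≤ (y + η) * x * η := by positivity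
    nlinarith
  have h3 : ((y + η) / (x + η))⁻¹ * Y ≤ (x + η) * y := by
    rw [inv_div, div_mul_eq_mul_div, div_le_iff₀ (by positivity), ← hy]
    have : 0 ≤ (x + η) * y * η := by positivity
    nlinarith
  have h4 : η * (x + y) ≤ ε := by
    rw [hη, div_mul_eq_mul_div, div_le_iff₀ (by positivity)]
    nlinarith
  nlinarith

theorem C4_int {f : ℂ → ℝ} (hf : Continuous f) {E : Set ℂ} (hE : E ⊆ Metric.ball 0 1) :
    IntegrableOn f E volume :=
  (hf.continuousOn.integrableOn_compact (isCompact_closedBall 0 1)).mono_set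
    (hE.trans Metric.ball_subset_closedBall)

theorem C4_cs {K J : ℂ → ℝ} (hK : Continuous K) (hJ : Continuous J) (hK0 : ∀ z, 0 ≤ K z)
    (hJ0 : ∀ z, 0 ≤ J z) {E : Set ℂ} (hE : E ⊆ Metric.ball 0 1) :
    ∫ z in E, Real.sqrt (K z * J z) ≤
      Real.sqrt ((∫ z in E, K z) * ∫ z in E, J z) := by
  refine C4_csAux (integral_nonneg hK0) (integral_nonneg hJ0) (fun t ht => ?_)
  have h1 : (t * ∫ z in E, K z) + t⁻¹ * ∫ z in E, J z = ∫ z in E, (t * K z + t⁻¹ * J z) := by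
    rw [integral_add ((C4_int hK hE).const_mul t) ((C4_int hJ hE).const_mul t⁻¹),
      integral_const_mul, integral_const_mul]
  rw [h1, ← integral_div]
  refine integral_mono (C4_int (hK.mul hJ).sqrt hE)
    (C4_int (((hK.const_mul t).add (hJ.const_mul t⁻¹)).div_const 2) hE) (fun z => ?_)
  show Real.sqrt (K z * J z) ≤ (t * K z + t⁻¹ * J z) / 2
  have ha : 0 ≤ t * K z := mul_nonneg ht.le (hK0 z)
  have hb : 0 ≤ t⁻¹ * J z := mul_nonneg (inv_nonneg.2 ht.le) (hJ0 z)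
  have e : K z * J z = (t * K z) * (t⁻¹ * J z) := by
    field_simp
  rw [e]
  refine Real.sqrt_le_iff.2 ⟨by positivity, ?_⟩
  nlinarith [sq_nonneg (t * K z - t⁻¹ * J z)]

/-- part (1) -/
theorem C4_high {b M θ : ℝ} (hb : 0 < b) {K : ℂ → ℝ} (hK : Continuous K)
    (hM : ∫ z in Metric.ball (0 : ℂ) 1, Real.exp (b * K z) ≤ M) {E : Set ℂ}
    (hEm : MeasurableSet E) (hE : E ⊆ Metric.ball 0 1) (hθ : ∀ z ∈ E, θ ≤ K z) :
    ∫ z in E, K z ≤ 2 / b * Real.exp (-(b * θ / 2)) * M := by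
  have hexp : Continuous (fun z => Real.exp (b * K z)) := (hK.const_mul b).rexp
  calc ∫ z in E, K z ≤ ∫ z in E, (2 / b * Real.exp (-(b * θ / 2))) * Real.exp (b * K z) := by
        refine setIntegral_mono_on (C4_int hK hE) (C4_int (hexp.const_mul _) hE) hEm
          (fun z hz => ?_)
        have h1 : b / 2 * K z ≤ Real.exp (b / 2 * K z) :=
          (le_add_of_nonneg_right zero_le_one).trans (Real.add_one_le_exp _)
        have h2 : K z ≤ 2 / b * Real.exp (b / 2 * K z) := by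
          have := mul_le_mul_of_nonneg_left h1 (by positivity : 0 ≤ 2 / b)
          have e : 2 / b * (b / 2 * K z) = K z := by field_simp
          rwa [e] at this
        have h3 : Real.exp (b / 2 * K z) ≤ Real.exp (-(b * θ / 2)) * Real.exp (b * K z) := by
          rw [← Real.exp_add]
          apply Real.exp_le_exp.2
          have := mul_le_mul_of_nonneg_left (hθ z hz) (by positivity : 0 ≤ b / 2)
          linarith
        calc K z ≤ 2 / b * Real.exp (b / 2 * K z) := h2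
          _ ≤ 2 / b * (Real.exp (-(b * θ / 2)) * Real.exp (b * K z)) :=
              mul_le_mul_of_nonneg_left h3 (by positivity)
          _ = _ := by ring
    _ = (2 / b * Real.exp (-(b * θ / 2))) * ∫ z in E, Real.exp (b * K z) :=
        integral_const_mul _ _
    _ ≤ (2 / b * Real.exp (-(b * θ / 2))) * ∫ z in Metric.ball (0 : ℂ) 1, Real.exp (b * K z) := by
        refine mul_le_mul_of_nonneg_left ?_ (by positivity)
        exact setIntegral_mono_set (C4_int hexp subset_rfl)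
          (Filter.Eventually.of_forall (fun z => (Real.exp_pos _).le)) hE.eventuallyLE
    _ ≤ _ := mul_le_mul_of_nonneg_left hM (by positivity)

/-- parts (2), (3) -/
theorem C4_low {θ : ℝ} (hθ0 : 0 ≤ θ) {K : ℂ → ℝ} (hK : Continuous K) {E A : Set ℂ}
    (hEm : MeasurableSet E) (hEA : E ⊆ A) (hA : A ⊆ Metric.ball 0 1) (hθ : ∀ z ∈ E, K z ≤ θ) :
    ∫ z in E, K z ≤ θ * (volume A).toReal := by
  have hfin : volume A ≠ ⊤ := ne_top_of_le_ne_top
    (measure_ball_lt_top (x := (0 : ℂ)) (r := 1)).ne (measure_mono hA)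
  calc ∫ z in E, K z ≤ ∫ _z in E, θ := by
        refine setIntegral_mono_on (C4_int hK (hEA.trans hA))
          (C4_int continuous_const (hEA.trans hA)) hEm hθ
    _ = (volume E).toReal * θ := by
        rw [setIntegral_const]
        rfl
    _ ≤ θ * (volume A).toReal := by
        rw [mul_comm]
        exact mul_le_mul_of_nonneg_left (ENNReal.toReal_mono hfin (measure_mono hEA)) hθ0

/-- telescoping -/
theorem C4_tele (H : ℕ → ℝ) (hH : Antitone H) (hH0 : ∀ i, 0 ≤ H i) (n l : ℕ) :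
    ∑ i ∈ Finset.range n, (H i - H (i + l)) ≤ l * H 0 := by
  have h1 : ∀ i, H i - H (i + l) = ∑ k ∈ Finset.range l, (H (i + k) - H (i + (k + 1))) := by
    intro i
    rw [Finset.sum_range_sub' (fun k => H (i + k))]
    simp
  rw [Finset.sum_congr rfl (fun i _ => h1 i), Finset.sum_comm]
  calc ∑ k ∈ Finset.range l, ∑ i ∈ Finset.range n, (H (i + k) - H (i + (k + 1)))
      ≤ ∑ _k ∈ Finset.range l, H 0 := by
        refine Finset.sum_le_sum (fun k _ => ?_)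
        have e : ∀ i, H (i + k) - H (i + (k + 1)) = (fun i => H (i + k)) i -
            (fun i => H (i + k)) (i + 1) := by
          intro i
          simp only
          congr 2
          ring
        rw [Finset.sum_congr rfl (fun i _ => e i), Finset.sum_range_sub']
        have h2 : H (0 + k) ≤ H 0 := hH (Nat.zero_le _)
        have h3 := hH0 (n + k)
        linarith
    _ = l * H 0 := by rw [Finset.sum_const, Finset.card_range, nsmul_eq_mul]

/-- asymptotics (b): the sets are small -/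
theorem C4_asA {γ S0 : ℝ} (hS : 0 ≤ S0) :
    ∀ᶠ j : ℕ in atTop, S0 * ((j : ℝ) ^ (1 + γ) / 4 ^ j) ≤ Real.exp (-(j : ℝ)) := by
  have hc : 0 < Real.log 4 - 1 := by
    have h1 : Real.exp 1 < 4 := by
      have := Real.exp_one_lt_d9
      linarith
    have h2 := Real.log_lt_log (Real.exp_pos 1) h1
    rw [Real.log_exp] at h2
    linarith
  have h1 := (tendsto_rpow_mul_exp_neg_mul_atTop_nhds_zero (1 + γ) (Real.log 4 - 1) hc).comp
    tendsto_natCast_atTop_atTop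
  have h2 : Tendsto (fun j : ℕ => S0 * ((j : ℝ) ^ (1 + γ) *
      Real.exp (-(Real.log 4 - 1) * (j : ℝ)))) atTop (𝓝 (S0 * 0)) := h1.const_mul S0
  rw [mul_zero] at h2
  filter_upwards [h2.eventually (gt_mem_nhds (show (0 : ℝ) < 1 by norm_num))] with j hj
  have e1 : (4 : ℝ) ^ j = Real.exp (Real.log 4 * j) := by
    rw [mul_comm, Real.exp_nat_mul, Real.exp_log (by norm_num)]
  have e2 : Real.exp (-(Real.log 4 - 1) * (j : ℝ)) =
      Real.exp (-(Real.log 4 * j)) * Real.exp (j : ℝ) := by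
    rw [← Real.exp_add]
    congr 1
    ring
  rw [e1, div_eq_mul_inv, ← Real.exp_neg]
  rw [e2] at hj
  rw [Real.exp_neg (j : ℝ), ← one_div (Real.exp (j : ℝ)), le_div_iff₀ (Real.exp_pos _)]
  refine le_trans (le_of_eq ?_) hj.le
  ring

theorem C4_asB {C ε : ℝ} (hε : 0 < ε) :
    ∀ᶠ j : ℕ in atTop, C * Real.exp (-(j : ℝ)) ≤ ε := by
  have h1 := Real.tendsto_exp_neg_atTop_nhds_zero.comp (tendsto_natCast_atTop_atTop (R := ℝ))
  have h2 : Tendsto (fun j : ℕ => C * Real.exp (-(j : ℝ))) atTop (𝓝 (C * 0)) := h1.const_mul C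
  rw [mul_zero] at h2
  filter_upwards [h2.eventually (gt_mem_nhds hε)] with j hj
  exact hj.le

theorem C4_asC {C p δ ε : ℝ} (hC : 0 ≤ C) (hδ : 0 < δ) (hε : 0 < ε) :
    ∀ᶠ j : ℕ in atTop, C * ((j : ℝ) ^ p * (2 ^ ⌈(j : ℝ) ^ δ⌉₊)⁻¹) ≤ ε := by
  have h1 := ((tendsto_rpow_mul_exp_neg_mul_atTop_nhds_zero (p / δ) (Real.log 2)
    (Real.log_pos (by norm_num))).comp (tendsto_rpow_atTop hδ)).comp
    (tendsto_natCast_atTop_atTop (R := ℝ))
  have h2 := h1.const_mul C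
  rw [mul_zero] at h2
  filter_upwards [h2.eventually (gt_mem_nhds hε), eventually_ge_atTop 1] with j hj hj1
  refine le_trans ?_ hj.le
  have hj0 : (0 : ℝ) ≤ j := Nat.cast_nonneg _
  refine mul_le_mul_of_nonneg_left ?_ hC
  simp only [Function.comp]
  have e1 : ((j : ℝ) ^ δ) ^ (p / δ) = (j : ℝ) ^ p := by
    rw [← Real.rpow_mul hj0]
    congr 1
    field_simp
  rw [e1]
  refine mul_le_mul_of_nonneg_left ?_ (Real.rpow_nonneg hj0 _)
  have e2 : Real.exp (-Real.log 2 * (j : ℝ) ^ δ) = (Real.exp (Real.log 2 * (j : ℝ) ^ δ))⁻¹ := by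
    rw [← Real.exp_neg]
    congr 1
    ring
  rw [e2]
  refine inv_anti₀ (Real.exp_pos _) ?_
  have e3 : (2 : ℝ) ^ ⌈(j : ℝ) ^ δ⌉₊ = Real.exp (Real.log 2 * (⌈(j : ℝ) ^ δ⌉₊ : ℝ)) := by
    rw [mul_comm, Real.exp_nat_mul, Real.exp_log (by norm_num)]
  rw [e3]
  apply Real.exp_le_exp.2
  exact mul_le_mul_of_nonneg_left (Nat.le_ceil _) (Real.log_pos (by norm_num)).le

theorem C4_asD {T γ b' δ CF S0 ε : ℝ} (hT : 0 ≤ T) (hδ : 0 < δ) (hδ' : δ < b' - γ)
    (hCF : 0 ≤ CF) (hS : 0 ≤ S0) (hε : 0 < ε) :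
    ∀ᶠ j : ℕ in atTop, Real.sqrt (T * (2 * (j : ℝ)) ^ (2 + γ)) * ((1 / (j : ℝ)) *
      (Real.sqrt S0 * Real.sqrt ((⌈(j : ℝ) ^ δ⌉₊ : ℝ) * (CF * (j : ℝ) ^ (-b'))))) ≤ ε := by
  have h0 : 0 < b' - γ - δ := by linarith
  have h1 : Tendsto (fun j : ℕ => (j : ℝ) ^ (-(b' - γ - δ))) atTop (𝓝 0) :=
    (tendsto_rpow_neg_atTop h0).comp tendsto_natCast_atTop_atTop
  have h2 : Tendsto (fun j : ℕ => Real.sqrt ((T * 2 ^ (2 + γ) * S0 * (2 * CF)) *
      (j : ℝ) ^ (-(b' - γ - δ)))) atTop (𝓝 (Real.sqrt ((T * 2 ^ (2 + γ) * S0 * (2 * CF)) * 0))) :=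
    (h1.const_mul _).sqrt
  rw [mul_zero, Real.sqrt_zero] at h2
  filter_upwards [h2.eventually (gt_mem_nhds hε), eventually_ge_atTop 1] with j hj hj1
  refine le_trans ?_ hj.le
  have hj0 : (0 : ℝ) < j := by exact_mod_cast hj1
  have hj1' : (1 : ℝ) ≤ j := by exact_mod_cast hj1
  have hl : (⌈(j : ℝ) ^ δ⌉₊ : ℝ) ≤ 2 * (j : ℝ) ^ δ := by
    have h3 := Nat.ceil_lt_add_one (Real.rpow_nonneg hj0.le δ)
    have h4 : (1 : ℝ) ≤ (j : ℝ) ^ δ := Real.one_le_rpow hj1' hδ.le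
    linarith
  have hb : (0 : ℝ) ≤ (j : ℝ) ^ (-b') := Real.rpow_nonneg hj0.le _
  have e : Real.sqrt ((T * 2 ^ (2 + γ) * S0 * (2 * CF)) * (j : ℝ) ^ (-(b' - γ - δ))) =
      Real.sqrt (T * (2 * (j : ℝ)) ^ (2 + γ)) * ((1 / (j : ℝ)) *
      (Real.sqrt S0 * Real.sqrt ((2 * (j : ℝ) ^ δ) * (CF * (j : ℝ) ^ (-b'))))) := by
    have e1 : (1 / (j : ℝ)) = Real.sqrt ((j : ℝ) ^ (-2 : ℝ)) := by
      rw [Real.sqrt_eq_rpow, ← Real.rpow_mul hj0.le]
      norm_num
      rw [Real.rpow_neg_one]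
    rw [e1, ← Real.sqrt_mul hS, ← Real.sqrt_mul (Real.rpow_nonneg hj0.le _),
      ← Real.sqrt_mul (by positivity)]
    congr 1
    rw [Real.mul_rpow (by norm_num) hj0.le]
    have e2 : (j : ℝ) ^ (-(b' - γ - δ)) = (j : ℝ) ^ (2 + γ) * (j : ℝ) ^ (-2 : ℝ) * (j : ℝ) ^ δ *
        (j : ℝ) ^ (-b') := by
      rw [← Real.rpow_add hj0, ← Real.rpow_add hj0, ← Real.rpow_add hj0]
      congr 1
      ring
    rw [e2]
    ring
  rw [e]
  gcongr

theorem C4_split {b M CF θ : ℝ} (hb : 0 < b) (hθ : 0 ≤ θ) {K J : ℂ → ℝ} (hK : Continuous K)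
    (hJ : Continuous J) (hK0 : ∀ z, 0 ≤ K z) (hJ0 : ∀ z, 0 ≤ J z)
    (hM : ∫ z in Metric.ball (0 : ℂ) 1, Real.exp (b * K z) ≤ M)
    (hCF : ∫ z in Metric.ball (0 : ℂ) 1, J z ≤ CF) {A B : Set ℂ} (hAm : MeasurableSet A)
    (hBm : MeasurableSet B) (hBA : B ⊆ A) (hA : A ⊆ Metric.ball 0 1) :
    ∫ z in A, Real.sqrt (K z * J z) ≤
      Real.sqrt ((2 / b * Real.exp (-(b * θ / 2)) * M) * CF) +
      (Real.sqrt ((θ * (volume B).toReal) * CF) +
      Real.sqrt ((θ * (volume A).toReal) * ((∫ z in A, J z) - ∫ z in B, J z))) := by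
  have ht : MeasurableSet {z : ℂ | K z ≤ θ} := measurableSet_le hK.measurable measurable_const
  have hf : Continuous (fun z => Real.sqrt (K z * J z)) := (hK.mul hJ).sqrt
  have hM0 : 0 ≤ M := le_trans (integral_nonneg (fun z => (Real.exp_pos _).le)) hM
  have hCF0 : 0 ≤ CF := le_trans (integral_nonneg hJ0) hCF
  have hJle : ∀ E : Set ℂ, E ⊆ Metric.ball 0 1 → ∫ z in E, J z ≤ CF := fun E hE =>
    (setIntegral_mono_set (C4_int hJ subset_rfl) (Filter.Eventually.of_forall hJ0)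
      hE.eventuallyLE).trans hCF
  rw [← integral_inter_add_sdiff ht (C4_int hf hA), add_comm (∫ z in A ∩ _, _) _,
    ← integral_inter_add_sdiff hBm (C4_int hf (inter_subset_left.trans hA))]
  refine add_le_add ?_ (add_le_add ?_ ?_)
  · refine (C4_cs hK hJ hK0 hJ0 (sdiff_subset.trans hA)).trans (Real.sqrt_le_sqrt ?_)
    refine mul_le_mul (C4_high hb hK hM (hAm.diff ht) (sdiff_subset.trans hA) ?_)
      (hJle _ (sdiff_subset.trans hA)) (integral_nonneg hJ0) (by positivity)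
    intro z hz
    exact (not_le.1 hz.2).le
  · refine (C4_cs hK hJ hK0 hJ0 (inter_subset_left.trans (inter_subset_left.trans hA))).trans
      (Real.sqrt_le_sqrt ?_)
    refine mul_le_mul (C4_low hθ hK ((hAm.inter ht).inter hBm) inter_subset_right
      (hBA.trans hA) ?_) (hJle _ (inter_subset_left.trans (inter_subset_left.trans hA)))
      (integral_nonneg hJ0) (by positivity)
    intro z hz
    exact hz.1.2
  · refine (C4_cs hK hJ hK0 hJ0 (sdiff_subset.trans (inter_subset_left.trans hA))).trans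
      (Real.sqrt_le_sqrt ?_)
    refine mul_le_mul (C4_low hθ hK ((hAm.inter ht).diff hBm)
      (sdiff_subset.trans inter_subset_left) hA ?_) ?_ (integral_nonneg hJ0) (by positivity)
    · intro z hz
      exact hz.1.2
    · have h1 := integral_inter_add_sdiff hBm (C4_int hJ hA)
      rw [inter_eq_right.2 hBA] at h1
      have h2 : ∫ z in (A ∩ {z : ℂ | K z ≤ θ}) \ B, J z ≤ ∫ z in A \ B, J z :=
        setIntegral_mono_set (C4_int hJ (sdiff_subset.trans hA))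
          (Filter.Eventually.of_forall hJ0)
          (sdiff_subset_sdiff_left inter_subset_left).eventuallyLE
      linarith

theorem C4_sq4 (i : ℕ) : Real.sqrt ((4 : ℝ) ^ i) = 2 ^ i := by
  rw [show (4 : ℝ) ^ i = (2 ^ i) ^ 2 by rw [← pow_mul, mul_comm i 2, pow_mul]; norm_num]
  exact Real.sqrt_sq (by positivity)

theorem C4_pow (i : ℕ) (x : ℝ) : (2 : ℝ) ^ i * Real.sqrt x = Real.sqrt (4 ^ i * x) := by
  rw [Real.sqrt_mul (by positivity : (0 : ℝ) ≤ 4 ^ i), C4_sq4]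

/-- the part where `K` is large -/
theorem C4_p1 {b M CF : ℝ} (hb : 0 < b) (hM : 0 ≤ M) (hCF : 0 ≤ CF) {i j : ℕ} (hij : j ≤ i) :
    2 ^ i * Real.sqrt ((2 / b * Real.exp (-(b * (8 / b * i) / 2)) * M) * CF) ≤
      Real.sqrt (2 / b * M * CF) * Real.exp (-(j : ℝ)) := by
  have e1 : b * (8 / b * i) / 2 = 4 * (i : ℝ) := by
    field_simp
    ring
  have e2 : (2 / b * Real.exp (-(b * (8 / b * i) / 2)) * M) * CF =
      (Real.exp (-(2 * (i : ℝ)))) ^ 2 * (2 / b * M * CF) := by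
    rw [e1, ← Real.exp_nat_mul]
    have : ((2 : ℕ) : ℝ) * (-(2 * (i : ℝ))) = -(4 * (i : ℝ)) := by push_cast; ring
    rw [this]
    ring
  rw [e2, Real.sqrt_mul (by positivity), Real.sqrt_sq (Real.exp_pos _).le]
  have h2 : (2 : ℝ) ^ i ≤ Real.exp (i : ℝ) := by
    have h3 : (2 : ℝ) ≤ Real.exp 1 := by
      have := Real.add_one_le_exp (1 : ℝ)
      linarith
    calc (2 : ℝ) ^ i ≤ (Real.exp 1) ^ i := pow_le_pow_left₀ (by norm_num) h3 i
      _ = Real.exp (i : ℝ) := by rw [← Real.exp_nat_mul, mul_one]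
  have h3 : (2 : ℝ) ^ i * Real.exp (-(2 * (i : ℝ))) ≤ Real.exp (-(j : ℝ)) := by
    calc (2 : ℝ) ^ i * Real.exp (-(2 * (i : ℝ))) ≤
          Real.exp (i : ℝ) * Real.exp (-(2 * (i : ℝ))) :=
          mul_le_mul_of_nonneg_right h2 (Real.exp_pos _).le
      _ = Real.exp (-(i : ℝ)) := by
          rw [← Real.exp_add]
          congr 1
          ring
      _ ≤ Real.exp (-(j : ℝ)) := by
          apply Real.exp_le_exp.2
          have : (j : ℝ) ≤ i := by exact_mod_cast hij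
          linarith
  have h4 := mul_le_mul_of_nonneg_right h3 (Real.sqrt_nonneg (2 / b * M * CF))
  linarith

/-- the part in the far set -/
theorem C4_p2 {T γ S0 CF v : ℝ} (hT : 0 ≤ T) (hγ : 0 ≤ γ) (hS : 0 ≤ S0) (hCF : 0 ≤ CF)
    {i j l : ℕ} (hj : 1 ≤ j) (hi : i < 2 * j) (hl : l ≤ j)
    (hv : v ≤ S0 * (((i + l : ℕ) : ℝ) ^ (1 + γ) / 4 ^ (i + l))) :
    2 ^ i * Real.sqrt ((T * i * v) * CF) ≤
      Real.sqrt (T * S0 * CF * 3 ^ (2 + γ)) * ((j : ℝ) ^ ((2 + γ) / 2) * (2 ^ l)⁻¹) := by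
  have hj0 : (0 : ℝ) < j := by exact_mod_cast hj
  have e1 : (2 : ℝ) ^ i * Real.sqrt ((T * i * v) * CF) =
      Real.sqrt (4 ^ i * ((T * i * v) * CF)) := C4_pow i _
  have e2 : Real.sqrt (T * S0 * CF * 3 ^ (2 + γ)) * ((j : ℝ) ^ ((2 + γ) / 2) * (2 ^ l)⁻¹) =
      Real.sqrt ((T * S0 * CF * 3 ^ (2 + γ)) * ((j : ℝ) ^ (2 + γ) * (4 ^ l)⁻¹)) := by
    have q1 : Real.sqrt ((j : ℝ) ^ (2 + γ)) = (j : ℝ) ^ ((2 + γ) / 2) := by
      rw [Real.sqrt_eq_rpow, ← Real.rpow_mul hj0.le]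
      congr 1
      ring
    have q2 : Real.sqrt ((4 : ℝ) ^ l)⁻¹ = (2 ^ l)⁻¹ := by
      rw [Real.sqrt_inv, C4_sq4]
    rw [Real.sqrt_mul (by positivity : 0 ≤ T * S0 * CF * 3 ^ (2 + γ)),
      Real.sqrt_mul (by positivity : 0 ≤ (j : ℝ) ^ (2 + γ)), q1, q2]
  rw [e1, e2]
  apply Real.sqrt_le_sqrt
  have hi' : (i : ℝ) ≤ 3 * j := by
    have : (i : ℝ) ≤ ((3 * j : ℕ) : ℝ) := by exact_mod_cast (by omega)
    push_cast at this
    exact this
  have hil : ((i + l : ℕ) : ℝ) ≤ 3 * j := by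
    have : ((i + l : ℕ) : ℝ) ≤ ((3 * j : ℕ) : ℝ) := by exact_mod_cast (by omega)
    push_cast at this ⊢
    exact this
  have h1 : ((i + l : ℕ) : ℝ) ^ (1 + γ) ≤ (3 * (j : ℝ)) ^ (1 + γ) :=
    Real.rpow_le_rpow (Nat.cast_nonneg _) hil (by linarith)
  have h2 : v ≤ S0 * ((3 * (j : ℝ)) ^ (1 + γ) / 4 ^ (i + l)) := by
    refine hv.trans (mul_le_mul_of_nonneg_left ?_ hS)
    exact div_le_div_of_nonneg_right h1 (by positivity)
  calc (4 : ℝ) ^ i * ((T * i * v) * CF)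
      ≤ 4 ^ i * ((T * (3 * j) * (S0 * ((3 * (j : ℝ)) ^ (1 + γ) / 4 ^ (i + l)))) * CF) := by
        have h3 : T * i * v ≤ T * (3 * j) * (S0 * ((3 * (j : ℝ)) ^ (1 + γ) / 4 ^ (i + l))) := by
          have h4 : 0 ≤ S0 * ((3 * (j : ℝ)) ^ (1 + γ) / 4 ^ (i + l)) := by positivity
          calc T * i * v ≤ T * i * (S0 * ((3 * (j : ℝ)) ^ (1 + γ) / 4 ^ (i + l))) :=
                mul_le_mul_of_nonneg_left h2 (by positivity)
            _ ≤ T * (3 * j) * (S0 * ((3 * (j : ℝ)) ^ (1 + γ) / 4 ^ (i + l))) :=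
                mul_le_mul_of_nonneg_right (mul_le_mul_of_nonneg_left hi' hT) h4
        exact mul_le_mul_of_nonneg_left (mul_le_mul_of_nonneg_right h3 hCF) (by positivity)
    _ = (T * S0 * CF * 3 ^ (2 + γ)) * ((j : ℝ) ^ (2 + γ) * (4 ^ l)⁻¹) := by
        have e3 : (3 : ℝ) ^ (2 + γ) * (j : ℝ) ^ (2 + γ) = (3 * j) * (3 * (j : ℝ)) ^ (1 + γ) := by
          rw [← Real.mul_rpow (by norm_num) hj0.le]
          rw [show (2 + γ) = 1 + (1 + γ) by ring, Real.rpow_add (by positivity), Real.rpow_one]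
        have e4 : (4 : ℝ) ^ i * (1 / 4 ^ (i + l)) = (4 ^ l)⁻¹ := by
          rw [pow_add]
          field_simp
        calc (4 : ℝ) ^ i * ((T * (3 * j) * (S0 * ((3 * (j : ℝ)) ^ (1 + γ) / 4 ^ (i + l)))) * CF)
            = T * S0 * CF * ((3 * j) * (3 * (j : ℝ)) ^ (1 + γ)) * ((4 : ℝ) ^ i *
              (1 / 4 ^ (i + l))) := by ring
          _ = _ := by rw [← e3, e4]; ring

/-- the main part -/
theorem C4_p3 {T γ v g : ℝ} (hT : 0 ≤ T) (hγ : 0 ≤ γ) (hv : 0 ≤ v) (hg : 0 ≤ g)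
    {i j : ℕ} (hi1 : 1 ≤ i) (hi : i < 2 * j) :
    2 ^ i * Real.sqrt ((T * i * v) * g) ≤
      Real.sqrt (T * (2 * (j : ℝ)) ^ (2 + γ)) *
        (Real.sqrt (4 ^ i * (i : ℝ) ^ (-(1 + γ)) * v) * Real.sqrt g) := by
  have hi0 : (0 : ℝ) < i := by exact_mod_cast hi1
  rw [← Real.sqrt_mul (by positivity), ← Real.sqrt_mul (by positivity)]
  have e1 : (2 : ℝ) ^ i * Real.sqrt ((T * i * v) * g) =
      Real.sqrt (4 ^ i * ((T * i * v) * g)) := C4_pow i _
  rw [e1]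
  apply Real.sqrt_le_sqrt
  have h1 : (i : ℝ) ^ (2 + γ) ≤ (2 * (j : ℝ)) ^ (2 + γ) := by
    refine Real.rpow_le_rpow hi0.le ?_ (by linarith)
    have : (i : ℝ) ≤ ((2 * j : ℕ) : ℝ) := by exact_mod_cast hi.le
    push_cast at this
    exact this
  have e2 : (i : ℝ) = (i : ℝ) ^ (2 + γ) * (i : ℝ) ^ (-(1 + γ)) := by
    rw [← Real.rpow_add hi0]
    have : 2 + γ + -(1 + γ) = 1 := by ring
    rw [this, Real.rpow_one]
  have h2 : (0 : ℝ) ≤ 4 ^ i * (i : ℝ) ^ (-(1 + γ)) * v * g := by positivity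
  calc (4 : ℝ) ^ i * ((T * i * v) * g)
      = T * (i : ℝ) * (4 ^ i * v * g) := by ring
    _ = T * (i : ℝ) ^ (2 + γ) * (4 ^ i * (i : ℝ) ^ (-(1 + γ)) * v * g) := by
        conv_lhs => rw [e2]
        ring
    _ ≤ T * (2 * (j : ℝ)) ^ (2 + γ) * (4 ^ i * (i : ℝ) ^ (-(1 + γ)) * v * g) :=
        mul_le_mul_of_nonneg_right (mul_le_mul_of_nonneg_left h1 hT) h2
    _ = _ := by ring

/-- PROOF. see the skeleton. -/
theorem pigeon {b b' γ M CF S0 ε : ℝ} (hb : 0 < b) (hγ : 0 ≤ γ) (hγb : γ < b') (hM : 0 ≤ M)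
    (hCF : 0 ≤ CF) (hS : 0 ≤ S0) (hε : 0 < ε) :
    ∃ j0 : ℕ, ∀ (A : ℕ → Set ℂ), (∀ i, MeasurableSet (A i)) → Antitone A →
      (∀ i, A i ⊆ Metric.ball 0 1) →
      (∀ n : ℕ, ∑ i ∈ Finset.range n, 4 ^ (i + 1) * ((i : ℝ) + 1) ^ (-(1 + γ)) *
        (volume (A (i + 1))).toReal ≤ S0) →
      ∀ j : ℕ, j0 ≤ j → ∀ K J : ℂ → ℝ, Continuous K → Continuous J → (∀ z, 1 ≤ K z) →
        (∀ z, 0 ≤ J z) → ∫ z in Metric.ball (0 : ℂ) 1, Real.exp (b * K z) ≤ M →
        ∫ z in Metric.ball (0 : ℂ) 1, J z ≤ CF →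
        (∀ (L : ℝ) (E : Set ℂ), 1 ≤ L → MeasurableSet E → E ⊆ Metric.ball 0 1 →
          (volume E).toReal ≤ Real.exp (-L) → ∫ z in E, J z ≤ CF * L ^ (-b')) →
        ∃ i : ℕ, j ≤ i ∧ i < 2 * j ∧ 2 ^ i * ∫ z in A i, Real.sqrt (K z * J z) ≤ ε := by
  have hT : (0 : ℝ) ≤ 8 / b := by positivity
  obtain ⟨δ, hδ, hδ1, hδ'⟩ : ∃ δ : ℝ, 0 < δ ∧ δ ≤ 1 ∧ δ < b' - γ :=
    ⟨min ((b' - γ) / 2) 1, lt_min (by linarith) one_pos, min_le_right _ _,
      lt_of_le_of_lt (min_le_left _ _) (by linarith)⟩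
  have hε3 : 0 < ε / 3 := by linarith
  have hev := (eventually_ge_atTop (1 : ℕ)).and ((C4_asA (γ := γ) hS).and
    ((C4_asB (C := Real.sqrt (2 / b * M * CF)) hε3).and
    ((C4_asC (C := Real.sqrt (8 / b * S0 * CF * 3 ^ (2 + γ))) (p := (2 + γ) / 2)
      (Real.sqrt_nonneg _) hδ hε3).and
    (C4_asD (T := 8 / b) (γ := γ) (b' := b') (CF := CF) (S0 := S0) hT hδ hδ' hCF hS hε3))))
  obtain ⟨j0, hj0⟩ := eventually_atTop.1 hev
  refine ⟨j0, ?_⟩
  intro A hAm hAnt hAb hsum j hj K J hK hJ hK1 hJ0 hKM hJCF hJdec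
  obtain ⟨hj1, hasA, hasB, hasC, hasD⟩ := hj0 j hj
  have hK0 : ∀ z, 0 ≤ K z := fun z => zero_le_one.trans (hK1 z)
  have hjr : (0 : ℝ) < j := by exact_mod_cast hj1
  have hjr1 : (1 : ℝ) ≤ j := by exact_mod_cast hj1
  set l : ℕ := ⌈(j : ℝ) ^ δ⌉₊ with hl
  have hlj : l ≤ j := by
    rw [hl]
    apply Nat.ceil_le.2
    calc (j : ℝ) ^ δ ≤ (j : ℝ) ^ (1 : ℝ) := Real.rpow_le_rpow_of_exponent_le hjr1 hδ1
      _ = j := Real.rpow_one _
  -- the measures
  have hvol : ∀ i : ℕ, 1 ≤ i → (volume (A i)).toReal ≤ S0 * ((i : ℝ) ^ (1 + γ) / 4 ^ i) := by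
    intro i hi
    obtain ⟨i', rfl⟩ := Nat.exists_eq_add_of_le' hi
    have h1 := hsum (i' + 1)
    have h2 : 4 ^ (i' + 1) * ((i' : ℝ) + 1) ^ (-(1 + γ)) * (volume (A (i' + 1))).toReal ≤
        ∑ i ∈ Finset.range (i' + 1), 4 ^ (i + 1) * ((i : ℝ) + 1) ^ (-(1 + γ)) *
          (volume (A (i + 1))).toReal :=
      Finset.single_le_sum (f := fun i : ℕ => 4 ^ (i + 1) * ((i : ℝ) + 1) ^ (-(1 + γ)) *
          (volume (A (i + 1))).toReal) (fun k _ => by positivity)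
        (Finset.mem_range.2 (Nat.lt_succ_self i'))
    have h3 := h2.trans h1
    have hx : (0 : ℝ) < (i' : ℝ) + 1 := by positivity
    have e : (volume (A (i' + 1))).toReal = (4 ^ (i' + 1) * ((i' : ℝ) + 1) ^ (-(1 + γ)) *
        (volume (A (i' + 1))).toReal) * (((i' : ℝ) + 1) ^ (1 + γ) / 4 ^ (i' + 1)) := by
      have e1 : ((i' : ℝ) + 1) ^ (-(1 + γ)) * ((i' : ℝ) + 1) ^ (1 + γ) = 1 := by
        rw [← Real.rpow_add hx]
        simp
      have e2 : (4 : ℝ) ^ (i' + 1) ≠ 0 := by positivity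
      calc (volume (A (i' + 1))).toReal = (((i' : ℝ) + 1) ^ (-(1 + γ)) *
            ((i' : ℝ) + 1) ^ (1 + γ)) * (volume (A (i' + 1))).toReal := by rw [e1, one_mul]
        _ = _ := by
          field_simp
    rw [e]
    push_cast
    exact mul_le_mul_of_nonneg_right h3 (by positivity)
  -- the energies
  set e : ℕ → ℝ := fun k => 4 ^ (j + k) * ((j + k : ℕ) : ℝ) ^ (-(1 + γ)) *
    (volume (A (j + k))).toReal with he
  have he0 : ∀ k, 0 ≤ e k := fun k => by simp only [he]; positivity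
  have hesum : ∑ k ∈ Finset.range j, e k ≤ S0 := by
    obtain ⟨j', hj'⟩ := Nat.exists_eq_add_of_le' hj1
    have h1 := hsum (j' + j)
    rw [Finset.sum_range_add] at h1
    have h2 : ∑ k ∈ Finset.range j, e k = ∑ x ∈ Finset.range j,
        4 ^ (j' + x + 1) * (((j' + x : ℕ) : ℝ) + 1) ^ (-(1 + γ)) *
          (volume (A (j' + x + 1))).toReal := by
      refine Finset.sum_congr rfl (fun k _ => ?_)
      simp only [he]
      have e1 : j + k = j' + k + 1 := by omega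
      rw [e1]
      push_cast
      rfl
    rw [h2]
    have h3 : 0 ≤ ∑ x ∈ Finset.range j', 4 ^ (x + 1) * ((x : ℝ) + 1) ^ (-(1 + γ)) *
        (volume (A (x + 1))).toReal := Finset.sum_nonneg (fun x _ => by positivity)
    linarith
  -- the areas of the images
  set H : ℕ → ℝ := fun k => ∫ z in A (j + k), J z with hH
  have hHanti : Antitone H := by
    intro p q hpq
    exact setIntegral_mono_set (C4_int hJ (hAb _)) (Filter.Eventually.of_forall hJ0)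
      (HasSubset.Subset.eventuallyLE (hAnt (by omega)))
  have hH0 : ∀ k, 0 ≤ H k := fun k => integral_nonneg hJ0
  have hHj : H 0 ≤ CF * (j : ℝ) ^ (-b') :=
    hJdec j (A (j + 0)) hjr1 (hAm _) (hAb _) ((hvol j hj1).trans hasA)
  have hgsum : ∑ k ∈ Finset.range j, (H k - H (k + l)) ≤ (l : ℝ) * (CF * (j : ℝ) ^ (-b')) :=
    (C4_tele H hHanti hH0 j l).trans (mul_le_mul_of_nonneg_left hHj (Nat.cast_nonneg _))
  have hg0 : ∀ k, 0 ≤ H k - H (k + l) := fun k =>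
    sub_nonneg.2 (hHanti (Nat.le_add_right _ _))
  -- pigeonhole
  obtain ⟨k, hk, hkle⟩ : ∃ k ∈ Finset.range j, Real.sqrt (e k) * Real.sqrt (H k - H (k + l)) ≤
      (1 / (j : ℝ)) * (Real.sqrt S0 * Real.sqrt ((l : ℝ) * (CF * (j : ℝ) ^ (-b')))) := by
    refine Finset.exists_le_of_sum_le (Finset.nonempty_range_iff.2 (by omega)) ?_
    rw [Finset.sum_const, Finset.card_range, nsmul_eq_mul, ← mul_assoc, mul_one_div,
      div_self hjr.ne', one_mul]
    refine (Real.sum_sqrt_mul_sqrt_le _ he0 hg0).trans ?_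
    exact mul_le_mul (Real.sqrt_le_sqrt hesum) (Real.sqrt_le_sqrt hgsum) (Real.sqrt_nonneg _)
      (Real.sqrt_nonneg _)
  have hkj : k < j := Finset.mem_range.1 hk
  refine ⟨j + k, by omega, by omega, ?_⟩
  have hsplit := C4_split (θ := 8 / b * ((j + k : ℕ) : ℝ)) hb (by positivity) hK hJ hK0 hJ0 hKM
    hJCF (hAm (j + k)) (hAm (j + (k + l))) (hAnt (by omega)) (hAb (j + k))
  have h2p : (0 : ℝ) ≤ 2 ^ (j + k) := by positivity
  have hq1 := C4_p1 (M := M) (CF := CF) hb hM hCF (i := j + k) (j := j) (by omega)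
  have hq2 := C4_p2 (T := 8 / b) (γ := γ) (S0 := S0) (CF := CF)
    (v := (volume (A (j + (k + l)))).toReal) hT hγ hS hCF (i := j + k) (j := j) (l := l) hj1
    (by omega) hlj (by
      have := hvol (j + (k + l)) (by omega)
      rw [show j + k + l = j + (k + l) by omega]
      exact this)
  have hq3 := C4_p3 (T := 8 / b) (γ := γ) (v := (volume (A (j + k))).toReal)
    (g := H k - H (k + l)) hT hγ ENNReal.toReal_nonneg (hg0 k) (i := j + k) (j := j)
    (by omega) (by omega)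
  have hq3' : 2 ^ (j + k) * Real.sqrt ((8 / b * ((j + k : ℕ) : ℝ) *
      (volume (A (j + k))).toReal) * (H k - H (k + l))) ≤ ε / 3 := by
    refine hq3.trans (le_trans ?_ hasD)
    exact mul_le_mul_of_nonneg_left hkle (Real.sqrt_nonneg _)
  have hfin := mul_le_mul_of_nonneg_left hsplit h2p
  rw [mul_add, mul_add] at hfin
  refine hfin.trans ?_
  have h1 := hq1.trans hasB
  have h2 := hq2.trans hasC
  have h3 : 2 ^ (j + k) * Real.sqrt ((8 / b * ((j + k : ℕ) : ℝ) *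
      (volume (A (j + k))).toReal) * ((∫ z in A (j + k), J z) -
        ∫ z in A (j + (k + l)), J z)) ≤ ε / 3 := hq3'
  linarith

end

end Pool.B2F
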