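import Pool.Agent.Lib.MP_b2f128_an.Base
import Pool.Agent.Lib.MP_b2f128_an.A00
import Pool.Agent.Lib.MP_b2f128_an.A02b

/-!
# MP_b2f128_an, part C5 (very weak solutions)
-/

open Complex MeasureTheory Set Filter Topology
open scoped ContDiff

namespace Pool.B2F

noncomputable section

lemma C5_kap_eq {t : ℝ} (ht : t < 1) : kap t = 2 / (1 - t) - 1 := by
  have h : (1 - t) ≠ 0 := by linarith
  unfold kap
  field_simp
  ring

lemma C5_kap_convex {t t0 : ℝ} (ht : t < 1) (ht0 : t0 < 1) :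
    kap t0 + 2 / (1 - t0) ^ 2 * (t - t0) ≤ kap t := by
  rw [C5_kap_eq ht, C5_kap_eq ht0]
  have h1 : 0 < 1 - t := by linarith
  have h2 : 0 < 1 - t0 := by linarith
  have h3 : 2 / (1 - t) - 1 - (2 / (1 - t0) - 1 + 2 / (1 - t0) ^ 2 * (t - t0)) =
      2 * (t - t0) ^ 2 / ((1 - t) * (1 - t0) ^ 2) := by
    field_simp
    ring
  have h4 : 0 ≤ 2 * (t - t0) ^ 2 / ((1 - t) * (1 - t0) ^ 2) := by positivity
  linarith

lemma C5_kap_mono {t t0 : ℝ} (h : t ≤ t0) (ht0 : t0 < 1) : kap t ≤ kap t0 := by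
  rw [C5_kap_eq (lt_of_le_of_lt h ht0), C5_kap_eq ht0]
  have h2 : 0 < 1 - t0 := by linarith
  have h3 : 2 / (1 - t) ≤ 2 / (1 - t0) := by
    apply div_le_div_of_nonneg_left (by norm_num) h2
    linarith
  linarith

lemma C5_one_le_kap {t : ℝ} (h : 0 ≤ t) (h1 : t < 1) : 1 ≤ kap t := by
  have h2 := C5_kap_mono h h1
  have h3 : kap 0 = 1 := by norm_num [kap]
  linarith

lemma C5_exp_convex {b t t0 : ℝ} (hb : 0 < b) (ht : t < 1) (ht0 : t0 < 1) :
    Real.exp (b * kap t0) + b * (2 / (1 - t0) ^ 2) * Real.exp (b * kap t0) * (t - t0) ≤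
      Real.exp (b * kap t) := by
  have h1 := C5_kap_convex ht ht0
  have h2 : (b * kap t - b * kap t0) + 1 ≤ Real.exp (b * kap t - b * kap t0) :=
    Real.add_one_le_exp _
  have h3 : Real.exp (b * kap t) = Real.exp (b * kap t0) * Real.exp (b * kap t - b * kap t0) := by
    rw [← Real.exp_add]
    congr 1
    ring
  rw [h3]
  have h4 : 1 + b * (2 / (1 - t0) ^ 2) * (t - t0) ≤ Real.exp (b * kap t - b * kap t0) := by
    nlinarith
  have h5 : 0 < Real.exp (b * kap t0) := Real.exp_pos _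
  nlinarith

/-- hypotheses on the weight -/
structure C5_W (r : ℝ) (w : ℂ → ℝ) : Prop where
  cont : ContDiff ℝ ∞ w
  cpt : HasCompactSupport w
  nn : ∀ z, 0 ≤ w z
  supp : ∀ z, w z ≠ 0 ↔ z ∈ Metric.ball (0 : ℂ) r
  one : ∫ z, w z = 1
  pos : 0 < r

/-- convolution -/
def C5_conv (w : ℂ → ℝ) (μ : ℂ → ℂ) (z : ℂ) : ℂ := ∫ t, w t • μ (z - t)

lemma C5_conv_eq (w : ℂ → ℝ) (μ : ℂ → ℂ) :
    C5_conv w μ = MeasureTheory.convolution w μ (ContinuousLinearMap.lsmul ℝ ℝ) volume := by
  funext z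
  rfl

lemma C5_W.integrable {r : ℝ} {w : ℂ → ℝ} (hw : C5_W r w) : Integrable w :=
  hw.cont.continuous.integrable_of_hasCompactSupport hw.cpt

lemma C5_W.int_mul {r : ℝ} {w : ℂ → ℝ} (hw : C5_W r w) {g : ℂ → ℝ} (hg : LocallyIntegrable g)
    (z : ℂ) : Integrable (fun t => w t * g (z - t)) := by
  have h := hw.cpt.convolutionExists_left (ContinuousLinearMap.lsmul ℝ ℝ) hw.cont.continuous hg z
  simpa [ConvolutionExistsAt] using h

lemma C5_W.int_smul {r : ℝ} {w : ℂ → ℝ} (hw : C5_W r w) {g : ℂ → ℂ} (hg : LocallyIntegrable g)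
    (z : ℂ) : Integrable (fun t => w t • g (z - t)) := by
  have h := hw.cpt.convolutionExists_left (ContinuousLinearMap.lsmul ℝ ℝ) hw.cont.continuous hg z
  simpa [ConvolutionExistsAt] using h

lemma C5_loc {μ : ℂ → ℂ} (hm : Measurable μ) (h1 : ∀ z, ‖μ z‖ < 1) : LocallyIntegrable μ := by
  intro x
  refine ⟨Metric.ball x 1, Metric.ball_mem_nhds x one_pos, ?_⟩
  refine Measure.integrableOn_of_bounded (M := 1) (measure_ball_lt_top).ne
    hm.aestronglyMeasurable ?_
  exact Eventually.of_forall fun z => (h1 z).le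

lemma C5_locn {μ : ℂ → ℂ} (hm : Measurable μ) (h1 : ∀ z, ‖μ z‖ < 1) :
    LocallyIntegrable (fun z => ‖μ z‖) := by
  intro x
  exact (C5_loc hm h1 x).norm

lemma C5_t0_lt {r : ℝ} {w : ℂ → ℝ} (hw : C5_W r w) {μ : ℂ → ℂ} (hm : Measurable μ)
    (h1 : ∀ z, ‖μ z‖ < 1) (z : ℂ) : ∫ t, w t * ‖μ (z - t)‖ < 1 := by
  have hi := hw.int_mul (C5_locn hm h1) z
  have h2 : 0 < ∫ t, w t * (1 - ‖μ (z - t)‖) := by
    have hi2 : Integrable (fun t => w t * (1 - ‖μ (z - t)‖)) := by
      have := hw.integrable.sub hi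
      refine this.congr (Eventually.of_forall fun t => ?_)
      simp only [Pi.sub_apply]
      ring
    rw [integral_pos_iff_support_of_nonneg (fun t => mul_nonneg (hw.nn t) (by linarith [h1 (z - t)]))
      hi2]
    have h3 : Metric.ball (0 : ℂ) r ⊆ Function.support (fun t => w t * (1 - ‖μ (z - t)‖)) := by
      intro t ht
      have h4 := (hw.supp t).2 ht
      have h5 : 1 - ‖μ (z - t)‖ ≠ 0 := by linarith [h1 (z - t)]
      exact mul_ne_zero h4 h5
    exact lt_of_lt_of_le (Metric.measure_ball_pos volume 0 hw.pos) (measure_mono h3)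
  have h3 : ∫ t, w t * (1 - ‖μ (z - t)‖) = (∫ t, w t) - ∫ t, w t * ‖μ (z - t)‖ := by
    rw [← integral_sub hw.integrable hi]
    congr 1
    funext t
    ring
  rw [hw.one] at h3
  linarith

lemma C5_norm_le {w : ℂ → ℝ} (hn : ∀ z, 0 ≤ w z) {μ : ℂ → ℂ} (z : ℂ) :
    ‖C5_conv w μ z‖ ≤ ∫ t, w t * ‖μ (z - t)‖ := by
  unfold C5_conv
  refine (norm_integral_le_integral_norm _).trans (le_of_eq ?_)
  congr 1
  funext t
  rw [norm_smul, Real.norm_of_nonneg (hn t)]

lemma C5_lt {r : ℝ} {w : ℂ → ℝ} (hw : C5_W r w) {μ : ℂ → ℂ} (hm : Measurable μ)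
    (h1 : ∀ z, ‖μ z‖ < 1) (z : ℂ) : ‖C5_conv w μ z‖ < 1 :=
  (C5_norm_le hw.nn z).trans_lt (C5_t0_lt hw hm h1 z)

lemma C5_smooth {r : ℝ} {w : ℂ → ℝ} (hw : C5_W r w) {μ : ℂ → ℂ} (hm : Measurable μ)
    (h1 : ∀ z, ‖μ z‖ < 1) : ContDiff ℝ ∞ (C5_conv w μ) := by
  rw [C5_conv_eq]
  exact hw.cpt.contDiff_convolution_left _ hw.cont (C5_loc hm h1)

lemma C5_supp {r : ℝ} {w : ℂ → ℝ} (hw : C5_W r w) (hr : r ≤ 1 / 8) {μ : ℂ → ℂ}
    (h0 : ∀ z, z ∉ Metric.ball (0 : ℂ) (3 / 4) → μ z = 0) :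
    tsupport (C5_conv w μ) ⊆ Metric.closedBall 0 (7 / 8) := by
  refine closure_minimal ?_ Metric.isClosed_closedBall
  intro z hz
  by_contra hc
  apply hz
  unfold C5_conv
  have h2 : ∀ t, w t • μ (z - t) = 0 := by
    intro t
    by_cases ht : w t = 0
    · rw [ht, zero_smul]
    · have h3 := (hw.supp t).1 ht
      rw [h0 (z - t), smul_zero]
      intro h4
      apply hc
      rw [mem_ball_zero_iff] at h3 h4
      rw [mem_closedBall_zero_iff]
      have h5 : ‖z‖ ≤ ‖z - t‖ + ‖t‖ := by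
        calc ‖z‖ = ‖(z - t) + t‖ := by rw [sub_add_cancel]
          _ ≤ _ := norm_add_le _ _
      linarith
  simp [h2]

/-- Jensen's inequality -/
lemma C5_jensen {b r : ℝ} (hb : 0 < b) {w : ℂ → ℝ} (hw : C5_W r w) (hr : r ≤ 1 / 8) {μ : ℂ → ℂ}
    (hm : Measurable μ) (h1 : ∀ z, ‖μ z‖ < 1)
    (hint : IntegrableOn (fun z => Real.exp (b * kap ‖μ z‖)) (Metric.ball 0 2)) {z : ℂ}
    (hz : z ∈ Metric.ball (0 : ℂ) 1) :
    Real.exp (b * kap ‖C5_conv w μ z‖) ≤
      ∫ t, w t * (Metric.ball (0 : ℂ) 2).indicator (fun z => Real.exp (b * kap ‖μ z‖)) (z - t) := by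
  set t0 := ∫ t, w t * ‖μ (z - t)‖ with ht0
  have h2 : t0 < 1 := C5_t0_lt hw hm h1 z
  have h3 : ‖C5_conv w μ z‖ ≤ t0 := C5_norm_le hw.nn z
  have h4 : Real.exp (b * kap ‖C5_conv w μ z‖) ≤ Real.exp (b * kap t0) := by
    apply Real.exp_le_exp.2
    exact mul_le_mul_of_nonneg_left (C5_kap_mono h3 h2) hb.le
  refine h4.trans ?_
  have hG : Integrable ((Metric.ball (0 : ℂ) 2).indicator (fun z => Real.exp (b * kap ‖μ z‖))) :=
    (integrable_indicator_iff Metric.isOpen_ball.measurableSet).2 hint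
  have hi := hw.int_mul (C5_locn hm h1) z
  have hi2 := hw.int_mul hG.locallyIntegrable z
  have h5 : Real.exp (b * kap t0) = ∫ t, (Real.exp (b * kap t0) * w t +
      b * (2 / (1 - t0) ^ 2) * Real.exp (b * kap t0) * (w t * ‖μ (z - t)‖ - t0 * w t)) := by
    have e1 : Integrable (fun t => w t * ‖μ (z - t)‖ - t0 * w t) :=
      hi.sub (hw.integrable.const_mul _)
    rw [integral_add (hw.integrable.const_mul _) (e1.const_mul _),
      integral_const_mul, integral_const_mul, integral_sub hi (hw.integrable.const_mul _),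
      integral_const_mul, hw.one, ← ht0]
    ring
  rw [h5]
  refine integral_mono ((hw.integrable.const_mul _).add
    ((hi.sub (hw.integrable.const_mul _)).const_mul _)) hi2 fun t => ?_
  simp only
  by_cases ht : w t = 0
  · simp [ht]
  · have h6 := (hw.supp t).1 ht
    have h7 : z - t ∈ Metric.ball (0 : ℂ) 2 := by
      rw [mem_ball_zero_iff] at h6 hz ⊢
      have := norm_sub_le z t
      linarith
    rw [indicator_of_mem h7]
    have h8 := C5_exp_convex hb (h1 (z - t)) h2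
    have h9 := mul_le_mul_of_nonneg_left h8 (hw.nn t)
    nlinarith

lemma C5_kap_cont {ν : ℂ → ℂ} (hc : Continuous ν) (h1 : ∀ z, ‖ν z‖ < 1) :
    Continuous (fun z => kap ‖ν z‖) := by
  unfold kap
  refine Continuous.div (by fun_prop) (by fun_prop) fun z => ?_
  have := h1 z
  linarith

lemma C5_int_ball {g : ℂ → ℝ} (hg : Continuous g) : IntegrableOn g (Metric.ball (0 : ℂ) 1) :=
  (hg.continuousOn.integrableOn_compact (isCompact_closedBall 0 1)).mono_set
    Metric.ball_subset_closedBall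

lemma C5_M {b r : ℝ} (hb : 0 < b) {w : ℂ → ℝ} (hw : C5_W r w) (hr : r ≤ 1 / 8) {μ : ℂ → ℂ}
    (hm : Measurable μ) (h1 : ∀ z, ‖μ z‖ < 1)
    (hint : IntegrableOn (fun z => Real.exp (b * kap ‖μ z‖)) (Metric.ball 0 2)) :
    ∫ z in Metric.ball (0 : ℂ) 1, Real.exp (b * kap ‖C5_conv w μ z‖) ≤
      ∫ z in Metric.ball (0 : ℂ) 2, Real.exp (b * kap ‖μ z‖) := by
  set G := (Metric.ball (0 : ℂ) 2).indicator (fun z => Real.exp (b * kap ‖μ z‖)) with hGdef
  have hG : Integrable G := (integrable_indicator_iff Metric.isOpen_ball.measurableSet).2 hint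
  have hG0 : ∀ z, 0 ≤ G z := fun z => indicator_nonneg (fun z _ => (Real.exp_pos _).le) z
  have h2 : ∫ z, (MeasureTheory.convolution w G (ContinuousLinearMap.lsmul ℝ ℝ) volume) z =
      ∫ z, G z := by
    rw [integral_convolution _ hw.integrable hG]
    simp [hw.one]
  have h3 : Integrable (MeasureTheory.convolution w G (ContinuousLinearMap.lsmul ℝ ℝ) volume) :=
    hw.integrable.integrable_convolution _ hG
  have h4 : ∀ z, (MeasureTheory.convolution w G (ContinuousLinearMap.lsmul ℝ ℝ) volume) z =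
      ∫ t, w t * G (z - t) := fun z => rfl
  have h5 : ∫ z in Metric.ball (0 : ℂ) 2, Real.exp (b * kap ‖μ z‖) = ∫ z, G z := by
    rw [hGdef, integral_indicator Metric.isOpen_ball.measurableSet]
  rw [h5, ← h2]
  have h6 : Continuous (fun z => Real.exp (b * kap ‖C5_conv w μ z‖)) := by
    have := C5_kap_cont (C5_smooth hw hm h1).continuous (C5_lt hw hm h1)
    fun_prop
  calc ∫ z in Metric.ball (0 : ℂ) 1, Real.exp (b * kap ‖C5_conv w μ z‖)
      ≤ ∫ z in Metric.ball (0 : ℂ) 1,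
        (MeasureTheory.convolution w G (ContinuousLinearMap.lsmul ℝ ℝ) volume) z := by
        refine setIntegral_mono_on (C5_int_ball h6) h3.integrableOn
          Metric.isOpen_ball.measurableSet fun z hz => ?_
        rw [h4]
        exact C5_jensen hb hw hr hm h1 hint hz
    _ ≤ _ := by
        refine setIntegral_le_integral h3 (Eventually.of_forall fun z => ?_)
        rw [Pi.zero_apply, h4]
        exact integral_nonneg fun t => mul_nonneg (hw.nn t) (hG0 _)

/-- the bumps -/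
def C5_bump (n : ℕ) : ContDiffBump (0 : ℂ) where
  rIn := 1 / (16 * ((n : ℝ) + 1))
  rOut := 1 / (8 * ((n : ℝ) + 1))
  rIn_pos := by positivity
  rIn_lt_rOut := by
    have : (0 : ℝ) < (n : ℝ) + 1 := by positivity
    apply one_div_lt_one_div_of_lt (by positivity)
    linarith

/-- the weights -/
def C5_w (n : ℕ) : ℂ → ℝ := (C5_bump n).normed volume

lemma C5_w_W (n : ℕ) : C5_W (1 / (8 * ((n : ℝ) + 1))) (C5_w n) where
  cont := (C5_bump n).contDiff_normed
  cpt := (C5_bump n).hasCompactSupport_normed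
  nn := (C5_bump n).nonneg_normed
  supp z := by
    have h := (C5_bump n).support_normed_eq (μ := volume)
    rw [← Function.mem_support]
    unfold C5_w
    rw [h]
    rfl
  one := (C5_bump n).integral_normed
  pos := by positivity

lemma C5_ae {μ : ℂ → ℂ} (hm : Measurable μ) (h1 : ∀ z, ‖μ z‖ < 1) :
    ∀ᵐ z, Tendsto (fun n => C5_conv (C5_w n) μ z) atTop (𝓝 (μ z)) := by
  have hr : Tendsto (fun n : ℕ => (C5_bump n).rOut) atTop (𝓝 0) := by
    have h2 : Tendsto (fun n : ℕ => (1 / 8 : ℝ) * (1 / ((n : ℝ) + 1))) atTop (𝓝 (1 / 8 * 0)) :=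
      tendsto_one_div_add_atTop_nhds_zero_nat.const_mul _
    rw [mul_zero] at h2
    refine h2.congr fun n => ?_
    change _ = 1 / (8 * ((n : ℝ) + 1))
    have : ((n : ℝ) + 1) ≠ 0 := by positivity
    field_simp
  have h3 : ∀ᶠ n in atTop, (C5_bump n).rOut ≤ 2 * (C5_bump n).rIn := by
    refine Eventually.of_forall fun n => ?_
    change 1 / (8 * ((n : ℝ) + 1)) ≤ 2 * (1 / (16 * ((n : ℝ) + 1)))
    have : ((n : ℝ) + 1) ≠ 0 := by positivity
    apply le_of_eq
    field_simp
    norm_num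
  exact ContDiffBump.ae_convolution_tendsto_right_of_locallyIntegrable hr h3 (C5_loc hm h1)

/-- convergence in `L¹` of functions bounded in `L²`, converging a.e. -/
lemma C5_vitali {f : ℕ → ℂ → ℝ} {g : ℂ → ℝ} {s : Set ℂ} (hs : volume s ≠ ⊤)
    (hms : MeasurableSet s) (hf : ∀ n, Continuous (f n))
    (hg : Measurable g) (hf1 : ∀ n z, 1 ≤ f n z) (hg1 : ∀ z, 1 ≤ g z) {M : ℝ}
    (hfi : ∀ n, IntegrableOn (fun z => f n z ^ 2) s)
    (hgi : IntegrableOn (fun z => g z ^ 2) s)
    (hfM : ∀ n, ∫ z in s, f n z ^ 2 ≤ M) (hgM : ∫ z in s, g z ^ 2 ≤ M)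
    (hae : ∀ᵐ z, Tendsto (fun n => f n z) atTop (𝓝 (g z))) :
    Tendsto (fun n => ∫ z in s, |f n z - g z|) atTop (𝓝 0) := by
  have hM0 : 0 ≤ M := le_trans (integral_nonneg fun z => sq_nonneg _) hgM
  -- truncated differences
  have hdc : ∀ T : ℝ, 0 < T → Tendsto (fun n => ∫ z in s, |min (f n z) T - min (g z) T|) atTop
      (𝓝 0) := by
    intro T hT
    have h := tendsto_integral_of_dominated_convergence (μ := volume.restrict s)
      (F := fun n z => |min (f n z) T - min (g z) T|) (f := fun _ => (0 : ℝ)) (fun _ => T)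
      (fun n => by
        have := (hf n).measurable
        exact Measurable.aestronglyMeasurable (by fun_prop))
      (integrableOn_const hs)
      (fun n => Eventually.of_forall fun z => by
        have a1 := hf1 n z
        have a2 := hg1 z
        have a3 : 0 ≤ min (f n z) T := le_min (by linarith) hT.le
        have a4 : 0 ≤ min (g z) T := le_min (by linarith) hT.le
        have a5 : min (f n z) T ≤ T := min_le_right _ _
        have a6 : min (g z) T ≤ T := min_le_right _ _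
        rw [Real.norm_eq_abs, abs_abs, abs_le]
        constructor <;> linarith)
      (by
        refine ae_restrict_of_ae ?_
        filter_upwards [hae] with z hz
        have h2 : Tendsto (fun n => min (f n z) T) atTop (𝓝 (min (g z) T)) :=
          hz.min tendsto_const_nhds
        have h3 := (h2.sub_const (min (g z) T)).abs
        simpa using h3)
    simpa using h
  have hif : ∀ n, IntegrableOn (f n) s := fun n =>
    (hfi n).mono' (hf n).aestronglyMeasurable (Eventually.of_forall fun z => by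
      have := hf1 n z
      rw [Real.norm_of_nonneg (by linarith)]
      nlinarith)
  have hig : IntegrableOn g s :=
    hgi.mono' hg.aestronglyMeasurable (Eventually.of_forall fun z => by
      have := hg1 z
      rw [Real.norm_of_nonneg (by linarith)]
      nlinarith)
  rw [Metric.tendsto_atTop]
  intro ε hε
  obtain ⟨T, hT, hTε⟩ : ∃ T : ℝ, 0 < T ∧ 2 * M / T < ε / 2 := by
    refine ⟨4 * M / ε + 1, by positivity, ?_⟩
    rw [div_lt_iff₀ (by positivity)]
    have : ε / 2 * (4 * M / ε + 1) = 2 * M + ε / 2 := by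
      field_simp
      ring
    rw [this]
    linarith
  obtain ⟨N, hN⟩ := (Metric.tendsto_atTop.1 (hdc T hT)) (ε / 2) (by linarith)
  refine ⟨N, fun n hn => ?_⟩
  have h1 := hN n hn
  rw [Real.dist_0_eq_abs] at h1 ⊢
  have h2 : 0 ≤ ∫ z in s, |f n z - g z| := integral_nonneg fun z => abs_nonneg _
  rw [abs_of_nonneg h2]
  have hmf := (hf n).measurable
  have hi1 : IntegrableOn (fun z => |min (f n z) T - min (g z) T|) s := by
    refine Measure.integrableOn_of_bounded (M := T) hs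
      (Measurable.aestronglyMeasurable (by fun_prop)) (Eventually.of_forall fun z => ?_)
    have a1 := hf1 n z
    have a2 := hg1 z
    have a3 : 0 ≤ min (f n z) T := le_min (by linarith) hT.le
    have a4 : 0 ≤ min (g z) T := le_min (by linarith) hT.le
    have a5 : min (f n z) T ≤ T := min_le_right _ _
    have a6 : min (g z) T ≤ T := min_le_right _ _
    rw [Real.norm_eq_abs, abs_abs, abs_le]
    constructor <;> linarith
  have h3 : ∫ z in s, |f n z - g z| ≤ ∫ z in s, (|min (f n z) T - min (g z) T| +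
      (1 / T) * f n z ^ 2 + (1 / T) * g z ^ 2) := by
    refine integral_mono ((hif n).sub hig).abs
      ((hi1.add ((hfi n).const_mul _)).add (hgi.const_mul _)) fun z => ?_
    simp only
    have key : ∀ x : ℝ, 1 ≤ x → |x - min x T| ≤ (1 / T) * x ^ 2 := by
      intro x hx
      rw [abs_of_nonneg (by linarith [min_le_left x T])]
      rcases le_total x T with h | h
      · rw [min_eq_left h]
        have : 0 ≤ (1 / T) * x ^ 2 := by positivity
        linarith
      · rw [min_eq_right h]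
        have h5 : x ≤ (1 / T) * x ^ 2 := by
          rw [one_div, inv_mul_eq_div, le_div_iff₀ hT]
          nlinarith
        linarith
    have k1 := key _ (hf1 n z)
    have k2 := key _ (hg1 z)
    have k3 : |f n z - g z| ≤ |f n z - min (f n z) T| + |min (f n z) T - min (g z) T| +
        |g z - min (g z) T| := by
      have e : f n z - g z = (f n z - min (f n z) T) + (min (f n z) T - min (g z) T) -
        (g z - min (g z) T) := by ring
      rw [e]
      refine (abs_sub _ _).trans ?_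
      gcongr
      exact abs_add_le _ _
    linarith
  have h4 : ∫ z in s, (|min (f n z) T - min (g z) T| +
      (1 / T) * f n z ^ 2 + (1 / T) * g z ^ 2) = (∫ z in s, |min (f n z) T - min (g z) T|) +
      (1 / T) * (∫ z in s, f n z ^ 2) + (1 / T) * ∫ z in s, g z ^ 2 := by
    have e1 : IntegrableOn (fun z => |min (f n z) T - min (g z) T| + (1 / T) * f n z ^ 2) s :=
      hi1.add ((hfi n).const_mul _)
    rw [integral_add e1 (hgi.const_mul _),
      integral_add hi1 ((hfi n).const_mul _), integral_const_mul, integral_const_mul]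
  have h5 : (1 / T) * (∫ z in s, f n z ^ 2) ≤ (1 / T) * M :=
    mul_le_mul_of_nonneg_left (hfM n) (by positivity)
  have h6 : (1 / T) * (∫ z in s, g z ^ 2) ≤ (1 / T) * M :=
    mul_le_mul_of_nonneg_left hgM (by positivity)
  have h7 : 2 * M / T = (1 / T) * M + (1 / T) * M := by
    field_simp
    ring
  have h8 : ∫ z in s, |min (f n z) T - min (g z) T| < ε / 2 := lt_of_abs_lt h1
  rw [h4] at h3
  linarith

lemma C5_sq_le {b x : ℝ} (hb : 0 < b) (hx : 0 ≤ x) : x ^ 2 ≤ 2 / b ^ 2 * Real.exp (b * x) := by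
  have h := Real.quadratic_le_exp_of_nonneg (mul_nonneg hb.le hx)
  have h2 : 2 / b ^ 2 * (1 + b * x + (b * x) ^ 2 / 2) ≤ 2 / b ^ 2 * Real.exp (b * x) :=
    mul_le_mul_of_nonneg_left h (by positivity)
  have h3 : 2 / b ^ 2 * (1 + b * x + (b * x) ^ 2 / 2) = 2 / b ^ 2 + 2 / b * x + x ^ 2 := by
    field_simp
  have h4 : 0 ≤ 2 / b ^ 2 + 2 / b * x := by positivity
  linarith

/-- PROOF. `t ↦ exp (b kap t)` is convex and increasing on `[0,1)`, so `ν ↦ exp (b kap ‖ν‖)` is convex on the unit disc and Jensen's inequality for the mollification `μ_n = μ * ρ_n` (support of `ρ_n` in `ball 0 (1/8)`) gives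
`exp (b kap ‖μ_n‖) ≤ (exp (b kap ‖μ‖)) * ρ_n`, whose integral over `ball 0 1` is at most `M := ∫_{ball 0 2} exp (b kap ‖μ‖)`; also `kap ‖μ_n‖ ≤ (kap ‖μ‖ 1_{ball 0 2}) * ρ_n` on `ball 0 1`. `μ_n → μ` a.e. (Lebesgue points), so
`kap ‖μ_n‖ → kap ‖μ‖` a.e. and in `L¹` (generalised dominated convergence: the majorants converge in `L¹`). `‖μ_n‖ < 1` everywhere: the average of `μ` over a ball has norm `< 1`. -/
theorem approx_mu {b : ℝ} (hb : 0 < b) {μ : ℂ → ℂ} (hm : Measurable μ) (h1 : ∀ z, ‖μ z‖ < 1)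
    (h0 : ∀ z, z ∉ Metric.ball (0 : ℂ) (3 / 4) → μ z = 0)
    (hint : IntegrableOn (fun z => Real.exp (b * kap ‖μ z‖)) (Metric.ball 0 2)) :
    ∃ (M : ℝ) (ν : ℕ → ℂ → ℂ), 0 ≤ M ∧ (∀ n, Adm b M (ν n)) ∧
      Tendsto (fun n => ∫ z in Metric.ball (0 : ℂ) 1, |kap ‖ν n z‖ - kap ‖μ z‖|) atTop (𝓝 0) ∧
      Tendsto (fun n => ∫ z in Metric.ball (0 : ℂ) 1, ‖ν n z - μ z‖ ^ 2 * kap ‖ν n z‖)
        atTop (𝓝 0) := by
  have hr : ∀ n : ℕ, 1 / (8 * ((n : ℝ) + 1)) ≤ 1 / 8 := by
    intro n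
    apply one_div_le_one_div_of_le (by norm_num)
    have : (0 : ℝ) ≤ n := Nat.cast_nonneg n
    linarith
  set M := ∫ z in Metric.ball (0 : ℂ) 2, Real.exp (b * kap ‖μ z‖) with hM
  set ν : ℕ → ℂ → ℂ := fun n => C5_conv (C5_w n) μ with hν
  have hM0 : 0 ≤ M := integral_nonneg fun z => (Real.exp_pos _).le
  have hsm : ∀ n, ContDiff ℝ ∞ (ν n) := fun n => C5_smooth (C5_w_W n) hm h1
  have hlt : ∀ n z, ‖ν n z‖ < 1 := fun n => C5_lt (C5_w_W n) hm h1
  have hMn : ∀ n, ∫ z in Metric.ball (0 : ℂ) 1, Real.exp (b * kap ‖ν n z‖) ≤ M := fun n =>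
    C5_M hb (C5_w_W n) (hr n) hm h1 hint
  have hae := C5_ae hm h1
  have hkm : Measurable (fun z => kap ‖μ z‖) := by
    unfold kap
    fun_prop
  have hkc : ∀ n, Continuous (fun z => kap ‖ν n z‖) := fun n =>
    C5_kap_cont (hsm n).continuous (hlt n)
  have hk1 : ∀ n z, 1 ≤ kap ‖ν n z‖ := fun n z => C5_one_le_kap (norm_nonneg _) (hlt n z)
  have hk2 : ∀ z, 1 ≤ kap ‖μ z‖ := fun z => C5_one_le_kap (norm_nonneg _) (h1 z)
  have hsub : Metric.ball (0 : ℂ) 1 ⊆ Metric.ball (0 : ℂ) 2 := Metric.ball_subset_ball (by norm_num)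
  have hint1 : IntegrableOn (fun z => Real.exp (b * kap ‖μ z‖)) (Metric.ball 0 1) :=
    hint.mono_set hsub
  have hM1 : ∫ z in Metric.ball (0 : ℂ) 1, Real.exp (b * kap ‖μ z‖) ≤ M :=
    setIntegral_mono_set hint (Eventually.of_forall fun z => (Real.exp_pos _).le)
      hsub.eventuallyLE
  have hexpc : ∀ n, Continuous (fun z => Real.exp (b * kap ‖ν n z‖)) := fun n => by
    have := hkc n
    fun_prop
  have hgi : IntegrableOn (fun z => kap ‖μ z‖ ^ 2) (Metric.ball 0 1) := by
    refine (hint1.const_mul (2 / b ^ 2)).mono' (hkm.pow_const 2).aestronglyMeasurable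
      (Eventually.of_forall fun z => ?_)
    rw [Real.norm_of_nonneg (sq_nonneg _)]
    exact C5_sq_le hb (by linarith [hk2 z])
  have hfi : ∀ n, IntegrableOn (fun z => kap ‖ν n z‖ ^ 2) (Metric.ball 0 1) := fun n =>
    C5_int_ball ((hkc n).pow 2)
  have hgM : ∫ z in Metric.ball (0 : ℂ) 1, kap ‖μ z‖ ^ 2 ≤ 2 / b ^ 2 * M := by
    calc ∫ z in Metric.ball (0 : ℂ) 1, kap ‖μ z‖ ^ 2
        ≤ ∫ z in Metric.ball (0 : ℂ) 1, 2 / b ^ 2 * Real.exp (b * kap ‖μ z‖) :=
          integral_mono hgi (hint1.const_mul _) fun z => C5_sq_le hb (by linarith [hk2 z])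
      _ = 2 / b ^ 2 * ∫ z in Metric.ball (0 : ℂ) 1, Real.exp (b * kap ‖μ z‖) :=
          integral_const_mul _ _
      _ ≤ _ := mul_le_mul_of_nonneg_left hM1 (by positivity)
  have hfM : ∀ n, ∫ z in Metric.ball (0 : ℂ) 1, kap ‖ν n z‖ ^ 2 ≤ 2 / b ^ 2 * M := by
    intro n
    calc ∫ z in Metric.ball (0 : ℂ) 1, kap ‖ν n z‖ ^ 2
        ≤ ∫ z in Metric.ball (0 : ℂ) 1, 2 / b ^ 2 * Real.exp (b * kap ‖ν n z‖) :=
          integral_mono (hfi n) ((C5_int_ball (hexpc n)).const_mul _)
            fun z => C5_sq_le hb (by linarith [hk1 n z])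
      _ = 2 / b ^ 2 * ∫ z in Metric.ball (0 : ℂ) 1, Real.exp (b * kap ‖ν n z‖) :=
          integral_const_mul _ _
      _ ≤ _ := mul_le_mul_of_nonneg_left (hMn n) (by positivity)
  have haek : ∀ᵐ z, Tendsto (fun n => kap ‖ν n z‖) atTop (𝓝 (kap ‖μ z‖)) := by
    filter_upwards [hae] with z hz
    have h2 : Tendsto (fun n => ‖ν n z‖) atTop (𝓝 ‖μ z‖) := hz.norm
    unfold kap
    refine Tendsto.div (h2.const_add 1) (h2.const_sub 1) ?_
    have := h1 z
    linarith
  have hL1 : Tendsto (fun n => ∫ z in Metric.ball (0 : ℂ) 1, |kap ‖ν n z‖ - kap ‖μ z‖|) atTop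
      (𝓝 0) :=
    C5_vitali (f := fun n z => kap ‖ν n z‖) (g := fun z => kap ‖μ z‖) measure_ball_lt_top.ne
      Metric.isOpen_ball.measurableSet hkc hkm hk1 hk2 hfi hgi hfM hgM haek
  refine ⟨M, ν, hM0, fun n => ⟨hsm n, C5_supp (C5_w_W n) (hr n) h0, hlt n, hMn n⟩, hL1, ?_⟩
  -- last claim
  have hki : IntegrableOn (fun z => kap ‖μ z‖) (Metric.ball 0 1) :=
    hgi.mono' hkm.aestronglyMeasurable (Eventually.of_forall fun z => by
      have := hk2 z
      rw [Real.norm_of_nonneg (by linarith)]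
      nlinarith)
  have hb4 : ∀ n z, ‖ν n z - μ z‖ ^ 2 ≤ 4 := by
    intro n z
    have a1 := norm_sub_le (ν n z) (μ z)
    have a2 := hlt n z
    have a3 := h1 z
    have a4 := norm_nonneg (ν n z - μ z)
    nlinarith
  have hdc : Tendsto (fun n => ∫ z in Metric.ball (0 : ℂ) 1, ‖ν n z - μ z‖ ^ 2 * kap ‖μ z‖) atTop
      (𝓝 0) := by
    have h := tendsto_integral_of_dominated_convergence (μ := volume.restrict (Metric.ball (0 : ℂ) 1))
      (F := fun n z => ‖ν n z - μ z‖ ^ 2 * kap ‖μ z‖) (f := fun _ => (0 : ℝ))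
      (fun z => 4 * kap ‖μ z‖)
      (fun n => by
        have := (hsm n).continuous.measurable
        exact Measurable.aestronglyMeasurable (by fun_prop))
      (hki.const_mul 4)
      (fun n => Eventually.of_forall fun z => by
        have a1 := hk2 z
        rw [Real.norm_of_nonneg (by positivity)]
        exact mul_le_mul_of_nonneg_right (hb4 n z) (by linarith))
      (by
        refine ae_restrict_of_ae ?_
        filter_upwards [hae] with z hz
        have h2 : Tendsto (fun n => ν n z - μ z) atTop (𝓝 (μ z - μ z)) := hz.sub_const _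
        have h3 := (h2.norm.pow 2).mul_const (kap ‖μ z‖)
        simpa using h3)
    simpa using h
  have hlim : Tendsto (fun n => (∫ z in Metric.ball (0 : ℂ) 1, ‖ν n z - μ z‖ ^ 2 * kap ‖μ z‖) +
      4 * ∫ z in Metric.ball (0 : ℂ) 1, |kap ‖ν n z‖ - kap ‖μ z‖|) atTop (𝓝 0) := by
    have := hdc.add (hL1.const_mul 4)
    simpa using this
  refine squeeze_zero (fun n => integral_nonneg fun z => ?_) (fun n => ?_) hlim
  · exact mul_nonneg (sq_nonneg _) (by linarith [hk1 n z])
  · have hmn := (hsm n).continuous.measurable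
    have hi0 : IntegrableOn (fun z => |kap ‖ν n z‖ - kap ‖μ z‖|) (Metric.ball 0 1) :=
      ((C5_int_ball (hkc n)).sub hki).abs
    have hi1 : IntegrableOn (fun z => ‖ν n z - μ z‖ ^ 2 * kap ‖μ z‖) (Metric.ball 0 1) := by
      refine (hki.const_mul 4).mono' (Measurable.aestronglyMeasurable (by fun_prop))
        (Eventually.of_forall fun z => ?_)
      have a1 := hk2 z
      rw [Real.norm_of_nonneg (by positivity)]
      exact mul_le_mul_of_nonneg_right (hb4 n z) (by linarith)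
    have hi2 : IntegrableOn (fun z => ‖ν n z - μ z‖ ^ 2 * kap ‖ν n z‖) (Metric.ball 0 1) := by
      have hkmn := (hkc n).measurable
      refine ((C5_int_ball (hkc n)).const_mul 4).mono'
        (Measurable.aestronglyMeasurable (by fun_prop))
        (Eventually.of_forall fun z => ?_)
      have a1 := hk1 n z
      rw [Real.norm_of_nonneg (by positivity)]
      exact mul_le_mul_of_nonneg_right (hb4 n z) (by linarith)
    rw [← integral_const_mul, ← integral_add hi1 (hi0.const_mul 4)]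
    refine integral_mono hi2 (hi1.add (hi0.const_mul 4)) fun z => ?_
    simp only
    have a1 := hb4 n z
    have a2 := le_abs_self (kap ‖ν n z‖ - kap ‖μ z‖)
    have a3 : 0 ≤ ‖ν n z - μ z‖ ^ 2 := sq_nonneg _
    have a4 := abs_nonneg (kap ‖ν n z‖ - kap ‖μ z‖)
    nlinarith

end

end Pool.B2F
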