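import Pool.Agent.Lib.MP_b2f128_an.Base
import Pool.Agent.Lib.MP_b2f128_an.A02b

/-!
# MP_b2f128_an, part C60 (very weak solutions)
-/

open Complex MeasureTheory Set Filter Topology
open scoped ContDiff

namespace Pool.B2F

noncomputable section

theorem C60_ineq {γ : ℝ} (hγ : 0 ≤ γ) : ∃ C : ℝ, 0 ≤ C ∧ ∀ t : ℝ, 0 ≤ t →
    t ^ (6 / 5 : ℝ) ≤ 1 + C * (t ^ 2 / Real.log (Real.exp 1 + t) ^ (1 + γ)) := by
  set δ : ℝ := (4 / 5) / (1 + γ) with hδ
  have hγ1 : 0 < 1 + γ := by linarith
  have hδ0 : 0 < δ := by positivity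
  refine ⟨4 / δ ^ (1 + γ), by positivity, ?_⟩
  intro t ht
  have hlog1 : 1 ≤ Real.log (Real.exp 1 + t) := by
    have h1 : Real.log (Real.exp 1) ≤ Real.log (Real.exp 1 + t) :=
      Real.log_le_log (Real.exp_pos 1) (by linarith)
    rwa [Real.log_exp] at h1
  have hlog0 : 0 < Real.log (Real.exp 1 + t) := by linarith
  rcases le_or_gt t 1 with h | h
  · have h1 : t ^ (6 / 5 : ℝ) ≤ 1 := Real.rpow_le_one ht h (by norm_num)
    have h2 : 0 ≤ 4 / δ ^ (1 + γ) * (t ^ 2 / Real.log (Real.exp 1 + t) ^ (1 + γ)) := by positivity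
    linarith
  · have ht0 : 0 < t := by linarith
    have he : Real.exp 1 ≤ 3 := by
      have := Real.exp_one_lt_d9
      linarith
    have hle : Real.log (Real.exp 1 + t) ^ (1 + γ) ≤ 4 / δ ^ (1 + γ) * t ^ (4 / 5 : ℝ) := by
      have h1 : Real.log (Real.exp 1 + t) ≤ (4 * t) ^ δ / δ := by
        refine (Real.log_le_rpow_div (by positivity) hδ0).trans ?_
        apply div_le_div_of_nonneg_right _ hδ0.le
        exact Real.rpow_le_rpow (by positivity) (by linarith) hδ0.le
      calc Real.log (Real.exp 1 + t) ^ (1 + γ) ≤ ((4 * t) ^ δ / δ) ^ (1 + γ) :=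
            Real.rpow_le_rpow hlog0.le h1 hγ1.le
        _ = (4 * t) ^ (4 / 5 : ℝ) / δ ^ (1 + γ) := by
            rw [Real.div_rpow (by positivity) hδ0.le, ← Real.rpow_mul (by positivity)]
            congr 2
            rw [hδ]
            field_simp
        _ = 4 ^ (4 / 5 : ℝ) * t ^ (4 / 5 : ℝ) / δ ^ (1 + γ) := by
            rw [Real.mul_rpow (by norm_num) ht0.le]
        _ ≤ 4 * t ^ (4 / 5 : ℝ) / δ ^ (1 + γ) := by
            apply div_le_div_of_nonneg_right _ (by positivity)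
            apply mul_le_mul_of_nonneg_right _ (by positivity)
            calc (4 : ℝ) ^ (4 / 5 : ℝ) ≤ 4 ^ (1 : ℝ) :=
                  Real.rpow_le_rpow_of_exponent_le (by norm_num) (by norm_num)
              _ = 4 := Real.rpow_one 4
        _ = _ := by ring
    have hL : 0 < Real.log (Real.exp 1 + t) ^ (1 + γ) := Real.rpow_pos_of_pos hlog0 _
    have h2 : t ^ (6 / 5 : ℝ) ≤ 4 / δ ^ (1 + γ) *
        (t ^ 2 / Real.log (Real.exp 1 + t) ^ (1 + γ)) := by
      rw [← mul_div_assoc, le_div_iff₀ hL]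
      calc t ^ (6 / 5 : ℝ) * Real.log (Real.exp 1 + t) ^ (1 + γ)
          ≤ t ^ (6 / 5 : ℝ) * (4 / δ ^ (1 + γ) * t ^ (4 / 5 : ℝ)) :=
            mul_le_mul_of_nonneg_left hle (by positivity)
        _ = 4 / δ ^ (1 + γ) * (t ^ (6 / 5 : ℝ) * t ^ (4 / 5 : ℝ)) := by ring
        _ = 4 / δ ^ (1 + γ) * t ^ 2 := by
            rw [← Real.rpow_add ht0, ← Real.rpow_natCast]
            norm_num
    linarith

/-- C6-0. PROOF: `t^(6/5) ≤ C (1 + t² / log^(1+γ) (e + t))`. -/
theorem Loc.grad_int {b γ : ℝ} (hγ : 0 ≤ γ) {f p q μ : ℂ → ℂ} (h : Loc b γ f p q μ) :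
    Integrable (grad p q) ∧ (∀ z, 0 ≤ grad p q z) ∧
      Integrable (fun z => grad p q z ^ (6 / 5 : ℝ)) ∧
      Integrable (fun z => grad p q z ^ 2 / Real.log (Real.exp 1 + grad p q z) ^ (1 + γ)) := by
  have hsum : IntegrableOn (fun z => ‖p z‖ + ‖q z‖) (Metric.ball 0 2) :=
    h.weak.inta.norm.add h.weak.intb.norm
  have hmb : MeasurableSet (Metric.ball (0 : ℂ) 2) := measurableSet_ball
  have hg : Integrable (grad p q) := hsum.integrable_indicator hmb
  have h0 : ∀ z, 0 ≤ grad p q z := fun z => indicator_nonneg (fun z _ => by positivity) z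
  obtain ⟨C, hC, hineq⟩ := C60_ineq hγ
  refine ⟨hg, h0, ?_, ?_⟩
  · have hon : IntegrableOn (fun z => (‖p z‖ + ‖q z‖) ^ (6 / 5 : ℝ)) (Metric.ball 0 2) := by
      have hdom : IntegrableOn (fun z => 1 + C * ((‖p z‖ + ‖q z‖) ^ 2 /
          Real.log (Real.exp 1 + (‖p z‖ + ‖q z‖)) ^ (1 + γ))) (Metric.ball 0 2) := by
        have h1 : IntegrableOn (fun _ : ℂ => (1 : ℝ)) (Metric.ball 0 2) :=
          integrableOn_const (hs := measure_ball_lt_top.ne)
        exact h1.add (h.intg.const_mul C)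
      refine hdom.mono' ?_ ?_
      · exact (hsum.aestronglyMeasurable.aemeasurable.pow_const _).aestronglyMeasurable
      · refine Eventually.of_forall (fun z => ?_)
        rw [Real.norm_of_nonneg (by positivity)]
        exact hineq _ (by positivity)
    have h2 := hon.integrable_indicator hmb
    refine h2.congr (Eventually.of_forall (fun z => ?_))
    simp only [grad, Set.indicator]
    split_ifs
    · rfl
    · rw [Real.zero_rpow (by norm_num)]
  · have h2 := h.intg.integrable_indicator hmb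
    refine h2.congr (Eventually.of_forall (fun z => ?_))
    simp only [grad, Set.indicator]
    split_ifs
    · rfl
    · simp

end

end Pool.B2F
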