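import Pool.Agent.Lib.MP_b2f128_an.Base
import Pool.Agent.Lib.MP_b2f128_an.A02b

/-!
# MP_b2f128_an, part C6b (very weak solutions)
-/

open Complex MeasureTheory Set Filter Topology
open scoped ContDiff

namespace Pool.B2F

noncomputable section

theorem C6b_fub {g : ℂ → ENNReal} (hg : AEMeasurable g volume) (A : Set ℂ) (r : ℝ) :
    ∫⁻ x in A, ∫⁻ y in Metric.ball x r, g y ≤ volume (Metric.ball (0 : ℂ) r) * ∫⁻ y, g y := by
  have h1 : ∀ x : ℂ, ∫⁻ y in Metric.ball x r, g y
      = ∫⁻ y, ({p : ℂ × ℂ | dist p.2 p.1 < r}.indicator (fun p => g p.2)) (x, y) := by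
    intro x
    rw [← lintegral_indicator measurableSet_ball]
    apply lintegral_congr
    intro y
    simp only [indicator, Metric.mem_ball, mem_setOf_eq]
  have hm : AEMeasurable (Function.uncurry fun x y : ℂ =>
      ({p : ℂ × ℂ | dist p.2 p.1 < r}.indicator (fun p => g p.2)) (x, y))
      ((volume.restrict A).prod volume) := by
    have hs : MeasurableSet {p : ℂ × ℂ | dist p.2 p.1 < r} :=
      measurableSet_lt (measurable_snd.dist measurable_fst) measurable_const
    exact (hg.comp_snd).indicator hs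
  simp only [h1]
  rw [lintegral_lintegral_swap hm]
  rw [← lintegral_const_mul'' _ hg]
  apply lintegral_mono
  intro y
  calc ∫⁻ x in A, ({p : ℂ × ℂ | dist p.2 p.1 < r}.indicator (fun p => g p.2)) (x, y)
      ≤ ∫⁻ x, ({p : ℂ × ℂ | dist p.2 p.1 < r}.indicator (fun p => g p.2)) (x, y) :=
        setLIntegral_le_lintegral _ _
    _ = ∫⁻ x, (Metric.ball y r).indicator (fun _ => g y) x := by
        apply lintegral_congr
        intro x
        simp only [indicator, Metric.mem_ball, mem_setOf_eq, dist_comm x y]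
    _ = g y * volume (Metric.ball y r) := by
        rw [lintegral_indicator measurableSet_ball, setLIntegral_const]
    _ = volume (Metric.ball (0 : ℂ) r) * g y := by
        rw [Complex.volume_ball, Complex.volume_ball, mul_comm]

theorem C6b_ball {r : ℝ} (hr : 0 < r) :
    (ENNReal.ofReal (2 * r ^ 2))⁻¹ * volume (Metric.ball (0 : ℂ) r) ≤ 2 := by
  have h0 : ENNReal.ofReal (2 * r ^ 2) ≠ 0 := by
    rw [ne_eq, ENNReal.ofReal_eq_zero, not_le]; positivity
  have h1 : volume (Metric.ball (0 : ℂ) r) ≤ 2 * ENNReal.ofReal (2 * r ^ 2) := by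
    rw [Complex.volume_ball, ← ENNReal.ofReal_pow hr.le]
    have e1 : (NNReal.pi : ENNReal) = ENNReal.ofReal Real.pi := by
      rw [ENNReal.ofReal, ← NNReal.coe_real_pi, Real.toNNReal_coe]
    rw [e1, ← ENNReal.ofReal_mul (by positivity), show (2 : ENNReal) = ENNReal.ofReal 2 by simp,
      ← ENNReal.ofReal_mul (by norm_num)]
    apply ENNReal.ofReal_le_ofReal
    nlinarith [Real.pi_le_four, sq_nonneg r]
  calc (ENNReal.ofReal (2 * r ^ 2))⁻¹ * volume (Metric.ball (0 : ℂ) r)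
      ≤ (ENNReal.ofReal (2 * r ^ 2))⁻¹ * (2 * ENNReal.ofReal (2 * r ^ 2)) := by gcongr
    _ = 2 * ((ENNReal.ofReal (2 * r ^ 2))⁻¹ * ENNReal.ofReal (2 * r ^ 2)) := by ring
    _ = 2 := by rw [ENNReal.inv_mul_cancel h0 ENNReal.ofReal_ne_top, mul_one]

/-- the pointwise bound -/
theorem C6b_pt {A : Set ℂ} (hA : MeasurableSet A) (hfin : volume A ≠ ⊤) {r L : ℝ} (hr : 0 < r)
    (hL : 0 ≤ L) (hra : (volume A).toReal ≤ r ^ 2 / 4) {v u0 : ℂ → ℂ} {x : ℂ}
    (hlip : ∀ x y, ‖u0 x - u0 y‖ ≤ L * ‖x - y‖)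
    (hu : ∀ y ∈ Metric.ball x r, y ∉ A → u0 y = v y) :
    ‖u0 x‖ₑ ≤ (ENNReal.ofReal (2 * r ^ 2))⁻¹ * (∫⁻ y in Metric.ball x r, ‖v y‖ₑ)
      + ENNReal.ofReal (L * r) := by
  have h0 : ENNReal.ofReal (2 * r ^ 2) ≠ 0 := by
    rw [ne_eq, ENNReal.ofReal_eq_zero, not_le]; positivity
  set E : Set ℂ := Metric.ball x r \ A with hE
  have hEm : MeasurableSet E := measurableSet_ball.diff hA
  have hvE : ENNReal.ofReal (2 * r ^ 2) ≤ volume E := by
    have h1 : volume (Metric.ball x r) ≤ volume E + volume A := by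
      calc volume (Metric.ball x r) ≤ volume (E ∪ A) := by
            apply measure_mono
            intro y hy
            by_cases hyA : y ∈ A
            · exact Or.inr hyA
            · exact Or.inl ⟨hy, hyA⟩
        _ ≤ volume E + volume A := measure_union_le _ _
    have h2 : ENNReal.ofReal (2 * r ^ 2) + volume A ≤ volume (Metric.ball x r) := by
      rw [Complex.volume_ball, ← ENNReal.ofReal_pow hr.le]
      have e1 : (NNReal.pi : ENNReal) = ENNReal.ofReal Real.pi := by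
        rw [ENNReal.ofReal, ← NNReal.coe_real_pi, Real.toNNReal_coe]
      rw [e1, ← ENNReal.ofReal_mul (by positivity), ← ENNReal.ofReal_toReal hfin,
        ← ENNReal.ofReal_add (by positivity) ENNReal.toReal_nonneg]
      apply ENNReal.ofReal_le_ofReal
      nlinarith [Real.pi_gt_three, sq_nonneg r]
    exact (ENNReal.add_le_add_iff_right hfin).1 (h2.trans h1)
  have hkey : ENNReal.ofReal (‖u0 x‖ - L * r) * ENNReal.ofReal (2 * r ^ 2)
      ≤ ∫⁻ y in Metric.ball x r, ‖v y‖ₑ := by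
    calc ENNReal.ofReal (‖u0 x‖ - L * r) * ENNReal.ofReal (2 * r ^ 2)
        ≤ ENNReal.ofReal (‖u0 x‖ - L * r) * volume E := by gcongr
      _ = ∫⁻ _ in E, ENNReal.ofReal (‖u0 x‖ - L * r) := by rw [setLIntegral_const]
      _ ≤ ∫⁻ y in E, ‖v y‖ₑ := by
          apply setLIntegral_mono' hEm
          intro y hy
          have h3 : u0 y = v y := hu y hy.1 hy.2
          rw [← h3, ← ofReal_norm]
          apply ENNReal.ofReal_le_ofReal
          have h4 := hlip x y
          have h5 : ‖x - y‖ ≤ r := by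
            have := Metric.mem_ball.1 hy.1
            rw [dist_eq_norm, norm_sub_rev] at this
            exact this.le
          have h6 : ‖u0 x‖ ≤ ‖u0 y‖ + ‖u0 x - u0 y‖ := by
            calc ‖u0 x‖ = ‖u0 y + (u0 x - u0 y)‖ := by congr 1; ring
              _ ≤ _ := norm_add_le _ _
          have h7 : L * ‖x - y‖ ≤ L * r := mul_le_mul_of_nonneg_left h5 hL
          linarith
      _ ≤ ∫⁻ y in Metric.ball x r, ‖v y‖ₑ := lintegral_mono_set diff_subset
  have h8 : ENNReal.ofReal (‖u0 x‖ - L * r)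
      ≤ (ENNReal.ofReal (2 * r ^ 2))⁻¹ * (∫⁻ y in Metric.ball x r, ‖v y‖ₑ) := by
    calc ENNReal.ofReal (‖u0 x‖ - L * r)
        = (ENNReal.ofReal (2 * r ^ 2))⁻¹ * ENNReal.ofReal (2 * r ^ 2) * ENNReal.ofReal (‖u0 x‖ - L * r) := by
          rw [ENNReal.inv_mul_cancel h0 ENNReal.ofReal_ne_top, one_mul]
      _ = (ENNReal.ofReal (2 * r ^ 2))⁻¹ * (ENNReal.ofReal (‖u0 x‖ - L * r) * ENNReal.ofReal (2 * r ^ 2)) := by ring
      _ ≤ _ := by gcongr
  calc ‖u0 x‖ₑ = ENNReal.ofReal ‖u0 x‖ := (ofReal_norm _).symm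
    _ = ENNReal.ofReal ((‖u0 x‖ - L * r) + L * r) := by congr 1; ring
    _ ≤ ENNReal.ofReal (‖u0 x‖ - L * r) + ENNReal.ofReal (L * r) := ENNReal.ofReal_add_le
    _ ≤ _ := by gcongr

/-- C6b. (pure real analysis) PROOF. `A n` sets with `|A n| → 0`, `r n = 2 |A n|^(1/2)`, `L n r n |A n| → 0`. For `x ∈ A n ∩ ball 0 (1/2)` and `r n < 1/4`: `|ball x r minus A| ≥ 2 r²`, so `‖u0 x‖ ≤ (1/(2r²)) ∫_{ball x r minus A} ‖v‖ + L r`; integrate over
`x ∈ A n`, Fubini: `∫ ‖v y‖ w y dy + L r |A|`, `w y = |A n ∩ ball y r|/(2 r²) ≤ π/2`, `∫ w ≤ (π/2) |A n|`. `∫ ‖v‖ w ≤ (π/2) ε' + ∫ ‖f‖ w`, `∫ ‖f‖ w ≤ T (π/2) |A n| + (π/2) ∫_{‖f‖ > T} ‖f‖`. (If `|A n| = 0` the claim is trivial.)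
Conclusion: `∫_{ball 0 (1/2)} ‖u0 - f‖ ≤ 3 ε' + ε` for `n ≥ n0`. -/
theorem ext_L1 {f : ℂ → ℂ} (hf : IntegrableOn f (Metric.ball 0 2)) {A : ℕ → Set ℂ}
    (hA : ∀ n, MeasurableSet (A n)) {L : ℕ → ℝ} (hL : ∀ n, 0 ≤ L n)
    (h1 : Tendsto (fun n => (volume (A n)).toReal) atTop (𝓝 0)) (hfin : ∀ n, volume (A n) ≠ ⊤)
    (h2 : Tendsto (fun n => L n * (volume (A n)).toReal) atTop (𝓝 0)) {ε : ℝ} (hε : 0 < ε) :
    ∃ n0 : ℕ, ∀ n, n0 ≤ n → ∀ (v u0 : ℂ → ℂ) (ε' : ℝ), Continuous v → 0 ≤ ε' →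
      (∫ z in Metric.ball (0 : ℂ) (3 / 4), ‖v z - f z‖ ≤ ε') →
      (∀ x y, ‖u0 x - u0 y‖ ≤ L n * ‖x - y‖) →
      (∀ x ∈ Metric.ball (0 : ℂ) (3 / 4), x ∉ A n → u0 x = v x) →
      ∫ z in Metric.ball (0 : ℂ) (1 / 2), ‖u0 z - f z‖ ≤ 5 * ε' + ε := by
  set F : ℂ → ℂ := (Metric.ball (0 : ℂ) 2).indicator f with hFdef
  have hF : Integrable F volume := (integrable_indicator_iff measurableSet_ball).2 hf
  obtain ⟨g, hgc, hg1, hg2, hg3⟩ := hF.exists_hasCompactSupport_lintegral_sub_le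
    (ε := ENNReal.ofReal (ε / 9)) (by rw [ne_eq, ENNReal.ofReal_eq_zero, not_le]; positivity)
  obtain ⟨T0, hT0⟩ : ∃ T0, ∀ x, ‖g x‖ ≤ T0 := hg2.bounded_above_of_compact_support hgc
  have hT0n : 0 ≤ T0 := (norm_nonneg _).trans (hT0 0)
  set a : ℕ → ℝ := fun n => (volume (A n)).toReal with ha
  have ha0 : ∀ n, 0 ≤ a n := fun n => ENNReal.toReal_nonneg
  set r : ℕ → ℝ := fun n => 2 * Real.sqrt (a n) + 1 / ((n : ℝ) + 1) with hrdef
  have hr : Tendsto r atTop (𝓝 0) := by
    have e1 : Tendsto (fun n => 2 * Real.sqrt (a n)) atTop (𝓝 0) := by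
      have := ((Real.continuous_sqrt.tendsto 0).comp h1).const_mul 2
      simpa using this
    have e2 : Tendsto (fun n : ℕ => 1 / ((n : ℝ) + 1)) atTop (𝓝 0) := tendsto_one_div_add_atTop_nhds_zero_nat
    have e3 := e1.add e2
    rw [add_zero] at e3
    exact e3
  have hrpos : ∀ n, 0 < r n := fun n => by
    have : 0 ≤ Real.sqrt (a n) := Real.sqrt_nonneg _
    have h3 : 0 < 1 / ((n : ℝ) + 1) := by positivity
    simp only [hrdef]; linarith
  have hra : ∀ n, a n ≤ r n ^ 2 / 4 := fun n => by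
    have h3 : Real.sqrt (a n) ^ 2 = a n := Real.sq_sqrt (ha0 n)
    have h4 : 2 * Real.sqrt (a n) ≤ r n := by
      have h3 : 0 < 1 / ((n : ℝ) + 1) := by positivity
      simp only [hrdef]; linarith
    have h5 : 0 ≤ Real.sqrt (a n) := Real.sqrt_nonneg _
    nlinarith
  have e1 : ∀ᶠ n in atTop, r n < 1 / 4 := hr.eventually (gt_mem_nhds (by norm_num))
  have e2 : ∀ᶠ n in atTop, 3 * T0 * a n < ε / 3 := by
    have : Tendsto (fun n => 3 * T0 * a n) atTop (𝓝 0) := by simpa using h1.const_mul (3 * T0)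
    exact this.eventually (gt_mem_nhds (by positivity))
  have e3 : ∀ᶠ n in atTop, r n * (L n * a n) < ε / 3 := by
    have : Tendsto (fun n => r n * (L n * a n)) atTop (𝓝 0) := by simpa using hr.mul h2
    exact this.eventually (gt_mem_nhds (by positivity))
  obtain ⟨n0, hn0⟩ := eventually_atTop.1 (e1.and (e2.and e3))
  refine ⟨n0, fun n hn v u0 ε' hv hε' hvf hlip hu0v => ?_⟩
  obtain ⟨k1, k2, k3⟩ := hn0 n hn
  set B' : Set ℂ := Metric.ball (0 : ℂ) (3 / 4) with hB'
  set B : Set ℂ := Metric.ball (0 : ℂ) (1 / 2) with hB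
  have hBB' : B ⊆ B' := Metric.ball_subset_ball (by norm_num)
  have hB'2 : B' ⊆ Metric.ball (0 : ℂ) 2 := Metric.ball_subset_ball (by norm_num)
  have hFf : ∀ y ∈ B', F y = f y := fun y hy => indicator_of_mem (hB'2 hy) f
  have hu0c : Continuous u0 := by
    have : LipschitzWith (Real.toNNReal (L n)) u0 := by
      apply LipschitzWith.of_dist_le_mul
      intro x y
      rw [dist_eq_norm, dist_eq_norm, Real.coe_toNNReal _ (hL n)]
      exact hlip x y
    exact this.continuous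
  have hfB' : IntegrableOn f B' := hf.mono_set hB'2
  have hvB' : IntegrableOn v B' :=
    (hv.continuousOn.integrableOn_compact (isCompact_closedBall (0 : ℂ) (3 / 4))).mono_set
      Metric.ball_subset_closedBall
  have hvfI : IntegrableOn (fun z => v z - f z) B' := hvB'.sub hfB'
  have hvfl : ∫⁻ z in B', ‖v z - f z‖ₑ ≤ ENNReal.ofReal ε' := by
    rw [← ofReal_integral_norm_eq_lintegral_enorm hvfI]
    exact ENNReal.ofReal_le_ofReal hvf
  have hFg : AEStronglyMeasurable (fun y => F y - g y) volume :=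
    hF.aestronglyMeasurable.sub hg2.aestronglyMeasurable
  -- the function G
  set G : ℂ → ENNReal := B'.indicator (fun y => ‖v y - f y‖ₑ + ‖F y - g y‖ₑ) with hG
  have hGm : AEMeasurable G volume := by
    rw [hG, aemeasurable_indicator_iff measurableSet_ball]
    exact hvfI.aestronglyMeasurable.enorm.add hFg.restrict.enorm
  have hGint : ∫⁻ y, G y ≤ ENNReal.ofReal ε' + ENNReal.ofReal (ε / 9) := by
    rw [hG, lintegral_indicator measurableSet_ball]
    rw [lintegral_add_right' _ hFg.restrict.enorm]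
    exact add_le_add hvfl ((setLIntegral_le_lintegral _ _).trans hg1)
  have hvG : ∀ y ∈ B', ‖v y‖ₑ ≤ G y + ENNReal.ofReal T0 := by
    intro y hy
    have e4 : v y = (v y - f y) + (F y - g y) + g y := by rw [hFf y hy]; ring
    have e5 : G y = ‖v y - f y‖ₑ + ‖F y - g y‖ₑ := indicator_of_mem hy _
    rw [e5]
    calc ‖v y‖ₑ = ‖(v y - f y) + (F y - g y) + g y‖ₑ := by rw [← e4]
      _ ≤ ‖(v y - f y) + (F y - g y)‖ₑ + ‖g y‖ₑ := enorm_add_le _ _
      _ ≤ (‖v y - f y‖ₑ + ‖F y - g y‖ₑ) + ENNReal.ofReal T0 := by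
          refine add_le_add (enorm_add_le _ _) ?_
          rw [← ofReal_norm]
          exact ENNReal.ofReal_le_ofReal (hT0 y)
  have hsubb : ∀ x ∈ B, Metric.ball x (r n) ⊆ B' := by
    intro x hx y hy
    rw [hB', Metric.mem_ball]
    have h3 := Metric.mem_ball.1 hx
    have h4 := Metric.mem_ball.1 hy
    have h5 := dist_triangle y x 0
    linarith
  set S : Set ℂ := A n ∩ B with hS
  have hSm : MeasurableSet S := (hA n).inter measurableSet_ball
  have hSA : volume S ≤ ENNReal.ofReal (a n) := by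
    rw [ha, ENNReal.ofReal_toReal (hfin n)]
    exact measure_mono inter_subset_left
  have hpt : ∀ x ∈ S, ‖u0 x‖ₑ ≤ (ENNReal.ofReal (2 * r n ^ 2))⁻¹ *
      ((∫⁻ y in Metric.ball x (r n), G y) + ENNReal.ofReal T0 * volume (Metric.ball (0 : ℂ) (r n)))
      + ENNReal.ofReal (L n * r n) := by
    intro x hx
    have h3 := C6b_pt (hA n) (hfin n) (hrpos n) (hL n) (hra n) (v := v) (u0 := u0) (x := x) hlip
      (fun y hy hyA => hu0v y (hsubb x hx.2 hy) hyA)
    refine h3.trans ?_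
    gcongr
    calc ∫⁻ y in Metric.ball x (r n), ‖v y‖ₑ
        ≤ ∫⁻ y in Metric.ball x (r n), (G y + ENNReal.ofReal T0) := by
          apply setLIntegral_mono' measurableSet_ball
          intro y hy
          exact hvG y (hsubb x hx.2 hy)
      _ = (∫⁻ y in Metric.ball x (r n), G y) + ENNReal.ofReal T0 * volume (Metric.ball (0 : ℂ) (r n)) := by
          rw [lintegral_add_right _ measurable_const, setLIntegral_const, Complex.volume_ball,
            Complex.volume_ball]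
  have hc0 : (ENNReal.ofReal (2 * r n ^ 2))⁻¹ ≠ ⊤ := by
    rw [ENNReal.inv_ne_top, ne_eq, ENNReal.ofReal_eq_zero, not_le]
    have := hrpos n
    positivity
  have hSint : ∫⁻ x in S, ‖u0 x‖ₑ ≤ 2 * (ENNReal.ofReal ε' + ENNReal.ofReal (ε / 9)
      + ENNReal.ofReal T0 * ENNReal.ofReal (a n)) + ENNReal.ofReal (L n * r n) * ENNReal.ofReal (a n) := by
    calc ∫⁻ x in S, ‖u0 x‖ₑ
        ≤ ∫⁻ x in S, ((ENNReal.ofReal (2 * r n ^ 2))⁻¹ *
          ((∫⁻ y in Metric.ball x (r n), G y) + ENNReal.ofReal T0 * volume (Metric.ball (0 : ℂ) (r n)))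
          + ENNReal.ofReal (L n * r n)) := setLIntegral_mono' hSm hpt
      _ = (ENNReal.ofReal (2 * r n ^ 2))⁻¹ * ((∫⁻ x in S, ∫⁻ y in Metric.ball x (r n), G y)
          + ENNReal.ofReal T0 * volume (Metric.ball (0 : ℂ) (r n)) * volume S)
          + ENNReal.ofReal (L n * r n) * volume S := by
          rw [lintegral_add_right _ measurable_const, setLIntegral_const, lintegral_const_mul' _ _ hc0,
            lintegral_add_right _ measurable_const, setLIntegral_const]
      _ ≤ (ENNReal.ofReal (2 * r n ^ 2))⁻¹ * (volume (Metric.ball (0 : ℂ) (r n)) * (∫⁻ y, G y)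
          + ENNReal.ofReal T0 * volume (Metric.ball (0 : ℂ) (r n)) * volume S)
          + ENNReal.ofReal (L n * r n) * volume S := by
          gcongr
          exact C6b_fub hGm S (r n)
      _ = (ENNReal.ofReal (2 * r n ^ 2))⁻¹ * volume (Metric.ball (0 : ℂ) (r n)) * ((∫⁻ y, G y)
          + ENNReal.ofReal T0 * volume S) + ENNReal.ofReal (L n * r n) * volume S := by ring
      _ ≤ 2 * ((ENNReal.ofReal ε' + ENNReal.ofReal (ε / 9)) + ENNReal.ofReal T0 * ENNReal.ofReal (a n))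
          + ENNReal.ofReal (L n * r n) * ENNReal.ofReal (a n) := by
          gcongr
          exact C6b_ball (hrpos n)
  -- the integral of `f` over `S`
  have hfS : ∫⁻ x in S, ‖f x‖ₑ ≤ ENNReal.ofReal (ε / 9) + ENNReal.ofReal T0 * ENNReal.ofReal (a n) := by
    calc ∫⁻ x in S, ‖f x‖ₑ ≤ ∫⁻ x in S, (‖F x - g x‖ₑ + ENNReal.ofReal T0) := by
          apply setLIntegral_mono' hSm
          intro x hx
          have e4 : f x = (F x - g x) + g x := by rw [hFf x (hBB' hx.2)]; ring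
          calc ‖f x‖ₑ = ‖(F x - g x) + g x‖ₑ := by rw [← e4]
            _ ≤ ‖F x - g x‖ₑ + ‖g x‖ₑ := enorm_add_le _ _
            _ ≤ ‖F x - g x‖ₑ + ENNReal.ofReal T0 := by
                gcongr
                rw [← ofReal_norm]
                exact ENNReal.ofReal_le_ofReal (hT0 x)
      _ = (∫⁻ x in S, ‖F x - g x‖ₑ) + ENNReal.ofReal T0 * volume S := by
          rw [lintegral_add_right _ measurable_const, setLIntegral_const]
      _ ≤ _ := by
          gcongr
          exact (setLIntegral_le_lintegral _ _).trans hg1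
  -- total
  have hfBm : AEStronglyMeasurable f (volume.restrict S) :=
    (hfB'.aestronglyMeasurable).mono_measure (Measure.restrict_mono (inter_subset_right.trans hBB') le_rfl)
  have htot : ∫⁻ z in B, ‖u0 z - f z‖ₑ ≤ ENNReal.ofReal (5 * ε' + ε) := by
    have hsplit : B = (B \ A n) ∪ S := by
      ext z; simp only [hS, mem_union, mem_diff, mem_inter_iff]; tauto
    have hBA : MeasurableSet (B \ A n) := measurableSet_ball.diff (hA n)
    calc ∫⁻ z in B, ‖u0 z - f z‖ₑ ≤ (∫⁻ z in B \ A n, ‖u0 z - f z‖ₑ) + ∫⁻ z in S, ‖u0 z - f z‖ₑ := by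
          conv_lhs => rw [hsplit]
          exact lintegral_union_le _ _ _
      _ ≤ (∫⁻ z in B', ‖v z - f z‖ₑ) + ((∫⁻ z in S, ‖u0 z‖ₑ) + ∫⁻ z in S, ‖f z‖ₑ) := by
          refine add_le_add ?_ ?_
          · calc ∫⁻ z in B \ A n, ‖u0 z - f z‖ₑ = ∫⁻ z in B \ A n, ‖v z - f z‖ₑ := by
                  apply setLIntegral_congr_fun hBA
                  intro z hz
                  simp only [hu0v z (hBB' hz.1) hz.2]
              _ ≤ _ := lintegral_mono_set (diff_subset.trans hBB')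
          · rw [← lintegral_add_right' _ hfBm.enorm]
            apply lintegral_mono
            intro z
            calc ‖u0 z - f z‖ₑ = ‖u0 z + (-f z)‖ₑ := by rw [sub_eq_add_neg]
              _ ≤ ‖u0 z‖ₑ + ‖-f z‖ₑ := enorm_add_le _ _
              _ = ‖u0 z‖ₑ + ‖f z‖ₑ := by rw [enorm_neg]
      _ ≤ ENNReal.ofReal ε' + ((2 * (ENNReal.ofReal ε' + ENNReal.ofReal (ε / 9)
          + ENNReal.ofReal T0 * ENNReal.ofReal (a n)) + ENNReal.ofReal (L n * r n) * ENNReal.ofReal (a n))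
          + (ENNReal.ofReal (ε / 9) + ENNReal.ofReal T0 * ENNReal.ofReal (a n))) :=
          add_le_add hvfl (add_le_add hSint hfS)
      _ = ENNReal.ofReal (ε' + ((2 * (ε' + ε / 9 + T0 * a n) + (L n * r n) * a n) + (ε / 9 + T0 * a n))) := by
          have i1 : 0 ≤ ε / 9 := by positivity
          have i2 : 0 ≤ T0 * a n := mul_nonneg hT0n (ha0 n)
          have i3 : 0 ≤ L n * r n := mul_nonneg (hL n) (hrpos n).le
          have i4 : 0 ≤ L n * r n * a n := mul_nonneg i3 (ha0 n)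
          rw [ENNReal.ofReal_add hε' (by positivity), ENNReal.ofReal_add (by positivity) (by positivity),
            ENNReal.ofReal_add (by positivity) i4, ENNReal.ofReal_mul (by norm_num : (0 : ℝ) ≤ 2),
            ENNReal.ofReal_add (by positivity) i2, ENNReal.ofReal_add hε' i1,
            ENNReal.ofReal_add i1 i2, ENNReal.ofReal_mul hT0n, ENNReal.ofReal_mul i3]
          simp
      _ ≤ ENNReal.ofReal (5 * ε' + ε) := by
          apply ENNReal.ofReal_le_ofReal
          nlinarith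
  have hm : AEStronglyMeasurable (fun z => u0 z - f z) (volume.restrict B) :=
    hu0c.aestronglyMeasurable.sub
      ((hfB'.aestronglyMeasurable).mono_measure (Measure.restrict_mono hBB' le_rfl))
  rw [integral_norm_eq_lintegral_enorm hm]
  exact ENNReal.toReal_le_of_le_ofReal (by positivity) htot

end

end Pool.B2F
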