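import Pool.Agent.Lib.MP_b2f128_an.Base
import Pool.Agent.Lib.MP_b2f128_an.A02a
import Pool.Agent.Lib.MP_b2f128_an.A02b
import Pool.Agent.Lib.MP_b2f128_an.A28b
import Pool.Agent.Lib.MP_b2f128_an.B1a
import Pool.Agent.Lib.MP_b2f128_an.B1b
import Pool.Agent.Lib.MP_b2f128_an.B2a
import Pool.Agent.Lib.MP_b2f128_an.C0a
import Pool.Agent.Lib.MP_b2f128_an.C4
import Pool.Agent.Lib.MP_b2f128_an.C5
import Pool.Agent.Lib.MP_b2f128_an.C60
import Pool.Agent.Lib.MP_b2f128_an.C6a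
import Pool.Agent.Lib.MP_b2f128_an.C6b

/-!
# MP_b2f128_an, part C6c (very weak solutions)
-/

open Complex MeasureTheory Set Filter Topology
open scoped ContDiff

namespace Pool.B2F

noncomputable section

theorem C6c_good_mono {C C' b' : ℝ} {μ F G : ℂ → ℂ} (h : Good C b' μ F G) (hC : C ≤ C') :
    Good C' b' μ F G where
  cF := h.cF
  cG := h.cG
  GF := h.GF
  FG := h.FG
  bel := h.bel
  nz := h.nz
  near := fun z => (h.near z).trans hC
  area := h.area.trans hC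
  dist := fun L E hL hE hE1 hE2 => (h.dist L E hL hE hE1 hE2).trans
    (mul_le_mul_of_nonneg_right hC (Real.rpow_nonneg (by linarith) _))

theorem C6c_bad {g : ℂ → ℝ} (hg : Integrable g) (h0 : ∀ z, 0 ≤ g z)
    (h65 : Integrable (fun z => g z ^ (6 / 5 : ℝ))) (i : ℕ) :
    (2 : ℝ) ^ i * (volume (Bad g (2 ^ i))).toReal ≤
      320 * (∫ z, g z ^ (6 / 5 : ℝ)) * ((2 : ℝ) ^ i) ^ (-(1 / 5 : ℝ)) := by
  have hL : (0 : ℝ) < 2 ^ i := by positivity
  have h1 := bad_weak' hg h0 hL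
  have hI : 0 ≤ ∫ z, g z ^ (6 / 5 : ℝ) := integral_nonneg fun z => Real.rpow_nonneg (h0 z) _
  have h2 : ∫ z in {z | (2 : ℝ) ^ i / 8 < g z}, g z ≤
      (8 / (2 : ℝ) ^ i) ^ (1 / 5 : ℝ) * ∫ z, g z ^ (6 / 5 : ℝ) := by
    rw [← integral_const_mul]
    have hs : NullMeasurableSet {z | (2 : ℝ) ^ i / 8 < g z} :=
      nullMeasurableSet_lt aemeasurable_const hg.aemeasurable
    refine le_trans (integral_mono_ae hg.integrableOn (h65.const_mul _).integrableOn ?_)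
      (setIntegral_le_integral (h65.const_mul _) (ae_of_all _ fun z => ?_))
    · filter_upwards [ae_restrict_mem₀ hs] with z hz
      have hz' : (2 : ℝ) ^ i / 8 < g z := hz
      have hgz : 0 < g z := lt_trans (by positivity) hz'
      have e1 : (8 / (2 : ℝ) ^ i) ^ (1 / 5 : ℝ) * g z ^ (6 / 5 : ℝ) =
          g z * (8 / (2 : ℝ) ^ i * g z) ^ (1 / 5 : ℝ) := by
        rw [Real.mul_rpow (by positivity) hgz.le, show (6 / 5 : ℝ) = 1 + 1 / 5 by norm_num,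
          Real.rpow_add hgz, Real.rpow_one]
        ring
      have e2 : 1 ≤ 8 / (2 : ℝ) ^ i * g z := by
        rw [div_mul_eq_mul_div, le_div_iff₀ hL]
        linarith
      have e3 : 1 ≤ (8 / (2 : ℝ) ^ i * g z) ^ (1 / 5 : ℝ) := Real.one_le_rpow e2 (by norm_num)
      show g z ≤ (8 / (2 : ℝ) ^ i) ^ (1 / 5 : ℝ) * g z ^ (6 / 5 : ℝ)
      rw [e1]
      nlinarith
    · have := Real.rpow_nonneg (h0 z) (6 / 5 : ℝ)
      positivity
  have hI2 : 0 ≤ ∫ z in {z | (2 : ℝ) ^ i / 8 < g z}, g z := integral_nonneg h0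
  have h3 : (volume (Bad g (2 ^ i))).toReal ≤
      160 / 2 ^ i * ∫ z in {z | (2 : ℝ) ^ i / 8 < g z}, g z :=
    ENNReal.toReal_le_of_le_ofReal (by positivity) h1
  have h8 : (8 : ℝ) ^ (1 / 5 : ℝ) ≤ 2 := by
    have : (8 : ℝ) ^ (1 / 5 : ℝ) ≤ (32 : ℝ) ^ (1 / 5 : ℝ) :=
      Real.rpow_le_rpow (by norm_num) (by norm_num) (by norm_num)
    refine this.trans (le_of_eq ?_)
    rw [show (32 : ℝ) = 2 ^ (5 : ℝ) by norm_num, ← Real.rpow_mul (by norm_num)]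
    norm_num
  have h5 : (8 / (2 : ℝ) ^ i) ^ (1 / 5 : ℝ) ≤ 2 * ((2 : ℝ) ^ i) ^ (-(1 / 5 : ℝ)) := by
    rw [Real.div_rpow (by norm_num) hL.le, Real.rpow_neg hL.le, div_eq_mul_inv]
    exact mul_le_mul_of_nonneg_right h8 (by positivity)
  calc (2 : ℝ) ^ i * (volume (Bad g (2 ^ i))).toReal
      ≤ 2 ^ i * (160 / 2 ^ i * ∫ z in {z | (2 : ℝ) ^ i / 8 < g z}, g z) :=
        mul_le_mul_of_nonneg_left h3 hL.le
    _ = 160 * ∫ z in {z | (2 : ℝ) ^ i / 8 < g z}, g z := by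
        rw [← mul_assoc, mul_div_cancel₀ _ hL.ne']
    _ ≤ 160 * ((8 / (2 : ℝ) ^ i) ^ (1 / 5 : ℝ) * ∫ z, g z ^ (6 / 5 : ℝ)) :=
        mul_le_mul_of_nonneg_left h2 (by norm_num)
    _ ≤ 160 * (2 * ((2 : ℝ) ^ i) ^ (-(1 / 5 : ℝ)) * ∫ z, g z ^ (6 / 5 : ℝ)) := by
        refine mul_le_mul_of_nonneg_left (mul_le_mul_of_nonneg_right h5 hI) (by norm_num)
    _ = _ := by ring

theorem C6c_finite {g : ℂ → ℝ} (hg : Integrable g) (h0 : ∀ z, 0 ≤ g z) (i : ℕ) :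
    volume (Bad g (2 ^ i)) ≠ ⊤ :=
  ne_top_of_le_ne_top ENNReal.ofReal_ne_top (bad_weak hg h0 (by positivity))

theorem C6c_tendsto {g : ℂ → ℝ} (hg : Integrable g) (h0 : ∀ z, 0 ≤ g z)
    (h65 : Integrable (fun z => g z ^ (6 / 5 : ℝ))) :
    Tendsto (fun i : ℕ => (2 : ℝ) ^ i * (volume (Bad g (2 ^ i))).toReal) atTop (𝓝 0) := by
  have h1 : Tendsto (fun i : ℕ => 320 * (∫ z, g z ^ (6 / 5 : ℝ)) *
      ((2 : ℝ) ^ i) ^ (-(1 / 5 : ℝ))) atTop (𝓝 0) := by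
    have h2 : Tendsto (fun i : ℕ => ((2 : ℝ) ^ i) ^ (-(1 / 5 : ℝ))) atTop (𝓝 0) :=
      (tendsto_rpow_neg_atTop (by norm_num)).comp (tendsto_pow_atTop_atTop_of_one_lt (by norm_num))
    simpa using h2.const_mul (320 * (∫ z, g z ^ (6 / 5 : ℝ)))
  exact squeeze_zero (fun i => by positivity) (fun i => C6c_bad hg h0 h65 i) h1

theorem C6c_bad65 {g : ℂ → ℝ} (hg : Integrable g) (h0 : ∀ z, 0 ≤ g z)
    (h65 : Integrable (fun z => g z ^ (6 / 5 : ℝ))) (i : ℕ) :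
    (2 : ℝ) ^ (6 / 5 * (i : ℝ)) * (volume (Bad g (2 ^ i))).toReal ≤
      320 * ∫ z, g z ^ (6 / 5 : ℝ) := by
  have hL : (0 : ℝ) < 2 ^ i := by positivity
  have e : (2 : ℝ) ^ (6 / 5 * (i : ℝ)) = ((2 : ℝ) ^ i) ^ (1 / 5 : ℝ) * 2 ^ i := by
    rw [show (6 / 5 * (i : ℝ)) = (i : ℝ) * (1 / 5) + i by ring, Real.rpow_add (by norm_num),
      Real.rpow_mul (by norm_num), Real.rpow_natCast]
  have h1 := C6c_bad hg h0 h65 i
  rw [e, mul_assoc]
  calc ((2 : ℝ) ^ i) ^ (1 / 5 : ℝ) * (2 ^ i * (volume (Bad g (2 ^ i))).toReal)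
      ≤ ((2 : ℝ) ^ i) ^ (1 / 5 : ℝ) *
        (320 * (∫ z, g z ^ (6 / 5 : ℝ)) * ((2 : ℝ) ^ i) ^ (-(1 / 5 : ℝ))) :=
        mul_le_mul_of_nonneg_left h1 (by positivity)
    _ = 320 * (∫ z, g z ^ (6 / 5 : ℝ)) *
        (((2 : ℝ) ^ i) ^ (1 / 5 : ℝ) * ((2 : ℝ) ^ i) ^ (-(1 / 5 : ℝ))) := by ring
    _ = 320 * ∫ z, g z ^ (6 / 5 : ℝ) := by
        rw [← Real.rpow_add hL]
        norm_num

theorem C6c_kap_cont {μ : ℂ → ℂ} (hμ : Continuous μ) (h1 : ∀ z, ‖μ z‖ < 1) :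
    Continuous fun z => kap ‖μ z‖ := by
  unfold kap
  refine Continuous.div (by fun_prop) (by fun_prop) fun z => ?_
  have := h1 z
  linarith

theorem C6c_one_le_kap {t : ℝ} (h0 : 0 ≤ t) (h1 : t < 1) : 1 ≤ kap t := by
  unfold kap
  rw [le_div_iff₀ (by linarith)]
  linarith

theorem C6c_jac_cont {F : ℂ → ℂ} (hF : ContDiff ℝ ∞ F) : Continuous (jac F) := by
  have h1 := (dz_smooth hF).continuous
  have h2 := (dzb_smooth hF).continuous
  unfold jac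
  fun_prop

theorem C6c_intOn {g : ℂ → ℝ} (hg : Continuous g) (R : ℝ) :
    IntegrableOn g (Metric.ball (0 : ℂ) R) :=
  (hg.continuousOn.integrableOn_compact (isCompact_closedBall (0 : ℂ) R)).mono_set
    Metric.ball_subset_closedBall

/-- elementary: `∫ ‖ν - μ‖ ‖DF‖ ≤ δ / (2 t) + t C / 2` -/
theorem C6c_cs {C b' : ℝ} {μ ν F G : ℂ → ℂ} (hG : Good C b' ν F G) (hν : Continuous ν)
    (h1 : ∀ z, ‖ν z‖ < 1) (hm : Measurable μ) (hμ1 : ∀ z, ‖μ z‖ < 1) {t : ℝ} (ht : 0 < t) :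
    ∫ z in Metric.ball (0 : ℂ) 1, ‖ν z - μ z‖ * ‖fderiv ℝ F z‖ ≤
      (∫ z in Metric.ball (0 : ℂ) 1, ‖ν z - μ z‖ ^ 2 * kap ‖ν z‖) / (2 * t) + t * C / 2 := by
  have hKc := C6c_kap_cont hν h1
  have hJc := C6c_jac_cont hG.cF
  have hDc : Continuous fun z => ‖fderiv ℝ F z‖ :=
    (hG.cF.continuous_fderiv (by simp)).norm
  have hK1 : ∀ z, 1 ≤ kap ‖ν z‖ := fun z => C6c_one_le_kap (norm_nonneg _) (h1 z)
  have hJ0 : ∀ z, 0 ≤ jac F z := fun z => (hG.jac_pos h1 z).le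
  have hd : Measurable fun z => ‖ν z - μ z‖ := (hν.measurable.sub hm).norm
  have hb : ∀ z, ‖ν z - μ z‖ ≤ 2 := fun z =>
    (norm_sub_le _ _).trans (by linarith [h1 z, hμ1 z])
  have i1 : IntegrableOn (fun z => ‖ν z - μ z‖ * ‖fderiv ℝ F z‖) (Metric.ball (0 : ℂ) 1) := by
    refine Integrable.mono' ((C6c_intOn hDc 1).const_mul 2)
      ((hd.mul hDc.measurable).aestronglyMeasurable) (ae_of_all _ fun z => ?_)
    rw [Real.norm_eq_abs, abs_of_nonneg (by positivity)]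
    exact mul_le_mul_of_nonneg_right (hb z) (norm_nonneg _)
  have i2 : IntegrableOn (fun z => ‖ν z - μ z‖ ^ 2 * kap ‖ν z‖) (Metric.ball (0 : ℂ) 1) := by
    refine Integrable.mono' ((C6c_intOn hKc 1).const_mul 4)
      (((hd.pow_const 2).mul hKc.measurable).aestronglyMeasurable) (ae_of_all _ fun z => ?_)
    have := hK1 z
    rw [Real.norm_eq_abs, abs_of_nonneg (by positivity)]
    refine mul_le_mul_of_nonneg_right ?_ (by linarith)
    nlinarith [hb z, norm_nonneg (ν z - μ z)]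
  have i3 := C6c_intOn hJc 1
  calc ∫ z in Metric.ball (0 : ℂ) 1, ‖ν z - μ z‖ * ‖fderiv ℝ F z‖
      ≤ ∫ z in Metric.ball (0 : ℂ) 1, (1 / (2 * t) * (‖ν z - μ z‖ ^ 2 * kap ‖ν z‖) +
          t / 2 * jac F z) := by
        refine integral_mono i1 ((i2.const_mul _).add (i3.const_mul _)) fun z => ?_
        have e := hG.norm_sq h1 z
        have hK := hK1 z
        have hJ := hJ0 z
        show ‖ν z - μ z‖ * ‖fderiv ℝ F z‖ ≤ 1 / (2 * t) * (‖ν z - μ z‖ ^ 2 * kap ‖ν z‖) +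
          t / 2 * jac F z
        have hKp : 0 < kap ‖ν z‖ := by linarith
        have e2 : t / 2 * jac F z = t / 2 * (‖fderiv ℝ F z‖ ^ 2 / kap ‖ν z‖) := by
          rw [e]; field_simp
        rw [e2]
        have key : 0 ≤ (‖ν z - μ z‖ * kap ‖ν z‖ - t * ‖fderiv ℝ F z‖) ^ 2 / (2 * t * kap ‖ν z‖) := by
          positivity
        have e3 : (‖ν z - μ z‖ * kap ‖ν z‖ - t * ‖fderiv ℝ F z‖) ^ 2 / (2 * t * kap ‖ν z‖) =
            1 / (2 * t) * (‖ν z - μ z‖ ^ 2 * kap ‖ν z‖) +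
              t / 2 * (‖fderiv ℝ F z‖ ^ 2 / kap ‖ν z‖) - ‖ν z - μ z‖ * ‖fderiv ℝ F z‖ := by
          field_simp
          ring
        linarith
    _ = 1 / (2 * t) * (∫ z in Metric.ball (0 : ℂ) 1, ‖ν z - μ z‖ ^ 2 * kap ‖ν z‖) +
          t / 2 * ∫ z in Metric.ball (0 : ℂ) 1, jac F z := by
        rw [integral_add (i2.const_mul _) (i3.const_mul _), integral_const_mul,
          integral_const_mul]
    _ ≤ _ := by
        have := mul_le_mul_of_nonneg_left hG.area (by positivity : 0 ≤ t / 2)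
        have e : 1 / (2 * t) * (∫ z in Metric.ball (0 : ℂ) 1, ‖ν z - μ z‖ ^ 2 * kap ‖ν z‖) =
          (∫ z in Metric.ball (0 : ℂ) 1, ‖ν z - μ z‖ ^ 2 * kap ‖ν z‖) / (2 * t) := by ring
        rw [e]
        linarith

theorem Loc.step {b b' γ : ℝ} (hγ : 0 ≤ γ) (hγb : γ < b') (hbb : b' < b) {f p q μ : ℂ → ℂ}
    (h : Loc b γ f p q μ) : ∃ C M : ℝ, 0 < C ∧ 0 ≤ M ∧ ∀ ε : ℝ, 0 < ε → ∃ μ' F G u : ℂ → ℂ,
      Adm b M μ' ∧ Good C b' μ' F G ∧ ContDiff ℝ ∞ u ∧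
      (∫ z in Metric.ball (0 : ℂ) (1 / 2), ‖(dzb u z - μ' z * dz u z) * dz F z‖ ≤ ε) ∧
      (∫ z in Metric.ball (0 : ℂ) (1 / 2), ‖u z - f z‖ ≤ ε) ∧
      (∫ z in Metric.ball (0 : ℂ) (1 / 2), ‖fderiv ℝ u z‖ ^ (6 / 5 : ℝ) ≤ C) ∧
      ∫ z in Metric.ball (0 : ℂ) 1, |kap ‖μ' z‖ - kap ‖μ z‖| ≤ ε := by
  have hb' : 0 < b' := lt_of_le_of_lt hγ hγb
  have hb : 0 < b := hb'.trans hbb
  obtain ⟨hgi, hg0, hg65, hglog⟩ := h.grad_int hγ
  obtain ⟨M, ν, hM, hν, hν1, hν2⟩ := approx_mu hb h.meas h.lt h.zero h.intK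
  obtain ⟨CA, hCA, hA⟩ := theoremA hb' hbb hM
  obtain ⟨CT, hCT, htr⟩ := Loc.trunc_beltrami
  have hsum := sum_bad hgi hg0 hγ hglog
  set g := grad p q with hgdef
  set S0 := ∑' i : ℕ, 4 ^ (i + 1) * ((i : ℝ) + 1) ^ (-(1 + γ)) *
      (volume (Bad g (2 ^ (i + 1)))).toReal with hS0
  set I65 := ∫ z, g z ^ (6 / 5 : ℝ) with hI65
  have hI0 : 0 ≤ I65 := integral_nonneg fun z => Real.rpow_nonneg (hg0 z) _
  have hS0' : 0 ≤ S0 := tsum_nonneg fun i => by positivity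
  set A : ℕ → Set ℂ := fun i => Metric.ball (0 : ℂ) 1 ∩ Bad g (2 ^ i) with hAdef
  have hAm : ∀ i, MeasurableSet (A i) := fun i =>
    measurableSet_ball.inter (bad_measurable hgi _)
  have hAa : Antitone A := fun i j hij => inter_subset_inter_right _
    (bad_anti (pow_le_pow_right₀ (by norm_num) hij))
  have hA1 : ∀ i, A i ⊆ Metric.ball 0 1 := fun i => inter_subset_left
  have hfin : ∀ i, volume (Bad g (2 ^ i)) ≠ ⊤ := fun i => C6c_finite hgi hg0 i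
  have hAs : ∀ n : ℕ, ∑ i ∈ Finset.range n, 4 ^ (i + 1) * ((i : ℝ) + 1) ^ (-(1 + γ)) *
        (volume (A (i + 1))).toReal ≤ S0 := by
    intro n
    refine le_trans (Finset.sum_le_sum fun i _ => ?_)
      (hsum.sum_le_tsum (Finset.range n) fun i _ => by positivity)
    refine mul_le_mul_of_nonneg_left ?_ (by positivity)
    exact ENNReal.toReal_mono (hfin _) (measure_mono inter_subset_right)
  refine ⟨max CA (1 + CT * (I65 + 320 * I65)), M, lt_max_of_lt_left hCA, hM, fun ε hε => ?_⟩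
  have hCT0 : 0 < CT := by linarith
  obtain ⟨j0, hj0⟩ := pigeon (M := M) (CF := CA) (S0 := S0) (ε := ε / (4 * CT)) hb hγ hγb hM
    hCA.le hS0' (by positivity)
  have ht := C6c_tendsto hgi hg0 hg65
  have ht1 : Tendsto (fun n => (volume (Bad g (2 ^ n))).toReal) atTop (𝓝 0) := by
    refine squeeze_zero (fun n => ENNReal.toReal_nonneg) (fun n => ?_) ht
    have : (1 : ℝ) ≤ 2 ^ n := one_le_pow₀ (by norm_num)
    nlinarith [ENNReal.toReal_nonneg (a := volume (Bad g (2 ^ n)))]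
  have ht2 : Tendsto (fun n : ℕ => CT * 2 ^ n * (volume (Bad g (2 ^ n))).toReal) atTop (𝓝 0) := by
    have := ht.const_mul CT
    simp only [mul_zero] at this
    refine this.congr fun n => by ring
  obtain ⟨n0, hn0⟩ := ext_L1 h.weak.intf (A := fun n => Bad g (2 ^ n))
    (fun n => bad_measurable hgi _) (L := fun n => CT * 2 ^ n) (fun n => by positivity) ht1 hfin
    ht2 (show 0 < ε / 4 by positivity)
  set j := max j0 n0 with hj
  -- choice of the coefficient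
  set t : ℝ := ε / (4 * CT * 4 ^ j * CA) with htdef
  have htpos : 0 < t := by positivity
  have hev : ∀ᶠ n in atTop, (∫ z in Metric.ball (0 : ℂ) 1, ‖ν n z - μ z‖ ^ 2 * kap ‖ν n z‖) <
      2 * t * (ε / (8 * CT * 4 ^ j)) := hν2.eventually_lt_const (by positivity)
  have hev2 : ∀ᶠ n in atTop, (∫ z in Metric.ball (0 : ℂ) 1, |kap ‖ν n z‖ - kap ‖μ z‖|) < ε :=
    hν1.eventually_lt_const hε
  obtain ⟨n, hn1, hn2⟩ := (hev.and hev2).exists
  obtain ⟨F, G, hG⟩ := hA (ν n) (hν n)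
  have hνc : Continuous (ν n) := (hν n).smooth.continuous
  obtain ⟨i, hij, hi2, hi⟩ := hj0 A hAm hAa hA1 hAs j (le_max_left _ _)
    (fun z => kap ‖ν n z‖) (jac F) (C6c_kap_cont hνc (hν n).lt) (C6c_jac_cont hG.cF)
    (fun z => C6c_one_le_kap (norm_nonneg _) ((hν n).lt z))
    (fun z => (hG.jac_pos (hν n).lt z).le) (hν n).int hG.area hG.dist
  have hsq : ∀ z, Real.sqrt (kap ‖ν n z‖ * jac F z) = ‖fderiv ℝ F z‖ := fun z => by
    rw [← hG.norm_sq (hν n).lt z, Real.sqrt_sq (norm_nonneg _)]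
  simp only [hsq] at hi
  set ε' : ℝ := min (ε / 8) 1 with hε'
  have hε'0 : 0 < ε' := by positivity
  have hε'1 : ε' ≤ ε / 8 := min_le_left _ _
  have hε'2 : ε' ≤ 1 := min_le_right _ _
  obtain ⟨u, huc, hu1, hu2, v, hvc, hv1, u0, hu0, hu0v, huu⟩ :=
    htr b γ f p q μ hγ h i ε' hε'0 (ν n) F hG.cF hνc (hν n).lt
  refine ⟨ν n, F, G, u, hν n, C6c_good_mono hG (le_max_left _ _), huc, ?_, ?_, ?_, hn2.le⟩
  · refine hu1.trans ?_
    have hcs := C6c_cs hG hνc (hν n).lt h.meas h.lt htpos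
    have h2i : (2 : ℝ) ^ i ≤ 4 ^ j := by
      calc (2 : ℝ) ^ i ≤ 2 ^ (2 * j) := pow_le_pow_right₀ (by norm_num) hi2.le
        _ = 4 ^ j := by rw [pow_mul]; norm_num
    have hX : CT * 2 ^ i * ∫ z in Metric.ball (0 : ℂ) 1 ∩ Bad g (2 ^ i), ‖fderiv ℝ F z‖ ≤
        ε / 4 := by
      have := mul_le_mul_of_nonneg_left hi hCT0.le
      calc CT * 2 ^ i * ∫ z in Metric.ball (0 : ℂ) 1 ∩ Bad g (2 ^ i), ‖fderiv ℝ F z‖
          = CT * (2 ^ i * ∫ z in A i, ‖fderiv ℝ F z‖) := by rw [hAdef]; ring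
        _ ≤ CT * (ε / (4 * CT)) := this
        _ = ε / 4 := by field_simp
    have hY0 : 0 ≤ ∫ z in Metric.ball (0 : ℂ) 1, ‖ν n z - μ z‖ * ‖fderiv ℝ F z‖ :=
      integral_nonneg fun z => by positivity
    have hY : CT * 2 ^ i * ∫ z in Metric.ball (0 : ℂ) 1, ‖ν n z - μ z‖ * ‖fderiv ℝ F z‖ ≤
        ε / 4 := by
      have e1 : ∫ z in Metric.ball (0 : ℂ) 1, ‖ν n z - μ z‖ * ‖fderiv ℝ F z‖ ≤
          ε / (8 * CT * 4 ^ j) + ε / (8 * CT * 4 ^ j) := by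
        refine hcs.trans (add_le_add ?_ (le_of_eq ?_))
        · rw [div_le_iff₀ (by positivity)]
          calc _ ≤ 2 * t * (ε / (8 * CT * 4 ^ j)) := hn1.le
            _ = _ := by ring
        · rw [htdef]
          field_simp
          ring
      calc CT * 2 ^ i * ∫ z in Metric.ball (0 : ℂ) 1, ‖ν n z - μ z‖ * ‖fderiv ℝ F z‖
          ≤ CT * 4 ^ j * ∫ z in Metric.ball (0 : ℂ) 1, ‖ν n z - μ z‖ * ‖fderiv ℝ F z‖ :=
            mul_le_mul_of_nonneg_right (mul_le_mul_of_nonneg_left h2i hCT0.le) hY0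
        _ ≤ CT * 4 ^ j * (ε / (8 * CT * 4 ^ j) + ε / (8 * CT * 4 ^ j)) :=
            mul_le_mul_of_nonneg_left e1 (by positivity)
        _ = ε / 4 := by
            field_simp
            ring
    rw [mul_add]
    linarith
  · have hL := hn0 i ((le_max_right _ _).trans hij) v u0 ε' hvc hε'0.le hv1 hu0 hu0v
    have hu0c : Continuous u0 := by
      refine (LipschitzWith.of_dist_le_mul (K := (CT * 2 ^ i).toNNReal) fun x y => ?_).continuous
      rw [dist_eq_norm, dist_eq_norm, Real.coe_toNNReal _ (by positivity)]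
      exact hu0 x y
    have hfi : IntegrableOn f (Metric.ball (0 : ℂ) (1 / 2)) :=
      h.weak.intf.mono_set (Metric.ball_subset_ball (by norm_num))
    have hu0i : IntegrableOn u0 (Metric.ball (0 : ℂ) (1 / 2)) :=
      (hu0c.continuousOn.integrableOn_compact (isCompact_closedBall (0 : ℂ) (1 / 2))).mono_set
        Metric.ball_subset_closedBall
    have hui : IntegrableOn u (Metric.ball (0 : ℂ) (1 / 2)) :=
      (huc.continuous.continuousOn.integrableOn_compact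
        (isCompact_closedBall (0 : ℂ) (1 / 2))).mono_set Metric.ball_subset_closedBall
    have hbt : volume (Metric.ball (0 : ℂ) (1 / 2)) ≠ ⊤ := measure_ball_lt_top.ne
    have hvol : (volume (Metric.ball (0 : ℂ) (1 / 2))).toReal ≤ 1 := by
      rw [Complex.volume_ball]
      have hpi := Real.pi_le_four
      rw [ENNReal.toReal_mul, ENNReal.toReal_pow, ENNReal.toReal_ofReal (by norm_num)]
      simp only [ENNReal.coe_toReal, NNReal.coe_real_pi]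
      linarith
    calc ∫ z in Metric.ball (0 : ℂ) (1 / 2), ‖u z - f z‖
        ≤ ∫ z in Metric.ball (0 : ℂ) (1 / 2), (ε' + ‖u0 z - f z‖) := by
          refine integral_mono (hui.sub hfi).norm
            ((integrableOn_const hbt).add (hu0i.sub hfi).norm) fun z => ?_
          show ‖u z - f z‖ ≤ ε' + ‖u0 z - f z‖
          calc ‖u z - f z‖ = ‖(u z - u0 z) + (u0 z - f z)‖ := by ring_nf
            _ ≤ ‖u z - u0 z‖ + ‖u0 z - f z‖ := norm_add_le _ _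
            _ ≤ _ := by linarith [huu z]
      _ = (volume (Metric.ball (0 : ℂ) (1 / 2))).toReal * ε' +
          ∫ z in Metric.ball (0 : ℂ) (1 / 2), ‖u0 z - f z‖ := by
          have hc1 : Integrable (fun _ : ℂ => ε') (volume.restrict (Metric.ball (0 : ℂ) (1 / 2))) :=
            integrableOn_const hbt
          have hd1 : Integrable (fun z : ℂ => ‖u0 z - f z‖)
              (volume.restrict (Metric.ball (0 : ℂ) (1 / 2))) := (hu0i.sub hfi).norm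
          rw [integral_add hc1 hd1, setIntegral_const, Measure.real, smul_eq_mul]
      _ ≤ 1 * ε' + (5 * ε' + ε / 4) :=
          add_le_add (mul_le_mul_of_nonneg_right hvol hε'0.le) hL
      _ ≤ ε := by linarith
  · refine hu2.trans ((?_ : _ ≤ _).trans (le_max_right _ _))
    have := C6c_bad65 hgi hg0 hg65 i
    refine add_le_add hε'2 (mul_le_mul_of_nonneg_left ?_ hCT0.le)
    exact add_le_add le_rfl this

end

end Pool.B2F
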