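import Pool.Agent.Lib.MP_b2f128_an.Base
import Pool.Agent.Lib.MP_b2f128_an.A02b

/-!
# MP_b2f128_an, part C2a (very weak solutions)
-/

open Complex MeasureTheory Set Filter Topology
open scoped ContDiff

namespace Pool.B2F

noncomputable section

/-- an interior point is not a maximum -/
theorem C2a_int {F G : ℂ → ℂ} (hF : Continuous F) (hGF : ∀ z, G (F z) = z)
    (hFG : ∀ w, F (G w) = w) {w x' b : ℂ} {τ : ℝ} (hx' : x' ∈ Metric.ball w τ) (hne : G x' ≠ b) :
    ∃ x'' ∈ Metric.closedBall w τ, ‖G x' - b‖ < ‖G x'' - b‖ := by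
  have hcont : Continuous (fun ε : ℝ => F (G x' + ε • (G x' - b))) := by fun_prop
  have h0 : F (G x' + (0 : ℝ) • (G x' - b)) = x' := by simp [hFG]
  have hnhds : ∀ᶠ ε : ℝ in 𝓝 0, F (G x' + ε • (G x' - b)) ∈ Metric.ball w τ := by
    apply hcont.continuousAt.eventually_mem
    apply Metric.isOpen_ball.mem_nhds
    rw [h0]; exact hx'
  obtain ⟨δ, hδ, hball⟩ := Metric.eventually_nhds_iff_ball.mp hnhds
  have hmem := hball (δ / 2) (by
    rw [Metric.mem_ball, dist_zero_right, Real.norm_eq_abs, abs_of_pos (by positivity)]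
    linarith)
  refine ⟨_, Metric.ball_subset_closedBall hmem, ?_⟩
  rw [hGF]
  have h1 : G x' + (δ / 2) • (G x' - b) - b = ((1 + δ / 2 : ℝ)) • (G x' - b) := by
    rw [add_smul, one_smul]
    ring
  rw [h1, norm_smul, Real.norm_eq_abs, abs_of_pos (by positivity)]
  have h2 : 0 < ‖G x' - b‖ := norm_pos_iff.mpr (sub_ne_zero.mpr hne)
  nlinarith

theorem C2a_sphere {F G : ℂ → ℂ} (hF : Continuous F) (hG : Continuous G) (hGF : ∀ z, G (F z) = z)
    (hFG : ∀ w, F (G w) = w) {w x y : ℂ} {τ : ℝ} (hτ : 0 < τ) (hx : x ∈ Metric.closedBall w τ)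
    (hy : y ∈ Metric.closedBall w τ) :
    ∃ u v : ℂ, ‖u - w‖ = τ ∧ ‖v - w‖ = τ ∧ ‖G x - G y‖ ≤ ‖G u - G v‖ := by
  have hK : IsCompact (Metric.closedBall w τ ×ˢ Metric.closedBall w τ) :=
    (isCompact_closedBall w τ).prod (isCompact_closedBall w τ)
  have hcont : ContinuousOn (fun p : ℂ × ℂ => ‖G p.1 - G p.2‖) (Metric.closedBall w τ ×ˢ Metric.closedBall w τ) := by
    apply Continuous.continuousOn
    fun_prop
  obtain ⟨⟨x', y'⟩, ⟨hx', hy'⟩, hmax⟩ := hK.exists_isMaxOn ⟨(x, y), hx, hy⟩ hcont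
  have hxy : ‖G x - G y‖ ≤ ‖G x' - G y'‖ := hmax (show (x, y) ∈ _ from ⟨hx, hy⟩)
  by_cases hne : G x' = G y'
  · refine ⟨w + τ, w + τ, ?_, ?_, ?_⟩
    · simp [abs_of_pos hτ]
    · simp [abs_of_pos hτ]
    · rw [hne] at hxy
      simpa using hxy
  · refine ⟨x', y', ?_, ?_, hxy⟩
    · by_contra hcon
      have h1 : ‖x' - w‖ ≤ τ := by simpa [dist_eq_norm] using hx'
      have h2 : x' ∈ Metric.ball w τ := by
        rw [Metric.mem_ball, dist_eq_norm]
        exact lt_of_le_of_ne h1 hcon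
      obtain ⟨x'', hx'', hlt⟩ := C2a_int hF hGF hFG h2 hne
      have h3 : ‖G x'' - G y'‖ ≤ ‖G x' - G y'‖ := hmax (show (x'', y') ∈ _ from ⟨hx'', hy'⟩)
      linarith
    · by_contra hcon
      have h1 : ‖y' - w‖ ≤ τ := by simpa [dist_eq_norm] using hy'
      have h2 : y' ∈ Metric.ball w τ := by
        rw [Metric.mem_ball, dist_eq_norm]
        exact lt_of_le_of_ne h1 hcon
      obtain ⟨y'', hy'', hlt⟩ := C2a_int hF hGF hFG h2 (Ne.symm hne)
      have h3 : ‖G x' - G y''‖ ≤ ‖G x' - G y'‖ := hmax (show (x', y'') ∈ _ from ⟨hx', hy''⟩)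
      rw [norm_sub_rev (G y') (G x'), norm_sub_rev (G y'') (G x')] at hlt
      linarith

/-- the point of the circle with angle `θ` -/
def C2a_pt (w : ℂ) (τ θ : ℝ) : ℂ := w + τ * (Real.cos θ + Real.sin θ * I)

theorem C2a_pt_cont (w : ℂ) : Continuous (fun p : ℝ × ℝ => C2a_pt w p.1 p.2) := by
  unfold C2a_pt
  fun_prop

theorem C2a_pt_deriv (w : ℂ) (τ θ : ℝ) :
    HasDerivAt (fun θ : ℝ => C2a_pt w τ θ) (τ * (-Real.sin θ + Real.cos θ * I)) θ := by
  unfold C2a_pt
  have h1 : HasDerivAt (fun θ : ℝ => ((Real.cos θ : ℝ) : ℂ)) (((-Real.sin θ : ℝ)) : ℂ) θ :=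
    (Real.hasDerivAt_cos θ).ofReal_comp
  have h2 : HasDerivAt (fun θ : ℝ => ((Real.sin θ : ℝ) : ℂ)) (((Real.cos θ : ℝ)) : ℂ) θ :=
    (Real.hasDerivAt_sin θ).ofReal_comp
  have h3 := ((h1.add (h2.mul_const I)).const_mul (τ : ℂ)).const_add w
  simpa using h3

theorem C2a_norm_deriv (τ θ : ℝ) (hτ : 0 ≤ τ) : ‖(τ : ℂ) * (-Real.sin θ + Real.cos θ * I)‖ = τ := by
  have h1 : (-Real.sin θ + Real.cos θ * I : ℂ) = I * cexp (θ * I) := by
    rw [Complex.exp_mul_I, Complex.ofReal_cos, Complex.ofReal_sin]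
    linear_combination (-Complex.sin θ) * Complex.I_sq
  rw [h1, norm_mul, norm_mul, Complex.norm_exp_ofReal_mul_I, Complex.norm_I, Complex.norm_real,
    Real.norm_eq_abs, abs_of_nonneg hτ]
  ring

theorem C2a_angle {w u : ℂ} {τ : ℝ} (hu : ‖u - w‖ = τ) : ∃ α ∈ Icc (-Real.pi) Real.pi, C2a_pt w τ α = u := by
  refine ⟨(u - w).arg, ⟨(Complex.neg_pi_lt_arg _).le, Complex.arg_le_pi _⟩, ?_⟩
  unfold C2a_pt
  have h := Complex.norm_mul_exp_arg_mul_I (u - w)
  rw [hu, Complex.exp_mul_I] at h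
  rw [Complex.ofReal_cos, Complex.ofReal_sin, h]
  ring

/-- variation along the circle -/
theorem C2a_var {G : ℂ → ℂ} (hG : ContDiff ℝ 1 G) (w : ℂ) {τ : ℝ} (hτ : 0 ≤ τ) {α β : ℝ}
    (hα : α ∈ Icc (-Real.pi) Real.pi) (hβ : β ∈ Icc (-Real.pi) Real.pi) :
    ‖G (C2a_pt w τ β) - G (C2a_pt w τ α)‖ ≤
      ∫ θ in (-Real.pi)..Real.pi, ‖fderiv ℝ G (C2a_pt w τ θ)‖ * τ := by
  wlog hαβ : α ≤ β generalizing α β
  · rw [norm_sub_rev]
    exact this hβ hα (le_of_not_ge hαβ)
  have hfd : Continuous (fderiv ℝ G) := hG.continuous_fderiv (by norm_num)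
  have hpt : Continuous (fun θ : ℝ => C2a_pt w τ θ) := by
    have := (C2a_pt_cont w).comp (Continuous.prodMk continuous_const continuous_id : Continuous (fun θ : ℝ => (τ, θ)))
    exact this
  have hder : ∀ θ : ℝ, HasDerivAt (fun θ : ℝ => G (C2a_pt w τ θ))
      (fderiv ℝ G (C2a_pt w τ θ) (τ * (-Real.sin θ + Real.cos θ * I))) θ := by
    intro θ
    have h1 : HasFDerivAt G (fderiv ℝ G (C2a_pt w τ θ)) (C2a_pt w τ θ) :=
      ((hG.differentiable (by norm_num)) _).hasFDerivAt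
    exact h1.comp_hasDerivAt θ (C2a_pt_deriv w τ θ)
  have hcd : Continuous (fun θ : ℝ => fderiv ℝ G (C2a_pt w τ θ) (τ * (-Real.sin θ + Real.cos θ * I))) := by
    apply Continuous.clm_apply (hfd.comp hpt)
    fun_prop
  have hk : Continuous (fun θ : ℝ => ‖fderiv ℝ G (C2a_pt w τ θ)‖ * τ) := ((hfd.comp hpt).norm).mul continuous_const
  rw [← intervalIntegral.integral_eq_sub_of_hasDerivAt (fun θ _ => hder θ) (hcd.intervalIntegrable _ _)]
  refine (intervalIntegral.norm_integral_le_integral_norm hαβ).trans ?_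
  calc ∫ θ in α..β, ‖fderiv ℝ G (C2a_pt w τ θ) (τ * (-Real.sin θ + Real.cos θ * I))‖
      ≤ ∫ θ in α..β, ‖fderiv ℝ G (C2a_pt w τ θ)‖ * τ := by
        apply intervalIntegral.integral_mono_on hαβ (hcd.norm.intervalIntegrable _ _) (hk.intervalIntegrable _ _)
        intro θ _
        have h2 := (fderiv ℝ G (C2a_pt w τ θ)).le_opNorm (τ * (-Real.sin θ + Real.cos θ * I))
        rw [C2a_norm_deriv τ θ hτ] at h2
        exact h2
    _ ≤ ∫ θ in (-Real.pi)..Real.pi, ‖fderiv ℝ G (C2a_pt w τ θ)‖ * τ := by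
        apply intervalIntegral.integral_mono_interval hα.1 hαβ hβ.2 _ (hk.intervalIntegrable _ _)
        filter_upwards with θ
        positivity

/-- Cauchy-Schwarz on the circle -/
theorem C2a_cs {k : ℝ → ℝ} (hk : Continuous k) :
    (∫ θ in (-Real.pi)..Real.pi, k θ) ^ 2 ≤ 2 * Real.pi * ∫ θ in (-Real.pi)..Real.pi, k θ ^ 2 := by
  have hpi := Real.pi_pos
  obtain ⟨K, hK⟩ : ∃ K : ℝ, K = ∫ θ in (-Real.pi)..Real.pi, k θ := ⟨_, rfl⟩
  obtain ⟨m, hm⟩ : ∃ m : ℝ, m = K / (2 * Real.pi) := ⟨_, rfl⟩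
  have h1 : 0 ≤ ∫ θ in (-Real.pi)..Real.pi, (k θ - m) ^ 2 := by
    apply intervalIntegral.integral_nonneg (by linarith)
    intro θ _
    positivity
  have h2 : ∫ θ in (-Real.pi)..Real.pi, (k θ - m) ^ 2 =
      (∫ θ in (-Real.pi)..Real.pi, k θ ^ 2) - 2 * m * K + m ^ 2 * (2 * Real.pi) := by
    have h3 : (fun θ => (k θ - m) ^ 2) = fun θ => (k θ ^ 2 - 2 * m * k θ) + m ^ 2 := by
      funext θ; ring
    rw [h3, intervalIntegral.integral_add, intervalIntegral.integral_sub, intervalIntegral.integral_const_mul,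
      intervalIntegral.integral_const, hK]
    · simp only [smul_eq_mul]
      ring
    · exact (hk.pow 2).intervalIntegrable _ _
    · exact (continuous_const.mul hk).intervalIntegrable _ _
    · exact ((hk.pow 2).sub (continuous_const.mul hk)).intervalIntegrable _ _
    · exact continuous_const.intervalIntegrable _ _
  have h4 : m * (2 * Real.pi) = K := by
    rw [hm]; field_simp
  rw [h2] at h1
  rw [← hK]
  have h5 : K ^ 2 = 2 * Real.pi * (2 * m * K - m ^ 2 * (2 * Real.pi)) := by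
    rw [← h4]; ring
  rw [h5]
  apply mul_le_mul_of_nonneg_left _ (by positivity)
  linarith

/-- polar coordinates on an annulus -/
theorem C2a_polar {h : ℂ → ℝ} (hh : Continuous h) (hh0 : ∀ z, 0 ≤ h z) (w : ℂ) {s : ℝ} (hs : 0 < s) :
    IntegrableOn (fun τ : ℝ => ∫ θ in (-Real.pi)..Real.pi, τ * h (C2a_pt w τ θ)) (Ioo s 1) ∧
    ∫ τ in Ioo s 1, (∫ θ in (-Real.pi)..Real.pi, τ * h (C2a_pt w τ θ)) ≤ ∫ z in Metric.ball w 1, h z := by
  have hpi := Real.pi_pos
  have hint : ∀ τ : ℝ, ∫ θ in (-Real.pi)..Real.pi, τ * h (C2a_pt w τ θ) =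
      ∫ θ in Ioo (-Real.pi) Real.pi, τ * h (C2a_pt w τ θ) := by
    intro τ
    rw [intervalIntegral.integral_of_le (by linarith), integral_Ioc_eq_integral_Ioo]
  simp only [hint]
  have hgc : Continuous (fun p : ℝ × ℝ => p.1 * h (C2a_pt w p.1 p.2)) :=
    continuous_fst.mul (hh.comp (C2a_pt_cont w))
  have hgi : IntegrableOn (fun p : ℝ × ℝ => p.1 * h (C2a_pt w p.1 p.2)) (Ioo s 1 ×ˢ Ioo (-Real.pi) Real.pi)
      ((volume : Measure ℝ).prod volume) := by
    have h1 : IsCompact (Icc s 1 ×ˢ Icc (-Real.pi) Real.pi) := isCompact_Icc.prod isCompact_Icc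
    exact (hgc.continuousOn.integrableOn_compact h1).mono_set (prod_mono Ioo_subset_Icc_self Ioo_subset_Icc_self)
  constructor
  · have h1 : Integrable (fun p : ℝ × ℝ => p.1 * h (C2a_pt w p.1 p.2))
        ((volume.restrict (Ioo s 1)).prod (volume.restrict (Ioo (-Real.pi) Real.pi))) := by
      rw [Measure.prod_restrict]
      exact hgi
    exact h1.integral_prod_left
  · rw [← setIntegral_prod (fun p : ℝ × ℝ => p.1 * h (C2a_pt w p.1 p.2)) hgi]
    -- the function on the plane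
    have hA : MeasurableSet {z : ℂ | s < ‖z‖ ∧ ‖z‖ < 1} := by
      apply IsOpen.measurableSet
      exact (isOpen_lt continuous_const continuous_norm).inter (isOpen_lt continuous_norm continuous_const)
    have hpol := Complex.integral_comp_polarCoord_symm (indicator {z : ℂ | s < ‖z‖ ∧ ‖z‖ < 1} (fun z => h (w + z)))
    rw [integral_indicator hA] at hpol
    have hnorm : ∀ p ∈ polarCoord.target, ‖Complex.polarCoord.symm p‖ = p.1 := by
      intro p hp
      rw [polarCoord_target] at hp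
      have hp1 : 0 < p.1 := hp.1
      rw [Complex.norm_polarCoord_symm, abs_of_pos hp1]
    have hleft : ∫ p in polarCoord.target, p.1 • indicator {z : ℂ | s < ‖z‖ ∧ ‖z‖ < 1} (fun z => h (w + z))
        (Complex.polarCoord.symm p) =
        ∫ p in Ioo s 1 ×ˢ Ioo (-Real.pi) Real.pi, p.1 * h (C2a_pt w p.1 p.2) := by
      have h1 : ∀ p ∈ polarCoord.target, p.1 • indicator {z : ℂ | s < ‖z‖ ∧ ‖z‖ < 1} (fun z => h (w + z))
        (Complex.polarCoord.symm p) = indicator (Ioo s 1 ×ˢ (univ : Set ℝ)) (fun p : ℝ × ℝ => p.1 * h (C2a_pt w p.1 p.2)) p := by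
        intro p hp
        by_cases hp1 : s < p.1 ∧ p.1 < 1
        · rw [indicator_of_mem, indicator_of_mem]
          · rw [smul_eq_mul]
            simp only [Complex.polarCoord_symm_apply, C2a_pt]
          · exact ⟨hp1, mem_univ _⟩
          · show s < ‖Complex.polarCoord.symm p‖ ∧ ‖Complex.polarCoord.symm p‖ < 1
            rw [hnorm p hp]; exact hp1
        · rw [indicator_of_notMem, indicator_of_notMem, smul_zero]
          · intro hmem
            exact hp1 hmem.1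
          · intro hmem
            have hmem' : s < ‖Complex.polarCoord.symm p‖ ∧ ‖Complex.polarCoord.symm p‖ < 1 := hmem
            rw [hnorm p hp] at hmem'
            exact hp1 hmem'
      rw [setIntegral_congr_fun polarCoord.open_target.measurableSet h1,
        setIntegral_indicator (measurableSet_Ioo.prod MeasurableSet.univ)]
      congr 2
      rw [polarCoord_target]
      ext p
      simp only [mem_inter_iff, mem_prod, mem_Ioi, mem_Ioo, mem_univ, and_true]
      constructor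
      · rintro ⟨⟨_, h3⟩, h4⟩
        exact ⟨h4, h3⟩
      · rintro ⟨h3, h4⟩
        exact ⟨⟨hs.trans h3.1, h4⟩, h3⟩
    rw [hleft] at hpol
    have hvol : ((volume : Measure ℝ).prod volume : Measure (ℝ × ℝ)) = volume := rfl
    rw [hvol, hpol]
    -- translate
    have htr : ∫ z in {z : ℂ | s < ‖z‖ ∧ ‖z‖ < 1}, h (w + z) ≤ ∫ z in Metric.ball (0 : ℂ) 1, h (w + z) := by
      apply setIntegral_mono_set
      · have hc : Continuous (fun z => h (w + z)) := hh.comp (continuous_const.add continuous_id)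
        exact (hc.continuousOn.integrableOn_compact (isCompact_closedBall (0 : ℂ) 1)).mono_set Metric.ball_subset_closedBall
      · filter_upwards with z
        exact hh0 _
      · apply LE.le.eventuallyLE
        intro z hz
        rw [mem_ball_zero_iff]
        exact hz.2
    refine htr.trans (le_of_eq ?_)
    have hpre : Metric.ball (0 : ℂ) 1 = (fun z => w + z) ⁻¹' (Metric.ball w 1) := by
      ext z
      simp [dist_eq_norm]
    rw [hpre]
    exact (measurePreserving_add_left volume w).setIntegral_preimage_emb (measurableEmbedding_addLeft w) h _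

/-- Courant-Lebesgue. PROOF. `G` is a homeomorphism, so for `τ ∈ (s, 1)` any two points of `closedBall w s` satisfy `‖G x - G y‖ ≤ max_{|u - w| = |v - w| = τ} ‖G u - G v‖ ≤ ∫_0^{2π} ‖DG (w + τ e^{iθ})‖ τ dθ` (maximum of
`‖G x - G y‖` over `x, y` in the closed disc is attained on the circle, `G` being open), square ≤ `2π ∫_0^{2π} ‖DG‖² τ² dθ`; divide by `τ`, integrate over `τ ∈ (s, 1)`, polar coordinates:
`‖G x - G y‖² log (1/s) ≤ 2π ∫_{ball w 1} ‖DG‖²`. -/
theorem courant {F G : ℂ → ℂ} (hF : Continuous F) (hG : ContDiff ℝ 1 G) (hGF : ∀ z, G (F z) = z)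
    (hFG : ∀ w, F (G w) = w) (w : ℂ) {s B : ℝ} (hs : 0 < s) (hs1 : s < 1)
    (hB : ∫ z in Metric.ball w 1, ‖fderiv ℝ G z‖ ^ 2 ≤ B) {x y : ℂ}
    (hx : x ∈ Metric.closedBall w s) (hy : y ∈ Metric.closedBall w s) :
    ‖G x - G y‖ ^ 2 * Real.log (1 / s) ≤ 2 * Real.pi * B := by
  have hpi := Real.pi_pos
  have hfd : Continuous (fderiv ℝ G) := hG.continuous_fderiv (by norm_num)
  have hh : Continuous (fun z => ‖fderiv ℝ G z‖ ^ 2) := hfd.norm.pow 2
  obtain ⟨hint, hle⟩ := C2a_polar hh (fun z => by positivity) w hs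
  have hpoint : ∀ τ ∈ Ioo s 1, ‖G x - G y‖ ^ 2 * τ⁻¹ ≤
      2 * Real.pi * ∫ θ in (-Real.pi)..Real.pi, τ * ‖fderiv ℝ G (C2a_pt w τ θ)‖ ^ 2 := by
    intro τ hτ
    have hτ0 : 0 < τ := hs.trans hτ.1
    obtain ⟨u, v, hu, hv, huv⟩ := C2a_sphere hF hG.continuous hGF hFG hτ0
      (Metric.closedBall_subset_closedBall hτ.1.le hx) (Metric.closedBall_subset_closedBall hτ.1.le hy)
    obtain ⟨α, hα, rfl⟩ := C2a_angle hu
    obtain ⟨β, hβ, rfl⟩ := C2a_angle hv
    have h1 := huv.trans (C2a_var hG w hτ0.le hβ hα)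
    have hpt : Continuous (fun θ : ℝ => C2a_pt w τ θ) := by
      have := (C2a_pt_cont w).comp (Continuous.prodMk continuous_const continuous_id : Continuous (fun θ : ℝ => (τ, θ)))
      exact this
    have hk : Continuous (fun θ : ℝ => ‖fderiv ℝ G (C2a_pt w τ θ)‖ * τ) := ((hfd.comp hpt).norm).mul continuous_const
    have h2 := C2a_cs hk
    have h3 : ‖G x - G y‖ ^ 2 ≤ (∫ θ in (-Real.pi)..Real.pi, ‖fderiv ℝ G (C2a_pt w τ θ)‖ * τ) ^ 2 :=
      pow_le_pow_left₀ (norm_nonneg _) h1 2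
    have h4 : ∫ θ in (-Real.pi)..Real.pi, (‖fderiv ℝ G (C2a_pt w τ θ)‖ * τ) ^ 2 =
        τ * ∫ θ in (-Real.pi)..Real.pi, τ * ‖fderiv ℝ G (C2a_pt w τ θ)‖ ^ 2 := by
      rw [← intervalIntegral.integral_const_mul]
      congr 1
      funext θ
      ring
    rw [h4] at h2
    rw [← div_eq_mul_inv, div_le_iff₀ hτ0]
    calc ‖G x - G y‖ ^ 2 ≤ _ := h3.trans h2
      _ = _ := by ring
  have hinv : IntegrableOn (fun τ : ℝ => ‖G x - G y‖ ^ 2 * τ⁻¹) (Ioo s 1) := by
    have h1 : ContinuousOn (fun τ : ℝ => ‖G x - G y‖ ^ 2 * τ⁻¹) (Icc s 1) := by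
      apply continuousOn_const.mul
      apply continuousOn_inv₀.mono
      intro τ hτ
      exact (hs.trans_le hτ.1).ne'
    exact (h1.integrableOn_compact isCompact_Icc).mono_set Ioo_subset_Icc_self
  have hmono := setIntegral_mono_on hinv (hint.const_mul (2 * Real.pi)) measurableSet_Ioo hpoint
  have hl : ∫ τ in Ioo s 1, ‖G x - G y‖ ^ 2 * τ⁻¹ = ‖G x - G y‖ ^ 2 * Real.log (1 / s) := by
    rw [← integral_Ioc_eq_integral_Ioo, ← intervalIntegral.integral_of_le hs1.le, intervalIntegral.integral_const_mul,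
      integral_inv_of_pos hs one_pos]
  rw [hl] at hmono
  refine hmono.trans ?_
  rw [integral_const_mul]
  exact mul_le_mul_of_nonneg_left (hle.trans hB) (by positivity)

end

end Pool.B2F
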