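import Pool.Agent.Lib.MP_b2f128_an.Base
import Pool.Agent.Lib.MP_b2f128_an.C0c
import Pool.Agent.Lib.MP_b2f128_an.C2a

/-!
# MP_b2f128_an, part C2b (very weak solutions)
-/

open Complex MeasureTheory Set Filter Topology
open scoped ContDiff

namespace Pool.B2F

noncomputable section

/-- PROOF: `courant` at `w = F z0` and `energy_inv`: if `‖F z - F z0‖ < s` then `1/8 ≤ ‖z - z0‖ ≤ C / log (1/s)^(1/2)`. -/
theorem separation {C b b' M : ℝ} (hb : 0 < b) : ∃ s0 : ℝ, 0 < s0 ∧ ∀ μ F G : ℂ → ℂ, Adm b M μ →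
    Good C b' μ F G → ∀ z0 z : ℂ, ‖z0‖ ≤ 1 / 8 → 1 / 4 ≤ ‖z‖ → s0 ≤ ‖F z - F z0‖ := by
  have hpi := Real.pi_pos
  set B : ℝ := M / b + Real.pi * (1 + C) ^ 2 with hBdef
  set s0 : ℝ := Real.exp (-(128 * Real.pi * |B| + 1)) with hs0
  have hpos : 0 < 128 * Real.pi * |B| + 1 := by positivity
  have hs0pos : 0 < s0 := Real.exp_pos _
  have hs01 : s0 < 1 := by
    rw [hs0, Real.exp_lt_one_iff]
    linarith
  have hlog : Real.log (1 / s0) = 128 * Real.pi * |B| + 1 := by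
    rw [one_div, Real.log_inv, hs0, Real.log_exp, neg_neg]
  refine ⟨s0, hs0pos, fun μ F G hμ h z0 z hz0 hz => ?_⟩
  by_contra hlt
  rw [not_le] at hlt
  have hen := Good.energy_inv hb h hμ (F z0) (R := 1) zero_le_one
  have hc := courant h.cF.continuous (h.cG.of_le (by simp)) h.GF h.FG (F z0) hs0pos hs01 hen
    (x := F z) (y := F z0) (by rw [Metric.mem_closedBall, dist_eq_norm]; exact hlt.le)
    (Metric.mem_closedBall_self hs0pos.le)
  rw [h.GF, h.GF, hlog] at hc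
  have h1 : 1 / 8 ≤ ‖z - z0‖ := by
    have := norm_sub_norm_le z z0
    linarith
  have h2 : (1 / 64 : ℝ) ≤ ‖z - z0‖ ^ 2 := by
    nlinarith [norm_nonneg (z - z0)]
  have h3 : 1 / 64 * (128 * Real.pi * |B| + 1) ≤
      ‖z - z0‖ ^ 2 * (128 * Real.pi * |B| + 1) := mul_le_mul_of_nonneg_right h2 hpos.le
  have h4 : B ≤ |B| := le_abs_self B
  have h5 : 2 * Real.pi * B ≤ 2 * Real.pi * |B| := mul_le_mul_of_nonneg_left h4 (by positivity)
  linarith

end

end Pool.B2F
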