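import Pool.Agent.Lib.MP_b2f128_an.Base
import Pool.Agent.Lib.MP_b2f128_an.A01a
import Pool.Agent.Lib.MP_b2f128_an.A01b
import Pool.Agent.Lib.MP_b2f128_an.A02a
import Pool.Agent.Lib.MP_b2f128_an.A02b
import Pool.Agent.Lib.MP_b2f128_an.A05
import Pool.Agent.Lib.MP_b2f128_an.B7
import Pool.Agent.Lib.MP_b2f128_an.C0a
import Pool.Agent.Lib.MP_b2f128_an.C0b
import Pool.Agent.Lib.MP_b2f128_an.C1
import Pool.Agent.Lib.MP_b2f128_an.C2b

/-!
# MP_b2f128_an, part C7 (very weak solutions)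
-/

open Complex MeasureTheory Set Filter Topology
open scoped ContDiff

namespace Pool.B2F

noncomputable section

theorem C7_cutoff : ∃ (χ : ℂ → ℂ) (B : ℝ), 0 ≤ B ∧ Cc (Metric.ball 0 (3 / 8)) χ ∧
    (∀ z ∈ Metric.ball (0 : ℂ) (1 / 4), χ z = 1) ∧ (∀ z, ‖χ z‖ ≤ 1) ∧
    (∀ z, ‖dz χ z‖ ≤ B) ∧ ∀ z, ‖dzb χ z‖ ≤ B := by
  let f : ContDiffBump (0 : ℂ) := ⟨1 / 4, 5 / 16, by norm_num, by norm_num⟩
  let χ : ℂ → ℂ := fun z => ((f z : ℝ) : ℂ)
  have hs : ContDiff ℝ ∞ χ := Complex.ofRealCLM.contDiff.comp f.contDiff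
  have hsupp : tsupport χ ⊆ Metric.closedBall 0 (5 / 16) := by
    have h1 : tsupport χ ⊆ tsupport f := by
      refine closure_mono fun z hz => ?_
      simp only [Function.mem_support] at hz ⊢
      intro h0
      exact hz (by simp [χ, h0])
    exact h1.trans (le_of_eq f.tsupport_eq)
  have hcc : Cc (Metric.ball 0 (3 / 8)) χ := by
    refine ⟨hs, ?_, hsupp.trans (Metric.closedBall_subset_ball (by norm_num))⟩
    exact (isCompact_closedBall (0 : ℂ) (5 / 16)).of_isClosed_subset (isClosed_tsupport _) hsupp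
  obtain ⟨B1, hB1⟩ := (Cc.dz hcc).smooth.continuous.bounded_above_of_compact_support
    (Cc.dz hcc).cpt
  obtain ⟨B2, hB2⟩ := (Cc.dzb hcc).smooth.continuous.bounded_above_of_compact_support
    (Cc.dzb hcc).cpt
  refine ⟨χ, max B1 B2, ?_, hcc, ?_, ?_, fun z => (hB1 z).trans (le_max_left _ _),
    fun z => (hB2 z).trans (le_max_right _ _)⟩
  · exact (norm_nonneg _).trans ((hB1 0).trans (le_max_left _ _))
  · intro z hz
    have h1 : f z = 1 := f.one_of_mem_closedBall (Metric.ball_subset_closedBall hz)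
    simp [χ, h1]
  · intro z
    have h1 : ‖χ z‖ = f z := by
      simp only [χ, Complex.norm_real, Real.norm_eq_abs, abs_of_nonneg f.nonneg]
    rw [h1]
    exact f.le_one

theorem C7_kap_one {t : ℝ} (h0 : 0 ≤ t) (h1 : t < 1) : 1 ≤ kap t := by
  unfold kap
  rw [le_div_iff₀ (by linarith)]
  linarith

theorem C7_kap_cont {μ : ℂ → ℂ} (hμ : Continuous μ) (h1 : ∀ z, ‖μ z‖ < 1) :
    Continuous (fun z => kap ‖μ z‖) := by
  unfold kap
  refine (continuous_const.add hμ.norm).div (continuous_const.sub hμ.norm) fun z => ?_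
  have := h1 z
  linarith

theorem C7_int {f : ℂ → ℝ} (hf : Continuous f) (x : ℂ) (r : ℝ) :
    IntegrableOn f (Metric.ball x r) :=
  (hf.locallyIntegrable.integrableOn_isCompact (isCompact_closedBall x r)).mono_set
    Metric.ball_subset_closedBall

theorem C7_jac_cont {F : ℂ → ℂ} (hF : ContDiff ℝ ∞ F) : Continuous (jac F) := by
  unfold jac
  exact ((dz_smooth hF).continuous.norm.pow 2).sub ((dzb_smooth hF).continuous.norm.pow 2)

theorem C7_young {x y K J : ℝ} (hx : 0 ≤ x) (hy : 0 ≤ y) (hK : 1 ≤ K)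
    (h : y ^ 2 = K * J) : x * y ≤ x ^ 3 + K ^ 3 + J := by
  have h1 : 2 * (x * y) ≤ K * x ^ 2 + J := by
    have h2 : 0 ≤ (K * x - y) ^ 2 := sq_nonneg _
    have h3 : K * (2 * (x * y)) ≤ K * (K * x ^ 2 + J) := by nlinarith
    exact le_of_mul_le_mul_left h3 (by linarith)
  have h4 : K * x ^ 2 ≤ x ^ 3 + K ^ 3 := by
    rcases le_total K x with h5 | h5
    · have : K * x ^ 2 ≤ x * x ^ 2 := mul_le_mul_of_nonneg_right h5 (by positivity)
      have h6 : 0 ≤ K ^ 3 := by positivity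
      nlinarith
    · have : x ^ 2 ≤ K ^ 2 := pow_le_pow_left₀ hx h5 2
      have h6 : 0 ≤ x ^ 3 := by positivity
      nlinarith
  have h7 : 0 ≤ x * y := mul_nonneg hx hy
  linarith

theorem C7_mass {C b b' M CS : ℝ} {μ F G u : ℂ → ℂ} (hb : 0 < b) (hμ : Adm b M μ)
    (hF : Good C b' μ F G) (hu : ContDiff ℝ ∞ u)
    (h3 : ∫ z in Metric.ball (0 : ℂ) (3 / 8), ‖u z‖ ^ 3 ≤ CS) :
    ∫ z in Metric.ball (0 : ℂ) (3 / 8), ‖u z‖ * ‖dz F z‖ ≤ CS + 6 / b ^ 3 * M + C := by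
  have hkc : Continuous (fun z => kap ‖μ z‖) := C7_kap_cont hμ.smooth.continuous hμ.lt
  have hk1 : ∀ z, 1 ≤ kap ‖μ z‖ := fun z => C7_kap_one (norm_nonneg _) (hμ.lt z)
  have hJ : ∀ z, 0 < jac F z := fun z => hF.jac_pos hμ.lt z
  have hJc := C7_jac_cont hF.cF
  have hec : Continuous (fun z => Real.exp (b * kap ‖μ z‖)) :=
    Real.continuous_exp.comp (continuous_const.mul hkc)
  have huc : Continuous u := hu.continuous
  have hsub : Metric.ball (0 : ℂ) (3 / 8) ⊆ Metric.ball 0 1 := Metric.ball_subset_ball (by norm_num)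
  have hpt : ∀ z, ‖u z‖ * ‖dz F z‖ ≤
      ‖u z‖ ^ 3 + 6 / b ^ 3 * Real.exp (b * kap ‖μ z‖) + jac F z := by
    intro z
    have h1 := C7_young (norm_nonneg (u z)) (norm_nonneg (fderiv ℝ F z)) (hk1 z)
      (hF.norm_sq hμ.lt z)
    have h2 : ‖dz F z‖ ≤ ‖fderiv ℝ F z‖ := by
      rw [norm_fderiv]
      linarith [norm_nonneg (dzb F z)]
    have h4 : (kap ‖μ z‖) ^ 3 ≤ 6 / b ^ 3 * Real.exp (b * kap ‖μ z‖) := by
      have h5 : 0 ≤ b * kap ‖μ z‖ := mul_nonneg hb.le (by linarith [hk1 z])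
      have h6 := Real.pow_div_factorial_le_exp _ h5 3
      have h7 : ((Nat.factorial 3 : ℕ) : ℝ) = 6 := by norm_num [Nat.factorial]
      rw [h7, mul_pow] at h6
      rw [div_mul_eq_mul_div, le_div_iff₀ (by positivity)]
      rw [div_le_iff₀ (by norm_num)] at h6
      linarith
    have h8 : ‖u z‖ * ‖dz F z‖ ≤ ‖u z‖ * ‖fderiv ℝ F z‖ :=
      mul_le_mul_of_nonneg_left h2 (norm_nonneg _)
    linarith
  have hi1 : IntegrableOn (fun z => ‖u z‖ ^ 3) (Metric.ball (0 : ℂ) (3 / 8)) :=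
    C7_int (huc.norm.pow 3) _ _
  have hi2 : IntegrableOn (fun z => 6 / b ^ 3 * Real.exp (b * kap ‖μ z‖))
      (Metric.ball (0 : ℂ) (3 / 8)) := C7_int (continuous_const.mul hec) _ _
  have hi3 : IntegrableOn (jac F) (Metric.ball (0 : ℂ) (3 / 8)) := C7_int hJc _ _
  have hi0 : IntegrableOn (fun z => ‖u z‖ * ‖dz F z‖) (Metric.ball (0 : ℂ) (3 / 8)) :=
    C7_int (huc.norm.mul (dz_smooth hF.cF).continuous.norm) _ _
  have e1 : ∫ z in Metric.ball (0 : ℂ) (3 / 8), ‖u z‖ * ‖dz F z‖ ≤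
      ∫ z in Metric.ball (0 : ℂ) (3 / 8),
        (‖u z‖ ^ 3 + 6 / b ^ 3 * Real.exp (b * kap ‖μ z‖) + jac F z) :=
    integral_mono hi0 ((hi1.add hi2).add hi3) hpt
  have e2 : ∫ z in Metric.ball (0 : ℂ) (3 / 8),
        (‖u z‖ ^ 3 + 6 / b ^ 3 * Real.exp (b * kap ‖μ z‖) + jac F z) =
      (∫ z in Metric.ball (0 : ℂ) (3 / 8), ‖u z‖ ^ 3) +
      (∫ z in Metric.ball (0 : ℂ) (3 / 8), 6 / b ^ 3 * Real.exp (b * kap ‖μ z‖)) +
      ∫ z in Metric.ball (0 : ℂ) (3 / 8), jac F z := by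
    have q1 := integral_add (hi1.add hi2) hi3
    have q2 := integral_add hi1 hi2
    simp only [Pi.add_apply] at q1
    rw [q1, q2]
  have e3 : ∫ z in Metric.ball (0 : ℂ) (3 / 8), 6 / b ^ 3 * Real.exp (b * kap ‖μ z‖) ≤
      6 / b ^ 3 * M := by
    rw [integral_const_mul]
    refine mul_le_mul_of_nonneg_left (le_trans ?_ hμ.int) (by positivity)
    exact setIntegral_mono_set (C7_int hec _ _) (Eventually.of_forall fun z => (Real.exp_pos _).le)
      (LE.le.eventuallyLE hsub)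
  have e4 : ∫ z in Metric.ball (0 : ℂ) (3 / 8), jac F z ≤ C := by
    refine le_trans ?_ hF.area
    exact setIntegral_mono_set (C7_int hJc _ _) (Eventually.of_forall fun z => (hJ z).le)
      (LE.le.eventuallyLE hsub)
  linarith

theorem C7_psi {a F : ℂ → ℂ} (ha : Continuous a) (hac : HasCompactSupport a) (hF : Continuous F)
    {w0 : ℂ} {s : ℝ} (hs : 0 < s) (h : ∀ z, a z ≠ 0 → s ≤ ‖w0 - F z‖) :
    HasDerivAt (fun w => ∫ z, a z / (w - F z)) (∫ z, -a z / (w0 - F z) ^ 2) w0 ∧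
      Integrable (fun z => a z / (w0 - F z)) ∧
      ‖∫ z, a z / (w0 - F z)‖ ≤ (∫ z, ‖a z‖) / s ∧
      ‖∫ z, -a z / (w0 - F z) ^ 2‖ ≤ (∫ z, ‖a z‖) / s ^ 2 := by
  have hint : Integrable a := ha.integrable_of_hasCompactSupport hac
  have hb1 : ∀ z, ‖a z / (w0 - F z)‖ ≤ ‖a z‖ / s := by
    intro z
    by_cases hz : a z = 0
    · simp [hz]
    · rw [norm_div]
      exact div_le_div_of_nonneg_left (norm_nonneg _) hs (h z hz)
  have hb2 : ∀ z, ‖-a z / (w0 - F z) ^ 2‖ ≤ ‖a z‖ / s ^ 2 := by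
    intro z
    by_cases hz : a z = 0
    · simp [hz]
    · rw [norm_div, norm_neg, norm_pow]
      exact div_le_div_of_nonneg_left (norm_nonneg _) (by positivity)
        (pow_le_pow_left₀ hs.le (h z hz) 2)
  have hm1 : ∀ w : ℂ, Measurable (fun z => a z / (w - F z)) := fun w =>
    ha.measurable.div (measurable_const.sub hF.measurable)
  have hi1 : Integrable (fun z => a z / (w0 - F z)) :=
    Integrable.mono' (hint.norm.div_const s) (hm1 w0).aestronglyMeasurable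
      (Eventually.of_forall hb1)
  refine ⟨?_, hi1, ?_, ?_⟩
  · refine (hasDerivAt_integral_of_dominated_loc_of_deriv_le
      (F := fun w z => a z / (w - F z)) (F' := fun w z => -a z / (w - F z) ^ 2)
      (bound := fun z => ‖a z‖ * (4 / s ^ 2)) (s := Metric.ball w0 (s / 2))
      (Metric.ball_mem_nhds w0 (half_pos hs))
      (Eventually.of_forall fun w => (hm1 w).aestronglyMeasurable) hi1 ?_ ?_ ?_ ?_).2
    · exact (ha.measurable.neg.div ((measurable_const.sub hF.measurable).pow_const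
        2)).aestronglyMeasurable
    · refine Eventually.of_forall fun z w hw => ?_
      by_cases hz : a z = 0
      · simp [hz]
      · have h1 : s / 2 ≤ ‖w - F z‖ := by
          have h2 := h z hz
          have h3 : ‖w0 - F z‖ ≤ ‖w0 - w‖ + ‖w - F z‖ := by
            have := norm_add_le (w0 - w) (w - F z)
            simpa using this
          have h4 : ‖w0 - w‖ < s / 2 := by
            rw [← dist_eq_norm, dist_comm]
            exact hw
          linarith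
        rw [norm_div, norm_neg, norm_pow, div_eq_mul_inv]
        refine mul_le_mul_of_nonneg_left ?_ (norm_nonneg _)
        have hpos : 0 < ‖w - F z‖ := lt_of_lt_of_le (half_pos hs) h1
        rw [inv_le_comm₀ (pow_pos hpos 2) (by positivity)]
        have h5 : (4 / s ^ 2)⁻¹ = (s / 2) ^ 2 := by
          field_simp
          norm_num
        rw [h5]
        exact pow_le_pow_left₀ (by positivity) h1 2
    · exact hint.norm.mul_const _
    · refine Eventually.of_forall fun z w hw => ?_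
      by_cases hz : a z = 0
      · simp only [hz, zero_div, neg_zero]
        exact hasDerivAt_const w (0 : ℂ)
      · have h1 : w - F z ≠ 0 := by
          intro h0
          have h2 := h z hz
          have h4 : ‖w0 - w‖ < s / 2 := by
            rw [← dist_eq_norm, dist_comm]
            exact hw
          have h5 : w = F z := sub_eq_zero.mp h0
          rw [← h5] at h2
          linarith
        have h2 := (((hasDerivAt_id w).sub_const (F z)).inv h1).const_mul (a z)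
        refine (h2.congr_deriv ?_).congr_of_eventuallyEq ?_
        · simp only [id]
          ring
        · exact Eventually.of_forall fun y => by simp [div_eq_mul_inv]
  · refine (norm_integral_le_of_norm_le (hint.norm.div_const s) (Eventually.of_forall hb1)).trans ?_
    rw [integral_div]
  · refine (norm_integral_le_of_norm_le (hint.norm.div_const (s ^ 2))
      (Eventually.of_forall hb2)).trans ?_
    rw [integral_div]

theorem C7_lip {F G : ℂ → ℂ} (hF : Continuous F) (hG : ContDiff ℝ ∞ G) (hGF : ∀ z, G (F z) = z)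
    (R : ℝ) : ∃ L : ℝ, 0 ≤ L ∧ ∀ x ∈ Metric.closedBall (0 : ℂ) R, ∀ y ∈ Metric.closedBall (0 : ℂ) R,
      ‖x - y‖ ≤ L * ‖F x - F y‖ := by
  have hc1 : IsCompact (F '' Metric.closedBall (0 : ℂ) R) :=
    (isCompact_closedBall (0 : ℂ) R).image hF
  obtain ⟨R', hR'⟩ := hc1.isBounded.subset_closedBall (0 : ℂ)
  have hfc : Continuous (fderiv ℝ G) := hG.continuous_fderiv (by simp)
  obtain ⟨L, hL⟩ := (isCompact_closedBall (0 : ℂ) R').exists_bound_of_continuousOn
    hfc.continuousOn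
  refine ⟨max L 0, le_max_right _ _, fun x hx y hy => ?_⟩
  have h1 := (convex_closedBall (0 : ℂ) R').norm_image_sub_le_of_norm_fderiv_le (𝕜 := ℝ) (f := G)
    (fun z _ => (hG.differentiable (by simp)).differentiableAt) hL
    (hR' ⟨y, hy, rfl⟩) (hR' ⟨x, hx, rfl⟩)
  rw [hGF, hGF] at h1
  exact h1.trans (mul_le_mul_of_nonneg_right (le_max_left _ _) (norm_nonneg _))

theorem C7_sing {F G h : ℂ → ℂ} (hF : Continuous F) (hG : ContDiff ℝ ∞ G) (hGF : ∀ z, G (F z) = z)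
    (hc : Continuous h) (hcs : HasCompactSupport h) (z0 : ℂ) :
    Integrable (fun z => h z / (F z0 - F z)) := by
  obtain ⟨R0, hR0⟩ := hcs.isCompact.isBounded.subset_closedBall (0 : ℂ)
  set R : ℝ := max (max R0 ‖z0‖) 0 + 1 with hR
  have hR1 : 0 ≤ R := by positivity
  obtain ⟨L, hL0, hL⟩ := C7_lip hF hG hGF R
  obtain ⟨B, hB⟩ := hc.bounded_above_of_compact_support hcs
  have hB0 : 0 ≤ B := (norm_nonneg _).trans (hB 0)
  have hz0 : z0 ∈ Metric.closedBall (0 : ℂ) R := by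
    rw [mem_closedBall_zero_iff]
    have h1 := le_max_right R0 ‖z0‖
    have h2 := le_max_left (max R0 ‖z0‖) 0
    linarith
  have hsub : Function.support (fun z => h z / (F z0 - F z)) ⊆ Metric.ball (0 : ℂ) R := by
    intro z hz
    have h1 : h z ≠ 0 := by
      intro h0
      apply hz
      simp [h0]
    have h2 := hR0 (subset_tsupport _ h1)
    rw [mem_closedBall_zero_iff] at h2
    rw [mem_ball_zero_iff]
    have h3 := le_max_left R0 ‖z0‖
    have h4 := le_max_left (max R0 ‖z0‖) 0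
    linarith
  rw [← integrableOn_iff_integrable_of_support_subset hsub]
  have hi := (int_inv_le 0 z0 hR1).1
  refine Integrable.mono' (hi.const_mul (B * L)) ?_ ?_
  · exact (hc.measurable.div (measurable_const.sub hF.measurable)).aestronglyMeasurable
  · refine (ae_restrict_iff' measurableSet_ball).mpr (Eventually.of_forall fun z hz => ?_)
    have hz' : z ∈ Metric.closedBall (0 : ℂ) R := Metric.ball_subset_closedBall hz
    rw [norm_div, div_eq_mul_inv, mul_assoc]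
    refine mul_le_mul (hB z) ?_ (by positivity) hB0
    by_cases hzz : z = z0
    · subst hzz
      simp
    · have h1 := hL z hz' z0 hz0
      have h2 : 0 < ‖z - z0‖ := norm_pos_iff.mpr (sub_ne_zero.mpr hzz)
      have h3 : 0 < ‖F z0 - F z‖ := by
        rw [norm_pos_iff, sub_ne_zero]
        intro h4
        apply hzz
        rw [← hGF z, ← hGF z0, h4]
      rw [norm_sub_rev (F z) (F z0)] at h1
      rw [← div_eq_mul_inv, le_div_iff₀ h2, inv_mul_le_iff₀ h3, mul_comm]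
      exact h1

theorem C7_ker (c : ℂ) {R : ℝ} (hR : 0 ≤ R) :
    ∫⁻ w in Metric.ball (0 : ℂ) R, ENNReal.ofReal (‖w - c‖⁻¹) ≤
      ENNReal.ofReal (6 * Real.pi * R) := by
  have h := int_inv_le 0 c hR
  rw [← ofReal_integral_eq_lintegral_ofReal h.1
    (Eventually.of_forall fun z => inv_nonneg.mpr (norm_nonneg _))]
  exact ENNReal.ofReal_le_ofReal h.2

theorem C7_tonelli {C b' : ℝ} {μ F G h : ℂ → ℂ} (hF : Good C b' μ F G) (hμ : ∀ z, ‖μ z‖ < 1)
    (hc : Continuous h) :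
    ∫⁻ z0 in Metric.ball (0 : ℂ) (1 / 8), ‖(∫ z, h z / (F z0 - F z))‖ₑ * ENNReal.ofReal (jac F z0) ≤
      ENNReal.ofReal (6 * Real.pi * (1 + C)) * ∫⁻ z, ‖h z‖ₑ := by
  have hC : 0 ≤ C := (norm_nonneg _).trans (hF.near 0)
  have hFm : Measurable F := hF.cF.continuous.measurable
  have hJm : Measurable (jac F) := (C7_jac_cont hF.cF).measurable
  have e1 : ∫⁻ z0 in Metric.ball (0 : ℂ) (1 / 8),
        ‖(∫ z, h z / (F z0 - F z))‖ₑ * ENNReal.ofReal (jac F z0) ≤
      ∫⁻ z0 in Metric.ball (0 : ℂ) (1 / 8), ∫⁻ z,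
        ‖h z‖ₑ * (ENNReal.ofReal (jac F z0) * ENNReal.ofReal (‖F z0 - F z‖⁻¹)) := by
    refine lintegral_mono fun z0 => ?_
    calc ‖(∫ z, h z / (F z0 - F z))‖ₑ * ENNReal.ofReal (jac F z0)
        ≤ (∫⁻ z, ‖h z / (F z0 - F z)‖ₑ) * ENNReal.ofReal (jac F z0) :=
          mul_le_mul_left (enorm_integral_le_lintegral_enorm _) _
      _ = ∫⁻ z, ‖h z / (F z0 - F z)‖ₑ * ENNReal.ofReal (jac F z0) := by
          rw [lintegral_mul_const]
          exact (hc.measurable.div (measurable_const.sub hFm)).enorm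
      _ = ∫⁻ z, ‖h z‖ₑ * (ENNReal.ofReal (jac F z0) * ENNReal.ofReal (‖F z0 - F z‖⁻¹)) := by
          refine lintegral_congr fun z => ?_
          rw [div_eq_mul_inv, enorm_mul]
          have : ‖(F z0 - F z)⁻¹‖ₑ = ENNReal.ofReal (‖F z0 - F z‖⁻¹) := by
            rw [← ofReal_norm, norm_inv]
          rw [this]
          ring
  have e2 : ∫⁻ z0 in Metric.ball (0 : ℂ) (1 / 8), ∫⁻ z,
        ‖h z‖ₑ * (ENNReal.ofReal (jac F z0) * ENNReal.ofReal (‖F z0 - F z‖⁻¹)) =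
      ∫⁻ z, ∫⁻ z0 in Metric.ball (0 : ℂ) (1 / 8),
        ‖h z‖ₑ * (ENNReal.ofReal (jac F z0) * ENNReal.ofReal (‖F z0 - F z‖⁻¹)) := by
    refine lintegral_lintegral_swap ?_
    refine Measurable.aemeasurable ?_
    have m0 : Measurable (fun q : ℂ × ℂ => ‖h q.2‖ₑ) := (hc.measurable.comp measurable_snd).enorm
    have m1 : Measurable (fun q : ℂ × ℂ => ENNReal.ofReal (jac F q.1)) :=
      (hJm.comp measurable_fst).ennreal_ofReal
    have m2 : Measurable (fun q : ℂ × ℂ => ENNReal.ofReal (‖F q.1 - F q.2‖⁻¹)) :=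
      (((hFm.comp measurable_fst).sub (hFm.comp measurable_snd)).norm.inv).ennreal_ofReal
    exact m0.mul (m1.mul m2)
  have e3 : ∀ z, ∫⁻ z0 in Metric.ball (0 : ℂ) (1 / 8),
        ‖h z‖ₑ * (ENNReal.ofReal (jac F z0) * ENNReal.ofReal (‖F z0 - F z‖⁻¹)) ≤
      ENNReal.ofReal (6 * Real.pi * (1 + C)) * ‖h z‖ₑ := by
    intro z
    rw [lintegral_const_mul, mul_comm]
    · refine mul_le_mul_left ?_ _
      have h1 := hF.lintegral_image hμ (A := Metric.ball (0 : ℂ) (1 / 8)) measurableSet_ball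
        (fun w => ENNReal.ofReal (‖w - F z‖⁻¹))
      rw [← h1]
      refine le_trans (lintegral_mono_set ?_) (C7_ker (F z) (by linarith : (0:ℝ) ≤ 1 + C))
      rintro _ ⟨x, hx, rfl⟩
      rw [mem_ball_zero_iff] at hx ⊢
      have h2 := hF.near x
      have h3 : ‖F x‖ ≤ ‖F x - x‖ + ‖x‖ := by
        have := norm_add_le (F x - x) x
        simpa using this
      linarith
    · exact (hJm.ennreal_ofReal).mul
        (((hFm.sub measurable_const).norm.inv).ennreal_ofReal)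
  calc _ ≤ _ := e1
    _ = _ := e2
    _ ≤ ∫⁻ z, ENNReal.ofReal (6 * Real.pi * (1 + C)) * ‖h z‖ₑ := lintegral_mono e3
    _ = _ := by rw [lintegral_const_mul _ hc.measurable.enorm]

theorem C7_dz_one {χ : ℂ → ℂ} (h : ∀ z ∈ Metric.ball (0 : ℂ) (1 / 4), χ z = 1) {z : ℂ}
    (hz : ‖z‖ < 1 / 4) : dz χ z = 0 ∧ dzb χ z = 0 := by
  have h1 : χ =ᶠ[𝓝 z] fun _ => (1 : ℂ) := by
    have h2 : Metric.ball (0 : ℂ) (1 / 4) ∈ 𝓝 z :=
      Metric.isOpen_ball.mem_nhds (by rwa [mem_ball_zero_iff])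
    filter_upwards [h2] with y hy using h y hy
  have h3 : fderiv ℝ χ z = 0 := by
    rw [h1.fderiv_eq]
    simp
  constructor
  · unfold dz
    rw [h3]
    simp
  · unfold dzb
    rw [h3]
    simp

/-- everything about the second part of the representation formula -/
theorem C7_Psi {a F : ℂ → ℂ} {s m : ℝ} (ha : Continuous a) (hac : HasCompactSupport a)
    (hF : ContDiff ℝ ∞ F) (hs : 0 < s) (hm : ∫ z, ‖a z‖ ≤ m)
    (h : ∀ z0 z, ‖z0‖ ≤ 1 / 8 → a z ≠ 0 → s ≤ ‖F z0 - F z‖) {z0 : ℂ}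
    (hz0 : z0 ∈ Metric.ball (0 : ℂ) (1 / 8)) :
    ContDiffAt ℝ ∞ (fun z0 => (1 / Real.pi : ℂ) * ∫ z, a z / (F z0 - F z)) z0 ∧
      ‖(1 / Real.pi : ℂ) * ∫ z, a z / (F z0 - F z)‖ ≤ m / s ∧
      ‖fderiv ℝ (fun z0 => (1 / Real.pi : ℂ) * ∫ z, a z / (F z0 - F z)) z0‖ ≤
        m / s ^ 2 * ‖fderiv ℝ F z0‖ := by
  have hz0' : ‖z0‖ ≤ 1 / 8 := (mem_ball_zero_iff.mp hz0).le
  have hpi : ‖(1 / Real.pi : ℂ)‖ ≤ 1 := by
    rw [norm_div, norm_one, Complex.norm_real, Real.norm_eq_abs, abs_of_pos Real.pi_pos,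
      div_le_one Real.pi_pos]
    linarith [Real.pi_gt_three]
  obtain ⟨hd, _, hb1, hb2⟩ := C7_psi ha hac hF.continuous hs (fun z hz => h z0 z hz0' hz)
  set ψ : ℂ → ℂ := fun w => ∫ z, a z / (w - F z) with hψ
  have hdiff : DifferentiableOn ℂ ψ (Metric.ball (F z0) (s / 2)) := by
    intro w hw
    have h1 : ∀ z, a z ≠ 0 → s / 2 ≤ ‖w - F z‖ := by
      intro z hz
      have h2 := h z0 z hz0' hz
      have h3 : ‖F z0 - F z‖ ≤ ‖F z0 - w‖ + ‖w - F z‖ := by
        have := norm_add_le (F z0 - w) (w - F z)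
        simpa using this
      have h4 : ‖F z0 - w‖ < s / 2 := by
        rw [← dist_eq_norm, dist_comm]
        exact hw
      linarith
    exact (C7_psi ha hac hF.continuous (half_pos hs) h1).1.differentiableAt.differentiableWithinAt
  have hcd : ContDiffAt ℂ ∞ ψ (F z0) :=
    (hdiff.contDiffOn Metric.isOpen_ball).contDiffAt
      (Metric.isOpen_ball.mem_nhds (Metric.mem_ball_self (half_pos hs)))
  have hcd' : ContDiffAt ℝ ∞ ψ (F z0) := hcd.restrict_scalars ℝ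
  have hfd : HasFDerivAt (fun z0 => (1 / Real.pi : ℂ) * ∫ z, a z / (F z0 - F z))
      (((1 / Real.pi : ℂ) * (∫ z, -a z / (F z0 - F z) ^ 2)) • fderiv ℝ F z0) z0 := by
    have h5 := (hd.const_mul (1 / Real.pi : ℂ)).comp_hasFDerivAt z0
      ((hF.differentiable (by simp)).differentiableAt.hasFDerivAt (x := z0))
    exact h5
  refine ⟨?_, ?_, ?_⟩
  · exact contDiffAt_const.mul (hcd'.comp z0 hF.contDiffAt)
  · rw [norm_mul]
    calc ‖(1 / Real.pi : ℂ)‖ * ‖∫ z, a z / (F z0 - F z)‖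
        ≤ 1 * ((∫ z, ‖a z‖) / s) := mul_le_mul hpi hb1 (norm_nonneg _) zero_le_one
      _ ≤ m / s := by
        rw [one_mul]
        exact div_le_div_of_nonneg_right hm hs.le
  · rw [hfd.fderiv, norm_smul, norm_mul]
    refine mul_le_mul_of_nonneg_right ?_ (norm_nonneg _)
    calc ‖(1 / Real.pi : ℂ)‖ * ‖∫ z, -a z / (F z0 - F z) ^ 2‖
        ≤ 1 * ((∫ z, ‖a z‖) / s ^ 2) := mul_le_mul hpi hb2 (norm_nonneg _) zero_le_one
      _ ≤ m / s ^ 2 := by
        rw [one_mul]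
        exact div_le_div_of_nonneg_right hm (by positivity)

/-- the estimate of the error term -/
theorem C7_err {C b' : ℝ} {μ F G h g : ℂ → ℂ} (hF : Good C b' μ F G) (hμ : ∀ z, ‖μ z‖ < 1)
    (hc : Continuous h) (hcs : HasCompactSupport h)
    (hg : ContinuousOn g (Metric.ball 0 (1 / 8)))
    (hgh : ∀ z0 ∈ Metric.ball (0 : ℂ) (1 / 8), ‖g z0‖ ≤ ‖∫ z, h z / (F z0 - F z)‖) :
    IntegrableOn (fun z => ‖g z‖ * jac F z) (Metric.ball 0 (1 / 8)) ∧
      ∫ z in Metric.ball (0 : ℂ) (1 / 8), ‖g z‖ * jac F z ≤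
        6 * Real.pi * (1 + C) * ∫ z, ‖h z‖ := by
  have hC : 0 ≤ C := (norm_nonneg _).trans (hF.near 0)
  have hJ : ∀ z, 0 < jac F z := fun z => hF.jac_pos hμ z
  have hint : Integrable h := hc.integrable_of_hasCompactSupport hcs
  have hT := C7_tonelli hF hμ hc
  have hm : AEStronglyMeasurable (fun z => ‖g z‖ * jac F z)
      (volume.restrict (Metric.ball (0 : ℂ) (1 / 8))) :=
    (hg.norm.mul (C7_jac_cont hF.cF).continuousOn).aestronglyMeasurable measurableSet_ball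
  have hnn : ∀ z, 0 ≤ ‖g z‖ * jac F z := fun z => mul_nonneg (norm_nonneg _) (hJ z).le
  have h1 : ∫⁻ z in Metric.ball (0 : ℂ) (1 / 8), ENNReal.ofReal (‖g z‖ * jac F z) ≤
      ENNReal.ofReal (6 * Real.pi * (1 + C) * ∫ z, ‖h z‖) := by
    have h2 : ENNReal.ofReal (6 * Real.pi * (1 + C) * ∫ z, ‖h z‖) =
        ENNReal.ofReal (6 * Real.pi * (1 + C)) * ∫⁻ z, ‖h z‖ₑ := by
      rw [ENNReal.ofReal_mul (by positivity),
        ofReal_integral_eq_lintegral_ofReal hint.norm (Eventually.of_forall fun z => norm_nonneg _)]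
      congr 1
      exact lintegral_congr fun z => ofReal_norm _
    rw [h2]
    refine le_trans (setLIntegral_mono' measurableSet_ball fun z hz => ?_) hT
    rw [ENNReal.ofReal_mul (norm_nonneg _), ← ofReal_norm]
    exact mul_le_mul_left (ENNReal.ofReal_le_ofReal (hgh z hz)) _
  have hfi : IntegrableOn (fun z => ‖g z‖ * jac F z) (Metric.ball 0 (1 / 8)) := by
    refine ⟨hm, ?_⟩
    rw [hasFiniteIntegral_iff_ofReal (Eventually.of_forall hnn)]
    exact lt_of_le_of_lt h1 ENNReal.ofReal_lt_top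
  refine ⟨hfi, ?_⟩
  rw [← ofReal_integral_eq_lintegral_ofReal hfi (Eventually.of_forall hnn)] at h1
  refine (ENNReal.ofReal_le_ofReal_iff ?_).mp h1
  have : 0 ≤ ∫ z, ‖h z‖ := integral_nonneg fun z => norm_nonneg _
  positivity

/-- PROOF. Fix a cutoff `χ ∈ Cc (ball 0 (3/8))`, `χ = 1` on `ball 0 (1/4)`. `Good.repr` for `χ u`: `dzb (χ u) - μ dz (χ u) = χ (dzb u - μ dz u) + u (dzb χ - μ dz χ)`. `E z0 = (1/π) ∫ χ (dzb u - μ dz u) dz F / (F z0 - F z)`,
`Ψ z0 = ψ (F z0)`, `ψ w = (1/π) ∫ u (dzb χ - μ dz χ) dz F z / (w - F z)`, holomorphic on `{w | dist w (F '' {1/4 ≤ |z| ≤ 3/8}) > 0}`; by `separation` `‖ψ‖ ≤ C s0⁻¹ ∫_{ball 0 (3/8)} ‖u‖ ‖DF‖`, `‖ψ'‖ ≤ C s0⁻² ∫ ‖u‖ ‖DF‖` on `F '' ball 0 (1/8)`,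
and `∫ ‖u‖ ‖DF‖ ≤ (∫ ‖u‖³)^(1/3) (∫ ‖DF‖^(3/2))^(2/3)` (`sobolev3`; `‖DF‖^(3/2) = (K J)^(3/4)`, Hölder, `∫ K³ ≤ C M`). `‖DΨ‖² / kap = ‖ψ' (F)‖² jac F`. `∫ ‖E z0‖ jac F z0 ≤ (1/π) ∫ ‖χ b‖ ∫_{F(ball 0 (1/8))} dw / |w - F z|`, `int_inv_le`. -/
theorem decomp {C b b' M A : ℝ} (hb : 0 < b) (hA : 1 ≤ A) : ∃ D : ℝ, 0 < D ∧
    ∀ μ F G u : ℂ → ℂ, Adm b M μ → Good C b' μ F G → ContDiff ℝ ∞ u →
      ∫ z in Metric.ball (0 : ℂ) (1 / 2), ‖fderiv ℝ u z‖ ^ (6 / 5 : ℝ) ≤ A →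
      ∫ z in Metric.ball (0 : ℂ) (1 / 2), ‖u z‖ ≤ A →
      ∃ Ψ : ℂ → ℂ, ContDiffOn ℝ ∞ Ψ (Metric.ball 0 (1 / 8)) ∧
        (∀ z ∈ Metric.ball (0 : ℂ) (1 / 8), ‖Ψ z‖ ≤ D) ∧
        (IntegrableOn (fun z => ‖fderiv ℝ Ψ z‖ ^ 2 / kap ‖μ z‖) (Metric.ball 0 (1 / 8)) ∧
          ∫ z in Metric.ball (0 : ℂ) (1 / 8), ‖fderiv ℝ Ψ z‖ ^ 2 / kap ‖μ z‖ ≤ D) ∧
        (IntegrableOn (fun z => ‖u z - Ψ z‖ * jac F z) (Metric.ball 0 (1 / 8)) ∧
          ∫ z in Metric.ball (0 : ℂ) (1 / 8), ‖u z - Ψ z‖ * jac F z ≤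
            D * ∫ z in Metric.ball (0 : ℂ) (1 / 2), ‖(dzb u z - μ z * dz u z) * dz F z‖) := by
  obtain ⟨χ, B, hB0, hχ, hχ1, hχn, hχz, hχzb⟩ := C7_cutoff
  obtain ⟨CS, hCS, hsob⟩ := sobolev3
  obtain ⟨s0, hs0, hsep⟩ := separation (C := C) (b' := b') (M := M) hb
  set m : ℝ := 2 * B * (CS * A ^ 3 + 6 / b ^ 3 * M + C) with hm
  refine ⟨1 + |m| / s0 + (|m| / s0 ^ 2) ^ 2 * |C| + 6 * Real.pi * (1 + |C|), by positivity, ?_⟩
  intro μ F G u hμ hF hu h65 h1u
  have hC : 0 ≤ C := (norm_nonneg _).trans (hF.near 0)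
  have hk1 : ∀ z, 1 ≤ kap ‖μ z‖ := fun z => C7_kap_one (norm_nonneg _) (hμ.lt z)
  have hkc : Continuous (fun z => kap ‖μ z‖) := C7_kap_cont hμ.smooth.continuous hμ.lt
  have hJ : ∀ z, 0 < jac F z := fun z => hF.jac_pos hμ.lt z
  have hJc := C7_jac_cont hF.cF
  have h3 := hsob u hu A hA h65 h1u
  have hmass := C7_mass hb hμ hF hu h3
  set γ : ℂ → ℂ := fun z => dzb χ z - μ z * dz χ z with hγ
  set a : ℂ → ℂ := fun z => u z * γ z * dz F z with ha
  set h : ℂ → ℂ := fun z => χ z * (dzb u z - μ z * dz u z) * dz F z with hh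
  have cχz : Continuous (dz χ) := (dz_smooth hχ.smooth).continuous
  have cχzb : Continuous (dzb χ) := (dzb_smooth hχ.smooth).continuous
  have cFz : Continuous (dz F) := (dz_smooth hF.cF).continuous
  have cuz : Continuous (dz u) := (dz_smooth hu).continuous
  have cuzb : Continuous (dzb u) := (dzb_smooth hu).continuous
  have cμ : Continuous μ := hμ.smooth.continuous
  have hac : Continuous a := (hu.continuous.mul (cχzb.sub (cμ.mul cχz))).mul cFz
  have hhc : Continuous h := (hχ.smooth.continuous.mul (cuzb.sub (cμ.mul cuz))).mul cFz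
  have hγ0 : ∀ z, z ∉ tsupport χ → γ z = 0 := by
    intro z hz
    have h1 : dz χ z = 0 := image_eq_zero_of_notMem_tsupport fun h => hz (tsupport_dz χ h)
    have h2 : dzb χ z = 0 := image_eq_zero_of_notMem_tsupport fun h => hz (tsupport_dzb χ h)
    simp [hγ, h1, h2]
  have haz : ∀ z, z ∉ tsupport χ → a z = 0 := by
    intro z hz
    simp [ha, hγ0 z hz]
  have hhz : ∀ z, z ∉ tsupport χ → h z = 0 := by
    intro z hz
    simp [hh, image_eq_zero_of_notMem_tsupport hz]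
  have hacs : HasCompactSupport a := HasCompactSupport.intro hχ.cpt.isCompact haz
  have hhcs : HasCompactSupport h := HasCompactSupport.intro hχ.cpt.isCompact hhz
  have hγn : ∀ z, ‖γ z‖ ≤ 2 * B := by
    intro z
    have h1 : ‖γ z‖ ≤ ‖dzb χ z‖ + ‖μ z * dz χ z‖ := norm_sub_le _ _
    rw [norm_mul] at h1
    have h2 : ‖μ z‖ * ‖dz χ z‖ ≤ 1 * B :=
      mul_le_mul (hμ.lt z).le (hχz z) (norm_nonneg _) zero_le_one
    linarith [hχzb z]
  have hmassa : ∫ z, ‖a z‖ ≤ |m| := by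
    have e0 : ∫ z in Metric.ball (0 : ℂ) (3 / 8), ‖a z‖ = ∫ z, ‖a z‖ :=
      setIntegral_eq_integral_of_forall_compl_eq_zero fun z hz => by
        rw [haz z fun h => hz (hχ.sub h), norm_zero]
    rw [← e0]
    have e1 : ∫ z in Metric.ball (0 : ℂ) (3 / 8), ‖a z‖ ≤
        ∫ z in Metric.ball (0 : ℂ) (3 / 8), 2 * B * (‖u z‖ * ‖dz F z‖) := by
      refine integral_mono (C7_int hac.norm _ _)
        (C7_int (continuous_const.mul (hu.continuous.norm.mul cFz.norm)) _ _) fun z => ?_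
      simp only [ha, norm_mul]
      have h1 := mul_le_mul_of_nonneg_right (hγn z)
        (mul_nonneg (norm_nonneg (u z)) (norm_nonneg (dz F z)))
      nlinarith
    rw [integral_const_mul] at e1
    have e2 : 2 * B * ∫ z in Metric.ball (0 : ℂ) (3 / 8), ‖u z‖ * ‖dz F z‖ ≤ m :=
      mul_le_mul_of_nonneg_left hmass (by positivity)
    exact e1.trans (e2.trans (le_abs_self m))
  have hsepa : ∀ z0 z, ‖z0‖ ≤ 1 / 8 → a z ≠ 0 → s0 ≤ ‖F z0 - F z‖ := by
    intro z0 z hz0 hz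
    rw [norm_sub_rev]
    refine hsep μ F G hμ hF z0 z hz0 ?_
    by_contra hcon
    obtain ⟨q1, q2⟩ := C7_dz_one hχ1 (not_le.mp hcon)
    apply hz
    simp [ha, hγ, q1, q2]
  set Ψ : ℂ → ℂ := fun z0 => (1 / Real.pi : ℂ) * ∫ z, a z / (F z0 - F z) with hΨ
  have hP := fun (z0 : ℂ) (hz0 : z0 ∈ Metric.ball (0 : ℂ) (1 / 8)) =>
    C7_Psi hac hacs hF.cF hs0 hmassa hsepa hz0
  have hΨs : ContDiffOn ℝ ∞ Ψ (Metric.ball 0 (1 / 8)) := fun z0 hz0 =>
    (hP z0 hz0).1.contDiffWithinAt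
  have q1 : 0 ≤ |m| / s0 := by positivity
  have q2 : 0 ≤ (|m| / s0 ^ 2) ^ 2 * |C| := by positivity
  have q3 : 0 ≤ 6 * Real.pi * (1 + |C|) := by positivity
  refine ⟨Ψ, hΨs, fun z hz => ?_, ?_, ?_⟩
  · have h1 := (hP z hz).2.1
    linarith
  · have hbd : ∀ z ∈ Metric.ball (0 : ℂ) (1 / 8),
        ‖fderiv ℝ Ψ z‖ ^ 2 / kap ‖μ z‖ ≤ (|m| / s0 ^ 2) ^ 2 * jac F z := by
      intro z hz
      have h1 := (hP z hz).2.2
      have hkp : 0 < kap ‖μ z‖ := by linarith [hk1 z]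
      rw [div_le_iff₀ hkp]
      have h2 : ‖fderiv ℝ Ψ z‖ ^ 2 ≤ (|m| / s0 ^ 2 * ‖fderiv ℝ F z‖) ^ 2 :=
        pow_le_pow_left₀ (norm_nonneg _) h1 2
      rw [mul_pow, hF.norm_sq hμ.lt z] at h2
      calc _ ≤ _ := h2
        _ = _ := by ring
    have hcont : ContinuousOn (fun z => ‖fderiv ℝ Ψ z‖ ^ 2 / kap ‖μ z‖)
        (Metric.ball (0 : ℂ) (1 / 8)) := by
      refine ((hΨs.continuousOn_fderiv_of_isOpen Metric.isOpen_ball (by simp)).norm.pow 2).div
        hkc.continuousOn fun z _ => ?_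
      linarith [hk1 z]
    have hi : IntegrableOn (fun z => (|m| / s0 ^ 2) ^ 2 * jac F z) (Metric.ball (0 : ℂ) (1 / 8)) :=
      C7_int (continuous_const.mul hJc) _ _
    have hi2 : IntegrableOn (fun z => ‖fderiv ℝ Ψ z‖ ^ 2 / kap ‖μ z‖)
        (Metric.ball (0 : ℂ) (1 / 8)) := by
      refine Integrable.mono' hi (hcont.aestronglyMeasurable measurableSet_ball) ?_
      refine (ae_restrict_iff' measurableSet_ball).mpr (Eventually.of_forall fun z hz => ?_)
      have hkp : 0 < kap ‖μ z‖ := by linarith [hk1 z]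
      rw [Real.norm_eq_abs, abs_of_nonneg (by positivity)]
      exact hbd z hz
    refine ⟨hi2, ?_⟩
    have e1 : ∫ z in Metric.ball (0 : ℂ) (1 / 8), ‖fderiv ℝ Ψ z‖ ^ 2 / kap ‖μ z‖ ≤
        ∫ z in Metric.ball (0 : ℂ) (1 / 8), (|m| / s0 ^ 2) ^ 2 * jac F z :=
      setIntegral_mono_on hi2 hi measurableSet_ball hbd
    rw [integral_const_mul] at e1
    have e4 : ∫ z in Metric.ball (0 : ℂ) (1 / 8), jac F z ≤ C := by
      refine le_trans ?_ hF.area
      exact setIntegral_mono_set (C7_int hJc _ _) (Eventually.of_forall fun z => (hJ z).le)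
        (LE.le.eventuallyLE (Metric.ball_subset_ball (by norm_num)))
    have e5 : (|m| / s0 ^ 2) ^ 2 * ∫ z in Metric.ball (0 : ℂ) (1 / 8), jac F z ≤
        (|m| / s0 ^ 2) ^ 2 * |C| :=
      mul_le_mul_of_nonneg_left (e4.trans (le_abs_self C)) (by positivity)
    linarith
  · have hrepr : ∀ z0 ∈ Metric.ball (0 : ℂ) (1 / 8),
        u z0 - Ψ z0 = (1 / Real.pi : ℂ) * ∫ z, h z / (F z0 - F z) := by
      intro z0 hz0
      have hcc : Cc univ (fun z => χ z * u z) := (hχ.mul_right hu).mono (subset_univ _)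
      have h1 := hF.repr hμ.lt hcc z0
      have h2 : χ z0 = 1 := hχ1 z0 (Metric.ball_subset_ball (by norm_num) hz0)
      rw [h2, one_mul] at h1
      have h4 : ∀ z, (Pool.B2F.dzb (fun z => χ z * u z) z -
          μ z * Pool.B2F.dz (fun z => χ z * u z) z) * Pool.B2F.dz F z / (F z0 - F z) =
          h z / (F z0 - F z) + a z / (F z0 - F z) := by
        intro z
        have d1 : DifferentiableAt ℝ χ z := (hχ.smooth.differentiable (by simp)).differentiableAt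
        have d2 : DifferentiableAt ℝ u z := (hu.differentiable (by simp)).differentiableAt
        rw [dz_mul d1 d2, dzb_mul d1 d2]
        simp only [hh, ha, hγ]
        ring
      have i1 := C7_sing hF.cF.continuous hF.cG hF.GF hhc hhcs z0
      have i2 := (C7_psi hac hacs hF.cF.continuous hs0
        (fun z hz => hsepa z0 z (mem_ball_zero_iff.mp hz0).le hz)).2.1
      rw [integral_congr_ae (Eventually.of_forall h4), integral_add i1 i2, mul_add] at h1
      rw [h1, hΨ]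
      ring
    have hpi : ‖(1 / Real.pi : ℂ)‖ ≤ 1 := by
      rw [norm_div, norm_one, Complex.norm_real, Real.norm_eq_abs, abs_of_pos Real.pi_pos,
        div_le_one Real.pi_pos]
      linarith [Real.pi_gt_three]
    have herr := C7_err (g := fun z => u z - Ψ z) hF hμ.lt hhc hhcs
      (hu.continuous.continuousOn.sub hΨs.continuousOn) (fun z0 hz0 => by
        rw [hrepr z0 hz0, norm_mul]
        calc _ ≤ 1 * ‖∫ z, h z / (F z0 - F z)‖ :=
              mul_le_mul_of_nonneg_right hpi (norm_nonneg _)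
          _ = _ := one_mul _)
    refine ⟨herr.1, herr.2.trans ?_⟩
    have e6 : ∫ z, ‖h z‖ ≤
        ∫ z in Metric.ball (0 : ℂ) (1 / 2), ‖(dzb u z - μ z * dz u z) * dz F z‖ := by
      have e0 : ∫ z in Metric.ball (0 : ℂ) (1 / 2), ‖h z‖ = ∫ z, ‖h z‖ :=
        setIntegral_eq_integral_of_forall_compl_eq_zero fun z hz => by
          rw [hhz z fun h => hz (Metric.ball_subset_ball (by norm_num) (hχ.sub h)), norm_zero]
      rw [← e0]
      refine integral_mono (C7_int hhc.norm _ _)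
        (C7_int ((cuzb.sub (cμ.mul cuz)).mul cFz).norm _ _) fun z => ?_
      simp only [hh]
      rw [mul_assoc, norm_mul]
      calc _ ≤ 1 * ‖(dzb u z - μ z * dz u z) * dz F z‖ :=
            mul_le_mul_of_nonneg_right (hχn z) (norm_nonneg _)
        _ = _ := one_mul _
    have e7 : 0 ≤ ∫ z in Metric.ball (0 : ℂ) (1 / 2), ‖(dzb u z - μ z * dz u z) * dz F z‖ :=
      integral_nonneg fun z => norm_nonneg _
    have e8 : 6 * Real.pi * (1 + C) * ∫ z, ‖h z‖ ≤ 6 * Real.pi * (1 + C) *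
        ∫ z in Metric.ball (0 : ℂ) (1 / 2), ‖(dzb u z - μ z * dz u z) * dz F z‖ :=
      mul_le_mul_of_nonneg_left e6 (by positivity)
    refine e8.trans (mul_le_mul_of_nonneg_right ?_ e7)
    rw [abs_of_nonneg hC] at q2 ⊢
    linarith

end

end Pool.B2F
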