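import Pool.Agent.Lib.MP_b2f128_an.Base
import Pool.Agent.Lib.MP_b2f128_an.A01a
import Pool.Agent.Lib.MP_b2f128_an.A01c
import Pool.Agent.Lib.MP_b2f128_an.A02a
import Pool.Agent.Lib.MP_b2f128_an.A02b
import Pool.Agent.Lib.MP_b2f128_an.B8c
import Pool.Agent.Lib.MP_b2f128_an.C0a
import Pool.Agent.Lib.MP_b2f128_an.C0b
import Pool.Agent.Lib.MP_b2f128_an.C0c

/-!
# MP_b2f128_an, part C3 (very weak solutions)
-/

open Complex MeasureTheory Set Filter Topology
open scoped ContDiff

namespace Pool.B2F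

noncomputable section

/-- PROOF. `R = 2 + |C|`, `u = χ G` with a real smooth cutoff `χ` (1 on `ball 0 (2R)`, support in `ball 0 (3R)`): `jac_equi` (`∫ ‖Du‖² ≤ C'` by `energy_inv`; `jac u = jac G > 0` on `ball 0 (2R)`) with `B = F '' A ⊆ ball 0 R`:
`|B| = ∫_A jac F ≤ δ`, `|A| = |G '' B| = ∫_B jac G = ∫_B jac u ≤ ε`. -/
theorem lusin_inv {C b b' M : ℝ} (hb : 0 < b) {ε : ℝ} (hε : 0 < ε) : ∃ δ : ℝ, 0 < δ ∧
    ∀ μ F G : ℂ → ℂ, Adm b M μ → Good C b' μ F G → ∀ A : Set ℂ, MeasurableSet A →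
      A ⊆ Metric.ball 0 1 → ∫ z in A, jac F z ≤ δ → (volume A).toReal ≤ ε := by
  set R : ℝ := 2 + |C| with hRdef
  have hR : 0 < R := by positivity
  set χ : ContDiffBump (0 : ℂ) := ⟨2 * R, 3 * R, by positivity, by linarith⟩ with hχdef
  have hχout : χ.rOut = 3 * R := rfl
  have hχin : χ.rIn = 2 * R := rfl
  have hχs : ContDiff ℝ ∞ (χ : ℂ → ℝ) := χ.contDiff
  obtain ⟨T, hT⟩ : ∃ T : ℝ, ∀ z, ‖fderiv ℝ (χ : ℂ → ℝ) z‖ ≤ T := by
    have h1 : HasCompactSupport (fderiv ℝ (χ : ℂ → ℝ)) := χ.hasCompactSupport.fderiv ℝ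
    exact h1.exists_bound_of_continuous (hχs.continuous_fderiv (by simp))
  have hT0 : 0 ≤ T := (norm_nonneg _).trans (hT 0)
  set K0 : ℝ := 4 * R + |C| with hK0def
  have hK0 : 0 < K0 := by positivity
  set V : ℝ := (volume (Metric.ball (0 : ℂ) (4 * R))).toReal with hVdef
  have hV : 0 ≤ V := ENNReal.toReal_nonneg
  set C1 : ℝ := 2 * (|M / b| + Real.pi * K0 ^ 2) + 2 * (T * K0) ^ 2 * V + K0 + 1 with hC1def
  have hC1 : 0 < C1 := by
    have := Real.pi_pos
    positivity
  obtain ⟨δ, hδ, hjac⟩ := jac_equi hR hC1 hε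
  refine ⟨δ, hδ, ?_⟩
  intro μ F G hA hG A hAm hA1 hAδ
  have hC : 0 ≤ C := (norm_nonneg _).trans (hG.near 0)
  have habs : |C| = C := abs_of_nonneg hC
  have hjF : ∀ z, 0 < jac F z := fun z => hG.jac_pos hA.lt z
  have hGnear : ∀ w, ‖G w‖ ≤ ‖w‖ + C := by
    intro w
    have h1 := hG.near (G w)
    rw [hG.FG] at h1
    have h2 : G w = w - (w - G w) := by ring
    rw [h2]
    exact (norm_sub_le _ _).trans (by linarith)
  have hGd : ∀ w, DifferentiableAt ℝ G w := fun w =>
    (hG.cG.differentiable (by simp)).differentiableAt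
  have hFd : ∀ w, DifferentiableAt ℝ F w := fun w =>
    (hG.cF.differentiable (by simp)).differentiableAt
  -- the Jacobian of the inverse
  have hprod : ∀ z, jac G (F z) * jac F z = 1 := by
    intro z
    rw [← jac_comp (hGd (F z)) (hFd z)]
    have h1 : (fun z => G (F z)) = fun z => z := funext hG.GF
    rw [h1]
    unfold jac
    rw [dz_id, dzb_id]
    norm_num
  have hjG : ∀ w, 0 < jac G w := by
    intro w
    have h1 := hprod (G w)
    rw [hG.FG] at h1
    have h2 := hjF (G w)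
    by_contra h3
    nlinarith [mul_nonpos_of_nonpos_of_nonneg (not_lt.1 h3) h2.le]
  -- the function u
  set u : ℂ → ℂ := fun z => (χ z) • G z with hudef
  have hus : ContDiff ℝ ∞ u := hχs.smul hG.cG
  have hutsup : tsupport u ⊆ Metric.closedBall 0 (3 * R) := by
    have h1 : tsupport u ⊆ tsupport (χ : ℂ → ℝ) := tsupport_smul_subset_left _ _
    rw [χ.tsupport_eq, hχout] at h1
    exact h1
  have huc : HasCompactSupport u :=
    (isCompact_closedBall (0 : ℂ) (3 * R)).of_isClosed_subset (isClosed_tsupport u) hutsup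
  have hCc : Cc univ u := ⟨hus, huc, subset_univ _⟩
  have hχ1 : ∀ z, |χ z| ≤ 1 := fun z => by
    rw [abs_of_nonneg χ.nonneg]
    exact χ.le_one
  have hzero : ∀ z, z ∉ Metric.ball (0 : ℂ) (4 * R) → u z = 0 ∧ fderiv ℝ u z = 0 := by
    intro z hz
    have h1 : z ∉ tsupport u := by
      intro h2
      have h3 := hutsup h2
      rw [Metric.mem_closedBall] at h3
      rw [Metric.mem_ball, not_lt] at hz
      linarith
    refine ⟨image_eq_zero_of_notMem_tsupport h1, ?_⟩
    have h4 : fderiv ℝ u z = 0 := by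
      apply image_eq_zero_of_notMem_tsupport (f := fderiv ℝ u)
      intro h5
      exact h1 (tsupport_fderiv_subset ℝ h5)
    exact h4
  have hbd : ∀ z ∈ Metric.ball (0 : ℂ) (4 * R), ‖G z‖ ≤ K0 := by
    intro z hz
    rw [mem_ball_zero_iff] at hz
    have := hGnear z
    rw [hK0def, habs]
    linarith
  have huC1 : ∀ z, ‖u z‖ ≤ C1 := by
    intro z
    by_cases hz : z ∈ Metric.ball (0 : ℂ) (4 * R)
    · have h1 : ‖u z‖ ≤ K0 := by
        rw [hudef]
        simp only
        rw [norm_smul, Real.norm_eq_abs]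
        calc |χ z| * ‖G z‖ ≤ 1 * K0 := by
              apply mul_le_mul (hχ1 z) (hbd z hz) (norm_nonneg _) (by norm_num)
          _ = K0 := one_mul _
      have h2 : K0 ≤ C1 := by
        rw [hC1def]
        have := Real.pi_pos
        have h3 : 0 ≤ 2 * (|M / b| + Real.pi * K0 ^ 2) := by positivity
        have h4 : 0 ≤ 2 * (T * K0) ^ 2 * V := by positivity
        linarith
      exact h1.trans h2
    · rw [(hzero z hz).1, norm_zero]
      exact hC1.le
  have hder : ∀ z ∈ Metric.ball (0 : ℂ) (4 * R), ‖fderiv ℝ u z‖ ^ 2 ≤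
      2 * ‖fderiv ℝ G z‖ ^ 2 + 2 * (T * K0) ^ 2 := by
    intro z hz
    have h1 : ‖fderiv ℝ u z‖ ≤ ‖fderiv ℝ G z‖ + T * K0 := by
      have hχd : DifferentiableAt ℝ (χ : ℂ → ℝ) z :=
        (hχs.differentiable (by simp)).differentiableAt
      have h2 : fderiv ℝ u z = χ z • fderiv ℝ G z + (fderiv ℝ (χ : ℂ → ℝ) z).smulRight (G z) :=
        fderiv_fun_smul hχd (hGd z)
      rw [h2]
      refine (norm_add_le _ _).trans (add_le_add ?_ ?_)
      · rw [norm_smul, Real.norm_eq_abs]
        calc |χ z| * ‖fderiv ℝ G z‖ ≤ 1 * ‖fderiv ℝ G z‖ :=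
              mul_le_mul_of_nonneg_right (hχ1 z) (norm_nonneg _)
          _ = _ := one_mul _
      · rw [ContinuousLinearMap.norm_smulRight_apply]
        exact mul_le_mul (hT z) (hbd z hz) (norm_nonneg _) hT0
    have h3 : 0 ≤ ‖fderiv ℝ u z‖ := norm_nonneg _
    have h4 : 0 ≤ ‖fderiv ℝ G z‖ := norm_nonneg _
    have h5 : 0 ≤ T * K0 := by positivity
    nlinarith [sq_nonneg (‖fderiv ℝ G z‖ - T * K0)]
  have huint : ∫ z, ‖fderiv ℝ u z‖ ^ 2 ≤ C1 := by
    have hGc : Continuous (fderiv ℝ G) := hG.cG.continuous_fderiv (by simp)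
    have huc' : Continuous (fderiv ℝ u) := hus.continuous_fderiv (by simp)
    have e1 : ∫ z, ‖fderiv ℝ u z‖ ^ 2 = ∫ z in Metric.ball (0 : ℂ) (4 * R), ‖fderiv ℝ u z‖ ^ 2 := by
      rw [setIntegral_eq_integral_of_forall_compl_eq_zero]
      intro z hz
      rw [(hzero z hz).2]
      simp
    have i1 : IntegrableOn (fun z => ‖fderiv ℝ u z‖ ^ 2) (Metric.ball (0 : ℂ) (4 * R)) :=
      ((huc'.norm.pow 2).continuousOn.integrableOn_compact
        (isCompact_closedBall (0 : ℂ) (4 * R))).mono_set Metric.ball_subset_closedBall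
    have i2 : IntegrableOn (fun z => ‖fderiv ℝ G z‖ ^ 2) (Metric.ball (0 : ℂ) (4 * R)) :=
      ((hGc.norm.pow 2).continuousOn.integrableOn_compact
        (isCompact_closedBall (0 : ℂ) (4 * R))).mono_set Metric.ball_subset_closedBall
    have i3 : IntegrableOn (fun _ : ℂ => 2 * (T * K0) ^ 2) (Metric.ball (0 : ℂ) (4 * R)) :=
      integrableOn_const measure_ball_lt_top.ne
    have i4 : IntegrableOn (fun z => 2 * ‖fderiv ℝ G z‖ ^ 2) (Metric.ball (0 : ℂ) (4 * R)) :=
      i2.const_mul 2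
    have e2 := hG.energy_inv hb hA (0 : ℂ) (R := 4 * R) (by positivity)
    rw [e1]
    calc ∫ z in Metric.ball (0 : ℂ) (4 * R), ‖fderiv ℝ u z‖ ^ 2 ≤
        ∫ z in Metric.ball (0 : ℂ) (4 * R), (2 * ‖fderiv ℝ G z‖ ^ 2 + 2 * (T * K0) ^ 2) :=
          setIntegral_mono_on i1 (i4.add i3) measurableSet_ball hder
      _ = 2 * (∫ z in Metric.ball (0 : ℂ) (4 * R), ‖fderiv ℝ G z‖ ^ 2) +
          2 * (T * K0) ^ 2 * V := by
          rw [integral_add i4 i3, integral_const_mul, setIntegral_const]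
          simp only [smul_eq_mul, Measure.real]
          ring
      _ ≤ C1 := by
          have h6 : M / b ≤ |M / b| := le_abs_self _
          have h7 : ∫ z in Metric.ball (0 : ℂ) (4 * R), ‖fderiv ℝ G z‖ ^ 2 ≤
              |M / b| + Real.pi * K0 ^ 2 := by
            rw [hK0def, habs]
            linarith
          rw [hC1def]
          linarith
  have hloc : ∀ z ∈ Metric.ball (0 : ℂ) (2 * R), jac u z = jac G z := by
    intro z hz
    have h1 : u =ᶠ[𝓝 z] G := by
      filter_upwards [Metric.isOpen_ball.mem_nhds hz] with w hw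
      have h2 : χ w = 1 := by
        apply χ.one_of_mem_closedBall
        rw [hχin]
        exact Metric.ball_subset_closedBall hw
      rw [hudef]
      simp only [h2, one_smul]
    unfold jac dz dzb
    rw [h1.fderiv_eq]
  have hjpos : ∀ z ∈ Metric.ball (0 : ℂ) (2 * R), 0 ≤ jac u z := by
    intro z hz
    rw [hloc z hz]
    exact (hjG z).le
  -- the set B
  have hBeq : F '' A = G ⁻¹' A := by
    ext w
    constructor
    · rintro ⟨z, hz, rfl⟩
      rw [mem_preimage, hG.GF]
      exact hz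
    · intro hw
      exact ⟨G w, hw, hG.FG w⟩
  have hBm : MeasurableSet (F '' A) := by
    rw [hBeq]
    exact hG.cG.continuous.measurable hAm
  have hBR : F '' A ⊆ Metric.ball 0 R := by
    rintro w ⟨z, hz, rfl⟩
    have h1 := hG.near z
    have h2 := hA1 hz
    rw [mem_ball_zero_iff] at h2 ⊢
    have h3 : F z = (F z - z) + z := by ring
    rw [h3]
    refine (norm_add_le _ _).trans_lt ?_
    rw [hRdef, habs]
    linarith
  have hBδ : (volume (F '' A)).toReal ≤ δ := by
    rw [hG.volume_image hA.lt hAm hA1]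
    exact hAδ
  have hfin := hjac u hCc huC1 huint hjpos (F '' A) hBm hBR hBδ
  -- the volume of A
  have hvol : volume A = ∫⁻ w in F '' A, ENNReal.ofReal (jac u w) := by
    have h1 : ∫⁻ w in F '' A, ENNReal.ofReal (jac u w) =
        ∫⁻ w in F '' A, ENNReal.ofReal (jac G w) := by
      apply setLIntegral_congr_fun hBm
      intro w hw
      simp only
      rw [hloc w (Metric.ball_subset_ball (by linarith) (hBR hw))]
    rw [h1, hG.lintegral_image hA.lt hAm]
    have h2 : ∫⁻ z in A, ENNReal.ofReal (jac F z) * ENNReal.ofReal (jac G (F z)) =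
        ∫⁻ _z in A, 1 := by
      apply lintegral_congr
      intro z
      rw [← ENNReal.ofReal_mul (hjF z).le, mul_comm, hprod z, ENNReal.ofReal_one]
    rw [h2, lintegral_one, Measure.restrict_apply_univ]
  have hint : ∫ w in F '' A, jac u w = (volume A).toReal := by
    rw [hvol, integral_eq_lintegral_of_nonneg_ae]
    · filter_upwards [ae_restrict_mem hBm] with w hw
      exact hjpos w (Metric.ball_subset_ball (by linarith) (hBR hw))
    · have h1 := (dz_smooth hus).continuous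
      have h2 := (dzb_smooth hus).continuous
      have h3 : Continuous (jac u) := by
        unfold jac
        exact (h1.norm.pow 2).sub (h2.norm.pow 2)
      exact h3.aestronglyMeasurable
  rw [← hint]
  exact hfin

end

end Pool.B2F
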