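import Pool.Agent.Lib.MP_b2f128_an.Base
import Pool.Agent.Lib.MP_b2f128_an.A02a
import Pool.Agent.Lib.MP_b2f128_an.A02b
import Pool.Agent.Lib.MP_b2f128_an.C0a
import Pool.Agent.Lib.MP_b2f128_an.C3

/-!
# MP_b2f128_an, part C8 (very weak solutions)
-/

open Complex MeasureTheory Set Filter Topology
open scoped ContDiff

namespace Pool.B2F

noncomputable section

/-- PROOF. For `t > 0`: `A_n = {z ∈ ball 0 (1/8) | t < ‖u_n z - Ψ_n z‖}`, `∫_{A_n} jac F_n ≤ t⁻¹ ∫ ‖u_n - Ψ_n‖ jac F_n → 0`, so `|A_n| → 0` (`lusin_inv`). `∫ ‖Ψ_n - f‖ ≤ t π + ∫ ‖u_n - f‖ + D |A_n| + ∫_{A_n} ‖f‖`. -/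
theorem conv_L1 {C b b' M D : ℝ} (hb : 0 < b) {f : ℂ → ℂ} (hf : IntegrableOn f (Metric.ball 0 2))
    {μ F G u Ψ : ℕ → ℂ → ℂ} (hA : ∀ n, Adm b M (μ n)) (hG : ∀ n, Good C b' (μ n) (F n) (G n))
    (hu : ∀ n, ContDiff ℝ ∞ (u n)) (hΨ : ∀ n, ContDiffOn ℝ ∞ (Ψ n) (Metric.ball 0 (1 / 8)))
    (hD : ∀ n, ∀ z ∈ Metric.ball (0 : ℂ) (1 / 8), ‖Ψ n z‖ ≤ D)
    (hi : ∀ n, IntegrableOn (fun z => ‖u n z - Ψ n z‖ * jac (F n) z) (Metric.ball 0 (1 / 8)))
    (h1 : Tendsto (fun n => ∫ z in Metric.ball (0 : ℂ) (1 / 8), ‖u n z - Ψ n z‖ * jac (F n) z)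
      atTop (𝓝 0))
    (h2 : Tendsto (fun n => ∫ z in Metric.ball (0 : ℂ) (1 / 2), ‖u n z - f z‖) atTop (𝓝 0)) :
    Tendsto (fun n => ∫ z in Metric.ball (0 : ℂ) (1 / 8), ‖Ψ n z - f z‖) atTop (𝓝 0) := by
  have hBm : MeasurableSet (Metric.ball (0 : ℂ) (1 / 8)) := measurableSet_ball
  have hB1 : Metric.ball (0 : ℂ) (1 / 8) ⊆ Metric.ball 0 1 := Metric.ball_subset_ball (by norm_num)
  have hB2 : Metric.ball (0 : ℂ) (1 / 8) ⊆ Metric.ball 0 2 := Metric.ball_subset_ball (by norm_num)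
  have hBh : Metric.ball (0 : ℂ) (1 / 8) ⊆ Metric.ball 0 (1 / 2) :=
    Metric.ball_subset_ball (by norm_num)
  have hh2 : Metric.ball (0 : ℂ) (1 / 2) ⊆ Metric.ball 0 2 := Metric.ball_subset_ball (by norm_num)
  have hD0 : 0 ≤ D := (norm_nonneg _).trans
    (hD 0 0 (Metric.mem_ball_self (by norm_num)))
  have hjac : ∀ n z, 0 < jac (F n) z := fun n z => (hG n).jac_pos (hA n).lt z
  have hjc : ∀ n, Continuous (jac (F n)) := by
    intro n
    have h1 := (dz_smooth (hG n).cF).continuous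
    have h2 := (dzb_smooth (hG n).cF).continuous
    unfold jac
    exact (h1.norm.pow 2).sub (h2.norm.pow 2)
  have hui : ∀ n, IntegrableOn (u n) (Metric.ball (0 : ℂ) (1 / 2)) := fun n =>
    ((hu n).continuous.continuousOn.integrableOn_compact
      (isCompact_closedBall (0 : ℂ) (1 / 2))).mono_set Metric.ball_subset_closedBall
  have hji : ∀ n, IntegrableOn (jac (F n)) (Metric.ball (0 : ℂ) (1 / 8)) := fun n =>
    ((hjc n).continuousOn.integrableOn_compact
      (isCompact_closedBall (0 : ℂ) (1 / 8))).mono_set Metric.ball_subset_closedBall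
  have hΨi : ∀ n, IntegrableOn (Ψ n) (Metric.ball (0 : ℂ) (1 / 8)) := by
    intro n
    have hcD : IntegrableOn (fun _ : ℂ => D) (Metric.ball (0 : ℂ) (1 / 8)) :=
      integrableOn_const measure_ball_lt_top.ne
    refine Integrable.mono' hcD ((hΨ n).continuousOn.aestronglyMeasurable hBm) ?_
    filter_upwards [ae_restrict_mem hBm] with z hz using hD n z hz
  -- the bad sets
  rw [Metric.tendsto_atTop]
  intro ε hε
  obtain ⟨t, ht, htε⟩ : ∃ t : ℝ, 0 < t ∧
      t * (volume (Metric.ball (0 : ℂ) (1 / 8))).toReal ≤ ε / 4 := by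
    have hv : 0 ≤ (volume (Metric.ball (0 : ℂ) (1 / 8))).toReal := ENNReal.toReal_nonneg
    refine ⟨ε / 4 / ((volume (Metric.ball (0 : ℂ) (1 / 8))).toReal + 1), by positivity, ?_⟩
    rw [div_mul_eq_mul_div, div_le_iff₀ (by positivity)]
    nlinarith
  set A : ℕ → Set ℂ := fun n => {z ∈ Metric.ball (0 : ℂ) (1 / 8) | t < ‖u n z - Ψ n z‖} with hAdef
  have hAm : ∀ n, MeasurableSet (A n) := by
    intro n
    have hc : ContinuousOn (fun z => ‖u n z - Ψ n z‖) (Metric.ball (0 : ℂ) (1 / 8)) :=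
      ((hu n).continuous.continuousOn.sub (hΨ n).continuousOn).norm
    have ho : IsOpen (Metric.ball (0 : ℂ) (1 / 8) ∩
        (fun z => ‖u n z - Ψ n z‖) ⁻¹' (Ioi t)) :=
      hc.isOpen_inter_preimage Metric.isOpen_ball isOpen_Ioi
    have he : A n = Metric.ball (0 : ℂ) (1 / 8) ∩ (fun z => ‖u n z - Ψ n z‖) ⁻¹' (Ioi t) := by
      ext z
      simp [hAdef]
    rw [he]
    exact ho.measurableSet
  have hAB : ∀ n, A n ⊆ Metric.ball (0 : ℂ) (1 / 8) := fun n z hz => hz.1
  have hAfin : ∀ n, volume (A n) ≠ ⊤ := fun n =>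
    ((measure_mono (hAB n)).trans_lt measure_ball_lt_top).ne
  have hAint : ∀ n, ∫ z in A n, jac (F n) z ≤
      t⁻¹ * ∫ z in Metric.ball (0 : ℂ) (1 / 8), ‖u n z - Ψ n z‖ * jac (F n) z := by
    intro n
    have h3 : t * ∫ z in A n, jac (F n) z ≤
        ∫ z in Metric.ball (0 : ℂ) (1 / 8), ‖u n z - Ψ n z‖ * jac (F n) z := by
      rw [← integral_const_mul]
      calc ∫ z in A n, t * jac (F n) z ≤ ∫ z in A n, ‖u n z - Ψ n z‖ * jac (F n) z := by
            apply setIntegral_mono_on (((hji n).mono_set (hAB n)).const_mul t)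
              ((hi n).mono_set (hAB n)) (hAm n)
            intro z hz
            exact mul_le_mul_of_nonneg_right hz.2.le (hjac n z).le
        _ ≤ _ := by
            apply setIntegral_mono_set (hi n)
            · exact Filter.Eventually.of_forall fun z =>
                mul_nonneg (norm_nonneg _) (hjac n z).le
            · exact (hAB n).eventuallyLE
    rw [← div_eq_inv_mul, le_div_iff₀ ht, mul_comm]
    exact h3
  -- volume of the bad sets
  have hvol : Tendsto (fun n => (volume (A n)).toReal) atTop (𝓝 0) := by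
    rw [Metric.tendsto_atTop]
    intro η hη
    obtain ⟨δ, hδ, hlus⟩ := lusin_inv (C := C) (b := b) (b' := b') (M := M) hb
      (ε := η / 2) (by positivity)
    have h4 : Tendsto (fun n => t⁻¹ * ∫ z in Metric.ball (0 : ℂ) (1 / 8),
        ‖u n z - Ψ n z‖ * jac (F n) z) atTop (𝓝 0) := by
      have := h1.const_mul t⁻¹
      simpa using this
    obtain ⟨N, hN⟩ := Metric.tendsto_atTop.1 h4 δ hδ
    refine ⟨N, fun n hn => ?_⟩
    have h5 := hN n hn
    rw [Real.dist_eq, sub_zero] at h5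
    have h6 : ∫ z in A n, jac (F n) z ≤ δ :=
      (hAint n).trans ((le_abs_self _).trans h5.le)
    have h7 := hlus (μ n) (F n) (G n) (hA n) (hG n) (A n) (hAm n) ((hAB n).trans hB1) h6
    rw [Real.dist_eq, sub_zero, abs_of_nonneg ENNReal.toReal_nonneg]
    linarith
  have hvol' : Tendsto (fun n => volume (A n)) atTop (𝓝 0) := by
    rw [← ENNReal.tendsto_toReal_iff hAfin (by simp)]
    simpa using hvol
  have hfA : Tendsto (fun n => ∫ z in A n, ‖f z‖) atTop (𝓝 0) := by
    have h8 : Tendsto ((volume.restrict (Metric.ball (0 : ℂ) 2)) ∘ A) atTop (𝓝 0) := by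
      refine tendsto_of_tendsto_of_tendsto_of_le_of_le tendsto_const_nhds hvol'
        (fun n => bot_le) (fun n => ?_)
      exact Measure.restrict_apply_le _ _
    have h9 := hf.norm.tendsto_setIntegral_nhds_zero h8
    refine h9.congr (fun n => ?_)
    rw [Measure.restrict_restrict (hAm n), Set.inter_eq_left.2 ((hAB n).trans hB2)]
  have hDA : Tendsto (fun n => D * (volume (A n)).toReal) atTop (𝓝 0) := by
    have := hvol.const_mul D
    simpa using this
  obtain ⟨N1, hN1⟩ := Metric.tendsto_atTop.1 h2 (ε / 4) (by positivity)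
  obtain ⟨N2, hN2⟩ := Metric.tendsto_atTop.1 hfA (ε / 8) (by positivity)
  obtain ⟨N3, hN3⟩ := Metric.tendsto_atTop.1 hDA (ε / 8) (by positivity)
  refine ⟨max N1 (max N2 N3), fun n hn => ?_⟩
  have e1 := hN1 n ((le_max_left _ _).trans hn)
  have e2 := hN2 n (((le_max_left _ _).trans (le_max_right _ _)).trans hn)
  have e3 := hN3 n (((le_max_right _ _).trans (le_max_right _ _)).trans hn)
  rw [Real.dist_eq, sub_zero] at e1 e2 e3
  replace e1 := (le_abs_self _).trans_lt e1
  replace e2 := (le_abs_self _).trans_lt e2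
  replace e3 := (le_abs_self _).trans_lt e3
  rw [Real.dist_eq, sub_zero, abs_of_nonneg (integral_nonneg fun z => norm_nonneg _)]
  -- pointwise bound
  have hufi : IntegrableOn (fun z => ‖u n z - f z‖) (Metric.ball (0 : ℂ) (1 / 2)) :=
    ((hui n).sub (hf.mono_set hh2)).norm
  have hfB : IntegrableOn f (Metric.ball (0 : ℂ) (1 / 8)) := hf.mono_set hB2
  have hind : IntegrableOn ((A n).indicator (fun z => D + ‖f z‖)) (Metric.ball (0 : ℂ) (1 / 8)) := by
    have : IntegrableOn (fun z => D + ‖f z‖) (Metric.ball (0 : ℂ) (1 / 8)) :=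
      (integrableOn_const measure_ball_lt_top.ne).add hfB.norm
    exact this.indicator (hAm n)
  have hct : IntegrableOn (fun _ : ℂ => t) (Metric.ball (0 : ℂ) (1 / 8)) :=
    integrableOn_const measure_ball_lt_top.ne
  have hpt : ∀ z ∈ Metric.ball (0 : ℂ) (1 / 8), ‖Ψ n z - f z‖ ≤
      (‖u n z - f z‖ + t) + (A n).indicator (fun z => D + ‖f z‖) z := by
    intro z hz
    by_cases hzA : z ∈ A n
    · rw [Set.indicator_of_mem hzA]
      have := norm_sub_le (Ψ n z) (f z)
      have h10 := hD n z hz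
      have h11 := norm_nonneg (u n z - f z)
      linarith
    · rw [Set.indicator_of_notMem hzA]
      have h12 : ‖u n z - Ψ n z‖ ≤ t := by
        by_contra h
        exact hzA ⟨hz, not_le.1 h⟩
      have h13 : Ψ n z - f z = (u n z - f z) - (u n z - Ψ n z) := by ring
      rw [h13]
      have := norm_sub_le (u n z - f z) (u n z - Ψ n z)
      linarith
  have hstep : ∫ z in Metric.ball (0 : ℂ) (1 / 8), ‖Ψ n z - f z‖ ≤
      ∫ z in Metric.ball (0 : ℂ) (1 / 8),
        ((‖u n z - f z‖ + t) + (A n).indicator (fun z => D + ‖f z‖) z) :=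
    setIntegral_mono_on ((hΨi n).sub hfB).norm
      (((hufi.mono_set hBh).add hct).add hind) hBm hpt
  have hsplit : ∫ z in Metric.ball (0 : ℂ) (1 / 8),
        ((‖u n z - f z‖ + t) + (A n).indicator (fun z => D + ‖f z‖) z) =
      (∫ z in Metric.ball (0 : ℂ) (1 / 8), ‖u n z - f z‖) +
        t * (volume (Metric.ball (0 : ℂ) (1 / 8))).toReal +
        (D * (volume (A n)).toReal + ∫ z in A n, ‖f z‖) := by
    have i1 : IntegrableOn (fun z => ‖u n z - f z‖) (Metric.ball (0 : ℂ) (1 / 8)) :=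
      hufi.mono_set hBh
    have i2 : IntegrableOn (fun z => ‖u n z - f z‖ + t) (Metric.ball (0 : ℂ) (1 / 8)) :=
      i1.add hct
    have i3 : IntegrableOn (fun _ : ℂ => D) (A n) := integrableOn_const (hAfin n)
    have i4 : IntegrableOn (fun z => ‖f z‖) (A n) := (hfB.mono_set (hAB n)).norm
    rw [integral_add i2 hind, integral_add i1 hct, setIntegral_indicator (hAm n),
      Set.inter_eq_right.2 (hAB n), integral_add i3 i4, setIntegral_const, setIntegral_const]
    simp only [smul_eq_mul, Measure.real]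
    ring
  have hmono : ∫ z in Metric.ball (0 : ℂ) (1 / 8), ‖u n z - f z‖ ≤
      ∫ z in Metric.ball (0 : ℂ) (1 / 2), ‖u n z - f z‖ :=
    setIntegral_mono_set hufi (Filter.Eventually.of_forall fun z => norm_nonneg _)
      hBh.eventuallyLE
  rw [hsplit] at hstep
  linarith

end

end Pool.B2F
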