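import Pool.Agent.Lib.MP_b2f128_an.Base
import Pool.Agent.Lib.MP_b2f128_an.A00
import Pool.Agent.Lib.MP_b2f128_an.A01a
import Pool.Agent.Lib.MP_b2f128_an.A01b
import Pool.Agent.Lib.MP_b2f128_an.A02b
import Pool.Agent.Lib.MP_b2f128_an.A04

/-!
# MP_b2f128_an, part C9 (very weak solutions)
-/

open Complex MeasureTheory Set Filter Topology
open scoped ContDiff

namespace Pool.B2F

noncomputable section

theorem C9_glue {U : Set ℂ} (hU : IsOpen U) {φ Ψ : ℂ → ℂ} (hφ : Cc U φ) (hΨ : ContDiffOn ℝ ∞ Ψ U) :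
    Cc U (fun z => φ z * Ψ z) := by
  refine ⟨?_, hφ.cpt.mul_right, (tsupport_mul_subset_left).trans hφ.sub⟩
  rw [contDiff_iff_contDiffAt]
  intro z
  by_cases hz : z ∈ U
  · exact hφ.smooth.contDiffAt.mul (hΨ.contDiffAt (hU.mem_nhds hz))
  · have h0 : z ∉ tsupport φ := fun h => hz (hφ.sub h)
    have h1 : φ =ᶠ[𝓝 z] 0 := notMem_tsupport_iff_eventuallyEq.mp h0
    refine (contDiffAt_const (c := (0:ℂ))).congr_of_eventuallyEq ?_
    filter_upwards [h1] with w hw
    simp [hw]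

theorem C9_int_dz {Θ : ℂ → ℂ} (h : Cc univ Θ) : ∫ z, dz Θ z = 0 := by
  have h1 := ibp_z (f := fun _ => (1 : ℂ)) contDiff_const h
  simpa [dz_const] using h1

theorem C9_int_dzb {Θ : ℂ → ℂ} (h : Cc univ Θ) : ∫ z, dzb Θ z = 0 := by
  have h1 := ibp_zb (f := fun _ => (1 : ℂ)) contDiff_const h
  simpa [dzb_const] using h1

theorem C9_bd {U : Set ℂ} {φ : ℂ → ℂ} (h : Cc U φ) : ∃ B : ℝ, ∀ z, ‖φ z‖ ≤ B :=
  h.smooth.continuous.bounded_above_of_compact_support h.cpt

theorem C9_zero {U : Set ℂ} {φ : ℂ → ℂ} (h : Cc U φ) {z : ℂ} (hz : z ∉ U) : φ z = 0 :=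
  image_eq_zero_of_notMem_tsupport fun h' => hz (h.sub h')

theorem C9_ibp_z {U : Set ℂ} (hU : IsOpen U) {φ Ψ : ℂ → ℂ} (hφ : Cc U φ)
    (hΨ : ContDiffOn ℝ ∞ Ψ U) (hi : IntegrableOn Ψ U) :
    IntegrableOn (fun z => φ z * dz Ψ z) U ∧
      ∫ z in U, φ z * dz Ψ z = -∫ z in U, Ψ z * dz φ z := by
  have hΘ := C9_glue hU hφ hΨ
  have hd : Cc U (dz φ) := hφ.dz
  obtain ⟨B, hB⟩ := C9_bd hd
  have i1 : IntegrableOn (fun z => Ψ z * dz φ z) U :=
    Integrable.mul_bdd hi hd.smooth.continuous.aestronglyMeasurable (ae_of_all _ hB)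
  have i2 : IntegrableOn (dz (fun z => φ z * Ψ z)) U := hΘ.dz.integrable.integrableOn
  have e1 : ∀ z ∈ U, φ z * dz Ψ z = dz (fun z => φ z * Ψ z) z - Ψ z * dz φ z := by
    intro z hz
    rw [dz_mul (hφ.smooth.contDiffAt.differentiableAt (by simp))
      ((hΨ.contDiffAt (hU.mem_nhds hz)).differentiableAt (by simp))]
    ring
  have i3 : IntegrableOn (fun z => dz (fun z => φ z * Ψ z) z - Ψ z * dz φ z) U := i2.sub i1
  refine ⟨i3.congr_fun (fun z hz => (e1 z hz).symm) hU.measurableSet, ?_⟩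
  rw [setIntegral_congr_fun hU.measurableSet e1, integral_sub i2 i1]
  have h0 : ∫ z in U, dz (fun z => φ z * Ψ z) z = 0 := by
    rw [setIntegral_eq_integral_of_forall_compl_eq_zero]
    · exact C9_int_dz (hΘ.mono (subset_univ _))
    · intro z hz
      exact C9_zero hΘ.dz hz
  rw [h0, zero_sub]

theorem C9_ibp_zb {U : Set ℂ} (hU : IsOpen U) {φ Ψ : ℂ → ℂ} (hφ : Cc U φ)
    (hΨ : ContDiffOn ℝ ∞ Ψ U) (hi : IntegrableOn Ψ U) :
    IntegrableOn (fun z => φ z * dzb Ψ z) U ∧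
      ∫ z in U, φ z * dzb Ψ z = -∫ z in U, Ψ z * dzb φ z := by
  have hΘ := C9_glue hU hφ hΨ
  have hd : Cc U (dzb φ) := hφ.dzb
  obtain ⟨B, hB⟩ := C9_bd hd
  have i1 : IntegrableOn (fun z => Ψ z * dzb φ z) U :=
    Integrable.mul_bdd hi hd.smooth.continuous.aestronglyMeasurable (ae_of_all _ hB)
  have i2 : IntegrableOn (dzb (fun z => φ z * Ψ z)) U := hΘ.dzb.integrable.integrableOn
  have e1 : ∀ z ∈ U, φ z * dzb Ψ z = dzb (fun z => φ z * Ψ z) z - Ψ z * dzb φ z := by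
    intro z hz
    rw [dzb_mul (hφ.smooth.contDiffAt.differentiableAt (by simp))
      ((hΨ.contDiffAt (hU.mem_nhds hz)).differentiableAt (by simp))]
    ring
  have i3 : IntegrableOn (fun z => dzb (fun z => φ z * Ψ z) z - Ψ z * dzb φ z) U := i2.sub i1
  refine ⟨i3.congr_fun (fun z hz => (e1 z hz).symm) hU.measurableSet, ?_⟩
  rw [setIntegral_congr_fun hU.measurableSet e1, integral_sub i2 i1]
  have h0 : ∫ z in U, dzb (fun z => φ z * Ψ z) z = 0 := by
    rw [setIntegral_eq_integral_of_forall_compl_eq_zero]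
    · exact C9_int_dzb (hΘ.mono (subset_univ _))
    · intro z hz
      exact C9_zero hΘ.dzb hz
  rw [h0, zero_sub]

/-- the pointwise inequality -/
theorem C9_pt (x y a b : ℂ) {k : ℝ} (hk : 1 ≤ k) :
    2 * (x * a + y * b).re ≤ (‖a‖ + ‖b‖) ^ 2 / k + k * max ‖x‖ ‖y‖ ^ 2 := by
  have hk0 : 0 < k := by linarith
  set t := max ‖x‖ ‖y‖ with ht
  have hx : ‖x‖ ≤ t := le_max_left _ _
  have hy : ‖y‖ ≤ t := le_max_right _ _
  have h1 : (x * a + y * b).re ≤ t * (‖a‖ + ‖b‖) := by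
    have h2 : (x * a + y * b).re ≤ ‖x * a + y * b‖ := Complex.re_le_norm _
    have h3 : ‖x * a + y * b‖ ≤ ‖x‖ * ‖a‖ + ‖y‖ * ‖b‖ := by
      refine (norm_add_le _ _).trans ?_
      rw [norm_mul, norm_mul]
    nlinarith [norm_nonneg a, norm_nonneg b]
  have h4 : 2 * (t * (‖a‖ + ‖b‖)) ≤ (‖a‖ + ‖b‖) ^ 2 / k + k * t ^ 2 := by
    have h5 : (‖a‖ + ‖b‖) ^ 2 / k + k * t ^ 2 - 2 * (t * (‖a‖ + ‖b‖)) =
        (‖a‖ + ‖b‖ - k * t) ^ 2 / k := by
      field_simp
      ring
    have h6 : 0 ≤ (‖a‖ + ‖b‖ - k * t) ^ 2 / k := by positivity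
    linarith
  linarith

/-- continuity of the integral in the first factor -/
theorem C9_lim {𝕜 : Type} [RCLike 𝕜] {U : Set ℂ} {F : ℕ → ℂ → 𝕜} {G g : ℂ → 𝕜} {B : ℝ}
    (hF : ∀ n, IntegrableOn (F n) U) (hG : IntegrableOn G U)
    (hg : AEStronglyMeasurable g (volume.restrict U)) (hB : ∀ z, ‖g z‖ ≤ B)
    (h : Tendsto (fun n => ∫ z in U, ‖F n z - G z‖) atTop (𝓝 0)) :
    Tendsto (fun n => ∫ z in U, F n z * g z) atTop (𝓝 (∫ z in U, G z * g z)) := by
  have hB0 : 0 ≤ B := (norm_nonneg _).trans (hB 0)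
  rw [tendsto_iff_norm_sub_tendsto_zero]
  refine squeeze_zero (fun n => norm_nonneg _) (g := fun n => B * ∫ z in U, ‖F n z - G z‖) ?_ ?_
  · intro n
    have j1 : IntegrableOn (fun z => F n z * g z) U := Integrable.mul_bdd (hF n) hg (ae_of_all _ hB)
    have j2 : IntegrableOn (fun z => G z * g z) U := Integrable.mul_bdd hG hg (ae_of_all _ hB)
    rw [← integral_sub j1 j2, ← integral_const_mul]
    refine norm_integral_le_of_norm_le (((hF n).sub hG).norm.const_mul B) (ae_of_all _ fun z => ?_)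
    rw [← sub_mul, norm_mul, mul_comm]
    exact mul_le_mul_of_nonneg_right (hB z) (norm_nonneg _)
  · simpa using h.const_mul B

theorem C9_max_bd {φ₁ φ₂ : ℂ → ℂ} {B : ℝ} (h1 : ∀ z, ‖φ₁ z‖ ≤ B) (h2 : ∀ z, ‖φ₂ z‖ ≤ B) (z : ℂ) :
    ‖max ‖φ₁ z‖ ‖φ₂ z‖ ^ 2‖ ≤ B ^ 2 := by
  have h0 : 0 ≤ max ‖φ₁ z‖ ‖φ₂ z‖ := (norm_nonneg _).trans (le_max_left _ _)
  rw [Real.norm_of_nonneg (by positivity)]
  exact pow_le_pow_left₀ h0 (max_le (h1 z) (h2 z)) 2

/-- the inequality for one smooth map -/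
theorem C9_one {D : ℝ} {U : Set ℂ} (hU : IsOpen U) {Ψ : ℂ → ℂ} {k : ℂ → ℝ}
    (hkU : IntegrableOn k U) (hk1 : ∀ z, 1 ≤ k z)
    (hΨ : ContDiffOn ℝ ∞ Ψ U)
    (hi : IntegrableOn (fun z => ‖fderiv ℝ Ψ z‖ ^ 2 / k z) U)
    (hD : ∫ z in U, ‖fderiv ℝ Ψ z‖ ^ 2 / k z ≤ D)
    (hΨi : IntegrableOn Ψ U) {φ₁ φ₂ : ℂ → ℂ} (h1 : Cc U φ₁) (h2 : Cc U φ₂) :
    2 * (-(∫ z in U, Ψ z * dz φ₁ z) - ∫ z in U, Ψ z * dzb φ₂ z).re ≤
      D + ∫ z in U, k z * max ‖φ₁ z‖ ‖φ₂ z‖ ^ 2 := by
  obtain ⟨i1, e1⟩ := C9_ibp_z hU h1 hΨ hΨi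
  obtain ⟨i2, e2⟩ := C9_ibp_zb hU h2 hΨ hΨi
  have e3 : -(∫ z in U, Ψ z * dz φ₁ z) - ∫ z in U, Ψ z * dzb φ₂ z =
      ∫ z in U, (φ₁ z * dz Ψ z + φ₂ z * dzb Ψ z) := by
    rw [integral_add i1 i2, e1, e2]
    ring
  rw [e3]
  have e4 : (∫ z in U, (φ₁ z * dz Ψ z + φ₂ z * dzb Ψ z)).re =
      ∫ z in U, (φ₁ z * dz Ψ z + φ₂ z * dzb Ψ z).re := by
    have := integral_re (μ := volume.restrict U) (𝕜 := ℂ) (i1.add i2)
    simpa using this.symm
  rw [e4, ← integral_const_mul]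
  obtain ⟨B1, hB1⟩ := C9_bd h1
  obtain ⟨B2, hB2⟩ := C9_bd h2
  have hB1' : ∀ z, ‖φ₁ z‖ ≤ max B1 B2 := fun z => (hB1 z).trans (le_max_left _ _)
  have hB2' : ∀ z, ‖φ₂ z‖ ≤ max B1 B2 := fun z => (hB2 z).trans (le_max_right _ _)
  have hm : Continuous (fun z => max ‖φ₁ z‖ ‖φ₂ z‖ ^ 2) :=
    ((h1.smooth.continuous.norm).max (h2.smooth.continuous.norm)).pow 2
  have i3 : IntegrableOn (fun z => k z * max ‖φ₁ z‖ ‖φ₂ z‖ ^ 2) U :=
    Integrable.mul_bdd hkU hm.aestronglyMeasurable (ae_of_all _ (C9_max_bd hB1' hB2'))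
  have i4 : IntegrableOn (fun z => 2 * (φ₁ z * dz Ψ z + φ₂ z * dzb Ψ z).re) U :=
    ((i1.add i2).re).const_mul 2
  calc ∫ z in U, 2 * (φ₁ z * dz Ψ z + φ₂ z * dzb Ψ z).re
      ≤ ∫ z in U, (‖fderiv ℝ Ψ z‖ ^ 2 / k z + k z * max ‖φ₁ z‖ ‖φ₂ z‖ ^ 2) := by
        refine integral_mono i4 (hi.add i3) fun z => ?_
        have := C9_pt (φ₁ z) (φ₂ z) (dz Ψ z) (dzb Ψ z) (hk1 z)
        simp only
        rw [norm_fderiv]
        exact this
    _ = (∫ z in U, ‖fderiv ℝ Ψ z‖ ^ 2 / k z) + ∫ z in U, k z * max ‖φ₁ z‖ ‖φ₂ z‖ ^ 2 :=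
        integral_add hi i3
    _ ≤ _ := by linarith

/-- mollification of bounded functions supported in the smaller disc -/
theorem C9_mollify {g : ℂ → ℂ} (hg : AEStronglyMeasurable g) {B : ℝ} (hB : ∀ z, ‖g z‖ ≤ B)
    (h0 : ∀ z, z ∉ Metric.ball (0 : ℂ) (1 / 16) → g z = 0) :
    ∃ φ : ℕ → ℂ → ℂ, (∀ n, Cc (Metric.ball (0 : ℂ) (1 / 8)) (φ n)) ∧ (∀ n z, ‖φ n z‖ ≤ B) ∧
      ∀ᵐ z, Tendsto (fun n => φ n z) atTop (𝓝 (g z)) := by
  have hB0 : 0 ≤ B := (norm_nonneg _).trans (hB 0)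
  let β : ℕ → ContDiffBump (0 : ℂ) := fun n =>
    ⟨1 / (64 * ((n : ℝ) + 1)), 1 / (32 * ((n : ℝ) + 1)), by positivity, by
      apply one_div_lt_one_div_of_lt
      · positivity
      · have : (0 : ℝ) ≤ n := Nat.cast_nonneg n
        nlinarith⟩
  have hsup : Function.support g ⊆ Metric.ball (0 : ℂ) (1 / 16) := by
    intro z hz
    by_contra h
    exact hz (h0 z h)
  have hgi : Integrable g := by
    have : IntegrableOn g (Metric.ball (0 : ℂ) (1 / 16)) := by
      refine Measure.integrableOn_of_bounded (M := B) measure_ball_lt_top.ne hg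
        (ae_of_all _ hB)
    exact (integrableOn_iff_integrable_of_support_subset hsup).mp this
  have hloc : LocallyIntegrable g := hgi.locallyIntegrable
  have hrO : ∀ n, (β n).rOut ≤ 1 / 32 := by
    intro n
    change 1 / (32 * ((n : ℝ) + 1)) ≤ 1 / 32
    apply one_div_le_one_div_of_le
    · norm_num
    · have : (0 : ℝ) ≤ n := Nat.cast_nonneg n
      nlinarith
  refine ⟨fun n => MeasureTheory.convolution ((β n).normed volume) g
    (ContinuousLinearMap.lsmul ℝ ℝ) volume, ?_, ?_, ?_⟩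
  · intro n
    have hs1 : Function.support (MeasureTheory.convolution ((β n).normed volume) g
        (ContinuousLinearMap.lsmul ℝ ℝ) volume) ⊆ Metric.ball (0 : ℂ) (3 / 32) := by
      refine (MeasureTheory.support_convolution_subset _).trans ?_
      rintro z ⟨x, hx, y, hy, rfl⟩
      rw [(β n).support_normed_eq] at hx
      have hy' := hsup hy
      rw [Metric.mem_ball, dist_zero_right] at hx hy' ⊢
      have := norm_add_le x y
      have := hrO n
      simp only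
      linarith
    have hs2 : tsupport (MeasureTheory.convolution ((β n).normed volume) g
        (ContinuousLinearMap.lsmul ℝ ℝ) volume) ⊆ Metric.closedBall (0 : ℂ) (3 / 32) :=
      closure_minimal (hs1.trans Metric.ball_subset_closedBall) Metric.isClosed_closedBall
    refine ⟨?_, ?_, ?_⟩
    · exact ((β n).hasCompactSupport_normed).contDiff_convolution_left _ (β n).contDiff_normed hloc
    · exact HasCompactSupport.of_support_subset_isCompact (isCompact_closedBall (0 : ℂ) (3 / 32))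
        (hs1.trans Metric.ball_subset_closedBall)
    · exact hs2.trans (Metric.closedBall_subset_ball (by norm_num))
  · intro n z
    simp only [MeasureTheory.convolution_def, ContinuousLinearMap.lsmul_apply]
    have hb1 : Integrable ((β n).normed volume) := by
      exact ((β n).contDiff_normed (n := 0)).continuous.integrable_of_hasCompactSupport
        (β n).hasCompactSupport_normed
    calc ‖∫ t, (β n).normed volume t • g (z - t)‖ ≤ ∫ t, (β n).normed volume t * B := by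
          refine norm_integral_le_of_norm_le (hb1.mul_const B) (ae_of_all _ fun t => ?_)
          rw [norm_smul, Real.norm_of_nonneg ((β n).nonneg_normed t)]
          exact mul_le_mul_of_nonneg_left (hB _) ((β n).nonneg_normed t)
      _ = B := by
          rw [integral_mul_const, (β n).integral_normed, one_mul]
  · refine ContDiffBump.ae_convolution_tendsto_right_of_locallyIntegrable (K := 2) ?_ ?_ hloc
    · have h1 : Tendsto (fun n : ℕ => (1 / 32 : ℝ) * (1 / ((n : ℝ) + 1))) atTop (𝓝 ((1 / 32) * 0)) :=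
        tendsto_one_div_add_atTop_nhds_zero_nat.const_mul _
      rw [mul_zero] at h1
      refine h1.congr fun n => ?_
      change (1 / 32 : ℝ) * (1 / ((n : ℝ) + 1)) = 1 / (32 * ((n : ℝ) + 1))
      field_simp
    · refine Eventually.of_forall fun n => ?_
      change 1 / (32 * ((n : ℝ) + 1)) ≤ 2 * (1 / (64 * ((n : ℝ) + 1)))
      apply le_of_eq
      field_simp
      norm_num

/-- the cut-off identity -/
def C9_cut (N x : ℝ) : ℝ := if x ≤ N then x else 0

theorem C9_cut_meas (N : ℝ) : Measurable (C9_cut N) :=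
  Measurable.ite measurableSet_Iic measurable_id measurable_const

theorem C9_cut_nonneg {N x : ℝ} (hx : 0 ≤ x) : 0 ≤ C9_cut N x := by
  unfold C9_cut
  split_ifs <;> simp [hx]

theorem C9_cut_le {N x : ℝ} (hN : 0 ≤ N) : C9_cut N x ≤ N := by
  unfold C9_cut
  split_ifs with h
  · exact h
  · exact hN

theorem C9_cut_mul (N x : ℝ) : C9_cut N x * x = C9_cut N x ^ 2 := by
  unfold C9_cut
  split_ifs <;> ring

theorem C9_cut_tendsto (x : ℝ) : Tendsto (fun n : ℕ => C9_cut n x) atTop (𝓝 x) := by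
  refine tendsto_const_nhds.congr' ?_
  obtain ⟨m, hm⟩ := exists_nat_ge x
  filter_upwards [eventually_ge_atTop m] with n hn
  have : x ≤ n := hm.trans (by exact_mod_cast hn)
  simp [C9_cut, this]

/-- PROOF. For smooth `φ₁, φ₂ ∈ Cc (ball 0 (1/8))` and measurable bounded `t ≥ max ‖φ₁‖ ‖φ₂‖` (zero off `ball 0 (1/8)`): `‖DΨ_n‖² / κ_n ≥ 2 t ‖DΨ_n‖ - κ_n t² ≥ 2 Re (φ₁ dz Ψ_n + φ₂ dzb Ψ_n) - κ_n t²`. Integrate; integrate by parts; `n → ∞`
(`Ψ_n → f` in `L¹`, `κ_n → κ` in `L¹`); the weak derivatives of `f`: `2 Re ∫ (φ₁ p + φ₂ q) - ∫ κ t² ≤ D`. Let `φ₁, φ₂` tend boundedly a.e. to `t₀ conj (p)/‖p‖`, `t₀ conj (q)/‖q‖` (mollification), `t₀ = (‖p‖+‖q‖)/κ` on the set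
`{z ∈ ball 0 (1/16) | (‖p‖+‖q‖)/κ ≤ N}` and 0 elsewhere, `t = max ‖φ₁‖ ‖φ₂‖ → t₀`: `∫_{..≤N} (‖p‖+‖q‖)²/κ ≤ D`. `N → ∞`. -/
theorem lsc {D : ℝ} {f p q : ℂ → ℂ} (hw : Weak2 f p q) {κ : ℂ → ℝ} (hκ : ∀ z, 1 ≤ κ z)
    (hκi : IntegrableOn κ (Metric.ball 0 1)) {Ψ : ℕ → ℂ → ℂ} {κn : ℕ → ℂ → ℝ}
    (hκn : ∀ n, Continuous (κn n)) (hκ1 : ∀ n z, 1 ≤ κn n z)
    (hΨ : ∀ n, ContDiffOn ℝ ∞ (Ψ n) (Metric.ball 0 (1 / 8)))
    (hi : ∀ n, IntegrableOn (fun z => ‖fderiv ℝ (Ψ n) z‖ ^ 2 / κn n z) (Metric.ball 0 (1 / 8)))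
    (hD : ∀ n, ∫ z in Metric.ball (0 : ℂ) (1 / 8), ‖fderiv ℝ (Ψ n) z‖ ^ 2 / κn n z ≤ D)
    (hΨi : ∀ n, IntegrableOn (Ψ n) (Metric.ball 0 (1 / 8)))
    (h1 : Tendsto (fun n => ∫ z in Metric.ball (0 : ℂ) (1 / 8), ‖Ψ n z - f z‖) atTop (𝓝 0))
    (h2 : Tendsto (fun n => ∫ z in Metric.ball (0 : ℂ) (1 / 8), |κn n z - κ z|) atTop (𝓝 0)) :
    IntegrableOn (fun z => (‖p z‖ + ‖q z‖) ^ 2 / κ z) (Metric.ball 0 (1 / 16)) := by
  set U : Set ℂ := Metric.ball (0 : ℂ) (1 / 8) with hUdef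
  set V : Set ℂ := Metric.ball (0 : ℂ) (1 / 16) with hVdef
  have hUo : IsOpen U := Metric.isOpen_ball
  have hVo : IsOpen V := Metric.isOpen_ball
  have hVU : V ⊆ U := Metric.ball_subset_ball (by norm_num)
  have hU2 : U ⊆ Metric.ball (0 : ℂ) 2 := Metric.ball_subset_ball (by norm_num)
  have hU1 : U ⊆ Metric.ball (0 : ℂ) 1 := Metric.ball_subset_ball (by norm_num)
  have fU : IntegrableOn f U := hw.intf.mono_set hU2
  have pU : IntegrableOn p U := hw.inta.mono_set hU2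
  have qU : IntegrableOn q U := hw.intb.mono_set hU2
  have κU : IntegrableOn κ U := hκi.mono_set hU1
  have κnU : ∀ n, IntegrableOn (κn n) U := fun n =>
    ((hκn n).continuousOn.integrableOn_compact (isCompact_closedBall (0 : ℂ) (1 / 8))).mono_set
      Metric.ball_subset_closedBall
  -- test functions
  have htest : ∀ φ₁ φ₂ : ℂ → ℂ, Cc U φ₁ → Cc U φ₂ →
      2 * ((∫ z in U, p z * φ₁ z) + ∫ z in U, q z * φ₂ z).re ≤
        D + ∫ z in U, κ z * max ‖φ₁ z‖ ‖φ₂ z‖ ^ 2 := by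
    intro φ₁ φ₂ c1 c2
    obtain ⟨B1, hB1⟩ := C9_bd c1
    obtain ⟨B2, hB2⟩ := C9_bd c2
    have hB1' : ∀ z, ‖φ₁ z‖ ≤ max B1 B2 := fun z => (hB1 z).trans (le_max_left _ _)
    have hB2' : ∀ z, ‖φ₂ z‖ ≤ max B1 B2 := fun z => (hB2 z).trans (le_max_right _ _)
    obtain ⟨B3, hB3⟩ := C9_bd c1.dz
    obtain ⟨B4, hB4⟩ := C9_bd c2.dzb
    have hm : Continuous (fun z => max ‖φ₁ z‖ ‖φ₂ z‖ ^ 2) :=
      ((c1.smooth.continuous.norm).max (c2.smooth.continuous.norm)).pow 2
    have t1 := C9_lim hΨi fU c1.dz.smooth.continuous.aestronglyMeasurable hB3 h1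
    have t2 := C9_lim hΨi fU c2.dzb.smooth.continuous.aestronglyMeasurable hB4 h1
    have t3 := C9_lim (𝕜 := ℝ) κnU κU hm.aestronglyMeasurable (C9_max_bd hB1' hB2') (by
      simpa [Real.norm_eq_abs] using h2)
    have t4 := ((Complex.continuous_re.tendsto _).comp (t1.neg.sub t2)).const_mul 2
    have t5 := le_of_tendsto_of_tendsto t4 (t3.const_add D) (Eventually.of_forall fun n => by
      exact C9_one hUo (κnU n) (hκ1 n) (hΨ n) (hi n) (hD n) (hΨi n) c1 c2)
    have w1 : ∫ z in U, f z * dz φ₁ z = -∫ z in U, p z * φ₁ z := by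
      rw [setIntegral_eq_integral_of_forall_compl_eq_zero, setIntegral_eq_integral_of_forall_compl_eq_zero]
      · exact hw.wz φ₁ (c1.mono hU2)
      · intro z hz
        rw [C9_zero c1 hz, mul_zero]
      · intro z hz
        rw [C9_zero c1.dz hz, mul_zero]
    have w2 : ∫ z in U, f z * dzb φ₂ z = -∫ z in U, q z * φ₂ z := by
      rw [setIntegral_eq_integral_of_forall_compl_eq_zero, setIntegral_eq_integral_of_forall_compl_eq_zero]
      · exact hw.wzb φ₂ (c2.mono hU2)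
      · intro z hz
        rw [C9_zero c2 hz, mul_zero]
      · intro z hz
        rw [C9_zero c2.dzb hz, mul_zero]
    rw [w1, w2, neg_neg, sub_neg_eq_add] at t5
    exact t5
  -- bounded functions
  have hbdd : ∀ g₁ g₂ : ℂ → ℂ, AEStronglyMeasurable g₁ → AEStronglyMeasurable g₂ → ∀ B : ℝ,
      (∀ z, ‖g₁ z‖ ≤ B) → (∀ z, ‖g₂ z‖ ≤ B) → (∀ z, z ∉ V → g₁ z = 0) → (∀ z, z ∉ V → g₂ z = 0) →
      2 * ((∫ z in U, p z * g₁ z) + ∫ z in U, q z * g₂ z).re ≤
        D + ∫ z in U, κ z * max ‖g₁ z‖ ‖g₂ z‖ ^ 2 := by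
    intro g₁ g₂ m1 m2 B b1 b2 z1 z2
    obtain ⟨φ, hφ, hφB, hφt⟩ := C9_mollify m1 b1 z1
    obtain ⟨ψ, hψ, hψB, hψt⟩ := C9_mollify m2 b2 z2
    have t1 : Tendsto (fun n => ∫ z in U, p z * φ n z) atTop (𝓝 (∫ z in U, p z * g₁ z)) := by
      refine tendsto_integral_of_dominated_convergence (fun z => ‖p z‖ * B)
        (fun n => pU.aestronglyMeasurable.mul (hφ n).smooth.continuous.aestronglyMeasurable)
        (pU.norm.mul_const B) (fun n => ae_of_all _ fun z => ?_) ?_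
      · rw [norm_mul]
        exact mul_le_mul_of_nonneg_left (hφB n z) (norm_nonneg _)
      · filter_upwards [ae_restrict_of_ae hφt] with z hz
        exact hz.const_mul _
    have t2 : Tendsto (fun n => ∫ z in U, q z * ψ n z) atTop (𝓝 (∫ z in U, q z * g₂ z)) := by
      refine tendsto_integral_of_dominated_convergence (fun z => ‖q z‖ * B)
        (fun n => qU.aestronglyMeasurable.mul (hψ n).smooth.continuous.aestronglyMeasurable)
        (qU.norm.mul_const B) (fun n => ae_of_all _ fun z => ?_) ?_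
      · rw [norm_mul]
        exact mul_le_mul_of_nonneg_left (hψB n z) (norm_nonneg _)
      · filter_upwards [ae_restrict_of_ae hψt] with z hz
        exact hz.const_mul _
    have t3 : Tendsto (fun n => ∫ z in U, κ z * max ‖φ n z‖ ‖ψ n z‖ ^ 2) atTop
        (𝓝 (∫ z in U, κ z * max ‖g₁ z‖ ‖g₂ z‖ ^ 2)) := by
      refine tendsto_integral_of_dominated_convergence (fun z => ‖κ z‖ * B ^ 2)
        (fun n => κU.aestronglyMeasurable.mul
          ((((hφ n).smooth.continuous.norm).max ((hψ n).smooth.continuous.norm)).pow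
            2).aestronglyMeasurable)
        (κU.norm.mul_const _) (fun n => ae_of_all _ fun z => ?_) ?_
      · rw [norm_mul]
        exact mul_le_mul_of_nonneg_left (C9_max_bd (hφB n) (hψB n) z) (norm_nonneg _)
      · filter_upwards [ae_restrict_of_ae hφt, ae_restrict_of_ae hψt] with z hz hz'
        exact ((hz.norm.max hz'.norm).pow 2).const_mul _
    have t4 := ((Complex.continuous_re.tendsto _).comp (t1.add t2)).const_mul 2
    exact le_of_tendsto_of_tendsto t4 (t3.const_add D) (Eventually.of_forall fun n =>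
      htest _ _ (hφ n) (hψ n))
  -- the cut-off functions
  have hmain : ∀ N : ℕ, IntegrableOn (fun z => κ z * C9_cut N ((‖p z‖ + ‖q z‖) / κ z) ^ 2) V ∧
      ∫ z in V, κ z * C9_cut N ((‖p z‖ + ‖q z‖) / κ z) ^ 2 ≤ D := by
    intro N
    have hN0 : (0 : ℝ) ≤ N := Nat.cast_nonneg N
    set u : ℂ → ℝ := fun z => (‖p z‖ + ‖q z‖) / κ z with hu
    have hu0 : ∀ z, 0 ≤ u z := fun z => by
      have := hκ z
      have : 0 < κ z := by linarith
      simp only [hu]
      positivity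
    have pV : AEStronglyMeasurable p (volume.restrict V) := (pU.mono_set hVU).aestronglyMeasurable
    have qV : AEStronglyMeasurable q (volume.restrict V) := (qU.mono_set hVU).aestronglyMeasurable
    have κV : AEStronglyMeasurable κ (volume.restrict V) := (κU.mono_set hVU).aestronglyMeasurable
    have uV : AEMeasurable u (volume.restrict V) :=
      (pV.norm.aemeasurable.add qV.norm.aemeasurable).div κV.aemeasurable
    have cV : AEMeasurable (fun z => C9_cut N (u z)) (volume.restrict V) :=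
      (C9_cut_meas N).comp_aemeasurable uV
    have sg : ∀ w : ℂ, ‖(starRingEnd ℂ) w / (‖w‖ : ℂ)‖ ≤ 1 := by
      intro w
      rw [norm_div, RCLike.norm_conj, Complex.norm_real, norm_norm]
      exact div_self_le_one _
    have sgp : ∀ w : ℂ, w * ((starRingEnd ℂ) w / (‖w‖ : ℂ)) = (‖w‖ : ℂ) := by
      intro w
      by_cases hw0 : w = 0
      · simp [hw0]
      · have : (‖w‖ : ℂ) ≠ 0 := by simpa using hw0
        rw [mul_div_assoc', Complex.mul_conj, Complex.normSq_eq_norm_sq]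
        field_simp
        push_cast
        ring
    have sgm : Measurable (fun w : ℂ => (starRingEnd ℂ) w / (‖w‖ : ℂ)) := by
      apply Measurable.div
      · exact Complex.continuous_conj.measurable
      · exact (Complex.continuous_ofReal.comp continuous_norm).measurable
    set g₁ : ℂ → ℂ := V.indicator (fun z => (C9_cut N (u z) : ℂ) * ((starRingEnd ℂ) (p z) / (‖p z‖ : ℂ)))
      with hg₁
    set g₂ : ℂ → ℂ := V.indicator (fun z => (C9_cut N (u z) : ℂ) * ((starRingEnd ℂ) (q z) / (‖q z‖ : ℂ)))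
      with hg₂
    have m1 : AEStronglyMeasurable g₁ := by
      rw [hg₁, aestronglyMeasurable_indicator_iff hVo.measurableSet]
      exact (((Complex.measurable_ofReal.comp_aemeasurable cV).mul
        (sgm.comp_aemeasurable pV.aemeasurable))).aestronglyMeasurable
    have m2 : AEStronglyMeasurable g₂ := by
      rw [hg₂, aestronglyMeasurable_indicator_iff hVo.measurableSet]
      exact (((Complex.measurable_ofReal.comp_aemeasurable cV).mul
        (sgm.comp_aemeasurable qV.aemeasurable))).aestronglyMeasurable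
    have nb : ∀ (z w : ℂ), ‖(C9_cut N (u z) : ℂ) * ((starRingEnd ℂ) w / (‖w‖ : ℂ))‖ ≤ C9_cut N (u z) := by
      intro z w
      rw [norm_mul, Complex.norm_real, Real.norm_of_nonneg (C9_cut_nonneg (hu0 z))]
      have := mul_le_mul_of_nonneg_left (sg w) (C9_cut_nonneg (N := N) (hu0 z))
      linarith
    have bz1 : ∀ z, z ∈ V → ‖g₁ z‖ ≤ C9_cut N (u z) := fun z hz => by
      rw [hg₁, indicator_of_mem hz]; exact nb z _
    have bz2 : ∀ z, z ∈ V → ‖g₂ z‖ ≤ C9_cut N (u z) := fun z hz => by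
      rw [hg₂, indicator_of_mem hz]; exact nb z _
    have z1 : ∀ z, z ∉ V → g₁ z = 0 := fun z hz => by rw [hg₁, indicator_of_notMem hz]
    have z2 : ∀ z, z ∉ V → g₂ z = 0 := fun z hz => by rw [hg₂, indicator_of_notMem hz]
    have b1 : ∀ z, ‖g₁ z‖ ≤ N := fun z => by
      by_cases hz : z ∈ V
      · exact (bz1 z hz).trans (C9_cut_le hN0)
      · rw [z1 z hz, norm_zero]; exact hN0
    have b2 : ∀ z, ‖g₂ z‖ ≤ N := fun z => by
      by_cases hz : z ∈ V
      · exact (bz2 z hz).trans (C9_cut_le hN0)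
      · rw [z2 z hz, norm_zero]; exact hN0
    have key := hbdd g₁ g₂ m1 m2 N b1 b2 z1 z2
    -- the integrals
    have iκ : IntegrableOn (fun z => κ z * C9_cut N (u z) ^ 2) V := by
      refine Integrable.mul_bdd (c := (N : ℝ) ^ 2) (κU.mono_set hVU) (cV.pow_const 2).aestronglyMeasurable
        (ae_of_all _ fun z => ?_)
      rw [Real.norm_of_nonneg (by positivity)]
      exact pow_le_pow_left₀ (C9_cut_nonneg (hu0 z)) (C9_cut_le hN0) 2
    have ip : IntegrableOn (fun z => p z * g₁ z) U :=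
      Integrable.mul_bdd pU m1.restrict (ae_of_all _ b1)
    have iq : IntegrableOn (fun z => q z * g₂ z) U :=
      Integrable.mul_bdd qU m2.restrict (ae_of_all _ b2)
    have e1 : ((∫ z in U, p z * g₁ z) + ∫ z in U, q z * g₂ z).re =
        ∫ z in V, κ z * C9_cut N (u z) ^ 2 := by
      rw [← integral_add ip iq]
      have e2 : ∫ z in U, (p z * g₁ z + q z * g₂ z) = ∫ z in V, (p z * g₁ z + q z * g₂ z) := by
        refine setIntegral_eq_of_subset_of_forall_sdiff_eq_zero hUo.measurableSet hVU ?_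
        rintro z ⟨-, hz⟩
        rw [z1 z hz, z2 z hz, mul_zero, mul_zero, add_zero]
      rw [e2]
      have e3 : ∫ z in V, (p z * g₁ z + q z * g₂ z) =
          ∫ z in V, ((κ z * C9_cut N (u z) ^ 2 : ℝ) : ℂ) := by
        refine setIntegral_congr_fun hVo.measurableSet fun z hz => ?_
        have hk : κ z ≠ 0 := by
          have := hκ z
          intro h
          linarith
        have a1 : p z * g₁ z = (C9_cut N (u z) : ℂ) * (‖p z‖ : ℂ) := by
          rw [hg₁, indicator_of_mem hz, ← sgp (p z)]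
          rw [sgp (p z)]
          have := sgp (p z)
          calc p z * ((C9_cut N (u z) : ℂ) * ((starRingEnd ℂ) (p z) / (‖p z‖ : ℂ)))
              = (C9_cut N (u z) : ℂ) * (p z * ((starRingEnd ℂ) (p z) / (‖p z‖ : ℂ))) := by ring
            _ = _ := by rw [this]
        have a2 : q z * g₂ z = (C9_cut N (u z) : ℂ) * (‖q z‖ : ℂ) := by
          rw [hg₂, indicator_of_mem hz]
          have := sgp (q z)
          calc q z * ((C9_cut N (u z) : ℂ) * ((starRingEnd ℂ) (q z) / (‖q z‖ : ℂ)))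
              = (C9_cut N (u z) : ℂ) * (q z * ((starRingEnd ℂ) (q z) / (‖q z‖ : ℂ))) := by ring
            _ = _ := by rw [this]
        have a3 : C9_cut N (u z) * (‖p z‖ + ‖q z‖) = κ z * C9_cut N (u z) ^ 2 := by
          rw [← C9_cut_mul]
          have : ‖p z‖ + ‖q z‖ = κ z * u z := by
            simp only [hu]
            field_simp
          rw [this]
          ring
        rw [a1, a2, ← a3]
        push_cast
        ring
      rw [e3, integral_complex_ofReal, Complex.ofReal_re]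
    have e4 : ∫ z in U, κ z * max ‖g₁ z‖ ‖g₂ z‖ ^ 2 ≤ ∫ z in V, κ z * C9_cut N (u z) ^ 2 := by
      have e5 : ∫ z in U, κ z * max ‖g₁ z‖ ‖g₂ z‖ ^ 2 = ∫ z in V, κ z * max ‖g₁ z‖ ‖g₂ z‖ ^ 2 := by
        refine setIntegral_eq_of_subset_of_forall_sdiff_eq_zero hUo.measurableSet hVU ?_
        rintro z ⟨-, hz⟩
        rw [z1 z hz, z2 z hz]
        simp
      rw [e5]
      refine setIntegral_mono_on ?_ iκ hVo.measurableSet ?_
      · refine Integrable.mul_bdd (c := (N : ℝ) ^ 2) (κU.mono_set hVU)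
          (((m1.restrict.norm).sup (m2.restrict.norm)).pow 2) (ae_of_all _ (C9_max_bd b1 b2))
      · intro z hz
        have hk : 0 ≤ κ z := by
          have := hκ z
          linarith
        refine mul_le_mul_of_nonneg_left (pow_le_pow_left₀ ?_ (max_le (bz1 z hz) (bz2 z hz)) 2) hk
        exact (norm_nonneg _).trans (le_max_left _ _)
    rw [e1] at key
    exact ⟨iκ, by linarith⟩
  -- Fatou
  have pV : AEStronglyMeasurable p (volume.restrict V) := (pU.mono_set hVU).aestronglyMeasurable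
  have qV : AEStronglyMeasurable q (volume.restrict V) := (qU.mono_set hVU).aestronglyMeasurable
  have κV : AEStronglyMeasurable κ (volume.restrict V) := (κU.mono_set hVU).aestronglyMeasurable
  have hmeas : AEStronglyMeasurable (fun z => (‖p z‖ + ‖q z‖) ^ 2 / κ z) (volume.restrict V) :=
    (((pV.norm.aemeasurable.add qV.norm.aemeasurable).pow_const 2).div
      κV.aemeasurable).aestronglyMeasurable
  refine ⟨hmeas, ?_⟩
  rw [hasFiniteIntegral_iff_ofReal (ae_of_all _ fun z => by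
    have := hκ z
    have : 0 < κ z := by linarith
    simp only [Pi.zero_apply]
    positivity)]
  have hle : ∫⁻ z in V, ENNReal.ofReal ((‖p z‖ + ‖q z‖) ^ 2 / κ z) ≤ ENNReal.ofReal D := by
    calc ∫⁻ z in V, ENNReal.ofReal ((‖p z‖ + ‖q z‖) ^ 2 / κ z)
        = ∫⁻ z in V, liminf (fun N : ℕ => ENNReal.ofReal
            (κ z * C9_cut N ((‖p z‖ + ‖q z‖) / κ z) ^ 2)) atTop := by
          refine lintegral_congr fun z => ?_
          have hk : 0 < κ z := by
            have := hκ z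
            linarith
          have h3 : Tendsto (fun N : ℕ => ENNReal.ofReal
              (κ z * C9_cut N ((‖p z‖ + ‖q z‖) / κ z) ^ 2)) atTop
              (𝓝 (ENNReal.ofReal (κ z * ((‖p z‖ + ‖q z‖) / κ z) ^ 2))) :=
            ENNReal.tendsto_ofReal (((C9_cut_tendsto _).pow 2).const_mul _)
          rw [h3.liminf_eq]
          congr 1
          field_simp
      _ ≤ liminf (fun N : ℕ => ∫⁻ z in V, ENNReal.ofReal
            (κ z * C9_cut N ((‖p z‖ + ‖q z‖) / κ z) ^ 2)) atTop :=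
          lintegral_liminf_le' fun N => ((hmain N).1.aestronglyMeasurable.aemeasurable).ennreal_ofReal
      _ ≤ ENNReal.ofReal D := by
          refine liminf_le_of_le (by isBoundedDefault) ?_
          intro b hb
          obtain ⟨N, hN⟩ := hb.exists
          refine hN.trans ?_
          rw [← ofReal_integral_eq_lintegral_ofReal (hmain N).1 (ae_of_all _ fun z => by
            have := hκ z
            have : 0 < κ z := by linarith
            simp only [Pi.zero_apply]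
            positivity)]
          exact ENNReal.ofReal_le_ofReal (hmain N).2
  exact hle.trans_lt ENNReal.ofReal_lt_top

end

end Pool.B2F
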