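import Pool.Agent.Lib.MP_b2f128_an.Base
import Pool.Agent.Lib.MP_b2f128_an.A02b
import Pool.Agent.Lib.MP_b2f128_an.C0a
import Pool.Agent.Lib.MP_b2f128_an.C6c
import Pool.Agent.Lib.MP_b2f128_an.C7
import Pool.Agent.Lib.MP_b2f128_an.C8
import Pool.Agent.Lib.MP_b2f128_an.C9

/-!
# MP_b2f128_an, part C10 (very weak solutions)
-/

open Complex MeasureTheory Set Filter Topology
open scoped ContDiff

namespace Pool.B2F

noncomputable section

theorem C10_kap_cont {μ : ℂ → ℂ} (hμ : Continuous μ) (h1 : ∀ z, ‖μ z‖ < 1) :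
    Continuous fun z => kap ‖μ z‖ := by
  unfold kap
  refine Continuous.div (by fun_prop) (by fun_prop) fun z => ?_
  have := h1 z
  linarith

theorem C10_one_le_kap {t : ℝ} (h0 : 0 ≤ t) (h1 : t < 1) : 1 ≤ kap t := by
  unfold kap
  rw [le_div_iff₀ (by linarith)]
  linarith

theorem C10_kap_meas {μ : ℂ → ℂ} (hμ : Measurable μ) : Measurable fun z => kap ‖μ z‖ := by
  unfold kap
  fun_prop

theorem C10_kap_int {b : ℝ} (hb : 0 < b) {μ : ℂ → ℂ} (hμ : Measurable μ) (h1 : ∀ z, ‖μ z‖ < 1)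
    {s : Set ℂ} (hi : IntegrableOn (fun z => Real.exp (b * kap ‖μ z‖)) s) :
    IntegrableOn (fun z => kap ‖μ z‖) s := by
  refine Integrable.mono' (hi.const_mul (1 / b)) (C10_kap_meas hμ).aestronglyMeasurable
    (ae_of_all _ fun z => ?_)
  have hk := C10_one_le_kap (norm_nonneg _) (h1 z)
  rw [Real.norm_eq_abs, abs_of_nonneg (by linarith)]
  have := Real.add_one_le_exp (b * kap ‖μ z‖)
  rw [one_div, inv_mul_eq_div, le_div_iff₀ hb]
  linarith

theorem local_thm {b γ : ℝ} (hγ : 0 ≤ γ) (hγb : γ < b) {f p q μ : ℂ → ℂ} (h : Loc b γ f p q μ) :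
    IntegrableOn (fun z => ‖p z‖ ^ 2 - ‖q z‖ ^ 2) (Metric.ball 0 (1 / 16)) := by
  have hb : 0 < b := lt_of_le_of_lt hγ hγb
  have hb1 : γ < (γ + b) / 2 := by linarith
  have hb2 : (γ + b) / 2 < b := by linarith
  set b' := (γ + b) / 2 with hb'def
  obtain ⟨C, M, hC, hM, hstep⟩ := h.step hγ hb1 hb2
  have hpos : ∀ n : ℕ, (0 : ℝ) < 1 / ((n : ℝ) + 1) := fun n => by positivity
  choose μ' F G u hAdm hGood hu h1 h2 h3 h4 using fun n : ℕ => hstep (1 / ((n : ℝ) + 1)) (hpos n)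
  have hn1 : ∀ n : ℕ, 1 / ((n : ℝ) + 1) ≤ 1 := fun n => by
    rw [div_le_one (by positivity)]
    have : (0 : ℝ) ≤ n := Nat.cast_nonneg n
    linarith
  have hlim : Tendsto (fun n : ℕ => 1 / ((n : ℝ) + 1)) atTop (𝓝 0) :=
    tendsto_one_div_add_atTop_nhds_zero_nat
  have hfi : IntegrableOn f (Metric.ball (0 : ℂ) (1 / 2)) :=
    h.weak.intf.mono_set (Metric.ball_subset_ball (by norm_num))
  have hf8 : IntegrableOn f (Metric.ball (0 : ℂ) (1 / 8)) :=
    h.weak.intf.mono_set (Metric.ball_subset_ball (by norm_num))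
  have hui : ∀ n, IntegrableOn (u n) (Metric.ball (0 : ℂ) (1 / 2)) := fun n =>
    ((hu n).continuous.continuousOn.integrableOn_compact
      (isCompact_closedBall (0 : ℂ) (1 / 2))).mono_set Metric.ball_subset_closedBall
  set A : ℝ := max 1 (C + 1 + ∫ z in Metric.ball (0 : ℂ) (1 / 2), ‖f z‖) with hAdef
  have hA : 1 ≤ A := le_max_left _ _
  have hf0 : 0 ≤ ∫ z in Metric.ball (0 : ℂ) (1 / 2), ‖f z‖ := integral_nonneg fun z => norm_nonneg _
  obtain ⟨D, hD, hdec⟩ := decomp (C := C) (b := b) (b' := b') (M := M) hb hA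
  have hu1 : ∀ n, ∫ z in Metric.ball (0 : ℂ) (1 / 2), ‖u n z‖ ≤ A := by
    intro n
    have i1 : Integrable (fun z => ‖u n z - f z‖) (volume.restrict (Metric.ball (0 : ℂ) (1 / 2))) :=
      ((hui n).sub hfi).norm
    calc ∫ z in Metric.ball (0 : ℂ) (1 / 2), ‖u n z‖
        ≤ ∫ z in Metric.ball (0 : ℂ) (1 / 2), (‖u n z - f z‖ + ‖f z‖) := by
          refine integral_mono (hui n).norm (i1.add hfi.norm) fun z => ?_
          show ‖u n z‖ ≤ ‖u n z - f z‖ + ‖f z‖
          calc ‖u n z‖ = ‖(u n z - f z) + f z‖ := by ring_nf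
            _ ≤ _ := norm_add_le _ _
      _ = (∫ z in Metric.ball (0 : ℂ) (1 / 2), ‖u n z - f z‖) +
          ∫ z in Metric.ball (0 : ℂ) (1 / 2), ‖f z‖ := integral_add i1 hfi.norm
      _ ≤ 1 + ∫ z in Metric.ball (0 : ℂ) (1 / 2), ‖f z‖ := by
          have := (h2 n).trans (hn1 n)
          linarith
      _ ≤ A := le_trans (by linarith) (le_max_right _ _)
  have hu2 : ∀ n, ∫ z in Metric.ball (0 : ℂ) (1 / 2), ‖fderiv ℝ (u n) z‖ ^ (6 / 5 : ℝ) ≤ A :=
    fun n => (h3 n).trans (le_trans (by linarith) (le_max_right _ _))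
  choose Ψ hΨ1 hΨ2 hΨ3 hΨ4 using fun n : ℕ =>
    hdec (μ' n) (F n) (G n) (u n) (hAdm n) (hGood n) (hu n) (hu2 n) (hu1 n)
  have t1 : Tendsto (fun n => ∫ z in Metric.ball (0 : ℂ) (1 / 8), ‖u n z - Ψ n z‖ * jac (F n) z)
      atTop (𝓝 0) := by
    have h0 : Tendsto (fun n : ℕ => D * (1 / ((n : ℝ) + 1))) atTop (𝓝 0) := by
      simpa using hlim.const_mul D
    refine squeeze_zero (fun n => integral_nonneg fun z => ?_)
      (fun n => (hΨ4 n).2.trans (mul_le_mul_of_nonneg_left (h1 n) hD.le)) h0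
    exact mul_nonneg (norm_nonneg _) ((hGood n).jac_pos (hAdm n).lt z).le
  have t2 : Tendsto (fun n => ∫ z in Metric.ball (0 : ℂ) (1 / 2), ‖u n z - f z‖) atTop (𝓝 0) :=
    squeeze_zero (fun n => integral_nonneg fun z => norm_nonneg _) h2 hlim
  have t3 := conv_L1 (M := M) (D := D) hb h.weak.intf hAdm hGood hu hΨ1 hΨ2
    (fun n => (hΨ4 n).1) t1 t2
  have hkm := C10_kap_meas h.meas
  have hki1 : IntegrableOn (fun z => kap ‖μ z‖) (Metric.ball 0 1) :=
    C10_kap_int hb h.meas h.lt (h.intK.mono_set (Metric.ball_subset_ball (by norm_num)))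
  have hknc : ∀ n, Continuous fun z => kap ‖μ' n z‖ := fun n =>
    C10_kap_cont (hAdm n).smooth.continuous (hAdm n).lt
  have hkni : ∀ n, IntegrableOn (fun z => kap ‖μ' n z‖) (Metric.ball (0 : ℂ) 1) := fun n =>
    ((hknc n).continuousOn.integrableOn_compact (isCompact_closedBall (0 : ℂ) 1)).mono_set
      Metric.ball_subset_closedBall
  have hmain := lsc (D := D) h.weak (κ := fun z => kap ‖μ z‖)
    (fun z => C10_one_le_kap (norm_nonneg _) (h.lt z)) hki1 (Ψ := Ψ)
    (κn := fun n z => kap ‖μ' n z‖) hknc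
    (fun n z => C10_one_le_kap (norm_nonneg _) ((hAdm n).lt z)) hΨ1 (fun n => (hΨ3 n).1)
    (fun n => (hΨ3 n).2) (fun n => ?_) t3 ?_
  · refine hmain.congr_fun_ae ?_
    have e := ae_restrict_of_ae (s := Metric.ball (0 : ℂ) (1 / 16)) h.eq
    filter_upwards [e, ae_restrict_mem measurableSet_ball] with z hz hz2
    have hq := hz (Metric.ball_subset_ball (by norm_num) hz2)
    have hm := h.lt z
    have hm0 := norm_nonneg (μ z)
    rw [hq, norm_mul]
    unfold kap
    have : 1 - ‖μ z‖ ≠ 0 := by linarith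
    have : 1 + ‖μ z‖ ≠ 0 := by linarith
    field_simp
    ring
  · refine Integrable.mono' (g := fun _ => D) (integrableOn_const measure_ball_lt_top.ne)
      ((hΨ1 n).continuousOn.aestronglyMeasurable measurableSet_ball) ?_
    filter_upwards [ae_restrict_mem measurableSet_ball] with z hz
    exact hΨ2 n z hz
  · refine squeeze_zero (fun n => integral_nonneg fun z => abs_nonneg _) (fun n => ?_) hlim
    refine le_trans ?_ (h4 n)
    refine setIntegral_mono_set ((hkni n).sub hki1).abs (ae_of_all _ fun z => abs_nonneg _)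
      (LE.le.eventuallyLE (Metric.ball_subset_ball (by norm_num)))

end

end Pool.B2F
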