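import Pool.Agent.Lib.MP_b2f128_an.Base

/-!
# MP_b2f128_an, part C11a (very weak solutions)
-/

open Complex MeasureTheory Set Filter Topology
open scoped ContDiff

namespace Pool.B2F

noncomputable section

theorem C11a_int {E : Type*} [NormedAddCommGroup E] (g : ℂ → E) (z0 : ℂ) {ρ : ℝ} (hρ : 0 < ρ) :
    Integrable (fun z : ℂ => g (z0 + ρ * z)) ↔ Integrable g := by
  have h1 : (fun z : ℂ => g (z0 + ρ * z)) = fun z : ℂ => (fun w => g (z0 + w)) (ρ • z) := by
    funext z; simp [Complex.real_smul]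
  rw [h1]
  have h0 : Integrable (fun z : ℂ => (fun w => g (z0 + w)) (ρ • z)) ↔
      Integrable (fun w => g (z0 + w)) := by
    have h2 := MeasureTheory.measurePreserving_add_left (volume : Measure ℂ) z0
    constructor
    · intro h
      have h3 : Integrable (fun z : ℂ => (fun w => g (z0 + w)) (ρ • z)) := h
      have he : MeasurableEmbedding (fun z : ℂ => ρ • z) :=
        (Homeomorph.smulOfNeZero ρ hρ.ne').measurableEmbedding
      have h4 : Integrable (fun w => g (z0 + w)) (Measure.map (fun z : ℂ => ρ • z) volume) :=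
        (he.integrable_map_iff).2 h3
      rw [Measure.map_addHaar_smul _ hρ.ne'] at h4
      have h5 := h4.smul_measure (c := (ENNReal.ofReal |(ρ ^ Module.finrank ℝ ℂ)⁻¹|)⁻¹) (by
        rw [Ne, ENNReal.inv_eq_top, ENNReal.ofReal_eq_zero, not_le]
        positivity)
      rw [smul_smul, ENNReal.inv_mul_cancel, one_smul] at h5
      · exact h5
      · rw [Ne, ENNReal.ofReal_eq_zero, not_le]
        positivity
      · exact ENNReal.ofReal_ne_top
    · intro h
      have he : MeasurableEmbedding (fun z : ℂ => ρ • z) :=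
        (Homeomorph.smulOfNeZero ρ hρ.ne').measurableEmbedding
      have h4 : Integrable (fun w => g (z0 + w)) (Measure.map (fun z : ℂ => ρ • z) volume) := by
        rw [Measure.map_addHaar_smul _ hρ.ne']
        exact h.smul_measure ENNReal.ofReal_ne_top
      exact (he.integrable_map_iff).1 h4
  rw [h0]
  have h2 := MeasureTheory.measurePreserving_add_left (volume : Measure ℂ) z0
  exact h2.integrable_comp_emb (MeasurableEquiv.addLeft z0).measurableEmbedding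

theorem C11a_intOn {E : Type*} [NormedAddCommGroup E] (g : ℂ → E) (z0 : ℂ) {ρ r : ℝ}
    (hρ : 0 < ρ) :
    IntegrableOn (fun z : ℂ => g (z0 + ρ * z)) (Metric.ball 0 r) ↔
      IntegrableOn g (Metric.ball z0 (ρ * r)) := by
  rw [← integrable_indicator_iff measurableSet_ball, ← integrable_indicator_iff measurableSet_ball,
    ← C11a_int ((Metric.ball z0 (ρ * r)).indicator g) z0 hρ]
  have h : (Metric.ball (0 : ℂ) r).indicator (fun z : ℂ => g (z0 + ρ * z)) =
      fun z : ℂ => (Metric.ball z0 (ρ * r)).indicator g (z0 + ρ * z) := by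
    funext z
    have hm : z ∈ Metric.ball (0 : ℂ) r ↔ z0 + ρ * z ∈ Metric.ball z0 (ρ * r) := by
      rw [Metric.mem_ball, Metric.mem_ball, dist_zero_right, dist_eq_norm, add_sub_cancel_left,
        norm_mul, Complex.norm_real, Real.norm_eq_abs, abs_of_pos hρ]
      constructor
      · intro h; exact mul_lt_mul_of_pos_left h hρ
      · intro h; exact lt_of_mul_lt_mul_left h hρ.le
    by_cases hz : z ∈ Metric.ball (0 : ℂ) r
    · rw [indicator_of_mem hz, indicator_of_mem (hm.1 hz)]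
    · rw [indicator_of_notMem hz, indicator_of_notMem (fun h => hz (hm.2 h))]
  rw [h]

/-- PROOF. `P = ‖p‖ + ‖q‖`, `J = ‖p‖² - ‖q‖²`, `P² ≤ K J`; `P²/log (e + P) ≤ K J / log (e + (K J)^(1/2)) ≤ (4/b) (J + exp (b K))`: if `J ≤ exp (b K/2)` then `K J ≤ K exp (bK/2) ≤ (2/b) exp (bK)`; otherwise
`log (e + (KJ)^(1/2)) ≥ bK/4`. -/
theorem log_bound {b K P J : ℝ} (hb : 0 < b) (hK : 1 ≤ K) (hP : 0 ≤ P) (hJ : P ^ 2 ≤ K * J) :
    P ^ 2 / Real.log (Real.exp 1 + P) ≤ 4 / b * (J + Real.exp (b * K)) := by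
  have hL : 1 ≤ Real.log (Real.exp 1 + P) := by
    rw [Real.le_log_iff_exp_le (by positivity)]
    linarith
  have hJ0 : 0 ≤ J := by
    by_contra h
    push Not at h
    have : K * J < 0 := mul_neg_of_pos_of_neg (by linarith) h
    nlinarith [sq_nonneg P]
  rcases le_or_gt (b * K / 4) (Real.log (Real.exp 1 + P)) with h | h
  · have h1 : P ^ 2 / Real.log (Real.exp 1 + P) ≤ 4 / b * J := by
      rw [div_le_iff₀ (by linarith)]
      have h2 : 4 / b * J * (b * K / 4) ≤ 4 / b * J * Real.log (Real.exp 1 + P) :=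
        mul_le_mul_of_nonneg_left h (by positivity)
      have h3 : 4 / b * J * (b * K / 4) = K * J := by field_simp
      linarith
    have h4 : 0 ≤ 4 / b * Real.exp (b * K) := by positivity
    rw [mul_add]; linarith
  · have h1 : P ^ 2 / Real.log (Real.exp 1 + P) ≤ P ^ 2 := by
      apply div_le_self (sq_nonneg P) hL
    have h2 : P ≤ Real.exp (b * K / 4) := by
      have h3 : Real.exp 1 + P < Real.exp (b * K / 4) := by
        rwa [Real.log_lt_iff_lt_exp (by positivity)] at h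
      have := Real.exp_pos 1
      linarith
    have h3 : P ^ 2 ≤ Real.exp (b * K / 2) := by
      have h4 : Real.exp (b * K / 2) = Real.exp (b * K / 4) ^ 2 := by
        rw [← Real.exp_nat_mul]; congr 1; push_cast; ring
      rw [h4]
      exact pow_le_pow_left₀ hP h2 2
    have h5 : b / 4 ≤ Real.exp (b * K / 2) := by
      have h6 : b * K / 2 + 1 ≤ Real.exp (b * K / 2) := Real.add_one_le_exp _
      nlinarith
    have h7 : Real.exp (b * K / 2) ≤ 4 / b * Real.exp (b * K) := by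
      have h8 : Real.exp (b * K) = Real.exp (b * K / 2) * Real.exp (b * K / 2) := by
        rw [← Real.exp_add]; congr 1; ring
      rw [h8]
      have h9 : 1 ≤ 4 / b * Real.exp (b * K / 2) := by
        rw [div_mul_eq_mul_div, le_div_iff₀ hb]; linarith
      have h10 := Real.exp_pos (b * K / 2)
      nlinarith
    have h11 : 0 ≤ 4 / b * J := by positivity
    rw [mul_add]; linarith

theorem C11a_integral (g : ℂ → ℂ) (z0 : ℂ) {ρ : ℝ} (hρ : 0 < ρ) :
    ∫ w, g w = ((ρ : ℂ) ^ 2) * ∫ z : ℂ, g (z0 + ρ * z) := by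
  have h1 : (fun z : ℂ => g (z0 + ρ * z)) = fun z : ℂ => (fun w => g (z0 + w)) (ρ • z) := by
    funext z; simp [Complex.real_smul]
  have h2 := Measure.integral_comp_smul (volume : Measure ℂ) (fun w => g (z0 + w)) ρ
  rw [h1, h2, integral_add_left_eq_self g z0, Complex.finrank_real_complex,
    abs_of_pos (by positivity), Complex.real_smul, ← mul_assoc]
  have : ((ρ : ℂ) ^ 2) * (((ρ ^ 2)⁻¹ : ℝ) : ℂ) = 1 := by
    push_cast
    exact mul_inv_cancel₀ (pow_ne_zero _ (by exact_mod_cast hρ.ne'))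
  rw [this, one_mul]

theorem C11a_fderiv {φ : ℂ → ℂ} (hφ : ContDiff ℝ ∞ φ) (z0 : ℂ) {ρ : ℝ} (w h : ℂ) :
    fderiv ℝ (fun w : ℂ => φ (ρ⁻¹ • (w - z0))) w h =
      (ρ : ℂ)⁻¹ * fderiv ℝ φ (ρ⁻¹ • (w - z0)) h := by
  have h1 : DifferentiableAt ℝ φ (ρ⁻¹ • (w - z0)) :=
    (hφ.differentiable (by simp)).differentiableAt
  have h2 : HasFDerivAt (fun w : ℂ => ρ⁻¹ • (w - z0)) (ρ⁻¹ • ContinuousLinearMap.id ℝ ℂ) w :=
    ((hasFDerivAt_id w).sub_const z0).const_smul ρ⁻¹
  have h3 := h1.hasFDerivAt.comp w h2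
  have h4 : fderiv ℝ (fun w : ℂ => φ (ρ⁻¹ • (w - z0))) w =
      (fderiv ℝ φ (ρ⁻¹ • (w - z0))).comp (ρ⁻¹ • ContinuousLinearMap.id ℝ ℂ) := h3.fderiv
  rw [h4, ContinuousLinearMap.comp_apply, ContinuousLinearMap.smul_apply,
    ContinuousLinearMap.id_apply, map_smul]
  generalize fderiv ℝ φ (ρ⁻¹ • (w - z0)) h = x
  rw [Complex.real_smul]
  push_cast
  rfl

/-- scaling. PROOF. For `φ ∈ Cc (ball 0 2)` the function `w ↦ φ ((w - z0)/ρ)` is in `Cc Ω`, its `dz` is `ρ⁻¹ (dz φ) ((w - z0)/ρ)`; substitute `w = z0 + ρ z`. -/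
theorem WeakOn.scale {Ω : Set ℂ} {f p q : ℂ → ℂ} (hw : WeakOn Ω f p q) {z0 : ℂ} {ρ : ℝ} (hρ : 0 < ρ)
    (hB : Metric.closedBall z0 (2 * ρ) ⊆ Ω) :
    Weak2 (fun z => f (z0 + ρ * z)) (fun z => ρ * p (z0 + ρ * z)) (fun z => ρ * q (z0 + ρ * z)) := by
  have hcpt : IsCompact (Metric.closedBall z0 (2 * ρ)) := isCompact_closedBall _ _
  have hsub : Metric.ball z0 (ρ * 2) ⊆ Metric.closedBall z0 (2 * ρ) := by
    rw [mul_comm]; exact Metric.ball_subset_closedBall
  have hint : ∀ {g : ℂ → ℂ}, LocallyIntegrableOn g Ω →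
      IntegrableOn (fun z : ℂ => g (z0 + ρ * z)) (Metric.ball 0 2) := fun {g} hg =>
    (C11a_intOn g z0 hρ).2 ((hg.integrableOn_compact_subset hB hcpt).mono_set hsub)
  have hρc : (ρ : ℂ) ≠ 0 := by exact_mod_cast hρ.ne'
  have hinv : ∀ z : ℂ, ρ⁻¹ • (z0 + (ρ : ℂ) * z - z0) = z := by
    intro z
    rw [add_sub_cancel_left, Complex.real_smul]
    push_cast
    field_simp
  have hinv' : ∀ w : ℂ, z0 + (ρ : ℂ) * (ρ⁻¹ • (w - z0)) = w := by
    intro w
    rw [Complex.real_smul]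
    push_cast
    field_simp
    ring
  -- the test function
  have hCc : ∀ φ : ℂ → ℂ, Cc (Metric.ball 0 2) φ → Cc Ω (fun w : ℂ => φ (ρ⁻¹ • (w - z0))) := by
    intro φ hφ
    have hs : ∀ w, w ∈ tsupport (fun w : ℂ => φ (ρ⁻¹ • (w - z0))) →
        ρ⁻¹ • (w - z0) ∈ tsupport φ := by
      intro w hw'
      have hcont : Continuous (fun w : ℂ => ρ⁻¹ • (w - z0)) := by fun_prop
      have hcl : IsClosed ((fun w : ℂ => ρ⁻¹ • (w - z0)) ⁻¹' tsupport φ) :=
        (isClosed_tsupport φ).preimage hcont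
      have hss : Function.support (fun w : ℂ => φ (ρ⁻¹ • (w - z0))) ⊆
          (fun w : ℂ => ρ⁻¹ • (w - z0)) ⁻¹' tsupport φ := fun x hx => subset_closure hx
      exact closure_minimal hss hcl hw'
    have hball : tsupport (fun w : ℂ => φ (ρ⁻¹ • (w - z0))) ⊆ Metric.closedBall z0 (2 * ρ) := by
      intro w hw'
      have h1 := hφ.sub (hs w hw')
      rw [Metric.mem_ball, dist_zero_right, norm_smul, Real.norm_eq_abs,
        abs_of_pos (inv_pos.2 hρ), inv_mul_lt_iff₀ hρ] at h1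
      rw [Metric.mem_closedBall, dist_eq_norm]
      linarith
    refine ⟨?_, ?_, hball.trans hB⟩
    · exact hφ.smooth.comp ((contDiff_id.sub contDiff_const).const_smul ρ⁻¹)
    · exact HasCompactSupport.of_support_subset_isCompact hcpt
        (subset_closure.trans hball)
  have hdz : ∀ φ : ℂ → ℂ, Cc (Metric.ball 0 2) φ → ∀ w,
      dz (fun w : ℂ => φ (ρ⁻¹ • (w - z0))) w = (ρ : ℂ)⁻¹ * dz φ (ρ⁻¹ • (w - z0)) := by
    intro φ hφ w
    have h1 := C11a_fderiv hφ.smooth z0 (ρ := ρ) w 1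
    have h2 := C11a_fderiv hφ.smooth z0 (ρ := ρ) w I
    simp only [dz]
    rw [h1, h2]
    generalize fderiv ℝ φ (ρ⁻¹ • (w - z0)) = L
    ring
  have hdzb : ∀ φ : ℂ → ℂ, Cc (Metric.ball 0 2) φ → ∀ w,
      dzb (fun w : ℂ => φ (ρ⁻¹ • (w - z0))) w = (ρ : ℂ)⁻¹ * dzb φ (ρ⁻¹ • (w - z0)) := by
    intro φ hφ w
    have h1 := C11a_fderiv hφ.smooth z0 (ρ := ρ) w 1
    have h2 := C11a_fderiv hφ.smooth z0 (ρ := ρ) w I
    simp only [dzb]
    rw [h1, h2]
    generalize fderiv ℝ φ (ρ⁻¹ • (w - z0)) = L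
    ring
  have hfin : ∀ (g φ D : ℂ → ℂ),
      (∫ w, f w * ((ρ : ℂ)⁻¹ * D (ρ⁻¹ • (w - z0))) = -∫ w, g w * φ (ρ⁻¹ • (w - z0))) →
      ∫ z, f (z0 + ρ * z) * D z = -∫ z, (ρ * g (z0 + ρ * z)) * φ z := by
    intro g φ D h
    rw [C11a_integral (fun w => f w * ((ρ : ℂ)⁻¹ * D (ρ⁻¹ • (w - z0)))) z0 hρ,
      C11a_integral (fun w => g w * φ (ρ⁻¹ • (w - z0))) z0 hρ] at h
    simp only [hinv] at h
    have e1 : ∫ z : ℂ, f (z0 + ρ * z) * ((ρ : ℂ)⁻¹ * D z) =
        (ρ : ℂ)⁻¹ * ∫ z : ℂ, f (z0 + ρ * z) * D z := by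
      rw [← integral_const_mul]
      congr 1; funext z; ring
    have e2 : ∫ z : ℂ, (ρ * g (z0 + ρ * z)) * φ z = ρ * ∫ z : ℂ, g (z0 + ρ * z) * φ z := by
      rw [← integral_const_mul]
      congr 1; funext z; ring
    rw [e1] at h
    rw [e2]
    have h2 : (ρ : ℂ) * ((ρ : ℂ)⁻¹ * ∫ z : ℂ, f (z0 + ρ * z) * D z) =
        ρ * -∫ z : ℂ, g (z0 + ρ * z) * φ z := by
      have h3 : (ρ : ℂ) ^ 2 * ((ρ : ℂ)⁻¹ * ∫ z : ℂ, f (z0 + ρ * z) * D z) =
          (ρ : ℂ) ^ 2 * -∫ z : ℂ, g (z0 + ρ * z) * φ z := by rw [h]; ring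
      have h4 := mul_left_cancel₀ (pow_ne_zero 2 hρc) h3
      rw [h4]
    rw [mul_inv_cancel_left₀ hρc] at h2
    rw [h2]; ring
  refine ⟨hint hw.intf, (hint hw.intp).const_mul _, (hint hw.intq).const_mul _, ?_, ?_⟩
  · intro φ hφ
    have h := hw.wz _ (hCc φ hφ)
    simp only [hdz φ hφ] at h
    exact hfin p φ (dz φ) h
  · intro φ hφ
    have h := hw.wzb _ (hCc φ hφ)
    simp only [hdzb φ hφ] at h
    exact hfin q φ (dzb φ) h

end

end Pool.B2F
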