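import Pool.Agent.Lib.MP_b2f128_an.Base
import Pool.Agent.Lib.MP_b2f128_an.A02b
import Pool.Agent.Lib.MP_b2f128_an.C10
import Pool.Agent.Lib.MP_b2f128_an.C11a

/-!
# MP_b2f128_an, part C11b (very weak solutions)
-/

open Complex MeasureTheory Set Filter Topology
open scoped ContDiff

namespace Pool.B2F

noncomputable section

theorem C11b_int {E : Type*} [NormedAddCommGroup E] (g : ℂ → E) (z0 : ℂ) {ρ : ℝ} (hρ : 0 < ρ) :
    Integrable (fun z : ℂ => g (z0 + ρ * z)) ↔ Integrable g := by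
  have h1 : (fun z : ℂ => g (z0 + ρ * z)) = fun z : ℂ => (fun w => g (z0 + w)) (ρ • z) := by
    funext z; simp [Complex.real_smul]
  rw [h1]
  have h0 : Integrable (fun z : ℂ => (fun w => g (z0 + w)) (ρ • z)) ↔
      Integrable (fun w => g (z0 + w)) := by
    have h2 := MeasureTheory.measurePreserving_add_left (volume : Measure ℂ) z0
    constructor
    · intro h
      have h3 : Integrable (fun z : ℂ => (fun w => g (z0 + w)) (ρ • z)) := h
      have he : MeasurableEmbedding (fun z : ℂ => ρ • z) :=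
        (Homeomorph.smulOfNeZero ρ hρ.ne').measurableEmbedding
      have h4 : Integrable (fun w => g (z0 + w)) (Measure.map (fun z : ℂ => ρ • z) volume) :=
        (he.integrable_map_iff).2 h3
      rw [Measure.map_addHaar_smul _ hρ.ne'] at h4
      have h5 := h4.smul_measure (c := (ENNReal.ofReal |(ρ ^ Module.finrank ℝ ℂ)⁻¹|)⁻¹) (by
        rw [Ne, ENNReal.inv_eq_top, ENNReal.ofReal_eq_zero, not_le]
        positivity)
      rw [smul_smul, ENNReal.inv_mul_cancel, one_smul] at h5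
      · exact h5
      · rw [Ne, ENNReal.ofReal_eq_zero, not_le]
        positivity
      · exact ENNReal.ofReal_ne_top
    · intro h
      have he : MeasurableEmbedding (fun z : ℂ => ρ • z) :=
        (Homeomorph.smulOfNeZero ρ hρ.ne').measurableEmbedding
      have h4 : Integrable (fun w => g (z0 + w)) (Measure.map (fun z : ℂ => ρ • z) volume) := by
        rw [Measure.map_addHaar_smul _ hρ.ne']
        exact h.smul_measure ENNReal.ofReal_ne_top
      exact (he.integrable_map_iff).1 h4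
  rw [h0]
  have h2 := MeasureTheory.measurePreserving_add_left (volume : Measure ℂ) z0
  exact h2.integrable_comp_emb (MeasurableEquiv.addLeft z0).measurableEmbedding

theorem C11b_intOn {E : Type*} [NormedAddCommGroup E] (g : ℂ → E) (z0 : ℂ) {ρ r : ℝ}
    (hρ : 0 < ρ) :
    IntegrableOn (fun z : ℂ => g (z0 + ρ * z)) (Metric.ball 0 r) ↔
      IntegrableOn g (Metric.ball z0 (ρ * r)) := by
  rw [← integrable_indicator_iff measurableSet_ball, ← integrable_indicator_iff measurableSet_ball,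
    ← C11b_int ((Metric.ball z0 (ρ * r)).indicator g) z0 hρ]
  have h : (Metric.ball (0 : ℂ) r).indicator (fun z : ℂ => g (z0 + ρ * z)) =
      fun z : ℂ => (Metric.ball z0 (ρ * r)).indicator g (z0 + ρ * z) := by
    funext z
    have hm : z ∈ Metric.ball (0 : ℂ) r ↔ z0 + ρ * z ∈ Metric.ball z0 (ρ * r) := by
      rw [Metric.mem_ball, Metric.mem_ball, dist_zero_right, dist_eq_norm, add_sub_cancel_left,
        norm_mul, Complex.norm_real, Real.norm_eq_abs, abs_of_pos hρ]
      constructor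
      · intro h; exact mul_lt_mul_of_pos_left h hρ
      · intro h; exact lt_of_mul_lt_mul_left h hρ.le
    by_cases hz : z ∈ Metric.ball (0 : ℂ) r
    · rw [indicator_of_mem hz, indicator_of_mem (hm.1 hz)]
    · rw [indicator_of_notMem hz, indicator_of_notMem (fun h => hz (hm.2 h))]
  rw [h]

theorem C11b_ae {P : ℂ → Prop} (z0 : ℂ) {ρ : ℝ} (hρ : 0 < ρ) (h : ∀ᵐ w, P w) :
    ∀ᵐ z : ℂ, P (z0 + ρ * z) := by
  have h1 : Measure.QuasiMeasurePreserving (fun z : ℂ => ρ • z) volume volume :=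
    Measure.quasiMeasurePreserving_smul (volume : Measure ℂ) hρ.ne'
  have h2 := (MeasureTheory.measurePreserving_add_left (volume : Measure ℂ)
    z0).quasiMeasurePreserving
  have h3 := (h2.comp h1).ae h
  filter_upwards [h3] with z hz
  simpa [Complex.real_smul] using hz

theorem C11b_real {ρ t s : ℝ} (hρ : 0 < ρ) (hρ1 : ρ ≤ 1) (ht : 0 ≤ t) (hs : 0 ≤ s) :
    (ρ * t) ^ 2 / Real.log (Real.exp 1 + ρ * t) ^ s ≤
      (1 + Real.log (1 / ρ)) ^ s * (t ^ 2 / Real.log (Real.exp 1 + t) ^ s) := by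
  have he : 0 < Real.exp 1 := Real.exp_pos 1
  have hL : 0 ≤ Real.log (1 / ρ) := Real.log_nonneg (by rw [le_div_iff₀ hρ]; linarith)
  have h1 : 1 ≤ Real.log (Real.exp 1 + ρ * t) := by
    rw [Real.le_log_iff_exp_le (by positivity)]
    have : 0 ≤ ρ * t := by positivity
    linarith
  have h1' : 1 ≤ Real.log (Real.exp 1 + t) := by
    rw [Real.le_log_iff_exp_le (by positivity)]
    linarith
  have h2 : Real.log (Real.exp 1 + t) ≤
      (1 + Real.log (1 / ρ)) * Real.log (Real.exp 1 + ρ * t) := by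
    have h3 : Real.exp 1 + t ≤ (Real.exp 1 + ρ * t) * (1 / ρ) := by
      rw [add_mul, mul_comm ρ t, mul_assoc, mul_one_div_cancel hρ.ne', mul_one]
      have : Real.exp 1 * 1 ≤ Real.exp 1 * (1 / ρ) :=
        mul_le_mul_of_nonneg_left (by rw [le_div_iff₀ hρ]; linarith) he.le
      linarith
    calc Real.log (Real.exp 1 + t) ≤ Real.log ((Real.exp 1 + ρ * t) * (1 / ρ)) :=
          Real.log_le_log (by positivity) h3
      _ = Real.log (Real.exp 1 + ρ * t) + Real.log (1 / ρ) := by
          rw [Real.log_mul (by positivity) (by positivity)]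
      _ ≤ (1 + Real.log (1 / ρ)) * Real.log (Real.exp 1 + ρ * t) := by nlinarith
  have h4 : Real.log (Real.exp 1 + t) ^ s ≤
      (1 + Real.log (1 / ρ)) ^ s * Real.log (Real.exp 1 + ρ * t) ^ s := by
    rw [← Real.mul_rpow (by linarith) (by linarith)]
    exact Real.rpow_le_rpow (by linarith) h2 hs
  have h5 : 0 < Real.log (Real.exp 1 + ρ * t) ^ s := Real.rpow_pos_of_pos (by linarith) s
  have h6 : 0 < Real.log (Real.exp 1 + t) ^ s := Real.rpow_pos_of_pos (by linarith) s
  rw [← mul_div_assoc, div_le_div_iff₀ h5 h6]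
  have h7 : (ρ * t) ^ 2 ≤ t ^ 2 := by
    rw [mul_pow]
    have : ρ ^ 2 ≤ 1 := by nlinarith
    nlinarith [sq_nonneg t]
  calc (ρ * t) ^ 2 * Real.log (Real.exp 1 + t) ^ s
      ≤ t ^ 2 * ((1 + Real.log (1 / ρ)) ^ s * Real.log (Real.exp 1 + ρ * t) ^ s) :=
        mul_le_mul h7 h4 h6.le (by positivity)
    _ = (1 + Real.log (1 / ρ)) ^ s * t ^ 2 * Real.log (Real.exp 1 + ρ * t) ^ s := by ring

/-- PROOF. `f₁ z = f (z0 + ρ z)`, `p₁ z = ρ p (z0 + ρ z)`, `q₁` similarly, `μ z = q₁ z / p₁ z` if `z ∈ ball 0 (3/4)`, `‖q₁ z‖ < ‖p₁ z‖` and 0 otherwise (measurable representatives of `p₁, q₁`); `kap ‖μ‖ ≤ K (z0 + ρ z)` a.e.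
from the distortion inequality (if `p₁ = 0` then `q₁ = 0`). `t² / log^(1+γ) (e + t)` at `ρ t` is at most `C` times the value at `t` (`log (e + ρ t) ≥ log (e + t) / (1 + log (1/ρ))`). `Loc b (c b) f₁ p₁ q₁ μ` (`WeakOn.scale`); `local_thm` with `γ = c b < b`. -/
theorem jac_near {Ω : Set ℂ} {b c : ℝ} (hb : 0 < b) (hc : 0 < c) (hc1 : c < 1)
    {f p q : ℂ → ℂ} {K : ℂ → ℝ} (hw : WeakOn Ω f p q) (hK : Measurable K) (hK1 : ∀ z, 1 ≤ K z)
    (hd : ∀ᵐ z, z ∈ Ω → (‖p z‖ + ‖q z‖) ^ 2 ≤ K z * (‖p z‖ ^ 2 - ‖q z‖ ^ 2))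
    (he : LocallyIntegrableOn (fun z => Real.exp (b * K z)) Ω)
    (hg : LocallyIntegrableOn (fun z => (‖p z‖ + ‖q z‖) ^ 2 /
      Real.log (Real.exp 1 + (‖p z‖ + ‖q z‖)) ^ (1 + c * b)) Ω) {z0 : ℂ} {ρ : ℝ} (hρ : 0 < ρ)
    (hρ1 : ρ ≤ 1) (hB : Metric.closedBall z0 (2 * ρ) ⊆ Ω) :
    IntegrableOn (fun z => ‖p z‖ ^ 2 - ‖q z‖ ^ 2) (Metric.ball z0 (ρ / 16)) := by
  have hcpt : IsCompact (Metric.closedBall z0 (2 * ρ)) := isCompact_closedBall _ _
  have hsub : Metric.ball z0 (ρ * 2) ⊆ Metric.closedBall z0 (2 * ρ) := by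
    rw [mul_comm]; exact Metric.ball_subset_closedBall
  have W := hw.scale hρ hB
  -- measurable representatives
  have hpm := W.inta.aestronglyMeasurable
  have hqm := W.intb.aestronglyMeasurable
  set P := hpm.mk with hP
  set Q := hqm.mk with hQ
  have hPm : Measurable P := hpm.stronglyMeasurable_mk.measurable
  have hQm : Measurable Q := hqm.stronglyMeasurable_mk.measurable
  have hPe : ∀ᵐ z : ℂ, z ∈ Metric.ball (0 : ℂ) 2 → (ρ : ℂ) * p (z0 + ρ * z) = P z :=
    (ae_restrict_iff' measurableSet_ball).1 hpm.ae_eq_mk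
  have hQe : ∀ᵐ z : ℂ, z ∈ Metric.ball (0 : ℂ) 2 → (ρ : ℂ) * q (z0 + ρ * z) = Q z :=
    (ae_restrict_iff' measurableSet_ball).1 hqm.ae_eq_mk
  set S : Set ℂ := Metric.ball (0 : ℂ) (3 / 4) ∩ {z | ‖Q z‖ < ‖P z‖} with hS
  have hSm : MeasurableSet S := measurableSet_ball.inter (measurableSet_lt hQm.norm hPm.norm)
  set μ : ℂ → ℂ := S.indicator (fun z => Q z / P z) with hμ
  have hμm : Measurable μ := (hQm.div hPm).indicator hSm
  have hμlt : ∀ z, ‖μ z‖ < 1 := by
    intro z
    by_cases hz : z ∈ S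
    · rw [hμ, indicator_of_mem hz, norm_div]
      have h1 : ‖Q z‖ < ‖P z‖ := hz.2
      rw [div_lt_one (lt_of_le_of_lt (norm_nonneg _) h1)]
      exact h1
    · rw [hμ, indicator_of_notMem hz]; simp
  have hμz : ∀ z, z ∉ Metric.ball (0 : ℂ) (3 / 4) → μ z = 0 := by
    intro z hz
    rw [hμ, indicator_of_notMem (fun h => hz h.1)]
  -- the distortion inequality in the new variable
  have hd' : ∀ᵐ z : ℂ, z ∈ Metric.ball (0 : ℂ) 2 →
      (‖p (z0 + ρ * z)‖ + ‖q (z0 + ρ * z)‖) ^ 2 ≤
        K (z0 + ρ * z) * (‖p (z0 + ρ * z)‖ ^ 2 - ‖q (z0 + ρ * z)‖ ^ 2) := by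
    filter_upwards [C11b_ae z0 hρ hd] with z hz hz2
    apply hz
    apply hB
    rw [Metric.mem_ball, dist_zero_right] at hz2
    rw [Metric.mem_closedBall, dist_eq_norm, add_sub_cancel_left, norm_mul, Complex.norm_real,
      Real.norm_eq_abs, abs_of_pos hρ]
    nlinarith
  have hkey : ∀ᵐ z : ℂ, z ∈ Metric.ball (0 : ℂ) 2 → kap ‖μ z‖ ≤ K (z0 + ρ * z) ∧
      (z ∈ Metric.ball (0 : ℂ) (3 / 4) → (ρ : ℂ) * q (z0 + ρ * z) =
        μ z * ((ρ : ℂ) * p (z0 + ρ * z))) := by
    filter_upwards [hPe, hQe, hd'] with z h1 h2 h3 hz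
    have h1' := h1 hz
    have h2' := h2 hz
    have h3' := h3 hz
    set A := ‖p (z0 + ρ * z)‖ with hA
    set B := ‖q (z0 + ρ * z)‖ with hBq
    have hA0 : 0 ≤ A := norm_nonneg _
    have hB0 : 0 ≤ B := norm_nonneg _
    have hPA : ‖P z‖ = ρ * A := by
      rw [← h1', norm_mul, Complex.norm_real, Real.norm_eq_abs, abs_of_pos hρ]
    have hQB : ‖Q z‖ = ρ * B := by
      rw [← h2', norm_mul, Complex.norm_real, Real.norm_eq_abs, abs_of_pos hρ]
    have hK0 := hK1 (z0 + ρ * z)
    have hcase : (A = 0 ∧ B = 0) ∨ B < A := by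
      by_cases hA' : A = 0
      · left
        refine ⟨hA', ?_⟩
        rw [hA'] at h3'
        have : B ^ 2 ≤ 0 := by nlinarith [sq_nonneg B]
        nlinarith [sq_nonneg B]
      · right
        have hApos : 0 < A := lt_of_le_of_ne hA0 (Ne.symm hA')
        have h4 : 0 < (A + B) ^ 2 := by positivity
        have h5 : 0 < A ^ 2 - B ^ 2 := by
          by_contra hcon
          push Not at hcon
          have : K (z0 + ρ * z) * (A ^ 2 - B ^ 2) ≤ 0 :=
            mul_nonpos_of_nonneg_of_nonpos (by linarith) hcon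
          linarith
        nlinarith
    by_cases hzS : z ∈ S
    · have hlt : B < A := by
        have h6 : ‖Q z‖ < ‖P z‖ := hzS.2
        rw [hPA, hQB] at h6
        exact lt_of_mul_lt_mul_left h6 hρ.le
      have hApos : 0 < A := lt_of_le_of_lt hB0 hlt
      have hPne : P z ≠ 0 := by
        intro h0
        rw [h0, norm_zero] at hPA
        have : 0 < ρ * A := by positivity
        linarith
      have hμval : μ z = Q z / P z := by rw [hμ, indicator_of_mem hzS]
      refine ⟨?_, ?_⟩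
      · have h7 : ‖μ z‖ = B / A := by
          rw [hμval, norm_div, hPA, hQB]
          field_simp
        rw [h7, kap]
        have h8 : (1 + B / A) / (1 - B / A) = (A + B) / (A - B) := by
          have : A - B ≠ 0 := by linarith
          field_simp
        rw [h8, div_le_iff₀ (by linarith)]
        have h9 : (A + B) * (A + B) ≤ (K (z0 + ρ * z) * (A - B)) * (A + B) := by nlinarith
        exact le_of_mul_le_mul_right h9 (by linarith)
      · intro _
        rw [hμval, h1', h2']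
        field_simp
    · have hμval : μ z = 0 := by rw [hμ, indicator_of_notMem hzS]
      refine ⟨?_, ?_⟩
      · rw [hμval, norm_zero, kap]
        simpa using hK0
      · intro hz34
        rcases hcase with ⟨_, hB'⟩ | hlt
        · have : q (z0 + ρ * z) = 0 := norm_eq_zero.1 hB'
          rw [this, hμval]; simp
        · exfalso
          apply hzS
          refine ⟨hz34, ?_⟩
          change ‖Q z‖ < ‖P z‖
          rw [hPA, hQB]
          exact mul_lt_mul_of_pos_left hlt hρ
  have h34 : Metric.ball (0 : ℂ) (3 / 4) ⊆ Metric.ball (0 : ℂ) 2 :=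
    Metric.ball_subset_ball (by norm_num)
  have hL : Loc b (c * b) (fun z => f (z0 + ρ * z)) (fun z => ρ * p (z0 + ρ * z))
      (fun z => ρ * q (z0 + ρ * z)) μ := by
    refine ⟨W, hμm, hμlt, hμz, ?_, ?_, ?_⟩
    · filter_upwards [hkey] with z hz hz34
      exact (hz (h34 hz34)).2 hz34
    · have h1 : IntegrableOn (fun z : ℂ => Real.exp (b * K (z0 + ρ * z))) (Metric.ball 0 2) :=
        (C11b_intOn (fun w => Real.exp (b * K w)) z0 hρ).2
          ((he.integrableOn_compact_subset hB hcpt).mono_set hsub)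
      refine Integrable.mono' h1 ?_ ?_
      · apply Measurable.aestronglyMeasurable
        have : Measurable fun z => kap ‖μ z‖ := by
          unfold kap
          exact (measurable_const.add hμm.norm).div (measurable_const.sub hμm.norm)
        exact Real.measurable_exp.comp (measurable_const.mul this)
      · rw [ae_restrict_iff' measurableSet_ball]
        filter_upwards [hkey] with z hz hz2
        rw [Real.norm_eq_abs, abs_of_pos (Real.exp_pos _)]
        exact Real.exp_le_exp.2 (mul_le_mul_of_nonneg_left (hz hz2).1 hb.le)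
    · have h1 : IntegrableOn (fun z : ℂ => (‖p (z0 + ρ * z)‖ + ‖q (z0 + ρ * z)‖) ^ 2 /
          Real.log (Real.exp 1 + (‖p (z0 + ρ * z)‖ + ‖q (z0 + ρ * z)‖)) ^ (1 + c * b))
          (Metric.ball 0 2) :=
        (C11b_intOn (fun w => (‖p w‖ + ‖q w‖) ^ 2 /
          Real.log (Real.exp 1 + (‖p w‖ + ‖q w‖)) ^ (1 + c * b)) z0 hρ).2
          ((hg.integrableOn_compact_subset hB hcpt).mono_set hsub)
      have h2 := h1.const_mul ((1 + Real.log (1 / ρ)) ^ (1 + c * b))
      refine Integrable.mono' h2 ?_ ?_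
      · have h3 : AEMeasurable (fun z : ℂ => ‖(ρ : ℂ) * p (z0 + ρ * z)‖ +
            ‖(ρ : ℂ) * q (z0 + ρ * z)‖) (volume.restrict (Metric.ball 0 2)) :=
          hpm.norm.aemeasurable.add hqm.norm.aemeasurable
        apply AEMeasurable.aestronglyMeasurable
        exact (h3.pow_const 2).div
          ((Real.measurable_log.comp_aemeasurable (h3.const_add _)).pow_const _)
      · refine Filter.Eventually.of_forall fun z => ?_
        have h4 : ‖(ρ : ℂ) * p (z0 + ρ * z)‖ + ‖(ρ : ℂ) * q (z0 + ρ * z)‖ =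
            ρ * (‖p (z0 + ρ * z)‖ + ‖q (z0 + ρ * z)‖) := by
          rw [norm_mul, norm_mul, Complex.norm_real, Real.norm_eq_abs, abs_of_pos hρ]; ring
        have h5 := C11b_real (s := 1 + c * b) hρ hρ1
          (t := ‖p (z0 + ρ * z)‖ + ‖q (z0 + ρ * z)‖) (by positivity) (by positivity)
        simp only [h4]
        rw [Real.norm_eq_abs, abs_of_nonneg]
        · exact h5
        · apply div_nonneg (by positivity)
          apply Real.rpow_nonneg
          apply Real.log_nonneg
          have : 0 ≤ ρ * (‖p (z0 + ρ * z)‖ + ‖q (z0 + ρ * z)‖) := by positivity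
          have := Real.one_le_exp (x := 1) zero_le_one
          linarith
  have hγ : 0 ≤ c * b := by positivity
  have hγb : c * b < b := by nlinarith
  have hfin := local_thm hγ hγb hL
  have h6 : IntegrableOn (fun z : ℂ => ‖p (z0 + ρ * z)‖ ^ 2 - ‖q (z0 + ρ * z)‖ ^ 2)
      (Metric.ball 0 (1 / 16)) := by
    have h7 := hfin.const_mul ((ρ ^ 2)⁻¹)
    refine h7.congr (Filter.Eventually.of_forall fun z => ?_)
    simp only [norm_mul, Complex.norm_real, Real.norm_eq_abs, abs_of_pos hρ]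
    field_simp
  have h8 := (C11b_intOn (fun w => ‖p w‖ ^ 2 - ‖q w‖ ^ 2) z0 hρ (r := 1 / 16)).1 h6
  have h9 : ρ * (1 / 16) = ρ / 16 := by ring
  rwa [h9] at h8

end

end Pool.B2F
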