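import Pool.Agent.Lib.MP_b2f128_an.Base
import Pool.Agent.Lib.MP_b2f128_an.A02b
import Pool.Agent.Lib.MP_b2f128_an.C11a
import Pool.Agent.Lib.MP_b2f128_an.C11b

/-!
# MP_b2f128_an, part C11c (very weak solutions)
-/

open Complex MeasureTheory Set Filter Topology
open scoped ContDiff

namespace Pool.B2F

noncomputable section

/-- PROOF. `jac_near` at every point (`Ω` open); `log_bound` for the second claim. -/
theorem global_thm {Ω : Set ℂ} (hΩ : IsOpen Ω) {b c : ℝ} (hb : 0 < b) (hc : 0 < c) (hc1 : c < 1)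
    {f p q : ℂ → ℂ} {K : ℂ → ℝ} (hw : WeakOn Ω f p q) (hK : Measurable K) (hK1 : ∀ z, 1 ≤ K z)
    (hd : ∀ᵐ z, z ∈ Ω → (‖p z‖ + ‖q z‖) ^ 2 ≤ K z * (‖p z‖ ^ 2 - ‖q z‖ ^ 2))
    (he : LocallyIntegrableOn (fun z => Real.exp (b * K z)) Ω)
    (hg : LocallyIntegrableOn (fun z => (‖p z‖ + ‖q z‖) ^ 2 /
      Real.log (Real.exp 1 + (‖p z‖ + ‖q z‖)) ^ (1 + c * b)) Ω) :
    LocallyIntegrableOn (fun z => (‖p z‖ + ‖q z‖) ^ 2 /
      Real.log (Real.exp 1 + (‖p z‖ + ‖q z‖))) Ω ∧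
    LocallyIntegrableOn (fun z => ‖p z‖ ^ 2 - ‖q z‖ ^ 2) Ω := by
  -- every point has a good ball
  have hball : ∀ x ∈ Ω, ∃ r : ℝ, 0 < r ∧ Metric.ball x r ⊆ Ω ∧
      IntegrableOn (fun z => ‖p z‖ ^ 2 - ‖q z‖ ^ 2) (Metric.ball x r) := by
    intro x hx
    obtain ⟨ε, hε, hsub⟩ := Metric.isOpen_iff.1 hΩ x hx
    have hρ : 0 < min (ε / 4) 1 := by positivity
    have hρ4 : min (ε / 4) 1 ≤ ε / 4 := min_le_left _ _
    have hB : Metric.closedBall x (2 * min (ε / 4) 1) ⊆ Ω := by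
      intro z hz
      apply hsub
      rw [Metric.mem_closedBall] at hz
      rw [Metric.mem_ball]
      linarith
    have hint := jac_near hb hc hc1 hw hK hK1 hd he hg hρ (min_le_right _ _) hB
    refine ⟨min (ε / 4) 1 / 16, by positivity, ?_, hint⟩
    intro z hz
    apply hB
    rw [Metric.mem_ball] at hz
    rw [Metric.mem_closedBall]
    linarith
  have hsecond : LocallyIntegrableOn (fun z => ‖p z‖ ^ 2 - ‖q z‖ ^ 2) Ω := by
    intro x hx
    obtain ⟨r, hr, -, hint⟩ := hball x hx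
    exact ⟨Metric.ball x r, mem_nhdsWithin_of_mem_nhds (Metric.ball_mem_nhds x hr), hint⟩
  refine ⟨?_, hsecond⟩
  intro x hx
  obtain ⟨r, hr, hrΩ, hJ⟩ := hball x hx
  -- a neighbourhood where everything is integrable
  obtain ⟨U1, hU1, hE⟩ := he x hx
  obtain ⟨U2, hU2, hP⟩ := hw.intp x hx
  obtain ⟨U3, hU3, hQ⟩ := hw.intq x hx
  have hnh : 𝓝[Ω] x = 𝓝 x := hΩ.nhdsWithin_eq hx
  rw [hnh] at hU1 hU2 hU3
  obtain ⟨s, hs, hsU⟩ := Metric.mem_nhds_iff.1
    (Filter.inter_mem (Filter.inter_mem (Filter.inter_mem hU1 hU2) hU3)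
      (Metric.ball_mem_nhds x hr))
  refine ⟨Metric.ball x s, mem_nhdsWithin_of_mem_nhds (Metric.ball_mem_nhds x hs), ?_⟩
  have hE' := hE.mono_set (fun z hz => (hsU hz).1.1.1)
  have hP' := hP.mono_set (fun z hz => (hsU hz).1.1.2)
  have hQ' := hQ.mono_set (fun z hz => (hsU hz).1.2)
  have hJ' := hJ.mono_set (fun z hz => (hsU hz).2)
  have hdom : IntegrableOn (fun z => 4 / b * ((‖p z‖ ^ 2 - ‖q z‖ ^ 2) + Real.exp (b * K z)))
      (Metric.ball x s) := (hJ'.add hE').const_mul _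
  have hmeas : AEStronglyMeasurable (fun z => (‖p z‖ + ‖q z‖) ^ 2 /
      Real.log (Real.exp 1 + (‖p z‖ + ‖q z‖))) (volume.restrict (Metric.ball x s)) := by
    have hPm : AEMeasurable (fun z => ‖p z‖ + ‖q z‖) (volume.restrict (Metric.ball x s)) :=
      (hP'.aestronglyMeasurable.norm.add hQ'.aestronglyMeasurable.norm).aemeasurable
    have : AEMeasurable (fun z => (‖p z‖ + ‖q z‖) ^ 2 /
        Real.log (Real.exp 1 + (‖p z‖ + ‖q z‖))) (volume.restrict (Metric.ball x s)) :=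
      (hPm.pow_const 2).div (Real.measurable_log.comp_aemeasurable (hPm.const_add _))
    exact this.aestronglyMeasurable
  refine Integrable.mono' hdom hmeas ?_
  have hd' : ∀ᵐ z ∂(volume.restrict (Metric.ball x s)), z ∈ Ω →
      (‖p z‖ + ‖q z‖) ^ 2 ≤ K z * (‖p z‖ ^ 2 - ‖q z‖ ^ 2) := ae_restrict_of_ae hd
  filter_upwards [hd', ae_restrict_mem (measurableSet_ball (x := x) (ε := s))] with z hz hzb
  have hzΩ : z ∈ Ω := hrΩ (hsU hzb).2
  have hP0 : 0 ≤ ‖p z‖ + ‖q z‖ := by positivity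
  have hlog : 0 ≤ Real.log (Real.exp 1 + (‖p z‖ + ‖q z‖)) := by
    apply Real.log_nonneg
    have : 1 ≤ Real.exp 1 := Real.one_le_exp (by norm_num)
    linarith
  rw [Real.norm_of_nonneg (div_nonneg (by positivity) hlog)]
  exact log_bound hb (hK1 z) hP0 (hz hzΩ)

end

end Pool.B2F
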