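import Pool.Agent.Lib.MP_b2f128_an.Base
import Pool.Agent.Lib.MP_b2f128_an.A01a
import Pool.Agent.Lib.MP_b2f128_an.A02b
import Pool.Agent.Lib.MP_b2f128_an.B1a
import Pool.Agent.Lib.MP_b2f128_an.B1b
import Pool.Agent.Lib.MP_b2f128_an.B3
import Pool.Agent.Lib.MP_b2f128_an.B4a
import Pool.Agent.Lib.MP_b2f128_an.B4b
import Pool.Agent.Lib.MP_b2f128_an.B5
import Pool.Agent.Lib.MP_b2f128_an.B6
import Pool.Agent.Lib.MP_b2f128_an.C60

/-!
# MP_b2f128_an, part C6a (very weak solutions)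
-/

open Complex MeasureTheory Set Filter Topology
open scoped ContDiff

namespace Pool.B2F

noncomputable section

theorem C6a_dz_le (f : ℂ → ℂ) (z : ℂ) : ‖dz f z‖ ≤ ‖fderiv ℝ f z‖ := by
  rw [norm_fderiv]; linarith [norm_nonneg (dzb f z)]

theorem C6a_bel_le (u μ' : ℂ → ℂ) (z : ℂ) (h : ‖μ' z‖ < 1) :
    ‖dzb u z - μ' z * dz u z‖ ≤ ‖fderiv ℝ u z‖ := by
  rw [norm_fderiv]
  have h1 : ‖dzb u z - μ' z * dz u z‖ ≤ ‖dzb u z‖ + ‖μ' z * dz u z‖ := norm_sub_le _ _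
  have h2 : ‖μ' z * dz u z‖ ≤ ‖dz u z‖ := by
    rw [norm_mul]
    exact mul_le_of_le_one_left (norm_nonneg _) h.le
  linarith

theorem C6a_cont_fd {u : ℂ → ℂ} (hu : ContDiff ℝ ∞ u) : Continuous (fderiv ℝ u) :=
  hu.continuous_fderiv (by simp)

theorem C6a_meas_dz (u : ℂ → ℂ) : Measurable (dz u) := by
  unfold dz
  have h1 : Measurable (fun z => fderiv ℝ u z 1) := measurable_fderiv_apply_const ℝ u 1
  have h2 : Measurable (fun z => fderiv ℝ u z I) := measurable_fderiv_apply_const ℝ u I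
  exact (h1.sub (h2.const_mul I)).div_const 2

theorem C6a_meas_dzb (u : ℂ → ℂ) : Measurable (dzb u) := by
  unfold dzb
  have h1 : Measurable (fun z => fderiv ℝ u z 1) := measurable_fderiv_apply_const ℝ u 1
  have h2 : Measurable (fun z => fderiv ℝ u z I) := measurable_fderiv_apply_const ℝ u I
  exact (h1.add (h2.const_mul I)).div_const 2

theorem C6a_cont_dz {u : ℂ → ℂ} (hu : ContDiff ℝ ∞ u) : Continuous (dz u) := by
  unfold dz
  have h := C6a_cont_fd hu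
  fun_prop

theorem C6a_cont_dzb {u : ℂ → ℂ} (hu : ContDiff ℝ ∞ u) : Continuous (dzb u) := by
  unfold dzb
  have h := C6a_cont_fd hu
  fun_prop

theorem C6a_bdd {E : Type*} [NormedAddCommGroup E] {f : ℂ → E} (hf : Continuous f) (r : ℝ) :
    ∃ D : ℝ, 0 ≤ D ∧ ∀ z ∈ Metric.ball (0 : ℂ) r, ‖f z‖ ≤ D := by
  obtain ⟨D, hD⟩ := (isCompact_closedBall (0 : ℂ) r).exists_bound_of_continuousOn hf.continuousOn
  exact ⟨max D 0, le_max_right _ _, fun z hz =>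
    (hD z (Metric.ball_subset_closedBall hz)).trans (le_max_left _ _)⟩

theorem C6a_fin (r : ℝ) : volume (Metric.ball (0 : ℂ) r) < ⊤ := measure_ball_lt_top

theorem C6a_int_bdd {f : ℂ → ℝ} (hf : Measurable f) {r D : ℝ}
    (hD : ∀ z ∈ Metric.ball (0 : ℂ) r, ‖f z‖ ≤ D) : IntegrableOn f (Metric.ball (0 : ℂ) r) :=
  Measure.integrableOn_of_bounded (C6a_fin r).ne hf.aestronglyMeasurable
    (by
      filter_upwards [ae_restrict_mem measurableSet_ball] with z hz using hD z hz)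

theorem C6a_int_cont {E : Type*} [NormedAddCommGroup E] {f : ℂ → E} (hf : Continuous f) (r : ℝ) :
    IntegrableOn f (Metric.ball (0 : ℂ) r) :=
  (hf.continuousOn.integrableOn_compact (isCompact_closedBall (0 : ℂ) r)).mono_set
    Metric.ball_subset_closedBall

theorem C6a_tend_dz {u0 : ℂ → ℂ} {w : ℕ → ℂ → ℂ} {x : ℂ}
    (h : Tendsto (fun n => fderiv ℝ (w n) x) atTop (𝓝 (fderiv ℝ u0 x))) :
    Tendsto (fun n => dz (w n) x) atTop (𝓝 (dz u0 x)) := by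
  unfold dz
  have e : ∀ c : ℂ, Tendsto (fun n => fderiv ℝ (w n) x c) atTop (𝓝 (fderiv ℝ u0 x c)) := by
    intro c
    exact ((ContinuousLinearMap.apply ℝ ℂ c).continuous.tendsto _).comp h
  exact ((e 1).sub ((e I).const_mul I)).div_const 2

theorem C6a_tend_dzb {u0 : ℂ → ℂ} {w : ℕ → ℂ → ℂ} {x : ℂ}
    (h : Tendsto (fun n => fderiv ℝ (w n) x) atTop (𝓝 (fderiv ℝ u0 x))) :
    Tendsto (fun n => dzb (w n) x) atTop (𝓝 (dzb u0 x)) := by
  unfold dzb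
  have e : ∀ c : ℂ, Tendsto (fun n => fderiv ℝ (w n) x c) atTop (𝓝 (fderiv ℝ u0 x c)) := by
    intro c
    exact ((ContinuousLinearMap.apply ℝ ℂ c).continuous.tendsto _).comp h
  exact ((e 1).add ((e I).const_mul I)).div_const 2

theorem C6a_lim1 {u0 : ℂ → ℂ} {w : ℕ → ℂ → ℂ} {L : ℝ}
    (hL : ∀ n x, ‖fderiv ℝ (w n) x‖ ≤ L)
    (hlim : ∀ᵐ x, Tendsto (fun n => fderiv ℝ (w n) x) atTop (𝓝 (fderiv ℝ u0 x)))
    {μ' F : ℂ → ℂ} (hF : ContDiff ℝ ∞ F) (hμ : Continuous μ') (hμ1 : ∀ z, ‖μ' z‖ < 1) (r : ℝ) :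
    Tendsto (fun n => ∫ z in Metric.ball (0 : ℂ) r, ‖(dzb (w n) z - μ' z * dz (w n) z) * dz F z‖)
      atTop (𝓝 (∫ z in Metric.ball (0 : ℂ) r, ‖(dzb u0 z - μ' z * dz u0 z) * dz F z‖)) := by
  refine tendsto_integral_of_dominated_convergence (fun z => L * ‖fderiv ℝ F z‖) ?_ ?_ ?_ ?_
  · intro n
    exact ((((C6a_meas_dzb (w n)).sub (hμ.measurable.mul (C6a_meas_dz (w n)))).mul
      (C6a_meas_dz F)).norm).aestronglyMeasurable
  · exact C6a_int_cont (continuous_const.mul (C6a_cont_fd hF).norm) r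
  · intro n
    refine Eventually.of_forall fun z => ?_
    rw [norm_norm, norm_mul]
    exact mul_le_mul ((C6a_bel_le _ _ _ (hμ1 z)).trans (hL n z)) (C6a_dz_le _ _) (norm_nonneg _)
      ((norm_nonneg _).trans (hL n z))
  · refine (ae_restrict_of_ae hlim).mono fun z hz => ?_
    exact (((C6a_tend_dzb hz).sub ((C6a_tend_dz hz).const_mul (μ' z))).mul_const (dz F z)).norm

theorem C6a_lim2 {u0 : ℂ → ℂ} {w : ℕ → ℂ → ℂ} {L : ℝ} (hw : ∀ n, ContDiff ℝ ∞ (w n))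
    (hL : ∀ n x, ‖fderiv ℝ (w n) x‖ ≤ L)
    (hlim : ∀ᵐ x, Tendsto (fun n => fderiv ℝ (w n) x) atTop (𝓝 (fderiv ℝ u0 x))) (r : ℝ) :
    Tendsto (fun n => ∫ z in Metric.ball (0 : ℂ) r, ‖fderiv ℝ (w n) z‖ ^ (6 / 5 : ℝ))
      atTop (𝓝 (∫ z in Metric.ball (0 : ℂ) r, ‖fderiv ℝ u0 z‖ ^ (6 / 5 : ℝ))) := by
  refine tendsto_integral_of_dominated_convergence (fun z => L ^ (6 / 5 : ℝ)) ?_ ?_ ?_ ?_
  · intro n
    exact (((C6a_cont_fd (hw n)).norm.rpow_const (fun z => Or.inr (by norm_num)))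
      ).measurable.aestronglyMeasurable
  · exact C6a_int_cont continuous_const r
  · intro n
    refine Eventually.of_forall fun z => ?_
    rw [Real.norm_of_nonneg (Real.rpow_nonneg (norm_nonneg _) _)]
    exact Real.rpow_le_rpow (norm_nonneg _) (hL n z) (by norm_num)
  · refine (ae_restrict_of_ae hlim).mono fun z hz => ?_
    exact hz.norm.rpow_const (Or.inr (by norm_num))

/-- the first estimate for the limit function -/
theorem C6a_est1 {u0 v p q μ μ' F : ℂ → ℂ} {B : Set ℂ} {L Λ D : ℝ}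
    (hB : MeasurableSet B) (hL : 0 ≤ L) (hΛ : 0 ≤ Λ) (hD : 0 ≤ D)
    (hF : ContDiff ℝ ∞ F) (hDF : ∀ z ∈ Metric.ball (0 : ℂ) 1, ‖fderiv ℝ F z‖ ≤ D)
    (hμ' : Continuous μ') (hμ1 : ∀ z, ‖μ' z‖ < 1) (hμ : Measurable μ) (hμ2 : ∀ z, ‖μ z‖ < 1)
    (hv : ContDiff ℝ ∞ v) (hp : IntegrableOn p (Metric.ball 0 2))
    (hq : IntegrableOn q (Metric.ball 0 2))
    (hfd : ∀ᵐ z, ‖fderiv ℝ u0 z‖ ≤ L)
    (heq : ∀ᵐ z, z ∈ Metric.ball (0 : ℂ) (3 / 4) → q z = μ z * p z)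
    (hs : ∀ᵐ z, z ∈ Metric.ball (0 : ℂ) (3 / 4) \ B → fderiv ℝ u0 z = fderiv ℝ v z)
    (hvB : ∀ z ∈ Metric.ball (0 : ℂ) 1, z ∉ B → ‖fderiv ℝ v z‖ ≤ Λ) :
    ∫ z in Metric.ball (0 : ℂ) (1 / 2), ‖(dzb u0 z - μ' z * dz u0 z) * dz F z‖ ≤
      D * ((∫ z in Metric.ball (0 : ℂ) 1, ‖dz v z - p z‖) +
        ∫ z in Metric.ball (0 : ℂ) 1, ‖dzb v z - q z‖) +
      (Λ * (∫ z in Metric.ball (0 : ℂ) 1, ‖μ' z - μ z‖ * ‖fderiv ℝ F z‖) +
        L * ∫ z in Metric.ball 0 1 ∩ B, ‖fderiv ℝ F z‖) := by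
  have hsub12 : Metric.ball (0 : ℂ) 1 ⊆ Metric.ball 0 2 := Metric.ball_subset_ball (by norm_num)
  have hsubh : Metric.ball (0 : ℂ) (1 / 2) ⊆ Metric.ball 0 1 :=
    Metric.ball_subset_ball (by norm_num)
  have hsub34 : Metric.ball (0 : ℂ) (1 / 2) ⊆ Metric.ball 0 (3 / 4) :=
    Metric.ball_subset_ball (by norm_num)
  have i1 : IntegrableOn (fun z => ‖dz v z - p z‖) (Metric.ball 0 1) :=
    ((C6a_int_cont (C6a_cont_dz hv) 1).sub (hp.mono_set hsub12)).norm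
  have i2 : IntegrableOn (fun z => ‖dzb v z - q z‖) (Metric.ball 0 1) :=
    ((C6a_int_cont (C6a_cont_dzb hv) 1).sub (hq.mono_set hsub12)).norm
  have i3 : IntegrableOn (fun z => ‖μ' z - μ z‖ * ‖fderiv ℝ F z‖) (Metric.ball 0 1) := by
    refine C6a_int_bdd (D := 2 * D) ?_ ?_
    · exact ((hμ'.measurable.sub hμ).norm).mul (C6a_cont_fd hF).norm.measurable
    · intro z hz
      rw [norm_mul, norm_norm, norm_norm]
      refine mul_le_mul ?_ (hDF z hz) (norm_nonneg _) (by norm_num)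
      have := norm_sub_le (μ' z) (μ z)
      linarith [hμ1 z, hμ2 z]
  have i4 : IntegrableOn (fun z => B.indicator (fun z => ‖fderiv ℝ F z‖) z) (Metric.ball 0 1) := by
    refine C6a_int_bdd (D := D) ?_ ?_
    · exact (C6a_cont_fd hF).norm.measurable.indicator hB
    · intro z hz
      by_cases hz' : z ∈ B
      · rw [indicator_of_mem hz', norm_norm]
        exact hDF z hz
      · rw [indicator_of_notMem hz', norm_zero]
        exact hD
  set M : ℂ → ℝ := fun z => D * (‖dz v z - p z‖ + ‖dzb v z - q z‖) +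
    (Λ * (‖μ' z - μ z‖ * ‖fderiv ℝ F z‖) + L * B.indicator (fun z => ‖fderiv ℝ F z‖) z) with hM
  have iM : IntegrableOn M (Metric.ball 0 1) :=
    ((i1.add i2).const_mul D).add ((i3.const_mul Λ).add (i4.const_mul L))
  have hM0 : ∀ z, 0 ≤ M z := by
    intro z
    have : 0 ≤ B.indicator (fun z => ‖fderiv ℝ F z‖) z :=
      indicator_nonneg (fun _ _ => norm_nonneg _) _
    simp only [hM]
    positivity
  have hmain : ∀ᵐ z ∂(volume.restrict (Metric.ball (0 : ℂ) (1 / 2))),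
      ‖(dzb u0 z - μ' z * dz u0 z) * dz F z‖ ≤ M z := by
    filter_upwards [ae_restrict_of_ae hfd, ae_restrict_of_ae heq, ae_restrict_of_ae hs,
      ae_restrict_mem measurableSet_ball] with z h1 h2 h3 hz
    rw [norm_mul]
    by_cases hzB : z ∈ B
    · have h4 : ‖dzb u0 z - μ' z * dz u0 z‖ * ‖dz F z‖ ≤ L * ‖fderiv ℝ F z‖ :=
        mul_le_mul ((C6a_bel_le _ _ _ (hμ1 z)).trans h1) (C6a_dz_le _ _) (norm_nonneg _) hL
      have h5 : 0 ≤ D * (‖dz v z - p z‖ + ‖dzb v z - q z‖) := by positivity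
      have h6 : 0 ≤ Λ * (‖μ' z - μ z‖ * ‖fderiv ℝ F z‖) := by positivity
      simp only [hM]
      rw [indicator_of_mem hzB]
      linarith
    · have h7 := h3 ⟨hsub34 hz, hzB⟩
      have e1 : dzb u0 z = dzb v z := by unfold dzb; rw [h7]
      have e2 : dz u0 z = dz v z := by unfold dz; rw [h7]
      have e3 : dzb v z - μ' z * dz v z =
          (dzb v z - q z) - μ z * (dz v z - p z) - (μ' z - μ z) * dz v z := by
        rw [h2 (hsub34 hz)]; ring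
      have h8 : ‖dzb v z - μ' z * dz v z‖ ≤
          ‖dzb v z - q z‖ + ‖dz v z - p z‖ + ‖μ' z - μ z‖ * Λ := by
        rw [e3]
        refine (norm_sub_le _ _).trans ?_
        refine add_le_add ((norm_sub_le _ _).trans (add_le_add le_rfl ?_)) ?_
        · rw [norm_mul]
          exact mul_le_of_le_one_left (norm_nonneg _) (hμ2 z).le
        · rw [norm_mul]
          exact mul_le_mul_of_nonneg_left ((C6a_dz_le _ _).trans (hvB z (hsubh hz) hzB))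
            (norm_nonneg _)
      have h9 : ‖dz F z‖ ≤ ‖fderiv ℝ F z‖ := C6a_dz_le _ _
      have h10 : ‖fderiv ℝ F z‖ ≤ D := hDF z (hsubh hz)
      rw [e1, e2]
      simp only [hM]
      rw [indicator_of_notMem hzB]
      calc ‖dzb v z - μ' z * dz v z‖ * ‖dz F z‖
          ≤ (‖dzb v z - q z‖ + ‖dz v z - p z‖ + ‖μ' z - μ z‖ * Λ) * ‖fderiv ℝ F z‖ :=
            mul_le_mul h8 h9 (norm_nonneg _) (by positivity)
        _ = ‖fderiv ℝ F z‖ * (‖dz v z - p z‖ + ‖dzb v z - q z‖) +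
            (Λ * (‖μ' z - μ z‖ * ‖fderiv ℝ F z‖) + L * 0) := by ring
        _ ≤ D * (‖dz v z - p z‖ + ‖dzb v z - q z‖) +
            (Λ * (‖μ' z - μ z‖ * ‖fderiv ℝ F z‖) + L * 0) := by
            gcongr
  have step1 : ∫ z in Metric.ball (0 : ℂ) (1 / 2), ‖(dzb u0 z - μ' z * dz u0 z) * dz F z‖ ≤
      ∫ z in Metric.ball (0 : ℂ) (1 / 2), M z := by
    refine integral_mono_of_nonneg (Eventually.of_forall fun z => norm_nonneg _)
      (iM.mono_set hsubh) hmain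
  have step2 : ∫ z in Metric.ball (0 : ℂ) (1 / 2), M z ≤ ∫ z in Metric.ball (0 : ℂ) 1, M z :=
    setIntegral_mono_set iM (Eventually.of_forall fun z => hM0 z) hsubh.eventuallyLE
  have step3 : ∫ z in Metric.ball (0 : ℂ) 1, M z =
      D * ((∫ z in Metric.ball (0 : ℂ) 1, ‖dz v z - p z‖) +
        ∫ z in Metric.ball (0 : ℂ) 1, ‖dzb v z - q z‖) +
      (Λ * (∫ z in Metric.ball (0 : ℂ) 1, ‖μ' z - μ z‖ * ‖fderiv ℝ F z‖) +
        L * ∫ z in Metric.ball 0 1 ∩ B, ‖fderiv ℝ F z‖) := by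
    have j1 : IntegrableOn (fun z => D * (‖dz v z - p z‖ + ‖dzb v z - q z‖)) (Metric.ball 0 1) :=
      (i1.add i2).const_mul D
    have j2 : IntegrableOn (fun z => Λ * (‖μ' z - μ z‖ * ‖fderiv ℝ F z‖)) (Metric.ball 0 1) :=
      i3.const_mul Λ
    have j3 : IntegrableOn (fun z => L * B.indicator (fun z => ‖fderiv ℝ F z‖) z)
      (Metric.ball 0 1) := i4.const_mul L
    have j4 : IntegrableOn (fun z => Λ * (‖μ' z - μ z‖ * ‖fderiv ℝ F z‖) +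
      L * B.indicator (fun z => ‖fderiv ℝ F z‖) z) (Metric.ball 0 1) := j2.add j3
    simp only [hM]
    rw [integral_add j1 j4, integral_add j2 j3, integral_const_mul, integral_const_mul,
      integral_const_mul, integral_add i1 i2, setIntegral_indicator hB]
  linarith

/-- the second estimate for the limit function -/
theorem C6a_est2 {u0 v : ℂ → ℂ} {h : ℂ → ℝ} {B : Set ℂ} {L : ℝ}
    (hB : MeasurableSet B) (hBf : volume B ≠ ⊤) (hL : 0 ≤ L)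
    (hfd : ∀ᵐ z, ‖fderiv ℝ u0 z‖ ≤ L) (h0 : ∀ z, 0 ≤ h z)
    (hi : Integrable (fun z => h z ^ (6 / 5 : ℝ)))
    (hs : ∀ᵐ z, z ∈ Metric.ball (0 : ℂ) (3 / 4) \ B → fderiv ℝ u0 z = fderiv ℝ v z)
    (hvB : ∀ z ∈ Metric.ball (0 : ℂ) 1, ‖fderiv ℝ v z‖ ≤ h z) :
    ∫ z in Metric.ball (0 : ℂ) (1 / 2), ‖fderiv ℝ u0 z‖ ^ (6 / 5 : ℝ) ≤
      (∫ z, h z ^ (6 / 5 : ℝ)) + L ^ (6 / 5 : ℝ) * (volume B).toReal := by
  have hsubh : Metric.ball (0 : ℂ) (1 / 2) ⊆ Metric.ball 0 1 :=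
    Metric.ball_subset_ball (by norm_num)
  have hsub34 : Metric.ball (0 : ℂ) (1 / 2) ⊆ Metric.ball 0 (3 / 4) :=
    Metric.ball_subset_ball (by norm_num)
  have iB : Integrable (fun z => B.indicator (fun _ => L ^ (6 / 5 : ℝ)) z) :=
    (integrable_indicator_iff hB).2 (integrableOn_const hBf)
  have iM : Integrable (fun z => h z ^ (6 / 5 : ℝ) + B.indicator (fun _ => L ^ (6 / 5 : ℝ)) z) :=
    hi.add iB
  have hM0 : ∀ z, 0 ≤ h z ^ (6 / 5 : ℝ) + B.indicator (fun _ => L ^ (6 / 5 : ℝ)) z := fun z =>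
    add_nonneg (Real.rpow_nonneg (h0 z) _)
      (indicator_nonneg (fun _ _ => Real.rpow_nonneg hL _) _)
  have hmain : ∀ᵐ z ∂(volume.restrict (Metric.ball (0 : ℂ) (1 / 2))),
      ‖fderiv ℝ u0 z‖ ^ (6 / 5 : ℝ) ≤
        h z ^ (6 / 5 : ℝ) + B.indicator (fun _ => L ^ (6 / 5 : ℝ)) z := by
    filter_upwards [ae_restrict_of_ae hfd, ae_restrict_of_ae hs,
      ae_restrict_mem measurableSet_ball] with z h1 h3 hz
    by_cases hzB : z ∈ B
    · rw [indicator_of_mem hzB]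
      have h4 : ‖fderiv ℝ u0 z‖ ^ (6 / 5 : ℝ) ≤ L ^ (6 / 5 : ℝ) :=
        Real.rpow_le_rpow (norm_nonneg _) h1 (by norm_num)
      linarith [Real.rpow_nonneg (h0 z) (6 / 5 : ℝ)]
    · rw [indicator_of_notMem hzB, add_zero, h3 ⟨hsub34 hz, hzB⟩]
      exact Real.rpow_le_rpow (norm_nonneg _) (hvB z (hsubh hz)) (by norm_num)
  calc ∫ z in Metric.ball (0 : ℂ) (1 / 2), ‖fderiv ℝ u0 z‖ ^ (6 / 5 : ℝ)
      ≤ ∫ z in Metric.ball (0 : ℂ) (1 / 2),
          (h z ^ (6 / 5 : ℝ) + B.indicator (fun _ => L ^ (6 / 5 : ℝ)) z) :=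
        integral_mono_of_nonneg
          (Eventually.of_forall fun z => Real.rpow_nonneg (norm_nonneg _) _)
          iM.integrableOn hmain
    _ ≤ ∫ z, (h z ^ (6 / 5 : ℝ) + B.indicator (fun _ => L ^ (6 / 5 : ℝ)) z) :=
        setIntegral_le_integral iM (Eventually.of_forall hM0)
    _ = (∫ z, h z ^ (6 / 5 : ℝ)) + L ^ (6 / 5 : ℝ) * (volume B).toReal := by
        rw [integral_add hi iB, integral_indicator_const _ hB]
        simp only [Measure.real, smul_eq_mul]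
        ring

theorem Loc.trunc_beltrami : ∃ CT : ℝ, 1 ≤ CT ∧ ∀ (b γ : ℝ) (f p q μ : ℂ → ℂ), 0 ≤ γ → Loc b γ f p q μ →
    ∀ (i : ℕ) (ε : ℝ), 0 < ε → ∀ (μ' F : ℂ → ℂ), ContDiff ℝ ∞ F → Continuous μ' →
    (∀ z, ‖μ' z‖ < 1) →
    ∃ u : ℂ → ℂ, ContDiff ℝ ∞ u ∧
      (∫ z in Metric.ball (0 : ℂ) (1 / 2), ‖(dzb u z - μ' z * dz u z) * dz F z‖ ≤
        ε + CT * 2 ^ i * ((∫ z in Metric.ball 0 1 ∩ Bad (grad p q) (2 ^ i), ‖fderiv ℝ F z‖) +
          ∫ z in Metric.ball (0 : ℂ) 1, ‖μ' z - μ z‖ * ‖fderiv ℝ F z‖)) ∧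
      (∫ z in Metric.ball (0 : ℂ) (1 / 2), ‖fderiv ℝ u z‖ ^ (6 / 5 : ℝ) ≤
        ε + CT * ((∫ z, grad p q z ^ (6 / 5 : ℝ)) +
          (2 : ℝ) ^ (6 / 5 * (i : ℝ)) * (volume (Bad (grad p q) (2 ^ i))).toReal)) ∧
      ∃ v : ℂ → ℂ, Continuous v ∧ (∫ z in Metric.ball (0 : ℂ) (3 / 4), ‖v z - f z‖ ≤ ε) ∧
        ∃ u0 : ℂ → ℂ, (∀ x y, ‖u0 x - u0 y‖ ≤ CT * 2 ^ i * ‖x - y‖) ∧
          (∀ x ∈ Metric.ball (0 : ℂ) (3 / 4), x ∉ Bad (grad p q) (2 ^ i) → u0 x = v x) ∧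
          ∀ x, ‖u x - u0 x‖ ≤ ε := by
  obtain ⟨C0, hC0, hlip⟩ := lip_off_bad_ball
  set C1 : ℝ := 2 * (C0 * 64) with hC1
  have hC1p : 0 < C1 := by positivity
  set CT : ℝ := 64 + C1 + C1 ^ (6 / 5 : ℝ) with hCT
  have hr0 : 0 ≤ C1 ^ (6 / 5 : ℝ) := Real.rpow_nonneg hC1p.le _
  have hCT1 : 64 ≤ CT := by rw [hCT]; linarith
  have hCT2 : C1 ≤ CT := by rw [hCT]; linarith
  have hCT3 : C1 ^ (6 / 5 : ℝ) ≤ CT := by rw [hCT]; linarith
  refine ⟨CT, by linarith, ?_⟩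
  intro b γ f p q μ hγ hloc i ε hε μ' F hF hμ' hμ1
  obtain ⟨hgi, hg0, hg65, -⟩ := Loc.grad_int hγ hloc
  set g := grad p q with hg
  set Λ : ℝ := 2 ^ i with hΛ
  have hΛp : 0 < Λ := by positivity
  set B := Bad g Λ with hBdef
  have hB : MeasurableSet B := bad_measurable hgi Λ
  have hBf : volume B ≠ ⊤ := ne_top_of_le_ne_top ENNReal.ofReal_ne_top (bad_weak hgi hg0 hΛp)
  obtain ⟨D, hD, hDF⟩ := C6a_bdd (C6a_cont_fd hF) 1
  set ε' : ℝ := ε / (4 * (D + 1)) with hε'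
  have hε'p : 0 < ε' := by positivity
  have hε'1 : D * (ε' + ε') ≤ ε / 2 := by
    rw [hε', ← add_div, mul_div_assoc', div_le_iff₀ (by positivity)]
    nlinarith
  have hε'2 : ε' ≤ ε := by
    rw [hε', div_le_iff₀ (by positivity)]
    nlinarith
  obtain ⟨v, h, hv, hhi, hh0, hvh, hvf, hvp, hvq, hbad, hh64, hh65, hh65'⟩ :=
    mollify_weak hloc.weak (g := g) (by rw [hg]; rfl) hg65 hε'p
  have hvd : Differentiable ℝ v := hv.differentiable (by simp)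
  set s : Set ℂ := Metric.ball (0 : ℂ) (3 / 4) \ B with hs
  have hsm : MeasurableSet s := measurableSet_ball.diff hB
  have hLs : ∀ x ∈ s, ∀ y ∈ s, ‖v x - v y‖ ≤ C0 * (64 * Λ) * ‖x - y‖ := by
    intro x hx y hy
    exact hlip v h (hv.of_le (by norm_cast)) hhi hh0 hvh (64 * Λ) x y (by positivity) hx.1 hy.1
      (fun hc => hx.2 (hbad Λ hΛp hc)) (fun hc => hy.2 (hbad Λ hΛp hc))
  obtain ⟨u0, hu0, hu0s⟩ := exists_lip_ext' (L := C0 * (64 * Λ)) (by positivity) hLs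
  have hL1 : 2 * (C0 * (64 * Λ)) = C1 * Λ := by rw [hC1]; ring
  rw [hL1] at hu0
  have hLp : 0 ≤ C1 * Λ := by positivity
  obtain ⟨w, hw, hwu, hwL, hwlim⟩ := lip_mollify hLp hu0
  have hfd : ∀ᵐ z, ‖fderiv ℝ u0 z‖ ≤ C1 * Λ := by
    filter_upwards [hwlim] with z hz
    exact le_of_tendsto hz.norm (Eventually.of_forall fun n => hwL n z)
  have hsfd : ∀ᵐ z, z ∈ s → fderiv ℝ u0 z = fderiv ℝ v z := by
    filter_upwards [ae_fderiv_eq hu0 hvd hsm hu0s] with z hz hzs using (hz hzs).2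
  have hE1 := C6a_est1 (u0 := u0) (v := v) (p := p) (q := q) (μ := μ) (μ' := μ') (F := F)
    (B := B) (L := C1 * Λ) (Λ := 64 * Λ) (D := D) hB hLp (by positivity) hD hF hDF hμ' hμ1
    hloc.meas hloc.lt hv hloc.weak.inta hloc.weak.intb hfd hloc.eq hsfd
    (fun z hz hzB => (hvh z hz).trans (hh64 Λ z hΛp hzB))
  have hE2 := C6a_est2 (u0 := u0) (v := v) (h := h) (B := B) (L := C1 * Λ) hB hBf hLp hfd hh0
    hh65 hsfd hvh
  have hT1 := C6a_lim1 hwL hwlim hF hμ' hμ1 (1 / 2)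
  have hT2 := C6a_lim2 hw hwL hwlim (1 / 2)
  have hT3 : Tendsto (fun n : ℕ => C1 * Λ / ((n : ℝ) + 1)) atTop (𝓝 0) := by
    have := (tendsto_one_div_add_atTop_nhds_zero_nat (𝕜 := ℝ)).const_mul (C1 * Λ)
    simpa [div_eq_mul_inv] using this
  have ev1 := hT1.eventually_le_const (lt_add_of_pos_right _ (half_pos hε))
  have ev2 := hT2.eventually_le_const (lt_add_of_pos_right _ hε)
  have ev3 := hT3.eventually_le_const hε
  obtain ⟨n, hn1, hn2, hn3⟩ := (ev1.and (ev2.and ev3)).exists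
  have hIB0 : 0 ≤ ∫ z in Metric.ball 0 1 ∩ B, ‖fderiv ℝ F z‖ :=
    integral_nonneg fun z => norm_nonneg _
  have hIμ0 : 0 ≤ ∫ z in Metric.ball (0 : ℂ) 1, ‖μ' z - μ z‖ * ‖fderiv ℝ F z‖ :=
    integral_nonneg fun z => by positivity
  have hIg0 : 0 ≤ ∫ z, g z ^ (6 / 5 : ℝ) := integral_nonneg fun z => Real.rpow_nonneg (hg0 z) _
  refine ⟨w n, hw n, ?_, ?_, v, hv.continuous, ?_, u0, ?_, ?_, ?_⟩
  · have a1 : D * ((∫ z in Metric.ball (0 : ℂ) 1, ‖dz v z - p z‖) +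
        ∫ z in Metric.ball (0 : ℂ) 1, ‖dzb v z - q z‖) ≤ D * (ε' + ε') :=
      mul_le_mul_of_nonneg_left (add_le_add hvp hvq) hD
    have a2 : 64 * Λ * (∫ z in Metric.ball (0 : ℂ) 1, ‖μ' z - μ z‖ * ‖fderiv ℝ F z‖) ≤
        CT * Λ * (∫ z in Metric.ball (0 : ℂ) 1, ‖μ' z - μ z‖ * ‖fderiv ℝ F z‖) := by
      gcongr
    have a3 : C1 * Λ * (∫ z in Metric.ball 0 1 ∩ B, ‖fderiv ℝ F z‖) ≤
        CT * Λ * (∫ z in Metric.ball 0 1 ∩ B, ‖fderiv ℝ F z‖) := by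
      gcongr
    rw [mul_add]
    linarith
  · have b1 : (C1 * Λ) ^ (6 / 5 : ℝ) = C1 ^ (6 / 5 : ℝ) * (2 : ℝ) ^ (6 / 5 * (i : ℝ)) := by
      rw [Real.mul_rpow hC1p.le hΛp.le, hΛ, ← Real.rpow_natCast 2 i, ← Real.rpow_mul (by norm_num)]
      congr 2
      ring
    have b2 : (C1 * Λ) ^ (6 / 5 : ℝ) * (volume B).toReal ≤
        CT * ((2 : ℝ) ^ (6 / 5 * (i : ℝ)) * (volume B).toReal) := by
      rw [b1, mul_assoc]
      exact mul_le_mul_of_nonneg_right hCT3 (by positivity)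
    have b3 : ∫ z, g z ^ (6 / 5 : ℝ) ≤ CT * ∫ z, g z ^ (6 / 5 : ℝ) :=
      le_mul_of_one_le_left hIg0 (by linarith)
    rw [mul_add]
    linarith
  · have c1 : IntegrableOn (fun z => ‖v z - f z‖) (Metric.ball 0 1) :=
      ((C6a_int_cont hv.continuous 1).sub
        (hloc.weak.intf.mono_set (Metric.ball_subset_ball (by norm_num)))).norm
    have c2 : ∫ z in Metric.ball (0 : ℂ) (3 / 4), ‖v z - f z‖ ≤
        ∫ z in Metric.ball (0 : ℂ) 1, ‖v z - f z‖ :=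
      setIntegral_mono_set c1 (Eventually.of_forall fun z => norm_nonneg _)
        (Metric.ball_subset_ball (by norm_num)).eventuallyLE
    linarith
  · intro x y
    refine (hu0 x y).trans ?_
    gcongr
  · intro x hx hxB
    exact hu0s x ⟨hx, hxB⟩
  · intro x
    exact (hwu n x).trans hn3

end

end Pool.B2F
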