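import Pool.Agent.Lib.MP_b2f128_an.BaseD

/-!
# MP_b2f128_an, part D1 (transfer)
-/

open Complex MeasureTheory Set Filter Topology
open scoped ContDiff

namespace Pool.B2F

noncomputable section

theorem det_eq (A : Matrix (Fin 2) (Fin 2) ℝ) : A.det = ‖mz A‖ ^ 2 - ‖mzb A‖ ^ 2 := by
  rw [Matrix.det_fin_two, Complex.sq_norm, Complex.sq_norm, Complex.normSq_apply,
    Complex.normSq_apply]
  simp only [mz, mzb]
  ring

/-- the complex number of a vector -/
def D1_ph (h : EuclideanSpace ℝ (Fin 2)) : ℂ := ⟨h 0, h 1⟩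

theorem D1_norm_ph (h : EuclideanSpace ℝ (Fin 2)) : ‖D1_ph h‖ = ‖h‖ := by
  rw [EuclideanSpace.norm_eq, Fin.sum_univ_two, Complex.norm_def, Complex.normSq_apply]
  congr 1
  simp only [D1_ph, Real.norm_eq_abs, sq_abs]
  ring

theorem D1_ph_apply (A : Matrix (Fin 2) (Fin 2) ℝ) (h : EuclideanSpace ℝ (Fin 2)) :
    D1_ph (Matrix.toEuclideanCLM (n := Fin 2) (𝕜 := ℝ) A h) =
      mz A * D1_ph h + mzb A * (starRingEnd ℂ) (D1_ph h) := by
  have h0 : (Matrix.toEuclideanCLM (n := Fin 2) (𝕜 := ℝ) A h) 0 = A 0 0 * h 0 + A 0 1 * h 1 := by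
    have := congrFun (Matrix.ofLp_toEuclideanCLM (𝕜 := ℝ) A h) 0
    rw [this]
    simp [Matrix.mulVec, dotProduct, Fin.sum_univ_two]
  have h1 : (Matrix.toEuclideanCLM (n := Fin 2) (𝕜 := ℝ) A h) 1 = A 1 0 * h 0 + A 1 1 * h 1 := by
    have := congrFun (Matrix.ofLp_toEuclideanCLM (𝕜 := ℝ) A h) 1
    rw [this]
    simp [Matrix.mulVec, dotProduct, Fin.sum_univ_two]
  apply Complex.ext
  · simp only [D1_ph, mz, mzb, h0, Complex.add_re, Complex.mul_re, Complex.conj_re,
      Complex.conj_im]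
    ring
  · simp only [D1_ph, mz, mzb, h1, Complex.add_im, Complex.mul_im, Complex.conj_re,
      Complex.conj_im]
    ring

/-- PROOF: in complex notation `A` is `h ↦ mz A * h + mzb A * conj h`; `ℂ ≃ₗᵢ[ℝ] EuclideanSpace ℝ (Fin 2)` (`Complex.orthonormalBasisOneI`). -/
theorem opn_eq (A : Matrix (Fin 2) (Fin 2) ℝ) : opn A = ‖mz A‖ + ‖mzb A‖ := by
  apply le_antisymm
  · unfold opn
    refine ContinuousLinearMap.opNorm_le_bound _ (by positivity) fun h => ?_
    rw [← D1_norm_ph, D1_ph_apply, ← D1_norm_ph h]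
    refine (norm_add_le _ _).trans ?_
    rw [norm_mul, norm_mul, Complex.norm_conj]
    exact le_of_eq (by ring)
  · set th : ℝ := (arg (mzb A) - arg (mz A)) / 2 with hth
    set z : ℂ := Complex.exp (th * I) with hz
    have hz1 : ‖z‖ = 1 := by rw [hz, Complex.norm_exp_ofReal_mul_I]
    set h : EuclideanSpace ℝ (Fin 2) := WithLp.toLp 2 ![z.re, z.im] with hh
    have hph : D1_ph h = z := by
      apply Complex.ext <;> simp [D1_ph, hh]
    have hn : ‖h‖ = 1 := by rw [← D1_norm_ph, hph, hz1]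
    have hconj : (starRingEnd ℂ) z = Complex.exp (-(th * I)) := by
      rw [hz, ← Complex.exp_conj]
      congr 1
      simp
    have key : mz A * z + mzb A * (starRingEnd ℂ) z =
        ((‖mz A‖ + ‖mzb A‖ : ℝ) : ℂ) * Complex.exp (((arg (mzb A) + arg (mz A)) / 2 : ℝ) * I) := by
      rw [hconj, hz]
      conv_lhs => rw [← Complex.norm_mul_exp_arg_mul_I (mz A), ← Complex.norm_mul_exp_arg_mul_I (mzb A)]
      rw [mul_assoc, mul_assoc, ← Complex.exp_add, ← Complex.exp_add]
      have e1 : (arg (mz A) : ℂ) * I + (th : ℂ) * I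
          = (((arg (mzb A) + arg (mz A)) / 2 : ℝ) : ℂ) * I := by
        rw [hth]; push_cast; ring
      have e2 : (arg (mzb A) : ℂ) * I + -((th : ℂ) * I)
          = (((arg (mzb A) + arg (mz A)) / 2 : ℝ) : ℂ) * I := by
        rw [hth]; push_cast; ring
      rw [e1, e2]
      push_cast
      ring
    have hval : ‖Matrix.toEuclideanCLM (n := Fin 2) (𝕜 := ℝ) A h‖ = ‖mz A‖ + ‖mzb A‖ := by
      rw [← D1_norm_ph, D1_ph_apply, hph, key, norm_mul, Complex.norm_exp_ofReal_mul_I, mul_one,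
        Complex.norm_real, Real.norm_eq_abs, abs_of_nonneg (by positivity)]
    have := (Matrix.toEuclideanCLM (n := Fin 2) (𝕜 := ℝ) A).le_opNorm h
    rw [hn, mul_one, hval] at this
    exact this

theorem mz_mat (p q : ℂ) : mz (mat p q) = p ∧ mzb (mat p q) = q := by
  constructor
  · apply Complex.ext
    · simp [mz, mat]
    · simp [mz, mat]
      ring
  · apply Complex.ext
    · simp [mzb, mat]
    · simp [mzb, mat]
      ring

end

end Pool.B2F
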