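import Pool.Agent.Lib.MP_b2f128_an.BaseD
import Pool.Agent.Lib.MP_b2f128_an.A02b
import Pool.Agent.Lib.MP_b2f128_an.C0b

/-!
# MP_b2f128_an, part D2a (transfer)
-/

open Complex MeasureTheory Set Filter Topology
open scoped ContDiff

namespace Pool.B2F

noncomputable section

abbrev E2 := EuclideanSpace ℝ (Fin 2)

theorem d2_mp : MeasurePreserving (eE : ℂ → E2) volume volume :=
  LinearIsometryEquiv.measurePreserving eE

theorem d2_me : MeasurableEmbedding (eE : ℂ → E2) :=
  eE.toHomeomorph.measurableEmbedding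

theorem d2_loc {Ω : Set E2} {g : E2 → ℝ} (hg : LocallyIntegrableOn g Ω) :
    LocallyIntegrableOn (fun z => ((g (eE z) : ℝ) : ℂ)) (eE ⁻¹' Ω) := by
  intro x hx
  obtain ⟨U, hU, hgU⟩ := hg (eE x) hx
  refine ⟨eE ⁻¹' U, ?_, ?_⟩
  · have ht : Tendsto (eE : ℂ → E2) (𝓝[eE ⁻¹' Ω] x) (𝓝[Ω] (eE x)) := by
      apply tendsto_nhdsWithin_of_tendsto_nhds_of_eventually_within
      · exact (eE.continuous.tendsto x).mono_left nhdsWithin_le_nhds
      · exact eventually_mem_nhdsWithin
    exact ht hU
  · have := (d2_mp.integrableOn_comp_preimage (f := g) (s := U) d2_me).2 hgU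
    exact this.ofReal

theorem d2_int {g ψ : ℂ → ℂ} {U : Set ℂ} (hg : LocallyIntegrableOn g U) (hψ : Cc U ψ) :
    Integrable (fun z => g z * ψ z) := by
  have h1 : IntegrableOn g (tsupport ψ) := hg.integrableOn_compact_subset hψ.sub hψ.cpt
  have h2 : IntegrableOn (fun z => g z * ψ z) (tsupport ψ) :=
    h1.mul_continuousOn hψ.smooth.continuous.continuousOn hψ.cpt
  rw [← integrableOn_iff_integrable_of_support_subset (s := tsupport ψ)]
  · exact h2
  · intro z hz
    by_contra hzn
    apply hz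
    simp only
    rw [image_eq_zero_of_notMem_tsupport hzn, mul_zero]

theorem d2_cc {U : Set ℂ} {φ : ℂ → ℂ} (h : Cc U φ) (v : ℂ) :
    Cc U (fun z => fderiv ℝ φ z v) := by
  refine ⟨?_, ?_, ?_⟩
  · have : ContDiff ℝ ∞ (fderiv ℝ φ) := h.smooth.fderiv_right (by simp)
    exact this.clm_apply contDiff_const
  · exact h.cpt.fderiv_apply ℝ v
  · exact (tsupport_fderiv_apply_subset ℝ v).trans h.sub

theorem d2_basis (j : Fin 2) : eE (![1, I] j) = EuclideanSpace.single j 1 := by
  have : (![1, I] : Fin 2 → ℂ) j = Complex.orthonormalBasisOneI j := by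
    rw [Complex.coe_orthonormalBasisOneI]
  rw [this]
  exact OrthonormalBasis.repr_self _ _

/-- the weak identity with a complex test function, one real component of the test function -/
theorem d2_real {Ω : Set E2} {f : E2 → Fin 2 → ℝ} {D : E2 → Matrix (Fin 2) (Fin 2) ℝ}
    (h : IsWeakDiff Ω f D) (L : ℂ →L[ℝ] ℝ) {φ : ℂ → ℂ} (hφ : Cc (eE ⁻¹' Ω) φ) (i j : Fin 2) :
    ∫ z, f (eE z) i * L (fderiv ℝ φ z (![1, I] j)) = -∫ z, D (eE z) i j * L (φ z) := by
  set χ : E2 → ℝ := fun x => L (φ (eE.symm x)) with hχ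
  have hs : ContDiff ℝ ∞ χ := by
    have h1 : ContDiff ℝ ∞ (fun x : E2 => φ (eE.symm x)) :=
      hφ.smooth.comp eE.symm.contDiff
    exact L.contDiff.comp h1
  have hts : tsupport χ ⊆ eE '' tsupport φ := by
    apply closure_minimal
    · intro x hx
      refine ⟨eE.symm x, ?_, by simp⟩
      by_contra hn
      apply hx
      simp only [hχ]
      rw [image_eq_zero_of_notMem_tsupport hn, map_zero]
    · exact (eE.toHomeomorph.isClosedMap) _ (isClosed_tsupport φ)
  have hc : HasCompactSupport χ := by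
    apply HasCompactSupport.of_support_subset_isCompact (K := eE '' tsupport φ)
    · exact hφ.cpt.isCompact.image eE.continuous
    · exact (subset_tsupport χ).trans hts
  have hsub : tsupport χ ⊆ Ω := by
    intro x hx
    obtain ⟨z, hz, rfl⟩ := hts hx
    exact hφ.sub hz
  have hw := h.weak χ hs hc hsub i j
  have e1 : ∫ x, f x i * fderiv ℝ χ x (EuclideanSpace.single j 1) =
      ∫ z, f (eE z) i * L (fderiv ℝ φ z (![1, I] j)) := by
    rw [← d2_mp.integral_comp d2_me]
    congr 1
    ext z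
    congr 1
    have hd : HasFDerivAt χ (L.comp ((fderiv ℝ φ z).comp
        (eE.symm.toContinuousLinearEquiv : E2 →L[ℝ] ℂ))) (eE z) := by
      have h1 : HasFDerivAt (fun x : E2 => eE.symm x)
          (eE.symm.toContinuousLinearEquiv : E2 →L[ℝ] ℂ) (eE z) :=
        eE.symm.toContinuousLinearEquiv.hasFDerivAt
      have h2 : HasFDerivAt φ (fderiv ℝ φ z) (eE.symm (eE z)) := by
        rw [LinearIsometryEquiv.symm_apply_apply]
        exact (hφ.smooth.differentiable (by simp)).differentiableAt.hasFDerivAt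
      exact L.hasFDerivAt.comp _ (h2.comp _ h1)
    rw [hd.fderiv, ← d2_basis j]
    simp
  have e2 : ∫ x, D x i j * χ x = ∫ z, D (eE z) i j * L (φ z) := by
    rw [← d2_mp.integral_comp d2_me]
    congr 1
    ext z
    simp [hχ]
  rw [← e1, ← e2]
  exact hw

theorem d2_cplx {Ω : Set E2} {f : E2 → Fin 2 → ℝ} {D : E2 → Matrix (Fin 2) (Fin 2) ℝ}
    (h : IsWeakDiff Ω f D) {φ : ℂ → ℂ} (hφ : Cc (eE ⁻¹' Ω) φ) (i j : Fin 2) :
    ∫ z, ((f (eE z) i : ℝ) : ℂ) * fderiv ℝ φ z (![1, I] j) =
      -∫ z, ((D (eE z) i j : ℝ) : ℂ) * φ z := by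
  have i1 := d2_int (d2_loc (h.intf i)) (d2_cc hφ (![1, I] j))
  have i2 := d2_int (d2_loc (h.intD i j)) hφ
  apply Complex.ext
  · have hr := d2_real h reCLM hφ i j
    have a1 := reCLM.integral_comp_comm i1
    have a2 := reCLM.integral_comp_comm i2
    rw [neg_re]
    change reCLM _ = -reCLM _
    rw [← a1, ← a2]
    simpa using hr
  · have hr := d2_real h imCLM hφ i j
    have a1 := imCLM.integral_comp_comm i1
    have a2 := imCLM.integral_comp_comm i2
    rw [neg_im]
    change imCLM _ = -imCLM _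
    rw [← a1, ← a2]
    simpa using hr

/-- D2a. PROOF. `eE` is measure preserving (`LinearIsometryEquiv.measurePreserving`) and a homeomorphism. Test functions: real and imaginary parts of `φ ∘ eE.symm`. -/
theorem weakOn_of {Ω : Set (EuclideanSpace ℝ (Fin 2))} {f : EuclideanSpace ℝ (Fin 2) → Fin 2 → ℝ}
    {D : EuclideanSpace ℝ (Fin 2) → Matrix (Fin 2) (Fin 2) ℝ} (h : IsWeakDiff Ω f D) :
    WeakOn (eE ⁻¹' Ω) (fun z => ⟨f (eE z) 0, f (eE z) 1⟩) (fun z => mz (D (eE z)))
      (fun z => mzb (D (eE z))) := by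
  have l0 := d2_loc (h.intf 0)
  have l1 := d2_loc (h.intf 1)
  have lD := fun i j => d2_loc (h.intD i j)
  have hmk : ∀ a b : ℝ, (⟨a, b⟩ : ℂ) = a + b * I := fun a b => by
    apply Complex.ext <;> simp
  have hmul : ∀ {g : ℂ → ℂ} (c : ℂ), LocallyIntegrableOn g (eE ⁻¹' Ω) →
      LocallyIntegrableOn (fun z => g z * c) (eE ⁻¹' Ω) := by
    intro g c hg x hx
    obtain ⟨U, hU, hgU⟩ := hg x hx
    exact ⟨U, hU, hgU.mul_const c⟩
  refine ⟨?_, ?_, ?_, ?_, ?_⟩
  · have := l0.add (hmul I l1)
    refine this.congr (ae_of_all _ ?_) |>.mono_set subset_rfl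
    intro z
    simp [hmk]
  · have := ((hmul (1 / 2) (lD 0 0)).add (hmul (1 / 2) (lD 1 1))).add
      ((hmul (I / 2) (lD 1 0)).add (hmul (-I / 2) (lD 0 1)))
    refine this.congr (ae_of_all _ ?_)
    intro z
    simp only [Pi.add_apply, mz, hmk]
    push_cast
    ring
  · have := ((hmul (1 / 2) (lD 0 0)).add (hmul (-1 / 2) (lD 1 1))).add
      ((hmul (I / 2) (lD 1 0)).add (hmul (I / 2) (lD 0 1)))
    refine this.congr (ae_of_all _ ?_)
    intro z
    simp only [Pi.add_apply, mzb, hmk]
    push_cast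
    ring
  · intro φ hφ
    have w := fun i j => d2_cplx h hφ i j
    have i0 := fun j => d2_int l0 (d2_cc hφ (![1, I] j))
    have i1 := fun j => d2_int l1 (d2_cc hφ (![1, I] j))
    have iD := fun i j => d2_int (lD i j) hφ
    have w00 := w 0 0
    have w01 := w 0 1
    have w10 := w 1 0
    have w11 := w 1 1
    have i00 := i0 0
    have i01 := i0 1
    have i10 := i1 0
    have i11 := i1 1
    simp only [Matrix.cons_val_zero, Matrix.cons_val_one] at w00 w01 w10 w11 i00 i01 i10 i11
    have e1 : ∫ z, (⟨f (eE z) 0, f (eE z) 1⟩ : ℂ) * dz φ z =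
        ∫ z, ((1 / 2) * (((f (eE z) 0 : ℝ) : ℂ) * fderiv ℝ φ z 1) +
          (-I / 2) * (((f (eE z) 0 : ℝ) : ℂ) * fderiv ℝ φ z I)) +
          ((I / 2) * (((f (eE z) 1 : ℝ) : ℂ) * fderiv ℝ φ z 1) +
          (1 / 2) * (((f (eE z) 1 : ℝ) : ℂ) * fderiv ℝ φ z I)) := by
      congr 1
      ext z
      simp only [hmk, dz]
      linear_combination (-(f (eE z) 1 : ℂ) * fderiv ℝ φ z I / 2) * I_mul_I
    have e2 : ∫ z, mz (D (eE z)) * φ z =
        ∫ z, ((1 / 2) * (((D (eE z) 0 0 : ℝ) : ℂ) * φ z) +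
          (-I / 2) * (((D (eE z) 0 1 : ℝ) : ℂ) * φ z)) +
          ((I / 2) * (((D (eE z) 1 0 : ℝ) : ℂ) * φ z) +
          (1 / 2) * (((D (eE z) 1 1 : ℝ) : ℂ) * φ z)) := by
      congr 1
      ext z
      simp only [hmk, mz]
      push_cast
      ring
    rw [e1, e2, integral_add, integral_add, integral_add, integral_add, integral_add, integral_add,
      integral_const_mul, integral_const_mul, integral_const_mul, integral_const_mul,
      integral_const_mul, integral_const_mul, integral_const_mul, integral_const_mul,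
      w00, w01, w10, w11]
    · ring
    · exact (iD 1 0).const_mul _
    · exact (iD 1 1).const_mul _
    · exact (iD 0 0).const_mul _
    · exact (iD 0 1).const_mul _
    · exact ((iD 0 0).const_mul _).add ((iD 0 1).const_mul _)
    · exact ((iD 1 0).const_mul _).add ((iD 1 1).const_mul _)
    · exact i10.const_mul _
    · exact i11.const_mul _
    · exact i00.const_mul _
    · exact i01.const_mul _
    · exact (i00.const_mul _).add (i01.const_mul _)
    · exact (i10.const_mul _).add (i11.const_mul _)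
  · intro φ hφ
    have w := fun i j => d2_cplx h hφ i j
    have i0 := fun j => d2_int l0 (d2_cc hφ (![1, I] j))
    have i1 := fun j => d2_int l1 (d2_cc hφ (![1, I] j))
    have iD := fun i j => d2_int (lD i j) hφ
    have w00 := w 0 0
    have w01 := w 0 1
    have w10 := w 1 0
    have w11 := w 1 1
    have i00 := i0 0
    have i01 := i0 1
    have i10 := i1 0
    have i11 := i1 1
    simp only [Matrix.cons_val_zero, Matrix.cons_val_one] at w00 w01 w10 w11 i00 i01 i10 i11
    have e1 : ∫ z, (⟨f (eE z) 0, f (eE z) 1⟩ : ℂ) * dzb φ z =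
        ∫ z, ((1 / 2) * (((f (eE z) 0 : ℝ) : ℂ) * fderiv ℝ φ z 1) +
          (I / 2) * (((f (eE z) 0 : ℝ) : ℂ) * fderiv ℝ φ z I)) +
          ((I / 2) * (((f (eE z) 1 : ℝ) : ℂ) * fderiv ℝ φ z 1) +
          (-1 / 2) * (((f (eE z) 1 : ℝ) : ℂ) * fderiv ℝ φ z I)) := by
      congr 1
      ext z
      simp only [hmk, dzb]
      linear_combination ((f (eE z) 1 : ℂ) * fderiv ℝ φ z I / 2) * I_mul_I
    have e2 : ∫ z, mzb (D (eE z)) * φ z =
        ∫ z, ((1 / 2) * (((D (eE z) 0 0 : ℝ) : ℂ) * φ z) +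
          (I / 2) * (((D (eE z) 0 1 : ℝ) : ℂ) * φ z)) +
          ((I / 2) * (((D (eE z) 1 0 : ℝ) : ℂ) * φ z) +
          (-1 / 2) * (((D (eE z) 1 1 : ℝ) : ℂ) * φ z)) := by
      congr 1
      ext z
      simp only [hmk, mzb]
      push_cast
      ring
    rw [e1, e2, integral_add, integral_add, integral_add, integral_add, integral_add, integral_add,
      integral_const_mul, integral_const_mul, integral_const_mul, integral_const_mul,
      integral_const_mul, integral_const_mul, integral_const_mul, integral_const_mul,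
      w00, w01, w10, w11]
    · ring
    · exact (iD 1 0).const_mul _
    · exact (iD 1 1).const_mul _
    · exact (iD 0 0).const_mul _
    · exact (iD 0 1).const_mul _
    · exact ((iD 0 0).const_mul _).add ((iD 0 1).const_mul _)
    · exact ((iD 1 0).const_mul _).add ((iD 1 1).const_mul _)
    · exact i10.const_mul _
    · exact i11.const_mul _
    · exact i00.const_mul _
    · exact i01.const_mul _
    · exact (i00.const_mul _).add (i01.const_mul _)
    · exact (i10.const_mul _).add (i11.const_mul _)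

end

end Pool.B2F
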