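import Pool.Agent.Lib.MP_b2f128_an.BaseD
import Pool.Agent.Lib.MP_b2f128_an.C11c
import Pool.Agent.Lib.MP_b2f128_an.D1
import Pool.Agent.Lib.MP_b2f128_an.D2a

/-!
# MP_b2f128_an, part D2b (transfer)
-/

open Complex MeasureTheory Set Filter Topology
open scoped ContDiff

namespace Pool.B2F

noncomputable section

theorem D2b_congr {X : Type} [TopologicalSpace X] [MeasurableSpace X] [BorelSpace X]
    [LocallyCompactSpace X] [T2Space X] {m : Measure X} {Ω : Set X} (hΩ : IsOpen Ω)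
    {g h : X → ℝ} (hgh : ∀ x ∈ Ω, g x = h x) (hg : LocallyIntegrableOn g Ω m) :
    LocallyIntegrableOn h Ω m := by
  rw [locallyIntegrableOn_iff hΩ.isLocallyClosed] at hg ⊢
  intro k hk hc
  exact (hg k hk hc).congr_fun (fun x hx => hgh x (hk hx)) hc.measurableSet

theorem D2b_loc {Ω : Set (EuclideanSpace ℝ (Fin 2))} (hΩ : IsOpen Ω)
    (g : EuclideanSpace ℝ (Fin 2) → ℝ) :
    LocallyIntegrableOn (fun z => g (eE z)) (eE ⁻¹' Ω) ↔ LocallyIntegrableOn g Ω := by
  have hΩ' : IsOpen (eE ⁻¹' Ω) := hΩ.preimage eE.continuous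
  have hmp : MeasurePreserving eE := eE.measurePreserving
  have hme : MeasurableEmbedding eE := eE.toHomeomorph.measurableEmbedding
  rw [locallyIntegrableOn_iff hΩ.isLocallyClosed, locallyIntegrableOn_iff hΩ'.isLocallyClosed]
  constructor
  · intro h k hk hc
    have h1 : IsCompact (eE ⁻¹' k) := eE.toHomeomorph.isCompact_preimage.mpr hc
    have h2 := h (eE ⁻¹' k) (preimage_mono hk) h1
    exact (hmp.integrableOn_comp_preimage hme).mp h2
  · intro h k hk hc
    have h1 : IsCompact (eE '' k) := hc.image eE.continuous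
    have h2 := h (eE '' k) (image_subset_iff.mpr hk) h1
    have h3 := (hmp.integrableOn_comp_preimage hme).mpr h2
    rw [preimage_image_eq k eE.injective] at h3
    exact h3

/-- D2b. PROOF. `weakOn_of`, `det_eq`, `opn_eq`, `K' z = max 1 (K (eE z))`, `global_thm` and back (local integrability is invariant under `eE`). -/
theorem PP_of_lt {c : ℝ} (hc : 0 < c) (hc1 : c < 1) : PP 2 c := by
  intro Ω hΩ β hβ f D K hD hK hK1 hineq hexp hlog
  have hΩ' : IsOpen (eE ⁻¹' Ω) := hΩ.preimage eE.continuous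
  have hmp : MeasurePreserving eE := eE.measurePreserving
  have hw := weakOn_of hD
  have hKm : Measurable fun z => max 1 (K (eE z)) :=
    measurable_const.max (hK.comp eE.continuous.measurable)
  have hKe : ∀ z ∈ eE ⁻¹' Ω, max 1 (K (eE z)) = K (eE z) := fun z hz => max_eq_right (hK1 _ hz)
  have hd : ∀ᵐ z, z ∈ eE ⁻¹' Ω → (‖mz (D (eE z))‖ + ‖mzb (D (eE z))‖) ^ 2 ≤
      max 1 (K (eE z)) * (‖mz (D (eE z))‖ ^ 2 - ‖mzb (D (eE z))‖ ^ 2) := by
    filter_upwards [hmp.quasiMeasurePreserving.ae hineq] with z hz hzΩ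
    rw [hKe z hzΩ, ← opn_eq, ← det_eq]
    exact hz hzΩ
  have he : LocallyIntegrableOn (fun z => Real.exp (β * max 1 (K (eE z)))) (eE ⁻¹' Ω) :=
    D2b_congr hΩ' (fun z hz => by rw [hKe z hz])
      ((D2b_loc hΩ fun x => Real.exp (β * K x)).mpr hexp)
  have hg : LocallyIntegrableOn (fun z => (‖mz (D (eE z))‖ + ‖mzb (D (eE z))‖) ^ 2 /
      Real.log (Real.exp 1 + (‖mz (D (eE z))‖ + ‖mzb (D (eE z))‖)) ^ (1 + c * β))
      (eE ⁻¹' Ω) := by
    simp only [← opn_eq]
    exact (D2b_loc hΩ fun x => opn (D x) ^ 2 /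
      Real.log (Real.exp 1 + opn (D x)) ^ (1 + c * β)).mpr hlog
  obtain ⟨h1, h2⟩ := global_thm hΩ' hβ hc hc1 hw hKm (fun z => le_max_left _ _) hd he hg
  simp only [← opn_eq] at h1
  simp only [← det_eq] at h2
  exact ⟨(D2b_loc hΩ fun x => opn (D x) ^ 2 / Real.log (Real.exp 1 + opn (D x))).mp h1,
    (D2b_loc hΩ fun x => (D x).det).mp h2⟩

end

end Pool.B2F
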