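import Pool.Agent.Lib.MP_b2f128_an.BaseE

/-!
# MP_b2f128_an, part E1a (the radial counterexample)
-/

open MeasureTheory Set Filter Topology
open scoped ContDiff

namespace Pool.B2F

noncomputable section

theorem E1a_prod_sg {n : ℕ} (hn : 1 ≤ n) : ∏ i : Fin n, sg i = -1 := by
  obtain ⟨m, rfl⟩ : ∃ m, n = m + 1 := ⟨n - 1, by omega⟩
  rw [Fin.prod_univ_succ]
  have h1 : sg (0 : Fin (m + 1)) = -1 := by simp [sg]
  have h2 : ∀ i : Fin m, sg i.succ = 1 := fun i => by simp [sg]
  rw [h1, Finset.prod_congr rfl fun i _ => h2 i]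
  simp

theorem E1a_sg_sq {n : ℕ} (i : Fin n) : sg i ^ 2 = 1 := by
  unfold sg
  split_ifs <;> norm_num

theorem E1a_mulVec {n : ℕ} (g h : ℝ) (x v : Fin n → ℝ) (i : Fin n) :
    (Matrix.mulVec (rmat g h x) v) i = sg i * (g * v i + h * x i * ∑ j, x j * v j) := by
  rw [Matrix.mulVec, dotProduct]
  have h1 : ∀ j, rmat g h x i j * v j =
      sg i * (g * ((if i = j then 1 else 0) * v j)) + sg i * (h * x i * (x j * v j)) := by
    intro j
    simp only [rmat, Matrix.of_apply]
    ring
  rw [Finset.sum_congr rfl fun j _ => h1 j, Finset.sum_add_distrib, ← Finset.mul_sum,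
    ← Finset.mul_sum, ← Finset.mul_sum, ← Finset.mul_sum]
  simp only [ite_mul, one_mul, zero_mul, Finset.sum_ite_eq, Finset.mem_univ, if_true]
  ring

theorem E1a_sq_sum {n : ℕ} (g h : ℝ) (x v : Fin n → ℝ) :
    ∑ i, (Matrix.mulVec (rmat g h x) v) i ^ 2 = g ^ 2 * ∑ i, v i ^ 2 +
      h * (2 * g + h * ∑ i, x i ^ 2) * (∑ j, x j * v j) ^ 2 := by
  set s : ℝ := ∑ j, x j * v j with hs
  have h1 : ∀ i, (Matrix.mulVec (rmat g h x) v) i ^ 2 =
      g ^ 2 * v i ^ 2 + 2 * g * h * s * (x i * v i) + h ^ 2 * s ^ 2 * x i ^ 2 := by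
    intro i
    rw [E1a_mulVec, mul_pow, E1a_sg_sq]
    ring
  rw [Finset.sum_congr rfl fun i _ => h1 i, Finset.sum_add_distrib, Finset.sum_add_distrib,
    ← Finset.mul_sum, ← Finset.mul_sum, ← Finset.mul_sum, ← hs]
  ring

theorem E1a_norm_sq {n : ℕ} (g h : ℝ) (x : Fin n → ℝ) (v : EuclideanSpace ℝ (Fin n)) :
    ‖Matrix.toEuclideanCLM (n := Fin n) (𝕜 := ℝ) (rmat g h x) v‖ ^ 2 = g ^ 2 * ‖v‖ ^ 2 +
      h * (2 * g + h * ∑ i, x i ^ 2) * (∑ j, x j * v j) ^ 2 := by
  rw [EuclideanSpace.real_norm_sq_eq, EuclideanSpace.real_norm_sq_eq]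
  exact E1a_sq_sum g h x (fun i => v i)

/-- PROOF. `rmat = diagonal sg * (g • (1 + (h/g) x xᵀ))`; `Matrix.det_diagonal`, `Matrix.det_smul`, `Matrix.det_one_add_replicateCol_mul_replicateRow`; the product of the signs is `-1`. -/
theorem det_rmat {n : ℕ} (hn : 1 ≤ n) {g : ℝ} (hg : g ≠ 0) (h : ℝ) (x : Fin n → ℝ) :
    (rmat g h x).det = -(g ^ (n - 1) * (g + h * ∑ i, x i ^ 2)) := by
  have h1 : rmat g h x = Matrix.diagonal sg *
      (g • (1 + Matrix.replicateCol Unit (fun i => h / g * x i) * Matrix.replicateRow Unit x)) := by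
    ext i j
    rw [Matrix.diagonal_mul]
    simp only [rmat, Matrix.of_apply, Matrix.smul_apply, Matrix.add_apply, Matrix.one_apply,
      Matrix.mul_apply, Matrix.replicateCol_apply, Matrix.replicateRow_apply, smul_eq_mul,
      Finset.univ_unique, Finset.sum_singleton]
    field_simp
  rw [h1, Matrix.det_mul, Matrix.det_diagonal, Matrix.det_smul,
    Matrix.det_one_add_replicateCol_mul_replicateRow, E1a_prod_sg hn, Fintype.card_fin]
  have h2 : x ⬝ᵥ (fun i => h / g * x i) = h / g * ∑ i, x i ^ 2 := by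
    rw [dotProduct, Finset.mul_sum]
    exact Finset.sum_congr rfl fun i _ => by ring
  rw [h2]
  obtain ⟨m, rfl⟩ : ∃ m, n = m + 1 := ⟨n - 1, by omega⟩
  rw [Nat.add_sub_cancel, pow_succ]
  field_simp

/-- PROOF. `S = g 1 + h x xᵀ` is multiplication by `g` on `x^⊥` and by `g + h |x|²` on the line through `x`; `‖S v‖² ≤ g² ‖v‖²` by the orthogonal decomposition of `v`, `σ` is an isometry; equality for a unit vector `v ⟂ x` (exists as `n ≥ 2`). -/
theorem opn_rmat {n : ℕ} (hn : 2 ≤ n) {g h : ℝ} (hg : 0 ≤ g) (x : Fin n → ℝ)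
    (h1 : |g + h * ∑ i, x i ^ 2| ≤ g) : opn (rmat g h x) = g := by
  have hq0 : 0 ≤ ∑ i, x i ^ 2 := Finset.sum_nonneg fun i _ => sq_nonneg _
  unfold opn
  apply le_antisymm
  · refine ContinuousLinearMap.opNorm_le_bound _ hg fun v => ?_
    refine abs_le_of_sq_le_sq' ?_ (by positivity) |>.2
    rw [E1a_norm_sq, mul_pow]
    have h2 : h * (2 * g + h * ∑ i, x i ^ 2) * (∑ j, x j * v j) ^ 2 ≤ 0 := by
      rcases hq0.eq_or_lt with hq | hq
      · have h3 : ∀ i, x i = 0 := by
          intro i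
          have := (Finset.sum_eq_zero_iff_of_nonneg (fun i _ => sq_nonneg (x i))).1 hq.symm i
            (Finset.mem_univ i)
          exact pow_eq_zero_iff (two_ne_zero) |>.1 this
        have h4 : ∑ j, x j * v j = 0 := Finset.sum_eq_zero fun j _ => by rw [h3 j, zero_mul]
        rw [h4]
        simp
      · obtain ⟨ha, hb⟩ := abs_le.1 h1
        have h3 : h * ∑ i, x i ^ 2 ≤ 0 := by linarith
        have h4 : h ≤ 0 := by
          by_contra hcon
          push Not at hcon
          have := mul_pos hcon hq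
          linarith
        have h5 : 0 ≤ 2 * g + h * ∑ i, x i ^ 2 := by linarith
        exact mul_nonpos_of_nonpos_of_nonneg (mul_nonpos_of_nonpos_of_nonneg h4 h5) (sq_nonneg _)
    linarith
  · obtain ⟨m, rfl⟩ : ∃ m, n = m + 2 := ⟨n - 2, by omega⟩
    obtain ⟨v, hv0, hv⟩ : ∃ v : EuclideanSpace ℝ (Fin (m + 2)), v ≠ 0 ∧ ∑ j, x j * v j = 0 := by
      by_cases hx : x 0 = 0
      · refine ⟨EuclideanSpace.single 0 1, ?_, ?_⟩
        · intro h
          have := congrArg (fun w : EuclideanSpace ℝ (Fin (m + 2)) => w 0) h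
          simp at this
        · rw [Finset.sum_eq_single 0]
          · rw [hx, zero_mul]
          · intro j _ hj
            simp [hj]
          · intro h; exact absurd (Finset.mem_univ _) h
      · refine ⟨EuclideanSpace.single 0 (x 1) - EuclideanSpace.single 1 (x 0), ?_, ?_⟩
        · intro h
          have := congrArg (fun w : EuclideanSpace ℝ (Fin (m + 2)) => w 1) h
          simp at this
          exact hx this
        · have h2 : ∀ j : Fin (m + 2), x j * (EuclideanSpace.single 0 (x 1) -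
              EuclideanSpace.single 1 (x 0) : EuclideanSpace ℝ (Fin (m + 2))) j =
              (if j = 0 then x 0 * x 1 else 0) - (if j = 1 then x 1 * x 0 else 0) := by
            intro j
            simp only [PiLp.sub_apply, PiLp.single_apply]
            split_ifs with h3 h4 h4
            · subst h3; simp at h4
            · subst h3; ring
            · subst h4; ring
            · ring
          rw [Finset.sum_congr rfl fun j _ => h2 j, Finset.sum_sub_distrib]
          simp
          ring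
    have h3 := E1a_norm_sq g h x v
    rw [hv] at h3
    have h4 : ‖Matrix.toEuclideanCLM (n := Fin (m + 2)) (𝕜 := ℝ) (rmat g h x) v‖ = g * ‖v‖ := by
      have h5 : ‖Matrix.toEuclideanCLM (n := Fin (m + 2)) (𝕜 := ℝ) (rmat g h x) v‖ ^ 2 =
          (g * ‖v‖) ^ 2 := by rw [h3, mul_pow]; ring
      exact (sq_eq_sq₀ (norm_nonneg _) (by positivity)).1 h5
    have h5 := ContinuousLinearMap.le_opNorm
      (Matrix.toEuclideanCLM (n := Fin (m + 2)) (𝕜 := ℝ) (rmat g h x)) v
    rw [h4] at h5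
    exact le_of_mul_le_mul_right h5 (norm_pos_iff.2 hv0)

end

end Pool.B2F
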