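import Pool.Agent.Lib.MP_b2f128_an.BaseE
import Pool.Agent.Lib.MP_b2f128_an.E1a

/-!
# MP_b2f128_an, part E1b (the radial counterexample)
-/

open MeasureTheory Set Filter Topology
open scoped ContDiff

namespace Pool.B2F

noncomputable section

/-- E1. PROOF. `det_rmat`, `opn_rmat` (`∑ x i ^ 2 = ‖x‖²`, `g + h ‖x‖² = ρ'`, `|ρ'| = s (A - log r)^(s-1)/r ≤ g` as `s ≤ A ≤ A - log r`); `K = g / |ρ'|`. -/
theorem fD_dist {n : ℕ} (hn : 2 ≤ n) {s A : ℝ} (hs : 0 < s) (hA : s ≤ A)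
    {x : EuclideanSpace ℝ (Fin n)} (hx : x ≠ 0) (hx1 : ‖x‖ < 1) :
    opn (fD s A x) = gq s A ‖x‖ ∧ (fD s A x).det = gq s A ‖x‖ ^ (n - 1) * (-dq s A ‖x‖) ∧
      0 < gq s A ‖x‖ ∧ opn (fD s A x) ^ n ≤ fK s A x * (fD s A x).det := by
  have hr : 0 < ‖x‖ := norm_pos_iff.mpr hx
  have hlog : Real.log ‖x‖ ≤ 0 := Real.log_nonpos hr.le hx1.le
  set r := ‖x‖ with hrdef
  set L := A - Real.log r with hL
  have hLs : s ≤ L := by rw [hL]; linarith
  have hL0 : 0 < L := lt_of_lt_of_le hs hLs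
  have hLp : 0 < L ^ (s - 1) := Real.rpow_pos_of_pos hL0 _
  have hLs1 : L ^ s = L * L ^ (s - 1) := by
    rw [← Real.rpow_one_add' hL0.le (by linarith)]
    congr 1; ring
  have hg : gq s A r = L * L ^ (s - 1) / r := by unfold gq; rw [← hL, hLs1]
  have hd : dq s A r = -(s * L ^ (s - 1)) / r := by unfold dq; rw [← hL]
  have hgpos : 0 < gq s A r := by rw [hg]; positivity
  have hdle : -dq s A r ≤ gq s A r := by
    rw [hg, hd, neg_div, neg_neg]
    gcongr
  have hdneg : dq s A r ≤ 0 := by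
    rw [hd, neg_div, neg_nonpos]
    positivity
  have hsum : ∑ i, x i ^ 2 = r ^ 2 := by
    rw [hrdef, EuclideanSpace.norm_sq_eq]
    simp
  have hkey : gq s A r + (dq s A r - gq s A r) / r ^ 2 * ∑ i, x i ^ 2 = dq s A r := by
    rw [hsum, div_mul_cancel₀ _ (pow_ne_zero 2 hr.ne')]
    ring
  have ho : opn (fD s A x) = gq s A r := by
    unfold fD
    refine opn_rmat hn hgpos.le _ ?_
    rw [← hrdef, hkey, abs_of_nonpos hdneg]
    exact hdle
  have hdet : (fD s A x).det = gq s A r ^ (n - 1) * (-dq s A r) := by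
    unfold fD
    rw [det_rmat (by omega) (by rw [← hrdef]; exact hgpos.ne'), ← hrdef, hkey]
    ring
  refine ⟨ho, hdet, hgpos, ?_⟩
  rw [ho, hdet]
  have hK : L / s ≤ fK s A x := by unfold fK; rw [← hrdef, ← hL]; exact le_max_right _ _
  have hgd : gq s A r = L / s * (-dq s A r) := by
    rw [hg, hd]
    field_simp
  calc gq s A r ^ n = gq s A r ^ (n - 1) * gq s A r := by
        rw [← pow_succ]; congr 1; omega
    _ = L / s * (gq s A r ^ (n - 1) * (-dq s A r)) := by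
        conv_lhs => rw [show gq s A r ^ (n - 1) * gq s A r =
          gq s A r ^ (n - 1) * (L / s * (-dq s A r)) from by rw [← hgd]]
        ring
    _ ≤ fK s A x * (gq s A r ^ (n - 1) * (-dq s A r)) := by
        refine mul_le_mul_of_nonneg_right hK ?_
        exact mul_nonneg (pow_nonneg hgpos.le _) (by linarith)

end

end Pool.B2F
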