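import Pool.Agent.Lib.MP_b2f128_an.BaseE

/-!
# MP_b2f128_an, part E2a (the radial counterexample)
-/

open MeasureTheory Set Filter Topology
open scoped ContDiff

namespace Pool.B2F

noncomputable section

/-- E2a. PROOF. `exp (fK) = (e^A / r)^(1/s)` on the ball (`A - log r ≥ s`), `integrable_fun_norm_addHaar`: `∫_0^1 r^(n - 1 - 1/s) dr < ∞`. -/
theorem fK_int {n : ℕ} (hn : 2 ≤ n) {s A : ℝ} (hs : 1 < n * s) (hA : s ≤ A) :
    Measurable (fK (n := n) s A) ∧
      IntegrableOn (fun x => Real.exp (fK (n := n) s A x)) (Metric.ball 0 1) := by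
  have hn0 : (0 : ℝ) < n := by
    have : 0 < n := by omega
    exact_mod_cast this
  have hs0 : 0 < s := by
    by_contra h
    push Not at h
    have : (n : ℝ) * s ≤ 0 := mul_nonpos_of_nonneg_of_nonpos hn0.le h
    linarith
  constructor
  · unfold fK
    fun_prop
  · haveI : Nonempty (Fin n) := ⟨⟨0, by omega⟩⟩
    have key := integrableOn_fun_norm_addHaar (E := EuclideanSpace ℝ (Fin n)) (r := 1)
      (volume : Measure (EuclideanSpace ℝ (Fin n)))
      (f := fun r : ℝ => Real.exp (max 1 ((A - Real.log r) / s)))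
    refine key.mpr ?_
    rw [finrank_euclideanSpace_fin]
    have hint : IntegrableOn (fun r : ℝ => Real.exp (A / s) * r ^ (((n : ℝ) - 1) - 1 / s))
        (Ioo 0 1) := by
      have h1 : IntegrableOn (fun r : ℝ => r ^ (((n : ℝ) - 1) - 1 / s)) (Ioo 0 1) := by
        have h2 : -1 < ((n : ℝ) - 1) - 1 / s := by
          have : 1 / s < n := by
            rw [div_lt_iff₀ hs0]
            exact hs
          linarith
        exact (intervalIntegral.integrableOn_Ioo_rpow_iff zero_lt_one).mpr h2
      exact h1.const_mul _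
    refine hint.congr_fun ?_ measurableSet_Ioo
    intro r hr
    have hr0 : 0 < r := hr.1
    have hr1 : r < 1 := hr.2
    have hlog : Real.log r < 0 := Real.log_neg hr0 hr1
    have h3 : 1 ≤ (A - Real.log r) / s := by
      rw [le_div_iff₀ hs0]
      linarith
    simp only [smul_eq_mul]
    rw [max_eq_right h3, sub_div, Real.exp_sub, Real.rpow_sub hr0, Real.rpow_def_of_pos hr0 (1 / s)]
    have h4 : r ^ ((n : ℝ) - 1) = r ^ (n - 1) := by
      rw [← Real.rpow_natCast]
      congr 1
      rw [Nat.cast_sub (by omega)]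
      simp
    rw [h4]
    have h5 : Real.log r * (1 / s) = Real.log r / s := by ring
    rw [h5]
    ring

end

end Pool.B2F
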