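import Pool.Agent.Lib.MP_b2f128_an.BaseE
import Pool.Agent.Lib.MP_b2f128_an.A02b

/-!
# MP_b2f128_an, part E2b (the radial counterexample)
-/

open MeasureTheory Set Filter Topology
open scoped ContDiff

namespace Pool.B2F

noncomputable section

/-- the antiderivative -/
def E2b_G (A p r : ℝ) : ℝ := if r ≤ 0 then 0 else (A - Real.log r) ^ (-p)

theorem E2b_int {A p : ℝ} (hA : 0 < A) (hp : 0 < p) :
    IntegrableOn (fun r => p * ((A - Real.log r) ^ (-p - 1) * r⁻¹)) (Ioc (0 : ℝ) 1) := by
  refine intervalIntegral.integrableOn_deriv_of_nonneg (g := E2b_G A p) ?_ ?_ ?_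
  · intro r hr
    by_cases h0 : r = 0
    · subst h0
      rw [ContinuousWithinAt]
      have h1 : E2b_G A p 0 = 0 := by simp [E2b_G]
      rw [h1]
      have h2 : Tendsto (fun r => (A - Real.log r) ^ (-p)) (𝓝[>] 0) (𝓝 0) := by
        apply (tendsto_rpow_neg_atTop hp).comp
        have h3 : Tendsto (fun r => -Real.log r) (𝓝[>] 0) atTop :=
          tendsto_neg_atBot_atTop.comp Real.tendsto_log_nhdsGT_zero
        exact tendsto_atTop_add_const_left _ A h3
      rw [Metric.tendsto_nhdsWithin_nhds] at h2 ⊢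
      intro ε hε
      obtain ⟨δ, hδ, h⟩ := h2 ε hε
      refine ⟨δ, hδ, fun x hx hd => ?_⟩
      unfold E2b_G
      split_ifs with hx0
      · simpa using hε
      · exact h (not_le.1 hx0) hd
    · have hr0 : 0 < r := lt_of_le_of_ne hr.1 (Ne.symm h0)
      have hL : 0 < A - Real.log r := by
        have := Real.log_nonpos hr0.le hr.2
        linarith
      apply ContinuousAt.continuousWithinAt
      have h1 : ContinuousAt (fun r => (A - Real.log r) ^ (-p)) r :=
        (continuousAt_const.sub (Real.continuousAt_log h0)).rpow_const (Or.inl hL.ne')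
      refine h1.congr ?_
      filter_upwards [lt_mem_nhds hr0] with x hx
      simp [E2b_G, not_le.2 hx]
  · intro r hr
    have hL : 0 < A - Real.log r := by
      have := Real.log_nonpos hr.1.le hr.2.le
      linarith
    have h1 : HasDerivAt (fun r => (A - Real.log r) ^ (-p)) ((-r⁻¹) * (-p) * (A - Real.log r) ^ (-p - 1)) r := by
      have h2 : HasDerivAt (fun r => A - Real.log r) (-r⁻¹) r := (Real.hasDerivAt_log hr.1.ne').const_sub A
      exact h2.rpow_const (Or.inl hL.ne')
    have h3 : HasDerivAt (E2b_G A p) ((-r⁻¹) * (-p) * (A - Real.log r) ^ (-p - 1)) r := by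
      refine h1.congr_of_eventuallyEq ?_
      filter_upwards [lt_mem_nhds hr.1] with x hx
      simp [E2b_G, not_le.2 hx]
    convert! h3 using 1
    ring
  · intro r hr
    have hL : 0 < A - Real.log r := by
      have := Real.log_nonpos hr.1.le hr.2.le
      linarith
    have := hr.1
    positivity

/-- the lower bound for the logarithm -/
theorem E2b_log {m A r : ℝ} (hm : 0 < m) (hA : 0 ≤ A) (hr : 0 < r) (hr1 : r < 1) {g : ℝ} (hg : m / r ≤ g) :
    A - Real.log r ≤ (1 + |Real.log m| + A) * Real.log (Real.exp 1 + g) := by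
  have hg0 : 0 < m / r := div_pos hm hr
  have hg1 : 0 < g := lt_of_lt_of_le hg0 hg
  have h1 : 1 ≤ Real.log (Real.exp 1 + g) := by
    rw [Real.le_log_iff_exp_le (by positivity)]
    linarith
  have h2 : Real.log m - Real.log r ≤ Real.log (Real.exp 1 + g) := by
    rw [← Real.log_div hm.ne' hr.ne']
    apply Real.log_le_log hg0
    have := Real.exp_pos 1
    linarith
  have h3 := neg_abs_le (Real.log m)
  have h4 : (0 : ℝ) ≤ (|Real.log m| + A) * (Real.log (Real.exp 1 + g) - 1) :=
    mul_nonneg (by positivity) (by linarith)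
  nlinarith

/-- E2b. PROOF. `log (e + g) ≥ c₁ (A - log r)` (`g ≥ c r^(-1)`), `integrable_fun_norm_addHaar`: `∫_0^1 (A - log r)^(n s - 1 - c) dr / r < ∞` (substitution `L = A - log r`, or the antiderivative `(A - log r)^(n s - c)/(c - n s)`). -/
theorem gq_int {n : ℕ} (hn : 2 ≤ n) {s A c : ℝ} (hs : 1 < n * s) (hA : s ≤ A) (hc : n * s < c) :
    IntegrableOn (fun x : EuclideanSpace ℝ (Fin n) => gq s A ‖x‖ ^ n /
      Real.log (Real.exp 1 + gq s A ‖x‖) ^ (1 + c)) (Metric.ball 0 1) := by
  have hn0 : (0 : ℝ) < n := by positivity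
  have hs0 : 0 < s := by
    by_contra h
    have : (n : ℝ) * s ≤ 0 := mul_nonpos_of_nonneg_of_nonpos hn0.le (not_lt.1 h)
    linarith
  have hA0 : 0 < A := lt_of_lt_of_le hs0 hA
  have hnt : Nontrivial (EuclideanSpace ℝ (Fin n)) := by
    have : Nontrivial (Fin n) := Fin.nontrivial_iff_two_le.2 hn
    infer_instance
  rw [integrableOn_fun_norm_addHaar volume (f := fun r => gq s A r ^ n /
    Real.log (Real.exp 1 + gq s A r) ^ (1 + c)), finrank_euclideanSpace_fin]
  set p : ℝ := c - n * s with hpdef
  have hp : 0 < p := by linarith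
  set m : ℝ := A ^ s with hm
  have hm0 : 0 < m := Real.rpow_pos_of_pos hA0 s
  set B : ℝ := 1 + |Real.log m| + A with hB
  have hB0 : 0 < B := by positivity
  have hc1 : 0 < 1 + c := by linarith
  have hint := ((E2b_int hA0 hp).mono_set Ioo_subset_Ioc_self).const_mul (B ^ (1 + c) / p)
  refine Integrable.mono' hint ?_ ?_
  · apply Measurable.aestronglyMeasurable
    simp only [smul_eq_mul]
    unfold gq
    have hl : Measurable fun r : ℝ => A - Real.log r := measurable_const.sub Real.measurable_log
    have hg : Measurable fun r : ℝ => (A - Real.log r) ^ s / r := (hl.pow_const s).div measurable_id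
    exact (measurable_id.pow_const (n - 1)).mul ((hg.pow_const n).div
      ((Real.measurable_log.comp (measurable_const.add hg)).pow_const (1 + c)))
  · rw [ae_restrict_iff' measurableSet_Ioo]
    refine Eventually.of_forall fun r hr => ?_
    have hr0 : 0 < r := hr.1
    have hlog := Real.log_nonpos hr0.le hr.2.le
    have hL : 0 < A - Real.log r := by linarith
    have hge : m / r ≤ gq s A r := by
      unfold gq
      apply div_le_div_of_nonneg_right _ hr0.le
      exact Real.rpow_le_rpow hA0.le (by linarith) hs0.le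
    have hg0 : 0 < gq s A r := lt_of_lt_of_le (div_pos hm0 hr0) hge
    have hlg := E2b_log hm0 hA0.le hr0 hr.2 hge
    rw [← hB] at hlg
    have hlp : 0 < Real.log (Real.exp 1 + gq s A r) := by
      by_contra hcon
      have : B * Real.log (Real.exp 1 + gq s A r) ≤ 0 :=
        mul_nonpos_of_nonneg_of_nonpos hB0.le (not_lt.1 hcon)
      linarith
    have h1 : (A - Real.log r) ^ (1 + c) ≤ B ^ (1 + c) * Real.log (Real.exp 1 + gq s A r) ^ (1 + c) := by
      rw [← Real.mul_rpow hB0.le hlp.le]
      exact Real.rpow_le_rpow hL.le hlg hc1.le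
    have hlpp : 0 < Real.log (Real.exp 1 + gq s A r) ^ (1 + c) := Real.rpow_pos_of_pos hlp _
    have hLp : 0 < (A - Real.log r) ^ (1 + c) := Real.rpow_pos_of_pos hL _
    have h2 : 1 / Real.log (Real.exp 1 + gq s A r) ^ (1 + c) ≤ B ^ (1 + c) / (A - Real.log r) ^ (1 + c) := by
      rw [div_le_div_iff₀ hlpp hLp, one_mul]
      exact h1
    have h3 : r ^ (n - 1) * gq s A r ^ n = (A - Real.log r) ^ (n * s) * r⁻¹ := by
      unfold gq
      rw [div_pow, ← Real.rpow_mul_natCast hL.le, mul_comm s (n : ℝ)]
      obtain ⟨k, rfl⟩ : ∃ k, n = k + 1 := ⟨n - 1, by omega⟩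
      rw [Nat.add_sub_cancel, pow_succ r k]
      field_simp
    have h4 : (A - Real.log r) ^ (n * s) / (A - Real.log r) ^ (1 + c) = (A - Real.log r) ^ (-p - 1) := by
      rw [← Real.rpow_sub hL]
      congr 1
      rw [hpdef]
      ring
    have hnn : 0 ≤ r ^ (n - 1) • (gq s A r ^ n / Real.log (Real.exp 1 + gq s A r) ^ (1 + c)) := by
      rw [smul_eq_mul]
      positivity
    rw [Real.norm_of_nonneg hnn, smul_eq_mul]
    calc r ^ (n - 1) * (gq s A r ^ n / Real.log (Real.exp 1 + gq s A r) ^ (1 + c))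
        = (r ^ (n - 1) * gq s A r ^ n) * (1 / Real.log (Real.exp 1 + gq s A r) ^ (1 + c)) := by ring
      _ ≤ (r ^ (n - 1) * gq s A r ^ n) * (B ^ (1 + c) / (A - Real.log r) ^ (1 + c)) := by
          apply mul_le_mul_of_nonneg_left h2
          positivity
      _ = B ^ (1 + c) * ((A - Real.log r) ^ (n * s) / (A - Real.log r) ^ (1 + c)) * r⁻¹ := by
          rw [h3]
          ring
      _ = B ^ (1 + c) / p * (p * ((A - Real.log r) ^ (-p - 1) * r⁻¹)) := by
          rw [h4]
          field_simp

end

end Pool.B2F
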