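import Pool.Agent.Lib.MP_b2f128_an.BaseE

/-!
# MP_b2f128_an, part E2c (the radial counterexample)
-/

open MeasureTheory Set Filter Topology
open scoped ContDiff

namespace Pool.B2F

noncomputable section

theorem E2c_aux1 {s A r : ℝ} (hs : 0 < s) (hA : 0 < A) (hr : 0 < r) (hr1 : r < Real.exp (-1)) :
    Real.log (Real.exp 1 + gq s A r) ≤ (s + 3) * (A - Real.log r) ∧
      1 ≤ A - Real.log r ∧ 0 < gq s A r := by
  have hl : Real.log r < -1 := by
    have := Real.log_lt_log hr hr1
    rwa [Real.log_exp] at this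
  have hL : 1 ≤ A - Real.log r := by linarith
  set L := A - Real.log r with hLdef
  have hr2 : r = Real.exp (A - L) := by
    rw [hLdef, sub_sub_cancel, Real.exp_log hr]
  have hg : gq s A r = L ^ s * Real.exp (L - A) := by
    unfold gq
    rw [← hLdef, div_eq_mul_inv]
    congr 1
    conv_lhs => rw [hr2]
    rw [← Real.exp_neg]
    congr 1
    ring
  have hLs : L ^ s ≤ Real.exp (s * L) := by
    have h1 : L ≤ Real.exp L := by
      have := Real.add_one_le_exp L
      linarith
    have h2 : L ^ s ≤ (Real.exp L) ^ s := Real.rpow_le_rpow (by linarith) h1 hs.le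
    rw [← Real.exp_mul] at h2
    rwa [mul_comm s L]
  have hgle : gq s A r ≤ Real.exp ((s + 1) * L) := by
    rw [hg]
    calc L ^ s * Real.exp (L - A) ≤ Real.exp (s * L) * Real.exp L := by
          apply mul_le_mul hLs _ (Real.exp_pos _).le (Real.exp_pos _).le
          exact Real.exp_le_exp.2 (by linarith)
      _ = Real.exp ((s + 1) * L) := by
          rw [← Real.exp_add]
          congr 1
          ring
  have hgpos : 0 < gq s A r := by
    rw [hg]
    exact mul_pos (Real.rpow_pos_of_pos (by linarith) _) (Real.exp_pos _)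
  refine ⟨?_, hL, hgpos⟩
  have h3 : Real.exp 1 + gq s A r ≤ Real.exp (2 + (s + 1) * L) := by
    have e1 : Real.exp (2 + (s + 1) * L) = Real.exp 1 * Real.exp 1 * Real.exp ((s + 1) * L) := by
      rw [← Real.exp_add, ← Real.exp_add]
      congr 1
      ring
    have e2 : (2 : ℝ) ≤ Real.exp 1 := by
      have := Real.add_one_le_exp (1 : ℝ)
      linarith
    have e3 : (1 : ℝ) ≤ Real.exp ((s + 1) * L) := by
      apply Real.one_le_exp
      positivity
    rw [e1]
    have e4 : Real.exp 1 * 1 ≤ Real.exp 1 * Real.exp ((s + 1) * L) :=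
      mul_le_mul_of_nonneg_left e3 (Real.exp_pos _).le
    have e5 : Real.exp ((s + 1) * L) ≤ Real.exp 1 * Real.exp ((s + 1) * L) :=
      le_mul_of_one_le_left (Real.exp_pos _).le (by linarith)
    have e6 : 2 * (Real.exp 1 * Real.exp ((s + 1) * L)) ≤
        Real.exp 1 * (Real.exp 1 * Real.exp ((s + 1) * L)) :=
      mul_le_mul_of_nonneg_right e2 (by positivity)
    nlinarith
  calc Real.log (Real.exp 1 + gq s A r) ≤ Real.log (Real.exp (2 + (s + 1) * L)) :=
        Real.log_le_log (by positivity) h3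
    _ = 2 + (s + 1) * L := Real.log_exp _
    _ ≤ (s + 3) * L := by nlinarith

theorem E2c_aux2 {n : ℕ} (hn : 2 ≤ n) {s A r : ℝ} (hs0 : 0 < s) (hs : 1 < n * s) (hA : 0 < A)
    (hr : 0 < r) (hr1 : r < Real.exp (-1)) :
    (s + 3)⁻¹ * r⁻¹ ≤ r ^ (n - 1) * (gq s A r ^ n / Real.log (Real.exp 1 + gq s A r)) := by
  obtain ⟨h1, h2, h3⟩ := E2c_aux1 hs0 hA hr hr1
  set L := A - Real.log r with hLdef
  have hL0 : 0 < L := by linarith
  have hlog : 0 < Real.log (Real.exp 1 + gq s A r) := by
    apply Real.log_pos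
    have := Real.add_one_le_exp (1 : ℝ)
    linarith
  have hgn : gq s A r ^ n = L ^ (n * s) / r ^ n := by
    unfold gq
    rw [div_pow, ← hLdef, ← Real.rpow_natCast (L ^ s) n, ← Real.rpow_mul hL0.le, mul_comm s]
  have hrn : r ^ n = r ^ (n - 1) * r := by
    rw [← pow_succ]
    congr 1
    omega
  have hLL : L ≤ L ^ (n * s) := by
    calc L = L ^ (1 : ℝ) := (Real.rpow_one L).symm
      _ ≤ L ^ (n * s) := Real.rpow_le_rpow_of_exponent_le h2 hs.le
  have key : (s + 3)⁻¹ * r⁻¹ ≤ r⁻¹ * (L ^ (n * s) / Real.log (Real.exp 1 + gq s A r)) := by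
    rw [mul_comm]
    apply mul_le_mul_of_nonneg_left _ (inv_pos.2 hr).le
    rw [le_div_iff₀ hlog]
    calc (s + 3)⁻¹ * Real.log (Real.exp 1 + gq s A r) ≤ (s + 3)⁻¹ * ((s + 3) * L) :=
          mul_le_mul_of_nonneg_left h1 (by positivity)
      _ = L := by field_simp
      _ ≤ _ := hLL
  refine key.trans (le_of_eq ?_)
  rw [hgn, hrn]
  have : r ^ (n - 1) ≠ 0 := by positivity
  field_simp

/-- E2c. PROOF. `log (e + g) ≤ c₂ (A - log r)`, so the integrand is at least `c₃ (A - log r)^(n s - 1) / r^n`; `integrable_fun_norm_addHaar`: `∫_0^t (A - log r)^(n s - 1) dr / r = ∞` (antiderivative `-(A - log r)^(n s)/(n s)`, unbounded at 0). -/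
theorem gq_not_int {n : ℕ} (hn : 2 ≤ n) {s A : ℝ} (hs : 1 < n * s) (hA : s ≤ A) {t : ℝ}
    (ht : 0 < t) : ¬ IntegrableOn (fun x : EuclideanSpace ℝ (Fin n) => gq s A ‖x‖ ^ n /
      Real.log (Real.exp 1 + gq s A ‖x‖)) (Metric.ball 0 t) := by
  intro hint
  have hs0 : 0 < s := by
    by_contra h
    have : (n : ℝ) * s ≤ 0 := mul_nonpos_of_nonneg_of_nonpos (Nat.cast_nonneg n) (not_lt.1 h)
    linarith
  have hA0 : 0 < A := hs0.trans_le hA
  haveI : Nontrivial (EuclideanSpace ℝ (Fin n)) := by
    haveI : Nonempty (Fin n) := ⟨⟨0, by omega⟩⟩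
    infer_instance
  set t0 := min t (Real.exp (-1)) with ht0
  have ht0pos : 0 < t0 := lt_min ht (Real.exp_pos _)
  have hint2 := hint.mono_set (Metric.ball_subset_ball (min_le_left t (Real.exp (-1))))
  rw [← ht0] at hint2
  let F : ℝ → ℝ := (Iio t0).indicator (fun r => gq s A r ^ n /
      Real.log (Real.exp 1 + gq s A r))
  have hF : Integrable (fun x : EuclideanSpace ℝ (Fin n) => F ‖x‖) := by
    rw [← integrable_indicator_iff measurableSet_ball] at hint2
    refine hint2.congr (Eventually.of_forall fun x => ?_)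
    by_cases hx : x ∈ Metric.ball (0 : EuclideanSpace ℝ (Fin n)) t0
    · have hx' : ‖x‖ ∈ Iio t0 := by simpa using hx
      simp only [F]
      rw [indicator_of_mem hx, indicator_of_mem hx']
    · have hx' : ‖x‖ ∉ Iio t0 := by simpa using hx
      simp only [F]
      rw [indicator_of_notMem hx, indicator_of_notMem hx']
  rw [MeasureTheory.integrable_fun_norm_addHaar] at hF
  have hF2 : IntegrableOn (fun y : ℝ => y ^ (n - 1) * F y) (Ioo 0 t0) := by
    have := hF.mono_set (Ioo_subset_Ioi_self : Ioo 0 t0 ⊆ Ioi (0 : ℝ))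
    simpa [smul_eq_mul] using this
  have hbad : IntegrableOn (fun y : ℝ => y⁻¹) (Ioo 0 t0) := by
    have h1 : IntegrableOn (fun y : ℝ => (s + 3)⁻¹ * y⁻¹) (Ioo 0 t0) := by
      refine Integrable.mono' hF2 ?_ ?_
      · exact (measurable_inv.const_mul _).aestronglyMeasurable
      · refine (ae_restrict_iff' measurableSet_Ioo).2 (Eventually.of_forall fun y hy => ?_)
        have hy1 : y < Real.exp (-1) := hy.2.trans_le (min_le_right _ _)
        have h2 := E2c_aux2 (n := n) hn (A := A) hs0 hs hA0 hy.1 hy1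
        have hFy : F y = gq s A y ^ n / Real.log (Real.exp 1 + gq s A y) :=
          indicator_of_mem (show y ∈ Iio t0 from hy.2) _
        rw [hFy, Real.norm_eq_abs, abs_of_nonneg (by have := hy.1; positivity)]
        exact h2
    have h2 := h1.const_mul (s + 3)
    refine h2.congr (Eventually.of_forall fun y => ?_)
    have : s + 3 ≠ 0 := by positivity
    simp only []
    field_simp
  rw [← intervalIntegrable_iff_integrableOn_Ioo_of_le ht0pos.le] at hbad
  rw [intervalIntegrable_inv_iff] at hbad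
  rcases hbad with h | h
  · exact ht0pos.ne h
  · exact h (by simp)

end

end Pool.B2F
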