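import Pool.Agent.Lib.MP_b2f128_an.BaseE

/-!
# MP_b2f128_an, part E3a (the radial counterexample)
-/

open MeasureTheory Set Filter Topology
open scoped ContDiff

namespace Pool.B2F

noncomputable section

theorem E3a_norm {n : ℕ} {x : EuclideanSpace ℝ (Fin n)} (hx : x ≠ 0) :
    HasFDerivAt (fun y : EuclideanSpace ℝ (Fin n) => ‖y‖) ((1 / ‖x‖) • innerSL ℝ x) x := by
  have hx' : 0 < ‖x‖ := norm_pos_iff.mpr hx
  have h1 : HasFDerivAt (fun y : EuclideanSpace ℝ (Fin n) => ‖y‖ ^ 2)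
      (2 • (innerSL ℝ x)) x := (hasStrictFDerivAt_norm_sq x).hasFDerivAt
  have h2 := h1.sqrt (by positivity)
  have h3 : (fun y : EuclideanSpace ℝ (Fin n) => Real.sqrt (‖y‖ ^ 2)) = fun y => ‖y‖ := by
    funext y; exact Real.sqrt_sq (norm_nonneg _)
  rw [h3, Real.sqrt_sq (norm_nonneg _)] at h2
  refine h2.congr_fderiv ?_
  rw [← Nat.cast_smul_eq_nsmul ℝ 2, smul_smul]
  congr 1
  push_cast
  field_simp

theorem E3a_gq {s A r : ℝ} (hs : 0 < s) (hr : 0 < r) (hA : 0 < A - Real.log r) :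
    HasDerivAt (gq s A) ((dq s A r - gq s A r) / r) r := by
  unfold gq dq
  have h1 : HasDerivAt (fun r => A - Real.log r) (-(r⁻¹)) r := by
    simpa using (Real.hasDerivAt_log hr.ne').const_sub A
  have h2 : HasDerivAt (fun r => (A - Real.log r) ^ s)
      (-(r⁻¹) * s * (A - Real.log r) ^ (s - 1)) r := h1.rpow_const (Or.inl hA.ne')
  have h3 := h2.div (hasDerivAt_id r) hr.ne'
  refine h3.congr_deriv ?_
  simp only [id]
  field_simp

/-- E3a. -/
theorem ff_deriv {n : ℕ} {s A : ℝ} (hs : 0 < s) (hA : s ≤ A) {x : EuclideanSpace ℝ (Fin n)}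
    (hx : x ≠ 0) (hx1 : ‖x‖ < 1) (i : Fin n) : ContDiffAt ℝ ∞ (fun y => ff s A y i) x ∧
      ∀ j, fderiv ℝ (fun y => ff s A y i) x (EuclideanSpace.single j 1) = fD s A x i j := by
  have hx' : 0 < ‖x‖ := norm_pos_iff.mpr hx
  have hlog : Real.log ‖x‖ < 0 := Real.log_neg hx' hx1
  have hpos : 0 < A - Real.log ‖x‖ := by linarith
  constructor
  · unfold ff gq
    have hn : ContDiffAt ℝ ∞ (fun y : EuclideanSpace ℝ (Fin n) => ‖y‖) x := contDiffAt_norm ℝ hx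
    have h1 : ContDiffAt ℝ ∞ (fun y : EuclideanSpace ℝ (Fin n) => A - Real.log ‖y‖) x :=
      contDiffAt_const.sub (hn.log hx'.ne')
    have h2 : ContDiffAt ℝ ∞ (fun y : EuclideanSpace ℝ (Fin n) => (A - Real.log ‖y‖) ^ s) x :=
      h1.rpow_const_of_ne hpos.ne'
    have h3 := h2.div hn hx'.ne'
    have h4 : ContDiffAt ℝ ∞ (fun y : EuclideanSpace ℝ (Fin n) => y i) x :=
      (EuclideanSpace.proj (𝕜 := ℝ) i : EuclideanSpace ℝ (Fin n) →L[ℝ] ℝ).contDiff.contDiffAt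
    exact contDiffAt_const.mul (h3.mul h4)
  · intro j
    have hg : HasFDerivAt (fun y : EuclideanSpace ℝ (Fin n) => gq s A ‖y‖)
        (((dq s A ‖x‖ - gq s A ‖x‖) / ‖x‖) • ((1 / ‖x‖) • innerSL ℝ x)) x :=
      (E3a_gq hs hx' hpos).comp_hasFDerivAt x (E3a_norm hx)
    have h4 : HasFDerivAt (fun y : EuclideanSpace ℝ (Fin n) => y i)
        (EuclideanSpace.proj (𝕜 := ℝ) i : EuclideanSpace ℝ (Fin n) →L[ℝ] ℝ) x :=
      (EuclideanSpace.proj (𝕜 := ℝ) i : EuclideanSpace ℝ (Fin n) →L[ℝ] ℝ).hasFDerivAt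
    have h5 : HasFDerivAt (fun y : EuclideanSpace ℝ (Fin n) => ff s A y i)
        (sg i • (gq s A ‖x‖ • (EuclideanSpace.proj (𝕜 := ℝ) i : EuclideanSpace ℝ (Fin n) →L[ℝ] ℝ) +
          x i • (((dq s A ‖x‖ - gq s A ‖x‖) / ‖x‖) • ((1 / ‖x‖) • innerSL ℝ x)))) x :=
      (hg.mul h4).const_mul (sg i)
    rw [h5.fderiv]
    have h7 : inner ℝ x (EuclideanSpace.single j (1 : ℝ)) = x j := by
      rw [EuclideanSpace.inner_single_right]; simp
    simp only [fD, rmat, Matrix.of_apply, ContinuousLinearMap.smul_apply,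
      ContinuousLinearMap.add_apply, smul_eq_mul, innerSL_apply_apply, h7]
    have h8 : (EuclideanSpace.proj (𝕜 := ℝ) i : EuclideanSpace ℝ (Fin n) →L[ℝ] ℝ)
        (EuclideanSpace.single j (1 : ℝ)) = if i = j then (1 : ℝ) else 0 := by
      change (EuclideanSpace.single j (1 : ℝ)) i = _
      simp
    rw [h8]
    field_simp
end

end Pool.B2F
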