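import Pool.Agent.Lib.MP_b2f128_an.BaseE
import Pool.Agent.Lib.MP_b2f128_an.A02b

/-!
# MP_b2f128_an, part E3b (the radial counterexample)
-/

open MeasureTheory Set Filter Topology
open scoped ContDiff

namespace Pool.B2F

noncomputable section

theorem E3b_sg {n : ℕ} (i : Fin n) : |sg i| = 1 := by
  unfold sg
  split <;> simp

/-- `(A - log r)^s ≤ C r^(-1/2)` -/
theorem E3b_log {s A : ℝ} (hs : 0 < s) (hA : s ≤ A) {r : ℝ} (hr : 0 < r) (hr1 : r < 1) :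
    (A - Real.log r) ^ s ≤ Real.exp (A / 2 - s + s * Real.log (2 * s)) * r ^ (-(1 / 2) : ℝ) := by
  have hl : Real.log r < 0 := Real.log_neg hr hr1
  have hy : 0 < A - Real.log r := by linarith
  rw [Real.rpow_def_of_pos hy, Real.rpow_def_of_pos hr, ← Real.exp_add]
  apply Real.exp_le_exp.2
  have h1 : Real.log ((A - Real.log r) / (2 * s)) ≤ (A - Real.log r) / (2 * s) - 1 :=
    Real.log_le_sub_one_of_pos (by positivity)
  rw [Real.log_div hy.ne' (by positivity)] at h1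
  have h2 : s * (Real.log (A - Real.log r) - Real.log (2 * s)) ≤
      s * ((A - Real.log r) / (2 * s) - 1) := mul_le_mul_of_nonneg_left h1 hs.le
  have h3 : s * ((A - Real.log r) / (2 * s) - 1) = (A - Real.log r) / 2 - s := by
    field_simp
  rw [h3] at h2
  linarith

theorem E3b_gq_nonneg {s A : ℝ} (hs : 0 < s) (hA : s ≤ A) {r : ℝ} (hr : 0 < r) (hr1 : r < 1) :
    0 ≤ gq s A r := by
  have hl : Real.log r < 0 := Real.log_neg hr hr1
  unfold gq
  exact div_nonneg (Real.rpow_nonneg (by linarith) _) hr.le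

/-- `g ≤ C r^(-3/2)` -/
theorem E3b_gq {s A : ℝ} (hs : 0 < s) (hA : s ≤ A) {r : ℝ} (hr : 0 < r) (hr1 : r < 1) :
    gq s A r ≤ Real.exp (A / 2 - s + s * Real.log (2 * s)) * r ^ (-(3 / 2) : ℝ) := by
  unfold gq
  rw [div_le_iff₀ hr]
  have h : r ^ (-(3 / 2) : ℝ) * r = r ^ (-(1 / 2) : ℝ) := by
    nth_rewrite 2 [← Real.rpow_one r]
    rw [← Real.rpow_add hr]
    norm_num
  rw [mul_assoc, h]
  exact E3b_log hs hA hr hr1

theorem E3b_dq {s A : ℝ} (hs : 0 < s) (hA : s ≤ A) {r : ℝ} (hr : 0 < r) (hr1 : r < 1) :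
    |dq s A r| ≤ gq s A r := by
  have hl : Real.log r < 0 := Real.log_neg hr hr1
  have hy : 0 < A - Real.log r := by linarith
  unfold dq gq
  rw [abs_div, abs_neg, abs_of_pos hr, abs_of_nonneg (mul_nonneg hs.le (Real.rpow_nonneg hy.le _))]
  apply div_le_div_of_nonneg_right _ hr.le
  have h : (A - Real.log r) ^ s = (A - Real.log r) * (A - Real.log r) ^ (s - 1) := by
    rw [Real.rpow_sub_one hy.ne']
    field_simp
  rw [h]
  exact mul_le_mul_of_nonneg_right (by linarith) (Real.rpow_nonneg hy.le _)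

theorem E3b_coord {n : ℕ} (x : EuclideanSpace ℝ (Fin n)) (i : Fin n) : |x i| ≤ ‖x‖ := by
  have := EuclideanSpace.norm_eq x
  rw [this]
  apply Real.le_sqrt_of_sq_le
  have h : ‖x i‖ ^ 2 ≤ ∑ j, ‖x j‖ ^ 2 :=
    Finset.single_le_sum (f := fun j => ‖x j‖ ^ 2) (fun j _ => by positivity) (Finset.mem_univ i)
  simpa using h

theorem E3b_ff {n : ℕ} {s A : ℝ} (hs : 0 < s) (hA : s ≤ A) (x : EuclideanSpace ℝ (Fin n))
    (i : Fin n) (hx : x ≠ 0) (hx1 : ‖x‖ < 1) :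
    |ff s A x i| ≤ Real.exp (A / 2 - s + s * Real.log (2 * s)) * ‖x‖ ^ (-(1 / 2) : ℝ) := by
  have hr : 0 < ‖x‖ := norm_pos_iff.2 hx
  have hg := E3b_gq_nonneg hs hA hr hx1
  unfold ff
  rw [abs_mul, E3b_sg, one_mul, abs_mul, abs_of_nonneg hg]
  refine le_trans ?_ (E3b_log hs hA hr hx1)
  calc gq s A ‖x‖ * |x i| ≤ gq s A ‖x‖ * ‖x‖ := mul_le_mul_of_nonneg_left (E3b_coord x i) hg
    _ = (A - Real.log ‖x‖) ^ s := by
        unfold gq
        field_simp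

theorem E3b_fD {n : ℕ} {s A : ℝ} (hs : 0 < s) (hA : s ≤ A) (x : EuclideanSpace ℝ (Fin n))
    (i j : Fin n) (hx : x ≠ 0) (hx1 : ‖x‖ < 1) :
    |fD s A x i j| ≤ 3 * Real.exp (A / 2 - s + s * Real.log (2 * s)) * ‖x‖ ^ (-(3 / 2) : ℝ) := by
  have hr : 0 < ‖x‖ := norm_pos_iff.2 hx
  have hg := E3b_gq_nonneg hs hA hr hx1
  have hd := E3b_dq hs hA hr hx1
  have hgb := E3b_gq hs hA hr hx1
  have e : fD s A x i j = sg i * (gq s A ‖x‖ * (if i = j then 1 else 0) +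
      (dq s A ‖x‖ - gq s A ‖x‖) / ‖x‖ ^ 2 * x i * x j) := rfl
  rw [e, abs_mul, E3b_sg, one_mul]
  have h1 : |gq s A ‖x‖ * (if i = j then 1 else 0)| ≤ gq s A ‖x‖ := by
    split
    · rw [mul_one, abs_of_nonneg hg]
    · rw [mul_zero, abs_zero]; exact hg
  have h2 : |(dq s A ‖x‖ - gq s A ‖x‖) / ‖x‖ ^ 2 * x i * x j| ≤ 2 * gq s A ‖x‖ := by
    rw [abs_mul, abs_mul, abs_div, abs_of_pos (pow_pos hr 2)]
    have h3 : |x i| * |x j| ≤ ‖x‖ ^ 2 := by
      rw [sq]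
      exact mul_le_mul (E3b_coord x i) (E3b_coord x j) (abs_nonneg _) hr.le
    have h4 : |dq s A ‖x‖ - gq s A ‖x‖| ≤ 2 * gq s A ‖x‖ := by
      refine (abs_sub _ _).trans ?_
      rw [abs_of_nonneg hg]
      linarith
    calc |dq s A ‖x‖ - gq s A ‖x‖| / ‖x‖ ^ 2 * |x i| * |x j|
        = |dq s A ‖x‖ - gq s A ‖x‖| / ‖x‖ ^ 2 * (|x i| * |x j|) := by ring
      _ ≤ |dq s A ‖x‖ - gq s A ‖x‖| / ‖x‖ ^ 2 * ‖x‖ ^ 2 :=
          mul_le_mul_of_nonneg_left h3 (by positivity)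
      _ = |dq s A ‖x‖ - gq s A ‖x‖| := by field_simp
      _ ≤ 2 * gq s A ‖x‖ := h4
  calc |gq s A ‖x‖ * (if i = j then 1 else 0) +
      (dq s A ‖x‖ - gq s A ‖x‖) / ‖x‖ ^ 2 * x i * x j| ≤ _ := abs_add_le _ _
    _ ≤ 3 * gq s A ‖x‖ := by linarith
    _ ≤ 3 * (Real.exp (A / 2 - s + s * Real.log (2 * s)) * ‖x‖ ^ (-(3 / 2) : ℝ)) := by linarith
    _ = _ := by ring

theorem E3b_int {n : ℕ} (hn : 2 ≤ n) {e : ℝ} (he : -2 < e) :
    IntegrableOn (fun x : EuclideanSpace ℝ (Fin n) => ‖x‖ ^ e) (Metric.ball 0 1) := by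
  have : Nonempty (Fin n) := ⟨⟨0, by omega⟩⟩
  have : Nontrivial (EuclideanSpace ℝ (Fin n)) := inferInstance
  rw [integrableOn_fun_norm_addHaar (μ := (volume : Measure (EuclideanSpace ℝ (Fin n))))
    (f := fun r : ℝ => r ^ e) (r := 1)]
  have h : IntegrableOn (fun y : ℝ => y ^ (((n - 1 : ℕ) : ℝ) + e)) (Ioo 0 1) := by
    rw [intervalIntegral.integrableOn_Ioo_rpow_iff one_pos]
    have : (1 : ℝ) ≤ ((n - 1 : ℕ) : ℝ) := by exact_mod_cast (by omega : 1 ≤ n - 1)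
    linarith
  refine h.congr_fun ?_ measurableSet_Ioo
  intro y hy
  simp only [finrank_euclideanSpace, Fintype.card_fin, smul_eq_mul]
  rw [Real.rpow_add hy.1, Real.rpow_natCast]

theorem E3b_ae {n : ℕ} (hn : 2 ≤ n) :
    ∀ᵐ x : EuclideanSpace ℝ (Fin n) ∂(volume.restrict (Metric.ball 0 1)), x ≠ 0 ∧ ‖x‖ < 1 := by
  have : Nonempty (Fin n) := ⟨⟨0, by omega⟩⟩
  have : Nontrivial (EuclideanSpace ℝ (Fin n)) := inferInstance
  have h1 : ∀ᵐ x : EuclideanSpace ℝ (Fin n) ∂(volume.restrict (Metric.ball 0 1)), x ≠ 0 :=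
    ae_restrict_of_ae (Measure.ae_ne volume 0)
  filter_upwards [h1, ae_restrict_mem measurableSet_ball] with x hx hx1
  exact ⟨hx, by simpa using hx1⟩

theorem E3b_meas_gq {n : ℕ} (s A : ℝ) :
    Measurable (fun x : EuclideanSpace ℝ (Fin n) => gq s A ‖x‖) := by
  unfold gq
  exact ((measurable_const.sub (Real.measurable_log.comp measurable_norm)).pow_const s).div
    measurable_norm

theorem E3b_meas_dq {n : ℕ} (s A : ℝ) :
    Measurable (fun x : EuclideanSpace ℝ (Fin n) => dq s A ‖x‖) := by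
  unfold dq
  exact (((measurable_const.sub (Real.measurable_log.comp measurable_norm)).pow_const
    (s - 1)).const_mul s).neg.div measurable_norm

theorem E3b_meas_coord {n : ℕ} (i : Fin n) :
    Measurable (fun x : EuclideanSpace ℝ (Fin n) => x i) := by
  fun_prop

/-- E3b. PROOF. `|f| ≤ ρ(r)`, `|D_ij| ≤ 3 g`, `ρ(r) ≤ C r^(-1/2)`, so `g ≤ C r^(-3/2)`; `∫_0^1 r^(n - 1 - 3/2) dr < ∞` as `n ≥ 2`. -/
theorem ff_bound {n : ℕ} (hn : 2 ≤ n) {s A : ℝ} (hs : 0 < s) (hA : s ≤ A) :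
    (∀ i, IntegrableOn (fun x : EuclideanSpace ℝ (Fin n) => ff s A x i) (Metric.ball 0 1)) ∧
    (∀ i j, IntegrableOn (fun x : EuclideanSpace ℝ (Fin n) => fD s A x i j) (Metric.ball 0 1)) ∧
    ∃ C : ℝ, 0 < C ∧ ∀ (x : EuclideanSpace ℝ (Fin n)) (i : Fin n), x ≠ 0 → ‖x‖ < 1 →
      |ff s A x i| ≤ C * ‖x‖ ^ (-(1 / 2) : ℝ) := by
  refine ⟨fun i => ?_, fun i j => ?_, Real.exp (A / 2 - s + s * Real.log (2 * s)),
    Real.exp_pos _, fun x i hx hx1 => E3b_ff hs hA x i hx hx1⟩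
  · refine Integrable.mono' ((E3b_int hn (e := -(1 / 2)) (by norm_num)).const_mul
      (Real.exp (A / 2 - s + s * Real.log (2 * s)))) ?_ ?_
    · apply Measurable.aestronglyMeasurable
      unfold ff
      exact ((E3b_meas_gq s A).mul (E3b_meas_coord i)).const_mul _
    · filter_upwards [E3b_ae hn] with x hx
      rw [Real.norm_eq_abs]
      exact E3b_ff hs hA x i hx.1 hx.2
  · refine Integrable.mono' ((E3b_int hn (e := -(3 / 2)) (by norm_num)).const_mul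
      (3 * Real.exp (A / 2 - s + s * Real.log (2 * s)))) ?_ ?_
    · apply Measurable.aestronglyMeasurable
      have e : (fun x : EuclideanSpace ℝ (Fin n) => fD s A x i j) =
          fun x => sg i * (gq s A ‖x‖ * (if i = j then 1 else 0) +
            (dq s A ‖x‖ - gq s A ‖x‖) / ‖x‖ ^ 2 * x i * x j) := rfl
      rw [e]
      exact (((E3b_meas_gq s A).mul_const _).add (((((E3b_meas_dq s A).sub (E3b_meas_gq s A)).div
        (measurable_norm.pow_const 2)).mul (E3b_meas_coord i)).mul (E3b_meas_coord j))).const_mul _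
    · filter_upwards [E3b_ae hn] with x hx
      rw [Real.norm_eq_abs]
      exact E3b_fD hs hA x i j hx.1 hx.2

end

end Pool.B2F
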