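import Pool.Agent.Lib.MP_b2f128_an.BaseE
import Pool.Agent.Lib.MP_b2f128_an.A02b
import Pool.Agent.Lib.MP_b2f128_an.E3a
import Pool.Agent.Lib.MP_b2f128_an.E3b

/-!
# MP_b2f128_an, part E3c (the radial counterexample)
-/

open MeasureTheory Set Filter Topology
open scoped ContDiff

namespace Pool.B2F

noncomputable section

/-- `‖x‖^(-3/2)` is integrable on the unit ball -/
theorem E3c_rpow {n : ℕ} (hn : 2 ≤ n) :
    IntegrableOn (fun x : EuclideanSpace ℝ (Fin n) => ‖x‖ ^ (-(3 / 2) : ℝ)) (Metric.ball 0 1) := by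
  haveI : Nonempty (Fin n) := ⟨⟨0, by omega⟩⟩
  haveI : Nontrivial (EuclideanSpace ℝ (Fin n)) := by
    haveI : NeZero n := ⟨by omega⟩
    infer_instance
  rw [integrableOn_fun_norm_addHaar (μ := (volume : Measure (EuclideanSpace ℝ (Fin n))))
    (f := fun r : ℝ => r ^ (-(3 / 2) : ℝ)) (r := 1)]
  rw [finrank_euclideanSpace, Fintype.card_fin]
  have h1 : IntegrableOn (fun y : ℝ => y ^ ((n : ℝ) - 1 - 3 / 2)) (Ioo 0 1) := by
    rw [intervalIntegral.integrableOn_Ioo_rpow_iff zero_lt_one]
    have : (2 : ℝ) ≤ n := by exact_mod_cast hn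
    linarith
  refine (integrableOn_congr_fun ?_ measurableSet_Ioo).mp h1
  intro y hy
  have hy0 : 0 < y := hy.1
  simp only [smul_eq_mul]
  rw [← Real.rpow_natCast, ← Real.rpow_add hy0]
  congr 1
  rw [Nat.cast_sub (by omega)]
  push_cast
  ring

/-- E3c. -/
theorem ff_weak {n : ℕ} (hn : 2 ≤ n) {s A : ℝ} (hs : 0 < s) (hA : s ≤ A) :
    IsWeakDiff (Metric.ball (0 : EuclideanSpace ℝ (Fin n)) 1) (ff s A) (fD s A) := by
  obtain ⟨hfi, hDi, C0, hC0, hfb⟩ := ff_bound (n := n) hn hs hA
  refine ⟨fun i => (hfi i).locallyIntegrableOn, fun i j => (hDi i j).locallyIntegrableOn, ?_⟩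
  intro φ hφ hφc hφs i j
  set v : EuclideanSpace ℝ (Fin n) := EuclideanSpace.single j (1 : ℝ) with hv
  set f : EuclideanSpace ℝ (Fin n) → ℝ := fun x => ff s A x i with hf
  set D : EuclideanSpace ℝ (Fin n) → ℝ := fun x => fD s A x i j with hD
  -- facts on φ
  have hφd : Differentiable ℝ φ := hφ.differentiable (by simp)
  have hφcont : Continuous φ := hφ.continuous
  have hφ'cont : Continuous (fun x => fderiv ℝ φ x v) :=
    (hφ.continuous_fderiv (by simp)).clm_apply continuous_const
  have hφ'c : HasCompactSupport (fun x => fderiv ℝ φ x v) :=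
    (hφc.fderiv ℝ).comp_left (g := fun L : EuclideanSpace ℝ (Fin n) →L[ℝ] ℝ => L v) rfl
  have hφ0 : ∀ x, x ∉ Metric.ball (0 : EuclideanSpace ℝ (Fin n)) 1 → φ x = 0 := fun x hx =>
    image_eq_zero_of_notMem_tsupport (fun h => hx (hφs h))
  have hφ'0 : ∀ x, x ∉ Metric.ball (0 : EuclideanSpace ℝ (Fin n)) 1 → fderiv ℝ φ x v = 0 := by
    intro x hx
    have h1 : x ∉ tsupport φ := fun h => hx (hφs h)
    have h2 : fderiv ℝ φ x = 0 := by
      have := (notMem_tsupport_iff_eventuallyEq.mp h1).fderiv_eq (𝕜 := ℝ)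
      rw [this]
      exact fderiv_const_apply (𝕜 := ℝ) (0 : ℝ)
    rw [h2]
    rfl
  obtain ⟨C1, hC1⟩ := hφc.exists_bound_of_continuous hφcont
  obtain ⟨C2, hC2⟩ := hφ'c.exists_bound_of_continuous hφ'cont
  -- integrability of D φ and f φ'
  have hI1 : Integrable (fun x => D x * φ x) := by
    have h1 : Integrable (fun x => (Metric.ball (0 : EuclideanSpace ℝ (Fin n)) 1).indicator D x
        * φ x) :=
      (((hDi i j).integrable_indicator Metric.isOpen_ball.measurableSet)).mul_bdd
        hφcont.aestronglyMeasurable (Eventually.of_forall hC1)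
    refine h1.congr (Eventually.of_forall fun x => ?_)
    by_cases hx : x ∈ Metric.ball (0 : EuclideanSpace ℝ (Fin n)) 1
    · simp only [indicator_of_mem hx]
    · simp only [indicator_of_notMem hx, hφ0 x hx, mul_zero]
  have hI2 : Integrable (fun x => f x * fderiv ℝ φ x v) := by
    have h1 : Integrable (fun x => (Metric.ball (0 : EuclideanSpace ℝ (Fin n)) 1).indicator f x
        * fderiv ℝ φ x v) :=
      (((hfi i).integrable_indicator Metric.isOpen_ball.measurableSet)).mul_bdd
        hφ'cont.aestronglyMeasurable (Eventually.of_forall hC2)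
    refine h1.congr (Eventually.of_forall fun x => ?_)
    by_cases hx : x ∈ Metric.ball (0 : EuclideanSpace ℝ (Fin n)) 1
    · simp only [indicator_of_mem hx]
    · simp only [indicator_of_notMem hx, hφ'0 x hx, mul_zero]
  -- the bump function
  let b : ContDiffBump (0 : EuclideanSpace ℝ (Fin n)) := ⟨1, 2, one_pos, one_lt_two⟩
  have hbC : ContDiff ℝ ∞ b := b.contDiff (n := (⊤ : ℕ∞))
  have hbc : Continuous (fun x => fderiv ℝ b x v) :=
    (hbC.continuous_fderiv (by simp)).clm_apply continuous_const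
  have hbs : HasCompactSupport (fun x => fderiv ℝ b x v) :=
    (b.hasCompactSupport.fderiv ℝ).comp_left
      (g := fun L : EuclideanSpace ℝ (Fin n) →L[ℝ] ℝ => L v) rfl
  obtain ⟨C3, hC3⟩ := hbs.exists_bound_of_continuous hbc
  have hC3' : 0 ≤ C3 := (norm_nonneg _).trans (hC3 0)
  have hC1' : 0 ≤ C1 := (norm_nonneg _).trans (hC1 0)
  let η : ℝ → EuclideanSpace ℝ (Fin n) → ℝ := fun t x => 1 - b (t⁻¹ • x)
  have hηs : ∀ t, ContDiff ℝ ∞ (η t) := by
    intro t
    exact contDiff_const.sub (hbC.comp (contDiff_const_smul t⁻¹))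
  have hηd : ∀ t x, fderiv ℝ (η t) x v = -(t⁻¹ * fderiv ℝ b (t⁻¹ • x) v) := by
    intro t x
    have h1 : HasFDerivAt (fun x => b (t⁻¹ • x))
        ((fderiv ℝ b (t⁻¹ • x)).comp (t⁻¹ • ContinuousLinearMap.id ℝ _)) x :=
      HasFDerivAt.comp (g := fun y => b y) (f := fun x => t⁻¹ • x) x
        ((hbC.differentiable (by simp)) (t⁻¹ • x)).hasFDerivAt
        ((hasFDerivAt_id x).const_smul t⁻¹)
    have h2 := (h1.const_sub 1).fderiv
    have h3 : fderiv ℝ (η t) x = -((fderiv ℝ b (t⁻¹ • x)).comp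
      (t⁻¹ • ContinuousLinearMap.id ℝ _)) := h2
    rw [h3]
    simp
  have hη0 : ∀ t, 0 < t → η t =ᶠ[𝓝 0] fun _ => 0 := by
    intro t ht
    have h1 : Metric.ball (0 : EuclideanSpace ℝ (Fin n)) t ∈ 𝓝 0 := Metric.ball_mem_nhds _ ht
    filter_upwards [h1] with x hx
    have h2 : b (t⁻¹ • x) = 1 := by
      apply b.one_of_mem_closedBall
      rw [mem_closedBall_zero_iff, norm_smul, norm_inv, Real.norm_of_nonneg ht.le]
      rw [mem_ball_zero_iff] at hx
      show t⁻¹ * ‖x‖ ≤ 1
      rw [inv_mul_le_iff₀ ht]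
      linarith
    show 1 - b (t⁻¹ • x) = 0
    rw [h2, sub_self]
  have hη1 : ∀ t x, 0 < t → 2 * t ≤ ‖x‖ → η t x = 1 := by
    intro t x ht hx
    have h2 : b (t⁻¹ • x) = 0 := by
      apply b.zero_of_le_dist
      rw [dist_zero_right, norm_smul, norm_inv, Real.norm_of_nonneg ht.le]
      show (2 : ℝ) ≤ t⁻¹ * ‖x‖
      rw [le_inv_mul_iff₀ ht]
      linarith
    show 1 - b (t⁻¹ • x) = 1
    rw [h2, sub_zero]
  have hη1' : ∀ t x, 0 < t → 2 * t < ‖x‖ → fderiv ℝ (η t) x v = 0 := by
    intro t x ht hx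
    have h1 : η t =ᶠ[𝓝 x] fun _ => 1 := by
      have h2 : {y : EuclideanSpace ℝ (Fin n) | 2 * t < ‖y‖} ∈ 𝓝 x :=
        (isOpen_lt continuous_const continuous_norm).mem_nhds hx
      filter_upwards [h2] with y hy
      exact hη1 t y ht (le_of_lt hy)
    rw [h1.fderiv_eq]
    simp
  have hηb : ∀ t x, |η t x| ≤ 1 := by
    intro t x
    have h1 := b.nonneg (x := t⁻¹ • x)
    have h2 := b.le_one (x := t⁻¹ • x)
    rw [abs_le]
    constructor
    · show -1 ≤ 1 - b (t⁻¹ • x)
      linarith
    · show 1 - b (t⁻¹ • x) ≤ 1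
      linarith
  -- the product
  let P : ℝ → EuclideanSpace ℝ (Fin n) → ℝ := fun t x => η t x * (f x * φ x)
  let G : ℝ → EuclideanSpace ℝ (Fin n) → ℝ := fun t x =>
    fderiv ℝ (η t) x v * (f x * φ x) + η t x * (D x * φ x + f x * fderiv ℝ φ x v)
  have hP0 : ∀ t, 0 < t → P t =ᶠ[𝓝 0] fun _ => 0 := by
    intro t ht
    filter_upwards [hη0 t ht] with x hx
    show η t x * _ = 0
    rw [hx, zero_mul]
  have hPn : ∀ t x, x ∉ tsupport φ → P t =ᶠ[𝓝 x] fun _ => 0 := by
    intro t x hx
    filter_upwards [notMem_tsupport_iff_eventuallyEq.mp hx] with y hy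
    show η t y * (f y * φ y) = 0
    rw [hy]
    simp
  have hPs : ∀ t, 0 < t → ContDiff ℝ ∞ (P t) := by
    intro t ht
    rw [contDiff_iff_contDiffAt]
    intro x
    by_cases hx : x = 0
    · rw [hx]
      exact contDiffAt_const.congr_of_eventuallyEq (hP0 t ht)
    · by_cases hx1 : x ∈ tsupport φ
      · have h1 := hφs hx1
        rw [mem_ball_zero_iff] at h1
        exact (hηs t).contDiffAt.mul
          (((ff_deriv hs hA hx h1 i).1).mul hφ.contDiffAt)
      · exact contDiffAt_const.congr_of_eventuallyEq (hPn t x hx1)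
  have hPG : ∀ t, 0 < t → ∀ x, fderiv ℝ (P t) x v = G t x := by
    intro t ht x
    by_cases hx : x = 0
    · have h1 : fderiv ℝ (P t) x = 0 := by
        rw [hx, (hP0 t ht).fderiv_eq]
        simp
      have h2 : fderiv ℝ (η t) x = 0 := by
        rw [hx, (hη0 t ht).fderiv_eq]
        simp
      have h3 : η t x = 0 := by
        rw [hx]
        exact (hη0 t ht).eq_of_nhds
      show _ = fderiv ℝ (η t) x v * (f x * φ x) + η t x * (D x * φ x + f x * fderiv ℝ φ x v)
      rw [h1, h2, h3]
      simp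
    · by_cases hx1 : x ∈ tsupport φ
      · have h1 := hφs hx1
        rw [mem_ball_zero_iff] at h1
        obtain ⟨h2, h3⟩ := ff_deriv hs hA hx h1 i
        have h4 : HasFDerivAt f (fderiv ℝ f x) x := (h2.differentiableAt (by simp)).hasFDerivAt
        have h5 := ((hηs t).differentiable (by simp) x).hasFDerivAt.mul
          (h4.mul (hφd x).hasFDerivAt)
        have h6 : fderiv ℝ (P t) x = _ := h5.fderiv
        rw [h6]
        have h7 : fderiv ℝ f x v = D x := h3 j
        simp only [add_apply, smul_apply, smul_eq_mul, h7]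
        show _ = fderiv ℝ (η t) x v * (f x * φ x) + η t x * (D x * φ x + f x * fderiv ℝ φ x v)
        simp only [Pi.mul_apply]
        ring
      · have h1 : fderiv ℝ (P t) x = 0 := by
          rw [(hPn t x hx1).fderiv_eq]
          simp
        have h2 : φ x = 0 := image_eq_zero_of_notMem_tsupport hx1
        have h3 : fderiv ℝ φ x = 0 := by
          rw [(notMem_tsupport_iff_eventuallyEq.mp hx1).fderiv_eq]
          exact fderiv_const_apply (𝕜 := ℝ) (0 : ℝ)
        show _ = fderiv ℝ (η t) x v * (f x * φ x) + η t x * (D x * φ x + f x * fderiv ℝ φ x v)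
        rw [h1, h2, h3]
        simp
  have hPc : ∀ t, HasCompactSupport (P t) := by
    intro t
    have h1 : HasCompactSupport (fun x => f x * φ x) := hφc.mul_left
    exact h1.mul_left
  have hGc : ∀ t, 0 < t → Continuous (G t) := by
    intro t ht
    have h1 : G t = fun x => fderiv ℝ (P t) x v := by
      funext x
      exact (hPG t ht x).symm
    rw [h1]
    exact ((hPs t ht).continuous_fderiv (by simp)).clm_apply continuous_const
  have hG0 : ∀ t, 0 < t → ∫ x, G t x = 0 := by
    intro t ht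
    have h1 : Integrable (fun x => fderiv ℝ (P t) x v * (1 : ℝ)) := by
      have h2 : Continuous (fun x => fderiv ℝ (P t) x v * (1 : ℝ)) := by
        simp only [mul_one]
        exact ((hPs t ht).continuous_fderiv (by simp)).clm_apply continuous_const
      refine h2.integrable_of_hasCompactSupport ?_
      simp only [mul_one]
      exact ((hPc t).fderiv ℝ).comp_left
        (g := fun L : EuclideanSpace ℝ (Fin n) →L[ℝ] ℝ => L v) rfl
    have h3 : Integrable (fun x => P t x * fderiv ℝ (fun _ : EuclideanSpace ℝ (Fin n) => (1:ℝ)) x v)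
        := by
      simp
    have h4 : Integrable (fun x => P t x * (1 : ℝ)) := by
      simp only [mul_one]
      exact (hPs t ht).continuous.integrable_of_hasCompactSupport (hPc t)
    have h5 := integral_mul_fderiv_eq_neg_fderiv_mul_of_integrable (f := P t)
      (g := fun _ : EuclideanSpace ℝ (Fin n) => (1:ℝ)) (v := v) (μ := volume) h1 h3 h4
      (fun x _ => (hPs t ht).differentiable (by simp) x)
      (fun x _ => differentiableAt_const _)
    have h6 : ∫ x, fderiv ℝ (P t) x v * (1 : ℝ) = 0 := by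
      have h7 : ∫ x, P t x * fderiv ℝ (fun _ : EuclideanSpace ℝ (Fin n) => (1:ℝ)) x v = 0 := by
        simp
      rw [h7] at h5
      linarith
    rw [← h6]
    refine integral_congr_ae (Eventually.of_forall fun x => ?_)
    simp only [mul_one]
    exact (hPG t ht x).symm
  -- the limit
  let t : ℕ → ℝ := fun k => 1 / ((k : ℝ) + 1)
  have ht : ∀ k, 0 < t k := fun k => by
    show 0 < 1 / ((k : ℝ) + 1)
    positivity
  have htl : Tendsto t atTop (𝓝 0) := tendsto_one_div_add_atTop_nhds_zero_nat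
  let F : EuclideanSpace ℝ (Fin n) → ℝ := fun x => D x * φ x + f x * fderiv ℝ φ x v
  have hF : Integrable F := hI1.add hI2
  let K : ℝ := 2 * C3 * (C0 * C1)
  have hae : ∀ᵐ x : EuclideanSpace ℝ (Fin n), x ≠ 0 := by
    haveI : NeZero n := ⟨by omega⟩
    exact Measure.ae_ne volume 0
  have hlim : Tendsto (fun k => ∫ x, G (t k) x) atTop (𝓝 (∫ x, F x)) := by
    refine tendsto_integral_of_dominated_convergence
      (fun x => K * (Metric.ball (0 : EuclideanSpace ℝ (Fin n)) 1).indicator
        (fun x => ‖x‖ ^ (-(3 / 2) : ℝ)) x + |F x|)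
      (fun k => (hGc (t k) (ht k)).aestronglyMeasurable) ?_ ?_ ?_
    · exact (((E3c_rpow hn).integrable_indicator Metric.isOpen_ball.measurableSet).const_mul K).add
        hF.abs
    · intro k
      filter_upwards [hae] with x hx
      have hx0 : 0 < ‖x‖ := norm_pos_iff.mpr hx
      have h1 : |η (t k) x * F x| ≤ |F x| := by
        rw [abs_mul]
        exact mul_le_of_le_one_left (abs_nonneg _) (hηb _ _)
      have h2 : |fderiv ℝ (η (t k)) x v * (f x * φ x)| ≤
          K * (Metric.ball (0 : EuclideanSpace ℝ (Fin n)) 1).indicator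
            (fun x => ‖x‖ ^ (-(3 / 2) : ℝ)) x := by
        by_cases hx1 : x ∈ Metric.ball (0 : EuclideanSpace ℝ (Fin n)) 1
        · rw [indicator_of_mem hx1]
          have h3 : |fderiv ℝ (η (t k)) x v| ≤ 2 * C3 * ‖x‖⁻¹ := by
            by_cases hx2 : 2 * t k < ‖x‖
            · rw [hη1' (t k) x (ht k) hx2, abs_zero]
              positivity
            · have h4 : ‖x‖ ≤ 2 * t k := not_lt.mp hx2
              rw [hηd, abs_neg, abs_mul, abs_of_pos (inv_pos.mpr (ht k))]
              have h5 : |fderiv ℝ b ((t k)⁻¹ • x) v| ≤ C3 := hC3 _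
              have h6 : (t k)⁻¹ ≤ 2 * ‖x‖⁻¹ := by
                rw [inv_le_iff_one_le_mul₀ (ht k)]
                have h7 : 1 = ‖x‖⁻¹ * ‖x‖ := (inv_mul_cancel₀ hx0.ne').symm
                have h8 : ‖x‖⁻¹ * ‖x‖ ≤ ‖x‖⁻¹ * (2 * t k) :=
                  mul_le_mul_of_nonneg_left h4 (inv_nonneg.mpr hx0.le)
                nlinarith
              calc (t k)⁻¹ * |fderiv ℝ b ((t k)⁻¹ • x) v| ≤ (2 * ‖x‖⁻¹) * C3 :=
                    mul_le_mul h6 h5 (abs_nonneg _) (by positivity)
                _ = 2 * C3 * ‖x‖⁻¹ := by ring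
          have h4 : |f x * φ x| ≤ C0 * C1 * ‖x‖ ^ (-(1 / 2) : ℝ) := by
            rw [abs_mul]
            have h5 := hfb x i hx (mem_ball_zero_iff.mp hx1)
            have h6 : |φ x| ≤ C1 := hC1 x
            calc |f x| * |φ x| ≤ (C0 * ‖x‖ ^ (-(1 / 2) : ℝ)) * C1 :=
                  mul_le_mul h5 h6 (abs_nonneg _) (by positivity)
              _ = _ := by ring
          rw [abs_mul]
          have h5 : ‖x‖ ^ (-(3 / 2) : ℝ) = ‖x‖⁻¹ * ‖x‖ ^ (-(1 / 2) : ℝ) := by
            rw [← Real.rpow_neg_one, ← Real.rpow_add hx0]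
            congr 1
            norm_num
          calc |fderiv ℝ (η (t k)) x v| * |f x * φ x|
              ≤ (2 * C3 * ‖x‖⁻¹) * (C0 * C1 * ‖x‖ ^ (-(1 / 2) : ℝ)) :=
                mul_le_mul h3 h4 (abs_nonneg _) (by positivity)
            _ = K * ‖x‖ ^ (-(3 / 2) : ℝ) := by
                rw [h5]
                show _ = 2 * C3 * (C0 * C1) * _
                ring
        · rw [indicator_of_notMem hx1, hφ0 x hx1]
          simp
      calc ‖G (t k) x‖ = |fderiv ℝ (η (t k)) x v * (f x * φ x) + η (t k) x * F x| := rfl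
        _ ≤ |fderiv ℝ (η (t k)) x v * (f x * φ x)| + |η (t k) x * F x| := abs_add_le _ _
        _ ≤ _ := add_le_add h2 h1
    · filter_upwards [hae] with x hx
      have hx0 : 0 < ‖x‖ := norm_pos_iff.mpr hx
      have h1 : ∀ᶠ k in atTop, t k < ‖x‖ / 2 := htl.eventually_lt_const (by positivity)
      refine tendsto_const_nhds.congr' ?_
      filter_upwards [h1] with k hk
      have h2 : 2 * t k < ‖x‖ := by linarith
      show F x = fderiv ℝ (η (t k)) x v * (f x * φ x) + η (t k) x * F x
      rw [hη1' (t k) x (ht k) h2, hη1 (t k) x (ht k) h2.le]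
      ring
  have hF0 : ∫ x, F x = 0 := by
    have h1 : (fun k => ∫ x, G (t k) x) = fun _ => 0 := by
      funext k
      exact hG0 (t k) (ht k)
    rw [h1] at hlim
    exact (tendsto_nhds_unique hlim tendsto_const_nhds)
  have h2 : ∫ x, F x = (∫ x, D x * φ x) + ∫ x, f x * fderiv ℝ φ x v := integral_add hI1 hI2
  show ∫ x, f x * fderiv ℝ φ x v = -∫ x, D x * φ x
  linarith

end

end Pool.B2F
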