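import Pool.Agent.Lib.MP_b2f128_an.BaseE
import Pool.Agent.Lib.MP_b2f128_an.E1b
import Pool.Agent.Lib.MP_b2f128_an.E2a
import Pool.Agent.Lib.MP_b2f128_an.E2b
import Pool.Agent.Lib.MP_b2f128_an.E2c
import Pool.Agent.Lib.MP_b2f128_an.E3c

/-!
# MP_b2f128_an, part E4 (the radial counterexample)
-/

open MeasureTheory Set Filter Topology
open scoped ContDiff

namespace Pool.B2F

noncomputable section

theorem E4_ae {n : ℕ} (hn : 2 ≤ n) : ∀ᵐ x : EuclideanSpace ℝ (Fin n), x ≠ 0 := by
  have : Nonempty (Fin n) := ⟨⟨0, by omega⟩⟩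
  have : Nontrivial (EuclideanSpace ℝ (Fin n)) := inferInstance
  have h : (volume : Measure (EuclideanSpace ℝ (Fin n))) {0} = 0 := measure_singleton 0
  rw [ae_iff]
  have e : {a : EuclideanSpace ℝ (Fin n) | ¬ a ≠ 0} = {0} := by
    ext a; simp
  rw [e]; exact h

/-- E4. PROOF. `s = (1 + c)/(2 n)`, `A = s`, `β = 1`, `K = fK s A`; `fD_dist`, `fK_int`, `gq_int`, `gq_not_int`, `ff_weak`. -/
theorem not_PP_all {n : ℕ} (hn : 2 ≤ n) {c : ℝ} (hc : 1 < c) : ¬ PP n c := by
  intro hPP
  have hn0 : (0 : ℝ) < n := by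
    have : 0 < n := by omega
    exact_mod_cast this
  obtain ⟨s, hsdef⟩ : ∃ s : ℝ, s = (1 + c) / (2 * n) := ⟨_, rfl⟩
  have hns : (n : ℝ) * s = (1 + c) / 2 := by rw [hsdef]; field_simp
  have hs : 0 < s := by rw [hsdef]; positivity
  have h1 : 1 < (n : ℝ) * s := by rw [hns]; linarith
  have h2 : (n : ℝ) * s < c := by rw [hns]; linarith
  have hae := E4_ae hn
  have hop : ∀ t : ℝ, t ≤ 1 → ∀ᵐ x : EuclideanSpace ℝ (Fin n), x ∈ Metric.ball (0 : EuclideanSpace ℝ (Fin n)) t →
      opn (fD s s x) = gq s s ‖x‖ := by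
    intro t ht
    filter_upwards [hae] with x hx hxt
    have hx1 : ‖x‖ < 1 := lt_of_lt_of_le (by simpa using hxt) ht
    exact (fD_dist hn hs le_rfl hx hx1).1
  have hgi := gq_int hn (A := s) h1 le_rfl h2
  have hexp := fK_int hn (A := s) h1 le_rfl
  have hmain := hPP (Metric.ball 0 1) Metric.isOpen_ball 1 one_pos (ff s s) (fD s s) (fK s s)
    (ff_weak hn hs le_rfl) hexp.1 (fun x _ => le_max_left _ _) (by
      filter_upwards [hae] with x hx hxb
      have hx1 : ‖x‖ < 1 := by simpa using hxb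
      exact (fD_dist hn hs le_rfl hx hx1).2.2.2)
    (by simpa only [one_mul] using hexp.2.locallyIntegrableOn)
    (by
      refine IntegrableOn.locallyIntegrableOn ?_
      refine hgi.congr_fun_ae ?_
      rw [EventuallyEq, ae_restrict_iff' measurableSet_ball]
      filter_upwards [hop 1 le_rfl] with x hx hxb
      rw [hx hxb, mul_one])
  have h3 : IntegrableOn (fun x : EuclideanSpace ℝ (Fin n) => opn (fD s s x) ^ n /
      Real.log (Real.exp 1 + opn (fD s s x))) (Metric.closedBall 0 (1 / 2)) :=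
    hmain.1.integrableOn_compact_subset (Metric.closedBall_subset_ball (by norm_num))
      (isCompact_closedBall _ _)
  have h4 := h3.mono_set (Metric.ball_subset_closedBall (x := (0 : EuclideanSpace ℝ (Fin n))) (ε := 1 / 2))
  refine gq_not_int hn (A := s) h1 le_rfl (t := 1 / 2) (by norm_num) ?_
  refine h4.congr_fun_ae ?_
  rw [EventuallyEq, ae_restrict_iff' measurableSet_ball]
  filter_upwards [hop (1 / 2) (by norm_num)] with x hx hxb
  rw [hx hxb]

end

end Pool.B2F
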