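import Pool.Agent.Lib.MP_b2f128_an.BaseD
import Pool.Agent.Lib.MP_b2f128_an.D2b
import Pool.Agent.Lib.MP_b2f128_an.E4

/-!
# MP_b2f128_an, part D4 (transfer)
-/

open Complex MeasureTheory Set Filter Topology
open scoped ContDiff

namespace Pool.B2F

noncomputable section

theorem isLUB_one : IsLUB {c : ℝ | 0 < c ∧ PP 2 c} 1 := by
  constructor
  · rintro c ⟨_, hc⟩
    by_contra h
    exact not_PP_all le_rfl (not_le.1 h) hc
  · intro b hb
    by_contra h
    push Not at h
    have h2 : max (1 / 2) ((1 + b) / 2) < 1 := by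
      apply max_lt <;> linarith
    have h3 := hb ⟨lt_of_lt_of_le (by norm_num) (le_max_left _ _), PP_of_lt
      (lt_of_lt_of_le (by norm_num) (le_max_left (1 / 2) ((1 + b) / 2))) h2⟩
    have h4 := le_max_right (1 / 2 : ℝ) ((1 + b) / 2)
    linarith

end

end Pool.B2F
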