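import Mathlib

/-!
# MP_b2f128_an: definitions (planar mappings with exponentially integrable distortion)

Everything is about functions on the complex plane.  `dz`, `dzb` are the Wirtinger derivatives.
-/

open Complex MeasureTheory Set Filter Topology
open scoped ContDiff

namespace Pool.B2F

noncomputable section

/-- the derivative with respect to `z` -/
def dz (f : ℂ → ℂ) (z : ℂ) : ℂ := (fderiv ℝ f z 1 - I * fderiv ℝ f z I) / 2

/-- the derivative with respect to the conjugate of `z` -/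
def dzb (f : ℂ → ℂ) (z : ℂ) : ℂ := (fderiv ℝ f z 1 + I * fderiv ℝ f z I) / 2

/-- Jacobian determinant -/
def jac (f : ℂ → ℂ) (z : ℂ) : ℝ := ‖dz f z‖ ^ 2 - ‖dzb f z‖ ^ 2

/-- smooth functions with compact support in `U` -/
structure Cc (U : Set ℂ) (f : ℂ → ℂ) : Prop where
  smooth : ContDiff ℝ ∞ f
  cpt : HasCompactSupport f
  sub : tsupport f ⊆ U

/-- distortion belonging to a Beltrami coefficient of modulus `t` -/
def kap (t : ℝ) : ℝ := (1 + t) / (1 - t)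

/-- Cauchy transform -/
def cau (ψ : ℂ → ℂ) (z : ℂ) : ℂ := (1 / Real.pi : ℂ) * ∫ ζ, ψ (z - ζ) / ζ

/-- Beurling transform (of smooth functions with compact support) -/
def beu (ψ : ℂ → ℂ) : ℂ → ℂ := cau (dz ψ)

/-- `(μ S)^n b` -/
def itr (μ b : ℂ → ℂ) : ℕ → ℂ → ℂ
  | 0 => b
  | n + 1 => fun z => μ z * beu (itr μ b n) z

/-- `L²` norm on a set -/
def n2 (s : Set ℂ) (f : ℂ → ℂ) : ℝ := Real.sqrt (∫ z in s, ‖f z‖ ^ 2)

/-- `τ^l = ∑ l^(n+1) (μ S)^n (dz μ)` -/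
def tauF (μ : ℂ → ℂ) (l : ℂ) (z : ℂ) : ℂ := ∑' n : ℕ, l ^ (n + 1) * itr μ (dz μ) n z

/-- `σ^l`, the logarithm of `dz F^l` -/
def sgm (μ : ℂ → ℂ) (l : ℂ) : ℂ → ℂ := cau (tauF μ l)

/-- `dz F^l` -/
def aa (μ : ℂ → ℂ) (l z : ℂ) : ℂ := Complex.exp (sgm μ l z)

/-- `dzb F^l` -/
def psi (μ : ℂ → ℂ) (l z : ℂ) : ℂ := l * μ z * aa μ l z

/-- the principal solution of the Beltrami equation with coefficient `l μ` -/
def Fm (μ : ℂ → ℂ) (l z : ℂ) : ℂ := z + cau (psi μ l) z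

/-- `F` is a good solution of the Beltrami equation with coefficient `μ`, `G` is its inverse -/
structure Good (C b' : ℝ) (μ F G : ℂ → ℂ) : Prop where
  cF : ContDiff ℝ ∞ F
  cG : ContDiff ℝ ∞ G
  GF : ∀ z, G (F z) = z
  FG : ∀ w, F (G w) = w
  bel : ∀ z, dzb F z = μ z * dz F z
  nz : ∀ z, dz F z ≠ 0
  near : ∀ z, ‖F z - z‖ ≤ C
  area : ∫ z in Metric.ball (0 : ℂ) 1, jac F z ≤ C
  dist : ∀ (L : ℝ) (E : Set ℂ), 1 ≤ L → MeasurableSet E → E ⊆ Metric.ball 0 1 →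
    (volume E).toReal ≤ Real.exp (-L) → ∫ z in E, jac F z ≤ C * L ^ (-b')

/-- admissible Beltrami coefficients -/
structure Adm (b M : ℝ) (μ : ℂ → ℂ) : Prop where
  smooth : ContDiff ℝ ∞ μ
  supp : tsupport μ ⊆ Metric.closedBall 0 (7 / 8)
  lt : ∀ z, ‖μ z‖ < 1
  int : ∫ z in Metric.ball (0 : ℂ) 1, Real.exp (b * kap ‖μ z‖) ≤ M

/-- the set where the (centred) maximal function of `g` is larger than `Λ / π` -/
def Bad (g : ℂ → ℝ) (Λ : ℝ) : Set ℂ := {x | ∃ r : ℝ, 0 < r ∧ Λ * r ^ 2 < ∫ z in Metric.ball x r, g z}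

/-- `a`, `b` are the weak Wirtinger derivatives of `f` in the disc of radius 2 -/
structure Weak2 (f a b : ℂ → ℂ) : Prop where
  intf : IntegrableOn f (Metric.ball 0 2)
  inta : IntegrableOn a (Metric.ball 0 2)
  intb : IntegrableOn b (Metric.ball 0 2)
  wz : ∀ φ, Cc (Metric.ball 0 2) φ → ∫ z, f z * dz φ z = -∫ z, a z * φ z
  wzb : ∀ φ, Cc (Metric.ball 0 2) φ → ∫ z, f z * dzb φ z = -∫ z, b z * φ z

end

end Pool.B2F
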